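import Pool.Agent.Lib_helper61.SwCograph

set_option autoImplicit false

namespace Pool.Agent.NTW.CographKept

open Pool.Agent.Lib_helper61.SwitchBasic Pool.Agent.Lib_helper61.SwMain
  Pool.Agent.Lib_helper61.SwCograph Finset

theorem p4Free_of {α : Type*} (Γ : SimpleGraph α)
    (h : ¬ (SimpleGraph.pathGraph 4).IsIndContained Γ) : P4Free Γ := by
  intro a b c d hab hbc hcd hac hbd had
  apply h
  have e1 : a ≠ b := hab.ne
  have e2 : b ≠ c := hbc.ne
  have e3 : c ≠ d := hcd.ne
  have e4 : a ≠ c := by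
    rintro rfl
    exact had hcd
  have e5 : b ≠ d := by
    rintro rfl
    exact had hab
  have e6 : a ≠ d := by
    rintro rfl
    exact hac hcd.symm
  refine ⟨⟨⟨![a, b, c, d], ?_⟩, ?_⟩⟩
  · intro i j hij
    fin_cases i <;> fin_cases j <;> simp_all
  · intro i j
    have hba := hab.symm
    have hcb := hbc.symm
    have hdc := hcd.symm
    have hca : ¬ Γ.Adj c a := fun h => hac h.symm
    have hdb : ¬ Γ.Adj d b := fun h => hbd h.symm
    have hda : ¬ Γ.Adj d a := fun h => had h.symm
    change Γ.Adj (![a, b, c, d] i) (![a, b, c, d] j) ↔ (SimpleGraph.pathGraph 4).Adj i j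
    fin_cases i <;> fin_cases j <;>
      simp [SimpleGraph.pathGraph_adj, hab, hbc, hcd, hac, hbd, had, hba, hcb, hdc, hca, hdb, hda]

theorem core (p : ℕ) (hp : p ≠ 4) (G : SimpleGraph (Fin p)) (S : Finset (Fin p))
    (h3 : 3 ≤ Nat.card (sw G S).ConnectedComponent)
    (hs : ∀ c : (sw G S).ConnectedComponent, 2 * c.supp.ncard ≤ p)
    (H : SimpleGraph (Fin p)) (hdeck : SameDeck G H) : Nonempty (G ≃g H) := by
  by_contra hne
  have h4 := four_dvd hdeck hne
  rw [Fintype.card_fin] at h4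
  have hp8 : 8 ≤ p := by
    obtain ⟨⟨m, hm⟩, h0⟩ := h4
    omega
  apply hne
  have hn4 : Fintype.card (Fin p) ≠ 4 := by simpa using hp
  refine main_comps hn4 h3 (fun c => ?_) (small_aut _ h3 (fun c => ?_)) S rfl hdeck
  · have := hs c
    rw [Fintype.card_fin]
    omega
  · rw [Fintype.card_fin]
    exact hs c

/-- Let `p ≠ 4`. Every graph `G` on `p` vertices that is switching-equivalent to a cograph
(a graph without induced path on four vertices) is switching-reconstructible. -/
theorem cographs (p : ℕ) (hp : p ≠ 4) (G : SimpleGraph (Fin p)) (S : Finset (Fin p))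
    (hS : ¬ (SimpleGraph.pathGraph 4).IsIndContained (sw G S))
    (H : SimpleGraph (Fin p)) (hdeck : SameDeck G H) : Nonempty (G ≃g H) := by
  by_contra hne
  have h4 := four_dvd hdeck hne
  have hn3 : 3 ≤ Fintype.card (Fin p) := by
    obtain ⟨⟨m, hm⟩, h0⟩ := h4
    omega
  apply hne
  obtain ⟨T, ⟨h3, hs⟩ | ⟨h3, hs⟩⟩ := exists_three (sw G S) (p4Free_of _ hS) hn3
  · rw [sw_sw] at h3 hs
    rw [Fintype.card_fin] at hs
    exact core p hp G _ h3 hs H hdeck
  · rw [sw_isoCompl, sw_sw] at h3 hs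
    rw [Fintype.card_fin] at hs
    exact iso_compl (core p hp Gᶜ _ h3 hs Hᶜ (sameDeck_compl hdeck))

end Pool.Agent.NTW.CographKept
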