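import Mathlib
import Pool.Agent.Lib_helper61.SwitchBasic

/-!
Definitions for MP_e73337_co, few near twins (helper48).  See `Pool/Agent/NTW/St.lean`.
-/

set_option autoImplicit false

namespace Pool.Agent.NTW

open Finset

section
variable {α : Type}

open Classical in
/-- The vertices other than `y`, `z` which are adjacent to exactly one of `y`, `z`. -/
noncomputable def sep [Fintype α] (G : SimpleGraph α) (y z : α) : Finset α :=
  univ.filter fun x => x ≠ y ∧ x ≠ z ∧ ¬ (G.Adj x y ↔ G.Adj x z)

open Classical in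
/-- The vertices other than `y`, `z` which are adjacent to both or none of `y`, `z`. -/
noncomputable def cosep [Fintype α] (G : SimpleGraph α) (y z : α) : Finset α :=
  univ.filter fun x => x ≠ y ∧ x ≠ z ∧ (G.Adj x y ↔ G.Adj x z)

/-- `y` and `z` are near twins (up to switching), with tolerance `D`. -/
def Near [Fintype α] (G : SimpleGraph α) (D : ℕ) (y z : α) : Prop :=
  (sep G y z).card < D ∨ (cosep G y z).card < D

/-- `y` and `z` are twins (up to switching). -/
def Twins [Fintype α] (G : SimpleGraph α) (y z : α) : Prop :=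
  sep G y z = ∅ ∨ cosep G y z = ∅

/-- The automorphisms of `G` which fix the vertices in `R`. -/
def FG (G : SimpleGraph α) (R : Finset α) : Subgroup (Equiv.Perm α) where
  carrier := {τ | (∀ r ∈ R, τ r = r) ∧ ∀ u v, G.Adj (τ u) (τ v) ↔ G.Adj u v}
  mul_mem' := by
    rintro a b ⟨ha, ha'⟩ ⟨hb, hb'⟩
    refine ⟨fun r hr => ?_, fun u v => ?_⟩
    · rw [Equiv.Perm.mul_apply, hb r hr, ha r hr]
    · rw [Equiv.Perm.mul_apply, Equiv.Perm.mul_apply, ha', hb']
  one_mem' := ⟨fun _ _ => rfl, fun _ _ => Iff.rfl⟩
  inv_mem' := by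
    rintro a ⟨ha, ha'⟩
    refine ⟨fun r hr => ?_, fun u v => ?_⟩
    · rw [Equiv.Perm.inv_eq_iff_eq]
      exact (ha r hr).symm
    · have h := ha' (a⁻¹ u) (a⁻¹ v)
      simpa using h.symm

/-- The alternating sum of `f` over the subsets of `T`. -/
def mob [DecidableEq α] (f : Finset α → ℚ) (T : Finset α) : ℚ :=
  ∑ S ∈ T.powerset, (-1 : ℚ) ^ S.card * f S

/-- `f` has degree at most `j` on the subsets of `U`. -/
def DegLE [DecidableEq α] (U : Finset α) (j : ℕ) (f : Finset α → ℚ) : Prop :=
  ∀ T ⊆ U, j < T.card → mob f T = 0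

/-- The orbit of `y` under the automorphisms of `G` which fix `R`. -/
def orb (G : SimpleGraph α) (R : Finset α) (y : α) : Set α := {z | ∃ τ ∈ FG G R, τ y = z}

/-- The neighbours of `x`. -/
noncomputable def nb0 [Fintype α] (G : SimpleGraph α) (x : α) : Finset α := by
  classical exact univ.filter fun v => G.Adj x v

end

end Pool.Agent.NTW
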