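import Pool.Agent.NTW.Three
import Pool.Agent.TRD.Deg

/-!
Graphs with `m` edges and all degrees less than `p / 2 - 2 m / p` (MP_e73337_co, helper48; the rigidity is
`TRD.deg_aut2` of helper94).
-/

set_option autoImplicit false

namespace Pool.Agent.NTW.Three

open Finset Pool.Agent.Lib_helper61.SwitchBasic Pool.Agent.Lib_helper61.SwMain
  Pool.Agent.Lib_helper61.SwComp Pool.Agent.Lib_helper61.SwSys Pool.Agent.NTW
  Pool.Agent.NTW.OddSets Pool.Agent.NTW.Half

variable {α : Type} [Fintype α] [DecidableEq α]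

/-- Class automorphisms are automorphisms. -/
def Rigid {α : Type} (C : SimpleGraph α) : Prop :=
  ∀ σ : Equiv.Perm α, IsClassAut C σ → ∀ u v, C.Adj (σ u) (σ v) ↔ C.Adj u v

theorem rigid_deg (C : SimpleGraph α) [DecidableRel C.Adj]
    (hdeg : ∀ v, 2 * Fintype.card α * C.degree v + 4 * C.edgeFinset.card < Fintype.card α ^ 2) :
    Rigid C := by
  intro σ hσ u v
  refine Pool.Agent.TRD.deg_aut2 C (fun w => ?_) σ hσ u v
  rw [C.sum_degrees_eq_twice_card_edges]
  have := hdeg w
  omega

theorem copies_rigid (C : SimpleGraph α) (hC : Rigid C) (S : Finset α)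
    (h : Nonempty (sw C S ≃g C)) : S.card ≤ 0 ∨ Fintype.card α ≤ S.card + 0 := by
  obtain ⟨ψ⟩ := h
  have hS : ∀ u v, (sw C S).Adj (ψ.symm.toEquiv u) (ψ.symm.toEquiv v) ↔ C.Adj u v :=
    fun u v => ψ.symm.map_rel_iff'
  have hA := hC ψ.symm.toEquiv ⟨S, hS⟩
  have heq : sw C S = sw C ∅ := by
    rw [sw_empty]
    ext x y
    obtain ⟨u, rfl⟩ := ψ.symm.toEquiv.surjective x
    obtain ⟨v, rfl⟩ := ψ.symm.toEquiv.surjective y
    rw [hS, hA]
  rcases sw_inj C S ∅ heq with h | h
  · left
    rw [h]
    simp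
  · right
    rw [h, Finset.compl_empty, Finset.card_univ]
    exact le_refl _

/-- The halving theorem for a rigid graph. -/
theorem half_rigid (hp : Fintype.card α ≠ 4) (C : SimpleGraph α) (hC : Rigid C) (X : Finset α)
    (hX : 2 * X.card + 3 ≤ Fintype.card α ∨ Fintype.card α + 3 ≤ 2 * X.card)
    (H : SimpleGraph α) (hdeck : SameDeck (sw C X) H) : Nonempty (sw C X ≃g H) := by
  refine Half.core hp C 0 (copies_rigid C hC) X ?_ H hdeck
  omega

/-- The whole class of a rigid graph with at least three components. -/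
theorem whole_rigid (hn4 : Fintype.card α ≠ 4) (C : SimpleGraph α) (hC : Rigid C)
    (h3 : 3 ≤ Nat.card C.ConnectedComponent)
    (hsz : ∀ c : C.ConnectedComponent, c.supp.ncard + 3 ≤ Fintype.card α) (X : Finset α)
    (H : SimpleGraph α) (hdeck : SameDeck (sw C X) H) : Nonempty (sw C X ≃g H) := by
  refine main_comps (Γ := C) hn4 h3 hsz hC X ?_ hdeck
  rw [sw_sw]
  simp [sw_empty]

/-- Three vertices fixed by all automorphisms of a rigid graph. -/
theorem fixed_rigid (hp : Fintype.card α ≠ 4) (C : SimpleGraph α) (hC : Rigid C) (T : Finset α)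
    (hT : T.card = 3) (hfix : ∀ φ : C ≃g C, ∀ v ∈ T, φ v = v) (X : Finset α) (H : SimpleGraph α)
    (hdeck : SameDeck (sw C X) H) : Nonempty (sw C X ≃g H) := by
  obtain ⟨a, b, c, hab, hac, hbc, rfl⟩ := Finset.card_eq_three.1 hT
  have hinv : ∀ x ∈ ({a, b, c} : Finset α), IsInvariant C {x} := by
    intro x hx σ hσ v
    have h1 := hC σ hσ
    have h2 : σ x = x :=
      hfix { toEquiv := σ, map_rel_iff' := by intro u w; exact h1 u w } x hx
    rw [Finset.mem_singleton, Finset.mem_singleton]
    constructor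
    · intro h
      exact σ.injective (by rw [h, h2])
    · rintro rfl
      exact h2
  exact three_odd hp C {a} {b} {c} (hinv a (by simp)) (hinv b (by simp)) (hinv c (by simp))
    (by simp) (by simp) (by simp) (by simpa using hab) (by simpa using hac)
    (by simpa using hbc) X H hdeck

/-- A class with an invariant set of odd size contains a rigid graph. -/
theorem rigid_of_odd (G : SimpleGraph α) (V : Finset α) (hV : IsInvariant G V)
    (hodd : Odd V.card) : ∃ S₀ : Finset α, Rigid (sw G S₀) := by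
  obtain ⟨S₀, hS₀⟩ := canon G V hV hodd
  exact ⟨S₀, fun σ hσ u v => aut_of_copies (sw G S₀) hS₀ σ hσ u v⟩

/-- The halving theorem for a rigid graph and invariant sets. -/
theorem half_rigid_inv (hp : Fintype.card α ≠ 4) (C : SimpleGraph α) (hC : Rigid C) (A : Finset α)
    (hA : IsInvariant C A) (X : Finset α)
    (hX : 2 * (symmDiff X A).card + 3 ≤ Fintype.card α ∨
      Fintype.card α + 3 ≤ 2 * (symmDiff X A).card)
    (H : SimpleGraph α) (hdeck : SameDeck (sw C X) H) : Nonempty (sw C X ≃g H) := by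
  refine general hp C 0 (copies_rigid C hC) A hA X ?_ H hdeck
  omega

end Pool.Agent.NTW.Three
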