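import Pool.Agent.NTW.St2

/-!
Near vertices and modules are not changed by switching.
-/

set_option autoImplicit false

namespace Pool.Agent.NTW

open Finset Pool.Agent.Lib_helper61.SwitchBasic

theorem sw_adj_iff {α : Type} [DecidableEq α] (G : SimpleGraph α) (S : Finset α) (x y z : α)
    (h1 : x ≠ y) (h2 : x ≠ z) : ((sw G S).Adj x y ↔ (sw G S).Adj x z) ↔
      ((G.Adj x y ↔ G.Adj x z) ↔ (y ∈ S ↔ z ∈ S)) := by
  rw [sw_adj, sw_adj]
  tauto

theorem near_sw {α : Type} [Fintype α] [DecidableEq α] (G : SimpleGraph α) (S : Finset α) (D : ℕ)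
    (y z : α) : Near (sw G S) D y z ↔ Near G D y z := by
  classical
  by_cases hS : (y ∈ S ↔ z ∈ S)
  · have e1 : sep (sw G S) y z = sep G y z := by
      ext x
      simp only [sep, mem_filter, mem_univ, true_and]
      by_cases h1 : x = y
      · simp [h1]
      by_cases h2 : x = z
      · simp [h2]
      rw [sw_adj_iff G S x y z h1 h2]
      tauto
    have e2 : cosep (sw G S) y z = cosep G y z := by
      ext x
      simp only [cosep, mem_filter, mem_univ, true_and]
      by_cases h1 : x = y
      · simp [h1]
      by_cases h2 : x = z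
      · simp [h2]
      rw [sw_adj_iff G S x y z h1 h2]
      tauto
    unfold Near
    rw [e1, e2]
  · have e1 : sep (sw G S) y z = cosep G y z := by
      ext x
      simp only [sep, cosep, mem_filter, mem_univ, true_and]
      by_cases h1 : x = y
      · simp [h1]
      by_cases h2 : x = z
      · simp [h2]
      rw [sw_adj_iff G S x y z h1 h2]
      tauto
    have e2 : cosep (sw G S) y z = sep G y z := by
      ext x
      simp only [sep, cosep, mem_filter, mem_univ, true_and]
      by_cases h1 : x = y
      · simp [h1]
      by_cases h2 : x = z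
      · simp [h2]
      rw [sw_adj_iff G S x y z h1 h2]
      tauto
    unfold Near
    rw [e1, e2, or_comm]

theorem mod_sw {α : Type} [DecidableEq α] (G : SimpleGraph α) (S C : Finset α) (h : IsMod G C) :
    IsMod (sw G S) C := by
  intro z hz w hw
  have key : ∀ x, x ∉ C → (((sw G S).Adj x z ↔ (sw G S).Adj x w) ↔
      ((G.Adj x z ↔ G.Adj x w) ↔ (z ∈ S ↔ w ∈ S))) := fun x hx =>
    sw_adj_iff G S x z w (fun e => hx (e ▸ hz)) (fun e => hx (e ▸ hw))
  by_cases hS : (z ∈ S ↔ w ∈ S)
  · rcases h z hz w hw with h1 | h1
    · left
      intro x hx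
      rw [key x hx]
      have := h1 x hx
      tauto
    · right
      intro x hx
      rw [key x hx]
      have := h1 x hx
      tauto
  · rcases h z hz w hw with h1 | h1
    · right
      intro x hx
      rw [key x hx]
      have := h1 x hx
      tauto
    · left
      intro x hx
      rw [key x hx]
      have := h1 x hx
      tauto

end Pool.Agent.NTW
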