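import Pool.Agent.NTW.St6
import Pool.Agent.NTW.Sw

/-!
A partition with prime quotient and at least four parts has at least five parts (helper39).
-/

set_option autoImplicit false

namespace Pool.Agent.NTW

open Finset Pool.Agent.Lib_helper61.SwitchBasic

namespace Fin10

theorem taut (a b c d e f : Prop) : ((b ↔ d) ↔ (c ↔ e)) ∨ ((a ↔ d) ↔ (c ↔ f)) ∨
    ((a ↔ e) ↔ (b ↔ f)) := by
  by_cases a <;> by_cases b <;> by_cases c <;> by_cases d <;> by_cases e <;> by_cases f <;>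
    simp_all

section
variable {α : Type} [Fintype α] [DecidableEq α]

/-- Two parts out of four which form a module. -/
theorem two (B : SimpleGraph α) (c : α → ℕ) (hT : TrueMod B c) (x₀ x₁ x₂ x₃ : α)
    (h01 : c x₀ ≠ c x₁) (h02 : c x₀ ≠ c x₂) (h03 : c x₀ ≠ c x₃) (h12 : c x₁ ≠ c x₂)
    (h13 : c x₁ ≠ c x₃) (h23 : c x₂ ≠ c x₃)
    (hall : ∀ x, c x = c x₀ ∨ c x = c x₁ ∨ c x = c x₂ ∨ c x = c x₃)
    (hs : (B.Adj x₂ x₀ ↔ B.Adj x₂ x₁) ↔ (B.Adj x₃ x₀ ↔ B.Adj x₃ x₁)) :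
    IsMod B (univ.filter fun x => c x = c x₀ ∨ c x = c x₁) := by
  have key : ∀ u u' v v' : α, c u = c u' → c v = c v' → c u ≠ c v → (B.Adj u v ↔ B.Adj u' v') := by
    intro u u' v v' h1 h2 h3
    have e1 := hT u v v' h2 h3
    have e2 := hT v' u u' h1 (by rw [← h2]; exact h3.symm)
    rw [e1, B.adj_comm u v', e2, B.adj_comm v' u']
  have hmix : ∀ z w, c z = c x₀ → c w = c x₁ →
      (∀ x, x ∉ (univ.filter fun x => c x = c x₀ ∨ c x = c x₁) → (B.Adj x z ↔ B.Adj x w)) ∨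
      (∀ x, x ∉ (univ.filter fun x => c x = c x₀ ∨ c x = c x₁) → ¬ (B.Adj x z ↔ B.Adj x w)) := by
    intro z w hz hw
    have hx : ∀ x, x ∉ (univ.filter fun x => c x = c x₀ ∨ c x = c x₁) →
        ((B.Adj x z ↔ B.Adj x w) ↔ (B.Adj x₂ x₀ ↔ B.Adj x₂ x₁)) := by
      intro x hx
      simp only [Finset.mem_filter, Finset.mem_univ, true_and, not_or] at hx
      rcases hall x with h | h | h | h
      · exact absurd h hx.1
      · exact absurd h hx.2
      · rw [key x x₂ z x₀ h hz (by rw [h, hz]; exact h02.symm),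
          key x x₂ w x₁ h hw (by rw [h, hw]; exact h12.symm)]
      · rw [key x x₃ z x₀ h hz (by rw [h, hz]; exact h03.symm),
          key x x₃ w x₁ h hw (by rw [h, hw]; exact h13.symm)]
        exact hs.symm
    by_cases h : (B.Adj x₂ x₀ ↔ B.Adj x₂ x₁)
    · left
      intro x hx'
      exact (hx x hx').2 h
    · right
      intro x hx' h'
      exact h ((hx x hx').1 h')
  intro z hz w hw
  simp only [Finset.mem_filter, Finset.mem_univ, true_and] at hz hw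
  have hsame : c z = c w → ∀ x, x ∉ (univ.filter fun x => c x = c x₀ ∨ c x = c x₁) →
      (B.Adj x z ↔ B.Adj x w) := by
    intro hzw x hx
    simp only [Finset.mem_filter, Finset.mem_univ, true_and, not_or] at hx
    apply hT x z w hzw
    rcases hz with h | h
    · rw [h]; exact hx.1
    · rw [h]; exact hx.2
  rcases hz with hz | hz
  · rcases hw with hw | hw
    · left; exact hsame (hz.trans hw.symm)
    · exact hmix z w hz hw
  · rcases hw with hw | hw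
    · rcases hmix w z hw hz with h | h
      · left; intro x hx; exact (h x hx).symm
      · right; intro x hx h'; exact h x hx h'.symm
    · left; exact hsame (hz.trans hw.symm)

theorem not_prime (G : SimpleGraph α) (S : Finset α) (c : α → ℕ) (hP : PrimeQ G c)
    (x₀ x₁ x₂ x₃ : α)
    (h01 : c x₀ ≠ c x₁) (h02 : c x₀ ≠ c x₂) (h03 : c x₀ ≠ c x₃) (h12 : c x₁ ≠ c x₂)
    (h13 : c x₁ ≠ c x₃) (h23 : c x₂ ≠ c x₃)
    (hW : IsMod (sw G S) (univ.filter fun x => c x = c x₀ ∨ c x = c x₁)) : False := by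
  have hW' := mod_sw (sw G S) S _ hW
  rw [sw_sw, symmDiff_self, Finset.bot_eq_empty, sw_empty] at hW'
  rcases hP _ hW' (by
    intro x hx y hy
    simp only [Finset.mem_filter, Finset.mem_univ, true_and] at hx ⊢
    rw [hy]
    exact hx) with h | h
  · exact h01 (h x₀ (by simp) x₁ (by simp))
  · exact h23 (h x₂ (by simp [h02.symm, h12.symm]) x₃ (by simp [h03.symm, h13.symm]))

end

end Fin10

theorem five (hREP : S_REP) (α : Type) [Fintype α] [DecidableEq α] (G : SimpleGraph α)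
    (c : α → ℕ) (hmod : ∀ i, IsMod G (Fin5.part c i)) (h4 : 4 ≤ (univ.image c).card)
    (hP : PrimeQ G c) : 5 ≤ (univ.image c).card := by
  by_contra hc
  have hcard : (univ.image c).card = 3 + 1 := by omega
  obtain ⟨i₀, t, hi₀, ht, htc⟩ := Finset.card_eq_succ.1 hcard
  obtain ⟨i₁, i₂, i₃, h12, h13, h23, rfl⟩ := Finset.card_eq_three.1 htc
  simp only [Finset.mem_insert, Finset.mem_singleton, not_or] at hi₀
  have hex : ∀ i, i ∈ univ.image c → ∃ x, c x = i := by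
    intro i hi
    obtain ⟨x, -, hx⟩ := Finset.mem_image.1 hi
    exact ⟨x, hx⟩
  obtain ⟨x₀, hx₀⟩ := hex i₀ (by rw [← ht]; simp)
  obtain ⟨x₁, hx₁⟩ := hex i₁ (by rw [← ht]; simp)
  obtain ⟨x₂, hx₂⟩ := hex i₂ (by rw [← ht]; simp)
  obtain ⟨x₃, hx₃⟩ := hex i₃ (by rw [← ht]; simp)
  have hall : ∀ x, c x = c x₀ ∨ c x = c x₁ ∨ c x = c x₂ ∨ c x = c x₃ := by
    intro x
    have h1 : c x ∈ univ.image c := Finset.mem_image_of_mem c (Finset.mem_univ x)
    rw [← ht] at h1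
    simp only [Finset.mem_insert, Finset.mem_singleton] at h1
    rw [hx₀, hx₁, hx₂, hx₃]
    exact h1
  have n01 : c x₀ ≠ c x₁ := by rw [hx₀, hx₁]; exact hi₀.1
  have n02 : c x₀ ≠ c x₂ := by rw [hx₀, hx₂]; exact hi₀.2.1
  have n03 : c x₀ ≠ c x₃ := by rw [hx₀, hx₃]; exact hi₀.2.2
  have n12 : c x₁ ≠ c x₂ := by rw [hx₁, hx₂]; exact h12
  have n13 : c x₁ ≠ c x₃ := by rw [hx₁, hx₃]; exact h13
  have n23 : c x₂ ≠ c x₃ := by rw [hx₂, hx₃]; exact h23
  obtain ⟨S, hT⟩ := hREP α G c hmod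
  set B := sw G S with hB
  rcases Fin10.taut (B.Adj x₀ x₁) (B.Adj x₀ x₂) (B.Adj x₀ x₃) (B.Adj x₁ x₂) (B.Adj x₁ x₃)
    (B.Adj x₂ x₃) with h | h | h
  · refine Fin10.not_prime G S c hP x₀ x₁ x₂ x₃ n01 n02 n03 n12 n13 n23
      (Fin10.two B c hT x₀ x₁ x₂ x₃ n01 n02 n03 n12 n13 n23 hall ?_)
    rw [B.adj_comm x₂ x₀, B.adj_comm x₂ x₁, B.adj_comm x₃ x₀, B.adj_comm x₃ x₁]
    exact h
  · refine Fin10.not_prime G S c hP x₀ x₂ x₁ x₃ n02 n01 n03 n12.symm n23 n13
      (Fin10.two B c hT x₀ x₂ x₁ x₃ n02 n01 n03 n12.symm n23 n13 ?_ ?_)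
    · intro x
      have := hall x
      tauto
    · rw [B.adj_comm x₁ x₀, B.adj_comm x₃ x₀, B.adj_comm x₃ x₂]
      exact h
  · refine Fin10.not_prime G S c hP x₀ x₃ x₁ x₂ n03 n01 n02 n13.symm n23.symm n12
      (Fin10.two B c hT x₀ x₃ x₁ x₂ n03 n01 n02 n13.symm n23.symm n12 ?_ ?_)
    · intro x
      have := hall x
      tauto
    · rw [B.adj_comm x₁ x₀, B.adj_comm x₂ x₀]
      exact h

end Pool.Agent.NTW
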