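import Pool.Agent.NTW.Fin5B

/-!
The substitution theorem for MP_e73337_co: assembly (helper39).
-/

set_option autoImplicit false

namespace Pool.Agent.NTW

open Finset Pool.Agent.Lib_helper61.SwitchBasic

namespace Fin5

/-- Equivalence of vertex sets: an automorphism as an isomorphism. -/
def isoOf {α : Type} {G : SimpleGraph α} {R : Finset α} {τ : Equiv.Perm α} (hτ : τ ∈ FG G R) :
    G ≃g G where
  toEquiv := τ
  map_rel_iff' := by
    intro u v
    exact hτ.2 u v

/-- The group argument: the number of parts is bounded by a hitting set. -/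
theorem parts_le {α : Type} [Fintype α] [DecidableEq α] (hSML : S_SML) (G : SimpleGraph α)
    (c : α → ℕ) (hmod : ∀ i, IsMod G (part c i)) (q : ℕ) (hq : 2 ≤ q) (L : ℕ) (hL : 2 ≤ L)
    (hp : Fintype.card α ≤ 2 ^ L) (R : Finset α) (x₀ x₁ : α) (hx₀ : x₀ ∈ R) (hx₁ : x₁ ∈ R)
    (h01 : c x₀ ≠ c x₁)
    (hhit : ∀ y z, y ≠ z → ¬ NearP G c q y z →
      (sep G y z ∩ R).Nonempty ∧ (cosep G y z ∩ R).Nonempty)
    (h : ∀ y, y ∉ R → {z | z ≠ y ∧ NearP G c q y z}.ncard ≤ 2 ∨
      ∀ z, NearP G c q y z → c z = c y)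
    (hK : KeyAt (sw G (nb0 G x₀)) R L) :
    (univ.image c).card ≤ R.card + 4 * L * (2 + L * R.card) := by
  classical
  set G₀ := sw G (nb0 G x₀) with hG₀
  obtain ⟨-, hmo⟩ := mod_orb G R x₀ hx₀
  -- vertices in large parts stay in their part
  have hlarge : ∀ τ ∈ FG G₀ R, ∀ x, 3 < (part c (c x)).card → c (τ x) = c x := by
    intro τ hτ x hx
    by_cases hτx : τ x = x
    · rw [hτx]
    · have hxR : x ∉ R := fun hh => hτx (hτ.1 x hh)
      have hn : NearP G c q x (τ x) := orb_near G c q R x₀ hhit τ hτ x hτx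
      rcases h x hxR with h1 | h1
      · exfalso
        have hsub : (((part c (c x)).erase x : Finset α) : Set α) ⊆
            {z | z ≠ x ∧ NearP G c q x z} := by
          intro z hz
          rw [Finset.mem_coe, Finset.mem_erase, mem_part] at hz
          exact ⟨hz.1, near_of_same G c hmod q hq x z hz.2.symm⟩
        have h2 := Set.ncard_le_ncard hsub (Set.toFinite _)
        rw [Set.ncard_coe_finset, Finset.card_erase_of_mem ((mem_part c _ _).2 rfl)] at h2
        omega
      · exact h1 (τ x) hn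
  -- outside of a part
  have hout : ∀ z, ∃ x' ∈ R, x' ∉ part c (c z) := by
    intro z
    by_cases h1 : c x₀ = c z
    · exact ⟨x₁, hx₁, fun hh => h01 (h1.trans ((mem_part c _ _).1 hh).symm)⟩
    · exact ⟨x₀, hx₀, fun hh => h1 ((mem_part c _ _).1 hh)⟩
  have hhom : ∀ τ ∈ FG G₀ R, ∀ z, 3 < (part c (c z)).card → ∀ x, c x ≠ c z →
      (G₀.Adj x z ↔ G₀.Adj x (τ z)) := by
    intro τ hτ z hz x hx
    exact hmo (part c (c z)) (hmod _) (hout z) τ hτ z ((mem_part c _ _).2 rfl)
      ((mem_part c _ _).2 (hlarge τ hτ z hz)) x (fun hh => hx ((mem_part c _ _).1 hh))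
  set V : Finset α := univ.filter fun x => (part c (c x)).card ≤ 3 with hV
  have hmemV : ∀ x, x ∈ V ↔ (part c (c x)).card ≤ 3 := fun x => by simp [hV]
  have hVinv : ∀ τ ∈ FG G₀ R, ∀ x ∈ V, τ x ∈ V := by
    intro τ hτ x hx
    rw [hmemV] at hx ⊢
    by_contra hc
    have h1 := hlarge τ⁻¹ (inv_mem hτ) (τ x) (by omega)
    have h2 : τ⁻¹ (τ x) = x := τ.symm_apply_apply x
    rw [h2] at h1
    rw [← h1] at hc
    exact hc hx
  have hVorb : ∀ x ∈ V, (orb G₀ R x).ncard ≤ 3 := by
    intro x hx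
    rw [hmemV] at hx
    by_cases hxR : x ∈ R
    · have h1 : orb G₀ R x ⊆ {x} := by
        rintro z ⟨τ, hτ, rfl⟩
        exact hτ.1 x hxR
      exact ((Set.ncard_le_ncard h1 (Set.toFinite _)).trans (Set.ncard_singleton x).le).trans
        (by norm_num)
    · rcases h x hxR with h1 | h1
      · have h2 : orb G₀ R x ⊆ insert x {z | z ≠ x ∧ NearP G c q x z} := by
          rintro z ⟨τ, hτ, rfl⟩
          by_cases hy : τ x = x
          · left; exact hy
          · right
            exact ⟨hy, orb_near G c q R x₀ hhit τ hτ x hy⟩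
        have h3 := (Set.ncard_le_ncard h2 (Set.toFinite _)).trans (Set.ncard_insert_le _ _)
        omega
      · have h2 : orb G₀ R x ⊆ ((part c (c x) : Finset α) : Set α) := by
          rintro z ⟨τ, hτ, rfl⟩
          rw [Finset.mem_coe, mem_part]
          by_cases hy : τ x = x
          · rw [hy]
          · exact h1 (τ x) (orb_near G c q R x₀ hhit τ hτ x hy)
        have h3 := Set.ncard_le_ncard h2 (Set.toFinite _)
        rw [Set.ncard_coe_finset] at h3
        omega
  have hVc := small hSML G₀ R L hK V hVinv hVorb (by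
    intro τ hτ x hx z hz
    rw [hmemV] at hx hz
    refine hhom τ hτ z (by omega) x (fun hh => hz ?_)
    rw [← hh]
    exact hx)
  refine cover c R V L (2 + L * R.card) hL ⟨x₀, hx₀⟩ hp (fun x hx => (hmemV x).2 hx) hVc ?_
  intro a ha J hJ
  have hbig : ∀ i ∈ J, 3 < (part c i).card := by
    intro i hi
    have h1 := (hJ i hi).1
    have h2 : 2 ^ 2 ≤ 2 ^ a := Nat.pow_le_pow_right (by norm_num) ha
    omega
  refine large G₀ R L hK c a J (fun i hi => ⟨(hJ i hi).1, (hJ i hi).2.1⟩) ?_ ?_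
  · intro τ hτ x hx
    exact hlarge τ hτ x (hbig _ hx)
  · intro τ hτ z hz x hx
    exact hhom τ hτ z (hbig _ hz) x hx

/-- A small set which meets `sep y z` and `cosep y z` for all pairs which are not near. -/
theorem hitting (hHITP : S_HITP) (p : ℕ) (G : SimpleGraph (Fin p))
    (c : Fin p → ℕ) (hmod : ∀ i, IsMod G (part c i)) (q L : ℕ) (hL : p ≤ 2 ^ L) (hq : 3 ≤ q) :
    ∃ R : Finset (Fin p), R.card ≤ (2 * L + 2) * ((univ.image c).card / (q - 2) + 1) ∧
      ∀ y z, ¬ NearP G c q y z → (sep G y z ∩ R).Nonempty ∧ (cosep G y z ∩ R).Nonempty := by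
  classical
  have hcard : Fintype.card (Fin p) = p := Fintype.card_fin p
  set r := (univ.image c).card with hr
  set P : Finset (Fin p × Fin p) := univ.filter fun w => ¬ NearP G c q w.1 w.2 with hP
  set 𝒜 : Finset (Finset (Fin p)) := P.image (fun w => sep G w.1 w.2) ∪
    P.image (fun w => cosep G w.1 w.2) with h𝒜
  have hPc : P.card ≤ p * p := by
    calc P.card ≤ (univ : Finset (Fin p × Fin p)).card := Finset.card_le_card (Finset.filter_subset _ _)
      _ = p * p := by rw [Finset.card_univ, Fintype.card_prod, hcard]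
  have h𝒜c : 𝒜.card < 2 ^ (2 * L + 2) := by
    have h1 : 𝒜.card ≤ P.card + P.card :=
      (Finset.card_union_le _ _).trans (Nat.add_le_add Finset.card_image_le Finset.card_image_le)
    have h2 : p * p ≤ 2 ^ L * 2 ^ L := Nat.mul_le_mul hL hL
    have h3 : 2 ^ (2 * L + 2) = 4 * (2 ^ L * 2 ^ L) := by
      rw [pow_add, two_mul, pow_add]; ring
    have h4 : 0 < 2 ^ L * 2 ^ L := by positivity
    omega
  have hkD : (univ.image c).card ≤ (r / (q - 2) + 1) * (q - 2) := by
    have := Nat.lt_div_mul_add (a := r) (b := q - 2) (by omega)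
    rw [Nat.add_mul, one_mul]
    omega
  obtain ⟨R₀, hR₀, hR₀'⟩ := hHITP (Fin p) c 𝒜 (q - 2) (2 * L + 2) (r / (q - 2) + 1) (by omega) (by
    intro A hA
    simp only [h𝒜, hP, mem_union, mem_image, mem_filter, mem_univ, true_and] at hA
    rcases hA with ⟨w, hw, rfl⟩ | ⟨w, hw, rfl⟩
    · exact (two_mul_le G c hmod q w.1 w.2 hw).1
    · exact (two_mul_le G c hmod q w.1 w.2 hw).2.1) h𝒜c hkD
  refine ⟨R₀, hR₀, fun y z hn => ?_⟩
  have hm : (y, z) ∈ P := by
    simp only [hP, mem_filter, mem_univ, true_and]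
    exact hn
  exact ⟨hR₀' _ (Finset.mem_union_left _ (Finset.mem_image_of_mem
      (fun w : Fin p × Fin p => sep G w.1 w.2) hm)),
    hR₀' _ (Finset.mem_union_right _ (Finset.mem_image_of_mem
      (fun w : Fin p × Fin p => cosep G w.1 w.2) hm))⟩

/-- `KEY` applied to the function of the pair `G`, `H`. -/
theorem keyAt (hKEY : S_KEY) (p : ℕ) (G H : SimpleGraph (Fin p)) (hdeck : SameDeck G H)
    (hne : ¬ Nonempty (G ≃g H)) (R : Finset (Fin p)) (x₀ : Fin p) (hx₀ : x₀ ∈ R) :
    KeyAt (sw G (nb0 G x₀)) R (Nat.clog 2 p) := by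
  classical
  obtain ⟨hiso, -⟩ := mod_orb G R x₀ hx₀
  set G₀ := sw G (nb0 G x₀) with hG₀
  set φ : Finset (Fin p) → ℚ := fun T => ff G H (symmDiff (nb0 G x₀) T) with hφ
  have hsw : ∀ T, sw G (symmDiff (nb0 G x₀) T) = sw G₀ T := fun T => (sw_sw _ _ _).symm
  have hφsum : ∀ S, ∑ i : Fin p, φ (symmDiff S {i}) = 0 := by
    intro S
    have h1 := sum_ff hdeck (symmDiff (nb0 G x₀) S)
    rw [← h1]
    refine Finset.sum_congr rfl fun i _ => ?_
    simp only [hφ]
    rw [symmDiff_assoc]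
  have hφne : ∃ X, φ X ≠ 0 := by
    refine ⟨nb0 G x₀, ?_⟩
    obtain ⟨T, hT⟩ := exists_sw hdeck x₀
    have h1 : 0 < cnt G H := cnt_pos G H T hT
    simp only [hφ]
    rw [symmDiff_self, Finset.bot_eq_empty, ff_empty hne]
    exact h1.ne'
  have hφinv : ∀ τ ∈ FG G₀ R, ∀ T, φ (T.map τ.toEmbedding) = φ T := by
    intro τ hτ T
    simp only [hφ, ff, hsw]
    have e : ∀ K, ind (sw G₀ (T.map τ.toEmbedding)) K = ind (sw G₀ T) K := fun K =>
      (ind_congr_left K ⟨isoSw (isoOf hτ) T⟩).symm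
    rw [e, e]
  have hφor : ∀ T, φ T ≠ 0 → Nonempty (sw G₀ T ≃g G) ∨ Nonempty (sw G₀ T ≃g H) := by
    intro T hT
    by_contra hc
    push Not at hc
    apply hT
    simp only [hφ, ff, hsw]
    rw [ind_of_not _ _ (not_nonempty_iff.2 hc.1), ind_of_not _ _ (not_nonempty_iff.2 hc.2)]
    ring
  intro U lab m hm h1 h2 h3
  have key := hKEY (Fin p) G₀ G H R x₀ hx₀ hiso φ hφsum hφne hφor hφinv U lab m hm h1 h2 h3
  rw [Fintype.card_fin] at key
  exact key

end Fin5

open Fin5

/-- The substitution theorem. -/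
theorem main5 (hKEY : S_KEY) (hSML : S_SML) (hHITP : S_HITP) (hNUMX : S_NUMX)
    (p : ℕ) (hp : 3 < p) (G : SimpleGraph (Fin p)) (c : Fin p → ℕ)
    (hmod : ∀ i, IsMod G (part c i)) (h2 : ∃ y z, c y ≠ c z) (E : Finset (Fin p))
    (hE : 16 * (Nat.clog 2 p + 1) ^ 2 * E.card ≤ (univ.image c).card)
    (h : ∀ y, y ∉ E →
      {z | z ≠ y ∧ NearP G c (33 * (Nat.clog 2 p + 1) ^ 3) y z}.ncard ≤ 2 ∨
      ∀ z, NearP G c (33 * (Nat.clog 2 p + 1) ^ 3) y z → c z = c y)
    (H : SimpleGraph (Fin p)) (hdeck : SameDeck G H) : Nonempty (G ≃g H) := by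
  classical
  by_contra hne
  have hcard : Fintype.card (Fin p) = p := Fintype.card_fin p
  set L := Nat.clog 2 p with hL
  set q := 33 * (L + 1) ^ 3 with hq
  set r := (univ.image c).card with hr
  have hpL : p ≤ 2 ^ L := Nat.le_pow_clog (by norm_num) p
  have hL2 : 2 ≤ L := by
    by_contra hc
    have h1 : 2 ^ L ≤ 2 ^ 1 := Nat.pow_le_pow_right (by norm_num) (by omega)
    omega
  have hq3 : 27 ≤ (L + 1) ^ 3 := by
    have : 3 ^ 3 ≤ (L + 1) ^ 3 := Nat.pow_le_pow_left (by omega) 3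
    omega
  have hq2 : 3 ≤ q := by omega
  -- there is a vertex outside `E`
  have hrp : r ≤ p := by
    calc r ≤ (univ : Finset (Fin p)).card := Finset.card_image_le
      _ = p := by rw [Finset.card_univ, hcard]
  have hEp : E.card < p := by
    have h1 : 16 * 9 * E.card ≤ 16 * (L + 1) ^ 2 * E.card := by
      apply Nat.mul_le_mul_right
      apply Nat.mul_le_mul_left
      have : 3 ^ 2 ≤ (L + 1) ^ 2 := Nat.pow_le_pow_left (by omega) 2
      omega
    omega
  obtain ⟨y₀, hy₀⟩ : ∃ y, y ∉ E := by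
    by_contra hc
    push Not at hc
    have : E = univ := Finset.eq_univ_iff_forall.2 hc
    rw [this, Finset.card_univ, hcard] at hEp
    omega
  obtain ⟨x₀, x₁, h01⟩ := h2
  obtain ⟨z₀, hn₀⟩ : ∃ z, ¬ NearP G c q y₀ z := by
    rcases h y₀ hy₀ with h1 | h1
    · by_contra hc
      push Not at hc
      have e : {z | z ≠ y₀ ∧ NearP G c q y₀ z} = ((univ.erase y₀ : Finset (Fin p)) : Set (Fin p)) := by
        ext z
        simp only [Set.mem_ofPred_eq, Finset.coe_erase, Finset.coe_univ, Set.mem_sdiff,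
          Set.mem_univ, Set.mem_singleton_iff, true_and]
        exact ⟨fun hz => hz.1, fun hz => ⟨hz, hc z⟩⟩
      rw [e, Set.ncard_coe_finset, Finset.card_erase_of_mem (mem_univ _), Finset.card_univ,
        hcard] at h1
      omega
    · by_cases h3 : c x₀ = c y₀
      · exact ⟨x₁, fun hh => h01 (h3.trans (h1 x₁ hh).symm)⟩
      · exact ⟨x₀, fun hh => h3 (h1 x₀ hh)⟩
  have h2D : 2 * (q - 2) ≤ r := (two_mul_le G c hmod q y₀ z₀ hn₀).2.2
  obtain ⟨R₀, hR₀, hR₀'⟩ := hitting hHITP p G c hmod q L hpL hq2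
  rw [← hr] at hR₀
  set R : Finset (Fin p) := insert x₀ (insert x₁ (R₀ ∪ E)) with hR
  have hRc : R.card ≤ (2 * L + 2) * (r / (q - 2) + 1) + 2 + E.card := by
    have h1 : R.card ≤ (insert x₁ (R₀ ∪ E)).card + 1 := Finset.card_insert_le _ _
    have h3 : (insert x₁ (R₀ ∪ E)).card ≤ (R₀ ∪ E).card + 1 := Finset.card_insert_le _ _
    have h4 := Finset.card_union_le R₀ E
    omega
  have hx₀ : x₀ ∈ R := Finset.mem_insert_self _ _
  have hx₁ : x₁ ∈ R := Finset.mem_insert_of_mem (Finset.mem_insert_self _ _)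
  have hsub : R₀ ⊆ R := (Finset.subset_union_left).trans
    ((Finset.subset_insert _ _).trans (Finset.subset_insert _ _))
  have hsubE : E ⊆ R := (Finset.subset_union_right).trans
    ((Finset.subset_insert _ _).trans (Finset.subset_insert _ _))
  have hfin := parts_le hSML G c hmod q (by omega) L hL2 (by rw [hcard]; exact hpL) R x₀ x₁ hx₀
    hx₁ h01 (fun y z _ hn => ⟨(hR₀' y z hn).1.mono (Finset.inter_subset_inter_left hsub),
      (hR₀' y z hn).2.mono (Finset.inter_subset_inter_left hsub)⟩)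
    (fun y hy => h y (fun hh => hy (hsubE hh)))
    (keyAt hKEY p G H hdeck hne R x₀ hx₀)
  have hnum := hNUMX L r (q - 2) E.card R.card (by omega) (by omega) h2D hE hRc
  omega

end Pool.Agent.NTW
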