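import Pool.Agent.Lib_helper61.SwitchBasic

set_option autoImplicit false

namespace Pool.Agent.NTW.OddOrb

open Pool.Agent.Lib_helper61.SwitchBasic Finset

theorem inv_union {p : ℕ} {G : SimpleGraph (Fin p)} {V W : Finset (Fin p)}
    (hV : IsInvariant G V) (hW : IsInvariant G W) : IsInvariant G (V ∪ W) := by
  intro σ hσ v
  rw [Finset.mem_union, Finset.mem_union, hV σ hσ v, hW σ hσ v]

/-- Let `p ≠ 4` and let `G` be a graph on `p` vertices such that three pairwise disjoint vertex
sets of odd size are invariant under all automorphisms of the switching class of `G` (for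
instance, three of the orbits of this group on the vertices have odd length). Then `G` is
switching-reconstructible. -/
theorem odd_three (p : ℕ) (hp : p ≠ 4) (G : SimpleGraph (Fin p)) (V₁ V₂ V₃ : Finset (Fin p))
    (h₁ : IsInvariant G V₁) (h₂ : IsInvariant G V₂) (h₃ : IsInvariant G V₃)
    (d12 : Disjoint V₁ V₂) (d13 : Disjoint V₁ V₃) (d23 : Disjoint V₂ V₃)
    (o1 : Odd V₁.card) (o2 : Odd V₂.card) (o3 : Odd V₃.card)
    (H : SimpleGraph (Fin p)) (hdeck : SameDeck G H) : Nonempty (G ≃g H) := by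
  by_contra hne
  have hn : Fintype.card (Fin p) ≠ 4 := by simpa using hp
  have key : ∀ (A B : Finset (Fin p)), IsInvariant G A → IsInvariant G B → Disjoint A B →
      Odd A.card → Odd B.card → ∀ S,
      ∑ i ∈ A, ff G H (symmDiff S {i}) + ∑ i ∈ B, ff G H (symmDiff S {i}) = 0 := by
    intro A B hA hB hd hAo hBo S
    rw [← Finset.sum_union hd]
    exact sum_ff_inv hn hdeck (inv_union hA hB)
      (by rw [Finset.card_union_of_disjoint hd]; exact hAo.add_odd hBo) S
  have hz : ∀ S, ∑ i ∈ V₁, ff G H (symmDiff S {i}) = ((0 : ℤ) : ℚ) * ff G H S := by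
    intro S
    have e12 := key V₁ V₂ h₁ h₂ d12 o1 o2 S
    have e13 := key V₁ V₃ h₁ h₃ d13 o1 o3 S
    have e23 := key V₂ V₃ h₂ h₃ d23 o2 o3 S
    push_cast
    linarith
  have h0 := (eigen V₁ 0 (ff G H) hz).2 (by simpa using o1) ∅
  rw [ff_empty hne] at h0
  obtain ⟨i, -⟩ := Finset.card_pos.1 o1.pos
  obtain ⟨T, hT⟩ := exists_sw hdeck i
  exact (cnt_pos G H T hT).ne' h0

end Pool.Agent.NTW.OddOrb
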