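import Pool.Agent.NTW.Fin5A

/-!
# MP_e73337_co, the centroid theorem (helper39, Dec 5)

A module (up to switching) is a vertex set `C` with `IsMod G C`.  `c : α → ℕ` describes a partition, its parts are the fibres.

THEOREM T3.  `p ≠ 4`, the parts are modules, `r ≥ 2` parts, every class automorphism permutes the parts, `M` = number of the maps
`x ↦ c (s x)`, `s` class automorphism.  If `(4 M)^4 < 2^r`, then `G` is switching-reconstructible.
THEOREM T6.  `p ≠ 4`, no module has exactly `p / 2` vertices; if for every partition into `r ≥ 4` modules with fewer than `p / 2`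
vertices with prime quotient `(4 M)^4 < 2^r`, then `G` is switching-reconstructible.

Only the statements named in the first words of a doc comment may be used as hypotheses, e.g.
`theorem t_HOMV (h : S_HOM) : S_HOMV`, `theorem t_PBLK (hHOMV : S_HOMV) (hTENU : S_TENU) (hRM : S_RM) : S_PBLK`,
`theorem t_PROD : S_PROD`, `theorem t_REP : S_REP`, `theorem t_CNTQ : S_CNTQ`, `theorem t_MOD : S_MOD`,
`theorem t_INVA : S_INVA`, `theorem t_INVB (h : S_INVA) : S_INVB`, `theorem t_CENT (h : S_MOD) : S_CENT`,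
`theorem t_DEG34 (h : S_REP) : S_DEG34`, `theorem t_COMP : S_COMP`.
-/

set_option autoImplicit false

namespace Pool.Agent.NTW

open Finset Pool.Agent.Lib_helper61.SwitchBasic

/-- The parts of `c` are modules of `G` (without switching). -/
def TrueMod {α : Type} (G : SimpleGraph α) (c : α → ℕ) : Prop :=
  ∀ x y z, c y = c z → c x ≠ c y → (G.Adj x y ↔ G.Adj x z)

/-- The automorphisms of `G` which map every part onto itself. -/
def NP {α : Type} (G : SimpleGraph α) (c : α → ℕ) : Subgroup (Equiv.Perm α) where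
  carrier := {τ | (∀ x, c (τ x) = c x) ∧ ∀ u v, G.Adj (τ u) (τ v) ↔ G.Adj u v}
  mul_mem' := by
    rintro a b ⟨ha, ha'⟩ ⟨hb, hb'⟩
    refine ⟨fun x => ?_, fun u v => ?_⟩
    · rw [Equiv.Perm.mul_apply, ha, hb]
    · rw [Equiv.Perm.mul_apply, Equiv.Perm.mul_apply, ha', hb']
  one_mem' := ⟨fun _ => rfl, fun _ _ => Iff.rfl⟩
  inv_mem' := by
    rintro a ⟨ha, ha'⟩
    refine ⟨fun x => ?_, fun u v => ?_⟩
    · have h := ha (a⁻¹ x)
      rw [show a (a⁻¹ x) = x from a.apply_symm_apply x] at h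
      exact h.symm
    · have h := ha' (a⁻¹ u) (a⁻¹ v)
      simpa using h.symm

/-- No union of parts is a module, except the trivial ones. -/
def PrimeQ {α : Type} (G : SimpleGraph α) (c : α → ℕ) : Prop :=
  ∀ W : Finset α, IsMod G W → (∀ x ∈ W, ∀ y, c y = c x → y ∈ W) →
    (∀ x ∈ W, ∀ y ∈ W, c x = c y) ∨ (∀ x, x ∉ W → ∀ y, y ∉ W → c x = c y)

/-- **HOMV** (from HOM).  HOM for the type `β = {x // x ∈ V}` and `f' S = f (S.map e)`, `e : β → α` the inclusion (as TENU from TEN); for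
`h' : Finset β → ℚ` from HOM put `h X = h' (X.subtype (· ∈ V))`. -/
def S_HOMV : Prop :=
  ∀ (α : Type) [Fintype α] [DecidableEq α] (V U : Finset α), U ⊆ V → ∀ f : Finset α → ℚ,
    (∀ S ⊆ V, ∑ i ∈ V, f (symmDiff S {i}) = 0) → (∃ S ⊆ V, f S ≠ 0) →
    ∃ h : Finset α → ℚ, DegLE U (U.card / 2) h ∧ (∃ X ⊆ U, h X ≠ 0) ∧
      (∀ X ⊆ U, h X ≠ 0 → ∃ Y ⊆ V, Disjoint Y U ∧ f (X ∪ Y) ≠ 0) ∧
      (∀ X ⊆ U, ∀ X' ⊆ U, X.card = X'.card →
        (∀ Y ⊆ V, Disjoint Y U → f (X ∪ Y) = f (X' ∪ Y)) → h X = h X')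

/-- **PBLK** (from HOMV, TENU, RM).  `V`, `U ⊆ V` are unions of parts, all parts in `U` have `n` elements, so `card U = k n`, `k = card (U.image c)`.  HOMV for `V`, `U`,
`h` gives `h'` of degree `≤ k n / 2` on `U`.  Case `n ≥ 2`: TENU for `h'`, `U`, `E X X'` := `∃ τ ∈ NP G c, X' = X.map τ`, `lab x` = a chosen element of the part of `x`, `m = n - 1`:
the images of a subset of a part are subsets of the part of the same cardinality `j`, `n.choose j ≤ 2 ^ (n - 1)` (Pascal, `1 ≤ n`).  Invariance of `h'`: if `τ ∈ NP G c` then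
`τ' = τ` on one part, the identity elsewhere is in `NP G c` (`TrueMod`); use the last part of HOMV for `X ∪ Y`, `X' ∪ Y`.  So `2 ^ (k n - k n / 2) ≤ card 𝒯' ^ n`, hence
`2 ^ (k n) ≤ (card 𝒯' ^ 2) ^ n` and `2 ^ k ≤ card 𝒯' ^ 2`.  Lift `X ∈ 𝒯'` to `X ∪ Y_X` (third part of HOMV); if `τ ∈ NP G c` maps `X ∪ Y_X` to `X' ∪ Y_X'` it maps `X` to `X'` (`U` is a
union of parts), so `X = X'` (TENU: same on all labels).  Case `n = 1`: `τ ∈ NP G c` fixes the points of `U`; RM: `2 ^ (k - k / 2) ≤` size of the support of `h'` on `U`; lift it. -/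
def S_PBLK : Prop :=
  ∀ (α : Type) [Fintype α] [DecidableEq α] (G : SimpleGraph α) (c : α → ℕ), TrueMod G c →
    ∀ (V U : Finset α) (n : ℕ), 1 ≤ n → U ⊆ V → (∀ x ∈ V, ∀ y, c y = c x → y ∈ V) →
    (∀ x ∈ U, ∀ y, c y = c x → y ∈ U) → (∀ x ∈ U, (univ.filter fun y => c y = c x).card = n) →
    ∀ h : Finset α → ℚ, (∀ S ⊆ V, ∑ i ∈ V, h (symmDiff S {i}) = 0) → (∃ S ⊆ V, h S ≠ 0) →
    (∀ τ ∈ NP G c, ∀ S ⊆ V, h (S.map τ.toEmbedding) = h S) →
    ∃ 𝒯 : Finset (Finset α), (∀ X ∈ 𝒯, X ⊆ V ∧ h X ≠ 0) ∧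
      (∀ X ∈ 𝒯, ∀ X' ∈ 𝒯, (∃ τ ∈ NP G c, X' = X.map τ.toEmbedding) → X = X') ∧
      2 ^ (U.image c).card ≤ 𝒯.card ^ 2

/-- **PROD** (no hypothesis).  Put `V_a = {x | o x = a}`, `U_I = {x | o x ∈ I}`.  Prove by induction on the finite set `I`, for all `φ` with: sums over `V_a` zero at all `S ⊆ U_I` (`a ∈ I`), not 0 on
the subsets of `U_I`, `φ (S.map τ) = φ S` for `τ ∈ NP G c`, `S ⊆ U_I`: there is `𝒯` (subsets of `U_I`, `φ ≠ 0`, pairwise inequivalent) with `2 ^ (∑ a ∈ I, k a) ≤ card 𝒯 ^ 2`.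
Step `insert a I`, `φ S₀ ≠ 0`: `h X = φ ((X ∩ V_a) ∪ (S₀ \ V_a))` satisfies the hypothesis for `a` (for `τ ∈ NP G c` the permutation which is `τ` on `V_a` and the identity outside is in
`NP G c`, by `TrueMod`, as `V_a` is a union of parts): `𝒯_a`.  For `X ∈ 𝒯_a` the function `φ_X Y = φ (X ∪ (Y ∩ U_I))` is as needed for `I` (`φ_X (S₀ \ V_a) ≠ 0`; invariance: the permutation which is `τ` outside `V_a`, the identity
on `V_a`), so it gives `𝒯_X`, with `2 ^ (∑ I) ≤ card 𝒯_X ^ 2`; `𝒯 = {X ∪ Y : X ∈ 𝒯_a, Y ∈ 𝒯_X}`.  If `τ` maps `X ∪ Y` to `X' ∪ Y'`, it maps `X` to `X'`, so `X = X'`, and `Y` to `Y'`, so `Y = Y'`.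
`card 𝒯 ≥ card 𝒯_a * n`, `n` the least number with `2 ^ (∑ I) ≤ n ^ 2`. -/
def S_PROD : Prop :=
  ∀ (α : Type) [Fintype α] [DecidableEq α] (G : SimpleGraph α) (c : α → ℕ), TrueMod G c →
    ∀ (o k : ℕ → ℕ),
    (∀ (a : ℕ) (h : Finset α → ℚ),
      (∀ S ⊆ univ.filter (fun x => o (c x) = a),
        ∑ i ∈ univ.filter (fun x => o (c x) = a), h (symmDiff S {i}) = 0) →
      (∃ S ⊆ univ.filter (fun x => o (c x) = a), h S ≠ 0) →
      (∀ τ ∈ NP G c, ∀ S ⊆ univ.filter (fun x => o (c x) = a), h (S.map τ.toEmbedding) = h S) →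
      ∃ 𝒯 : Finset (Finset α), (∀ X ∈ 𝒯, X ⊆ univ.filter (fun x => o (c x) = a) ∧ h X ≠ 0) ∧
        (∀ X ∈ 𝒯, ∀ X' ∈ 𝒯, (∃ τ ∈ NP G c, X' = X.map τ.toEmbedding) → X = X') ∧
        2 ^ k a ≤ 𝒯.card ^ 2) →
    ∀ φ : Finset α → ℚ,
    (∀ (a : ℕ) (S : Finset α), ∑ i ∈ univ.filter (fun x => o (c x) = a), φ (symmDiff S {i}) = 0) →
    (∃ S, φ S ≠ 0) → (∀ τ ∈ NP G c, ∀ S, φ (S.map τ.toEmbedding) = φ S) →
    ∃ 𝒯 : Finset (Finset α), (∀ X ∈ 𝒯, φ X ≠ 0) ∧
      (∀ X ∈ 𝒯, ∀ X' ∈ 𝒯, (∃ τ ∈ NP G c, X' = X.map τ.toEmbedding) → X = X') ∧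
      2 ^ (∑ a ∈ univ.image (fun x : α => o (c x)), k a) ≤ 𝒯.card ^ 2

/-- **REP** (no hypothesis).  If all `c x` are equal take `S = ∅`.  Otherwise fix `x₀`, `x₁` with `c x₀ ≠ c x₁` and put `z ∈ S` iff (`c z ≠ c x₀` and `G.Adj x₀ z`) or (`c z = c x₀` and
`¬ (G.Adj x₁ z ↔ G.Adj x₁ x₀)`).  For `c z = c w`, `c x ≠ c z`: exactly one of `z`, `w` is in `S` iff `x₀` (or `x₁`) separates `z`, `w` iff `x` separates `z`, `w` (module), so `x` does not separate them in `sw G S`. -/
def S_REP : Prop :=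
  ∀ (α : Type) [Fintype α] [DecidableEq α] (G : SimpleGraph α) (c : α → ℕ),
    (∀ i, IsMod G (Fin5.part c i)) → ∃ S : Finset α, TrueMod (sw G S) c

/-- **CNTQ** (no hypothesis).  (1) KERNEL: if `τ` preserves all parts and is an isomorphism `sw G T ≃g sw G T'`, put `T₁ = T' Δ τ T`; then `G.Adj (τ u) (τ v) ↔ (sw G T₁).Adj ..`: precisely
`(sw G T₁).Adj (τ u) (τ v) ↔ G.Adj u v`.  For `c u ≠ c v` we have `G.Adj (τ u) (τ v) ↔ G.Adj u v` (`TrueMod` twice), so `τ u ∈ T₁ ↔ τ v ∈ T₁`; as there are two parts, `T₁ = ∅` or `T₁ = univ`, so `τ ∈ NP G c` and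
`T' = τ T` or `T' = (τ T)ᶜ`.  (2) It is enough that at most `2 M` members `T` of `𝒯` have `sw G T ≃g K` (the same for `H`; `M` the number on the right).  Fix one of them, `T₀`, and isomorphisms
`π_T : sw G T₀ ≃g sw G T`; `π_T` is a class automorphism (`classAut_of_iso`).  If `c ∘ π_T = c ∘ π_T'` then `τ = π_T' ∘ π_T⁻¹` preserves all parts, so by (1) `T' = τ T` (then `T = T'`) or `T' = (τ T)ᶜ`.  So each fibre of `T ↦ c ∘ π_T` has at
most two elements (`T' = (τ T)ᶜ`, `T'' = (τ' T)ᶜ` are equivalent under `τ' τ⁻¹`). -/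
def S_CNTQ : Prop :=
  ∀ (α : Type) [Fintype α] [DecidableEq α] (G K H : SimpleGraph α) (c : α → ℕ), TrueMod G c →
    (∃ y z, c y ≠ c z) → ∀ 𝒯 : Finset (Finset α),
    (∀ T ∈ 𝒯, Nonempty (sw G T ≃g K) ∨ Nonempty (sw G T ≃g H)) →
    (∀ T ∈ 𝒯, ∀ T' ∈ 𝒯, (∃ τ ∈ NP G c, T' = T.map τ.toEmbedding) → T = T') →
    𝒯.card ≤ 4 * {h : α → ℕ | ∃ s : Equiv.Perm α, IsClassAut G s ∧ h = fun x => c (s x)}.ncard

/-- **MOD** (no hypothesis).  `x` separates `z`, `w`: `¬ (G.Adj x z ↔ G.Adj x w)`.  (1) for `z, w ∈ C`, `x, x' ∉ C`: `x` separates `z`, `w` iff `x'` does, so `z` separates `x`, `x'` iff `w` does.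
(2) `u ∈ D ∩ D'`, `z ∈ D`, `w ∈ D'`: `x` separates `z`, `w` iff it separates exactly one of the pairs `z, u` and `u, w`. -/
def S_MOD : Prop :=
  ∀ (α : Type) [Fintype α] [DecidableEq α] (G : SimpleGraph α) (C D : Finset α),
    (IsMod G C → IsMod G Cᶜ) ∧ (IsMod G C → IsMod G D → (C ∩ D).Nonempty → IsMod G (C ∪ D))

/-- **INVA** (no hypothesis).  Let `D` be a module, and suppose no part contains `D`, no part contains `Dᶜ`.  `J` = labels of the parts meeting `D`, `J'` = labels of the parts meeting `Dᶜ`;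
`card J ≥ 2`, `card J' ≥ 2`, `J ∪ J'` = all labels, at least 4.  Put `A = J \ J'`, `B = J ∩ J'`, `C = J' \ J` and `J₁ = A ∪ B₁` with `B₁ ⊆ B`, `card B₁ = 2 - card A` (0 if `card A ≥ 2`; possible as `card A + card B ≥ 2`).
Then `2 ≤ card J₁` and at least two labels are not in `J₁` (`card A ≥ 2`: those in `J'`; `card A ≤ 1`: at least `4 - 2`).  `W` = union of the parts with label in `J₁`.  Claim: `W` is a module, against `PrimeQ`.  Let `z, w ∈ W`;
`z' ∈ D` in the part of `z`, `w' ∈ D` in the part of `w`.  For `x ∉ W` let `x' ∉ D` be in the part of `x` (`c x ∉ J₁`).  As the part of `x` is a module and `z`, `w` are outside: `x` separates `z`, `w` iff `x'` does.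
`x'` separates `z`, `w` iff an odd number of: `x'` separates `z, z'`; `z', w'`; `w', w`.  The first and third do not depend on `x'` outside the part of `z` (of `w`), the second does not depend on `x' ∉ D`.  So whether `x` separates `z`, `w` does
not depend on `x ∉ W`. -/
def S_INVA : Prop :=
  ∀ (α : Type) [Fintype α] [DecidableEq α] (G : SimpleGraph α) (c : α → ℕ),
    (∀ i, IsMod G (Fin5.part c i)) → 4 ≤ (univ.image c).card → PrimeQ G c →
    ∀ D : Finset α, IsMod G D →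
    (∃ i, D ⊆ Fin5.part c i) ∨ (∃ i, Dᶜ ⊆ Fin5.part c i)

/-- **INVB** (from INVA).  For a class automorphism `s` and a module `C` the set `C.map s` is a module (if `(sw G S).Adj (s u) (s v) ↔ G.Adj u v` for all `u, v`, then: `s x` separates `s z`, `s w` in `sw G S` iff `x` separates `z`, `w` in `G`, and
switching changes the separation for all `x` or for none, see `sw_adj_iff` in `Sw.lean`).  Let `C` be the part of `x`, `D = C.map s`.  If `Dᶜ` is contained in a part, then `card α ≤ card D + card (that part) < card α`.  So `D` is contained in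
a part, and `c (s x) = c (s y)` for `y ∈ C`. -/
def S_INVB : Prop :=
  ∀ (α : Type) [Fintype α] [DecidableEq α] (G : SimpleGraph α) (c : α → ℕ),
    (∀ i, IsMod G (Fin5.part c i)) → 4 ≤ (univ.image c).card → PrimeQ G c →
    (∀ i, 2 * (Fin5.part c i).card < Fintype.card α) →
    ∀ s : Equiv.Perm α, IsClassAut G s → ∀ x y, c x = c y → c (s x) = c (s y)

/-- **CENT** (from MOD).  `p = card α`.  Small = at most `(p - 1) / 2` elements; a module is small or its complement is (a module, by MOD).  Singletons are small modules (`3 ≤ p`).  For `x` choose a small module `m x ∋ x` of maximal cardinality.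
Case 1: for some `x, y` the modules `D = m x`, `D' = m y` meet and are different, and neither contains the other (if `D ⊂ D'`, `D'` is a larger small module containing `x`).  `D ∪ D'` is a module, not small (maximality), its complement
`E` is a small module, not empty (`card D + card D' < p`).  `c = 0` on `D \ D'`, `1` on `D ∩ D'`, `2` on `D' \ D`, `3` on `E`: these are modules by MOD (`D ∩ D' = (Dᶜ ∪ D'ᶜ)ᶜ`, `E ⊆ Dᶜ ∩ D'ᶜ`; `D \ D' = (Dᶜ ∪ D')ᶜ`): second alternative.
Case 2: otherwise the sets `m x` form a partition; `c` = an injective numbering of it (`c x = c y ↔ m x = m y`).  There are at least 3 parts.  3 parts: third alternative.  At least 4: if `W` is a module, a union of parts, which contains two different parts, and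
`Wᶜ` does too: `W` or `Wᶜ` is a small module, properly containing some `m x`, against maximality.  So `PrimeQ`. -/
def S_CENT : Prop :=
  ∀ (α : Type) [Fintype α] [DecidableEq α] (G : SimpleGraph α), 3 ≤ Fintype.card α →
    (∀ C : Finset α, IsMod G C → 2 * C.card ≠ Fintype.card α) →
    ∃ c : α → ℕ, (∀ i, IsMod G (Fin5.part c i)) ∧
      (∀ i, 2 * (Fin5.part c i).card < Fintype.card α) ∧
      ((4 ≤ (univ.image c).card ∧ PrimeQ G c) ∨
        (univ.image c = {0, 1, 2, 3} ∧ IsMod G (Fin5.part c 0 ∪ Fin5.part c 1) ∧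
          IsMod G (Fin5.part c 1 ∪ Fin5.part c 2)) ∨
        (univ.image c).card = 3)

/-- **DEG34** (from REP).  REP gives `S` such that the parts are modules of `G' = sw G S`; between two parts there are all edges or none, `q i j`.  Switching at a union of parts changes `q i j` iff exactly one of the parts `i`, `j` is switched; we may
switch so that `q i l = 0` for one fixed label `l` and all other labels `i`.  Three labels `i, j, l`: if `q i j = 0`, no edges.  If `q i j = 1` switch the part `l`: all `q` are 1.  Four labels `0, 1, 2, 3`, `l = 3`: `{0, 1}` is a module: the part 2 separates the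
parts 0, 1 iff the part 3 does, so `q 0 2 = q 1 2`; `{1, 2}` is a module: `q 1 0 = q 2 0`.  So `q 0 1 = q 0 2 = q 1 2`; if they are 0, no edges, if they are 1, switch the part 3: all `q` are 1. -/
def S_DEG34 : Prop :=
  ∀ (α : Type) [Fintype α] [DecidableEq α] (G : SimpleGraph α) (c : α → ℕ),
    (∀ i, IsMod G (Fin5.part c i)) →
    ((univ.image c = {0, 1, 2, 3} ∧ IsMod G (Fin5.part c 0 ∪ Fin5.part c 1) ∧
      IsMod G (Fin5.part c 1 ∪ Fin5.part c 2)) ∨ (univ.image c).card = 3) →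
    ∃ S : Finset α, (∀ x y, c x ≠ c y → ¬ (sw G S).Adj x y) ∨
      (∀ x y, c x ≠ c y → (sw G S).Adj x y)

/-- **COMP** (no hypothesis).  The vertices of a connected component lie in one part; the map component `↦` label is surjective onto the labels. -/
def S_COMP : Prop :=
  ∀ (α : Type) [Fintype α] [DecidableEq α] (Γ : SimpleGraph α) (c : α → ℕ),
    (∀ x y, c x ≠ c y → ¬ Γ.Adj x y) → 3 ≤ (univ.image c).card →
    (∀ i, 2 * (Fin5.part c i).card ≤ Fintype.card α) →
    3 ≤ Nat.card Γ.ConnectedComponent ∧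
      ∀ C : Γ.ConnectedComponent, 2 * C.supp.ncard ≤ Fintype.card α

end Pool.Agent.NTW
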