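import Mathlib
import Pool.Agent.NTW.St6

/-!
# MP_e73337_co, centroid theorem: module CENT (helper15)
-/

set_option autoImplicit false

namespace Pool.Agent.NTW

open Finset Pool.Agent.Lib_helper61.SwitchBasic

theorem cent_single {α : Type} (G : SimpleGraph α) (x : α) : IsMod G {x} := by
  intro z hz w hw
  rw [mem_singleton] at hz hw
  subst hz
  subst hw
  exact Or.inl fun _ _ => Iff.rfl

theorem cent_empty {α : Type} (G : SimpleGraph α) : IsMod G (∅ : Finset α) := by
  intro z hz
  exact absurd hz (notMem_empty z)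

/-- Case 1: two maximal small modules which meet. -/
theorem cent_cross (hMOD : S_MOD) {α : Type} [Fintype α] [DecidableEq α] (G : SimpleGraph α)
    (D D' : Finset α) (hD : IsMod G D) (hD' : IsMod G D') (hsD : 2 * D.card < Fintype.card α)
    (hsD' : 2 * D'.card < Fintype.card α) (hne : (D ∩ D').Nonempty) (h1 : ¬ D ⊆ D')
    (h2 : ¬ D' ⊆ D) (hW : 2 * (D ∪ D')ᶜ.card < Fintype.card α) :
    ∃ c : α → ℕ, (∀ i, IsMod G (Fin5.part c i)) ∧
      (∀ i, 2 * (Fin5.part c i).card < Fintype.card α) ∧
      (univ.image c = {0, 1, 2, 3} ∧ IsMod G (Fin5.part c 0 ∪ Fin5.part c 1) ∧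
          IsMod G (Fin5.part c 1 ∪ Fin5.part c 2)) := by
  classical
  set c : α → ℕ := fun x => if x ∈ D then (if x ∈ D' then 1 else 0) else
    (if x ∈ D' then 2 else 3) with hc
  have hc0 : ∀ x, x ∈ D → x ∉ D' → c x = 0 := fun x a b => by simp [hc, a, b]
  have hc1 : ∀ x, x ∈ D → x ∈ D' → c x = 1 := fun x a b => by simp [hc, a, b]
  have hc2 : ∀ x, x ∉ D → x ∈ D' → c x = 2 := fun x a b => by simp [hc, a, b]
  have hc3 : ∀ x, x ∉ D → x ∉ D' → c x = 3 := fun x a b => by simp [hc, a, b]
  have p0 : Fin5.part c 0 = D \ D' := by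
    ext x
    rw [Fin5.mem_part, mem_sdiff]
    by_cases a : x ∈ D <;> by_cases b : x ∈ D'
    · simp [hc1 x a b, b]
    · simp [hc0 x a b, a, b]
    · simp [hc2 x a b, a]
    · simp [hc3 x a b, a]
  have p1 : Fin5.part c 1 = D ∩ D' := by
    ext x
    rw [Fin5.mem_part, mem_inter]
    by_cases a : x ∈ D <;> by_cases b : x ∈ D'
    · simp [hc1 x a b, a, b]
    · simp [hc0 x a b, b]
    · simp [hc2 x a b, a]
    · simp [hc3 x a b, a]
  have p2 : Fin5.part c 2 = D' \ D := by
    ext x
    rw [Fin5.mem_part, mem_sdiff]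
    by_cases a : x ∈ D <;> by_cases b : x ∈ D'
    · simp [hc1 x a b, a]
    · simp [hc0 x a b, b]
    · simp [hc2 x a b, a, b]
    · simp [hc3 x a b, b]
  have p3 : Fin5.part c 3 = (D ∪ D')ᶜ := by
    ext x
    rw [Fin5.mem_part, mem_compl, mem_union]
    by_cases a : x ∈ D <;> by_cases b : x ∈ D'
    · simp [hc1 x a b, a]
    · simp [hc0 x a b, a]
    · simp [hc2 x a b, b]
    · simp [hc3 x a b, a, b]
  have p4 : ∀ i, 4 ≤ i → Fin5.part c i = ∅ := by
    intro i hi
    rw [Finset.eq_empty_iff_forall_notMem]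
    intro x hx
    rw [Fin5.mem_part] at hx
    by_cases a : x ∈ D <;> by_cases b : x ∈ D'
    · rw [hc1 x a b] at hx; omega
    · rw [hc0 x a b] at hx; omega
    · rw [hc2 x a b] at hx; omega
    · rw [hc3 x a b] at hx; omega
  have hE : (D ∪ D')ᶜ.Nonempty := by
    rw [← Finset.card_pos, Finset.card_compl]
    have := Finset.card_union_le D D'
    omega
  have hDc := (hMOD α G D D).1 hD
  have hDc' := (hMOD α G D' D').1 hD'
  have hUn : IsMod G (D ∪ D') := (hMOD α G D D').2 hD hD' hne
  have m3 : IsMod G (D ∪ D')ᶜ := (hMOD α G _ D).1 hUn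
  have m1 : IsMod G (D ∩ D') := by
    have e : D ∩ D' = (Dᶜ ∪ D'ᶜ)ᶜ := by
      ext x
      simp only [mem_inter, mem_compl, mem_union]
      tauto
    rw [e]
    refine (hMOD α G _ D).1 ((hMOD α G _ _).2 hDc hDc' ?_)
    obtain ⟨x, hx⟩ := hE
    rw [mem_compl, mem_union] at hx
    exact ⟨x, by rw [mem_inter, mem_compl, mem_compl]; tauto⟩
  have n0 : (D \ D').Nonempty := by
    obtain ⟨x, hx, hx'⟩ := Finset.not_subset.1 h1
    exact ⟨x, mem_sdiff.2 ⟨hx, hx'⟩⟩
  have n2 : (D' \ D).Nonempty := by
    obtain ⟨x, hx, hx'⟩ := Finset.not_subset.1 h2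
    exact ⟨x, mem_sdiff.2 ⟨hx, hx'⟩⟩
  have m0 : IsMod G (D \ D') := by
    have e : D \ D' = (Dᶜ ∪ D')ᶜ := by
      ext x
      simp only [mem_sdiff, mem_compl, mem_union]
      tauto
    rw [e]
    refine (hMOD α G _ D).1 ((hMOD α G _ _).2 hDc hD' ?_)
    obtain ⟨x, hx⟩ := n2
    rw [mem_sdiff] at hx
    exact ⟨x, by rw [mem_inter, mem_compl]; tauto⟩
  have m2 : IsMod G (D' \ D) := by
    have e : D' \ D = (D'ᶜ ∪ D)ᶜ := by
      ext x
      simp only [mem_sdiff, mem_compl, mem_union]
      tauto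
    rw [e]
    refine (hMOD α G _ D).1 ((hMOD α G _ _).2 hDc' hD ?_)
    obtain ⟨x, hx⟩ := n0
    rw [mem_sdiff] at hx
    exact ⟨x, by rw [mem_inter, mem_compl]; tauto⟩
  refine ⟨c, ?_, ?_, ?_, ?_, ?_⟩
  · intro i
    rcases (by omega : i = 0 ∨ i = 1 ∨ i = 2 ∨ i = 3 ∨ 4 ≤ i) with rfl | rfl | rfl | rfl | hi
    · rw [p0]; exact m0
    · rw [p1]; exact m1
    · rw [p2]; exact m2
    · rw [p3]; exact m3
    · rw [p4 i hi]; exact cent_empty G
  · intro i
    rcases (by omega : i = 0 ∨ i = 1 ∨ i = 2 ∨ i = 3 ∨ 4 ≤ i) with rfl | rfl | rfl | rfl | hi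
    · rw [p0]
      have := Finset.card_le_card (sdiff_subset : D \ D' ⊆ D)
      omega
    · rw [p1]
      have := Finset.card_le_card (inter_subset_left : D ∩ D' ⊆ D)
      omega
    · rw [p2]
      have := Finset.card_le_card (sdiff_subset : D' \ D ⊆ D')
      omega
    · rw [p3]; exact hW
    · rw [p4 i hi, card_empty]
      omega
  · ext i
    rw [mem_image]
    simp only [mem_univ, true_and, mem_insert, mem_singleton]
    constructor
    · rintro ⟨x, rfl⟩
      by_cases a : x ∈ D <;> by_cases b : x ∈ D'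
      · rw [hc1 x a b]; omega
      · rw [hc0 x a b]; omega
      · rw [hc2 x a b]; omega
      · rw [hc3 x a b]; omega
    · rintro (rfl | rfl | rfl | rfl)
      · obtain ⟨x, hx⟩ := n0
        rw [mem_sdiff] at hx
        exact ⟨x, hc0 x hx.1 hx.2⟩
      · obtain ⟨x, hx⟩ := hne
        rw [mem_inter] at hx
        exact ⟨x, hc1 x hx.1 hx.2⟩
      · obtain ⟨x, hx⟩ := n2
        rw [mem_sdiff] at hx
        exact ⟨x, hc2 x hx.2 hx.1⟩
      · obtain ⟨x, hx⟩ := hE
        rw [mem_compl, mem_union] at hx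
        exact ⟨x, hc3 x (fun h => hx (Or.inl h)) (fun h => hx (Or.inr h))⟩
  · have e : Fin5.part c 0 ∪ Fin5.part c 1 = D := by
      rw [p0, p1]
      ext x
      simp only [mem_union, mem_sdiff, mem_inter]
      tauto
    rw [e]; exact hD
  · have e : Fin5.part c 1 ∪ Fin5.part c 2 = D' := by
      rw [p1, p2]
      ext x
      simp only [mem_union, mem_sdiff, mem_inter]
      tauto
    rw [e]; exact hD'

theorem t_CENT (hMOD : S_MOD) : S_CENT := by
  classical
  intro α _ _ G hp hhalf
  -- maximal small modules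
  have hmax : ∀ x : α, ∃ C : Finset α, IsMod G C ∧ x ∈ C ∧ 2 * C.card < Fintype.card α ∧
      ∀ C' : Finset α, IsMod G C' → x ∈ C' → 2 * C'.card < Fintype.card α → C'.card ≤ C.card := by
    intro x
    have hne : ((univ : Finset (Finset α)).filter fun C => IsMod G C ∧ x ∈ C ∧
        2 * C.card < Fintype.card α).Nonempty := by
      refine ⟨{x}, mem_filter.2 ⟨mem_univ _, cent_single G x, mem_singleton_self x, ?_⟩⟩
      rw [card_singleton]
      omega
    obtain ⟨C, hC, hCmax⟩ := Finset.exists_max_image _ Finset.card hne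
    obtain ⟨-, h1, h2, h3⟩ := mem_filter.1 hC
    exact ⟨C, h1, h2, h3, fun C' a b d => hCmax C' (mem_filter.2 ⟨mem_univ _, a, b, d⟩)⟩
  choose m hmod hmem hsmall hm using hmax
  -- a module which is not small has a small complement
  have hcompl : ∀ W : Finset α, IsMod G W → ¬ 2 * W.card < Fintype.card α →
      IsMod G Wᶜ ∧ 2 * Wᶜ.card < Fintype.card α := by
    intro W hW hWs
    refine ⟨(hMOD α G W W).1 hW, ?_⟩
    have h1 := hhalf W hW
    have h2 := Finset.card_le_univ W
    rw [Finset.card_compl]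
    omega
  by_cases hcase : ∃ x y, (m x ∩ m y).Nonempty ∧ m x ≠ m y
  · obtain ⟨x, y, hxy, hne⟩ := hcase
    have h1 : ¬ m x ⊆ m y := fun h =>
      hne (Finset.eq_of_subset_of_card_le h (hm x (m y) (hmod y) (h (hmem x)) (hsmall y)))
    have h2 : ¬ m y ⊆ m x := fun h =>
      hne (Finset.eq_of_subset_of_card_le h (hm y (m x) (hmod x) (h (hmem y)) (hsmall x))).symm
    have hW : ¬ 2 * (m x ∪ m y).card < Fintype.card α := by
      intro hs
      have h3 := hm x (m x ∪ m y) ((hMOD α G _ _).2 (hmod x) (hmod y) hxy)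
        (mem_union_left _ (hmem x)) hs
      have h4 := Finset.eq_of_subset_of_card_le (subset_union_left : m x ⊆ m x ∪ m y) h3
      exact h2 (by rw [h4]; exact subset_union_right)
    have hWc := (hcompl _ ((hMOD α G _ _).2 (hmod x) (hmod y) hxy) hW).2
    obtain ⟨c, hc1, hc2, hc3⟩ := cent_cross hMOD G (m x) (m y) (hmod x) (hmod y) (hsmall x)
      (hsmall y) hxy h1 h2 hWc
    exact ⟨c, hc1, hc2, Or.inr (Or.inl hc3)⟩
  · push Not at hcase
    set e : Finset α ≃ Fin (Fintype.card (Finset α)) := Fintype.equivFin (Finset α) with he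
    set c : α → ℕ := fun x => (e (m x)).val with hc
    have hcc : ∀ x y, c x = c y ↔ m x = m y := by
      intro x y
      constructor
      · intro h
        exact e.injective (Fin.ext h)
      · intro h
        show (e (m x)).val = (e (m y)).val
        rw [h]
    have hpart : ∀ x, Fin5.part c (c x) = m x := by
      intro x
      ext y
      rw [Fin5.mem_part, hcc]
      constructor
      · intro h
        rw [← h]
        exact hmem y
      · intro h
        exact (hcase x y ⟨y, mem_inter.2 ⟨h, hmem y⟩⟩).symm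
    have hpart0 : ∀ i, (∀ x, c x ≠ i) → Fin5.part c i = ∅ := by
      intro i hi
      rw [Finset.eq_empty_iff_forall_notMem]
      intro x hx
      exact hi x ((Fin5.mem_part c i x).1 hx)
    have hmodp : ∀ i, IsMod G (Fin5.part c i) := by
      intro i
      by_cases hi : ∃ x, c x = i
      · obtain ⟨x, rfl⟩ := hi
        rw [hpart x]
        exact hmod x
      · push Not at hi
        rw [hpart0 i hi]
        exact cent_empty G
    have hsm : ∀ i, 2 * (Fin5.part c i).card < Fintype.card α := by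
      intro i
      by_cases hi : ∃ x, c x = i
      · obtain ⟨x, rfl⟩ := hi
        rw [hpart x]
        exact hsmall x
      · push Not at hi
        rw [hpart0 i hi, card_empty]
        omega
    have hr : 3 ≤ (univ.image c).card := by
      by_contra hlt
      have h1 : Fintype.card α = ∑ i ∈ univ.image c, (Fin5.part c i).card := by
        rw [← Finset.card_univ, Finset.card_eq_sum_card_image c univ]
        refine Finset.sum_congr rfl fun i _ => ?_
        congr 1
      have h2 : ∑ i ∈ univ.image c, 2 * (Fin5.part c i).card <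
          ∑ _i ∈ univ.image c, Fintype.card α := by
        refine Finset.sum_lt_sum_of_nonempty ?_ fun i _ => hsm i
        have : Nonempty α := Fintype.card_pos_iff.1 (by omega)
        exact (Finset.univ_nonempty).image c
      rw [← Finset.mul_sum, ← h1, Finset.sum_const, smul_eq_mul] at h2
      have h3 : (univ.image c).card * Fintype.card α ≤ 2 * Fintype.card α :=
        Nat.mul_le_mul_right _ (by omega)
      omega
    refine ⟨c, hmodp, hsm, ?_⟩
    rcases Nat.lt_or_ge 3 (univ.image c).card with h4 | h4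
    · left
      refine ⟨h4, ?_⟩
      intro W hW hWu
      by_contra hcon
      push Not at hcon
      obtain ⟨⟨x, hx, y, hy, hxy⟩, x', hx', y', hy', hxy'⟩ := hcon
      by_cases hWs : 2 * W.card < Fintype.card α
      · have h5 : m x ⊆ W := by
          intro z hz
          refine hWu x hx z ?_
          rw [hcc]
          exact (hcase x z ⟨z, mem_inter.2 ⟨hz, hmem z⟩⟩).symm
        have h6 := Finset.eq_of_subset_of_card_le h5 (hm x W hW hx hWs)
        apply hxy
        rw [hcc]
        rw [← h6] at hy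
        exact hcase x y ⟨y, mem_inter.2 ⟨hy, hmem y⟩⟩
      · obtain ⟨hWc, hWcs⟩ := hcompl W hW hWs
        have h5 : m x' ⊆ Wᶜ := by
          intro z hz
          rw [mem_compl]
          intro hzW
          refine hx' (hWu z hzW x' ?_)
          rw [hcc]
          exact hcase x' z ⟨z, mem_inter.2 ⟨hz, hmem z⟩⟩
        have h6 := Finset.eq_of_subset_of_card_le h5 (hm x' Wᶜ hWc (mem_compl.2 hx') hWcs)
        apply hxy'
        rw [hcc]
        have hy'' : y' ∈ m x' := by
          rw [h6]
          exact mem_compl.2 hy'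
        exact hcase x' y' ⟨y', mem_inter.2 ⟨hy'', hmem y'⟩⟩
    · right; right
      omega

end Pool.Agent.NTW
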