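import Pool.Agent.NTW.St6
import Pool.Agent.NTW.Sw

/-
INVB (MP_e73337_co, centroid theorem): class automorphisms permute the parts (helper3).
-/

set_option autoImplicit false

namespace Pool.Agent.NTW

open Finset Pool.Agent.Lib_helper61.SwitchBasic

theorem invb_aux (A P R : Prop) (h : A ↔ (P ↔ R)) : P ↔ (A ↔ R) := by tauto

theorem invb_map {α : Type} [DecidableEq α] (G : SimpleGraph α) (s : Equiv.Perm α)
    (hs : IsClassAut G s) (C : Finset α) (hC : IsMod G C) : IsMod G (C.map s.toEmbedding) := by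
  obtain ⟨S, hS⟩ := hs
  intro z' hz' w' hw'
  obtain ⟨z, hz, rfl⟩ := Finset.mem_map.1 hz'
  obtain ⟨w, hw, rfl⟩ := Finset.mem_map.1 hw'
  have key : ∀ x', x' ∉ C.map s.toEmbedding → ∃ x, x ∉ C ∧
      ((G.Adj x' (s z) ↔ G.Adj x' (s w)) ↔ ((G.Adj x z ↔ G.Adj x w) ↔ (s z ∈ S ↔ s w ∈ S))) := by
    intro x' hx'
    refine ⟨s.symm x', fun h => hx' (Finset.mem_map.2 ⟨s.symm x', h, by simp⟩), ?_⟩
    have h1 : x' ≠ s z := fun e => hx' (e ▸ hz')
    have h2 : x' ≠ s w := fun e => hx' (e ▸ hw')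
    have h3 := sw_adj_iff G S x' (s z) (s w) h1 h2
    have h4 := hS (s.symm x') z
    have h5 := hS (s.symm x') w
    rw [Equiv.apply_symm_apply] at h4 h5
    rw [h4, h5] at h3
    exact invb_aux _ _ _ h3
  show (∀ x, x ∉ C.map s.toEmbedding → (G.Adj x (s z) ↔ G.Adj x (s w))) ∨
    (∀ x, x ∉ C.map s.toEmbedding → ¬ (G.Adj x (s z) ↔ G.Adj x (s w)))
  by_cases hSS : (s z ∈ S ↔ s w ∈ S)
  · rcases hC z hz w hw with h | h
    · left
      intro x' hx'
      obtain ⟨x, hx, hk⟩ := key x' hx'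
      exact hk.2 (iff_of_true (h x hx) hSS)
    · right
      intro x' hx'
      obtain ⟨x, hx, hk⟩ := key x' hx'
      exact fun hP => h x hx ((hk.1 hP).2 hSS)
  · rcases hC z hz w hw with h | h
    · right
      intro x' hx'
      obtain ⟨x, hx, hk⟩ := key x' hx'
      exact fun hP => hSS ((hk.1 hP).1 (h x hx))
    · left
      intro x' hx'
      obtain ⟨x, hx, hk⟩ := key x' hx'
      exact hk.2 (iff_of_false (h x hx) hSS)

theorem t_INVB (h : S_INVA) : S_INVB := by
  intro α _ _ G c hmod h4 hprime hsmall s hs x y hxy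
  have hD := invb_map G s hs (Fin5.part c (c x)) (hmod (c x))
  have hx : x ∈ Fin5.part c (c x) := (Fin5.mem_part c _ _).2 rfl
  have hy : y ∈ Fin5.part c (c x) := (Fin5.mem_part c _ _).2 hxy.symm
  have hsx : s x ∈ (Fin5.part c (c x)).map s.toEmbedding := Finset.mem_map.2 ⟨x, hx, rfl⟩
  have hsy : s y ∈ (Fin5.part c (c x)).map s.toEmbedding := Finset.mem_map.2 ⟨y, hy, rfl⟩
  rcases h α G c hmod h4 hprime _ hD with ⟨i, hi⟩ | ⟨i, hi⟩
  · have h1 := (Fin5.mem_part c _ _).1 (hi hsx)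
    have h2 := (Fin5.mem_part c _ _).1 (hi hsy)
    rw [h1, h2]
  · exfalso
    have h1 := Finset.card_le_card hi
    rw [Finset.card_compl, Finset.card_map] at h1
    have h2 := hsmall (c x)
    have h3 := hsmall i
    omega

end Pool.Agent.NTW
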