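import Pool.Agent.Lib_helper61.SwMain

set_option autoImplicit false

namespace Pool.Agent.NTW.SmallComp

open Pool.Agent.Lib_helper61.SwitchBasic Pool.Agent.Lib_helper61.SwMain Finset

theorem core (p : ℕ) (hp : p ≠ 4) (G : SimpleGraph (Fin p)) (S : Finset (Fin p))
    (h3 : 3 ≤ Nat.card (sw G S).ConnectedComponent)
    (hs : (∀ c : (sw G S).ConnectedComponent, 2 * c.supp.ncard ≤ p) ∨
      ((∀ c : (sw G S).ConnectedComponent, c.supp.ncard + 3 ≤ p) ∧
        ∀ σ : Equiv.Perm (Fin p), IsClassAut (sw G S) σ →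
          ∀ u v, (sw G S).Adj (σ u) (σ v) ↔ (sw G S).Adj u v))
    (H : SimpleGraph (Fin p)) (hdeck : SameDeck G H) : Nonempty (G ≃g H) := by
  by_contra hne
  have h4 := four_dvd hdeck hne
  rw [Fintype.card_fin] at h4
  have hp8 : 8 ≤ p := by
    obtain ⟨⟨m, hm⟩, h0⟩ := h4
    omega
  apply hne
  have hn4 : Fintype.card (Fin p) ≠ 4 := by simpa using hp
  rcases hs with hs | ⟨hs, hA⟩
  · refine main_comps hn4 h3 (fun c => ?_) (small_aut _ h3 (fun c => ?_)) S rfl hdeck
    · have := hs c
      rw [Fintype.card_fin]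
      omega
    · rw [Fintype.card_fin]
      exact hs c
  · refine main_comps hn4 h3 (fun c => ?_) hA S rfl hdeck
    rw [Fintype.card_fin]
    exact hs c

/-- Let `p ≠ 4`, let `G` be a graph on `p` vertices and let `Γ` be `G` switched at some vertex
set, or the complement of such a graph. Suppose that `Γ` has at least three connected components
and that either no component has more than `p / 2` vertices, or no component has more than `p - 3`
vertices and every automorphism of the switching class of `Γ` is an automorphism of `Γ`. Then `G`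
is switching-reconstructible. -/
theorem small_comps (p : ℕ) (hp : p ≠ 4) (G : SimpleGraph (Fin p)) (S : Finset (Fin p))
    (Γ : SimpleGraph (Fin p)) (hΓ : Γ = sw G S ∨ Γ = (sw G S)ᶜ)
    (h3 : 3 ≤ Nat.card Γ.ConnectedComponent)
    (hs : (∀ c : Γ.ConnectedComponent, 2 * c.supp.ncard ≤ p) ∨
      ((∀ c : Γ.ConnectedComponent, c.supp.ncard + 3 ≤ p) ∧
        ∀ σ : Equiv.Perm (Fin p), IsClassAut Γ σ → ∀ u v, Γ.Adj (σ u) (σ v) ↔ Γ.Adj u v))
    (H : SimpleGraph (Fin p)) (hdeck : SameDeck G H) : Nonempty (G ≃g H) := by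
  rcases hΓ with rfl | rfl
  · exact core p hp G S h3 hs H hdeck
  · rw [sw_isoCompl] at h3 hs
    exact iso_compl (core p hp Gᶜ S h3 hs Hᶜ (sameDeck_compl hdeck))

end Pool.Agent.NTW.SmallComp
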