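import Pool.Agent.NTW.Main6
import Pool.Agent.NTW.Fin9
import Pool.Agent.NTW.Fin10

/-!
The centroid theorem: structure of a graph which is not switching-reconstructible (helper39).
-/

set_option autoImplicit false

namespace Pool.Agent.NTW

open Finset Pool.Agent.Lib_helper61.SwitchBasic

/-- The centroid theorem. -/
theorem centroid_main (hHALF : S_HALF3) (p : ℕ) (hp4 : p ≠ 4) (G H : SimpleGraph (Fin p))
    (hdeck : SameDeck G H) (hne : ¬ Nonempty (G ≃g H)) :
    ((p % 8 = 4 ∨ p = 8) ∧ ∃ U : Finset (Fin p), IsMod G U ∧ 2 * U.card = p) ∨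
    ∃ c : Fin p → ℕ, (∀ i, IsMod G (Fin5.part c i)) ∧
      (∀ i, 2 * (Fin5.part c i).card < p) ∧ 5 ≤ (univ.image c).card ∧ PrimeQ G c ∧
      (∀ s : Equiv.Perm (Fin p), IsClassAut G s → ∀ x y, c x = c y → c (s x) = c (s y)) ∧
      2 ^ (univ.image c).card ≤ (4 * partImages G c) ^ 2 := by
  classical
  have hcard : Fintype.card (Fin p) = p := Fintype.card_fin p
  have h4 := Pool.Agent.Lib_helper61.SwMain.four_dvd hdeck hne
  rw [hcard] at h4
  have hp3 : 3 ≤ p := by
    obtain ⟨⟨m, hm⟩, h0⟩ := h4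
    omega
  by_cases hhalf : ∃ U : Finset (Fin p), IsMod G U ∧ 2 * U.card = p
  · left
    refine ⟨?_, hhalf⟩
    by_contra hc
    push Not at hc
    obtain ⟨U, hU, hUc⟩ := hhalf
    obtain ⟨⟨m, hm⟩, h0⟩ := h4
    have h8 : p % 8 = 0 := by omega
    have h16 : 8 ≤ U.card := by omega
    have h44 : 4 ∣ U.card := by omega
    exact hne (half_main t_MOD t_REP (t_DEG34 t_REP) t_COMP hHALF p U.card hUc.symm h16 h44 G U
      hU rfl H hdeck)
  · right
    push Not at hhalf
    obtain ⟨c, hmod, hsmall, hcases⟩ := t_CENT t_MOD (Fin p) G (by rw [hcard]; exact hp3)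
      (by rw [hcard]; exact hhalf)
    rw [hcard] at hsmall
    rcases hcases with ⟨hr, hP⟩ | hc
    · have hinv := t_INVB t_INVA (Fin p) G c hmod hr hP (by rw [hcard]; exact hsmall)
      have h5 := five t_REP (Fin p) G c hmod hr hP
      have h2 : ∃ y z, c y ≠ c z := by
        by_contra hc
        push Not at hc
        have : (univ.image c).card ≤ 1 := by
          rw [Finset.card_le_one]
          intro i hi j hj
          obtain ⟨x, -, rfl⟩ := Finset.mem_image.1 hi
          obtain ⟨y, -, rfl⟩ := Finset.mem_image.1 hj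
          exact hc x y
        omega
      refine ⟨c, hmod, hsmall, h5, hP, hinv, ?_⟩
      by_contra hM
      push Not at hM
      exact hne (parts_main p hp4 G c hmod h2 hinv hM H hdeck)
    · exfalso
      exact hne (Fin9.deg_recon (t_DEG34 t_REP) t_COMP p hp4 G c hmod
        (fun i => (hsmall i).le) hc H hdeck)

end Pool.Agent.NTW
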