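import Pool.Agent.NTW.St9
import Pool.Agent.NTW.Fin9

/-!
Modules with exactly half of the vertices, `8 ∣ p` (helper39): assembly.
-/

set_option autoImplicit false

namespace Pool.Agent.NTW

open Finset Pool.Agent.Lib_helper61.SwitchBasic

open Fin9

/-- The situation of two halves for a graph with a module of exactly half of the vertices. -/
theorem half_exists (hMOD : S_MOD) (hREP : S_REP) (hDEG : S_DEG34) (hCOMP : S_COMP)
    (p n : ℕ) (hpn : p = 2 * n) (hn8 : 4 ≤ n)
    (G : SimpleGraph (Fin p)) (U : Finset (Fin p)) (hU : IsMod G U) (hUc : U.card = n)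
    (H : SimpleGraph (Fin p)) (hdeck : SameDeck G H) (hne : ¬ Nonempty (G ≃g H)) :
    ∃ (S₁ : Finset (Fin p)) (φ : Finset (Fin p) → ℚ), Half (sw G S₁) U n φ ∧ φ S₁ ≠ 0 := by
  classical
  have hcard : Fintype.card (Fin p) = p := Fintype.card_fin p
  have hp4 : p ≠ 4 := by omega
  have hUcc : Uᶜ.card = n := by
    rw [Finset.card_compl, hcard, hUc]
    omega
  -- class automorphisms preserve the pair of halves
  have hclass : ∀ s : Equiv.Perm (Fin p), IsClassAut G s →
      (∀ x, s x ∈ U ↔ x ∈ U) ∨ (∀ x, s x ∈ U ↔ x ∉ U) := by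
    intro s hs
    have hD' := invb_map G s hs U hU
    set D' := U.map s.toEmbedding with hD'd
    have hD'c : D'.card = n := by rw [hD'd, Finset.card_map, hUc]
    have hmem : ∀ x, s x ∈ D' ↔ x ∈ U := fun x => Finset.mem_map' _
    by_cases e1 : U = D'
    · left
      intro x
      conv_lhs => rw [e1]
      exact hmem x
    by_cases e2 : D' = Uᶜ
    · right
      intro x
      have h1 := hmem x
      rw [e2, Finset.mem_compl] at h1
      tauto
    exfalso
    have h1 : ¬ U ⊆ D' := fun h => e1 (Finset.eq_of_subset_of_card_le h (by omega))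
    have h2 : ¬ D' ⊆ U := fun h => e1 (Finset.eq_of_subset_of_card_le h (by omega)).symm
    have h3 : (U ∩ D').Nonempty := by
      by_contra hc
      rw [Finset.not_nonempty_iff_eq_empty, ← Finset.disjoint_iff_inter_eq_empty] at hc
      apply e2
      apply Finset.eq_of_subset_of_card_le
      · intro x hx
        rw [Finset.mem_compl]
        intro hx'
        exact (Finset.disjoint_left.1 hc hx') hx
      · omega
    have h4 : (U ∪ D')ᶜ.Nonempty := by
      have h5 := Finset.card_union_add_card_inter U D'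
      have h6 := Finset.card_pos.2 h3
      rw [← Finset.card_pos, Finset.card_compl, hcard]
      omega
    have h7 : 2 * (U ∪ D')ᶜ.card ≤ Fintype.card (Fin p) := by
      rw [Finset.card_compl, hcard]
      have h5 : U.card ≤ (U ∪ D').card := Finset.card_le_card Finset.subset_union_left
      omega
    obtain ⟨c, hc1, hc2, hc3⟩ := cross4 hMOD G U D' hU hD' h3 h1 h2 h4 (by rw [hcard]; omega)
      (by rw [hcard]; omega) h7
    rw [hcard] at hc2
    exact hne (deg_recon hDEG hCOMP p hp4 G c hc1 hc2 (Or.inl hc3) H hdeck)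
  -- normalisation
  set c : Fin p → ℕ := fun x => if x ∈ U then 0 else 1 with hcd
  have hcU : ∀ x, c x = 0 ↔ x ∈ U := by
    intro x
    simp only [hcd]
    split_ifs with h <;> simp [h]
  have hcW : ∀ x, c x = 1 ↔ x ∉ U := by
    intro x
    simp only [hcd]
    split_ifs with h <;> simp [h]
  have hc01 : ∀ x, c x = 0 ∨ c x = 1 := by
    intro x
    by_cases h : x ∈ U
    · exact Or.inl ((hcU x).2 h)
    · exact Or.inr ((hcW x).2 h)
  have hmod : ∀ i, IsMod G (Fin5.part c i) := by
    intro i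
    have h0 : Fin5.part c 0 = U := by
      ext x
      rw [Fin5.mem_part]
      exact hcU x
    have h1 : Fin5.part c 1 = Uᶜ := by
      ext x
      rw [Fin5.mem_part, Finset.mem_compl]
      exact hcW x
    rcases (by omega : i = 0 ∨ i = 1 ∨ 2 ≤ i) with rfl | rfl | hi
    · rw [h0]; exact hU
    · rw [h1]; exact (hMOD (Fin p) G U U).1 hU
    · have h2 : Fin5.part c i = ∅ := by
        rw [Finset.eq_empty_iff_forall_notMem]
        intro x hx
        rw [Fin5.mem_part] at hx
        rcases hc01 x with h | h <;> omega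
      rw [h2]
      exact cent_empty G
  obtain ⟨u₀, hu₀⟩ : U.Nonempty := by
    rw [← Finset.card_pos]
    omega
  obtain ⟨w₀, hw₀⟩ : Uᶜ.Nonempty := by
    rw [← Finset.card_pos]
    omega
  rw [Finset.mem_compl] at hw₀
  obtain ⟨S₁, hT⟩ := hREP (Fin p) G c hmod
  set B := sw G S₁ with hB
  have hBmod : ∀ u ∈ U, ∀ u' ∈ U, ∀ w ∉ U, ∀ w' ∉ U, (B.Adj u w ↔ B.Adj u' w') := by
    intro u hu u' hu' w hw w' hw'
    have a1 := (hcU u).2 hu
    have a2 := (hcU u').2 hu'
    have a3 := (hcW w).2 hw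
    have a4 := (hcW w').2 hw'
    have b1 : B.Adj u w ↔ B.Adj u w' := hT u w w' (by omega) (by omega)
    have b2 : B.Adj w' u ↔ B.Adj w' u' := hT w' u u' (by omega) (by omega)
    rw [b1, B.adj_comm u w', b2, B.adj_comm w' u']
  -- isomorphisms of switches of `B`
  have hiso : ∀ S T : Finset (Fin p), Nonempty (sw B S ≃g sw B T) →
      ∃ s : Equiv.Perm (Fin p), IsAut B s ∧
        (T = S.map s.toEmbedding ∨ T = (S.map s.toEmbedding)ᶜ) := by
    rintro S T ⟨e⟩
    have hs : IsClassAut B e.toEquiv := classAut_of_iso B S T e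
    have hs' := (Fin6.classAut_sw G S₁ e.toEquiv).1 hs
    have hcl := hclass e.toEquiv hs'
    have hse : ∀ u v, (sw B T).Adj (e.toEquiv u) (e.toEquiv v) ↔ (sw B S).Adj u v :=
      fun u v => e.map_rel_iff'
    set s : Equiv.Perm (Fin p) := e.toEquiv with hsd
    -- the crossing pairs
    have hx : ∀ u w, u ∈ U → w ∉ U → (B.Adj (s u) (s w) ↔ B.Adj u w) := by
      intro u w hu hw
      rcases hcl with h | h
      · exact hBmod _ ((h u).2 hu) _ hu _ (fun hh => hw ((h w).1 hh)) _ hw
      · rw [B.adj_comm (s u) (s w)]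
        exact hBmod _ ((h w).2 hw) _ hu _ (fun hh => ((h u).1 hh) hu) _ hw
    have hk : ∀ u w, u ∈ U → w ∉ U → ((s u ∈ T ↔ u ∈ S) ↔ (s w ∈ T ↔ w ∈ S)) := by
      intro u w hu hw
      have h1 := hse u w
      have h2 := hx u w hu hw
      have huw : u ≠ w := fun e => hw (e ▸ hu)
      have hsuw : s u ≠ s w := fun e => huw (s.injective e)
      rw [sw_adj, sw_adj] at h1
      have h3 : (B.Adj (s u) (s w) ↔ (s u ∈ T ↔ s w ∈ T)) ↔ (B.Adj u w ↔ (u ∈ S ↔ w ∈ S)) :=
        ⟨fun h => (h1.1 ⟨hsuw, h⟩).2, fun h => (h1.2 ⟨huw, h⟩).2⟩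
      rw [h2] at h3
      exact aux1 _ _ _ _ _ h3
    have hall : ∀ x y, ((s x ∈ T ↔ x ∈ S) ↔ (s y ∈ T ↔ y ∈ S)) := by
      intro x y
      have hbase : ∀ z, ((s z ∈ T ↔ z ∈ S) ↔ (s u₀ ∈ T ↔ u₀ ∈ S)) := by
        intro z
        by_cases hz : z ∈ U
        · exact (hk z w₀ hz hw₀).trans (hk u₀ w₀ hu₀ hw₀).symm
        · exact (hk u₀ z hu₀ hz).symm
      exact (hbase x).trans (hbase y).symm
    have hcases : (∀ x, s x ∈ T ↔ x ∈ S) ∨ (∀ x, s x ∈ T ↔ x ∉ S) := by
      by_cases h0 : (s u₀ ∈ T ↔ u₀ ∈ S)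
      · left
        intro x
        exact (hall x u₀).2 h0
      · right
        intro x
        have h1 : ¬ (s x ∈ T ↔ x ∈ S) := fun h => h0 ((hall x u₀).1 h)
        tauto
    refine ⟨s, ?_, ?_⟩
    · intro u v
      by_cases huv : u = v
      · rw [huv]
        exact iff_of_false (SimpleGraph.irrefl _) (SimpleGraph.irrefl _)
      · have hsuv : s u ≠ s v := fun e => huv (s.injective e)
        have h1 := hse u v
        rw [sw_adj, sw_adj] at h1
        have h3 : (B.Adj (s u) (s v) ↔ (s u ∈ T ↔ s v ∈ T)) ↔ (B.Adj u v ↔ (u ∈ S ↔ v ∈ S)) :=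
          ⟨fun h => (h1.1 ⟨hsuv, h⟩).2, fun h => (h1.2 ⟨huv, h⟩).2⟩
        have h4 : (s u ∈ T ↔ s v ∈ T) ↔ (u ∈ S ↔ v ∈ S) := by
          rcases hcases with h | h
          · rw [h u, h v]
          · rw [h u, h v, not_iff_not]
        rw [h4] at h3
        exact aux2 _ _ _ h3
    · have hmap : ∀ x, x ∈ S.map s.toEmbedding ↔ s.symm x ∈ S := by
        intro x
        rw [Finset.mem_map_equiv]
      rcases hcases with h | h
      · left
        ext x
        have h1 := h (s.symm x)
        rw [Equiv.apply_symm_apply] at h1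
        rw [hmap x]
        exact h1
      · right
        ext x
        have h1 := h (s.symm x)
        rw [Equiv.apply_symm_apply] at h1
        rw [Finset.mem_compl, hmap x]
        exact h1
  set φ : Finset (Fin p) → ℚ := fun T => ff G H (symmDiff S₁ T) with hφ
  have hsw : ∀ T, sw G (symmDiff S₁ T) = sw B T := fun T => (sw_sw _ _ _).symm
  have hφiso : ∀ S T, Nonempty (sw B S ≃g sw B T) → φ S = φ T := by
    intro S T hST
    simp only [hφ, ff, hsw]
    rw [ind_congr_left G hST, ind_congr_left H hST]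
  have hφ1 : 0 < φ S₁ := by
    obtain ⟨T, hT'⟩ := exists_sw hdeck u₀
    have h1 : 0 < cnt G H := cnt_pos G H T hT'
    simp only [hφ]
    rw [symmDiff_self, Finset.bot_eq_empty, ff_empty hne]
    exact h1
  refine ⟨S₁, φ, ?_, hφ1.ne'⟩
  refine
    { cardU := hUc
      cardW := hUcc
      mod := hBmod
      aut := ?_
      sum := ?_
      inv := ?_
      invc := ?_
      orbit := ?_
      pos := ?_ }
  · intro s hs
    apply hclass s
    apply (Fin6.classAut_sw G S₁ s).1
    refine ⟨∅, fun u v => ?_⟩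
    rw [sw_empty]
    exact hs u v
  · intro S
    have h1 := sum_ff hdeck (symmDiff S₁ S)
    rw [← h1]
    refine Finset.sum_congr rfl fun i _ => ?_
    simp only [hφ]
    rw [symmDiff_assoc]
  · intro s hs S
    let e : B ≃g B := { toEquiv := s, map_rel_iff' := by intro u v; exact hs u v }
    exact (hφiso S (S.map s.toEmbedding) ⟨isoSw e S⟩).symm
  · intro S
    apply hφiso
    rw [Pool.Agent.Lib_helper61.SwMain.sw_compl]
    exact ⟨SimpleGraph.Iso.refl⟩
  · intro S T hST
    apply hiso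
    have h1 := Pool.Agent.Lib_helper61.SwMain.iso_of_ff_mul_pos hST
    rw [hsw, hsw] at h1
    exact h1
  · exact ⟨S₁, hφ1⟩

/-- Graphs with a module of exactly half of the vertices, `8 ∣ p`. -/
theorem half_main_b (hMOD : S_MOD) (hREP : S_REP) (hDEG : S_DEG34) (hCOMP : S_COMP)
    (hHALF : S_HALF3b) (p n : ℕ) (hpn : p = 2 * n) (hn8 : 4 ≤ n) (hn4 : 4 ∣ n)
    (G : SimpleGraph (Fin p)) (U : Finset (Fin p)) (hU : IsMod G U) (hUc : U.card = n)
    (H : SimpleGraph (Fin p)) (hdeck : SameDeck G H) : Nonempty (G ≃g H) := by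
  by_contra hne
  obtain ⟨S₁, φ, hH, -⟩ := half_exists hMOD hREP hDEG hCOMP p n hpn hn8 G U hU hUc H hdeck hne
  exact hHALF (Fin p) (sw G S₁) U n φ hH hn8 hn4

end Pool.Agent.NTW
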