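import Pool.Agent.NTW.St6

/-!
# MP_e73337_co, the centroid theorem with the sharp exponent (helper39, Dec 5)

For two size classes of parts at once: `2 ^ (number of parts) ≤ card 𝒯 ^ 2`, so that T3 and T6 hold with `(4 M)^2 < 2^r`
(for one-element parts this is Ellingham's bound).

`theorem t_UBLK (hTENU : S_TENU) (hRM : S_RM) : S_UBLK`, `theorem t_LEAD : S_LEAD`,
`theorem t_PBL2 (hUBLK : S_UBLK) (hLEAD : S_LEAD) : S_PBL2`.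
-/

set_option autoImplicit false

namespace Pool.Agent.NTW

open Finset Pool.Agent.Lib_helper61.SwitchBasic

/-- **UBLK** (from TENU, RM).  The step of PBLK without HOMV.  `U` is a union of parts with `n` elements each, `g` has degree `≤ d` on `U`.  `n ≥ 2`: TENU with `m = n - 1`, `E X X'` := `∃ τ ∈ NP G c, X' = X.map τ` (images of
a subset of a part: at most `n.choose j ≤ 2 ^ (n - 1)`); `n = 1`: RM (`τ ∈ NP G c` fixes the points of `U`). -/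
def S_UBLK : Prop :=
  ∀ (α : Type) [Fintype α] [DecidableEq α] (G : SimpleGraph α) (c : α → ℕ), TrueMod G c →
    ∀ (U : Finset α) (n d : ℕ), 1 ≤ n → (∀ x ∈ U, ∀ y, c y = c x → y ∈ U) →
    (∀ x ∈ U, (univ.filter fun y => c y = c x).card = n) →
    ∀ g : Finset α → ℚ, DegLE U d g → (∃ X ⊆ U, g X ≠ 0) →
    (∀ τ ∈ NP G c, ∀ X ⊆ U, g (X.map τ.toEmbedding) = g X) →
    ∃ 𝒯 : Finset (Finset α), (∀ X ∈ 𝒯, X ⊆ U ∧ g X ≠ 0) ∧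
      (∀ X ∈ 𝒯, ∀ X' ∈ 𝒯, (∃ τ ∈ NP G c, X' = X.map τ.toEmbedding) → X = X') ∧
      2 ^ (U.card - d) ≤ 𝒯.card ^ n

/-- **LEAD** (no hypothesis).  Put `g T Y = mob (fun S => h (S ∪ Y)) T`.  Some `g T Y ≠ 0` (`T ⊆ U₁`, `Y ⊆ U₂`): let `h (X ∪ Y) ≠ 0` with `X ⊆ U₁` minimal (for this `Y`), then `g X Y = ± h (X ∪ Y)`.  Take `T` with `card T` maximal.  For
`i ∈ U₁ \ T`: `g (insert i T) Y = g T Y - ∑_(S ⊆ T) (-1)^|S| h (insert i S ∪ Y)`, and it is 0, so the last sum is `g T Y`.  Multiply the hypothesis at `S ∪ Y` (`S ⊆ T`) by `(-1)^|S|` and add over `S ⊆ T`: the `i ∈ T` give `- card T * g T Y`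
(substitute `S ↦ S Δ {i}`), the `i ∈ U₁ \ T` give `(card U₁ - card T) * g T Y`, the `i ∈ U₂` give `∑_(i ∈ U₂) g T (Y Δ {i})`; the total is `l * g T Y`. -/
def S_LEAD : Prop :=
  ∀ (α : Type) [DecidableEq α] (U₁ U₂ : Finset α), Disjoint U₁ U₂ → ∀ (l : ℚ) (h : Finset α → ℚ),
    (∀ S ⊆ U₁ ∪ U₂, ∑ i ∈ U₁ ∪ U₂, h (symmDiff S {i}) = l * h S) → (∃ S ⊆ U₁ ∪ U₂, h S ≠ 0) →
    ∃ T ⊆ U₁, (∃ Y ⊆ U₂, mob (fun S => h (S ∪ Y)) T ≠ 0) ∧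
      (∀ T' ⊆ U₁, T.card < T'.card → ∀ Y ⊆ U₂, mob (fun S => h (S ∪ Y)) T' = 0) ∧
      (∀ Y ⊆ U₂, ∑ i ∈ U₂, mob (fun S => h (S ∪ symmDiff Y {i})) T =
        (l + 2 * T.card - U₁.card) * mob (fun S => h (S ∪ Y)) T)

/-- **PBL2** (from UBLK, LEAD).  By symmetry `n₁ ≤ n₂`.  `card U_j = k_j n_j`, `k_j = card (U_j.image c)`; the parts of `U₁`, `U₂` are different.
(A) LEAD for `U₁, U₂, l = 0, h`: `T`, `s = card T`, `g Y = mob (h (· ∪ Y)) T`, eigenvalue `2 s - card U₁` on `U₂`.  LEAD for `U₂, ∅, l = 2 s - card U₁, g`: `T₂ ⊆ U₂`, `t = card T₂`, `mob g T₂ ≠ 0`, `g` has degree `≤ t` on `U₂`, and (third part, `Y = ∅`)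
`2 t = card U₂ - l`, i.e. `2 (s + t) = card U₁ + card U₂`.  UBLK for `g` on `U₂` (invariance: `τ` on `U₂`, the identity outside, is in `NP G c`): `𝒯₂`, `2 ^ (k₂ n₂ - t) ≤ card 𝒯₂ ^ n₂`.  For `Y ∈ 𝒯₂` the function `h (· ∪ Y)` is not 0 on the subsets of `U₁`, of degree `≤ s`:
UBLK gives `𝒯_Y`, `2 ^ (k₁ n₁ - s) ≤ card 𝒯_Y ^ n₁`.  `𝒯 = {X ∪ Y}`; `card 𝒯 ≥ a b`, `a = card 𝒯₂`, `b = min card 𝒯_Y`, so `2 ^ E ≤ card 𝒯 ^ (n₁ n₂)`, `E = n₁ (k₂ n₂ - t) + n₂ (k₁ n₁ - s)`.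
(B) The same for `h' X = (-1)^|X| h X` (also with `l = 0`) and `U₂` first: `s'`, `t'`, `s' + t' = s + t`, `E' = n₂ (k₁ n₁ - t') + n₁ (k₂ n₂ - s')`.
(C) `s' ≥ k₂ n₂ - t`: `g' Y = (-1)^|Y| g Y` satisfies `∑_(i ∈ U₂) g' (Y Δ {i}) = (card U₁ - 2 s) g' Y`; LEAD for `U₂, ∅`: `T'' ⊆ U₂` with `mob g' T'' ≠ 0`, `card T'' = card U₂ - t`.  `mob g' T''` is the sum over `S ⊆ T` of
`mob (fun Y => h' (S ∪ Y)) T''` (up to a sign), so one of these is not 0, and `card T'' ≤ s'` by the maximality of `s'`.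
(D) `E + E' ≥ (k₁ + k₂) n₁ n₂`: `E' = n₁ n₂ (k₁ + k₂) - n₂ (s + t) + (n₂ - n₁) s'`, insert (C) and `2 (s + t) = k₁ n₁ + k₂ n₂`.  So the larger of the two families satisfies `2 ^ ((k₁ + k₂) n₁ n₂) ≤ card 𝒯 ^ (2 n₁ n₂)`, and `2 ^ (k₁ + k₂) ≤ card 𝒯 ^ 2`. -/
def S_PBL2 : Prop :=
  ∀ (α : Type) [Fintype α] [DecidableEq α] (G : SimpleGraph α) (c : α → ℕ), TrueMod G c →
    ∀ (U₁ U₂ : Finset α) (n₁ n₂ : ℕ), 1 ≤ n₁ → 1 ≤ n₂ → Disjoint U₁ U₂ →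
    (∀ x ∈ U₁, ∀ y, c y = c x → y ∈ U₁) → (∀ x ∈ U₂, ∀ y, c y = c x → y ∈ U₂) →
    (∀ x ∈ U₁, (univ.filter fun y => c y = c x).card = n₁) →
    (∀ x ∈ U₂, (univ.filter fun y => c y = c x).card = n₂) →
    ∀ h : Finset α → ℚ, (∀ S ⊆ U₁ ∪ U₂, ∑ i ∈ U₁ ∪ U₂, h (symmDiff S {i}) = 0) →
    (∃ S ⊆ U₁ ∪ U₂, h S ≠ 0) →
    (∀ τ ∈ NP G c, ∀ S ⊆ U₁ ∪ U₂, h (S.map τ.toEmbedding) = h S) →
    ∃ 𝒯 : Finset (Finset α), (∀ X ∈ 𝒯, X ⊆ U₁ ∪ U₂ ∧ h X ≠ 0) ∧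
      (∀ X ∈ 𝒯, ∀ X' ∈ 𝒯, (∃ τ ∈ NP G c, X' = X.map τ.toEmbedding) → X = X') ∧
      2 ^ ((U₁.image c).card + (U₂.image c).card) ≤ 𝒯.card ^ 2

end Pool.Agent.NTW
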