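import Pool.Agent.NTW.Fin6
import Pool.Agent.NTW.St7

/-!
Assembly of T3 with the sharp exponent (class-invariant partitions into modules), helper39.
-/

set_option autoImplicit false

namespace Pool.Agent.NTW

open Finset Pool.Agent.Lib_helper61.SwitchBasic

open Fin6

/-- Core of T3. -/
theorem T3score (hPROD : S_PROD) (hREP : S_REP) (hCNTQ : S_CNTQ)
    (p : ℕ) (hp4 : p ≠ 4) (G : SimpleGraph (Fin p)) (c : Fin p → ℕ)
    (hmod : ∀ i, IsMod G (Fin5.part c i)) (h2 : ∃ y z, c y ≠ c z)
    (hM : (4 * partImages G c) ^ 2 < 2 ^ (univ.image c).card)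
    (H : SimpleGraph (Fin p)) (hdeck : SameDeck G H) (hne : ¬ Nonempty (G ≃g H))
    (o k : ℕ → ℕ)
    (ho : ∀ s : Equiv.Perm (Fin p), IsClassAut G s → ∀ x, o (c (s x)) = o (c x))
    (heven : ∀ a, Even (univ.filter (fun x => o (c x) = a)).card)
    (hblk : ∀ G₁ : SimpleGraph (Fin p), TrueMod G₁ c → ∀ (a : ℕ) (h : Finset (Fin p) → ℚ),
      (∀ S ⊆ univ.filter (fun x => o (c x) = a),
        ∑ i ∈ univ.filter (fun x => o (c x) = a), h (symmDiff S {i}) = 0) →
      (∃ S ⊆ univ.filter (fun x => o (c x) = a), h S ≠ 0) →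
      (∀ τ ∈ NP G₁ c, ∀ S ⊆ univ.filter (fun x => o (c x) = a), h (S.map τ.toEmbedding) = h S) →
      ∃ 𝒯 : Finset (Finset (Fin p)),
        (∀ X ∈ 𝒯, X ⊆ univ.filter (fun x => o (c x) = a) ∧ h X ≠ 0) ∧
        (∀ X ∈ 𝒯, ∀ X' ∈ 𝒯, (∃ τ ∈ NP G₁ c, X' = X.map τ.toEmbedding) → X = X') ∧
        2 ^ k a ≤ 𝒯.card ^ 2)
    (hr : (univ.image c).card ≤ ∑ a ∈ univ.image (fun x => o (c x)), k a) : False := by
  classical
  have hcard : Fintype.card (Fin p) = p := Fintype.card_fin p
  have hn4 : Fintype.card (Fin p) ≠ 4 := by rw [hcard]; exact hp4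
  obtain ⟨S₁, hT⟩ := hREP (Fin p) G c hmod
  set G₁ := sw G S₁ with hG₁
  set φ : Finset (Fin p) → ℚ := fun T => ff G H (symmDiff S₁ T) with hφ
  have hsw : ∀ T, sw G (symmDiff S₁ T) = sw G₁ T := fun T => (sw_sw _ _ _).symm
  have hφne : ∃ X, φ X ≠ 0 := by
    refine ⟨S₁, ?_⟩
    obtain ⟨y, -⟩ := h2
    obtain ⟨T, hT⟩ := exists_sw hdeck y
    have h1 : 0 < cnt G H := cnt_pos G H T hT
    simp only [hφ]
    rw [symmDiff_self, Finset.bot_eq_empty, ff_empty hne]
    exact h1.ne'
  have hφinv : ∀ τ ∈ NP G₁ c, ∀ T, φ (T.map τ.toEmbedding) = φ T := by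
    intro τ hτ T
    simp only [hφ, ff, hsw]
    have hiso : Nonempty (sw G₁ T ≃g sw G₁ (T.map τ.toEmbedding)) := by
      let e : G₁ ≃g G₁ := { toEquiv := τ, map_rel_iff' := by intro u v; exact hτ.2 u v }
      exact ⟨isoSw e T⟩
    have e : ∀ K, ind (sw G₁ (T.map τ.toEmbedding)) K = ind (sw G₁ T) K := fun K =>
      (ind_congr_left K hiso).symm
    rw [e, e]
  have hφor : ∀ T, φ T ≠ 0 → Nonempty (sw G₁ T ≃g G) ∨ Nonempty (sw G₁ T ≃g H) := by
    intro T hT
    by_contra hc
    push Not at hc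
    apply hT
    simp only [hφ, ff, hsw]
    rw [ind_of_not _ _ (not_nonempty_iff.2 hc.1), ind_of_not _ _ (not_nonempty_iff.2 hc.2)]
    ring
  have hsum : ∀ (a : ℕ) (S : Finset (Fin p)),
      ∑ i ∈ univ.filter (fun x => o (c x) = a), φ (symmDiff S {i}) = 0 := by
    intro a S
    have hinv : IsInvariant G (univ.filter (fun x => o (c x) = a)) := by
      intro s hs v
      simp only [Finset.mem_filter, Finset.mem_univ, true_and]
      rw [ho s hs v]
    have h1 := sum_ff_inv hn4 hdeck hinv (heven a) (symmDiff S₁ S)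
    rw [← h1]
    refine Finset.sum_congr rfl fun i _ => ?_
    simp only [hφ]
    rw [symmDiff_assoc]
  obtain ⟨𝒯, hT1, hT2, hT3⟩ := hPROD (Fin p) G₁ c hT o k (hblk G₁ hT) φ hsum hφne hφinv
  have hcnt := hCNTQ (Fin p) G₁ G H c hT h2 𝒯 (fun T hT => hφor T (hT1 T hT)) hT2
  have hMe : {h : Fin p → ℕ | ∃ s : Equiv.Perm (Fin p), IsClassAut G₁ s ∧ h = fun x => c (s x)} =
      {h : Fin p → ℕ | ∃ s : Equiv.Perm (Fin p), IsClassAut G s ∧ h = fun x => c (s x)} := by
    ext h
    constructor
    · rintro ⟨s, hs, e⟩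
      exact ⟨s, (classAut_sw G S₁ s).1 hs, e⟩
    · rintro ⟨s, hs, e⟩
      exact ⟨s, (classAut_sw G S₁ s).2 hs, e⟩
  rw [hMe] at hcnt
  have hlast : 2 ^ (univ.image c).card ≤ (4 * partImages G c) ^ 2 := by
    calc 2 ^ (univ.image c).card
        ≤ 2 ^ (∑ a ∈ univ.image (fun x => o (c x)), k a) :=
          Nat.pow_le_pow_right (by norm_num) hr
      _ ≤ 𝒯.card ^ 2 := hT3
      _ ≤ (4 * partImages G c) ^ 2 := Nat.pow_le_pow_left hcnt 2
  omega

/-- T3: class-invariant partitions into modules. -/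
theorem T3s (hPBLK : S_PBLK) (hPBL2 : S_PBL2) (hPROD : S_PROD) (hREP : S_REP) (hCNTQ : S_CNTQ)
    (p : ℕ) (hp4 : p ≠ 4) (G : SimpleGraph (Fin p)) (c : Fin p → ℕ)
    (hmod : ∀ i, IsMod G (Fin5.part c i)) (h2 : ∃ y z, c y ≠ c z)
    (hinv : ∀ s : Equiv.Perm (Fin p), IsClassAut G s → ∀ x y, c x = c y → c (s x) = c (s y))
    (hM : (4 * partImages G c) ^ 2 < 2 ^ (univ.image c).card)
    (H : SimpleGraph (Fin p)) (hdeck : SameDeck G H) : Nonempty (G ≃g H) := by
  classical
  by_contra hne
  have hcard : Fintype.card (Fin p) = p := Fintype.card_fin p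
  have h4 := Pool.Agent.Lib_helper61.SwMain.four_dvd hdeck hne
  rw [hcard] at h4
  -- sizes of the parts
  set sz : ℕ → ℕ := fun i => (Fin5.part c i).card with hsz
  have hszs : ∀ s : Equiv.Perm (Fin p), IsClassAut G s → ∀ x, sz (c (s x)) = sz (c x) := by
    have key : ∀ s : Equiv.Perm (Fin p), IsClassAut G s → ∀ x, sz (c x) ≤ sz (c (s x)) := by
      intro s hs x
      simp only [hsz]
      rw [← Finset.card_map s.toEmbedding]
      apply Finset.card_le_card
      intro y hy
      obtain ⟨z, hz, rfl⟩ := Finset.mem_map.1 hy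
      rw [Fin5.mem_part] at hz ⊢
      exact hinv s hs z x hz
    intro s hs x
    refine le_antisymm ?_ (key s hs x)
    have h1 := key s⁻¹ (classAut_inv G s hs) (s x)
    have h3 : s⁻¹ (s x) = x := s.symm_apply_apply x
    rwa [h3] at h1
  set V : ℕ → Finset (Fin p) := fun a => univ.filter (fun x => sz (c x) = a) with hV
  have hmemV : ∀ a x, x ∈ V a ↔ sz (c x) = a := fun a x => by simp [hV]
  have hVinv : ∀ a, IsInvariant G (V a) := by
    intro a s hs v
    rw [hmemV, hmemV, hszs s hs v]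
  have hVdisj : ∀ a b, a ≠ b → Disjoint (V a) (V b) := by
    intro a b hab
    rw [Finset.disjoint_left]
    intro x hx hx'
    rw [hmemV] at hx hx'
    exact hab (hx.symm.trans hx')
  have hVp : ∀ a, ∀ x ∈ V a, ∀ y, c y = c x → y ∈ V a := by
    intro a x hx y hy
    rw [hmemV] at hx ⊢
    rw [hy]
    exact hx
  have hfil : ∀ x, (univ.filter fun y => c y = c x).card = sz (c x) := by
    intro x
    simp only [hsz, Fin5.part]
  have hpos : ∀ x, 1 ≤ sz (c x) := by
    intro x
    simp only [hsz]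
    exact Finset.card_pos.2 ⟨x, (Fin5.mem_part c _ _).2 rfl⟩
  have hVn : ∀ a, ∀ x ∈ V a, (univ.filter fun y => c y = c x).card = max 1 a := by
    intro a x hx
    rw [hfil x, (hmemV a x).1 hx]
    have := hpos x
    rw [(hmemV a x).1 hx] at this
    exact (max_eq_right this).symm
  set I : Finset ℕ := univ.image (fun x => sz (c x)) with hI
  have hrle : (univ.image c).card ≤ ∑ a ∈ I, ((V a).image c).card := by
    have h1 : univ.image c ⊆ I.biUnion fun a => (V a).image c := by
      intro i hi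
      obtain ⟨x, -, rfl⟩ := Finset.mem_image.1 hi
      rw [Finset.mem_biUnion]
      exact ⟨sz (c x), Finset.mem_image_of_mem _ (Finset.mem_univ x),
        Finset.mem_image_of_mem c ((hmemV _ _).2 rfl)⟩
    exact (Finset.card_le_card h1).trans Finset.card_biUnion_le
  have hpsum : p = ∑ a ∈ I, (V a).card := by
    have h1 := Finset.card_eq_sum_card_image (fun x => sz (c x)) (univ : Finset (Fin p))
    rw [Finset.card_univ, hcard] at h1
    exact h1
  have hempty : ∀ a, a ∉ I → V a = ∅ := by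
    intro a ha
    rw [Finset.eq_empty_iff_forall_notMem]
    intro x hx
    apply ha
    rw [hmemV] at hx
    rw [← hx]
    exact Finset.mem_image_of_mem _ (Finset.mem_univ x)
  set O : Finset ℕ := I.filter fun a => Odd (V a).card with hO
  have hOeven : Even O.card := by
    have h1 : Even (∑ a ∈ I, (V a).card) := by
      rw [← hpsum]
      exact even_iff_two_dvd.2 (dvd_trans (by norm_num) h4.1)
    rw [Finset.even_sum_iff_even_card_odd] at h1
    exact h1
  have hnotO : ∀ a, a ∉ O → Even (V a).card := by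
    intro a ha
    by_cases h1 : a ∈ I
    · rw [← Nat.not_odd_iff_even]
      intro h3
      exact ha (Finset.mem_filter.2 ⟨h1, h3⟩)
    · rw [hempty a h1]
      simp
  have hO3 : O.card < 3 := by
    by_contra hc
    push Not at hc
    obtain ⟨a, ha, b, hb, d, hd, hab, had, hbd⟩ := Finset.two_lt_card.1 (show 2 < O.card by omega)
    exact hne (OddOrb.odd_three p hp4 G (V a) (V b) (V d)
      (hVinv a) (hVinv b) (hVinv d) (hVdisj _ _ hab) (hVdisj _ _ had) (hVdisj _ _ hbd)
      (Finset.mem_filter.1 ha).2 (Finset.mem_filter.1 hb).2 (Finset.mem_filter.1 hd).2 H hdeck)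
  have hone : ∀ G₁ : SimpleGraph (Fin p), TrueMod G₁ c → ∀ (a : ℕ) (h : Finset (Fin p) → ℚ),
      (∀ S ⊆ V a, ∑ i ∈ V a, h (symmDiff S {i}) = 0) → (∃ S ⊆ V a, h S ≠ 0) →
      (∀ τ ∈ NP G₁ c, ∀ S ⊆ V a, h (S.map τ.toEmbedding) = h S) →
      ∃ 𝒯 : Finset (Finset (Fin p)), (∀ X ∈ 𝒯, X ⊆ V a ∧ h X ≠ 0) ∧
        (∀ X ∈ 𝒯, ∀ X' ∈ 𝒯, (∃ τ ∈ NP G₁ c, X' = X.map τ.toEmbedding) → X = X') ∧
        2 ^ ((V a).image c).card ≤ 𝒯.card ^ 2 := by
    intro G₁ hT a h hs hn hi
    exact hPBLK (Fin p) G₁ c hT (V a) (V a) (max 1 a) (le_max_left _ _) le_rfl (hVp a) (hVp a)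
      (hVn a) h hs hn hi
  have hemp : ∀ (h : Finset (Fin p) → ℚ) (N : Subgroup (Equiv.Perm (Fin p))),
      (∃ S ⊆ (∅ : Finset (Fin p)), h S ≠ 0) →
      ∃ 𝒯 : Finset (Finset (Fin p)), (∀ X ∈ 𝒯, X ⊆ ∅ ∧ h X ≠ 0) ∧
        (∀ X ∈ 𝒯, ∀ X' ∈ 𝒯, (∃ τ ∈ N, X' = X.map τ.toEmbedding) → X = X') ∧
        2 ^ 0 ≤ 𝒯.card ^ 2 := by
    rintro h N ⟨S, hS, hS'⟩
    refine ⟨{S}, ?_, ?_, ?_⟩
    · intro X hX
      rw [Finset.mem_singleton] at hX
      rw [hX]
      exact ⟨hS, hS'⟩
    · intro X hX X' hX' _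
      rw [Finset.mem_singleton] at hX hX'
      rw [hX, hX']
    · simp
  rcases Nat.eq_zero_or_pos O.card with hO0 | hOpos
  · -- no odd class
    have hOe : O = ∅ := Finset.card_eq_zero.1 hO0
    refine T3score hPROD hREP hCNTQ p hp4 G c hmod h2 hM H hdeck hne sz
      (fun a => ((V a).image c).card) hszs
      (fun a => hnotO a (by rw [hOe]; simp)) hone ?_
    exact hrle
  · -- two odd classes
    have hO2 : O.card = 2 := by
      obtain ⟨t, ht⟩ := hOeven
      omega
    obtain ⟨a₀, b₀, hab₀, hOab₀⟩ := Finset.card_eq_two.1 hO2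
    obtain ⟨a, b, hab, hOab, hkab⟩ : ∃ a b, a ≠ b ∧ O = {a, b} ∧
        ((V b).image c).card ≤ ((V a).image c).card := by
      rcases le_total ((V b₀).image c).card ((V a₀).image c).card with h1 | h1
      · exact ⟨a₀, b₀, hab₀, hOab₀, h1⟩
      · exact ⟨b₀, a₀, hab₀.symm, by rw [hOab₀, Finset.pair_comm], h1⟩
    have haO : a ∈ O := by rw [hOab]; simp
    have hbO : b ∈ O := by rw [hOab]; simp
    set o : ℕ → ℕ := fun i => if sz i = b then a else sz i with ho
    have hoeq : ∀ x, o (c x) = if sz (c x) = b then a else sz (c x) := fun x => rfl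
    have hVa : univ.filter (fun x => o (c x) = a) = V a ∪ V b := by
      ext x
      simp only [Finset.mem_filter, Finset.mem_univ, true_and, Finset.mem_union, hmemV, hoeq]
      split_ifs with h1
      · simp [h1]
      · tauto
    have hVb : univ.filter (fun x => o (c x) = b) = ∅ := by
      ext x
      simp only [Finset.mem_filter, Finset.mem_univ, true_and, hoeq]
      split_ifs with h1
      · simp [hab]
      · simp [h1]
    have hVo : ∀ d, d ≠ a → d ≠ b → univ.filter (fun x => o (c x) = d) = V d := by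
      intro d hda hdb
      ext x
      simp only [Finset.mem_filter, Finset.mem_univ, true_and, hmemV, hoeq]
      split_ifs with h1
      · rw [h1]
        constructor
        · intro h3; exact absurd h3.symm hda
        · intro h3; exact absurd h3.symm hdb
      · exact Iff.rfl
    refine T3score hPROD hREP hCNTQ p hp4 G c hmod h2 hM H hdeck hne o
      (fun d => if d = a then ((V a).image c).card + ((V b).image c).card else
        if d = b then 0 else ((V d).image c).card) ?_ ?_ ?_ ?_
    · intro s hs x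
      rw [hoeq, hoeq, hszs s hs x]
    · intro d
      by_cases hda : d = a
      · rw [hda, hVa, Finset.card_union_of_disjoint (hVdisj a b hab)]
        exact (Finset.mem_filter.1 haO).2.add_odd (Finset.mem_filter.1 hbO).2
      · by_cases hdb : d = b
        · rw [hdb, hVb]; simp
        · rw [hVo d hda hdb]
          exact hnotO d (by rw [hOab]; simp [hda, hdb])
    · intro G₁ hT d h hs hn hi
      by_cases hda : d = a
      · subst hda
        rw [hVa] at hs hn hi ⊢
        rw [if_pos rfl]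
        exact hPBL2 (Fin p) G₁ c hT (V d) (V b) (max 1 d) (max 1 b) (le_max_left _ _)
          (le_max_left _ _) (hVdisj d b hab) (hVp d) (hVp b) (hVn d) (hVn b) h hs hn hi
      · rw [if_neg hda]
        by_cases hdb : d = b
        · subst hdb
          rw [hVb] at hs hn hi ⊢
          rw [if_pos rfl]
          exact hemp h (NP G₁ c) hn
        · rw [if_neg hdb]
          rw [hVo d hda hdb] at hs hn hi ⊢
          exact hone G₁ hT d h hs hn hi
    · have hIo : univ.image (fun x => o (c x)) = I.erase b := by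
        ext d
        rw [Finset.mem_erase, Finset.mem_image, hI, Finset.mem_image]
        constructor
        · rintro ⟨x, -, hx⟩
          rw [hoeq] at hx
          split_ifs at hx with h1
          · rw [← hx]
            refine ⟨hab, ?_⟩
            have := (Finset.mem_filter.1 haO).1
            rw [hI, Finset.mem_image] at this
            exact this
          · exact ⟨fun e => h1 (hx.trans e), x, Finset.mem_univ x, hx⟩
        · rintro ⟨hdb, x, -, hx⟩
          refine ⟨x, Finset.mem_univ x, ?_⟩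
          rw [hoeq, if_neg (fun e => hdb (hx.symm.trans e)), hx]
      rw [hIo]
      have hbI : b ∈ I := (Finset.mem_filter.1 hbO).1
      have haI : a ∈ I.erase b := Finset.mem_erase.2 ⟨hab, (Finset.mem_filter.1 haO).1⟩
      have e2 := Finset.add_sum_erase I (fun d => ((V d).image c).card) hbI
      have e3 := Finset.add_sum_erase (I.erase b) (fun d => ((V d).image c).card) haI
      have e4 := Finset.add_sum_erase (I.erase b)
        (fun d => if d = a then ((V a).image c).card + ((V b).image c).card else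
          if d = b then 0 else ((V d).image c).card) haI
      have e5 : ∑ d ∈ (I.erase b).erase a, (if d = a then ((V a).image c).card +
          ((V b).image c).card else if d = b then 0 else ((V d).image c).card) =
          ∑ d ∈ (I.erase b).erase a, ((V d).image c).card := by
        refine Finset.sum_congr rfl fun d hd => ?_
        rw [Finset.mem_erase, Finset.mem_erase] at hd
        rw [if_neg hd.1, if_neg hd.2.1]
      rw [e5, if_pos rfl] at e4
      rw [← e4]
      omega

end Pool.Agent.NTW
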