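import Pool.Agent.NTW.St6

set_option autoImplicit false

namespace Pool.Agent.NTW

open Finset Pool.Agent.Lib_helper61.SwitchBasic

theorem cntq_kernel {α : Type} [DecidableEq α] (G : SimpleGraph α) (c : α → ℕ)
    (hc : TrueMod G c) (h2 : ∃ y z, c y ≠ c z) (T T' : Finset α) (τ : Equiv.Perm α)
    (hτc : ∀ x, c (τ x) = c x)
    (hτ : ∀ u v, (sw G T').Adj (τ u) (τ v) ↔ (sw G T).Adj u v) :
    τ ∈ NP G c ∧ ((∀ u, τ u ∈ T' ↔ u ∈ T) ∨ (∀ u, τ u ∈ T' ↔ u ∉ T)) := by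
  have hadj : ∀ u v, c u ≠ c v → (G.Adj (τ u) (τ v) ↔ G.Adj u v) := by
    intro u v huv
    have h1 : G.Adj u v ↔ G.Adj u (τ v) := hc u v (τ v) (hτc v).symm huv
    have h3 : G.Adj (τ v) u ↔ G.Adj (τ v) (τ u) :=
      hc (τ v) u (τ u) (hτc u).symm (by rw [hτc]; exact huv.symm)
    rw [G.adj_comm (τ u) (τ v), ← h3, G.adj_comm (τ v) u, ← h1]
  have hsw : ∀ u v, u ≠ v → ((G.Adj (τ u) (τ v) ↔ (τ u ∈ T' ↔ τ v ∈ T')) ↔
      (G.Adj u v ↔ (u ∈ T ↔ v ∈ T))) := by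
    intro u v huv
    have h3 := hτ u v
    rw [sw_adj, sw_adj] at h3
    have h4 : τ u ≠ τ v := fun h => huv (τ.injective h)
    simp only [ne_eq, huv, not_false_eq_true, true_and, h4] at h3
    exact h3
  have he : ∀ u v, c u ≠ c v → ((τ u ∈ T' ↔ u ∈ T) ↔ (τ v ∈ T' ↔ v ∈ T)) := by
    intro u v huv
    have h3 := hsw u v (fun h => huv (by rw [h]))
    have h4 := hadj u v huv
    tauto
  have he2 : ∀ u v, ((τ u ∈ T' ↔ u ∈ T) ↔ (τ v ∈ T' ↔ v ∈ T)) := by
    intro u v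
    by_cases huv : c u = c v
    · obtain ⟨y, z, hyz⟩ := h2
      obtain ⟨w, hw⟩ : ∃ w, c u ≠ c w := by
        by_cases h : c u = c y
        · exact ⟨z, fun h' => hyz (h.symm.trans h')⟩
        · exact ⟨y, h⟩
      exact (he u w hw).trans (he w v (fun h => hw (huv.trans h.symm)))
    · exact he u v huv
  have hall : ∀ u v, G.Adj (τ u) (τ v) ↔ G.Adj u v := by
    intro u v
    by_cases huv : u = v
    · subst huv
      exact ⟨fun h => absurd rfl h.ne, fun h => absurd rfl h.ne⟩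
    · have h3 := hsw u v huv
      have h4 := he2 u v
      tauto
  refine ⟨⟨hτc, hall⟩, ?_⟩
  obtain ⟨y, _, _⟩ := h2
  by_cases hy : (τ y ∈ T' ↔ y ∈ T)
  · left
    intro u
    exact (he2 y u).mp hy
  · right
    intro u
    have h3 := he2 y u
    tauto

theorem cntq_map {α : Type} (T T' : Finset α) (τ : Equiv.Perm α)
    (h : ∀ u, τ u ∈ T' ↔ u ∈ T) : T' = T.map τ.toEmbedding := by
  ext w
  rw [Finset.mem_map]
  constructor
  · intro hw
    refine ⟨τ.symm w, ?_, ?_⟩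
    · rw [← h, Equiv.apply_symm_apply]; exact hw
    · exact τ.apply_symm_apply w
  · rintro ⟨v, hv, rfl⟩
    exact (h v).2 hv

theorem cntq_half {α : Type} [Fintype α] [DecidableEq α] (G K : SimpleGraph α) (c : α → ℕ)
    (hc : TrueMod G c) (h2 : ∃ y z, c y ≠ c z) (𝒯 : Finset (Finset α))
    (hT : ∀ T ∈ 𝒯, Nonempty (sw G T ≃g K))
    (hsep : ∀ T ∈ 𝒯, ∀ T' ∈ 𝒯, (∃ τ ∈ NP G c, T' = T.map τ.toEmbedding) → T = T') :
    𝒯.card ≤ 2 * {h : α → ℕ | ∃ s : Equiv.Perm α, IsClassAut G s ∧ h = fun x => c (s x)}.ncard := by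
  classical
  rcases 𝒯.eq_empty_or_nonempty with h0 | ⟨T₀, hT₀⟩
  · rw [h0, Finset.card_empty]; exact Nat.zero_le _
  have hch : ∀ T ∈ 𝒯, ∃ π : Equiv.Perm α, ∀ u v : α,
      (sw G T).Adj (π u) (π v) ↔ (sw G T₀).Adj u v := by
    intro T hT'
    obtain ⟨e⟩ := hT T hT'
    obtain ⟨e0⟩ := hT T₀ hT₀
    refine ⟨(e0.trans e.symm).toEquiv, fun u v => ?_⟩
    exact (e0.trans e.symm).map_rel_iff
  choose! π hπ using hch
  have hfin : {h : α → ℕ | ∃ s : Equiv.Perm α, IsClassAut G s ∧ h = fun x => c (s x)}.Finite := by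
    refine (Set.finite_range (fun s : Equiv.Perm α => fun x => c (s x))).subset ?_
    rintro h ⟨s, _, rfl⟩
    exact ⟨s, rfl⟩
  have hca : ∀ T ∈ 𝒯, IsClassAut G (π T) := by
    intro T hT'
    refine ⟨symmDiff T (T₀.map (π T).toEmbedding), fun u v => ?_⟩
    have h3 := hπ T hT' u v
    have h4 : ∀ w, π T w ∈ T₀.map (π T).toEmbedding ↔ w ∈ T₀ := fun w => by
      rw [Finset.mem_map]
      constructor
      · rintro ⟨v, hv, hvw⟩
        rw [← (π T).injective hvw]; exact hv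
      · intro hw
        exact ⟨w, hw, rfl⟩
    rw [sw_adj] at h3 ⊢
    rw [sw_adj] at h3
    rw [Finset.mem_symmDiff, Finset.mem_symmDiff, h4, h4]
    by_cases huv : u = v
    · subst huv
      constructor
      · intro h; exact absurd rfl h.1
      · intro h; exact absurd rfl h.ne
    · have h5 : π T u ≠ π T v := fun h => huv ((π T).injective h)
      simp only [ne_eq, huv, not_false_eq_true, true_and, h5] at h3 ⊢
      tauto
  have hker : ∀ T ∈ 𝒯, ∀ T' ∈ 𝒯, (fun x => c (π T x)) = (fun x => c (π T' x)) →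
      T ≠ T' → ∃ τ ∈ NP G c, ∀ u, τ u ∈ T' ↔ u ∉ T := by
    intro T hT1 T' hT2 hE hne
    obtain ⟨hN, h3⟩ := cntq_kernel G c hc h2 T T' ((π T).symm.trans (π T')) (by
      intro x
      have h4 := congrFun hE ((π T).symm x)
      simp only [Equiv.apply_symm_apply] at h4
      rw [Equiv.trans_apply]
      exact h4.symm) (by
      intro u v
      rw [Equiv.trans_apply, Equiv.trans_apply, hπ T' hT2, ← hπ T hT1, Equiv.apply_symm_apply,
        Equiv.apply_symm_apply])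
    rcases h3 with h3 | h3
    · exact absurd (hsep T hT1 T' hT2 ⟨_, hN, cntq_map T T' _ h3⟩) hne
    · exact ⟨_, hN, h3⟩
  have hfib : ∀ b ∈ 𝒯.image (fun T => fun x => c (π T x)),
      (𝒯.filter (fun T => (fun x => c (π T x)) = b)).card ≤ 2 := by
    intro b _
    by_contra hcon
    rw [not_le, Finset.two_lt_card] at hcon
    obtain ⟨T1, h1, T2, h2', T3, h3, h12, h13, h23⟩ := hcon
    rw [Finset.mem_filter] at h1 h2' h3
    obtain ⟨τ, hτN, hτ⟩ := hker T1 h1.1 T2 h2'.1 (h1.2.trans h2'.2.symm) h12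
    obtain ⟨τ', hτN', hτ'⟩ := hker T1 h1.1 T3 h3.1 (h1.2.trans h3.2.symm) h13
    apply h23
    refine hsep T2 h2'.1 T3 h3.1 ⟨τ' * τ⁻¹, (NP G c).mul_mem hτN' ((NP G c).inv_mem hτN), ?_⟩
    refine cntq_map T2 T3 _ (fun u => ?_)
    rw [Equiv.Perm.mul_apply, hτ', ← hτ]
    have : τ (τ⁻¹ u) = u := τ.apply_symm_apply u
    rw [this]
  have hcard := Finset.card_le_mul_card_image 𝒯 2 hfib
  refine hcard.trans (Nat.mul_le_mul_left 2 ?_)
  rw [← Set.ncard_coe_finset]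
  refine Set.ncard_le_ncard ?_ hfin
  intro h hh
  rw [Finset.mem_coe, Finset.mem_image] at hh
  obtain ⟨T, hT', rfl⟩ := hh
  exact ⟨π T, hca T hT', rfl⟩

theorem t_CNTQ : S_CNTQ := by
  intro α _ _ G K H c hc h2 𝒯 hT hsep
  classical
  have h1 := cntq_half G K c hc h2 (𝒯.filter (fun T => Nonempty (sw G T ≃g K)))
    (fun T hT' => (Finset.mem_filter.mp hT').2)
    (fun T hT1 T' hT2 h => hsep T (Finset.mem_filter.mp hT1).1 T' (Finset.mem_filter.mp hT2).1 h)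
  have h3 := cntq_half G H c hc h2 (𝒯.filter (fun T => Nonempty (sw G T ≃g H)))
    (fun T hT' => (Finset.mem_filter.mp hT').2)
    (fun T hT1 T' hT2 h => hsep T (Finset.mem_filter.mp hT1).1 T' (Finset.mem_filter.mp hT2).1 h)
  have h4 : 𝒯 ⊆ 𝒯.filter (fun T => Nonempty (sw G T ≃g K)) ∪
      𝒯.filter (fun T => Nonempty (sw G T ≃g H)) := by
    intro T hT'
    rw [Finset.mem_union, Finset.mem_filter, Finset.mem_filter]
    rcases hT T hT' with h | h
    · exact Or.inl ⟨hT', h⟩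
    · exact Or.inr ⟨hT', h⟩
  have h5 := (Finset.card_le_card h4).trans (Finset.card_union_le _ _)
  omega

end Pool.Agent.NTW
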