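import Mathlib
import Pool.Agent.NTW.St6

/-!
# MP_e73337_co, module DEG34: three or four labels
-/

set_option autoImplicit false

namespace Pool.Agent.NTW

open Finset Pool.Agent.Lib_helper61.SwitchBasic

/-- Separation after a switching. -/
theorem deg34_sep {α : Type} (G : SimpleGraph α) (S : Finset α) (x z w : α) (hz : x ≠ z)
    (hw : x ≠ w) : ((sw G S).Adj x z ↔ (sw G S).Adj x w) ↔
      ((G.Adj x z ↔ G.Adj x w) ↔ (z ∈ S ↔ w ∈ S)) := by
  rw [sw_adj, sw_adj]
  by_cases h1 : G.Adj x z <;> by_cases h2 : G.Adj x w <;> by_cases h3 : x ∈ S <;>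
    by_cases h4 : z ∈ S <;> by_cases h5 : w ∈ S <;> simp [*]

/-- A module up to switching: two outside vertices separate in the same way, after a switching. -/
theorem deg34_mod {α : Type} (G : SimpleGraph α) (S C : Finset α) (hC : IsMod G C)
    (z w x y : α) (hz : z ∈ C) (hw : w ∈ C) (hx : x ∉ C) (hy : y ∉ C) :
    ((sw G S).Adj x z ↔ (sw G S).Adj x w) ↔ ((sw G S).Adj y z ↔ (sw G S).Adj y w) := by
  have n1 : x ≠ z := fun h => hx (h ▸ hz)
  have n2 : x ≠ w := fun h => hx (h ▸ hw)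
  have n3 : y ≠ z := fun h => hy (h ▸ hz)
  have n4 : y ≠ w := fun h => hy (h ▸ hw)
  rw [deg34_sep G S x z w n1 n2, deg34_sep G S y z w n3 n4]
  rcases hC z hz w hw with h | h
  · rw [iff_true_intro (h x hx), iff_true_intro (h y hy)]
  · rw [iff_false_intro (h x hx), iff_false_intro (h y hy)]

/-- Adjacency between parts depends only on the labels. -/
theorem deg34_adj {α : Type} (G : SimpleGraph α) (c : α → ℕ) (h : TrueMod G c) (x x' y y' : α)
    (hx : c x = c x') (hy : c y = c y') (hn : c x ≠ c y) : G.Adj x y ↔ G.Adj x' y' := by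
  rw [h x y y' hy hn, G.adj_comm x y', h y' x x' hx (by rw [← hy]; exact hn.symm),
    G.adj_comm y' x']

/-- The normalisation. -/
theorem deg34_norm {α : Type} [Fintype α] [DecidableEq α] (G : SimpleGraph α) (c : α → ℕ)
    (h : TrueMod G c) (d : α) (t : Prop)
    (ht : ∀ x y, c x ≠ c y → c x ≠ c d → c y ≠ c d →
      ((G.Adj x y ↔ (G.Adj x d ↔ G.Adj y d)) ↔ t)) :
    ∃ S : Finset α, ∀ x y, c x ≠ c y → ((sw G S).Adj x y ↔ t) := by
  classical
  refine ⟨univ.filter fun x => c x ≠ c d ∧ (G.Adj x d ↔ ¬ t), fun x y hxy => ?_⟩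
  have hne : x ≠ y := fun h => hxy (by rw [h])
  rw [sw_adj]
  simp only [Finset.mem_filter, Finset.mem_univ, true_and]
  by_cases h1 : c y = c d
  · have h2 : c x ≠ c d := by rw [← h1]; exact hxy
    have h3 : G.Adj x y ↔ G.Adj x d := h x y d h1 hxy
    rw [h3]
    by_cases h4 : G.Adj x d <;> by_cases h5 : t <;> simp [*]
  · by_cases h2 : c x = c d
    · have h3 : G.Adj x y ↔ G.Adj y d := by
        rw [G.adj_comm]
        exact h y x d h2 hxy.symm
      rw [h3]
      by_cases h4 : G.Adj y d <;> by_cases h5 : t <;> simp [*]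
    · have h3 := ht x y hxy h2 h1
      by_cases h4 : G.Adj x d <;> by_cases h5 : G.Adj y d <;> by_cases h6 : G.Adj x y <;>
        by_cases h7 : t <;> simp_all

/-- DEG34: with three labels, or four labels and two more modules, some switching has no edges
between different parts, or all edges. -/
theorem t_DEG34 (h : S_REP) : S_DEG34 := by
  intro α _ _ G c hmod hcase
  obtain ⟨S₀, hT⟩ := h α G c hmod
  -- it is enough to find `d` and `t`
  suffices hs : ∃ (d : α) (t : Prop), ∀ x y, c x ≠ c y → c x ≠ c d → c y ≠ c d →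
      (((sw G S₀).Adj x y ↔ ((sw G S₀).Adj x d ↔ (sw G S₀).Adj y d)) ↔ t) by
    obtain ⟨d, t, ht⟩ := hs
    obtain ⟨S₁, hS₁⟩ := deg34_norm (sw G S₀) c hT d t ht
    refine ⟨symmDiff S₀ S₁, ?_⟩
    rw [← sw_sw]
    by_cases h5 : t
    · exact Or.inr fun x y hxy => (hS₁ x y hxy).2 h5
    · exact Or.inl fun x y hxy hadj => h5 ((hS₁ x y hxy).1 hadj)
  have hval : ∀ i ∈ univ.image c, ∃ x, c x = i := by
    intro i hi
    obtain ⟨x, _, hx⟩ := Finset.mem_image.1 hi
    exact ⟨x, hx⟩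
  have hmem : ∀ x, c x ∈ univ.image c := fun x => Finset.mem_image_of_mem c (Finset.mem_univ x)
  have hlab := deg34_adj (sw G S₀) c hT
  rcases hcase with ⟨himg, hm01, hm12⟩ | hcard
  · obtain ⟨v0, e0⟩ := hval 0 (by rw [himg]; simp)
    obtain ⟨v1, e1⟩ := hval 1 (by rw [himg]; simp)
    obtain ⟨v2, e2⟩ := hval 2 (by rw [himg]; simp)
    obtain ⟨v3, e3⟩ := hval 3 (by rw [himg]; simp)
    have H1 := deg34_mod G S₀ _ hm01 v0 v1 v2 v3
      (by rw [Finset.mem_union, Fin5.mem_part, Fin5.mem_part]; exact Or.inl e0)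
      (by rw [Finset.mem_union, Fin5.mem_part, Fin5.mem_part]; exact Or.inr e1)
      (by rw [Finset.mem_union, Fin5.mem_part, Fin5.mem_part]; omega)
      (by rw [Finset.mem_union, Fin5.mem_part, Fin5.mem_part]; omega)
    have H2 := deg34_mod G S₀ _ hm12 v1 v2 v0 v3
      (by rw [Finset.mem_union, Fin5.mem_part, Fin5.mem_part]; exact Or.inl e1)
      (by rw [Finset.mem_union, Fin5.mem_part, Fin5.mem_part]; exact Or.inr e2)
      (by rw [Finset.mem_union, Fin5.mem_part, Fin5.mem_part]; omega)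
      (by rw [Finset.mem_union, Fin5.mem_part, Fin5.mem_part]; omega)
    rw [(sw G S₀).adj_comm v2 v0, (sw G S₀).adj_comm v2 v1, (sw G S₀).adj_comm v3 v0,
      (sw G S₀).adj_comm v3 v1] at H1
    rw [(sw G S₀).adj_comm v3 v1, (sw G S₀).adj_comm v3 v2] at H2
    refine ⟨v3, ((sw G S₀).Adj v0 v1 ↔ ((sw G S₀).Adj v0 v3 ↔ (sw G S₀).Adj v1 v3)), ?_⟩
    -- the three pairs
    have T01 : ((sw G S₀).Adj v0 v1 ↔ ((sw G S₀).Adj v0 v3 ↔ (sw G S₀).Adj v1 v3)) ↔
      ((sw G S₀).Adj v0 v1 ↔ ((sw G S₀).Adj v0 v3 ↔ (sw G S₀).Adj v1 v3)) := Iff.rfl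
    have T02 : ((sw G S₀).Adj v0 v2 ↔ ((sw G S₀).Adj v0 v3 ↔ (sw G S₀).Adj v2 v3)) ↔
        ((sw G S₀).Adj v0 v1 ↔ ((sw G S₀).Adj v0 v3 ↔ (sw G S₀).Adj v1 v3)) := by
      clear T01 H1 hlab hmem hval hT
      by_cases a1 : (sw G S₀).Adj v0 v1 <;> by_cases a2 : (sw G S₀).Adj v0 v2 <;>
        by_cases a3 : (sw G S₀).Adj v0 v3 <;> by_cases a4 : (sw G S₀).Adj v1 v3 <;>
        by_cases a5 : (sw G S₀).Adj v2 v3 <;> simp_all
    have T12 : ((sw G S₀).Adj v1 v2 ↔ ((sw G S₀).Adj v1 v3 ↔ (sw G S₀).Adj v2 v3)) ↔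
        ((sw G S₀).Adj v0 v1 ↔ ((sw G S₀).Adj v0 v3 ↔ (sw G S₀).Adj v1 v3)) := by
      clear T01 T02 hlab hmem hval hT
      by_cases a1 : (sw G S₀).Adj v0 v1 <;> by_cases a2 : (sw G S₀).Adj v0 v2 <;>
        by_cases a3 : (sw G S₀).Adj v0 v3 <;> by_cases a4 : (sw G S₀).Adj v1 v3 <;>
        by_cases a5 : (sw G S₀).Adj v2 v3 <;> by_cases a6 : (sw G S₀).Adj v1 v2 <;> simp_all
    -- transfer
    have key : ∀ a b : α, c a ≠ c b → c a ≠ c v3 → c b ≠ c v3 →
        (((sw G S₀).Adj a b ↔ ((sw G S₀).Adj a v3 ↔ (sw G S₀).Adj b v3)) ↔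
          ((sw G S₀).Adj v0 v1 ↔ ((sw G S₀).Adj v0 v3 ↔ (sw G S₀).Adj v1 v3))) →
        ∀ x y : α, c x = c a → c y = c b →
        (((sw G S₀).Adj x y ↔ ((sw G S₀).Adj x v3 ↔ (sw G S₀).Adj y v3)) ↔
          ((sw G S₀).Adj v0 v1 ↔ ((sw G S₀).Adj v0 v3 ↔ (sw G S₀).Adj v1 v3))) := by
      intro a b hab ha hb hT' x y hx hy
      rw [hlab x a y b hx hy (by rw [hx, hy]; exact hab),
        hlab x a v3 v3 hx rfl (by rw [hx]; exact ha), hlab y b v3 v3 hy rfl (by rw [hy]; exact hb)]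
      exact hT'
    have key2 : ∀ a b : α, c a ≠ c b → c a ≠ c v3 → c b ≠ c v3 →
        (((sw G S₀).Adj a b ↔ ((sw G S₀).Adj a v3 ↔ (sw G S₀).Adj b v3)) ↔
          ((sw G S₀).Adj v0 v1 ↔ ((sw G S₀).Adj v0 v3 ↔ (sw G S₀).Adj v1 v3))) →
        ∀ x y : α, c x = c b → c y = c a →
        (((sw G S₀).Adj x y ↔ ((sw G S₀).Adj x v3 ↔ (sw G S₀).Adj y v3)) ↔
          ((sw G S₀).Adj v0 v1 ↔ ((sw G S₀).Adj v0 v3 ↔ (sw G S₀).Adj v1 v3))) := by
      intro a b hab ha hb hT' x y hx hy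
      rw [(sw G S₀).adj_comm x y, @Iff.comm ((sw G S₀).Adj x v3) ((sw G S₀).Adj y v3)]
      exact key a b hab ha hb hT' y x hy hx
    intro x y hxy hx hy
    have hx4 : c x ∈ ({0, 1, 2, 3} : Finset ℕ) := himg ▸ hmem x
    have hy4 : c y ∈ ({0, 1, 2, 3} : Finset ℕ) := himg ▸ hmem y
    simp only [Finset.mem_insert, Finset.mem_singleton] at hx4 hy4
    rw [e3] at hx hy
    have n01 : c v0 ≠ c v1 := by omega
    have n02 : c v0 ≠ c v2 := by omega
    have n12 : c v1 ≠ c v2 := by omega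
    have n03 : c v0 ≠ c v3 := by omega
    have n13 : c v1 ≠ c v3 := by omega
    have n23 : c v2 ≠ c v3 := by omega
    rcases hx4 with hx4 | hx4 | hx4 | hx4
    · rcases hy4 with hy4 | hy4 | hy4 | hy4
      · omega
      · exact key v0 v1 n01 n03 n13 T01 x y (by omega) (by omega)
      · exact key v0 v2 n02 n03 n23 T02 x y (by omega) (by omega)
      · omega
    · rcases hy4 with hy4 | hy4 | hy4 | hy4
      · exact key2 v0 v1 n01 n03 n13 T01 x y (by omega) (by omega)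
      · omega
      · exact key v1 v2 n12 n13 n23 T12 x y (by omega) (by omega)
      · omega
    · rcases hy4 with hy4 | hy4 | hy4 | hy4
      · exact key2 v0 v2 n02 n03 n23 T02 x y (by omega) (by omega)
      · exact key2 v1 v2 n12 n13 n23 T12 x y (by omega) (by omega)
      · omega
      · omega
    · omega
  · obtain ⟨i, j, l, hij, hil, hjl, himg⟩ := Finset.card_eq_three.1 hcard
    obtain ⟨a, ea⟩ := hval i (by rw [himg]; simp)
    obtain ⟨b, eb⟩ := hval j (by rw [himg]; simp)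
    obtain ⟨d, ed⟩ := hval l (by rw [himg]; simp)
    refine ⟨d, ((sw G S₀).Adj a b ↔ ((sw G S₀).Adj a d ↔ (sw G S₀).Adj b d)), ?_⟩
    intro x y hxy hx hy
    have hx4 : c x ∈ ({i, j, l} : Finset ℕ) := himg ▸ hmem x
    have hy4 : c y ∈ ({i, j, l} : Finset ℕ) := himg ▸ hmem y
    simp only [Finset.mem_insert, Finset.mem_singleton] at hx4 hy4
    rw [ed] at hx hy
    rcases hx4 with hx4 | hx4 | hx4
    · rcases hy4 with hy4 | hy4 | hy4
      · omega
      · rw [hlab x a y b (by omega) (by omega) hxy, hlab x a d d (by omega) rfl (by omega),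
          hlab y b d d (by omega) rfl (by omega)]
      · omega
    · rcases hy4 with hy4 | hy4 | hy4
      · rw [(sw G S₀).adj_comm x y, @Iff.comm ((sw G S₀).Adj x d) ((sw G S₀).Adj y d),
          hlab y a x b (by omega) (by omega) hxy.symm, hlab y a d d (by omega) rfl (by omega),
          hlab x b d d (by omega) rfl (by omega)]
      · omega
      · omega
    · omega

end Pool.Agent.NTW
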