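import Mathlib
import Pool.Agent.NTW.Defs

/-!
# Statements for MP_e73337_co (switching reconstruction): few near twins (helper48, Dec 5)

THEOREM.  `L = ⌈log₂ p⌉`, `t ≥ 3`, `D = 6 t² L²`.  Let `G` be a graph on `p > t` vertices such that for all but at
most `p / (3 t² L)` vertices `y`: at most two vertices are near `y`, or at most `t - 1` vertices are near `y` and all of
them are twins of `y`.  Then `G` is switching-reconstructible.

Chain: `S_RM` → `S_ONE` → `S_TEN`; `S_DEG`; `S_HIT`; `S_GRP`; `S_ESZ`; `S_ORB`; `S_CNT`; `S_NUM`; together the theorem.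
Only the statements before an arrow may be used as hypotheses: `theorem t_ONE (h : S_RM) : S_ONE`,
`theorem t_TEN (h : S_ONE) : S_TEN`, all others without hypotheses.
-/

set_option autoImplicit false

namespace Pool.Agent.NTW

open Finset Pool.Agent.Lib_helper61.SwitchBasic

/-- **RM** (Reed-Muller).  Induction on `U` (generalise `f`, `j`).  `U = ∅`: trivial.  `U = insert a U'`: for `X ⊆ U'` put
`g X = f X - f (insert a X)`; `mob g T = mob f (insert a T)` for `T ⊆ U'` (split the powerset of `insert a T`), so `g` has degree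
`≤ j - 1` on `U'` (if `j = 0`: `mob g T = 0` for all `T ⊆ U'`, so `g = 0` on `U'`, see below).
If `g X ≠ 0` for some `X ⊆ U'`: then `1 ≤ j`; for each `X` with `g X ≠ 0` one of `f X`, `f (insert a X)` is `≠ 0`, so the support of `f` has at
least `2 ^ ((card U - 1) - (j - 1))` elements.  If `g = 0` on `U'`: `f X = f (insert a X)`, `f` has degree `≤ j` on
`U'` and is not 0 there; its support on `U` is twice the one on `U'`, `≥ 2 * 2 ^ (card U' - j)`.
Remark: if `mob g T = 0` for all `T ⊆ U'` then `g = 0` on `U'`: a minimal `X ⊆ U'` with `g X ≠ 0` has `mob g X = ± g X`. -/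
def S_RM : Prop :=
  ∀ (α : Type) [DecidableEq α] (U : Finset α) (j : ℕ) (f : Finset α → ℚ), DegLE U j f →
    (∃ X ⊆ U, f X ≠ 0) → 2 ^ (U.card - j) ≤ (U.powerset.filter fun X => f X ≠ 0).card

/-- **ONE** (from RM), one block.  Let `𝒯` be a subset of the support `s = U.powerset.filter (f ≠ 0)` of maximal cardinality without
two different equivalent elements.  By maximality every element of `s` is equivalent to one of `𝒯`, so `card s ≤ card 𝒯 * 2^m`
and `2 ^ (c - j - m) ≤ card 𝒯` (`c = card U`, RM).  If `j < c`, then `card 𝒯 ≥ 2`: otherwise all elements of `s` are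
equivalent, so they have the same cardinality and the same value of `f`, and `mob f U = ± card s * f X ≠ 0`, against
`DegLE`.  Put `d = c - j`.  `d = 0`: `card 𝒯 ≥ 1`.  `1 ≤ d ≤ m + 1`: `2 ^ d ≤ 2 ^ (m + 1) ≤ card 𝒯 ^ (m + 1)`.
`d ≥ m + 1`: `d ≤ (d - m) (m + 1)`. -/
def S_ONE : Prop :=
  ∀ (α : Type) [DecidableEq α] (U : Finset α) (j m : ℕ) (f : Finset α → ℚ)
    (E : Finset α → Finset α → Prop), 1 ≤ m → Equivalence E → (∀ X X', E X X' → X.card = X'.card) →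
    (∀ X ⊆ U, {X' : Finset α | X' ⊆ U ∧ E X X'}.ncard ≤ 2 ^ m) →
    (∀ X ⊆ U, ∀ X' ⊆ U, E X X' → f X = f X') → DegLE U j f → (∃ X ⊆ U, f X ≠ 0) →
    ∃ 𝒯 : Finset (Finset α), (∀ X ∈ 𝒯, X ⊆ U ∧ f X ≠ 0) ∧ (∀ X ∈ 𝒯, ∀ X' ∈ 𝒯, E X X' → X = X') ∧
      2 ^ (U.card - j) ≤ 𝒯.card ^ (m + 1)

/-- **TEN** (from ONE), all blocks.  For a finite set `I` of labels let `U_I` be the set of the `x` with `lab x ∈ I`.  Prove by induction on
`I`, for all `f`, `j` with the invariance for `i ∈ I` and `DegLE U_I j f`, not 0 on the subsets of `U_I`: there is a finite set `𝒯` of subsets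
of `U_I` with `f ≠ 0`, separated (`(∀ i ∈ I, E ..) → S = S'`), with `2 ^ (card U_I - j) ≤ card 𝒯 ^ (m + 1)`.  `I = ∅`: `𝒯 = {∅}`.
Step `insert i I`, `Λ` = block of `i`: for `T ⊆ Λ`, `Y ⊆ U_I` put `g_T Y = ∑_(S ⊆ T) (-1)^|S| f (S ∪ Y)`.  Some `g_T` is not 0 on the subsets
of `U_I` (take `T ⊆ Λ` minimal with `f (T ∪ Y) ≠ 0` for some `Y ⊆ U_I`); let `T` be one with `t = |T|` maximal, `g = g_T`.  For `T' ⊆ U_I`:
`mob g T' = mob f (T ∪ T')`, so `t ≤ j` (else `mob g = 0` on all subsets of `U_I`, and `g = 0` there by the remark in RM) and `g` has degree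
`≤ j - t` on `U_I`; `g` has the invariance for the labels in `I`.  Induction: `𝒯'` for `g`.  For `Y ∈ 𝒯'` the function `h X = f (X ∪ Y)` is
not 0 on the subsets of `Λ`, `mob h T₁ = g_(T₁) Y = 0` for `T₁ ⊆ Λ`, `|T₁| > t` (maximality): ONE gives `𝒯_Y` with `2 ^ (|Λ| - t) ≤ |𝒯_Y| ^ (m + 1)`.
`𝒯 = {X ∪ Y : Y ∈ 𝒯', X ∈ 𝒯_Y}`; if `n` is the least number with `2 ^ (|Λ| - t) ≤ n ^ (m + 1)`, then `card 𝒯 ≥ n * card 𝒯'`.
At the end `I = univ` (labels). -/
def S_TEN : Prop :=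
  ∀ (α : Type) [Fintype α] [DecidableEq α] (lab : α → α) (E : Finset α → Finset α → Prop) (m : ℕ),
    1 ≤ m → Equivalence E → (∀ X X', E X X' → X.card = X'.card) →
    (∀ (i : α) (X X' : Finset α), E X X' → (∀ x ∈ X, lab x = i) → ∀ x ∈ X', lab x = i) →
    (∀ (i : α) (X : Finset α), (∀ x ∈ X, lab x = i) → {X' : Finset α | E X X'}.ncard ≤ 2 ^ m) →
    ∀ (f : Finset α → ℚ) (j : ℕ),
    (∀ (i : α) (X X' Y : Finset α), E X X' → (∀ x ∈ X, lab x = i) → (∀ x ∈ Y, lab x ≠ i) →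
      f (X ∪ Y) = f (X' ∪ Y)) →
    DegLE univ j f → (∃ X, f X ≠ 0) →
    ∃ 𝒯 : Finset (Finset α), (∀ S ∈ 𝒯, f S ≠ 0) ∧
      (∀ S ∈ 𝒯, ∀ S' ∈ 𝒯,
        (∀ i : α, E (S.filter fun x => lab x = i) (S'.filter fun x => lab x = i)) → S = S') ∧
      2 ^ (Fintype.card α - j) ≤ 𝒯.card ^ (m + 1)

/-- **DEG**.  `g Y = ∑_(S ⊆ T) (-1)^|S| f (Y Δ S)`.  For `i ∈ T`: `g (Y Δ {i}) = - g Y` (the map `S ↦ S Δ {i}` on the powerset of `T`).
`∑_i g (Y Δ {i}) = 0` for all `Y`.  So `∑_(i ∉ T) g (Y Δ {i}) = |T| g Y`.  Take `Y` with `|g Y|` maximal: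
`|T| |g Y| ≤ (card α - |T|) |g Y|`, so `g = 0`; `mob f T = g ∅`. -/
def S_DEG : Prop :=
  ∀ (α : Type) [Fintype α] [DecidableEq α] (f : Finset α → ℚ),
    (∀ S, ∑ i : α, f (symmDiff S {i}) = 0) → ∀ T : Finset α, Fintype.card α < 2 * T.card →
    mob f T = 0

/-- **HIT** (greedy hitting set).  Halving step: for a family `𝒜` there is `R` with `card R ≤ k` such that at most `card 𝒜 / 2` members are
missed: choose points one by one; as long as more than half of the members are missed, some point lies in at least `D / card α` of the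
missed ones (double counting), so it hits at least `card 𝒜 * D / (2 card α)` new ones; after `k` steps (`k D ≥ card α`) at least half is hit.
Repeat `n` times: fewer than `card 𝒜 / 2 ^ n < 1` are missed.  (Or: the number of pairs of a function `r : Fin (n k) → α` and a missed member is
at most `card 𝒜 * (card α - D) ^ (n k)`, and `2 (card α - D) ^ k ≤ (card α) ^ k` by Bernoulli.) -/
def S_HIT : Prop :=
  ∀ (α : Type) [Fintype α] [DecidableEq α] (𝒜 : Finset (Finset α)) (D n k : ℕ), 1 ≤ D →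
    (∀ A ∈ 𝒜, D ≤ A.card) → 𝒜.card < 2 ^ n → Fintype.card α ≤ k * D →
    ∃ R : Finset α, R.card ≤ n * k ∧ ∀ A ∈ 𝒜, (A ∩ R).Nonempty

/-- **GRP**.  `N = FG G R`.  Let `r u v` mean: `v ∈ orb u`, or there are `σ, σ' ∈ N` with `¬ (G.Adj (σ u) (σ' v) ↔ G.Adj u v)`.  Let `lab x` be a chosen
element of the class of `x` for the equivalence relation generated by `r` (`Relation.EqvGen`; e.g. `Quotient.out`).
(1) `lab (τ x) = lab x`.  (2) Glueing: `τ' = τ` on the block `i`, the identity elsewhere (a bijection, as `τ` preserves the block); it is an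
automorphism: for `u` in the block, `v` outside, `¬ r u v`, so `G.Adj (τ u) v ↔ G.Adj u v` (`σ = τ`, `σ' = 1`).
(3) Let `P u` mean: `τ` fixes `orb u` pointwise.  Claim: `r u v → (P u ↔ P v)`.  Clear if `v ∈ orb u`.  Otherwise `orb u` and `orb v` are not homogeneous to each other, and
this is symmetric, so show `P u → P v`.  For `x ∈ orb u` let `A x` be the set of neighbours of `x` in `orb v`; `A (σ x) = σ (A x)`; `A x ≠ ∅` (else, by
transitivity, no edges between the orbits) and `A x ≠ orb v`.  So `orb v` does not consist of twins (take `x = u` and `w ∈ A u`, `w' ∉ A u` in `orb v`: the second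
alternative fails for `y = w` (which is `σ v`; conjugate)), so `card (orb v) ≤ 3` and `A u` or `orb v \ A u` is a singleton `{w}`.  `τ` fixes `u`, so it
fixes `w`; the same for `σ u`, `σ w` (`σ ∈ N`), and the `σ w` are all of `orb v`.  So `P v`.
By induction over `EqvGen`, `P y → P x` for all `x` in the block of `y`; if the block `i` is empty take any `y` (`α` is not empty: `i`). -/
def S_GRP : Prop :=
  ∀ (α : Type) [Fintype α] [DecidableEq α] (G : SimpleGraph α) (R : Finset α),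
    (∀ y : α, (orb G R y).ncard ≤ 3 ∨
      ∀ τ ∈ FG G R, ∀ x, x ≠ y → x ≠ τ y → (G.Adj x y ↔ G.Adj x (τ y))) →
    ∃ lab : α → α, (∀ τ ∈ FG G R, ∀ x, lab (τ x) = lab x) ∧
      (∀ i : α, ∀ τ ∈ FG G R, ∃ τ' ∈ FG G R, ∀ x, τ' x = if lab x = i then τ x else x) ∧
      (∀ i : α, ∃ y : α, ∀ τ ∈ FG G R, (∀ z ∈ orb G R y, τ z = z) → ∀ x, lab x = i → τ x = x)

/-- **ESZ**.  If `τ z = τ' z` for all `z ∈ orb y` then `τ'⁻¹ τ` fixes `orb y` pointwise, so it fixes the points of `X ⊆ Λ`, and `X.map τ = X.map τ'`.  So the number of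
the `X.map τ` is at most the number of permutations of `orb y` (`τ` restricts to a permutation of `orb y`), `(card (orb y))! ≤ t!`. -/
def S_ESZ : Prop :=
  ∀ (α : Type) [Fintype α] [DecidableEq α] (G : SimpleGraph α) (R : Finset α) (t : ℕ) (y : α)
    (X : Finset α), (orb G R y).ncard ≤ t →
    (∀ τ ∈ FG G R, (∀ z ∈ orb G R y, τ z = z) → ∀ x ∈ X, τ x = x) →
    {X' : Finset α | ∃ τ ∈ FG G R, X' = X.map τ.toEmbedding}.ncard ≤ t.factorial

/-- **ORB**.  `G₀ = sw G (nb0 G x₀)`: `x₀` is isolated in `G₀`.  `y`, `τ y ∉ R` since `τ` fixes `R` and `τ y ≠ y`.  For `x ∈ R`: `x ≠ y, τ y` and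
`G₀.Adj x y ↔ G₀.Adj (τ x) (τ y) = G₀.Adj x (τ y)`.  So `R` does not meet `sep G₀ y (τ y)`, which is `sep G y (τ y)` or `cosep G y (τ y)` (according to whether
`nb0 G x₀` contains both or none of `y`, `τ y`, or one).  So `y`, `τ y` are near.  If they are twins in `G`, then they are twins in `G₀`: `sep G₀` or `cosep G₀` is
empty; `x₀ ∈ cosep G₀ y (τ y)` (`x₀` is isolated in `G₀`), so `sep G₀ y (τ y) = ∅`. -/
def S_ORB : Prop :=
  ∀ (α : Type) [Fintype α] [DecidableEq α] (G : SimpleGraph α) (R : Finset α) (x₀ : α) (D : ℕ),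
    x₀ ∈ R →
    (∀ y z, y ≠ z → ¬ Near G D y z → (sep G y z ∩ R).Nonempty ∧ (cosep G y z ∩ R).Nonempty) →
    (∀ v, ¬ (sw G (nb0 G x₀)).Adj x₀ v) ∧
    ∀ τ ∈ FG (sw G (nb0 G x₀)) R, ∀ y, τ y ≠ y → y ∉ R ∧ Near G D y (τ y) ∧
      (Twins G y (τ y) → ∀ x, x ≠ y → x ≠ τ y →
        ((sw G (nb0 G x₀)).Adj x y ↔ (sw G (nb0 G x₀)).Adj x (τ y)))

/-- **CNT**.  For `T ∈ 𝒯` choose an isomorphism `σ_T` of `sw G₀ T` to `K` or to `H`.  The map `T ↦ (K or H, x₀ ∈ T or not, σ_T restricted to R)` is injective on `𝒯`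
(so `card 𝒯 ≤ 2 * 2 * (card α) ^ (card R)`): if `T, T'` have the same image, `τ = σ_(T')⁻¹ σ_T : sw G₀ T ≃g sw G₀ T'` fixes `R`.
For `v ≠ x₀`: `G₀.Adj x₀ v` is false, so `(sw G₀ T).Adj x₀ v ↔ ¬ (x₀ ∈ T ↔ v ∈ T)`, and the same for `T'` and `τ v`; as `x₀ ∈ T ↔ x₀ ∈ T'`: `v ∈ T ↔ τ v ∈ T'`, for all `v`.
So `T' = T.map τ`, and `G₀.Adj (τ u) (τ v) ↔ G₀.Adj u v`; `τ ∈ FG G₀ R`, so `T = T'`. -/
def S_CNT : Prop :=
  ∀ (α : Type) [Fintype α] [DecidableEq α] (G₀ K H : SimpleGraph α) (R : Finset α) (x₀ : α),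
    x₀ ∈ R → (∀ v, ¬ G₀.Adj x₀ v) → ∀ 𝒯 : Finset (Finset α),
    (∀ T ∈ 𝒯, Nonempty (sw G₀ T ≃g K) ∨ Nonempty (sw G₀ T ≃g H)) →
    (∀ T ∈ 𝒯, ∀ T' ∈ 𝒯, (∃ τ ∈ FG G₀ R, T' = T.map τ.toEmbedding) → T = T') →
    𝒯.card ≤ 4 * Fintype.card α ^ R.card

/-- **NUM**.  `m = t (t - 1) / 2`.  (1) `t! ≤ 2 ^ m`: induction (`i ≤ 2 ^ (i - 1)`).  (2) `2 (m + 1) ≤ t ^ 2`; `p ≤ 2 ^ L`; so it is enough that `t^2 (2 + L r) < p`.
`p ≥ 12 t² L² + 2 ≥ 110`, so `L ≥ 7`.  `k ≤ p / D + 1`: `t² L (2L + 2) k ≤ p (2L² + 2L) / (6L²) + t² (2L² + 2L) ≤ p (1/3 + 1/21) + t² (2L² + 2L)`,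
`t² L e ≤ p / 3`, `t² (2L² + 2L + L + 2) ≤ (18/7) t² L² ≤ (18/84) p`; the sum is `< p`. -/
def S_NUM : Prop :=
  ∀ t : ℕ, 3 ≤ t → t.factorial ≤ 2 ^ (t * (t - 1) / 2) ∧
    ∀ p e r : ℕ, 2 * (6 * t ^ 2 * Nat.clog 2 p ^ 2) + 2 ≤ p → 3 * t ^ 2 * Nat.clog 2 p * e ≤ p →
      r ≤ (2 * Nat.clog 2 p + 2) * (p / (6 * t ^ 2 * Nat.clog 2 p ^ 2) + 1) + 1 + e →
      (4 * p ^ r) ^ (t * (t - 1) / 2 + 1) < 2 ^ (p - p / 2)

end Pool.Agent.NTW
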