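import Mathlib
import Pool.Agent.NTW.St

/-!
# MP_e73337_co, second version: small modules instead of twin classes (helper48, Dec 5)

THEOREM.  `L = ⌈log₂ p⌉`, `t ≥ 3`, `D = 6 t² L²`.  Let `G` be a graph on `p > t` vertices such that for all but at
most `p / (3 t² L)` vertices `y`: at most two vertices are near `y`, or `y` and all vertices near `y` lie in a module
(up to switching) with at most `t` vertices.  Then `G` is switching-reconstructible.
-/

set_option autoImplicit false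

namespace Pool.Agent.NTW

open Finset Pool.Agent.Lib_helper61.SwitchBasic

/-- `C` is a module of `G` up to switching: two members of `C` are separated by no vertex outside `C`, or by all
vertices outside `C`. -/
def IsMod {α : Type} (G : SimpleGraph α) (C : Finset α) : Prop :=
  ∀ z ∈ C, ∀ w ∈ C, (∀ x, x ∉ C → (G.Adj x z ↔ G.Adj x w)) ∨
    (∀ x, x ∉ C → ¬ (G.Adj x z ↔ G.Adj x w))

/-- **ORB2**.  As ORB.  Third part: let `B = nb0 G x₀`.  For `x ∉ C`: `x` separates `z`, `τ z` in `G₀` iff (it separates them in `G`) xor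
(exactly one of `z`, `τ z` is in `B`) (if `x ≠ z, τ z`, which holds as `x ∉ C`); so all `x ∉ C` separate them in `G₀` or none does.  `x₁ ∈ R \ C` does not:
`G₀.Adj x₁ z ↔ G₀.Adj (τ x₁) (τ z) = G₀.Adj x₁ (τ z)`. -/
def S_ORB2 : Prop :=
  ∀ (α : Type) [Fintype α] [DecidableEq α] (G : SimpleGraph α) (R : Finset α) (x₀ : α) (D : ℕ),
    x₀ ∈ R →
    (∀ y z, y ≠ z → ¬ Near G D y z → (sep G y z ∩ R).Nonempty ∧ (cosep G y z ∩ R).Nonempty) →
    (∀ v, ¬ (sw G (nb0 G x₀)).Adj x₀ v) ∧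
    (∀ τ ∈ FG (sw G (nb0 G x₀)) R, ∀ y, τ y ≠ y → Near G D y (τ y)) ∧
    (∀ C : Finset α, IsMod G C → (∃ x₁ ∈ R, x₁ ∉ C) → ∀ τ ∈ FG (sw G (nb0 G x₀)) R,
      ∀ z ∈ C, τ z ∈ C → ∀ x, x ∉ C →
        ((sw G (nb0 G x₀)).Adj x z ↔ (sw G (nb0 G x₀)).Adj x (τ z)))

/-- **GRP2**.  `lab` as in GRP, (1) and (2) as there ((2) needs no hypothesis).  (3) Let the block `i` be not empty (else `Z = ∅`).
Case A: some `y` in the block satisfies the second alternative, with `C`.  Then the block is contained in `C`: let `Q u` mean `orb u ⊆ C`; `Q y`.  If `r u v`, then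
`Q u ↔ Q v`: clear if `v ∈ orb u`; otherwise the relation is symmetric, let `Q u` and suppose `σ₀ v ∉ C` for some `σ₀ ∈ N`; the vertex `x = σ₀ v` does not separate the points of
`orb u ⊆ C` (second alternative), and so (apply elements of `N`) no vertex of `orb v` does, the pair `orb u`, `orb v` is homogeneous, against `r u v`.  So `orb v ⊆ C`.
By induction over `EqvGen` all of the block lies in `C`.  `Z` = the block: `card Z ≤ t`, invariant by (1), and `τ` fixing `Z` pointwise fixes the block.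
Case B: all `y` in the block have `card (orb y) ≤ 3`.  `Z = orb y` for some `y` in the block, `card Z ≤ 3 ≤ t`; the argument of GRP (3). -/
def S_GRP2 : Prop :=
  ∀ (α : Type) [Fintype α] [DecidableEq α] (G : SimpleGraph α) (R : Finset α) (t : ℕ), 3 ≤ t →
    (∀ y : α, (orb G R y).ncard ≤ 3 ∨
      ∃ C : Finset α, C.card ≤ t ∧ orb G R y ⊆ (C : Set α) ∧
        ∀ τ ∈ FG G R, ∀ z ∈ C, τ z ∈ C → ∀ x, x ∉ C → (G.Adj x z ↔ G.Adj x (τ z))) →
    ∃ lab : α → α, (∀ τ ∈ FG G R, ∀ x, lab (τ x) = lab x) ∧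
      (∀ i : α, ∀ τ ∈ FG G R, ∃ τ' ∈ FG G R, ∀ x, τ' x = if lab x = i then τ x else x) ∧
      (∀ i : α, ∃ Z : Finset α, Z.card ≤ t ∧ (∀ τ ∈ FG G R, ∀ z ∈ Z, τ z ∈ Z) ∧
        ∀ τ ∈ FG G R, (∀ z ∈ Z, τ z = z) → ∀ x, lab x = i → τ x = x)

/-- **ESZ2**.  If `τ z = τ' z` for all `z ∈ Z` then `τ'⁻¹ τ` fixes `Z` pointwise, so it fixes the points of `X`, and `X.map τ = X.map τ'`.  So the number of
the `X.map τ` is at most the number of permutations of `Z` (`τ` restricts to a permutation of `Z`, `Equiv.Perm.subtypePerm`), `(card Z)! ≤ t!`. -/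
def S_ESZ2 : Prop :=
  ∀ (α : Type) [Fintype α] [DecidableEq α] (G : SimpleGraph α) (R : Finset α) (t : ℕ)
    (Z X : Finset α), Z.card ≤ t → (∀ τ ∈ FG G R, ∀ z ∈ Z, τ z ∈ Z) →
    (∀ τ ∈ FG G R, (∀ z ∈ Z, τ z = z) → ∀ x ∈ X, τ x = x) →
    {X' : Finset α | ∃ τ ∈ FG G R, X' = X.map τ.toEmbedding}.ncard ≤ t.factorial

end Pool.Agent.NTW
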