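import Mathlib
import Pool.Agent.NTW.St2

/-!
# MP_e73337_co, substitution into well separated two-graphs (helper39, Dec 5)

THEOREM.  `L = ⌈log₂ p⌉`, `q = 33 (L + 1)³`.  The vertices of `G` (`p ≥ 4`) are partitioned into `r ≥ 2` parts (the fibres of
`c`); every part is a module up to switching (any size, any graph inside).  `y`, `z` are near if fewer than `q` parts meet
`sep G y z` or fewer than `q` parts meet `cosep G y z`.  If for all but at most `r / (16 (L+1)²)` vertices `y`: at most two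
vertices are near `y`, or all vertices near `y` lie in the part of `y`, then `G` is switching-reconstructible.

Chain: `S_HOM`, `S_TENU` (from TEN) → `S_KEY` (with CNT); `S_SML` (from GRP, ESZ); `S_HITP` (from HIT); `S_NUMX`; the theorem
(Fin5).  Only the statements named in the first words of a doc comment may be used as hypotheses:
`theorem t_TENU (h : S_TEN) : S_TENU`, `theorem t_KEY (hHOM : S_HOM) (hTENU : S_TENU) (hCNT : S_CNT) : S_KEY`,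
`theorem t_SML (hGRP : S_GRP) (hESZ : S_ESZ) : S_SML`, `theorem t_HITP (h : S_HIT) : S_HITP`,
`theorem t_HOM : S_HOM`, `theorem t_NUMX : S_NUMX`.
-/

set_option autoImplicit false

namespace Pool.Agent.NTW

open Finset Pool.Agent.Lib_helper61.SwitchBasic

/-- **HOM** (no hypothesis).  Put `F T = ∑_S (-1)^|S ∩ T| f S` (sum over all `S`).  (1) `(p - 2|T|) F T = 0`, `p = card α`: sum the hypothesis
over all `S` with the sign `(-1)^|S ∩ T|` and substitute `S ↦ S Δ {i}` (`|S Δ {i} ∩ T|` and `|S ∩ T|` have different parity iff `i ∈ T`).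
So `F T ≠ 0` only if `2|T| = p`.  (2) some `F T₀ ≠ 0`: `∑_T (-1)^|S₀ ∩ T| F T = 2^p f S₀`.
(3) `T₂ = T₀ \ U`, `e = |T₀ ∩ U|`, `g X = ∑_(Y ⊆ Uᶜ) (-1)^|Y ∩ T₂| f (X ∪ Y)`.  For `T₁ ⊆ U`: `∑_(X ⊆ U) (-1)^|X ∩ T₁| g X = F (T₁ ∪ T₂)`, which is
0 unless `|T₁| = e` (as `2 (|T₁| + |T₂|) = p = 2 (e + |T₂|)`), and not 0 for `T₁ = T₀ ∩ U`.  So `g` is not 0 on the subsets of `U`.
(4) For any function `g` on the subsets of `U` and `T ⊆ U`: `2^(|U| - |T|) mob g T = ∑_(T ⊆ T' ⊆ U) ĝ T'`, `ĝ T' = ∑_(X ⊆ U) (-1)^|X ∩ T'| g X` (for fixed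
`X` the sum of `(-1)^|X ∩ T'|` over `T'` is `(-1)^|X ∩ T|` times `∏_(i ∈ U \ T) (1 + (-1)^[i ∈ X])`, which is 0 unless `X ⊆ T`).
So `mob g T = 0` for `|T| > e`.  (5) If `e ≤ |U| / 2` take `h = g` on the subsets of `U`.  Otherwise take `h X = (-1)^|X| g X`: `ĥ T' = ĝ (U \ T')`, so
`h` has degree `|U| - e ≤ |U| / 2`.  If `h X ≠ 0` some term `f (X ∪ Y)` with `Y ⊆ Uᶜ` is not 0; the last part is clear. -/
def S_HOM : Prop :=
  ∀ (α : Type) [Fintype α] [DecidableEq α] (f : Finset α → ℚ),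
    (∀ S, ∑ i : α, f (symmDiff S {i}) = 0) → (∃ S, f S ≠ 0) → ∀ U : Finset α,
    ∃ h : Finset α → ℚ, DegLE U (U.card / 2) h ∧ (∃ X ⊆ U, h X ≠ 0) ∧
      (∀ X ⊆ U, h X ≠ 0 → ∃ Y : Finset α, Disjoint Y U ∧ f (X ∪ Y) ≠ 0) ∧
      (∀ X ⊆ U, ∀ X' ⊆ U, X.card = X'.card →
        (∀ Y : Finset α, Disjoint Y U → f (X ∪ Y) = f (X' ∪ Y)) → h X = h X')

/-- **TENU** (from TEN).  TEN for the type `β = {x // x ∈ U}`.  `e : β → α` the inclusion.  `lab' x` = a chosen `y : β` with `lab y = lab x`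
(it depends only on `lab x`), so `lab' x = lab' y ↔ lab x = lab y` and `lab (lab' x) = lab x`.  `E' X X' := E (X.map e) (X'.map e)`,
`h' X = h (X.map e)`; `X ↦ X.map e` is a bijection onto the subsets of `U`.  If `lab' x = i'` for all `x ∈ X` then `lab x = lab i'`.
`{X' | E' X X'}` is mapped injectively into `{X' | E (X.map e) X'}` (finite type).  At the end take the images of the members of the
family; for `i` not of the form `lab u` (`u ∈ U`) both filters are empty (`E` reflexive). -/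
def S_TENU : Prop :=
  ∀ (α : Type) [Fintype α] [DecidableEq α] (U : Finset α) (lab : α → α)
    (E : Finset α → Finset α → Prop) (m : ℕ),
    1 ≤ m → Equivalence E → (∀ X X', E X X' → X.card = X'.card) →
    (∀ X X', X ⊆ U → E X X' → X' ⊆ U) →
    (∀ (i : α) (X X' : Finset α), X ⊆ U → E X X' → (∀ x ∈ X, lab x = i) → ∀ x ∈ X', lab x = i) →
    (∀ (i : α) (X : Finset α), X ⊆ U → (∀ x ∈ X, lab x = i) →
      {X' : Finset α | E X X'}.ncard ≤ 2 ^ m) →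
    ∀ (h : Finset α → ℚ) (j : ℕ),
    (∀ (i : α) (X X' Y : Finset α), X ⊆ U → Y ⊆ U → E X X' → (∀ x ∈ X, lab x = i) →
      (∀ x ∈ Y, lab x ≠ i) → h (X ∪ Y) = h (X' ∪ Y)) →
    DegLE U j h → (∃ X ⊆ U, h X ≠ 0) →
    ∃ 𝒯 : Finset (Finset α), (∀ S ∈ 𝒯, S ⊆ U ∧ h S ≠ 0) ∧
      (∀ S ∈ 𝒯, ∀ S' ∈ 𝒯,
        (∀ i : α, E (S.filter fun x => lab x = i) (S'.filter fun x => lab x = i)) → S = S') ∧
      2 ^ (U.card - j) ≤ 𝒯.card ^ (m + 1)

/-- **KEY** (from HOM, TENU, CNT).  HOM gives `h`; TENU with `E X X'` := `∃ τ ∈ FG G₀ R, X' = X.map τ` and `j = |U| / 2`.  Invariance: for `X ⊆ U` with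
label `i`, `Y ⊆ U` without the label `i`, `X' = X.map τ`: glue `τ` to `τ'` on the block `i`; `τ' X = X'`, `τ'` fixes all points outside the block, so
`f (X ∪ Y ∪ Z) = f (X' ∪ Y ∪ Z)` for all `Z` outside `U` (the sets have the same cardinality as `X`, `X'` are disjoint from `Y`).
For `S ∈ 𝒯` choose `Y_S` outside `U` with `f (S ∪ Y_S) ≠ 0`; CNT for the family of the `S ∪ Y_S`: if `τ ∈ FG G₀ R` maps `S ∪ Y_S` to `S' ∪ Y_S'`, then (`τ`
preserves `U` and the labels) it maps `S.filter (lab = i)` to `S'.filter (lab = i)`, so `S = S'`.  So `card 𝒯 ≤ 4 p^|R| ≤ 2^(2 + L |R|)`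
(`p ≤ 2^L`), and `2^(|U| - |U|/2) ≤ card 𝒯 ^ (m+1)`. -/
def S_KEY : Prop :=
  ∀ (α : Type) [Fintype α] [DecidableEq α] (G₀ K H : SimpleGraph α) (R : Finset α) (x₀ : α),
    x₀ ∈ R → (∀ v, ¬ G₀.Adj x₀ v) → ∀ f : Finset α → ℚ,
    (∀ S, ∑ i : α, f (symmDiff S {i}) = 0) → (∃ S, f S ≠ 0) →
    (∀ S, f S ≠ 0 → Nonempty (sw G₀ S ≃g K) ∨ Nonempty (sw G₀ S ≃g H)) →
    (∀ τ ∈ FG G₀ R, ∀ S, f (S.map τ.toEmbedding) = f S) →
    ∀ (U : Finset α) (lab : α → α) (m : ℕ), 1 ≤ m →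
    (∀ τ ∈ FG G₀ R, ∀ x ∈ U, τ x ∈ U ∧ lab (τ x) = lab x) →
    (∀ i : α, ∀ τ ∈ FG G₀ R, ∃ τ' ∈ FG G₀ R, ∀ x, τ' x = if x ∈ U ∧ lab x = i then τ x else x) →
    (∀ (i : α) (X : Finset α), X ⊆ U → (∀ x ∈ X, lab x = i) →
      {X' : Finset α | ∃ τ ∈ FG G₀ R, X' = X.map τ.toEmbedding}.ncard ≤ 2 ^ m) →
    U.card - U.card / 2 ≤ (m + 1) * (2 + Nat.clog 2 (Fintype.card α) * R.card)

/-- **SML** (from GRP, ESZ).  `R' = R ∪ Vᶜ`.  For `τ ∈ FG G₀ R` let `τ₁` be `τ` on `V`, the identity outside; it is in `FG G₀ R'`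
(and in `FG G₀ R`): for `u ∈ V`, `v ∉ V`: `G₀.Adj (τ u) v ↔ G₀.Adj u (τ⁻¹ v) ↔ G₀.Adj u v`.  GRP for `G₀`, `R'`: the orbits have at most 3 elements
(`orb G₀ R' y ⊆ orb G₀ R y` for `y ∈ V`, `orb G₀ R' y = {y}` for `y ∉ V`).  `lab` from GRP; `lab (τ x) = lab (τ₁ x) = lab x` for `x ∈ V`; gluing: the glue of
`τ₁` on the block `i`.  Images: `X.map τ = X.map τ₁` for `X ⊆ V`; with `y` from the third part of GRP, ESZ for `R'`, `t = 3`: `3! ≤ 2^3`. -/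
def S_SML : Prop :=
  ∀ (α : Type) [Fintype α] [DecidableEq α] (G₀ : SimpleGraph α) (R V : Finset α),
    (∀ τ ∈ FG G₀ R, ∀ x ∈ V, τ x ∈ V) → (∀ x ∈ V, (orb G₀ R x).ncard ≤ 3) →
    (∀ τ ∈ FG G₀ R, ∀ x ∈ V, ∀ z, z ∉ V → (G₀.Adj x z ↔ G₀.Adj x (τ z))) →
    ∃ lab : α → α, (∀ τ ∈ FG G₀ R, ∀ x ∈ V, τ x ∈ V ∧ lab (τ x) = lab x) ∧
      (∀ i : α, ∀ τ ∈ FG G₀ R, ∃ τ' ∈ FG G₀ R, ∀ x,
        τ' x = if x ∈ V ∧ lab x = i then τ x else x) ∧
      (∀ (i : α) (X : Finset α), X ⊆ V → (∀ x ∈ X, lab x = i) →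
        {X' : Finset α | ∃ τ ∈ FG G₀ R, X' = X.map τ.toEmbedding}.ncard ≤ 2 ^ 3)

/-- **HITP** (from HIT).  Hitting by representatives of parts.  Type of the labels `ι = {i // i ∈ univ.image c}`, `card ι = r`; `v i` a vertex with `c (v i) = i`.
For `A ∈ 𝒜` put `A' = {i : ι | v i ∈ A}`; `D ≤ card A'` by hypothesis (2).  The number of the `A'` is at most `card 𝒜`.  HIT gives `R'` with
`card R' ≤ n k` meeting every `A'`; `R` = the image of `R'` under `v`.  (Hypothesis (2): at least `D` parts are contained in `A`.) -/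
def S_HITP : Prop :=
  ∀ (α : Type) [Fintype α] [DecidableEq α] (c : α → ℕ) (𝒜 : Finset (Finset α)) (D n k : ℕ),
    1 ≤ D →
    (∀ A ∈ 𝒜, D ≤ ((univ.image c).filter fun i => ∀ x, c x = i → x ∈ A).card) →
    𝒜.card < 2 ^ n → (univ.image c).card ≤ k * D →
    ∃ R : Finset α, R.card ≤ n * k ∧ ∀ A ∈ 𝒜, (A ∩ R).Nonempty

/-- **NUMX**.  `s ≤ (2L+2)(r/D + 1) + 2 + e`, `1 + 4L² ≤ 4(L+1)²`; `4(L+1)² (2L+2) (r/D) ≤ r/4` as `D ≥ 32 (L+1)³`;
`4(L+1)² e ≤ r/4`; `4(L+1)² (2L+4) + 8L ≤ 13 (L+1)³ < r/2` as `r ≥ 64 (L+1)³`. -/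
def S_NUMX : Prop :=
  ∀ L r D e s : ℕ, 1 ≤ L → 32 * (L + 1) ^ 3 ≤ D → 2 * D ≤ r → 16 * (L + 1) ^ 2 * e ≤ r →
    s ≤ (2 * L + 2) * (r / D + 1) + 2 + e → s + 4 * L * (2 + L * s) < r

end Pool.Agent.NTW
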