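import Mathlib
import Pool.Agent.NTW.St5
import Pool.Agent.NTW.St6

set_option autoImplicit false

namespace Pool.Agent.NTW

open Finset Pool.Agent.Lib_helper61.SwitchBasic

theorem homv_mob {α : Type} [DecidableEq α] (V : Finset α) (h : Finset α → ℚ)
    (T : Finset {x // x ∈ V}) :
    mob (fun X : Finset {x // x ∈ V} => h (X.map (Function.Embedding.subtype _))) T =
      mob h (T.map (Function.Embedding.subtype _)) := by
  unfold mob
  refine Finset.sum_bij (fun S _ => S.map (Function.Embedding.subtype _)) ?_ ?_ ?_ ?_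
  · intro S hS
    rw [Finset.mem_powerset] at hS ⊢
    exact Finset.map_subset_map.2 hS
  · intro S _ S' _ hSS
    exact Finset.map_injective _ hSS
  · intro b hb
    rw [Finset.mem_powerset] at hb
    obtain ⟨u, hu, hbu⟩ := Finset.subset_map_iff.1 hb
    exact ⟨u, Finset.mem_powerset.2 hu, hbu.symm⟩
  · intro S _
    rw [Finset.card_map]

theorem t_HOMV (hHOM : S_HOM) : S_HOMV := by
  intro α _ _ V U hUV f hf hne
  set e : {x // x ∈ V} ↪ α := Function.Embedding.subtype _ with he
  have hsub : ∀ X : Finset {x // x ∈ V}, X.map e ⊆ V := by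
    intro X x hx
    rw [Finset.mem_map] at hx
    obtain ⟨y, _, rfl⟩ := hx
    exact y.2
  have hst : ∀ X : Finset {x // x ∈ V}, (X.map e).subtype (· ∈ V) = X := by
    intro X
    ext x
    rw [Finset.mem_subtype, Finset.mem_map]
    constructor
    · rintro ⟨y, hy, hyx⟩
      have : y = x := Subtype.ext hyx
      rwa [← this]
    · intro hx
      exact ⟨x, hx, rfl⟩
  have hts : ∀ X : Finset α, X ⊆ V → (X.subtype (· ∈ V)).map e = X := by
    intro X hX
    ext x
    rw [Finset.mem_map]
    constructor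
    · rintro ⟨y, hy, rfl⟩
      rw [Finset.mem_subtype] at hy
      exact hy
    · intro hx
      exact ⟨⟨x, hX hx⟩, Finset.mem_subtype.2 hx, rfl⟩
  have hsd : ∀ (S : Finset {x // x ∈ V}) (i : {x // x ∈ V}),
      (symmDiff S {i}).map e = symmDiff (S.map e) {(i : α)} := by
    intro S i
    ext x
    simp only [Finset.mem_map, Finset.mem_symmDiff, Finset.mem_singleton]
    constructor
    · rintro ⟨y, hy | hy, rfl⟩
      · refine Or.inl ⟨⟨y, hy.1, rfl⟩, ?_⟩
        intro h1
        exact hy.2 (Subtype.ext h1)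
      · refine Or.inr ⟨?_, ?_⟩
        · rw [hy.1]; rfl
        · rintro ⟨z, hz, hzy⟩
          have : z = y := Subtype.ext hzy
          rw [this] at hz
          exact hy.2 hz
    · rintro (⟨⟨y, hy, rfl⟩, h2⟩ | ⟨h1, h2⟩)
      · refine ⟨y, Or.inl ⟨hy, ?_⟩, rfl⟩
        intro h3
        apply h2
        rw [h3]
        rfl
      · refine ⟨i, Or.inr ⟨rfl, ?_⟩, h1.symm⟩
        intro h3
        exact h2 ⟨i, h3, h1.symm⟩
  obtain ⟨h', hd, hn, hc, hv⟩ := hHOM {x // x ∈ V} (fun S => f (S.map e))
    (by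
      intro S
      have h1 := hf (S.map e) (hsub S)
      rw [← Finset.sum_coe_sort V (fun i => f (symmDiff (S.map e) {i}))] at h1
      rw [← h1]
      refine Finset.sum_congr rfl (fun i _ => ?_)
      rw [hsd S i])
    (by
      obtain ⟨S, hS, hS0⟩ := hne
      refine ⟨S.subtype (· ∈ V), ?_⟩
      show f ((S.subtype (· ∈ V)).map e) ≠ 0
      rw [hts S hS]
      exact hS0)
    (U.subtype (· ∈ V))
  have hUc : (U.subtype (· ∈ V)).card = U.card := by
    rw [← Finset.card_map e, hts U hUV]
  refine ⟨fun X => h' (X.subtype (· ∈ V)), ?_, ?_, ?_, ?_⟩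
  · intro T hTU hT
    have hTV : T ⊆ V := hTU.trans hUV
    have h1 : mob (fun X : Finset α => h' (X.subtype (· ∈ V))) T =
        mob h' (T.subtype (· ∈ V)) := by
      conv_lhs => rw [← hts T hTV]
      rw [← homv_mob V (fun X : Finset α => h' (X.subtype (· ∈ V))) (T.subtype (· ∈ V))]
      congr 1
      funext X
      show h' ((X.map e).subtype (· ∈ V)) = h' X
      rw [hst X]
    rw [h1]
    refine hd _ ?_ ?_
    · intro x hx
      rw [Finset.mem_subtype] at hx ⊢
      exact hTU hx
    · rw [hUc, ← Finset.card_map e, hts T hTV]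
      exact hT
  · obtain ⟨X, hX, hX0⟩ := hn
    refine ⟨X.map e, ?_, ?_⟩
    · intro x hx
      rw [Finset.mem_map] at hx
      obtain ⟨y, hy, rfl⟩ := hx
      exact Finset.mem_subtype.1 (hX hy)
    · show h' ((X.map e).subtype (· ∈ V)) ≠ 0
      rw [hst X]
      exact hX0
  · intro X hX hX0
    obtain ⟨Y, hY, hY0⟩ := hc (X.subtype (· ∈ V))
      (fun x hx => Finset.mem_subtype.2 (hX (Finset.mem_subtype.1 hx))) hX0
    refine ⟨Y.map e, hsub Y, ?_, ?_⟩
    · rw [Finset.disjoint_left] at hY ⊢
      intro x hx hxU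
      rw [Finset.mem_map] at hx
      obtain ⟨y, hy, rfl⟩ := hx
      exact hY hy (Finset.mem_subtype.2 hxU)
    · have h1 : f (((X.subtype (· ∈ V)) ∪ Y).map e) ≠ 0 := hY0
      rw [Finset.map_union, hts X (hX.trans hUV)] at h1
      exact h1
  · intro X hX X' hX' hcard hfe
    refine hv (X.subtype (· ∈ V)) (fun x hx => Finset.mem_subtype.2 (hX (Finset.mem_subtype.1 hx)))
      (X'.subtype (· ∈ V)) (fun x hx => Finset.mem_subtype.2 (hX' (Finset.mem_subtype.1 hx))) ?_ ?_
    · rw [← Finset.card_map e, ← Finset.card_map e (s := X'.subtype (· ∈ V)),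
        hts X (hX.trans hUV), hts X' (hX'.trans hUV)]
      exact hcard
    · intro Y hY
      show f ((X.subtype (· ∈ V) ∪ Y).map e) = f ((X'.subtype (· ∈ V) ∪ Y).map e)
      rw [Finset.map_union, Finset.map_union, hts X (hX.trans hUV), hts X' (hX'.trans hUV)]
      refine hfe (Y.map e) (hsub Y) ?_
      rw [Finset.disjoint_left] at hY ⊢
      intro x hx hxU
      rw [Finset.mem_map] at hx
      obtain ⟨y, hy, rfl⟩ := hx
      exact hY hy (Finset.mem_subtype.2 hxU)

end Pool.Agent.NTW
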