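import Mathlib
import Pool.Agent.NTW.St6

set_option autoImplicit false

namespace Pool.Agent.NTW

open Finset

theorem inva_of_mod {α : Type} {G : SimpleGraph α} {C : Finset α} (h : IsMod G C) {z w x x' : α}
    (hz : z ∈ C) (hw : w ∈ C) (hx : x ∉ C) (hx' : x' ∉ C) :
    (G.Adj x z ↔ G.Adj x w) ↔ (G.Adj x' z ↔ G.Adj x' w) := by
  rcases h z hz w hw with h1 | h1
  · exact iff_of_true (h1 x hx) (h1 x' hx')
  · exact iff_of_false (h1 x hx) (h1 x' hx')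

theorem inva_to_mod {α : Type} {G : SimpleGraph α} {C : Finset α}
    (h : ∀ z ∈ C, ∀ w ∈ C, ∀ x, x ∉ C → ∀ x', x' ∉ C →
      ((G.Adj x z ↔ G.Adj x w) ↔ (G.Adj x' z ↔ G.Adj x' w))) : IsMod G C := by
  intro z hz w hw
  by_cases h0 : ∃ x, x ∉ C ∧ (G.Adj x z ↔ G.Adj x w)
  · obtain ⟨x0, h1, h2⟩ := h0
    exact Or.inl fun x hx => (h z hz w hw x0 h1 x hx).1 h2
  · right
    intro x hx h2
    exact h0 ⟨x, hx, h2⟩

theorem inva_tri (a b c d : Prop) : (a ↔ d) ↔ ((a ↔ b) ↔ ((b ↔ c) ↔ (c ↔ d))) := by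
  tauto

theorem inva_sym (a b c d : Prop) (h : (a ↔ b) ↔ (c ↔ d)) : (a ↔ c) ↔ (b ↔ d) := by
  tauto

theorem t_INVA : S_INVA := by
  intro α _ _ G c hpart h4 hprime D hD
  by_contra hcon
  rw [not_or] at hcon
  obtain ⟨hc1, hc2⟩ := hcon
  have hmem : ∀ i x, x ∈ Fin5.part c i ↔ c x = i := fun i x => Fin5.mem_part c i x
  have hJ : 2 ≤ (D.image c).card := by
    by_contra hlt
    have hle : (D.image c).card ≤ 1 := by omega
    obtain ⟨i, hi⟩ := Finset.card_le_one_iff_subset_singleton.1 hle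
    refine hc1 ⟨i, fun x hx => (hmem i x).2 ?_⟩
    exact mem_singleton.1 (hi (mem_image_of_mem c hx))
  have hJ' : 2 ≤ (Dᶜ.image c).card := by
    by_contra hlt
    have hle : (Dᶜ.image c).card ≤ 1 := by omega
    obtain ⟨i, hi⟩ := Finset.card_le_one_iff_subset_singleton.1 hle
    refine hc2 ⟨i, fun x hx => (hmem i x).2 ?_⟩
    exact mem_singleton.1 (hi (mem_image_of_mem c hx))
  obtain ⟨J, hJd⟩ : ∃ J, J = D.image c := ⟨_, rfl⟩
  obtain ⟨J', hJd'⟩ : ∃ J', J' = Dᶜ.image c := ⟨_, rfl⟩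
  rw [← hJd] at hJ
  rw [← hJd'] at hJ'
  have hL : ∀ x, c x ∈ J ∨ c x ∈ J' := by
    intro x
    by_cases hx : x ∈ D
    · left; rw [hJd]; exact mem_image_of_mem c hx
    · right; rw [hJd']; exact mem_image_of_mem c (mem_compl.2 hx)
  have hJ0 : ∀ i ∈ J, ∃ x ∈ D, c x = i := by
    intro i hi; rw [hJd] at hi; exact mem_image.1 hi
  have hJ0' : ∀ i ∈ J', ∃ x, x ∉ D ∧ c x = i := by
    intro i hi; rw [hJd'] at hi
    obtain ⟨x, hx, hxi⟩ := mem_image.1 hi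
    exact ⟨x, mem_compl.1 hx, hxi⟩
  -- choose the labels
  obtain ⟨J₁, hA, hsub, h2, h2'⟩ : ∃ J₁ : Finset ℕ, J \ J' ⊆ J₁ ∧ J₁ ⊆ J ∧ 2 ≤ J₁.card ∧
      2 ≤ ((univ.image c) \ J₁).card := by
    by_cases hcA : 2 ≤ (J \ J').card
    · refine ⟨J \ J', Subset.refl _, sdiff_subset, hcA, hJ'.trans (card_le_card ?_)⟩
      intro i hi
      rw [mem_sdiff]
      obtain ⟨x, _, hxi⟩ := hJ0' i hi
      refine ⟨mem_image.2 ⟨x, mem_univ _, hxi⟩, fun h => ?_⟩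
      exact (mem_sdiff.1 h).2 hi
    · obtain ⟨u, hu1, hu2, hu3⟩ := Finset.exists_subsuperset_card_eq
        (sdiff_subset : J \ J' ⊆ J) (by omega : (J \ J').card ≤ 2) hJ
      refine ⟨u, hu1, hu2, hu3.ge, ?_⟩
      have := Finset.le_card_sdiff u (univ.image c)
      omega
  let W : Finset α := univ.filter fun x => c x ∈ J₁
  have hW : ∀ x, x ∈ W ↔ c x ∈ J₁ := fun x => by simp [W]
  have hout : ∀ x, x ∉ W → ∃ x', x' ∉ D ∧ c x' = c x := by
    intro x hx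
    have h1 : c x ∉ J₁ := fun h => hx ((hW x).2 h)
    have h3 : c x ∈ J' := by
      rcases hL x with h | h
      · by_contra hn
        exact h1 (hA (mem_sdiff.2 ⟨h, hn⟩))
      · exact h
    exact hJ0' _ h3
  have hmod : IsMod G W := by
    refine inva_to_mod ?_
    intro z hz w hw x hx x₂ hx₂
    have hz1 : c z ∈ J₁ := (hW z).1 hz
    have hw1 : c w ∈ J₁ := (hW w).1 hw
    have hx1 : c x ∉ J₁ := fun h => hx ((hW x).2 h)
    have hx₂1 : c x₂ ∉ J₁ := fun h => hx₂ ((hW x₂).2 h)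
    obtain ⟨z', hz'D, hz'⟩ := hJ0 _ (hsub hz1)
    obtain ⟨w', hw'D, hw'⟩ := hJ0 _ (hsub hw1)
    obtain ⟨x', hx'D, hx'⟩ := hout x hx
    obtain ⟨x₂', hx₂'D, hx₂'⟩ := hout x₂ hx₂
    have key : ∀ y y' : α, c y' = c y → c y ∉ J₁ →
        ((G.Adj y z ↔ G.Adj y w) ↔ (G.Adj y' z ↔ G.Adj y' w)) := by
      intro y y' hyy hy
      have h := inva_of_mod (hpart (c y)) (z := y) (w := y') (x := z) (x' := w)
        ((hmem _ _).2 rfl) ((hmem _ _).2 hyy)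
        (fun h => hy (by rw [← (hmem _ _).1 h]; exact hz1))
        (fun h => hy (by rw [← (hmem _ _).1 h]; exact hw1))
      rw [G.adj_comm z y, G.adj_comm z y', G.adj_comm w y, G.adj_comm w y'] at h
      exact inva_sym _ _ _ _ h
    have e1 := key x x' hx' hx1
    have e2 := key x₂ x₂' hx₂' hx₂1
    have hx'1 : c x' ∉ J₁ := by rw [hx']; exact hx1
    have hx₂'1 : c x₂' ∉ J₁ := by rw [hx₂']; exact hx₂1
    have f1 : (G.Adj x' z ↔ G.Adj x' z') ↔ (G.Adj x₂' z ↔ G.Adj x₂' z') :=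
      inva_of_mod (hpart (c z)) ((hmem _ _).2 rfl) ((hmem _ _).2 hz')
        (fun h => hx'1 (by rw [(hmem _ _).1 h]; exact hz1))
        (fun h => hx₂'1 (by rw [(hmem _ _).1 h]; exact hz1))
    have f2 : (G.Adj x' z' ↔ G.Adj x' w') ↔ (G.Adj x₂' z' ↔ G.Adj x₂' w') :=
      inva_of_mod hD hz'D hw'D hx'D hx₂'D
    have f3 : (G.Adj x' w' ↔ G.Adj x' w) ↔ (G.Adj x₂' w' ↔ G.Adj x₂' w) :=
      inva_of_mod (hpart (c w)) ((hmem _ _).2 hw') ((hmem _ _).2 rfl)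
        (fun h => hx'1 (by rw [(hmem _ _).1 h]; exact hw1))
        (fun h => hx₂'1 (by rw [(hmem _ _).1 h]; exact hw1))
    rw [e1, e2, inva_tri (G.Adj x' z) (G.Adj x' z') (G.Adj x' w') (G.Adj x' w),
      inva_tri (G.Adj x₂' z) (G.Adj x₂' z') (G.Adj x₂' w') (G.Adj x₂' w), f1, f2, f3]
  have hclosed : ∀ x ∈ W, ∀ y, c y = c x → y ∈ W := by
    intro x hx y hy
    rw [hW, hy]
    exact (hW x).1 hx
  rcases hprime W hmod hclosed with h | h
  · obtain ⟨i, hi, j, hj, hij⟩ := Finset.one_lt_card.1 (by omega : 1 < J₁.card)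
    obtain ⟨x, _, hxi⟩ := hJ0 i (hsub hi)
    obtain ⟨y, _, hyj⟩ := hJ0 j (hsub hj)
    have hxW : x ∈ W := (hW x).2 (by rw [hxi]; exact hi)
    have hyW : y ∈ W := (hW y).2 (by rw [hyj]; exact hj)
    have := h x hxW y hyW
    rw [hxi, hyj] at this
    exact hij this
  · obtain ⟨i, hi, j, hj, hij⟩ := Finset.one_lt_card.1 (by omega : 1 < ((univ.image c) \ J₁).card)
    obtain ⟨x, _, hxi⟩ := mem_image.1 (mem_sdiff.1 hi).1
    obtain ⟨y, _, hyj⟩ := mem_image.1 (mem_sdiff.1 hj).1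
    have hxW : x ∉ W := fun hx => (mem_sdiff.1 hi).2 (by rw [← hxi]; exact (hW x).1 hx)
    have hyW : y ∉ W := fun hy => (mem_sdiff.1 hj).2 (by rw [← hyj]; exact (hW y).1 hy)
    have := h x hxW y hyW
    rw [hxi, hyj] at this
    exact hij this

end Pool.Agent.NTW
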