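import Mathlib
import Pool.Agent.NTW.St

/-!
# DEG: kernel functions have degree at most half
-/

set_option autoImplicit false

namespace Pool.Agent.NTW

open Finset

namespace MDEG

variable {α : Type} [DecidableEq α]

/-- The alternating sum of the translates of `f` by the subsets of `T`. -/
def alt (f : Finset α → ℚ) (T Y : Finset α) : ℚ :=
  ∑ S ∈ T.powerset, (-1 : ℚ) ^ S.card * f (symmDiff Y S)

theorem alt_empty (f : Finset α → ℚ) (T : Finset α) : alt f T ∅ = mob f T := by
  unfold alt mob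
  refine Finset.sum_congr rfl fun S _ => ?_
  have h : symmDiff (∅ : Finset α) S = S := bot_symmDiff S
  rw [h]

/-- Toggling one element changes the sign. -/
theorem sign_toggle (S : Finset α) (i : α) :
    (-1 : ℚ) ^ (symmDiff S {i}).card = -(-1 : ℚ) ^ S.card := by
  by_cases hi : i ∈ S
  · have h : symmDiff S {i} = S.erase i := by
      ext x
      simp only [Finset.mem_symmDiff, Finset.mem_singleton, Finset.mem_erase]
      constructor
      · rintro (⟨h1, h2⟩ | ⟨h1, h2⟩)
        · exact ⟨h2, h1⟩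
        · exact absurd (h1 ▸ hi) h2
      · rintro ⟨h1, h2⟩
        exact Or.inl ⟨h2, h1⟩
    have hc : S.card = (S.erase i).card + 1 := (Finset.card_erase_add_one hi).symm
    rw [h, hc, pow_succ]
    ring
  · have h : symmDiff S {i} = insert i S := by
      ext x
      simp only [Finset.mem_symmDiff, Finset.mem_singleton, Finset.mem_insert]
      constructor
      · rintro (⟨h1, _⟩ | ⟨h1, _⟩)
        · exact Or.inr h1
        · exact Or.inl h1
      · rintro (h1 | h1)
        · exact Or.inr ⟨h1, fun hx => hi (h1 ▸ hx)⟩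
        · exact Or.inl ⟨h1, fun hx => hi (hx ▸ h1)⟩
    rw [h, Finset.card_insert_of_notMem hi, pow_succ]
    ring

theorem toggle_toggle (S : Finset α) (i : α) : symmDiff (symmDiff S {i}) {i} = S :=
  symmDiff_symmDiff_cancel_right {i} S

theorem toggle_subset {T S : Finset α} {i : α} (hi : i ∈ T) (hS : S ⊆ T) :
    symmDiff S {i} ⊆ T := by
  intro x hx
  rcases Finset.mem_symmDiff.1 hx with ⟨h, _⟩ | ⟨h, _⟩
  · exact hS h
  · rw [Finset.mem_singleton.1 h]
    exact hi

theorem alt_toggle (f : Finset α → ℚ) {T : Finset α} (Y : Finset α) {i : α} (hi : i ∈ T) :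
    alt f T (symmDiff Y {i}) = - alt f T Y := by
  unfold alt
  rw [← Finset.sum_neg_distrib]
  refine Finset.sum_nbij' (fun S => symmDiff S {i}) (fun S => symmDiff S {i}) ?_ ?_ ?_ ?_ ?_
  · intro S hS
    exact Finset.mem_powerset.2 (toggle_subset hi (Finset.mem_powerset.1 hS))
  · intro S hS
    exact Finset.mem_powerset.2 (toggle_subset hi (Finset.mem_powerset.1 hS))
  · intro S _
    exact toggle_toggle S i
  · intro S _
    exact toggle_toggle S i
  · intro S _
    have h1 : symmDiff (symmDiff Y {i}) S = symmDiff Y (symmDiff S {i}) := by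
      rw [symmDiff_assoc, symmDiff_comm {i} S]
    have h2 := sign_toggle S i
    rw [h1]
    have h3 : (-1 : ℚ) ^ S.card = - (-1 : ℚ) ^ (symmDiff S {i}).card := by
      rw [h2, neg_neg]
    rw [h3]
    ring

theorem sum_alt [Fintype α] (f : Finset α → ℚ) (T Y : Finset α)
    (hf : ∀ S, ∑ i : α, f (symmDiff S {i}) = 0) : ∑ i : α, alt f T (symmDiff Y {i}) = 0 := by
  unfold alt
  rw [Finset.sum_comm]
  refine Finset.sum_eq_zero fun S _ => ?_
  rw [← Finset.mul_sum]
  have h : ∀ i : α, symmDiff (symmDiff Y {i}) S = symmDiff (symmDiff Y S) {i} := by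
    intro i
    rw [symmDiff_assoc, symmDiff_comm {i} S, ← symmDiff_assoc]
  have h2 : ∑ i : α, f (symmDiff (symmDiff Y {i}) S) = ∑ i : α, f (symmDiff (symmDiff Y S) {i}) :=
    Finset.sum_congr rfl fun i _ => by rw [h i]
  rw [h2, hf, mul_zero]

end MDEG

open MDEG in
theorem t_DEG : S_DEG := by
  intro α _ _ f hf T hT
  obtain ⟨Y, _, hY⟩ := Finset.exists_max_image (Finset.univ : Finset (Finset α))
    (fun Y => |alt f T Y|) ⟨∅, Finset.mem_univ _⟩
  have hsum := sum_alt f T Y hf
  have hsplit : ∑ i ∈ T, alt f T (symmDiff Y {i}) + ∑ i ∈ Tᶜ, alt f T (symmDiff Y {i}) = 0 := by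
    rw [Finset.sum_add_sum_compl, hsum]
  have h1 : ∑ i ∈ T, alt f T (symmDiff Y {i}) = -((T.card : ℚ) * alt f T Y) := by
    rw [Finset.sum_congr rfl fun i hi => alt_toggle f Y hi, Finset.sum_const, nsmul_eq_mul]
    ring
  have h2 : ∑ i ∈ Tᶜ, alt f T (symmDiff Y {i}) = (T.card : ℚ) * alt f T Y := by
    rw [h1] at hsplit
    linarith
  have h3 : |∑ i ∈ Tᶜ, alt f T (symmDiff Y {i})| ≤ (Tᶜ.card : ℚ) * |alt f T Y| := by
    refine (Finset.abs_sum_le_sum_abs _ _).trans ?_
    refine (Finset.sum_le_card_nsmul _ _ |alt f T Y| fun i _ => hY _ (Finset.mem_univ _)).trans ?_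
    rw [nsmul_eq_mul]
  rw [h2, abs_mul, Nat.abs_cast] at h3
  have hc : (Tᶜ.card : ℚ) + (T.card : ℚ) = (Fintype.card α : ℚ) := by
    have h := Finset.card_compl_add_card T
    exact_mod_cast h
  have hT' : (Fintype.card α : ℚ) < 2 * (T.card : ℚ) := by exact_mod_cast hT
  have h4 : |alt f T Y| ≤ 0 := by
    by_contra hcon
    have hpos : 0 < |alt f T Y| := lt_of_not_ge hcon
    have h5 : (T.card : ℚ) ≤ (Tᶜ.card : ℚ) := le_of_mul_le_mul_right h3 hpos
    linarith
  have h6 : |alt f T ∅| ≤ 0 := (hY ∅ (Finset.mem_univ _)).trans h4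
  have h7 : alt f T ∅ = 0 := abs_eq_zero.1 (le_antisymm h6 (abs_nonneg _))
  rw [← alt_empty, h7]

end Pool.Agent.NTW
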