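import Pool.Agent.NTW.St7
import Pool.Agent.NTW.MDEG

/-!
# LEAD: the leading terms of an eigenfunction on one of two blocks
-/

set_option autoImplicit false

namespace Pool.Agent.NTW

open Finset

theorem lead_union {α : Type} [DecidableEq α] (S Y : Finset α) (i : α) (hY : i ∉ Y) :
    symmDiff (S ∪ Y) {i} = symmDiff S {i} ∪ Y := by
  ext x
  simp only [Finset.mem_symmDiff, Finset.mem_union, Finset.mem_singleton]
  by_cases hx : x = i
  · subst hx
    simp [hY]
  · simp [hx]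

theorem lead_toggle {α : Type} [DecidableEq α] (F : Finset α → ℚ) (T : Finset α) (i : α)
    (hi : i ∈ T) :
    ∑ S ∈ T.powerset, (-1 : ℚ) ^ S.card * F (symmDiff S {i}) = - mob F T := by
  unfold mob
  rw [← Finset.sum_neg_distrib]
  refine Finset.sum_nbij' (fun S => symmDiff S {i}) (fun S => symmDiff S {i}) ?_ ?_ ?_ ?_ ?_
  · intro S hS
    exact Finset.mem_powerset.2 (MDEG.toggle_subset hi (Finset.mem_powerset.1 hS))
  · intro S hS
    exact Finset.mem_powerset.2 (MDEG.toggle_subset hi (Finset.mem_powerset.1 hS))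
  · intro S _
    exact MDEG.toggle_toggle S i
  · intro S _
    exact MDEG.toggle_toggle S i
  · intro S _
    rw [MDEG.sign_toggle S i]
    ring

theorem lead_new {α : Type} [DecidableEq α] (F : Finset α → ℚ) (T : Finset α) (i : α)
    (hi : i ∉ T) :
    ∑ S ∈ T.powerset, (-1 : ℚ) ^ S.card * F (symmDiff S {i}) = mob F T - mob F (insert i T) := by
  unfold mob
  rw [Finset.sum_powerset_insert hi]
  have h : ∑ S ∈ T.powerset, (-1 : ℚ) ^ (insert i S).card * F (insert i S) =
      - ∑ S ∈ T.powerset, (-1 : ℚ) ^ S.card * F (symmDiff S {i}) := by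
    rw [← Finset.sum_neg_distrib]
    refine Finset.sum_congr rfl fun S hS => ?_
    have hiS : i ∉ S := fun h => hi (Finset.mem_powerset.1 hS h)
    have h1 : symmDiff S {i} = insert i S := by
      ext x
      simp only [Finset.mem_symmDiff, Finset.mem_singleton, Finset.mem_insert]
      by_cases hx : x = i
      · subst hx
        simp [hiS]
      · simp [hx]
    rw [h1, Finset.card_insert_of_notMem hiS, pow_succ]
    ring
  rw [h]
  ring

theorem lead_exists {α : Type} [DecidableEq α] (U₁ U₂ : Finset α) (h : Finset α → ℚ)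
    (hne : ∃ S ⊆ U₁ ∪ U₂, h S ≠ 0) :
    ∃ T ⊆ U₁, ∃ Y ⊆ U₂, mob (fun S => h (S ∪ Y)) T ≠ 0 := by
  classical
  obtain ⟨S₀, hS₀, hh⟩ := hne
  have hsplit : (S₀ ∩ U₁) ∪ (S₀ ∩ U₂) = S₀ := by
    rw [← Finset.inter_union_distrib_left]
    exact Finset.inter_eq_left.2 hS₀
  have hne' : (U₁.powerset.filter fun X => h (X ∪ (S₀ ∩ U₂)) ≠ 0).Nonempty := by
    refine ⟨S₀ ∩ U₁, ?_⟩
    rw [Finset.mem_filter, Finset.mem_powerset]
    exact ⟨Finset.inter_subset_right, by rw [hsplit]; exact hh⟩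
  obtain ⟨X, hX, hmin⟩ := Finset.exists_min_image _ (fun X => X.card) hne'
  rw [Finset.mem_filter, Finset.mem_powerset] at hX
  refine ⟨X, hX.1, S₀ ∩ U₂, Finset.inter_subset_right, ?_⟩
  unfold mob
  rw [Finset.sum_eq_single X]
  · exact mul_ne_zero (pow_ne_zero _ (by norm_num)) hX.2
  · intro S hS hSX
    rw [Finset.mem_powerset] at hS
    have hlt : S.card < X.card := Finset.card_lt_card (Finset.ssubset_iff_subset_ne.2 ⟨hS, hSX⟩)
    have h0 : h (S ∪ (S₀ ∩ U₂)) = 0 := by
      by_contra hc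
      have := hmin S (by
        rw [Finset.mem_filter, Finset.mem_powerset]
        exact ⟨hS.trans hX.1, hc⟩)
      omega
    simp only [h0, mul_zero]
  · intro hc
    exact absurd (Finset.mem_powerset.2 (Finset.Subset.refl X)) hc

theorem t_LEAD : S_LEAD := by
  classical
  intro α _ U₁ U₂ hdis l h hh hne
  obtain ⟨T₀, hT₀, hY₀⟩ := lead_exists U₁ U₂ h hne
  have hne' : (U₁.powerset.filter fun T => ∃ Y ⊆ U₂, mob (fun S => h (S ∪ Y)) T ≠ 0).Nonempty :=
    ⟨T₀, by rw [Finset.mem_filter, Finset.mem_powerset]; exact ⟨hT₀, hY₀⟩⟩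
  obtain ⟨T, hT, hmax⟩ := Finset.exists_max_image _ (fun T => T.card) hne'
  rw [Finset.mem_filter, Finset.mem_powerset] at hT
  have hzero : ∀ T' ⊆ U₁, T.card < T'.card → ∀ Y ⊆ U₂, mob (fun S => h (S ∪ Y)) T' = 0 := by
    intro T' hT' hlt Y hY
    by_contra hc
    have := hmax T' (by
      rw [Finset.mem_filter, Finset.mem_powerset]
      exact ⟨hT', Y, hY, hc⟩)
    omega
  refine ⟨T, hT.1, hT.2, hzero, ?_⟩
  intro Y hY
  -- the sum at one element
  have hA : l * mob (fun S => h (S ∪ Y)) T =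
      ∑ i ∈ U₁ ∪ U₂, ∑ S ∈ T.powerset, (-1 : ℚ) ^ S.card * h (symmDiff (S ∪ Y) {i}) := by
    rw [Finset.sum_comm]
    unfold mob
    rw [Finset.mul_sum]
    refine Finset.sum_congr rfl fun S hS => ?_
    rw [← Finset.mul_sum]
    have hSY : S ∪ Y ⊆ U₁ ∪ U₂ :=
      Finset.union_subset_union ((Finset.mem_powerset.1 hS).trans hT.1) hY
    rw [hh (S ∪ Y) hSY]
    ring
  have hU₁T : ∀ i ∈ T, ∑ S ∈ T.powerset, (-1 : ℚ) ^ S.card * h (symmDiff (S ∪ Y) {i}) =
      - mob (fun S => h (S ∪ Y)) T := by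
    intro i hi
    have hiY : i ∉ Y := fun hc => Finset.disjoint_left.1 hdis (hT.1 hi) (hY hc)
    rw [← lead_toggle (fun S => h (S ∪ Y)) T i hi]
    exact Finset.sum_congr rfl fun S _ => by rw [lead_union S Y i hiY]
  have hU₁N : ∀ i ∈ U₁ \ T, ∑ S ∈ T.powerset, (-1 : ℚ) ^ S.card * h (symmDiff (S ∪ Y) {i}) =
      mob (fun S => h (S ∪ Y)) T := by
    intro i hi
    rw [Finset.mem_sdiff] at hi
    have hiY : i ∉ Y := fun hc => Finset.disjoint_left.1 hdis hi.1 (hY hc)
    have h1 := lead_new (fun S => h (S ∪ Y)) T i hi.2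
    rw [hzero (insert i T) (Finset.insert_subset hi.1 hT.1)
      (by rw [Finset.card_insert_of_notMem hi.2]; omega) Y hY, sub_zero] at h1
    rw [← h1]
    exact Finset.sum_congr rfl fun S _ => by rw [lead_union S Y i hiY]
  have hU₂ : ∀ i ∈ U₂, ∑ S ∈ T.powerset, (-1 : ℚ) ^ S.card * h (symmDiff (S ∪ Y) {i}) =
      mob (fun S => h (S ∪ symmDiff Y {i})) T := by
    intro i hi
    unfold mob
    refine Finset.sum_congr rfl fun S hS => ?_
    have hiS : i ∉ S := fun hc =>
      Finset.disjoint_left.1 hdis (hT.1 (Finset.mem_powerset.1 hS hc)) hi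
    rw [Finset.union_comm S Y, lead_union Y S i hiS, Finset.union_comm]
  rw [Finset.sum_union hdis, ← Finset.sum_sdiff hT.1, Finset.sum_congr rfl hU₁N,
    Finset.sum_congr rfl hU₁T, Finset.sum_congr rfl hU₂, Finset.sum_const, Finset.sum_const,
    nsmul_eq_mul, nsmul_eq_mul] at hA
  have hcard : ((U₁ \ T).card : ℚ) + (T.card : ℚ) = (U₁.card : ℚ) := by
    exact_mod_cast Finset.card_sdiff_add_card_eq_card hT.1
  have hcard' : ((U₁ \ T).card : ℚ) = (U₁.card : ℚ) - (T.card : ℚ) := by linarith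
  rw [hcard'] at hA
  linarith

end Pool.Agent.NTW
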