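import Pool.Agent.NTW.St6

/-!
# NTW, module MOD (helper52): complements and unions of modules
-/

set_option autoImplicit false

namespace Pool.Agent.NTW

open Finset

theorem mod_iff {α : Type} (G : SimpleGraph α) (C : Finset α) : IsMod G C ↔
    ∀ z ∈ C, ∀ w ∈ C, ∀ x, x ∉ C → ∀ x', x' ∉ C →
      ((G.Adj x z ↔ G.Adj x w) ↔ (G.Adj x' z ↔ G.Adj x' w)) := by
  constructor
  · intro h z hz w hw x hx x' hx'
    rcases h z hz w hw with h1 | h1
    · exact iff_of_true (h1 x hx) (h1 x' hx')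
    · exact iff_of_false (h1 x hx) (h1 x' hx')
  · intro h z hz w hw
    by_cases h1 : ∃ x, x ∉ C ∧ (G.Adj x z ↔ G.Adj x w)
    · obtain ⟨x, hx, h2⟩ := h1
      exact Or.inl fun x' hx' => (h z hz w hw x hx x' hx').mp h2
    · exact Or.inr fun x hx h2 => h1 ⟨x, hx, h2⟩

theorem t_MOD : S_MOD := by
  intro α _ _ G C D
  refine ⟨fun hC => ?_, fun hC hD hne => ?_⟩
  · rw [mod_iff] at hC ⊢
    intro x hx x' hx' z hz w hw
    rw [Finset.mem_compl] at hx hx' hz hw
    rw [not_not] at hz hw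
    have h := hC z hz w hw x hx x' hx'
    rw [G.adj_comm z x, G.adj_comm z x', G.adj_comm w x, G.adj_comm w x']
    tauto
  · rw [mod_iff] at hC hD ⊢
    obtain ⟨u, hu⟩ := hne
    obtain ⟨huC, huD⟩ := Finset.mem_inter.mp hu
    have key : ∀ z ∈ C ∪ D, ∀ x, x ∉ C ∪ D → ∀ x', x' ∉ C ∪ D →
        ((G.Adj x z ↔ G.Adj x u) ↔ (G.Adj x' z ↔ G.Adj x' u)) := by
      intro z hz x hx x' hx'
      rw [Finset.mem_union, not_or] at hx hx'
      rcases Finset.mem_union.mp hz with h | h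
      · exact hC z h u huC x hx.1 x' hx'.1
      · exact hD z h u huD x hx.2 x' hx'.2
    intro z hz w hw x hx x' hx'
    have h1 := key z hz x hx x' hx'
    have h2 := key w hw x hx x' hx'
    tauto

end Pool.Agent.NTW
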