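import Mathlib
import Pool.Agent.NTW.St6

set_option autoImplicit false

/-!
# MP_e73337_co, PROD: product over the groups of parts (helper27)
-/

namespace Pool.Agent.NTW

open Finset

/-- `τ` on the set of the points whose label satisfies `Q`, the identity elsewhere. -/
def prodPerm {α : Type} (c : α → ℕ) (τ : Equiv.Perm α) (hτ : ∀ x, c (τ x) = c x) (Q : ℕ → Prop)
    [DecidablePred Q] : Equiv.Perm α where
  toFun x := if Q (c x) then τ x else x
  invFun x := if Q (c x) then τ.symm x else x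
  left_inv x := by
    by_cases h : Q (c x)
    · simp [h, hτ]
    · simp [h]
  right_inv x := by
    have h2 : c (τ.symm x) = c x := by
      have := hτ (τ.symm x)
      rw [Equiv.apply_symm_apply] at this
      exact this.symm
    by_cases h : Q (c x)
    · simp [h, h2]
    · simp [h]

theorem prodPerm_apply {α : Type} (c : α → ℕ) (τ : Equiv.Perm α) (hτ : ∀ x, c (τ x) = c x)
    (Q : ℕ → Prop) [DecidablePred Q] (x : α) :
    prodPerm c τ hτ Q x = if Q (c x) then τ x else x := rfl

theorem prodPerm_mem {α : Type} (G : SimpleGraph α) (c : α → ℕ) (hT : TrueMod G c)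
    (τ : Equiv.Perm α) (hτ : τ ∈ NP G c) (Q : ℕ → Prop) [DecidablePred Q] :
    prodPerm c τ hτ.1 Q ∈ NP G c := by
  refine ⟨fun x => ?_, fun u v => ?_⟩
  · rw [prodPerm_apply]
    split_ifs
    · exact hτ.1 x
    · rfl
  · rw [prodPerm_apply, prodPerm_apply]
    split_ifs with h1 h2 h2
    · exact hτ.2 u v
    · have h3 : c v ≠ c (τ u) := by
        rw [hτ.1 u]
        intro h
        exact h2 (h ▸ h1)
      rw [G.adj_comm (τ u) v, G.adj_comm u v]
      exact hT v (τ u) u (hτ.1 u) h3
    · have h3 : c u ≠ c (τ v) := by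
        rw [hτ.1 v]
        intro h
        exact h1 (h ▸ h2)
      exact hT u (τ v) v (hτ.1 v) h3
    · exact Iff.rfl

theorem prod_map_filter {α : Type} (c : α → ℕ) (τ : Equiv.Perm α)
    (hτ : ∀ x, c (τ x) = c x) (Q : ℕ → Prop) [DecidablePred Q] (S : Finset α) :
    (S.map τ.toEmbedding).filter (fun x => Q (c x)) =
      (S.filter (fun x => Q (c x))).map τ.toEmbedding := by
  ext x
  simp only [Finset.mem_filter, Finset.mem_map, Equiv.coe_toEmbedding]
  constructor
  · rintro ⟨⟨y, hy, rfl⟩, h⟩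
    exact ⟨y, ⟨hy, by rwa [hτ] at h⟩, rfl⟩
  · rintro ⟨y, ⟨hy, h⟩, rfl⟩
    exact ⟨⟨y, hy, rfl⟩, by rwa [hτ]⟩

/-- moving only the points with `Q` -/
theorem prod_map_perm {α : Type} [DecidableEq α] (c : α → ℕ) (τ : Equiv.Perm α)
    (hτ : ∀ x, c (τ x) = c x) (Q : ℕ → Prop) [DecidablePred Q] (S T : Finset α)
    (hS : ∀ x ∈ S, Q (c x)) (hT : ∀ x ∈ T, ¬ Q (c x)) :
    (S ∪ T).map (prodPerm c τ hτ Q).toEmbedding = S.map τ.toEmbedding ∪ T := by
  ext x
  simp only [Finset.mem_map, Finset.mem_union, Equiv.coe_toEmbedding, prodPerm_apply]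
  constructor
  · rintro ⟨y, hy | hy, rfl⟩
    · rw [if_pos (hS y hy)]
      exact Or.inl ⟨y, hy, rfl⟩
    · rw [if_neg (hT y hy)]
      exact Or.inr hy
  · rintro (⟨y, hy, rfl⟩ | hx)
    · exact ⟨y, Or.inl hy, by rw [if_pos (hS y hy)]⟩
    · exact ⟨x, Or.inr hx, by rw [if_neg (hT x hx)]⟩

theorem prod_ind {α : Type} [Fintype α] [DecidableEq α] (G : SimpleGraph α) (c : α → ℕ)
    (hG : TrueMod G c) (o k : ℕ → ℕ)
    (HP : ∀ (a : ℕ) (h : Finset α → ℚ),
      (∀ S ⊆ univ.filter (fun x => o (c x) = a),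
        ∑ i ∈ univ.filter (fun x => o (c x) = a), h (symmDiff S {i}) = 0) →
      (∃ S ⊆ univ.filter (fun x => o (c x) = a), h S ≠ 0) →
      (∀ τ ∈ NP G c, ∀ S ⊆ univ.filter (fun x => o (c x) = a), h (S.map τ.toEmbedding) = h S) →
      ∃ 𝒯 : Finset (Finset α), (∀ X ∈ 𝒯, X ⊆ univ.filter (fun x => o (c x) = a) ∧ h X ≠ 0) ∧
        (∀ X ∈ 𝒯, ∀ X' ∈ 𝒯, (∃ τ ∈ NP G c, X' = X.map τ.toEmbedding) → X = X') ∧
        2 ^ k a ≤ 𝒯.card ^ 2) (I : Finset ℕ) :
    ∀ φ : Finset α → ℚ,
      (∀ a ∈ I, ∀ S ⊆ univ.filter (fun x => o (c x) ∈ I),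
        ∑ i ∈ univ.filter (fun x => o (c x) = a), φ (symmDiff S {i}) = 0) →
      (∃ S ⊆ univ.filter (fun x => o (c x) ∈ I), φ S ≠ 0) →
      (∀ τ ∈ NP G c, ∀ S ⊆ univ.filter (fun x => o (c x) ∈ I), φ (S.map τ.toEmbedding) = φ S) →
      ∃ 𝒯 : Finset (Finset α), (∀ X ∈ 𝒯, X ⊆ univ.filter (fun x => o (c x) ∈ I) ∧ φ X ≠ 0) ∧
        (∀ X ∈ 𝒯, ∀ X' ∈ 𝒯, (∃ τ ∈ NP G c, X' = X.map τ.toEmbedding) → X = X') ∧
        2 ^ (∑ a ∈ I, k a) ≤ 𝒯.card ^ 2 := by
  induction I using Finset.induction_on with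
  | empty =>
    rintro φ _ ⟨S, hS, hφ⟩ _
    have hS' : S = ∅ := by
      have : univ.filter (fun x : α => o (c x) ∈ (∅ : Finset ℕ)) = ∅ := by simp
      rw [this] at hS
      exact Finset.subset_empty.1 hS
    subst hS'
    refine ⟨{∅}, ?_, ?_, by simp⟩
    · intro X hX
      rw [Finset.mem_singleton.1 hX]
      exact ⟨Finset.empty_subset _, hφ⟩
    · intro X hX X' hX' _
      rw [Finset.mem_singleton.1 hX, Finset.mem_singleton.1 hX']
  | insert a I ha ih =>
    rintro φ hsum ⟨S₀, hS₀, hφ⟩ hinv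
    set V : Finset α := univ.filter (fun x => o (c x) = a) with hV
    set U : Finset α := univ.filter (fun x => o (c x) ∈ I) with hU
    set U' : Finset α := univ.filter (fun x => o (c x) ∈ insert a I) with hU'
    have mV : ∀ x, x ∈ V ↔ o (c x) = a := by intro x; simp [hV]
    have mU : ∀ x, x ∈ U ↔ o (c x) ∈ I := by intro x; simp [hU]
    have mU' : ∀ x, x ∈ U' ↔ o (c x) = a ∨ o (c x) ∈ I := by intro x; simp [hU']
    have hVU : ∀ x, x ∈ V → x ∉ U := by
      intro x hx hx'
      rw [mV] at hx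
      rw [mU, hx] at hx'
      exact ha hx'
    have hVs : V ⊆ U' := fun x hx => (mU' x).2 (Or.inl ((mV x).1 hx))
    have hUs : U ⊆ U' := fun x hx => (mU' x).2 (Or.inr ((mU x).1 hx))
    have hU'V : ∀ x, x ∈ U' → x ∉ V → x ∈ U := by
      intro x hx hx'
      rcases (mU' x).1 hx with h | h
      · exact absurd ((mV x).2 h) hx'
      · exact (mU x).2 h
    have mapV : ∀ τ ∈ NP G c, ∀ S ⊆ V, S.map τ.toEmbedding ⊆ V := by
      intro τ hτ S hS x hx
      obtain ⟨y, hy, rfl⟩ := Finset.mem_map.1 hx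
      rw [mV, Equiv.coe_toEmbedding, hτ.1 y]
      exact (mV y).1 (hS hy)
    have mapU : ∀ τ ∈ NP G c, ∀ S ⊆ U, S.map τ.toEmbedding ⊆ U := by
      intro τ hτ S hS x hx
      obtain ⟨y, hy, rfl⟩ := Finset.mem_map.1 hx
      rw [mU, Equiv.coe_toEmbedding, hτ.1 y]
      exact (mU y).1 (hS hy)
    have hR : S₀ \ V ⊆ U := by
      intro x hx
      rw [Finset.mem_sdiff] at hx
      exact hU'V x (hS₀ hx.1) hx.2
    -- the block `a`
    obtain ⟨Ta, hTa1, hTa2, hTa3⟩ := HP a (fun X => φ ((X ∩ V) ∪ (S₀ \ V))) (by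
        intro S hS
        rw [← hsum a (Finset.mem_insert_self a I) (S ∪ (S₀ \ V))
          (Finset.union_subset (hS.trans hVs) (hR.trans hUs))]
        refine Finset.sum_congr rfl fun i hi => ?_
        show φ _ = φ _
        congr 1
        ext x
        have hi' : i ∈ V := hi
        simp only [Finset.mem_union, Finset.mem_inter, Finset.mem_symmDiff, Finset.mem_singleton,
          Finset.mem_sdiff]
        by_cases hx : x ∈ V
        · simp only [hx, and_true, not_true, and_false, or_false]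
        · have h1 : x ≠ i := fun h => hx (h ▸ hi')
          have h2 : x ∉ S := fun h => hx (hS h)
          simp only [hx, h1, h2, and_false, false_or, or_false, not_false_iff, and_true,
            false_and])
      ⟨S₀ ∩ V, Finset.inter_subset_right, by
        show φ _ ≠ 0
        have : (S₀ ∩ V ∩ V) ∪ (S₀ \ V) = S₀ := by
          rw [Finset.inter_assoc, Finset.inter_self]
          ext x
          simp only [Finset.mem_union, Finset.mem_inter, Finset.mem_sdiff]
          tauto
        rw [this]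
        exact hφ⟩ (by
        intro τ hτ S hS
        show φ _ = φ _
        have h1 : S.map τ.toEmbedding ∩ V = S.map τ.toEmbedding :=
          Finset.inter_eq_left.2 (mapV τ hτ S hS)
        have h2 : S ∩ V = S := Finset.inter_eq_left.2 hS
        rw [h1, h2, ← prod_map_perm c τ hτ.1 (fun m => o m = a) S (S₀ \ V)
          (fun x hx => (mV x).1 (hS hx))
          (fun x hx => fun h => (Finset.mem_sdiff.1 hx).2 ((mV x).2 h))]
        exact hinv _ (prodPerm_mem G c hG τ hτ _) _
          (Finset.union_subset (hS.trans hVs) (hR.trans hUs)))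
    have hX : ∀ X, ∃ T : Finset (Finset α), X ∈ Ta →
        (∀ Y ∈ T, Y ⊆ U ∧ φ (X ∪ (Y ∩ U)) ≠ 0) ∧
        (∀ Y ∈ T, ∀ Y' ∈ T, (∃ τ ∈ NP G c, Y' = Y.map τ.toEmbedding) → Y = Y') ∧
        2 ^ (∑ b ∈ I, k b) ≤ T.card ^ 2 := by
      intro X
      by_cases hXT : X ∈ Ta
      · obtain ⟨hXV, hXφ⟩ := hTa1 X hXT
        obtain ⟨T, h1, h2, h3⟩ := ih (fun Y => φ (X ∪ (Y ∩ U))) (by
            intro b hb S hS
            rw [← hsum b (Finset.mem_insert_of_mem hb) (X ∪ S)
              (Finset.union_subset (hXV.trans hVs) (hS.trans hUs))]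
            refine Finset.sum_congr rfl fun i hi => ?_
            show φ _ = φ _
            congr 1
            ext x
            have hi' : i ∈ U := by
              rw [mU]
              have := (Finset.mem_filter.1 hi).2
              rw [this]
              exact hb
            simp only [Finset.mem_union, Finset.mem_inter, Finset.mem_symmDiff,
              Finset.mem_singleton]
            by_cases hx : x ∈ U
            · have h2 : x ∉ X := fun h => hVU x (hXV h) hx
              simp only [hx, h2, and_true, false_or]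
            · have h1 : x ≠ i := fun h => hx (h ▸ hi')
              have h2 : x ∉ S := fun h => hx (hS h)
              simp only [hx, h1, h2, and_false, or_false, not_false_iff, and_true, false_and])
          ⟨S₀ \ V, hR, by
            show φ _ ≠ 0
            have h4 : (S₀ \ V) ∩ U = S₀ \ V := Finset.inter_eq_left.2 hR
            have h5 : X ∩ V = X := Finset.inter_eq_left.2 hXV
            rw [h4]
            rw [h5] at hXφ
            exact hXφ⟩ (by
            intro τ hτ S hS
            show φ _ = φ _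
            have h4 : S.map τ.toEmbedding ∩ U = S.map τ.toEmbedding :=
              Finset.inter_eq_left.2 (mapU τ hτ S hS)
            have h5 : S ∩ U = S := Finset.inter_eq_left.2 hS
            rw [h4, h5, Finset.union_comm X, Finset.union_comm X,
              ← prod_map_perm c τ hτ.1 (fun m => ¬ o m = a) S X
              (fun x hx => fun h => hVU x ((mV x).2 h) (hS hx))
              (fun x hx => fun h => h ((mV x).1 (hXV hx)))]
            exact hinv _ (prodPerm_mem G c hG τ hτ _) _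
              (Finset.union_subset (hS.trans hUs) (hXV.trans hVs)))
        exact ⟨T, fun _ => ⟨h1, h2, h3⟩⟩
      · exact ⟨∅, fun h => absurd h hXT⟩
    choose T hT using hX
    -- recover the two pieces
    have rec1 : ∀ X Y : Finset α, X ⊆ V → Y ⊆ U → (X ∪ Y).filter (fun x => o (c x) = a) = X := by
      intro X Y hX hY
      ext x
      simp only [Finset.mem_filter, Finset.mem_union]
      constructor
      · rintro ⟨h | h, h'⟩
        · exact h
        · exact absurd (hY h) (hVU x ((mV x).2 h'))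
      · intro h
        exact ⟨Or.inl h, (mV x).1 (hX h)⟩
    have rec2 : ∀ X Y : Finset α, X ⊆ V → Y ⊆ U → (X ∪ Y).filter (fun x => ¬ o (c x) = a) = Y := by
      intro X Y hX hY
      ext x
      simp only [Finset.mem_filter, Finset.mem_union]
      constructor
      · rintro ⟨h | h, h'⟩
        · exact absurd ((mV x).1 (hX h)) h'
        · exact h
      · intro h
        exact ⟨Or.inr h, fun h' => hVU x ((mV x).2 h') (hY h)⟩
    refine ⟨(Ta.sigma T).image (fun p => p.1 ∪ p.2), ?_, ?_, ?_⟩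
    · intro Z hZ
      obtain ⟨⟨X, Y⟩, hp, rfl⟩ := Finset.mem_image.1 hZ
      obtain ⟨hXT, hYT⟩ := Finset.mem_sigma.1 hp
      obtain ⟨hY1, hY2⟩ := (hT X hXT).1 Y hYT
      have h5 : Y ∩ U = Y := Finset.inter_eq_left.2 hY1
      rw [h5] at hY2
      exact ⟨Finset.union_subset ((hTa1 X hXT).1.trans hVs) (hY1.trans hUs), hY2⟩
    · rintro Z hZ Z' hZ' ⟨τ, hτ, hm⟩
      obtain ⟨⟨X, Y⟩, hp, rfl⟩ := Finset.mem_image.1 hZ
      obtain ⟨hXT, hYT⟩ := Finset.mem_sigma.1 hp
      obtain ⟨⟨X', Y'⟩, hp', rfl⟩ := Finset.mem_image.1 hZ'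
      obtain ⟨hXT', hYT'⟩ := Finset.mem_sigma.1 hp'
      dsimp only at hXT hYT hXT' hYT' hm ⊢
      have hX1 := (hTa1 X hXT).1
      have hX1' := (hTa1 X' hXT').1
      have hY1 := ((hT X hXT).1 Y hYT).1
      have hY1' := ((hT X' hXT').1 Y' hYT').1
      have e1 : X' = X.map τ.toEmbedding := by
        rw [← rec1 X' Y' hX1' hY1', hm, prod_map_filter c τ hτ.1 (fun m => o m = a),
          rec1 X Y hX1 hY1]
      have e2 : Y' = Y.map τ.toEmbedding := by
        rw [← rec2 X' Y' hX1' hY1', hm, prod_map_filter c τ hτ.1 (fun m => ¬ o m = a),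
          rec2 X Y hX1 hY1]
      have e3 : X = X' := hTa2 X hXT X' hXT' ⟨τ, hτ, e1⟩
      subst e3
      have e4 : Y = Y' := (hT X hXT).2.1 Y hYT Y' hYT' ⟨τ, hτ, e2⟩
      rw [e4]
    · have hinj : Set.InjOn (fun p : (_ : Finset α) × Finset α => p.1 ∪ p.2)
          ((Ta.sigma T : Finset ((_ : Finset α) × Finset α)) :
            Set ((_ : Finset α) × Finset α)) := by
        rintro ⟨X, Y⟩ hp ⟨X', Y'⟩ hp' he
        obtain ⟨hXT, hYT⟩ := Finset.mem_sigma.1 (Finset.mem_coe.1 hp)
        obtain ⟨hXT', hYT'⟩ := Finset.mem_sigma.1 (Finset.mem_coe.1 hp')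
        dsimp only at hXT hYT hXT' hYT' he
        have hX1 := (hTa1 X hXT).1
        have hX1' := (hTa1 X' hXT').1
        have hY1 := ((hT X hXT).1 Y hYT).1
        have hY1' := ((hT X' hXT').1 Y' hYT').1
        have e1 : X = X' := by rw [← rec1 X Y hX1 hY1, he, rec1 X' Y' hX1' hY1']
        have e2 : Y = Y' := by rw [← rec2 X Y hX1 hY1, he, rec2 X' Y' hX1' hY1']
        rw [e1, e2]
      rw [Finset.card_image_of_injOn hinj, Finset.card_sigma, Finset.sum_insert ha, pow_add]
      have hne : Ta.Nonempty := by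
        rw [Finset.nonempty_iff_ne_empty]
        rintro rfl
        have : 0 < 2 ^ k a := by positivity
        simp at hTa3
      obtain ⟨X₀, hX₀, hmin⟩ := Finset.exists_min_image Ta (fun X => (T X).card) hne
      have h1 : Ta.card * (T X₀).card ≤ ∑ X ∈ Ta, (T X).card := by
        rw [← smul_eq_mul]
        exact Finset.card_nsmul_le_sum _ _ _ hmin
      have h2 := (hT X₀ hX₀).2.2
      calc 2 ^ k a * 2 ^ (∑ b ∈ I, k b) ≤ Ta.card ^ 2 * (T X₀).card ^ 2 :=
            Nat.mul_le_mul hTa3 h2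
        _ = (Ta.card * (T X₀).card) ^ 2 := by ring
        _ ≤ _ := Nat.pow_le_pow_left h1 2

theorem t_PROD : S_PROD := by
  intro α _ _ G c hG o k HP φ hsum hne hinv
  obtain ⟨S, hS⟩ := hne
  have hun : univ.filter (fun x : α => o (c x) ∈ univ.image (fun x : α => o (c x))) = univ := by
    ext x
    simp
  obtain ⟨T, h1, h2, h3⟩ := prod_ind G c hG o k HP (univ.image (fun x : α => o (c x))) φ
    (fun a _ S _ => hsum a S) ⟨S, by rw [hun]; exact Finset.subset_univ _, hS⟩
    (fun τ hτ S _ => hinv τ hτ S)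
  exact ⟨T, fun X hX => (h1 X hX).2, h2, h3⟩

end Pool.Agent.NTW
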