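import Mathlib
import Pool.Agent.NTW.St7
import Pool.Agent.NTW.MPROD

set_option autoImplicit false

/-!
# MP_e73337_co, PBL2: two size classes of parts at once (helper53)
-/

namespace Pool.Agent.NTW

open Finset Pool.Agent.Lib_helper61.SwitchBasic

theorem pbl2_sgn {α : Type} [DecidableEq α] (S : Finset α) (i : α) :
    (-1 : ℚ) ^ (symmDiff S {i}).card = -(-1) ^ S.card := by
  by_cases hi : i ∈ S
  · have h1 : symmDiff S {i} = S.erase i := by
      ext x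
      simp only [Finset.mem_symmDiff, Finset.mem_singleton, Finset.mem_erase]
      constructor
      · rintro (⟨h, h'⟩ | ⟨h, h'⟩)
        · exact ⟨h', h⟩
        · exact absurd (h ▸ hi) h'
      · rintro ⟨h, h'⟩
        exact Or.inl ⟨h', h⟩
    have h2 := Finset.card_erase_add_one hi
    rw [h1, ← h2, pow_succ]
    ring
  · have h1 : symmDiff S {i} = insert i S := by
      ext x
      simp only [Finset.mem_symmDiff, Finset.mem_singleton, Finset.mem_insert]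
      constructor
      · rintro (⟨h, h'⟩ | ⟨h, h'⟩)
        · exact Or.inr h
        · exact Or.inl h
      · rintro (h | h)
        · exact Or.inr ⟨h, fun h' => hi (h ▸ h')⟩
        · exact Or.inl ⟨h, fun h' => hi (h' ▸ h)⟩
    rw [h1, Finset.card_insert_of_notMem hi, pow_succ]
    ring

theorem pbl2_lead0 (hLEAD : S_LEAD) {α : Type} [DecidableEq α] (U : Finset α) (l : ℚ)
    (g : Finset α → ℚ) (hg : ∀ S ⊆ U, ∑ i ∈ U, g (symmDiff S {i}) = l * g S)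
    (hne : ∃ S ⊆ U, g S ≠ 0) :
    ∃ T ⊆ U, mob g T ≠ 0 ∧ DegLE U T.card g ∧ l + 2 * (T.card : ℚ) = (U.card : ℚ) := by
  obtain ⟨T, hT, ⟨Y, hY, h1⟩, h2, h3⟩ := hLEAD α U ∅ (Finset.disjoint_empty_right U) l g
    (by simpa using hg) (by simpa using hne)
  have hY0 : Y = ∅ := Finset.subset_empty.1 hY
  subst hY0
  have e : (fun S => g (S ∪ ∅)) = g := by
    funext S
    rw [Finset.union_empty]
  rw [e] at h1
  refine ⟨T, hT, h1, fun T' hT' hc => ?_, ?_⟩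
  · have := h2 T' hT' hc ∅ (Finset.empty_subset _)
    rwa [e] at this
  · have h4 := h3 ∅ (Finset.empty_subset _)
    rw [Finset.sum_empty, e] at h4
    have h5 : l + 2 * (T.card : ℚ) - (U.card : ℚ) = 0 := by
      rcases mul_eq_zero.1 h4.symm with h | h
      · exact h
      · exact absurd h h1
    linarith

/-- membership in a union of parts through the labels -/
theorem pbl2_mem {α : Type} [DecidableEq α] (c : α → ℕ) (U : Finset α)
    (hU : ∀ x ∈ U, ∀ y, c y = c x → y ∈ U) (x : α) : c x ∈ U.image c ↔ x ∈ U := by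
  constructor
  · intro h
    obtain ⟨y, hy, he⟩ := Finset.mem_image.1 h
    exact hU y hy x he.symm
  · intro h
    exact Finset.mem_image_of_mem c h

theorem pbl2_card {α : Type} [Fintype α] [DecidableEq α] (c : α → ℕ) (U : Finset α) (n : ℕ)
    (hU : ∀ x ∈ U, ∀ y, c y = c x → y ∈ U)
    (hn : ∀ x ∈ U, (univ.filter fun y => c y = c x).card = n) :
    U.card = (U.image c).card * n := by
  rw [Finset.card_eq_sum_card_image c U, ← smul_eq_mul, ← Finset.sum_const]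
  refine Finset.sum_congr rfl fun m hm => ?_
  obtain ⟨x, hx, rfl⟩ := Finset.mem_image.1 hm
  rw [← hn x hx]
  congr 1
  ext y
  simp only [Finset.mem_filter, Finset.mem_univ, true_and]
  exact ⟨fun h => h.2, fun h => ⟨hU x hx y h, h⟩⟩

/-- Part (A). -/
theorem pbl2_main (hUBLK : S_UBLK) (hLEAD : S_LEAD) {α : Type} [Fintype α] [DecidableEq α]
    (G : SimpleGraph α) (c : α → ℕ) (hG : TrueMod G c) (U₁ U₂ : Finset α) (n₁ n₂ : ℕ)
    (hn₁ : 1 ≤ n₁) (hn₂ : 1 ≤ n₂) (hd : Disjoint U₁ U₂)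
    (hU₁ : ∀ x ∈ U₁, ∀ y, c y = c x → y ∈ U₁) (hU₂ : ∀ x ∈ U₂, ∀ y, c y = c x → y ∈ U₂)
    (hs₁ : ∀ x ∈ U₁, (univ.filter fun y => c y = c x).card = n₁)
    (hs₂ : ∀ x ∈ U₂, (univ.filter fun y => c y = c x).card = n₂)
    (h : Finset α → ℚ) (hh : ∀ S ⊆ U₁ ∪ U₂, ∑ i ∈ U₁ ∪ U₂, h (symmDiff S {i}) = 0)
    (hne : ∃ S ⊆ U₁ ∪ U₂, h S ≠ 0)
    (hinv : ∀ τ ∈ NP G c, ∀ S ⊆ U₁ ∪ U₂, h (S.map τ.toEmbedding) = h S) :
    ∃ (T : Finset α) (t : ℕ), T ⊆ U₁ ∧ t ≤ U₂.card ∧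
      2 * (T.card + t) = U₁.card + U₂.card ∧
      (∃ Y ⊆ U₂, mob (fun S => h (S ∪ Y)) T ≠ 0) ∧
      (∀ T' ⊆ U₁, T.card < T'.card → ∀ Y ⊆ U₂, mob (fun S => h (S ∪ Y)) T' = 0) ∧
      (∀ Y ⊆ U₂, ∑ i ∈ U₂, mob (fun S => h (S ∪ symmDiff Y {i})) T =
        (2 * T.card - U₁.card) * mob (fun S => h (S ∪ Y)) T) ∧
      ∃ 𝒯 : Finset (Finset α), (∀ X ∈ 𝒯, X ⊆ U₁ ∪ U₂ ∧ h X ≠ 0) ∧
      (∀ X ∈ 𝒯, ∀ X' ∈ 𝒯, (∃ τ ∈ NP G c, X' = X.map τ.toEmbedding) → X = X') ∧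
      2 ^ (n₁ * (U₂.card - t) + n₂ * (U₁.card - T.card)) ≤ 𝒯.card ^ (n₁ * n₂) := by
  obtain ⟨T, hT, ⟨Y₀, hY₀, hY₀'⟩, hmax, hsum⟩ := hLEAD α U₁ U₂ hd 0 h
    (fun S hS => by rw [hh S hS, zero_mul]) hne
  have hsum' : ∀ Y ⊆ U₂, ∑ i ∈ U₂, mob (fun S => h (S ∪ symmDiff Y {i})) T =
        (2 * T.card - U₁.card) * mob (fun S => h (S ∪ Y)) T := by
    intro Y hY
    rw [hsum Y hY, zero_add]
  set g : Finset α → ℚ := fun Y => mob (fun S => h (S ∪ Y)) T with hg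
  obtain ⟨T₂, hT₂, hm₂, hdeg₂, hl₂⟩ := pbl2_lead0 hLEAD U₂ (2 * T.card - U₁.card) g hsum'
    ⟨Y₀, hY₀, hY₀'⟩
  have hnum : 2 * (T.card + T₂.card) = U₁.card + U₂.card := by
    have : (2 * ((T.card : ℚ) + T₂.card)) = U₁.card + U₂.card := by linarith
    exact_mod_cast this
  -- membership
  have m1 := pbl2_mem c U₁ hU₁
  have m2 := pbl2_mem c U₂ hU₂
  have hd' : ∀ x, x ∈ U₁ → x ∉ U₂ := fun x h1 h2 => Finset.disjoint_left.1 hd h1 h2
  -- invariance in the two variables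
  have inv2 : ∀ τ ∈ NP G c, ∀ S ⊆ U₁, ∀ Y ⊆ U₂, h (S ∪ Y.map τ.toEmbedding) = h (S ∪ Y) := by
    intro τ hτ S hS Y hY
    rw [Finset.union_comm S, Finset.union_comm S,
      ← prod_map_perm c τ hτ.1 (fun m => m ∈ U₂.image c) Y S
        (fun x hx => (m2 x).2 (hY hx)) (fun x hx hx' => hd' x (hS hx) ((m2 x).1 hx'))]
    exact hinv _ (prodPerm_mem G c hG τ hτ _) _
      (Finset.union_subset (hY.trans Finset.subset_union_right)
        (hS.trans Finset.subset_union_left))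
  have inv1 : ∀ τ ∈ NP G c, ∀ S ⊆ U₁, ∀ Y ⊆ U₂, h (S.map τ.toEmbedding ∪ Y) = h (S ∪ Y) := by
    intro τ hτ S hS Y hY
    rw [← prod_map_perm c τ hτ.1 (fun m => m ∈ U₁.image c) S Y
        (fun x hx => (m1 x).2 (hS hx)) (fun x hx hx' => hd' x ((m1 x).1 hx') (hY hx))]
    exact hinv _ (prodPerm_mem G c hG τ hτ _) _
      (Finset.union_subset (hS.trans Finset.subset_union_left)
        (hY.trans Finset.subset_union_right))
  -- the family on `U₂`
  obtain ⟨T2, hT2a, hT2b, hT2c⟩ := hUBLK α G c hG U₂ n₂ T₂.card hn₂ hU₂ hs₂ g hdeg₂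
    ⟨Y₀, hY₀, hY₀'⟩ (by
      intro τ hτ X hX
      show mob _ T = mob _ T
      unfold mob
      refine Finset.sum_congr rfl fun S hS => ?_
      show _ * h _ = _ * h _
      rw [inv2 τ hτ S ((Finset.mem_powerset.1 hS).trans hT) X hX])
  -- the families on `U₁`
  have hX : ∀ Y, ∃ F : Finset (Finset α), Y ∈ T2 →
      (∀ X ∈ F, X ⊆ U₁ ∧ h (X ∪ Y) ≠ 0) ∧
      (∀ X ∈ F, ∀ X' ∈ F, (∃ τ ∈ NP G c, X' = X.map τ.toEmbedding) → X = X') ∧
      2 ^ (U₁.card - T.card) ≤ F.card ^ n₁ := by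
    intro Y
    by_cases hY : Y ∈ T2
    · obtain ⟨hYU, hYg⟩ := hT2a Y hY
      obtain ⟨F, h1, h2, h3⟩ := hUBLK α G c hG U₁ n₁ T.card hn₁ hU₁ hs₁ (fun S => h (S ∪ Y))
        (fun T' hT' hc => hmax T' hT' hc Y hYU) (by
          by_contra hcon
          push Not at hcon
          apply hYg
          show mob (fun S => h (S ∪ Y)) T = 0
          unfold mob
          refine Finset.sum_eq_zero fun S hS => ?_
          have := hcon S ((Finset.mem_powerset.1 hS).trans hT)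
          show _ * h _ = 0
          rw [this, mul_zero])
        (fun τ hτ X hX => inv1 τ hτ X hX Y hYU)
      exact ⟨F, fun _ => ⟨h1, h2, h3⟩⟩
    · exact ⟨∅, fun h' => absurd h' hY⟩
  choose F hF using hX
  -- recover the two pieces
  have rec1 : ∀ X Y : Finset α, X ⊆ U₁ → Y ⊆ U₂ →
      (X ∪ Y).filter (fun x => c x ∈ U₁.image c) = X := by
    intro X Y hX hY
    ext x
    simp only [Finset.mem_filter, Finset.mem_union, m1 x]
    constructor
    · rintro ⟨h | h, h'⟩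
      · exact h
      · exact absurd (hY h) (hd' x h')
    · intro h
      exact ⟨Or.inl h, hX h⟩
  have rec2 : ∀ X Y : Finset α, X ⊆ U₁ → Y ⊆ U₂ →
      (X ∪ Y).filter (fun x => c x ∈ U₂.image c) = Y := by
    intro X Y hX hY
    ext x
    simp only [Finset.mem_filter, Finset.mem_union, m2 x]
    constructor
    · rintro ⟨h | h, h'⟩
      · exact absurd h' (hd' x (hX h))
      · exact h
    · intro h
      exact ⟨Or.inr h, hY h⟩
  refine ⟨T, T₂.card, hT, Finset.card_le_card hT₂, hnum, ⟨Y₀, hY₀, hY₀'⟩, hmax, hsum',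
    (T2.sigma F).image (fun p => p.2 ∪ p.1), ?_, ?_, ?_⟩
  · intro Z hZ
    obtain ⟨⟨Y, X⟩, hp, rfl⟩ := Finset.mem_image.1 hZ
    obtain ⟨hY, hX⟩ := Finset.mem_sigma.1 hp
    dsimp only at hY hX ⊢
    obtain ⟨hX1, hX2⟩ := (hF Y hY).1 X hX
    exact ⟨Finset.union_subset (hX1.trans Finset.subset_union_left)
      ((hT2a Y hY).1.trans Finset.subset_union_right), hX2⟩
  · rintro Z hZ Z' hZ' ⟨τ, hτ, hm⟩
    obtain ⟨⟨Y, X⟩, hp, rfl⟩ := Finset.mem_image.1 hZ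
    obtain ⟨hYT, hXT⟩ := Finset.mem_sigma.1 hp
    obtain ⟨⟨Y', X'⟩, hp', rfl⟩ := Finset.mem_image.1 hZ'
    obtain ⟨hYT', hXT'⟩ := Finset.mem_sigma.1 hp'
    dsimp only at hXT hYT hXT' hYT' hm ⊢
    have hY1 := (hT2a Y hYT).1
    have hY1' := (hT2a Y' hYT').1
    have hX1 := ((hF Y hYT).1 X hXT).1
    have hX1' := ((hF Y' hYT').1 X' hXT').1
    have e1 : X' = X.map τ.toEmbedding := by
      rw [← rec1 X' Y' hX1' hY1', hm, prod_map_filter c τ hτ.1 (fun m => m ∈ U₁.image c),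
        rec1 X Y hX1 hY1]
    have e2 : Y' = Y.map τ.toEmbedding := by
      rw [← rec2 X' Y' hX1' hY1', hm, prod_map_filter c τ hτ.1 (fun m => m ∈ U₂.image c),
        rec2 X Y hX1 hY1]
    have e3 : Y = Y' := hT2b Y hYT Y' hYT' ⟨τ, hτ, e2⟩
    subst e3
    have e4 : X = X' := (hF Y hYT).2.1 X hXT X' hXT' ⟨τ, hτ, e1⟩
    rw [e4]
  · have hinj : Set.InjOn (fun p : (_ : Finset α) × Finset α => p.2 ∪ p.1)
        ((T2.sigma F : Finset ((_ : Finset α) × Finset α)) :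
          Set ((_ : Finset α) × Finset α)) := by
      rintro ⟨Y, X⟩ hp ⟨Y', X'⟩ hp' he
      obtain ⟨hYT, hXT⟩ := Finset.mem_sigma.1 (Finset.mem_coe.1 hp)
      obtain ⟨hYT', hXT'⟩ := Finset.mem_sigma.1 (Finset.mem_coe.1 hp')
      dsimp only at hXT hYT hXT' hYT' he
      have hY1 := (hT2a Y hYT).1
      have hY1' := (hT2a Y' hYT').1
      have hX1 := ((hF Y hYT).1 X hXT).1
      have hX1' := ((hF Y' hYT').1 X' hXT').1
      have e1 : X = X' := by rw [← rec1 X Y hX1 hY1, he, rec1 X' Y' hX1' hY1']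
      have e2 : Y = Y' := by rw [← rec2 X Y hX1 hY1, he, rec2 X' Y' hX1' hY1']
      rw [e1, e2]
    rw [Finset.card_image_of_injOn hinj, Finset.card_sigma]
    have hne2 : T2.Nonempty := by
      rw [Finset.nonempty_iff_ne_empty]
      rintro rfl
      have h1 : 0 < 2 ^ (U₂.card - T₂.card) := by positivity
      rw [Finset.card_empty, zero_pow (by omega)] at hT2c
      omega
    obtain ⟨Y₁, hY₁, hmin⟩ := Finset.exists_min_image T2 (fun Y => (F Y).card) hne2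
    have h1 : T2.card * (F Y₁).card ≤ ∑ Y ∈ T2, (F Y).card := by
      rw [← smul_eq_mul]
      exact Finset.card_nsmul_le_sum _ _ _ hmin
    have h2 := (hF Y₁ hY₁).2.2
    calc 2 ^ (n₁ * (U₂.card - T₂.card) + n₂ * (U₁.card - T.card))
        = (2 ^ (U₂.card - T₂.card)) ^ n₁ * (2 ^ (U₁.card - T.card)) ^ n₂ := by
          rw [← pow_mul, ← pow_mul, ← pow_add]
          congr 1
          ring
      _ ≤ (T2.card ^ n₂) ^ n₁ * ((F Y₁).card ^ n₁) ^ n₂ :=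
          Nat.mul_le_mul (Nat.pow_le_pow_left hT2c _) (Nat.pow_le_pow_left h2 _)
      _ = (T2.card * (F Y₁).card) ^ (n₁ * n₂) := by
          rw [← pow_mul, ← pow_mul, mul_pow, mul_comm n₂ n₁]
      _ ≤ _ := Nat.pow_le_pow_left h1 _

/-- The case `n₁ ≤ n₂`. -/
theorem pbl2_le (hUBLK : S_UBLK) (hLEAD : S_LEAD) {α : Type} [Fintype α] [DecidableEq α]
    (G : SimpleGraph α) (c : α → ℕ) (hG : TrueMod G c) (U₁ U₂ : Finset α) (n₁ n₂ : ℕ)
    (hn₁ : 1 ≤ n₁) (hn₂ : 1 ≤ n₂) (hle : n₁ ≤ n₂) (hd : Disjoint U₁ U₂)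
    (hU₁ : ∀ x ∈ U₁, ∀ y, c y = c x → y ∈ U₁) (hU₂ : ∀ x ∈ U₂, ∀ y, c y = c x → y ∈ U₂)
    (hs₁ : ∀ x ∈ U₁, (univ.filter fun y => c y = c x).card = n₁)
    (hs₂ : ∀ x ∈ U₂, (univ.filter fun y => c y = c x).card = n₂)
    (h : Finset α → ℚ) (hh : ∀ S ⊆ U₁ ∪ U₂, ∑ i ∈ U₁ ∪ U₂, h (symmDiff S {i}) = 0)
    (hne : ∃ S ⊆ U₁ ∪ U₂, h S ≠ 0)
    (hinv : ∀ τ ∈ NP G c, ∀ S ⊆ U₁ ∪ U₂, h (S.map τ.toEmbedding) = h S) :
    ∃ 𝒯 : Finset (Finset α), (∀ X ∈ 𝒯, X ⊆ U₁ ∪ U₂ ∧ h X ≠ 0) ∧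
      (∀ X ∈ 𝒯, ∀ X' ∈ 𝒯, (∃ τ ∈ NP G c, X' = X.map τ.toEmbedding) → X = X') ∧
      2 ^ ((U₁.image c).card + (U₂.image c).card) ≤ 𝒯.card ^ 2 := by
  have hc1 := pbl2_card c U₁ n₁ hU₁ hs₁
  have hc2 := pbl2_card c U₂ n₂ hU₂ hs₂
  have hm0 : ∀ S : Finset α, ((-1 : ℚ) ^ S.card) ≠ 0 := fun S => pow_ne_zero _ (by norm_num)
  -- first application
  obtain ⟨T, t, hT, ht, hnum, ⟨Y₀, hY₀, hY₀'⟩, hmax, hsum, F, hF1, hF2, hF3⟩ :=
    pbl2_main hUBLK hLEAD G c hG U₁ U₂ n₁ n₂ hn₁ hn₂ hd hU₁ hU₂ hs₁ hs₂ h hh hne hinv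
  -- second application
  set h' : Finset α → ℚ := fun X => (-1) ^ X.card * h X with hh'
  obtain ⟨T', t', hT', ht', hnum', -, hmax', -, F', hF1', hF2', hF3'⟩ :=
    pbl2_main hUBLK hLEAD G c hG U₂ U₁ n₂ n₁ hn₂ hn₁ hd.symm hU₂ hU₁ hs₂ hs₁ h' (by
      intro S hS
      rw [Finset.union_comm] at hS ⊢
      have h1 : ∑ i ∈ U₁ ∪ U₂, h' (symmDiff S {i}) =
          -(-1) ^ S.card * ∑ i ∈ U₁ ∪ U₂, h (symmDiff S {i}) := by
        rw [Finset.mul_sum]
        refine Finset.sum_congr rfl fun i _ => ?_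
        show (-1) ^ (symmDiff S {i}).card * h (symmDiff S {i}) = _
        rw [pbl2_sgn]
      rw [h1, hh S hS, mul_zero])
      (by
        obtain ⟨S, hS, hS'⟩ := hne
        exact ⟨S, by rwa [Finset.union_comm], mul_ne_zero (hm0 S) hS'⟩)
      (by
        intro τ hτ S hS
        rw [Finset.union_comm] at hS
        show (-1) ^ (S.map τ.toEmbedding).card * h (S.map τ.toEmbedding) = (-1) ^ S.card * h S
        rw [Finset.card_map, hinv τ hτ S hS])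
  -- (C)
  have hC : U₂.card - t ≤ T'.card := by
    set g : Finset α → ℚ := fun Y => mob (fun S => h (S ∪ Y)) T with hg
    obtain ⟨T'', hT'', hmob, -, hl⟩ := pbl2_lead0 hLEAD U₂ (U₁.card - 2 * T.card)
      (fun Y => (-1) ^ Y.card * g Y) (by
        intro Y hY
        have h1 : ∑ i ∈ U₂, (-1 : ℚ) ^ (symmDiff Y {i}).card * g (symmDiff Y {i}) =
            -(-1) ^ Y.card * ∑ i ∈ U₂, g (symmDiff Y {i}) := by
          rw [Finset.mul_sum]
          refine Finset.sum_congr rfl fun i _ => ?_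
          rw [pbl2_sgn]
        have h2 := hsum Y hY
        show ∑ i ∈ U₂, (-1 : ℚ) ^ (symmDiff Y {i}).card * g (symmDiff Y {i}) = _
        rw [h1]
        show -(-1) ^ Y.card * ∑ i ∈ U₂, mob (fun S => h (S ∪ symmDiff Y {i})) T = _
        rw [h2]
        show _ = (U₁.card - 2 * T.card) * ((-1) ^ Y.card * mob (fun S => h (S ∪ Y)) T)
        ring)
      ⟨Y₀, hY₀, mul_ne_zero (hm0 Y₀) hY₀'⟩
    have hcard : T''.card + t = U₂.card := by
      have h1 : (2 * ((T.card : ℚ) + t)) = U₁.card + U₂.card := by exact_mod_cast hnum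
      have h2 : ((T''.card : ℚ) + t) = U₂.card := by linarith
      exact_mod_cast h2
    have hexp : mob (fun Y => (-1) ^ Y.card * g Y) T'' =
        ∑ S ∈ T.powerset, mob (fun Z => h' (Z ∪ S)) T'' := by
      unfold mob
      rw [Finset.sum_comm]
      refine Finset.sum_congr rfl fun Z hZ => ?_
      show (-1) ^ Z.card * ((-1) ^ Z.card * mob (fun S => h (S ∪ Z)) T) = _
      unfold mob
      rw [Finset.mul_sum, Finset.mul_sum]
      refine Finset.sum_congr rfl fun S hS => ?_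
      show (-1) ^ Z.card * ((-1) ^ Z.card * ((-1) ^ S.card * h (S ∪ Z))) =
        (-1) ^ Z.card * ((-1) ^ (Z ∪ S).card * h (Z ∪ S))
      have hdis : Disjoint Z S :=
        Finset.disjoint_of_subset_left ((Finset.mem_powerset.1 hZ).trans hT'')
          (Finset.disjoint_of_subset_right ((Finset.mem_powerset.1 hS).trans hT) hd.symm)
      rw [Finset.card_union_of_disjoint hdis, pow_add, Finset.union_comm S Z]
      ring
    rw [hexp] at hmob
    obtain ⟨S, hS, hS'⟩ := Finset.exists_ne_zero_of_sum_ne_zero hmob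
    by_contra hcon
    push Not at hcon
    exact hS' (hmax' T'' hT'' (by omega) S ((Finset.mem_powerset.1 hS).trans hT))
  -- (D)
  have hTc := Finset.card_le_card hT
  have hTc' := Finset.card_le_card hT'
  obtain ⟨A, hA⟩ := Nat.exists_eq_add_of_le ht
  obtain ⟨B, hB⟩ := Nat.exists_eq_add_of_le hTc
  obtain ⟨A', hA'⟩ := Nat.exists_eq_add_of_le hTc'
  obtain ⟨B', hB'⟩ := Nat.exists_eq_add_of_le ht'
  have eA : U₂.card - t = A := by omega
  have eB : U₁.card - T.card = B := by omega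
  have eA' : U₂.card - T'.card = A' := by omega
  have eB' : U₁.card - t' = B' := by omega
  rw [eA, eB] at hF3
  rw [eA', eB'] at hF3'
  obtain ⟨d, hd'⟩ := Nat.exists_eq_add_of_le hle
  have hBB : U₁.card ≤ B + B' := by omega
  have hAB : (A + A') + (B + B') = U₁.card + U₂.card := by omega
  have hEE : n₁ * U₂.card + n₂ * U₁.card ≤ (n₁ * A + n₂ * B) + (n₂ * B' + n₁ * A') := by
    have h1 : (n₁ * A + n₂ * B) + (n₂ * B' + n₁ * A') =
        n₁ * ((A + A') + (B + B')) + d * (B + B') := by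
      rw [hd']; ring
    rw [h1, hAB, hd']
    have h2 := Nat.mul_le_mul_left d hBB
    nlinarith
  have hfin : ∀ (𝒯 : Finset (Finset α)) (E : ℕ), n₁ * U₂.card + n₂ * U₁.card ≤ 2 * E →
      2 ^ E ≤ 𝒯.card ^ (n₁ * n₂) →
      2 ^ ((U₁.image c).card + (U₂.image c).card) ≤ 𝒯.card ^ 2 := by
    intro 𝒯 E hE hp
    have h0 : n₁ * n₂ ≠ 0 := Nat.mul_ne_zero (by omega) (by omega)
    rw [← Nat.pow_le_pow_iff_left h0, ← pow_mul, ← pow_mul]
    calc 2 ^ (((U₁.image c).card + (U₂.image c).card) * (n₁ * n₂)) ≤ 2 ^ (2 * E) := by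
          apply Nat.pow_le_pow_right (by norm_num)
          refine le_trans (le_of_eq ?_) hE
          rw [hc1, hc2]
          ring
      _ = (2 ^ E) ^ 2 := by rw [mul_comm, pow_mul]
      _ ≤ (𝒯.card ^ (n₁ * n₂)) ^ 2 := Nat.pow_le_pow_left hp 2
      _ = _ := by rw [← pow_mul, mul_comm]
  rcases le_total (n₂ * B' + n₁ * A') (n₁ * A + n₂ * B) with hc | hc
  · exact ⟨F, hF1, hF2, hfin F _ (by omega) hF3⟩
  · refine ⟨F', fun X hX => ?_, hF2', hfin F' (n₂ * B' + n₁ * A') (by omega) ?_⟩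
    · obtain ⟨h1, h2⟩ := hF1' X hX
      rw [Finset.union_comm] at h1
      exact ⟨h1, fun h3 => h2 (by show (-1) ^ X.card * h X = 0; rw [h3, mul_zero])⟩
    · rw [mul_comm n₁ n₂]
      exact hF3'

theorem t_PBL2 (hUBLK : S_UBLK) (hLEAD : S_LEAD) : S_PBL2 := by
  intro α _ _ G c hG U₁ U₂ n₁ n₂ hn₁ hn₂ hd hU₁ hU₂ hs₁ hs₂ h hh hne hinv
  rcases le_total n₁ n₂ with hle | hle
  · exact pbl2_le hUBLK hLEAD G c hG U₁ U₂ n₁ n₂ hn₁ hn₂ hle hd hU₁ hU₂ hs₁ hs₂ h hh hne hinv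
  · have := pbl2_le hUBLK hLEAD G c hG U₂ U₁ n₂ n₁ hn₂ hn₁ hle hd.symm hU₂ hU₁ hs₂ hs₁ h
      (by rw [Finset.union_comm]; exact hh) (by rw [Finset.union_comm]; exact hne)
      (by rw [Finset.union_comm]; exact hinv)
    rw [Finset.union_comm, add_comm] at this
    exact this

end Pool.Agent.NTW
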