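import Pool.Agent.NTW.St7
import Pool.Agent.NTW.St5

/-!
Module NTW_UBLK (MP_e73337_co): one size class of parts, the step without HOMV.
-/

set_option autoImplicit false

namespace Pool.Agent.NTW

open Finset Pool.Agent.Lib_helper61.SwitchBasic

section
variable {α : Type}

theorem ublk_choose_le (k : ℕ) : ∀ j : ℕ, (k + 1).choose j ≤ 2 ^ k := by
  induction k with
  | zero =>
    intro j
    rcases j with _ | _ | j
    · simp
    · simp
    · rw [Nat.choose_eq_zero_of_lt (by omega)]
      simp
  | succ k ih =>
    intro j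
    rcases j with _ | j
    · rw [Nat.choose_zero_right]
      exact Nat.one_le_two_pow
    · rw [Nat.choose_succ_succ, pow_succ, mul_two]
      exact Nat.add_le_add (ih j) (ih (j + 1))

/-- Equivalence of vertex sets under the automorphisms preserving all parts. -/
def ublk_EE (G : SimpleGraph α) (c : α → ℕ) (X X' : Finset α) : Prop :=
  ∃ τ ∈ NP G c, X' = X.map τ.toEmbedding

theorem ublk_EE_equiv (G : SimpleGraph α) (c : α → ℕ) : Equivalence (ublk_EE G c) := by
  refine ⟨fun X => ⟨1, one_mem _, ?_⟩, ?_, ?_⟩
  · ext x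
    rw [Finset.mem_map_equiv]
    exact Iff.rfl
  · rintro X X' ⟨τ, hτ, rfl⟩
    refine ⟨τ⁻¹, inv_mem hτ, ?_⟩
    ext x
    rw [Finset.mem_map_equiv, Finset.mem_map_equiv]
    change x ∈ X ↔ τ.symm (τ x) ∈ X
    rw [Equiv.symm_apply_apply]
  · rintro X X' X'' ⟨τ, hτ, rfl⟩ ⟨σ, hσ, rfl⟩
    refine ⟨σ * τ, mul_mem hσ hτ, ?_⟩
    ext x
    rw [Finset.mem_map_equiv, Finset.mem_map_equiv, Finset.mem_map_equiv]
    exact Iff.rfl

theorem ublk_map_congr {τ τ' : Equiv.Perm α} {X : Finset α} (h : ∀ x ∈ X, τ' x = τ x) :
    X.map τ'.toEmbedding = X.map τ.toEmbedding := by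
  ext x
  simp only [Finset.mem_map, Equiv.coe_toEmbedding]
  constructor
  · rintro ⟨y, hy, rfl⟩
    exact ⟨y, hy, (h y hy).symm⟩
  · rintro ⟨y, hy, rfl⟩
    exact ⟨y, hy, h y hy⟩

theorem ublk_map_id {τ : Equiv.Perm α} {X : Finset α} (h : ∀ x ∈ X, τ x = x) :
    X.map τ.toEmbedding = X := by
  ext x
  simp only [Finset.mem_map, Equiv.coe_toEmbedding]
  constructor
  · rintro ⟨y, hy, rfl⟩
    rw [h y hy]
    exact hy
  · intro hx
    exact ⟨x, hx, h x hx⟩

/-- Gluing: `τ` on the part `i`, the identity elsewhere. -/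
theorem ublk_glue {G : SimpleGraph α} {c : α → ℕ} (hc : TrueMod G c) (i : ℕ)
    {τ : Equiv.Perm α} (hτ : τ ∈ NP G c) :
    ∃ τ' ∈ NP G c, ∀ x, τ' x = if c x = i then τ x else x := by
  have h1 : ∀ x, c (τ x) = c x := hτ.1
  have h2 : ∀ u v, G.Adj (τ u) (τ v) ↔ G.Adj u v := hτ.2
  have h1' : ∀ x, c (τ.symm x) = c x := by
    intro x
    have h := h1 (τ.symm x)
    rw [Equiv.apply_symm_apply] at h
    exact h.symm
  let τ' : Equiv.Perm α :=
    { toFun := fun x => if c x = i then τ x else x
      invFun := fun x => if c x = i then τ.symm x else x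
      left_inv := by
        intro x
        by_cases hx : c x = i
        · simp only [if_pos hx, h1, Equiv.symm_apply_apply]
        · simp only [if_neg hx]
      right_inv := by
        intro x
        by_cases hx : c x = i
        · simp only [if_pos hx, h1', Equiv.apply_symm_apply]
        · simp only [if_neg hx] }
  have hdef : ∀ x, τ' x = if c x = i then τ x else x := fun x => rfl
  refine ⟨τ', ⟨?_, ?_⟩, hdef⟩
  · intro x
    rw [hdef]
    split_ifs with hx
    · exact h1 x
    · rfl
  · intro u v
    rw [hdef, hdef]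
    split_ifs with hu hv hv
    · exact h2 u v
    · have h3 := hc v (τ u) u (h1 u) (by
        rw [h1 u, hu]
        exact hv)
      rw [G.adj_comm (τ u) v, h3, G.adj_comm]
    · exact hc u (τ v) v (h1 v) (by
        rw [h1 v, hv]
        exact hu)
    · exact Iff.rfl

end

theorem t_UBLK (hTENU : S_TENU) (hRM : S_RM) : S_UBLK := by
  classical
  intro α _ _ G c hc U n d hn hU hcard g hdeg hne hinv
  have hUτ : ∀ τ ∈ NP G c, ∀ x ∈ U, τ x ∈ U := fun τ hτ x hx => hU x hx _ (hτ.1 x)
  rcases Nat.lt_or_ge n 2 with h2 | h2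
  · -- one-element parts
    have hn1 : n = 1 := by omega
    subst hn1
    have hfix : ∀ τ ∈ NP G c, ∀ x ∈ U, τ x = x := by
      intro τ hτ x hx
      have h1 := hcard x hx
      rw [Finset.card_eq_one] at h1
      obtain ⟨a, ha⟩ := h1
      have hxa : x ∈ (univ.filter fun y => c y = c x) :=
        Finset.mem_filter.2 ⟨Finset.mem_univ _, rfl⟩
      have hya : τ x ∈ (univ.filter fun y => c y = c x) :=
        Finset.mem_filter.2 ⟨Finset.mem_univ _, hτ.1 x⟩
      rw [ha, Finset.mem_singleton] at hxa hya
      rw [hya, hxa]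
    refine ⟨U.powerset.filter fun X => g X ≠ 0, ?_, ?_, ?_⟩
    · intro X hX
      rw [Finset.mem_filter, Finset.mem_powerset] at hX
      exact hX
    · rintro X hX X' hX' ⟨τ, hτ, he⟩
      rw [Finset.mem_filter, Finset.mem_powerset] at hX
      rw [he, ublk_map_id fun x hx => hfix τ hτ x (hX.1 hx)]
    · rw [pow_one]
      exact hRM α U d g hdeg hne
  · obtain ⟨lab, hl1, hl2⟩ : ∃ lab : α → α, (∀ x, c (lab x) = c x) ∧
        ∀ x y, c x = c y → lab x = lab y := by
      have hex : ∀ x : α, ∃ y : α, c y = c x := fun x => ⟨x, rfl⟩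
      have hg : ∀ (i i' : ℕ) (hi : ∃ y : α, c y = i) (hi' : ∃ y : α, c y = i'),
          i = i' → Classical.choose hi = Classical.choose hi' := by
        intro i i' hi hi' hii
        subst hii
        rfl
      exact ⟨fun x => Classical.choose (hex x), fun x => Classical.choose_spec (hex x),
        fun x y hxy => hg _ _ _ _ hxy⟩
    obtain ⟨𝒯, hT1, hT2, hT3⟩ := hTENU α U lab (ublk_EE G c) (n - 1) (by omega)
      (ublk_EE_equiv G c)
      (by
        rintro X X' ⟨τ, -, rfl⟩
        rw [Finset.card_map])
      (by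
        rintro X X' hX ⟨τ, hτ, rfl⟩ x hx
        obtain ⟨z, hz, rfl⟩ := Finset.mem_map.1 hx
        exact hUτ τ hτ z (hX hz))
      (by
        rintro i X X' hXU ⟨τ, hτ, rfl⟩ hX x hx
        obtain ⟨z, hz, rfl⟩ := Finset.mem_map.1 hx
        have h3 : lab (τ z) = lab z := hl2 _ _ (hτ.1 z)
        exact h3.trans (hX z hz))
      (by
        intro i X hXU hX
        rcases X.eq_empty_or_nonempty with rfl | ⟨x, hx⟩
        · have hsub : {X' : Finset α | ublk_EE G c ∅ X'} ⊆ {∅} := by
            rintro X' ⟨τ, -, rfl⟩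
            simp
          calc {X' : Finset α | ublk_EE G c ∅ X'}.ncard ≤ ({∅} : Set (Finset α)).ncard :=
                Set.ncard_le_ncard hsub (Set.finite_singleton _)
            _ = 1 := Set.ncard_singleton _
            _ ≤ 2 ^ (n - 1) := Nat.one_le_two_pow
        · have hsub : {X' : Finset α | ublk_EE G c X X'} ⊆
              ((Finset.powersetCard X.card (univ.filter fun y => c y = c x) :
                Finset (Finset α)) : Set (Finset α)) := by
            rintro X' ⟨τ, hτ, rfl⟩
            rw [Finset.mem_coe, Finset.mem_powersetCard]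
            refine ⟨?_, Finset.card_map _⟩
            intro y hy
            obtain ⟨z, hz, rfl⟩ := Finset.mem_map.1 hy
            refine Finset.mem_filter.2 ⟨Finset.mem_univ _, ?_⟩
            have h3 : c (τ z) = c z := hτ.1 z
            have h4 : c z = c x := by
              rw [← hl1 z, ← hl1 x, hX z hz, hX x hx]
            exact h3.trans h4
          calc {X' : Finset α | ublk_EE G c X X'}.ncard
              ≤ (((Finset.powersetCard X.card (univ.filter fun y => c y = c x) :
                Finset (Finset α)) : Set (Finset α))).ncard :=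
                Set.ncard_le_ncard hsub (Finset.finite_toSet _)
            _ = n.choose X.card := by
                rw [Set.ncard_coe_finset, Finset.card_powersetCard, hcard x (hXU hx)]
            _ ≤ 2 ^ (n - 1) := by
                have h5 := ublk_choose_le (n - 1) X.card
                rwa [show n - 1 + 1 = n by omega] at h5)
      g d
      (by
        rintro i X X' Y hXU hYU ⟨τ, hτ, rfl⟩ hX hY
        obtain ⟨τ', hτ', he⟩ := ublk_glue hc (c i) hτ
        have e1 : X.map τ'.toEmbedding = X.map τ.toEmbedding := by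
          apply ublk_map_congr
          intro x hx
          have h3 : c x = c i := by
            rw [← hX x hx, hl1]
          rw [he x, if_pos h3]
        by_cases hXe : X = ∅
        · subst hXe
          simp
        · obtain ⟨x₀, hx₀⟩ := Finset.nonempty_iff_ne_empty.2 hXe
          have hi : lab i = i := by
            have h3 : c x₀ = c i := by
              rw [← hX x₀ hx₀, hl1]
            rw [← hl2 _ _ h3, hX x₀ hx₀]
          have e2 : Y.map τ'.toEmbedding = Y := by
            apply ublk_map_id
            intro x hx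
            rw [he x, if_neg fun hcx => hY x hx ((hl2 _ _ hcx).trans hi)]
          rw [← hinv τ' hτ' (X ∪ Y) (Finset.union_subset hXU hYU), Finset.map_union, e1, e2])
      hdeg hne
    refine ⟨𝒯, hT1, ?_, ?_⟩
    · rintro X hX X' hX' ⟨τ, hτ, he⟩
      refine hT2 X hX X' hX' fun i => ⟨τ, hτ, ?_⟩
      ext x
      rw [Finset.mem_filter, Finset.mem_map_equiv, Finset.mem_filter, he, Finset.mem_map_equiv]
      have h3 : lab (τ.symm x) = lab x := by
        have h4 : lab (τ (τ.symm x)) = lab (τ.symm x) := hl2 _ _ (hτ.1 _)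
        rw [Equiv.apply_symm_apply] at h4
        exact h4.symm
      rw [h3]
    · rwa [show n - 1 + 1 = n by omega] at hT3

end Pool.Agent.NTW
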