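import Pool.Agent.NTW.St6
import Pool.Agent.NTW.MUBLK

/-!
Module NTW_PBLK (MP_e73337_co): one class of parts of equal size (with HOMV).
-/

set_option autoImplicit false

namespace Pool.Agent.NTW

open Finset Pool.Agent.Lib_helper61.SwitchBasic

section
variable {α : Type}

/-- Gluing: `τ` on a union of parts, the identity elsewhere. -/
theorem pblk_glue {G : SimpleGraph α} {c : α → ℕ} (hc : TrueMod G c) (U : Finset α)
    (hU : ∀ x ∈ U, ∀ y, c y = c x → y ∈ U)
    {τ : Equiv.Perm α} (hτ : τ ∈ NP G c) :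
    ∃ τ' ∈ NP G c, (∀ x ∈ U, τ' x = τ x) ∧ (∀ x, x ∉ U → τ' x = x) := by
  classical
  have h1 : ∀ x, c (τ x) = c x := hτ.1
  have h2 : ∀ u v, G.Adj (τ u) (τ v) ↔ G.Adj u v := hτ.2
  have h1' : ∀ x, c (τ.symm x) = c x := by
    intro x
    have h := h1 (τ.symm x)
    rw [Equiv.apply_symm_apply] at h
    exact h.symm
  have m1 : ∀ x ∈ U, τ x ∈ U := fun x hx => hU x hx _ (h1 x)
  have m2 : ∀ x ∈ U, τ.symm x ∈ U := fun x hx => hU x hx _ (h1' x)
  let τ' : Equiv.Perm α :=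
    { toFun := fun x => if x ∈ U then τ x else x
      invFun := fun x => if x ∈ U then τ.symm x else x
      left_inv := by
        intro x
        by_cases hx : x ∈ U
        · simp only [if_pos hx, if_pos (m1 x hx), Equiv.symm_apply_apply]
        · simp only [if_neg hx]
      right_inv := by
        intro x
        by_cases hx : x ∈ U
        · simp only [if_pos hx, if_pos (m2 x hx), Equiv.apply_symm_apply]
        · simp only [if_neg hx] }
  have hdef : ∀ x, τ' x = if x ∈ U then τ x else x := fun x => rfl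
  refine ⟨τ', ⟨?_, ?_⟩, ?_, ?_⟩
  · intro x
    rw [hdef]
    split_ifs with hx
    · exact h1 x
    · rfl
  · intro u v
    rw [hdef, hdef]
    split_ifs with hu hv hv
    · exact h2 u v
    · have h3 := hc v (τ u) u (h1 u) (by
        rw [h1 u]
        intro h
        exact hv (hU u hu v h))
      rw [G.adj_comm (τ u) v, h3, G.adj_comm]
    · exact hc u (τ v) v (h1 v) (by
        rw [h1 v]
        intro h
        exact hu (hU v hv u h))
    · exact Iff.rfl
  · intro x hx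
    rw [hdef, if_pos hx]
  · intro x hx
    rw [hdef, if_neg hx]

theorem pblk_card [DecidableEq α] [Fintype α] (c : α → ℕ) (U : Finset α) (n : ℕ)
    (hU : ∀ x ∈ U, ∀ y, c y = c x → y ∈ U)
    (hcard : ∀ x ∈ U, (univ.filter fun y => c y = c x).card = n) :
    U.card = (U.image c).card * n := by
  rw [Finset.card_eq_sum_card_image c U]
  rw [Finset.sum_const_nat (m := n)]
  intro i hi
  rw [Finset.mem_image] at hi
  obtain ⟨x, hx, rfl⟩ := hi
  rw [← hcard x hx]
  congr 1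
  ext y
  rw [Finset.mem_filter, Finset.mem_filter]
  constructor
  · rintro ⟨_, h⟩
    exact ⟨Finset.mem_univ _, h⟩
  · rintro ⟨_, h⟩
    exact ⟨hU x hx y h, h⟩

end

theorem pblk_of (hHOMV : S_HOMV) (hUBLK : S_UBLK) : S_PBLK := by
  classical
  intro α _ _ G c hc V U n hn hUV hV hU hcard h hsum hne hinv
  obtain ⟨g, hdeg, hgne, hlift, hsame⟩ := hHOMV α V U hUV h hsum hne
  have hmU : ∀ τ ∈ NP G c, ∀ x ∈ U, τ x ∈ U := fun τ hτ x hx => hU x hx _ (hτ.1 x)
  have hmU' : ∀ τ ∈ NP G c, ∀ x, τ x ∈ U → x ∈ U := fun τ hτ x hx => hU _ hx _ (hτ.1 x).symm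
  have hmap : ∀ τ ∈ NP G c, ∀ X ⊆ U, X.map τ.toEmbedding ⊆ U := by
    intro τ hτ X hX y hy
    rw [Finset.mem_map] at hy
    obtain ⟨x, hx, rfl⟩ := hy
    exact hmU τ hτ x (hX hx)
  have hginv : ∀ τ ∈ NP G c, ∀ X ⊆ U, g (X.map τ.toEmbedding) = g X := by
    intro τ hτ X hX
    refine hsame (X.map τ.toEmbedding) (hmap τ hτ X hX) X hX (Finset.card_map _) ?_
    intro Y hY hd
    obtain ⟨τ', hτ', e1, e2⟩ := pblk_glue hc U hU hτ
    have e3 : (X ∪ Y).map τ'.toEmbedding = X.map τ.toEmbedding ∪ Y := by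
      rw [Finset.map_union]
      congr 1
      · exact ublk_map_congr fun x hx => e1 x (hX hx)
      · exact ublk_map_id fun x hx => e2 x (Finset.disjoint_left.1 hd hx)
    rw [← e3]
    exact hinv τ' hτ' (X ∪ Y) (Finset.union_subset (hX.trans hUV) hY)
  obtain ⟨𝒯, ht1, ht2, ht3⟩ :=
    hUBLK α G c hc U n (U.card / 2) hn hU hcard g hdeg hgne hginv
  have hY : ∀ X, ∃ Y, X ∈ 𝒯 → Y ⊆ V ∧ Disjoint Y U ∧ h (X ∪ Y) ≠ 0 := by
    intro X
    by_cases hX : X ∈ 𝒯
    · obtain ⟨Y, hY1, hY2, hY3⟩ := hlift X (ht1 X hX).1 (ht1 X hX).2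
      exact ⟨Y, fun _ => ⟨hY1, hY2, hY3⟩⟩
    · exact ⟨∅, fun h => absurd h hX⟩
  choose Y hY using hY
  have hrec : ∀ X ∈ 𝒯, (X ∪ Y X) ∩ U = X := by
    intro X hX
    ext x
    rw [Finset.mem_inter, Finset.mem_union]
    constructor
    · rintro ⟨h1 | h1, h2⟩
      · exact h1
      · exact absurd h2 (Finset.disjoint_left.1 (hY X hX).2.1 h1)
    · intro h1
      exact ⟨Or.inl h1, (ht1 X hX).1 h1⟩
  refine ⟨𝒯.image fun X => X ∪ Y X, ?_, ?_, ?_⟩
  · intro Z hZ
    rw [Finset.mem_image] at hZ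
    obtain ⟨X, hX, rfl⟩ := hZ
    exact ⟨Finset.union_subset ((ht1 X hX).1.trans hUV) (hY X hX).1, (hY X hX).2.2⟩
  · rintro Z hZ Z' hZ' ⟨τ, hτ, he⟩
    rw [Finset.mem_image] at hZ hZ'
    obtain ⟨X, hX, rfl⟩ := hZ
    obtain ⟨X', hX', rfl⟩ := hZ'
    have e : X' = X.map τ.toEmbedding := by
      rw [← hrec X' hX', he]
      ext y
      rw [Finset.mem_inter, Finset.mem_map, Finset.mem_map]
      constructor
      · rintro ⟨⟨x, hx, rfl⟩, hy⟩
        refine ⟨x, ?_, rfl⟩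
        have hxU : x ∈ U := hmU' τ hτ x hy
        rw [← hrec X hX, Finset.mem_inter]
        exact ⟨hx, hxU⟩
      · rintro ⟨x, hx, rfl⟩
        exact ⟨⟨x, Finset.mem_union_left _ hx, rfl⟩, hmU τ hτ x ((ht1 X hX).1 hx)⟩
    have e' := ht2 X hX X' hX' ⟨τ, hτ, e⟩
    rw [e']
  · have hcardI : (𝒯.image fun X => X ∪ Y X).card = 𝒯.card := by
      apply Finset.card_image_of_injOn
      intro X hX X' hX' he
      have h1 := hrec X hX
      have h2 := hrec X' hX'
      have he' : X ∪ Y X = X' ∪ Y X' := he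
      rw [he'] at h1
      rw [← h1, h2]
    rw [hcardI]
    have hc1 := pblk_card c U n hU hcard
    set k := (U.image c).card with hk
    have h5 : 2 ^ (k * n) ≤ (𝒯.card ^ 2) ^ n := by
      calc 2 ^ (k * n) ≤ 2 ^ (2 * (U.card - U.card / 2)) := by
            apply Nat.pow_le_pow_right (by norm_num)
            rw [← hc1]
            omega
        _ = (2 ^ (U.card - U.card / 2)) ^ 2 := by rw [mul_comm 2, pow_mul]
        _ ≤ (𝒯.card ^ n) ^ 2 := Nat.pow_le_pow_left ht3 2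
        _ = (𝒯.card ^ 2) ^ n := by rw [← pow_mul, ← pow_mul, mul_comm]
    rw [pow_mul] at h5
    exact (Nat.pow_le_pow_iff_left (by omega : n ≠ 0)).1 h5

theorem t_PBLK (hHOMV : S_HOMV) (hTENU : S_TENU) (hRM : S_RM) : S_PBLK :=
  pblk_of hHOMV (t_UBLK hTENU hRM)

end Pool.Agent.NTW
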