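import Pool.Agent.NTW.St6

/-!
# Module REP: modules up to switching become modules after one switching
-/

set_option autoImplicit false

namespace Pool.Agent.NTW

open Finset Pool.Agent.Lib_helper61.SwitchBasic

/-- All vertices outside the part of `y` separate `y`, `z`, or none does. -/
theorem rep_const {α : Type} [Fintype α] (G : SimpleGraph α) (c : α → ℕ)
    (hmod : ∀ i, IsMod G (Fin5.part c i)) (x x' y z : α) (hyz : c y = c z) (hx : c x ≠ c y)
    (hx' : c x' ≠ c y) : (G.Adj x y ↔ G.Adj x z) ↔ (G.Adj x' y ↔ G.Adj x' z) := by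
  have h1 : x ∉ Fin5.part c (c y) := fun h => hx ((Fin5.mem_part c _ _).1 h)
  have h2 : x' ∉ Fin5.part c (c y) := fun h => hx' ((Fin5.mem_part c _ _).1 h)
  rcases hmod (c y) y ((Fin5.mem_part c _ _).2 rfl) z ((Fin5.mem_part c _ _).2 hyz.symm)
    with h | h
  · exact iff_of_true (h x h1) (h x' h2)
  · exact iff_of_false (h x h1) (h x' h2)

/-- REP. -/
theorem t_REP : S_REP := by
  classical
  intro α _ _ G c hmod
  by_cases hc : ∃ x₀ x₁, c x₀ ≠ c x₁
  · obtain ⟨x₀, x₁, h01⟩ := hc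
    obtain ⟨S, hS⟩ : ∃ S : Finset α, ∀ z, z ∈ S ↔ (c z ≠ c x₀ ∧ G.Adj x₀ z) ∨
        (c z = c x₀ ∧ ¬ (G.Adj x₁ z ↔ G.Adj x₁ x₀)) :=
      ⟨univ.filter fun z => (c z ≠ c x₀ ∧ G.Adj x₀ z) ∨
        (c z = c x₀ ∧ ¬ (G.Adj x₁ z ↔ G.Adj x₁ x₀)), fun z => by simp⟩
    refine ⟨S, ?_⟩
    intro x y z hyz hx
    have e1 : x ≠ y := fun e => hx (by rw [e])
    have e2 : x ≠ z := fun e => hx (by rw [e, hyz])
    rw [sw_adj_iff G S x y z e1 e2, hS y, hS z]
    by_cases h : c y = c x₀
    · have h' : c z = c x₀ := hyz ▸ h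
      have k := rep_const G c hmod x x₁ y z hyz hx (fun e => h01 (e.trans h).symm)
      rw [k]
      simp only [h, h', ne_eq, not_true_eq_false, false_and, true_and, false_or]
      tauto
    · have h' : c z ≠ c x₀ := fun e => h (hyz.trans e)
      have k := rep_const G c hmod x x₀ y z hyz hx (fun e => h e.symm)
      rw [k]
      simp only [h, h', ne_eq, not_false_eq_true, false_and, true_and, or_false]
  · refine ⟨∅, ?_⟩
    intro x y z _ hx
    exact absurd ⟨x, y, hx⟩ hc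

end Pool.Agent.NTW
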