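import Mathlib
import Pool.Agent.NTW.St

/-! CNT (helper66): upper bound for the number of classes. -/

set_option autoImplicit false

namespace Pool.Agent.NTW

open Finset Pool.Agent.Lib_helper61.SwitchBasic

theorem t_CNT : S_CNT := by
  intro α _ _ G₀ K H R x₀ hx₀ hiso 𝒯 hT hsep
  classical
  have hch : ∀ T ∈ 𝒯, ∃ (b : Bool) (σ : Equiv.Perm α), ∀ u v : α,
      (if b = true then K else H).Adj (σ u) (σ v) ↔ (sw G₀ T).Adj u v := by
    intro T hT'
    rcases hT T hT' with h | h
    · obtain ⟨e⟩ := h
      exact ⟨true, e.toEquiv, fun u v => e.map_rel_iff⟩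
    · obtain ⟨e⟩ := h
      exact ⟨false, e.toEquiv, fun u v => e.map_rel_iff⟩
  choose! b σ hbσ using hch
  let Φ : Finset α → Bool × Bool × (R → α) :=
    fun T => (b T, decide (x₀ ∈ T), fun r => σ T r)
  have hinj : Set.InjOn Φ (𝒯 : Set (Finset α)) := by
    intro T hTT T' hTT' hE
    have hTT1 : T ∈ 𝒯 := hTT
    have hTT2 : T' ∈ 𝒯 := hTT'
    have h1 : b T = b T' := congrArg Prod.fst hE
    have h2 : decide (x₀ ∈ T) = decide (x₀ ∈ T') := congrArg (fun z => z.2.1) hE
    have h3 : (fun r : R => σ T r) = (fun r : R => σ T' r) := congrArg (fun z => z.2.2) hE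
    have h2' : x₀ ∈ T ↔ x₀ ∈ T' := by simpa using h2
    have hτR : ∀ r ∈ R, (σ T').symm (σ T r) = r := by
      intro r hr
      have h4 := congrFun h3 ⟨r, hr⟩
      simp only at h4
      rw [h4, Equiv.symm_apply_apply]
    have hτ : ∀ u v : α, (sw G₀ T').Adj ((σ T').symm (σ T u)) ((σ T').symm (σ T v)) ↔
        (sw G₀ T).Adj u v := by
      intro u v
      rw [← hbσ T' hTT2, ← hbσ T hTT1, Equiv.apply_symm_apply, Equiv.apply_symm_apply, h1]
    have hmem : ∀ v : α, v ∈ T ↔ (σ T').symm (σ T v) ∈ T' := by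
      intro v
      by_cases hv : v = x₀
      · rw [hv, hτR x₀ hx₀]; exact h2'
      · have h5 := hτ x₀ v
        rw [hτR x₀ hx₀, sw_adj, sw_adj] at h5
        have hv' : x₀ ≠ (σ T').symm (σ T v) := by
          intro hcon
          apply hv
          have h6 : (σ T').symm (σ T v) = (σ T').symm (σ T x₀) := by
            rw [hτR x₀ hx₀]; exact hcon.symm
          exact (σ T).injective ((σ T').symm.injective h6)
        have e1 : ¬ G₀.Adj x₀ v := hiso v
        have e2 : ¬ G₀.Adj x₀ ((σ T').symm (σ T v)) := hiso _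
        have e3 : x₀ ≠ v := fun h => hv h.symm
        tauto
    refine hsep T hTT1 T' hTT2 ⟨(σ T).trans (σ T').symm, ⟨fun r hr => ?_, fun u v => ?_⟩, ?_⟩
    · exact hτR r hr
    · have h5 := hτ u v
      rw [sw_adj, sw_adj] at h5
      have h6 := hmem u
      have h7 := hmem v
      have h8 : (σ T').symm (σ T u) ≠ (σ T').symm (σ T v) ↔ u ≠ v := by
        constructor
        · rintro h rfl; exact h rfl
        · intro h hcon
          exact h ((σ T).injective ((σ T').symm.injective hcon))
      change G₀.Adj ((σ T').symm (σ T u)) ((σ T').symm (σ T v)) ↔ G₀.Adj u v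
      by_cases huv : u = v
      · subst huv
        exact ⟨fun h => absurd rfl h.ne, fun h => absurd rfl h.ne⟩
      · tauto
    · ext w
      rw [Finset.mem_map]
      constructor
      · intro hw
        refine ⟨(σ T).symm (σ T' w), ?_, ?_⟩
        · rw [hmem, Equiv.apply_symm_apply, Equiv.symm_apply_apply]; exact hw
        · change (σ T').symm (σ T ((σ T).symm (σ T' w))) = w
          rw [Equiv.apply_symm_apply, Equiv.symm_apply_apply]
      · rintro ⟨v, hv, rfl⟩
        exact (hmem v).1 hv
  have hcard := Finset.card_le_card_of_injOn (s := 𝒯) (t := Finset.univ) Φ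
    (fun T _ => Finset.mem_univ _) hinj
  have hc2 : (Finset.univ : Finset (Bool × Bool × (R → α))).card
      = 4 * Fintype.card α ^ R.card := by
    rw [Finset.card_univ, Fintype.card_prod, Fintype.card_prod, Fintype.card_bool,
      Fintype.card_fun, Fintype.card_coe, ← mul_assoc]
    norm_num
  rw [← hc2]
  exact hcard

end Pool.Agent.NTW
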