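import Pool.Agent.NTW.St

/-!
# MP_e73337_co, few near twins: module GRP (helper14)
-/

set_option autoImplicit false

namespace Pool.Agent.NTW

open Finset

namespace GRP

variable {α : Type}

/-- `v` is in the orbit of `u`, or the two orbits are not homogeneous to each other. -/
def r (G : SimpleGraph α) (R : Finset α) (u v : α) : Prop :=
  (∃ τ ∈ FG G R, τ u = v) ∨ ∃ σ ∈ FG G R, ∃ σ' ∈ FG G R, ¬ (G.Adj (σ u) (σ' v) ↔ G.Adj u v)

theorem adj {G : SimpleGraph α} {R : Finset α} {τ : Equiv.Perm α} (h : τ ∈ FG G R) (u v : α) :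
    G.Adj (τ u) (τ v) ↔ G.Adj u v := h.2 u v

theorem fix {G : SimpleGraph α} {R : Finset α} {τ : Equiv.Perm α} (h : τ ∈ FG G R) (x : α)
    (hx : x ∈ R) : τ x = x := h.1 x hx

theorem self_mem (G : SimpleGraph α) (R : Finset α) (y : α) : y ∈ orb G R y :=
  ⟨1, (FG G R).one_mem, rfl⟩

theorem orb_map {G : SimpleGraph α} {R : Finset α} {y z : α} (hz : z ∈ orb G R y)
    {τ : Equiv.Perm α} (h : τ ∈ FG G R) : τ z ∈ orb G R y := by
  obtain ⟨σ, hσ, rfl⟩ := hz
  exact ⟨τ * σ, (FG G R).mul_mem h hσ, rfl⟩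

theorem orb_trans {G : SimpleGraph α} {R : Finset α} {y z w : α} (hz : z ∈ orb G R y)
    (hw : w ∈ orb G R y) : ∃ σ ∈ FG G R, σ w = z := by
  obtain ⟨a, ha, rfl⟩ := hz
  obtain ⟨b, hb, rfl⟩ := hw
  exact ⟨a * b⁻¹, (FG G R).mul_mem ha ((FG G R).inv_mem hb), by simp⟩

theorem orb_eq {G : SimpleGraph α} {R : Finset α} {u v : α} (h : u ∈ orb G R v) :
    orb G R u = orb G R v := by
  obtain ⟨a, ha, rfl⟩ := h
  ext z
  constructor
  · rintro ⟨b, hb, rfl⟩
    exact ⟨b * a, (FG G R).mul_mem hb ha, rfl⟩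
  · rintro ⟨b, hb, rfl⟩
    exact ⟨b * a⁻¹, (FG G R).mul_mem hb ((FG G R).inv_mem ha), by simp⟩

/-- a singleton class in a set of at most three elements -/
theorem single [Finite α] (O : Set α) (hO : O.ncard ≤ 3) (p : α → Prop) (a b : α) (ha : a ∈ O)
    (hb : b ∈ O) (hab : ¬ (p a ↔ p b)) : ∃ w ∈ O, ∀ z ∈ O, (p z ↔ p w) → z = w := by
  classical
  by_contra hcon
  push Not at hcon
  obtain ⟨a', ha', h1, h2⟩ := hcon a ha
  obtain ⟨b', hb', h3, h4⟩ := hcon b hb
  have hsub : ((({a, a', b, b'} : Finset α)) : Set α) ⊆ O := by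
    intro x hx
    simp only [coe_insert, coe_singleton, Set.mem_insert_iff, Set.mem_singleton_iff] at hx
    rcases hx with rfl | rfl | rfl | rfl <;> assumption
  have hle := Set.ncard_le_ncard hsub (Set.toFinite O)
  rw [Set.ncard_coe_finset] at hle
  have e1 : a ≠ a' := fun h => h2 h.symm
  have e2 : a ≠ b := by rintro rfl; exact hab Iff.rfl
  have e3 : a ≠ b' := by rintro rfl; exact hab h3
  have e4 : a' ≠ b := by rintro rfl; exact hab h1.symm
  have e5 : a' ≠ b' := by rintro rfl; exact hab (h1.symm.trans h3)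
  have e6 : b ≠ b' := fun h => h4 h.symm
  have h5 : ({a, a', b, b'} : Finset α).card = 4 := by
    rw [card_insert_of_notMem, card_insert_of_notMem, card_insert_of_notMem, card_singleton]
    · simpa using e6
    · simp [e4, e5]
    · simp [e1, e2, e3]
  omega

theorem step [Finite α] {G : SimpleGraph α} {R : Finset α}
    (H : ∀ y : α, (orb G R y).ncard ≤ 3 ∨
      ∀ τ ∈ FG G R, ∀ x, x ≠ y → x ≠ τ y → (G.Adj x y ↔ G.Adj x (τ y)))
    {τ : Equiv.Perm α} (hτ : τ ∈ FG G R) {u v : α}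
    (h : ∃ σ ∈ FG G R, ∃ σ' ∈ FG G R, ¬ (G.Adj (σ u) (σ' v) ↔ G.Adj u v))
    (hu : ∀ z ∈ orb G R u, τ z = z) : ∀ z ∈ orb G R v, τ z = z := by
  by_cases huv : u ∈ orb G R v
  · rw [← orb_eq huv]
    exact hu
  obtain ⟨σ, hσ, σ', hσ', hn⟩ := h
  -- normalize
  have hρ : σ⁻¹ * σ' ∈ FG G R := (FG G R).mul_mem ((FG G R).inv_mem hσ) hσ'
  have hρn : ¬ (G.Adj u v ↔ G.Adj u ((σ⁻¹ * σ') v)) := by
    intro h1
    apply hn
    rw [h1, ← adj hσ u ((σ⁻¹ * σ') v)]
    simp
  have hρO : (σ⁻¹ * σ') v ∈ orb G R v := ⟨_, hρ, rfl⟩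
  have hcard : (orb G R v).ncard ≤ 3 := by
    rcases H v with h1 | h1
    · exact h1
    · exact absurd (h1 _ hρ u (fun h => huv (h ▸ self_mem G R v)) (fun h => huv (h ▸ hρO))) hρn
  obtain ⟨w, hw, huniq⟩ := single (orb G R v) hcard (fun z => G.Adj u z) v ((σ⁻¹ * σ') v)
    (self_mem G R v) hρO hρn
  intro z hz
  obtain ⟨κ, hκ, hκw⟩ := orb_trans hz hw
  have h2 : τ (κ u) = κ u := hu _ ⟨κ, hκ, rfl⟩
  have h3 : κ⁻¹ (τ z) ∈ orb G R v := orb_map (orb_map hz hτ) ((FG G R).inv_mem hκ)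
  have h4 : G.Adj u (κ⁻¹ (τ z)) ↔ G.Adj u w := by
    have h5 : G.Adj u (κ⁻¹ (τ z)) ↔ G.Adj (κ u) (τ z) := by
      rw [← adj hκ u (κ⁻¹ (τ z))]
      simp
    have h6 : G.Adj (κ u) (τ z) ↔ G.Adj (κ u) z := by
      rw [← adj hτ (κ u) z, h2]
    have h7 : G.Adj (κ u) z ↔ G.Adj u w := by
      rw [← hκw, adj hκ]
    exact h5.trans (h6.trans h7)
  have h8 := huniq _ h3 h4
  rw [Equiv.Perm.inv_eq_iff_eq] at h8
  rw [h8, hκw]

theorem step_iff [Finite α] {G : SimpleGraph α} {R : Finset α}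
    (H : ∀ y : α, (orb G R y).ncard ≤ 3 ∨
      ∀ τ ∈ FG G R, ∀ x, x ≠ y → x ≠ τ y → (G.Adj x y ↔ G.Adj x (τ y)))
    {τ : Equiv.Perm α} (hτ : τ ∈ FG G R) {u v : α} (h : r G R u v) :
    (∀ z ∈ orb G R u, τ z = z) ↔ ∀ z ∈ orb G R v, τ z = z := by
  rcases h with h | h
  · have h1 : orb G R v = orb G R u := orb_eq h
    rw [h1]
  · refine ⟨step H hτ h, step H hτ ?_⟩
    obtain ⟨σ, hσ, σ', hσ', hn⟩ := h
    refine ⟨σ', hσ', σ, hσ, ?_⟩
    rw [G.adj_comm (σ' v), G.adj_comm v]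
    exact hn

theorem gen_iff [Finite α] {G : SimpleGraph α} {R : Finset α}
    (H : ∀ y : α, (orb G R y).ncard ≤ 3 ∨
      ∀ τ ∈ FG G R, ∀ x, x ≠ y → x ≠ τ y → (G.Adj x y ↔ G.Adj x (τ y)))
    {τ : Equiv.Perm α} (hτ : τ ∈ FG G R) {u v : α} (h : Relation.EqvGen (r G R) u v) :
    (∀ z ∈ orb G R u, τ z = z) ↔ ∀ z ∈ orb G R v, τ z = z := by
  induction h with
  | rel u v h => exact step_iff H hτ h
  | refl u => exact Iff.rfl
  | symm u v _ ih => exact ih.symm
  | trans u v w _ _ ih1 ih2 => exact ih1.trans ih2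

end GRP

open GRP in
theorem t_GRP : S_GRP := by
  classical
  intro α _ _ G R H
  set s : Setoid α := Relation.EqvGen.setoid (r G R) with hs
  set lab : α → α := fun x => (Quotient.mk s x).out with hlab
  have hl : ∀ x y, lab x = lab y ↔ Relation.EqvGen (r G R) x y := by
    intro x y
    rw [hlab]
    show (Quotient.mk s x).out = (Quotient.mk s y).out ↔ _
    rw [Quotient.out_inj, Quotient.eq]
    rfl
  have hlr : ∀ x y, r G R x y → lab x = lab y := fun x y h => (hl x y).2 (.rel _ _ h)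
  have h1 : ∀ τ ∈ FG G R, ∀ x, lab (τ x) = lab x := fun τ hτ x =>
    (hlr x (τ x) (Or.inl ⟨τ, hτ, rfl⟩)).symm
  refine ⟨lab, h1, ?_, ?_⟩
  · intro i τ hτ
    have hτi : τ⁻¹ ∈ FG G R := (FG G R).inv_mem hτ
    let τ' : Equiv.Perm α :=
      { toFun := fun x => if lab x = i then τ x else x
        invFun := fun x => if lab x = i then τ⁻¹ x else x
        left_inv := by
          intro x
          by_cases hx : lab x = i
          · simp [hx, h1 τ hτ]
          · simp [hx]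
        right_inv := by
          intro x
          by_cases hx : lab x = i
          · have h9 : lab (τ⁻¹ x) = i := (h1 _ hτi x).trans hx
            show (if lab (if lab x = i then τ⁻¹ x else x) = i then
              τ (if lab x = i then τ⁻¹ x else x) else (if lab x = i then τ⁻¹ x else x)) = x
            rw [if_pos hx, if_pos h9]
            exact Equiv.apply_symm_apply τ x
          · simp [hx] }
    have hval : ∀ x, τ' x = if lab x = i then τ x else x := fun x => rfl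
    have hcross : ∀ u v, lab u = i → lab v ≠ i → (G.Adj (τ u) v ↔ G.Adj u v) := by
      intro u v hu hv
      by_contra hcon
      exact hv ((hlr u v (Or.inr ⟨τ, hτ, 1, (FG G R).one_mem, hcon⟩)).symm.trans hu)
    refine ⟨τ', ⟨?_, ?_⟩, hval⟩
    · intro x hx
      rw [hval]
      split_ifs
      · exact fix hτ x hx
      · rfl
    · intro u v
      rw [hval, hval]
      split_ifs with hu hv hv
      · exact adj hτ u v
      · exact hcross u v hu hv
      · rw [G.adj_comm, hcross v u hv hu, G.adj_comm]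
      · exact Iff.rfl
  · intro i
    by_cases hi : ∃ y, lab y = i
    · obtain ⟨y, hy⟩ := hi
      refine ⟨y, fun τ hτ hfix x hx => ?_⟩
      have h2 : Relation.EqvGen (r G R) y x := (hl y x).1 (hy.trans hx.symm)
      exact (gen_iff H hτ h2).1 hfix x (self_mem G R x)
    · refine ⟨i, fun τ hτ _ x hx => absurd ⟨x, hx⟩ hi⟩

end Pool.Agent.NTW
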