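import Mathlib
import Pool.Agent.NTW.St

/-! Module NTW_HIT (MP_e73337_co), helper52: greedy hitting set. -/

set_option autoImplicit false

namespace Pool.Agent.NTW

open Finset

theorem hit_step {α : Type} [Fintype α] [DecidableEq α] (B : Finset (Finset α)) (D M : ℕ)
    (hN : Fintype.card α = M + D) (hD : 1 ≤ D) (hB : ∀ A ∈ B, D ≤ A.card) :
    ∃ x : α, (M + D) * (B.filter fun A => x ∉ A).card ≤ M * B.card := by
  have hne : (univ : Finset α).Nonempty := by
    rw [← Finset.card_pos, Finset.card_univ, hN]; omega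
  have hex : ∃ x : α, D * B.card ≤ (M + D) * (B.filter fun A => x ∈ A).card := by
    by_contra hcon
    push Not at hcon
    have h1 : ∑ x : α, (M + D) * (B.filter fun A => x ∈ A).card < ∑ _x : α, D * B.card :=
      Finset.sum_lt_sum_of_nonempty hne fun x _ => hcon x
    rw [← Finset.mul_sum, Finset.sum_const, Finset.card_univ, hN, smul_eq_mul] at h1
    have h2 : ∑ x : α, (B.filter fun A => x ∈ A).card = ∑ A ∈ B, A.card := by
      have : ∀ x : α, (B.filter fun A => x ∈ A).card = ∑ A ∈ B, if x ∈ A then 1 else 0 := by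
        intro x; rw [Finset.card_filter]
      simp_rw [this]
      rw [Finset.sum_comm]
      refine Finset.sum_congr rfl fun A _ => ?_
      simp
    have h3 : D * B.card ≤ ∑ A ∈ B, A.card := by
      calc D * B.card = ∑ _A ∈ B, D := by simp [mul_comm]
        _ ≤ _ := Finset.sum_le_sum hB
    rw [h2] at h1
    have h4 := Nat.mul_le_mul_left (M + D) h3
    omega
  obtain ⟨x, hx⟩ := hex
  refine ⟨x, ?_⟩
  have h5 := Finset.card_filter_add_card_filter_not (s := B) (fun A => x ∈ A)
  have h6 : (M + D) * B.card = M * B.card + D * B.card := by ring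
  have h7 : (M + D) * (B.filter fun A => x ∈ A).card + (M + D) * (B.filter fun A => x ∉ A).card
      = (M + D) * B.card := by rw [← h5]; ring
  omega

theorem t_HIT : S_HIT := by
  intro α _ _ 𝒜 D n k hD hA hn hk
  rcases 𝒜.eq_empty_or_nonempty with h | ⟨A0, hA0⟩
  · exact ⟨∅, by simp, by simp [h]⟩
  have hDN : D ≤ Fintype.card α := (hA A0 hA0).trans (Finset.card_le_univ A0)
  obtain ⟨M, hM⟩ : ∃ M, Fintype.card α = M + D := ⟨Fintype.card α - D, by omega⟩
  have key : ∀ j : ℕ, ∃ R : Finset α, R.card ≤ j ∧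
      (𝒜.filter fun A => Disjoint A R).card * (M + D) ^ j ≤ 𝒜.card * M ^ j := by
    intro j
    induction j with
    | zero => exact ⟨∅, by simp, by simp⟩
    | succ j ih =>
      obtain ⟨R, hR, hRc⟩ := ih
      obtain ⟨x, hx⟩ := hit_step (𝒜.filter fun A => Disjoint A R) D M hM hD
        (fun A hA' => hA A (Finset.mem_filter.mp hA').1)
      refine ⟨insert x R, (Finset.card_insert_le x R).trans (by omega), ?_⟩
      have hfil : (𝒜.filter fun A => Disjoint A (insert x R))
          = (𝒜.filter fun A => Disjoint A R).filter fun A => x ∉ A := by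
        ext A
        simp only [Finset.mem_filter, Finset.disjoint_insert_right]
        tauto
      rw [hfil]
      calc ((𝒜.filter fun A => Disjoint A R).filter fun A => x ∉ A).card * (M + D) ^ (j + 1)
          = ((M + D) * ((𝒜.filter fun A => Disjoint A R).filter fun A => x ∉ A).card)
            * (M + D) ^ j := by ring
        _ ≤ (M * (𝒜.filter fun A => Disjoint A R).card) * (M + D) ^ j :=
          Nat.mul_le_mul_right _ hx
        _ = M * ((𝒜.filter fun A => Disjoint A R).card * (M + D) ^ j) := by ring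
        _ ≤ M * (𝒜.card * M ^ j) := Nat.mul_le_mul_left _ hRc
        _ = 𝒜.card * M ^ (j + 1) := by ring
  -- Bernoulli
  have hk1 : 1 ≤ k := by
    rcases Nat.eq_zero_or_pos k with h0 | h0
    · subst h0; omega
    · exact h0
  have hber : 2 * M ^ k ≤ (M + D) ^ k := by
    obtain ⟨k', rfl⟩ : ∃ k', k = k' + 1 := ⟨k - 1, by omega⟩
    have hb : ∀ i : ℕ, M ^ (i + 1) + (i + 1) * D * M ^ i ≤ (M + D) ^ (i + 1) := by
      intro i
      induction i with
      | zero => simp
      | succ i ih =>
        calc M ^ (i + 1 + 1) + (i + 1 + 1) * D * M ^ (i + 1)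
            ≤ M ^ (i + 1 + 1) + (i + 1 + 1) * D * M ^ (i + 1) + (i + 1) * D * D * M ^ i :=
              Nat.le_add_right _ _
          _ = (M ^ (i + 1) + (i + 1) * D * M ^ i) * (M + D) := by ring
          _ ≤ (M + D) ^ (i + 1) * (M + D) := Nat.mul_le_mul_right _ ih
          _ = (M + D) ^ (i + 1 + 1) := by ring
    have h1 := hb k'
    have h2 : M ^ (k' + 1) ≤ (k' + 1) * D * M ^ k' := by
      calc M ^ (k' + 1) = M * M ^ k' := by ring
        _ ≤ ((k' + 1) * D) * M ^ k' := Nat.mul_le_mul_right _ (by omega)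
    omega
  obtain ⟨R, hR, hRc⟩ := key (n * k)
  refine ⟨R, hR, ?_⟩
  have hpow : 2 ^ n * M ^ (n * k) ≤ (M + D) ^ (n * k) := by
    calc 2 ^ n * M ^ (n * k) = (2 * M ^ k) ^ n := by
          rw [mul_pow, ← pow_mul, mul_comm k n]
      _ ≤ ((M + D) ^ k) ^ n := Nat.pow_le_pow_left hber n
      _ = (M + D) ^ (n * k) := by rw [← pow_mul, mul_comm k n]
  have hpos : 0 < (M + D) ^ (n * k) := Nat.pow_pos (by omega)
  have hlt : (𝒜.filter fun A => Disjoint A R).card * 2 ^ n * (M + D) ^ (n * k)
      < 2 ^ n * (M + D) ^ (n * k) := by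
    calc (𝒜.filter fun A => Disjoint A R).card * 2 ^ n * (M + D) ^ (n * k)
        = 2 ^ n * ((𝒜.filter fun A => Disjoint A R).card * (M + D) ^ (n * k)) := by ring
      _ ≤ 2 ^ n * (𝒜.card * M ^ (n * k)) := Nat.mul_le_mul_left _ hRc
      _ = 𝒜.card * (2 ^ n * M ^ (n * k)) := by ring
      _ ≤ 𝒜.card * (M + D) ^ (n * k) := Nat.mul_le_mul_left _ hpow
      _ < 2 ^ n * (M + D) ^ (n * k) := Nat.mul_lt_mul_of_pos_right hn hpos
  have hlt2 := Nat.lt_of_mul_lt_mul_right hlt
  have hzero : (𝒜.filter fun A => Disjoint A R).card = 0 := by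
    by_contra h0
    have h1 : 1 ≤ (𝒜.filter fun A => Disjoint A R).card := Nat.one_le_iff_ne_zero.mpr h0
    have := Nat.mul_le_mul_right (2 ^ n) h1
    omega
  rw [Finset.card_eq_zero, Finset.filter_eq_empty_iff] at hzero
  intro A hA'
  have := hzero hA'
  rwa [Finset.disjoint_iff_inter_eq_empty, ← Ne, ← Finset.nonempty_iff_ne_empty] at this

end Pool.Agent.NTW
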