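import Mathlib
import Pool.Agent.NTW.St5

/-!
# Module HITP: hitting by representatives of parts
-/

set_option autoImplicit false

namespace Pool.Agent.NTW

open Finset

/-- HITP. -/
theorem t_HITP (h : S_HIT) : S_HITP := by
  classical
  intro α _ _ c 𝒜 D n k hD hA hcard hk
  have hex : ∀ i : {i // i ∈ (univ : Finset α).image c}, ∃ x : α, c x = i.1 := by
    intro i
    obtain ⟨x, -, hx⟩ := Finset.mem_image.1 i.2
    exact ⟨x, hx⟩
  choose v hv using hex
  have h1 : ∀ A' ∈ 𝒜.image fun A => (univ.filter fun i => v i ∈ A), D ≤ A'.card := by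
    intro A' hA'
    obtain ⟨A, hAm, rfl⟩ := Finset.mem_image.1 hA'
    refine (hA A hAm).trans ?_
    rw [← Finset.card_map (Function.Embedding.subtype fun i => i ∈ (univ : Finset α).image c)]
    apply Finset.card_le_card
    intro i hi
    obtain ⟨hi1, hi2⟩ := Finset.mem_filter.1 hi
    refine Finset.mem_map.2 ⟨⟨i, hi1⟩, Finset.mem_filter.2 ⟨Finset.mem_univ _, ?_⟩, rfl⟩
    exact hi2 _ (hv ⟨i, hi1⟩)
  obtain ⟨R, hR1, hR2⟩ := h {i // i ∈ (univ : Finset α).image c} _ D n k hD h1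
    (Finset.card_image_le.trans_lt hcard) (by rw [Fintype.card_coe]; exact hk)
  refine ⟨R.image v, Finset.card_image_le.trans hR1, ?_⟩
  intro A hAm
  obtain ⟨i, hi⟩ := hR2 _ (Finset.mem_image_of_mem _ hAm)
  obtain ⟨hi1, hi2⟩ := Finset.mem_inter.1 hi
  exact ⟨v i, Finset.mem_inter.2 ⟨(Finset.mem_filter.1 hi1).2, Finset.mem_image_of_mem v hi2⟩⟩

end Pool.Agent.NTW
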