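import Pool.Agent.NTW.St5

/-
HOM (MP_e73337_co, NTW): a function killed by all neighbour sums is homogeneous of degree p/2 in
Fourier space; restriction to a set U (helper3).
-/

set_option autoImplicit false

namespace Pool.Agent.NTW

open Finset

/-- the character `(-1)^|S ∩ T|` -/
noncomputable def homChi {α : Type} [DecidableEq α] (S T : Finset α) : ℚ :=
  ∏ i ∈ T, if i ∈ S then (-1 : ℚ) else 1

theorem hom_chi_self {α : Type} [DecidableEq α] (S T : Finset α) (h : S ⊆ T) :
    homChi S T = (-1 : ℚ) ^ S.card := by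
  unfold homChi
  rw [Finset.prod_ite, Finset.prod_const, Finset.prod_const_one, mul_one]
  congr 2
  ext x
  simp only [mem_filter]
  exact ⟨fun hx => hx.2, fun hx => ⟨h hx, hx⟩⟩

theorem hom_chi_sub {α : Type} [DecidableEq α] (S T : Finset α) (h : T ⊆ S) :
    homChi S T = (-1 : ℚ) ^ T.card := by
  unfold homChi
  rw [Finset.prod_congr rfl (fun i hi => if_pos (h hi)), Finset.prod_const]

theorem hom_chi_union {α : Type} [DecidableEq α] (S T T' : Finset α) (h : Disjoint T T') :
    homChi S (T ∪ T') = homChi S T * homChi S T' := by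
  unfold homChi
  rw [Finset.prod_union h]

theorem hom_chi_sq {α : Type} [DecidableEq α] (S T : Finset α) : homChi S T * homChi S T = 1 := by
  unfold homChi
  rw [← Finset.prod_mul_distrib]
  refine Finset.prod_eq_one fun i _ => ?_
  split_ifs <;> norm_num

theorem hom_chi_symm {α : Type} [DecidableEq α] (S T : Finset α) (i : α) :
    homChi (symmDiff S {i}) T = (if i ∈ T then (-1 : ℚ) else 1) * homChi S T := by
  have h : ∀ j, (if j ∈ symmDiff S {i} then (-1 : ℚ) else 1)
      = (if j = i then (-1 : ℚ) else 1) * (if j ∈ S then (-1 : ℚ) else 1) := by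
    intro j
    simp only [Finset.mem_symmDiff, Finset.mem_singleton]
    by_cases hj : j = i <;> by_cases hS : j ∈ S <;> simp [hj, hS]
  unfold homChi
  rw [Finset.prod_congr rfl (fun j _ => h j), Finset.prod_mul_distrib]
  congr 1
  rw [Finset.prod_ite_eq' T i (fun _ => (-1 : ℚ))]

theorem hom_F_zero {α : Type} [Fintype α] [DecidableEq α] (f : Finset α → ℚ)
    (hf : ∀ S, ∑ i : α, f (symmDiff S {i}) = 0) (T : Finset α)
    (hT : 2 * T.card ≠ Fintype.card α) : ∑ S, homChi S T * f S = 0 := by
  have h1 : ∀ i : α, ∑ S, homChi S T * f (symmDiff S {i})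
      = (if i ∈ T then (-1 : ℚ) else 1) * ∑ S, homChi S T * f S := by
    intro i
    have hinv : Function.Involutive (fun S : Finset α => symmDiff S {i}) := fun S => by
      simp
    rw [← Equiv.sum_comp (hinv.toPerm _) (fun S => homChi S T * f (symmDiff S {i})),
      Finset.mul_sum]
    refine Finset.sum_congr rfl fun S _ => ?_
    show homChi (symmDiff S {i}) T * f (symmDiff (symmDiff S {i}) {i}) = _
    rw [hom_chi_symm, symmDiff_assoc, symmDiff_self, symmDiff_bot]
    ring
  have h2 : ∑ S, homChi S T * ∑ i : α, f (symmDiff S {i}) = 0 := by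
    refine Finset.sum_eq_zero fun S _ => ?_
    rw [hf, mul_zero]
  have h3 : ∑ S, homChi S T * ∑ i : α, f (symmDiff S {i})
      = (∑ i : α, if i ∈ T then (-1 : ℚ) else 1) * ∑ S, homChi S T * f S := by
    rw [Finset.sum_mul]
    simp only [Finset.mul_sum]
    rw [Finset.sum_comm]
    refine Finset.sum_congr rfl fun i _ => ?_
    rw [h1 i, Finset.mul_sum]
  have h4 : (∑ i : α, if i ∈ T then (-1 : ℚ) else 1) = (Fintype.card α : ℚ) - 2 * T.card := by
    have e : ∀ i : α, (if i ∈ T then (-1 : ℚ) else 1) = 1 - (if i ∈ T then (2 : ℚ) else 0) := by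
      intro i
      split_ifs <;> norm_num
    rw [Finset.sum_congr rfl (fun i _ => e i), Finset.sum_sub_distrib, Finset.sum_ite_mem]
    simp
    ring
  rw [h2, h4] at h3
  rcases mul_eq_zero.1 h3.symm with h | h
  · exfalso
    apply hT
    have : (2 * T.card : ℚ) = (Fintype.card α : ℚ) := by linarith
    exact_mod_cast this
  · exact h

theorem hom_F_ne {α : Type} [Fintype α] [DecidableEq α] (f : Finset α → ℚ)
    (hf : ∃ S, f S ≠ 0) : ∃ T, ∑ S, homChi S T * f S ≠ 0 := by
  by_contra hcon
  push Not at hcon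
  obtain ⟨S₀, hS₀⟩ := hf
  apply hS₀
  have h1 : ∑ T : Finset α, homChi S₀ T * ∑ S, homChi S T * f S = 0 :=
    Finset.sum_eq_zero fun T _ => by rw [hcon T, mul_zero]
  have h2 : ∀ S : Finset α, ∑ T : Finset α, homChi S₀ T * homChi S T
      = ∏ i : α, (1 + (if i ∈ S₀ then (-1 : ℚ) else 1) * (if i ∈ S then (-1 : ℚ) else 1)) := by
    intro S
    rw [Finset.prod_one_add, Finset.powerset_univ]
    refine Finset.sum_congr rfl fun T _ => ?_
    unfold homChi
    rw [← Finset.prod_mul_distrib]
  have h3 : ∀ S : Finset α, S ≠ S₀ → ∑ T : Finset α, homChi S₀ T * homChi S T = 0 := by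
    intro S hS
    rw [h2]
    have : ∃ i, ¬ (i ∈ S ↔ i ∈ S₀) := by
      by_contra hc
      push Not at hc
      exact hS (Finset.ext fun i => by have := hc i; tauto)
    obtain ⟨i, hi⟩ := this
    refine Finset.prod_eq_zero (Finset.mem_univ i) ?_
    by_cases h4 : i ∈ S <;> by_cases h5 : i ∈ S₀ <;> simp [h4, h5] <;> tauto
  have h4 : ∑ T : Finset α, homChi S₀ T * homChi S₀ T = (2 : ℚ) ^ Fintype.card α := by
    rw [Finset.sum_congr rfl (fun T _ => hom_chi_sq S₀ T)]
    simp
  have h5 : ∑ T : Finset α, homChi S₀ T * ∑ S, homChi S T * f S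
      = (2 : ℚ) ^ Fintype.card α * f S₀ := by
    simp only [Finset.mul_sum]
    rw [Finset.sum_comm]
    rw [Finset.sum_eq_single S₀]
    · rw [← h4, Finset.sum_mul]
      exact Finset.sum_congr rfl fun T _ => by ring
    · intro S _ hS
      have : ∑ T : Finset α, homChi S₀ T * (homChi S T * f S)
          = (∑ T : Finset α, homChi S₀ T * homChi S T) * f S := by
        rw [Finset.sum_mul]
        exact Finset.sum_congr rfl fun T _ => by ring
      rw [this, h3 S hS, zero_mul]
    · intro h
      exact absurd (Finset.mem_univ _) h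
  rw [h1] at h5
  rcases mul_eq_zero.1 h5.symm with h | h
  · exact absurd h (by positivity)
  · exact h

theorem hom_split {α : Type} [Fintype α] [DecidableEq α] (U : Finset α) (φ : Finset α → ℚ) :
    ∑ S, φ S = ∑ X ∈ U.powerset, ∑ Y ∈ Uᶜ.powerset, φ (X ∪ Y) := by
  rw [← Finset.sum_product']
  symm
  refine Finset.sum_bij' (fun p _ => p.1 ∪ p.2) (fun S _ => (S ∩ U, S ∩ Uᶜ)) ?_ ?_ ?_ ?_ ?_
  · intro p _
    exact Finset.mem_univ _
  · intro S _
    simp only [Finset.mem_product, Finset.mem_powerset]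
    exact ⟨Finset.inter_subset_right, Finset.inter_subset_right⟩
  · rintro ⟨X, Y⟩ hp
    simp only [Finset.mem_product, Finset.mem_powerset] at hp
    obtain ⟨hX, hY⟩ := hp
    have hY' : ∀ x ∈ Y, x ∉ U := fun x hx => Finset.mem_compl.1 (hY hx)
    simp only [Prod.mk.injEq]
    constructor
    · ext x
      simp only [Finset.mem_inter, Finset.mem_union]
      constructor
      · rintro ⟨h | h, hU⟩
        · exact h
        · exact absurd hU (hY' x h)
      · intro h
        exact ⟨Or.inl h, hX h⟩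
    · ext x
      simp only [Finset.mem_inter, Finset.mem_union, Finset.mem_compl]
      constructor
      · rintro ⟨h | h, hU⟩
        · exact absurd (hX h) hU
        · exact h
      · intro h
        exact ⟨Or.inr h, hY' x h⟩
  · intro S _
    show S ∩ U ∪ S ∩ Uᶜ = S
    rw [← Finset.inter_union_distrib_left, Finset.union_compl, Finset.inter_univ]
  · intro p _
    rfl

/-- vanishing Fourier coefficients above `e` give degree at most `e` -/
theorem hom_deg {α : Type} [DecidableEq α] (U : Finset α) (e : ℕ) (g : Finset α → ℚ)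
    (h : ∀ T ⊆ U, e < T.card → ∑ X ∈ U.powerset, homChi X T * g X = 0) : DegLE U e g := by
  intro T hT hc
  have h1 : ∑ T'' ∈ (U \ T).powerset, ∑ X ∈ U.powerset, homChi X (T ∪ T'') * g X = 0 := by
    refine Finset.sum_eq_zero fun T'' hT'' => h _ ?_ ?_
    · exact Finset.union_subset hT ((Finset.mem_powerset.1 hT'').trans Finset.sdiff_subset)
    · exact lt_of_lt_of_le hc (Finset.card_le_card Finset.subset_union_left)
  rw [Finset.sum_comm] at h1
  have h2 : ∀ X ∈ U.powerset, ∑ T'' ∈ (U \ T).powerset, homChi X (T ∪ T'') * g X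
      = if X ⊆ T then (2 : ℚ) ^ (U \ T).card * ((-1) ^ X.card * g X) else 0 := by
    intro X hX
    have hX' := Finset.mem_powerset.1 hX
    have e1 : ∀ T'' ∈ (U \ T).powerset, homChi X (T ∪ T'') * g X
        = (homChi X T * g X) * ∏ i ∈ T'', (if i ∈ X then (-1 : ℚ) else 1) := by
      intro T'' hT''
      rw [hom_chi_union]
      · unfold homChi; ring
      · refine Finset.disjoint_left.2 fun x hx hx' => ?_
        exact (Finset.mem_sdiff.1 (Finset.mem_powerset.1 hT'' hx')).2 hx
    rw [Finset.sum_congr rfl e1, ← Finset.mul_sum, ← Finset.prod_one_add]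
    split_ifs with hXT
    · rw [hom_chi_self X T hXT]
      have : ∏ i ∈ U \ T, (1 + if i ∈ X then (-1 : ℚ) else 1) = 2 ^ (U \ T).card := by
        rw [Finset.prod_congr rfl (g := fun _ => (2 : ℚ)) (fun i hi => ?_), Finset.prod_const]
        have : i ∉ X := fun h => (Finset.mem_sdiff.1 hi).2 (hXT h)
        rw [if_neg this]; norm_num
      rw [this]; ring
    · obtain ⟨i, hi, hi'⟩ := Finset.not_subset.1 hXT
      have : ∏ i ∈ U \ T, (1 + if i ∈ X then (-1 : ℚ) else 1) = 0 := by
        refine Finset.prod_eq_zero (i := i) (Finset.mem_sdiff.2 ⟨hX' hi, hi'⟩) ?_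
        rw [if_pos hi]; norm_num
      rw [this, mul_zero]
  rw [Finset.sum_congr rfl h2, ← Finset.sum_filter, ← Finset.mul_sum] at h1
  have h3 : U.powerset.filter (fun X => X ⊆ T) = T.powerset := by
    ext X
    simp only [Finset.mem_filter, Finset.mem_powerset]
    exact ⟨fun h => h.2, fun h => ⟨h.trans hT, h⟩⟩
  rw [h3] at h1
  rcases mul_eq_zero.1 h1 with h4 | h4
  · exact absurd h4 (by positivity)
  · exact h4

theorem t_HOM : S_HOM := by
  intro α _ _ f hf hne U
  obtain ⟨T₀, hT₀⟩ := hom_F_ne f hne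
  set T₂ := T₀ \ U with hT₂
  set e := (T₀ ∩ U).card with he
  set g : Finset α → ℚ := fun X => ∑ Y ∈ Uᶜ.powerset, homChi Y T₂ * f (X ∪ Y) with hg
  have hT₂U : T₂ ⊆ Uᶜ := fun x hx => Finset.mem_compl.2 (Finset.mem_sdiff.1 hx).2
  -- the Fourier coefficients of g
  have hgF : ∀ T₁ ⊆ U, ∑ X ∈ U.powerset, homChi X T₁ * g X = ∑ S, homChi S (T₁ ∪ T₂) * f S := by
    intro T₁ hT₁
    rw [hom_split U]
    refine Finset.sum_congr rfl fun X hX => ?_
    rw [hg, Finset.mul_sum]
    refine Finset.sum_congr rfl fun Y hY => ?_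
    have hX' := Finset.mem_powerset.1 hX
    have hY' := Finset.mem_powerset.1 hY
    rw [hom_chi_union _ _ _ (Finset.disjoint_left.2 fun x hx hx' =>
      (Finset.mem_compl.1 (hT₂U hx')) (hT₁ hx))]
    have e1 : homChi (X ∪ Y) T₁ = homChi X T₁ := by
      unfold homChi
      refine Finset.prod_congr rfl fun i hi => ?_
      have : i ∉ Y := fun h => (Finset.mem_compl.1 (hY' h)) (hT₁ hi)
      simp [this]
    have e2 : homChi (X ∪ Y) T₂ = homChi Y T₂ := by
      unfold homChi
      refine Finset.prod_congr rfl fun i hi => ?_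
      have : i ∉ X := fun h => (Finset.mem_compl.1 (hT₂U hi)) (hX' h)
      simp [this]
    rw [e1, e2]
    ring
  have hcard0 : 2 * T₀.card = Fintype.card α := by
    by_contra h
    exact hT₀ (hom_F_zero f hf T₀ h)
  have hsplit0 : T₀.card = e + T₂.card := by
    rw [he, hT₂, add_comm]
    exact (Finset.card_sdiff_add_card_inter T₀ U).symm
  have hz : ∀ T₁ ⊆ U, T₁.card ≠ e → ∑ X ∈ U.powerset, homChi X T₁ * g X = 0 := by
    intro T₁ hT₁ hne
    rw [hgF T₁ hT₁]
    apply hom_F_zero f hf
    rw [Finset.card_union_of_disjoint (Finset.disjoint_left.2 fun x hx hx' =>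
      (Finset.mem_compl.1 (hT₂U hx')) (hT₁ hx))]
    omega
  have hnz : ∃ X ⊆ U, g X ≠ 0 := by
    have h1 : ∑ X ∈ U.powerset, homChi X (T₀ ∩ U) * g X ≠ 0 := by
      rw [hgF _ Finset.inter_subset_right]
      have : T₀ ∩ U ∪ T₂ = T₀ := by
        rw [hT₂, Finset.union_comm]
        exact Finset.sdiff_union_inter T₀ U
      rw [this]
      exact hT₀
    obtain ⟨X, hX, hX'⟩ := Finset.exists_ne_zero_of_sum_ne_zero h1
    exact ⟨X, Finset.mem_powerset.1 hX, fun h => hX' (by rw [h, mul_zero])⟩
  have hthird : ∀ X ⊆ U, g X ≠ 0 → ∃ Y : Finset α, Disjoint Y U ∧ f (X ∪ Y) ≠ 0 := by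
    intro X _ hX
    obtain ⟨Y, hY, hY'⟩ := Finset.exists_ne_zero_of_sum_ne_zero hX
    refine ⟨Y, ?_, fun h => hY' (by rw [h, mul_zero])⟩
    exact Finset.disjoint_left.2 fun x hx hx' =>
      (Finset.mem_compl.1 (Finset.mem_powerset.1 hY hx)) hx'
  have hfourth : ∀ X ⊆ U, ∀ X' ⊆ U,
      (∀ Y : Finset α, Disjoint Y U → f (X ∪ Y) = f (X' ∪ Y)) → g X = g X' := by
    intro X _ X' _ h
    rw [hg]
    refine Finset.sum_congr rfl fun Y hY => ?_
    rw [h Y (Finset.disjoint_left.2 fun x hx hx' =>
      (Finset.mem_compl.1 (Finset.mem_powerset.1 hY hx)) hx')]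
  have heU : e ≤ U.card := Finset.card_le_card Finset.inter_subset_right
  by_cases hcase : e ≤ U.card / 2
  · refine ⟨g, ?_, hnz, hthird, fun X hX X' hX' _ h => hfourth X hX X' hX' h⟩
    refine hom_deg U _ g fun T hT hc => hz T hT ?_
    omega
  · refine ⟨fun X => (-1 : ℚ) ^ X.card * g X, ?_, ?_, ?_, ?_⟩
    · refine hom_deg U _ _ fun T hT hc => ?_
      rw [← hz (U \ T) Finset.sdiff_subset (by
        rw [Finset.card_sdiff_of_subset hT]
        omega)]
      refine Finset.sum_congr rfl fun X hX => ?_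
      have hX' := Finset.mem_powerset.1 hX
      have h1 : (-1 : ℚ) ^ X.card = homChi X T * homChi X (U \ T) := by
        rw [← hom_chi_self X U hX', ← hom_chi_union _ _ _ Finset.disjoint_sdiff,
          Finset.union_sdiff_of_subset hT]
      rw [h1]
      have h2 := hom_chi_sq X T
      calc homChi X T * (homChi X T * homChi X (U \ T) * g X)
          = (homChi X T * homChi X T) * (homChi X (U \ T) * g X) := by ring
        _ = _ := by rw [h2, one_mul]
    · obtain ⟨X, hX, hX'⟩ := hnz
      exact ⟨X, hX, mul_ne_zero (pow_ne_zero _ (by norm_num)) hX'⟩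
    · intro X hX h
      exact hthird X hX (fun h0 => h (by simp only [h0, mul_zero]))
    · intro X hX X' hX' hc h
      simp only [hc, hfourth X hX X' hX' h]

end Pool.Agent.NTW
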