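import Pool.Agent.NTW.St5

/-!
Module NTW_KEY (MP_e73337_co): the counting inequality from HOM, TENU and CNT.
-/

set_option autoImplicit false

namespace Pool.Agent.NTW

open Finset Pool.Agent.Lib_helper61.SwitchBasic

section
variable {α : Type}

/-- Equivalence of vertex sets under the group. -/
def key_EE (G : SimpleGraph α) (R : Finset α) (X X' : Finset α) : Prop :=
  ∃ τ ∈ FG G R, X' = X.map τ.toEmbedding

theorem key_EE_equiv (G : SimpleGraph α) (R : Finset α) : Equivalence (key_EE G R) := by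
  refine ⟨fun X => ⟨1, one_mem _, ?_⟩, ?_, ?_⟩
  · ext x
    rw [Finset.mem_map_equiv]
    exact Iff.rfl
  · rintro X X' ⟨τ, hτ, rfl⟩
    refine ⟨τ⁻¹, inv_mem hτ, ?_⟩
    ext x
    rw [Finset.mem_map_equiv, Finset.mem_map_equiv]
    change x ∈ X ↔ τ.symm (τ x) ∈ X
    rw [Equiv.symm_apply_apply]
  · rintro X X' X'' ⟨τ, hτ, rfl⟩ ⟨σ, hσ, rfl⟩
    refine ⟨σ * τ, mul_mem hσ hτ, ?_⟩
    ext x
    rw [Finset.mem_map_equiv, Finset.mem_map_equiv, Finset.mem_map_equiv]
    exact Iff.rfl

/-- Image under a permutation which agrees with `τ` on `X`. -/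
theorem key_map_congr {τ τ' : Equiv.Perm α} {X : Finset α} (h : ∀ x ∈ X, τ' x = τ x) :
    X.map τ'.toEmbedding = X.map τ.toEmbedding := by
  ext x
  simp only [Finset.mem_map, Equiv.coe_toEmbedding]
  constructor
  · rintro ⟨y, hy, rfl⟩
    exact ⟨y, hy, (h y hy).symm⟩
  · rintro ⟨y, hy, rfl⟩
    exact ⟨y, hy, h y hy⟩

theorem key_map_id {τ : Equiv.Perm α} {X : Finset α} (h : ∀ x ∈ X, τ x = x) :
    X.map τ.toEmbedding = X := by
  ext x
  simp only [Finset.mem_map, Equiv.coe_toEmbedding]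
  constructor
  · rintro ⟨y, hy, rfl⟩
    rw [h y hy]
    exact hy
  · intro hx
    exact ⟨x, hx, h x hx⟩

end

theorem t_KEY (hHOM : S_HOM) (hTENU : S_TENU) (hCNT : S_CNT) : S_KEY := by
  classical
  intro α _ _ G₀ K H R x₀ hx₀ hiso f hsum hne hor hinv U lab m hm hU hglue hcnt
  obtain ⟨h, hdeg, hhne, hsupp, hext⟩ := hHOM α f hsum hne U
  -- the group preserves `U`
  have hUsymm : ∀ τ ∈ FG G₀ R, ∀ x, τ.symm x ∈ U ↔ x ∈ U := by
    intro τ hτ x
    constructor
    · intro hx
      have h1 := (hU τ hτ _ hx).1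
      rwa [Equiv.apply_symm_apply] at h1
    · intro hx
      exact (hU τ⁻¹ (inv_mem hτ) x hx).1
  obtain ⟨𝒯, hT1, hT2, hT3⟩ := hTENU α U lab (key_EE G₀ R) m hm (key_EE_equiv G₀ R)
    (by
      rintro X X' ⟨τ, -, rfl⟩
      rw [Finset.card_map])
    (by
      rintro X X' hX ⟨τ, hτ, rfl⟩ x hx
      obtain ⟨z, hz, rfl⟩ := Finset.mem_map.1 hx
      exact (hU τ hτ z (hX hz)).1)
    (by
      rintro i X X' hXU ⟨τ, hτ, rfl⟩ hX x hx
      obtain ⟨z, hz, rfl⟩ := Finset.mem_map.1 hx
      have : lab (τ z) = lab z := (hU τ hτ z (hXU hz)).2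
      exact this.trans (hX z hz))
    (by
      intro i X hXU hX
      exact hcnt i X hXU hX)
    h (U.card / 2)
    (by
      rintro i X X' Y hXU hYU ⟨τ, hτ, rfl⟩ hX hY
      have hX'U : X.map τ.toEmbedding ⊆ U := by
        intro x hx
        obtain ⟨z, hz, rfl⟩ := Finset.mem_map.1 hx
        exact (hU τ hτ z (hXU hz)).1
      have hd1 : Disjoint X Y := by
        rw [Finset.disjoint_left]
        intro x hx hx'
        exact hY x hx' (hX x hx)
      have hd2 : Disjoint (X.map τ.toEmbedding) Y := by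
        rw [Finset.disjoint_left]
        intro x hx hx'
        obtain ⟨z, hz, rfl⟩ := Finset.mem_map.1 hx
        have : lab (τ z) = lab z := (hU τ hτ z (hXU hz)).2
        exact hY _ hx' (this.trans (hX z hz))
      apply hext _ (Finset.union_subset hXU hYU) _ (Finset.union_subset hX'U hYU)
      · rw [Finset.card_union_of_disjoint hd1, Finset.card_union_of_disjoint hd2, Finset.card_map]
      · intro Z hZ
        obtain ⟨τ', hτ', he⟩ := hglue i τ hτ
        have e1 : X.map τ'.toEmbedding = X.map τ.toEmbedding := by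
          apply key_map_congr
          intro x hx
          rw [he x, if_pos ⟨hXU hx, hX x hx⟩]
        have e2 : Y.map τ'.toEmbedding = Y := by
          apply key_map_id
          intro x hx
          rw [he x, if_neg fun hc => hY x hx hc.2]
        have e3 : Z.map τ'.toEmbedding = Z := by
          apply key_map_id
          intro x hx
          rw [he x, if_neg fun hc => Finset.disjoint_left.1 hZ hx hc.1]
        rw [← hinv τ' hτ' (X ∪ Y ∪ Z), Finset.map_union, Finset.map_union, e1, e2, e3])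
    hdeg hhne
  -- choose completions
  have hch : ∀ S : Finset α, ∃ Y : Finset α, S ∈ 𝒯 → Disjoint Y U ∧ f (S ∪ Y) ≠ 0 := by
    intro S
    by_cases hS : S ∈ 𝒯
    · obtain ⟨Y, hY1, hY2⟩ := hsupp S (hT1 S hS).1 (hT1 S hS).2
      exact ⟨Y, fun _ => ⟨hY1, hY2⟩⟩
    · exact ⟨∅, fun hc => absurd hc hS⟩
  choose Y hY using hch
  have hinter : ∀ S ∈ 𝒯, ∀ x, (x ∈ S ↔ x ∈ S ∪ Y S ∧ x ∈ U) := by
    intro S hS x
    constructor
    · intro hx
      exact ⟨Finset.mem_union_left _ hx, (hT1 S hS).1 hx⟩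
    · rintro ⟨hx, hxU⟩
      rcases Finset.mem_union.1 hx with h1 | h1
      · exact h1
      · exact absurd hxU (Finset.disjoint_left.1 (hY S hS).1 h1)
  have hcard : (𝒯.image fun S => S ∪ Y S).card = 𝒯.card := by
    apply Finset.card_image_of_injOn
    intro S hS S' hS' hSS
    simp only at hSS
    ext x
    rw [hinter S hS x, hinter S' hS' x, hSS]
  have hup := hCNT α G₀ K H R x₀ hx₀ hiso (𝒯.image fun S => S ∪ Y S)
    (by
      intro T hT
      obtain ⟨S, hS, rfl⟩ := Finset.mem_image.1 hT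
      exact hor _ (hY S hS).2)
    (by
      intro T hT T' hT' hTT
      obtain ⟨S, hS, rfl⟩ := Finset.mem_image.1 hT
      obtain ⟨S', hS', rfl⟩ := Finset.mem_image.1 hT'
      obtain ⟨τ, hτ, he⟩ := hTT
      have hSS : S = S' := by
        refine hT2 S hS S' hS' fun i => ⟨τ, hτ, ?_⟩
        ext x
        rw [Finset.mem_filter, Finset.mem_map_equiv, Finset.mem_filter, hinter S' hS' x, he,
          Finset.mem_map_equiv, hinter S hS (τ.symm x), hUsymm τ hτ x]
        constructor
        · rintro ⟨⟨h1, h2⟩, h3⟩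
          refine ⟨⟨h1, h2⟩, ?_⟩
          have h4 := (hU τ hτ (τ.symm x) ((hUsymm τ hτ x).2 h2)).2
          rw [Equiv.apply_symm_apply] at h4
          rw [← h4]
          exact h3
        · rintro ⟨⟨h1, h2⟩, h3⟩
          refine ⟨⟨h1, h2⟩, ?_⟩
          have h4 := (hU τ hτ (τ.symm x) ((hUsymm τ hτ x).2 h2)).2
          rw [Equiv.apply_symm_apply] at h4
          rw [h4]
          exact h3
      rw [hSS])
  rw [hcard] at hup
  have hpL : Fintype.card α ≤ 2 ^ Nat.clog 2 (Fintype.card α) :=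
    Nat.le_pow_clog (by norm_num) _
  have h1 : 𝒯.card ≤ 2 ^ (2 + Nat.clog 2 (Fintype.card α) * R.card) := by
    refine hup.trans ?_
    rw [pow_add, pow_mul]
    exact Nat.mul_le_mul (by norm_num) (Nat.pow_le_pow_left hpL _)
  have h2 : 2 ^ (U.card - U.card / 2) ≤
      2 ^ ((m + 1) * (2 + Nat.clog 2 (Fintype.card α) * R.card)) := by
    refine hT3.trans ?_
    rw [mul_comm (m + 1), pow_mul]
    exact Nat.pow_le_pow_left h1 _
  exact (Nat.pow_le_pow_iff_right (by norm_num)).1 h2

end Pool.Agent.NTW
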