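import Mathlib
import Pool.Agent.NTW.St5

/-! Module NUMX of `Pool/Agent/NTW/St5.lean` (helper39). -/

set_option autoImplicit false

namespace Pool.Agent.NTW

theorem t_NUMX : S_NUMX := by
  intro L r D e s hL hD h2 he hs
  obtain ⟨u, hu⟩ : ∃ u, u = r / D := ⟨_, rfl⟩
  rw [← hu] at hs
  have hDu : D * u ≤ r := by rw [hu]; exact Nat.mul_div_le _ _
  have h1 : 32 * (L + 1) ^ 3 * u ≤ r := (Nat.mul_le_mul_right u hD).trans hDu
  have h3 : 64 * (L + 1) ^ 3 ≤ r := by omega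
  have h4 : s + 4 * L * (2 + L * s) = s * (1 + 4 * L ^ 2) + 8 * L := by ring
  have h5 : 1 + 4 * L ^ 2 ≤ 4 * (L + 1) ^ 2 := by nlinarith
  have h6 : s * (1 + 4 * L ^ 2) ≤ ((2 * L + 2) * (u + 1) + 2 + e) * (4 * (L + 1) ^ 2) :=
    Nat.mul_le_mul hs h5
  have h7 : ((2 * L + 2) * (u + 1) + 2 + e) * (4 * (L + 1) ^ 2)
      = 8 * ((L + 1) ^ 3 * u) + 8 * (L + 1) ^ 3 + 8 * (L + 1) ^ 2 + 4 * ((L + 1) ^ 2 * e) := by
    ring
  have h8 : 32 * ((L + 1) ^ 3 * u) ≤ r := by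
    have : 32 * (L + 1) ^ 3 * u = 32 * ((L + 1) ^ 3 * u) := by ring
    omega
  have h9 : 16 * ((L + 1) ^ 2 * e) ≤ r := by
    have : 16 * (L + 1) ^ 2 * e = 16 * ((L + 1) ^ 2 * e) := by ring
    omega
  have h10 : 2 * (L + 1) ^ 2 ≤ (L + 1) ^ 3 := by
    have : (L + 1) ^ 3 = (L + 1) * (L + 1) ^ 2 := by ring
    rw [this]; exact Nat.mul_le_mul_right _ (by omega)
  have h11 : L ≤ (L + 1) ^ 3 := by nlinarith [Nat.zero_le L, sq_nonneg L]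
  generalize (L + 1) ^ 3 * u = x1 at *
  generalize (L + 1) ^ 2 * e = x2 at *
  generalize (L + 1) ^ 3 = x3 at *
  generalize (L + 1) ^ 2 = x4 at *
  omega

end Pool.Agent.NTW
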