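import Pool.Agent.NTW.St

set_option autoImplicit false

namespace Pool.Agent.NTW

open Finset

/-- No two different members are equivalent. -/
def Sepd {α : Type} (E : Finset α → Finset α → Prop) (T : Finset (Finset α)) : Prop :=
  ∀ X ∈ T, ∀ X' ∈ T, E X X' → X = X'

theorem t_ONE (hRM : S_RM) : S_ONE := by
  classical
  intro α _ U j m f E hm hE hcard hsz hinv hdeg hne
  set s : Finset (Finset α) := U.powerset.filter (fun X => f X ≠ 0) with hs
  have hms : ∀ X, X ∈ s ↔ X ⊆ U ∧ f X ≠ 0 := fun X => by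
    rw [hs, mem_filter, mem_powerset]
  obtain ⟨𝒯, hT, hmax⟩ := Finset.exists_max_image
    (s.powerset.filter (fun T => Sepd E T)) (fun T => T.card)
    ⟨∅, Finset.mem_filter.2 ⟨Finset.empty_mem_powerset _, fun X hX => absurd hX (Finset.notMem_empty X)⟩⟩
  rw [mem_filter, mem_powerset] at hT
  obtain ⟨hTs, hTE⟩ := hT
  have hcov : ∀ X ∈ s, ∃ Y ∈ 𝒯, E Y X := by
    intro X hX
    by_contra hc
    push Not at hc
    have hX' : X ∉ 𝒯 := fun h => hc X h (hE.refl X)
    have hins : insert X 𝒯 ∈ s.powerset.filter (fun T => Sepd E T) := by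
      rw [mem_filter, mem_powerset]
      refine ⟨Finset.insert_subset hX hTs, ?_⟩
      intro A hA B hB hAB
      rw [mem_insert] at hA hB
      rcases hA with rfl | hA
      · rcases hB with rfl | hB
        · rfl
        · exact absurd (hE.symm hAB) (hc B hB)
      · rcases hB with rfl | hB
        · exact absurd hAB (hc A hA)
        · exact hTE A hA B hB hAB
    have := hmax _ hins
    rw [Finset.card_insert_of_notMem hX'] at this
    omega
  have hsc : s.card ≤ 𝒯.card * 2 ^ m := by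
    have h1 : s ⊆ 𝒯.biUnion (fun Y => U.powerset.filter (fun X => E Y X)) := by
      intro X hX
      obtain ⟨Y, hY, hYX⟩ := hcov X hX
      rw [mem_biUnion]
      exact ⟨Y, hY, by rw [mem_filter, mem_powerset]; exact ⟨((hms X).1 hX).1, hYX⟩⟩
    refine (Finset.card_le_card h1).trans (Finset.card_biUnion_le_card_mul _ _ _ ?_)
    intro Y hY
    have h2 := hsz Y ((hms Y).1 (hTs hY)).1
    have h3 : {X' : Finset α | X' ⊆ U ∧ E Y X'} =
        ((U.powerset.filter (fun X => E Y X) : Finset (Finset α)) : Set (Finset α)) := by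
      ext X
      simp [mem_filter, mem_powerset]
    rw [h3, Set.ncard_coe_finset] at h2
    exact h2
  have hrm := hRM α U j f hdeg hne
  have hrm' : 2 ^ (U.card - j) ≤ 𝒯.card * 2 ^ m := hrm.trans hsc
  obtain ⟨X₀, hX₀, hf₀⟩ := hne
  have hX₀s : X₀ ∈ s := (hms X₀).2 ⟨hX₀, hf₀⟩
  have hpos : 1 ≤ 𝒯.card := by
    obtain ⟨Y, hY, -⟩ := hcov X₀ hX₀s
    exact Finset.card_pos.2 ⟨Y, hY⟩
  have htwo : j < U.card → 2 ≤ 𝒯.card := by
    intro hj
    by_contra hc
    have h1 : 𝒯.card = 1 := by omega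
    obtain ⟨Y, hY⟩ := Finset.card_eq_one.1 h1
    have hall : ∀ X ∈ s, E Y X := by
      intro X hX
      obtain ⟨Y', hY', hE'⟩ := hcov X hX
      rw [hY, mem_singleton] at hY'
      rwa [hY'] at hE'
    have hYU : Y ⊆ U := ((hms Y).1 (hTs (by rw [hY]; exact mem_singleton_self _))).1
    have hYf : f Y ≠ 0 := ((hms Y).1 (hTs (by rw [hY]; exact mem_singleton_self _))).2
    have h0 := hdeg U (Finset.Subset.refl U) hj
    have h2 : mob f U = ∑ X ∈ s, (-1 : ℚ) ^ Y.card * f Y := by
      unfold mob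
      rw [← Finset.sum_filter_add_sum_filter_not U.powerset (fun X => f X ≠ 0)]
      have h3 : ∑ X ∈ U.powerset.filter (fun X => ¬ f X ≠ 0), (-1 : ℚ) ^ X.card * f X = 0 := by
        refine Finset.sum_eq_zero fun X hX => ?_
        rw [mem_filter, not_not] at hX
        rw [hX.2, mul_zero]
      rw [h3, add_zero]
      refine Finset.sum_congr rfl fun X hX => ?_
      have h4 := hall X hX
      rw [← hcard Y X h4, ← hinv Y hYU X ((hms X).1 hX).1 h4]
    rw [h2, Finset.sum_const, nsmul_eq_mul] at h0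
    have h5 : (s.card : ℚ) ≠ 0 := by
      have : 0 < s.card := Finset.card_pos.2 ⟨X₀, hX₀s⟩
      exact_mod_cast this.ne'
    have h6 : (-1 : ℚ) ^ Y.card ≠ 0 := pow_ne_zero _ (by norm_num)
    exact (mul_ne_zero h5 (mul_ne_zero h6 hYf)) h0
  refine ⟨𝒯, fun X hX => (hms X).1 (hTs hX), hTE, ?_⟩
  set d := U.card - j with hd
  rcases Nat.eq_zero_or_pos d with h0 | h0
  · rw [h0, pow_zero]
    exact Nat.one_le_pow _ _ (by omega)
  · have h2 := htwo (by omega)
    by_cases hdm : d ≤ m + 1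
    · calc 2 ^ d ≤ 2 ^ (m + 1) := Nat.pow_le_pow_right (by norm_num) hdm
        _ ≤ 𝒯.card ^ (m + 1) := Nat.pow_le_pow_left h2 _
    · have h3 : 2 ^ (d - m) ≤ 𝒯.card := by
        have h4 : 2 ^ (d - m) * 2 ^ m = 2 ^ d := by
          rw [← pow_add]
          congr 1
          omega
        have h5 : 0 < 2 ^ m := by positivity
        rw [← h4] at hrm'
        exact Nat.le_of_mul_le_mul_right hrm' h5
      have h6 : d ≤ (d - m) * (m + 1) := by
        obtain ⟨e, he⟩ := Nat.exists_eq_add_of_lt (by omega : m + 1 < d)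
        have : d - m = e + 2 := by omega
        rw [this, he]
        nlinarith
      calc 2 ^ d ≤ 2 ^ ((d - m) * (m + 1)) := Nat.pow_le_pow_right (by norm_num) h6
        _ = (2 ^ (d - m)) ^ (m + 1) := by rw [pow_mul]
        _ ≤ 𝒯.card ^ (m + 1) := Nat.pow_le_pow_left h3 _

end Pool.Agent.NTW
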