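import Mathlib
import Pool.Agent.NTW.St

/-!
`S_RM` (Reed-Muller support bound) for MP_e73337_co, helper47.
-/

set_option autoImplicit false

namespace Pool.Agent.NTW

open Finset

section RM

variable {α : Type} [DecidableEq α]

/-- difference in the direction `a` -/
def rmDiff (a : α) (f : Finset α → ℚ) (X : Finset α) : ℚ := f X - f (insert a X)

lemma mob_rmDiff {a : α} (f : Finset α → ℚ) {T : Finset α} (ha : a ∉ T) :
    mob (rmDiff a f) T = mob f (insert a T) := by
  unfold mob
  rw [Finset.sum_powerset_insert ha, ← Finset.sum_add_distrib]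
  refine Finset.sum_congr rfl fun S hS => ?_
  have haS : a ∉ S := fun h => ha (Finset.mem_powerset.1 hS h)
  rw [Finset.card_insert_of_notMem haS, rmDiff, pow_succ]
  ring

/-- if all alternating sums vanish, the function vanishes -/
lemma eq_zero_of_mob {U : Finset α} {g : Finset α → ℚ} (h : ∀ T ⊆ U, mob g T = 0) :
    ∀ n : ℕ, ∀ X ⊆ U, X.card = n → g X = 0 := by
  intro n
  induction n using Nat.strong_induction_on with
  | _ n ih =>
    intro X hX hn
    have h1 := h X hX
    unfold mob at h1
    rw [Finset.sum_eq_single X] at h1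
    · rcases mul_eq_zero.1 h1 with h2 | h2
      · exact absurd h2 (pow_ne_zero _ (by norm_num))
      · exact h2
    · intro S hS hne
      have hS' := Finset.mem_powerset.1 hS
      have hlt : S.card < n := by
        rw [← hn]
        exact Finset.card_lt_card (Finset.ssubset_iff_subset_ne.2 ⟨hS', hne⟩)
      rw [ih S.card hlt S (hS'.trans hX) rfl, mul_zero]
    · intro hX'
      exact absurd (Finset.mem_powerset_self X) hX'

lemma card_supp_insert {a : α} {U : Finset α} (ha : a ∉ U) (f : Finset α → ℚ) :
    ((insert a U).powerset.filter fun X => f X ≠ 0).card =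
      ∑ X ∈ U.powerset, ((if f X ≠ 0 then 1 else 0) + if f (insert a X) ≠ 0 then 1 else 0) := by
  rw [Finset.card_filter, Finset.sum_powerset_insert ha, ← Finset.sum_add_distrib]

end RM

theorem t_RM : S_RM := by
  intro α _ U
  induction U using Finset.induction_on with
  | empty =>
    intro j f _ hX
    obtain ⟨X, hX, hfX⟩ := hX
    rw [Finset.card_empty, Nat.zero_sub, pow_zero, Nat.one_le_iff_ne_zero, Finset.card_ne_zero]
    exact ⟨X, Finset.mem_filter.2 ⟨Finset.mem_powerset.2 hX, hfX⟩⟩
  | insert a U ha ih =>
    intro j f hf hX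
    obtain ⟨X, hX, hfX⟩ := hX
    rw [card_supp_insert ha, Finset.card_insert_of_notMem ha]
    by_cases hg : ∃ Y ⊆ U, rmDiff a f Y ≠ 0
    · obtain ⟨Y, hY, hgY⟩ := hg
      have hj : j ≠ 0 := by
        rintro rfl
        refine hgY (eq_zero_of_mob (U := U) (g := rmDiff a f) ?_ Y.card Y hY rfl)
        intro T hT
        have haT : a ∉ T := fun h => ha (hT h)
        rw [mob_rmDiff f haT]
        refine hf _ (Finset.insert_subset_insert a hT) ?_
        rw [Finset.card_insert_of_notMem haT]
        omega
      have hdeg : DegLE U (j - 1) (rmDiff a f) := by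
        intro T hT hc
        have haT : a ∉ T := fun h => ha (hT h)
        rw [mob_rmDiff f haT]
        refine hf _ (Finset.insert_subset_insert a hT) ?_
        rw [Finset.card_insert_of_notMem haT]
        omega
      have h1 := ih (j - 1) (rmDiff a f) hdeg ⟨Y, hY, hgY⟩
      have h2 : U.card + 1 - j = U.card - (j - 1) := by omega
      rw [h2]
      refine h1.trans ?_
      rw [Finset.card_filter]
      refine Finset.sum_le_sum fun Z _ => ?_
      by_cases h3 : f Z = 0
      · by_cases h4 : f (insert a Z) = 0
        · have h5 : rmDiff a f Z = 0 := by rw [rmDiff, h3, h4, sub_zero]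
          simp [h3, h4, h5]
        · by_cases h5 : rmDiff a f Z = 0 <;> simp [h3, h4, h5]
      · by_cases h5 : rmDiff a f Z = 0 <;> simp [h3, h5]
    · push Not at hg
      have hfa : ∀ Y ⊆ U, f (insert a Y) = f Y := fun Y hY => by
        have := hg Y hY
        rw [rmDiff, sub_eq_zero] at this
        exact this.symm
      have hdeg : DegLE U j f := fun T hT hc => hf T (hT.trans (Finset.subset_insert a U)) hc
      have hXe : X.erase a ⊆ U := by
        intro x hx
        have h1 := Finset.mem_erase.1 hx
        rcases Finset.mem_insert.1 (hX h1.2) with h2 | h2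
        · exact absurd h2 h1.1
        · exact h2
      have hfe : f (X.erase a) ≠ 0 := by
        by_cases h1 : a ∈ X
        · rw [← hfa _ hXe, Finset.insert_erase h1]
          exact hfX
        · rw [Finset.erase_eq_of_notMem h1]
          exact hfX
      have h1 := ih j f hdeg ⟨_, hXe, hfe⟩
      rw [Finset.card_filter] at h1
      have h2 : ∑ Z ∈ U.powerset, ((if f Z ≠ 0 then 1 else 0) + if f (insert a Z) ≠ 0 then 1 else 0)
          = 2 * ∑ Z ∈ U.powerset, (if f Z ≠ 0 then 1 else 0) := by
        rw [Finset.mul_sum]
        refine Finset.sum_congr rfl fun Z hZ => ?_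
        rw [hfa Z (Finset.mem_powerset.1 hZ)]
        ring
      rw [h2]
      have h3 : 2 ^ (U.card + 1 - j) ≤ 2 * 2 ^ (U.card - j) := by
        rw [← pow_succ']
        exact Nat.pow_le_pow_right (by norm_num) (by omega)
      exact h3.trans (Nat.mul_le_mul_left 2 h1)

end Pool.Agent.NTW
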