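import Mathlib
import Pool.Agent.NTW.St5

set_option autoImplicit false

namespace Pool.Agent.NTW

open Finset

theorem SML_FG_mono {α : Type} (G : SimpleGraph α) {R R' : Finset α} (h : R ⊆ R')
    {τ : Equiv.Perm α} (hτ : τ ∈ FG G R') : τ ∈ FG G R := by
  obtain ⟨h1, h2⟩ := hτ
  exact ⟨fun r hr => h1 r (h hr), h2⟩

theorem SML_restr {α : Type} [Fintype α] [DecidableEq α] (G₀ : SimpleGraph α) (R V : Finset α)
    (hV : ∀ τ ∈ FG G₀ R, ∀ x ∈ V, τ x ∈ V)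
    (hext : ∀ τ ∈ FG G₀ R, ∀ x ∈ V, ∀ z, z ∉ V → (G₀.Adj x z ↔ G₀.Adj x (τ z)))
    (τ : Equiv.Perm α) (hτ : τ ∈ FG G₀ R) :
    ∃ τ₁ ∈ FG G₀ (R ∪ Vᶜ), (∀ x ∈ V, τ₁ x = τ x) ∧ (∀ x, x ∉ V → τ₁ x = x) := by
  have hinv : τ⁻¹ ∈ FG G₀ R := (FG G₀ R).inv_mem hτ
  let τ₁ : Equiv.Perm α :=
    { toFun := fun x => if x ∈ V then τ x else x
      invFun := fun x => if x ∈ V then τ⁻¹ x else x
      left_inv := by
        intro x
        by_cases hx : x ∈ V
        · simp only [if_pos hx, if_pos (hV τ hτ x hx)]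
          exact τ.symm_apply_apply x
        · simp only [if_neg hx]
      right_inv := by
        intro x
        by_cases hx : x ∈ V
        · simp only [if_pos hx, if_pos (hV τ⁻¹ hinv x hx)]
          exact τ.apply_symm_apply x
        · simp only [if_neg hx] }
  have hin : ∀ x ∈ V, τ₁ x = τ x := fun x hx => if_pos hx
  have hout : ∀ x, x ∉ V → τ₁ x = x := fun x hx => if_neg hx
  obtain ⟨hfix, hadj⟩ := hτ
  have hτ' : τ ∈ FG G₀ R := ⟨hfix, hadj⟩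
  have hcross : ∀ u ∈ V, ∀ v, v ∉ V → (G₀.Adj (τ u) v ↔ G₀.Adj u v) := by
    intro u hu v hv
    rw [hext τ hτ' (τ u) (hV τ hτ' u hu) v hv]
    exact hadj u v
  refine ⟨τ₁, ⟨?_, ?_⟩, hin, hout⟩
  · intro r hr
    by_cases hrV : r ∈ V
    · rw [hin r hrV]
      rcases mem_union.1 hr with h | h
      · exact hfix r h
      · exact absurd hrV (mem_compl.1 h)
    · exact hout r hrV
  · intro u v
    by_cases hu : u ∈ V
    · by_cases hv : v ∈ V
      · rw [hin u hu, hin v hv]; exact hadj u v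
      · rw [hin u hu, hout v hv]; exact hcross u hu v hv
    · by_cases hv : v ∈ V
      · rw [hout u hu, hin v hv, G₀.adj_comm u (τ v), G₀.adj_comm u v]; exact hcross v hv u hu
      · rw [hout u hu, hout v hv]

theorem t_SML (hGRP : S_GRP) (hESZ : S_ESZ) : S_SML := by
  intro α _ _ G₀ R V hV horb hext
  have hsub : R ⊆ R ∪ Vᶜ := subset_union_left
  have horb' : ∀ y : α, (orb G₀ (R ∪ Vᶜ) y).ncard ≤ 3 := by
    intro y
    by_cases hy : y ∈ V
    · refine (Set.ncard_le_ncard ?_ (Set.toFinite _)).trans (horb y hy)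
      rintro z ⟨τ, hτ, hz⟩
      exact ⟨τ, SML_FG_mono G₀ hsub hτ, hz⟩
    · have hs : orb G₀ (R ∪ Vᶜ) y ⊆ {y} := by
        rintro z ⟨τ, hτ, hz⟩
        obtain ⟨h1, _⟩ := hτ
        rw [Set.mem_singleton_iff, ← hz]
        exact h1 y (mem_union.2 (Or.inr (mem_compl.2 hy)))
      have := Set.ncard_le_ncard hs (Set.toFinite _)
      rw [Set.ncard_singleton] at this
      omega
  obtain ⟨lab, l1, l2, l3⟩ := hGRP α G₀ (R ∪ Vᶜ) (fun y => Or.inl (horb' y))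
  refine ⟨lab, ?_, ?_, ?_⟩
  · intro τ hτ x hx
    refine ⟨hV τ hτ x hx, ?_⟩
    obtain ⟨τ₁, h1, h2, h3⟩ := SML_restr G₀ R V hV hext τ hτ
    rw [← h2 x hx]
    exact l1 τ₁ h1 x
  · intro i τ hτ
    obtain ⟨τ₁, h1, h2, h3⟩ := SML_restr G₀ R V hV hext τ hτ
    obtain ⟨τ', h4, h5⟩ := l2 i τ₁ h1
    refine ⟨τ', SML_FG_mono G₀ hsub h4, ?_⟩
    intro x
    rw [h5 x]
    by_cases hx : x ∈ V
    · by_cases hi : lab x = i
      · rw [if_pos hi, if_pos ⟨hx, hi⟩, h2 x hx]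
      · rw [if_neg hi, if_neg (fun h => hi h.2)]
    · rw [if_neg (fun h : x ∈ V ∧ lab x = i => hx h.1)]
      by_cases hi : lab x = i
      · rw [if_pos hi, h3 x hx]
      · rw [if_neg hi]
  · intro i X hX hlab
    obtain ⟨y, hy⟩ := l3 i
    have h6 := hESZ α G₀ (R ∪ Vᶜ) 3 y X (horb' y)
      (fun τ hτ hz x hx => hy τ hτ hz x (hlab x hx))
    have hss : {X' : Finset α | ∃ τ ∈ FG G₀ R, X' = X.map τ.toEmbedding} ⊆
        {X' : Finset α | ∃ τ ∈ FG G₀ (R ∪ Vᶜ), X' = X.map τ.toEmbedding} := by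
      rintro X' ⟨τ, hτ, rfl⟩
      obtain ⟨τ₁, h1, h2, h3⟩ := SML_restr G₀ R V hV hext τ hτ
      refine ⟨τ₁, h1, ?_⟩
      ext z
      simp only [mem_map, Equiv.coe_toEmbedding]
      constructor
      · rintro ⟨a, ha, rfl⟩
        exact ⟨a, ha, h2 a (hX ha)⟩
      · rintro ⟨a, ha, rfl⟩
        exact ⟨a, ha, (h2 a (hX ha)).symm⟩
    have h7 := Set.ncard_le_ncard hss (Set.toFinite _)
    have h8 : Nat.factorial 3 = 6 := rfl
    rw [h8] at h6
    have h9 : (2 : ℕ) ^ 3 = 8 := by norm_num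
    rw [h9]
    omega

end Pool.Agent.NTW
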