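import Mathlib
import Pool.Agent.NTW.St5

set_option autoImplicit false

namespace Pool.Agent.NTW

open Finset Pool.Agent.Lib_helper61.SwitchBasic

theorem tenu_mob {α : Type} [DecidableEq α] (U : Finset α) (h : Finset α → ℚ)
    (T : Finset {x // x ∈ U}) :
    mob (fun X : Finset {x // x ∈ U} => h (X.map (Function.Embedding.subtype _))) T =
      mob h (T.map (Function.Embedding.subtype _)) := by
  unfold mob
  refine Finset.sum_bij (fun S _ => S.map (Function.Embedding.subtype _)) ?_ ?_ ?_ ?_
  · intro S hS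
    rw [Finset.mem_powerset] at hS ⊢
    exact Finset.map_subset_map.2 hS
  · intro S _ S' _ hSS
    exact Finset.map_injective _ hSS
  · intro b hb
    rw [Finset.mem_powerset] at hb
    obtain ⟨u, hu, hbu⟩ := Finset.subset_map_iff.1 hb
    exact ⟨u, Finset.mem_powerset.2 hu, hbu.symm⟩
  · intro S _
    rw [Finset.card_map]

theorem t_TENU (hTEN : S_TEN) : S_TENU := by
  classical
  intro α _ _ U lab E m hm hE hcard hEU hlab hcnt h j hinv hdeg hne
  set e : {x // x ∈ U} ↪ α := Function.Embedding.subtype _ with he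
  have hex : ∀ x : {x // x ∈ U}, ∃ y : {x // x ∈ U}, lab y = lab x := fun x => ⟨x, rfl⟩
  have hch : ∃ lab' : {x // x ∈ U} → {x // x ∈ U}, (∀ x : {x // x ∈ U}, lab (lab' x) = lab x) ∧
      ∀ x y : {x // x ∈ U}, lab x = lab y → lab' x = lab' y := by
    have hg : ∀ (i i' : α) (hi : ∃ y : {x // x ∈ U}, lab y = i) (hi' : ∃ y : {x // x ∈ U}, lab y = i'),
        i = i' → Classical.choose hi = Classical.choose hi' := by
      intro i i' hi hi' hii
      subst hii
      rfl
    refine ⟨fun x => Classical.choose (hex x), fun x => Classical.choose_spec (hex x), ?_⟩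
    intro x y hxy
    exact hg _ _ _ _ hxy
  obtain ⟨lab', hl1, hl2⟩ := hch
  have hsub : ∀ X : Finset {x // x ∈ U}, X.map e ⊆ U := by
    intro X x hx
    rw [Finset.mem_map] at hx
    obtain ⟨y, _, rfl⟩ := hx
    exact y.2
  have hU : (Finset.univ : Finset {x // x ∈ U}).map e = U := by
    ext x
    constructor
    · intro hx
      exact hsub _ hx
    · intro hx
      exact Finset.mem_map.2 ⟨⟨x, hx⟩, Finset.mem_univ _, rfl⟩
  have hlabX : ∀ (i' : {x // x ∈ U}) (X : Finset {x // x ∈ U}), (∀ x ∈ X, lab' x = i') →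
      ∀ x ∈ X.map e, lab x = lab i' := by
    intro i' X hX x hx
    rw [Finset.mem_map] at hx
    obtain ⟨y, hy, rfl⟩ := hx
    have h1 := hl1 y
    rw [hX y hy] at h1
    exact h1.symm
  have hemp : ∀ X X' : Finset {x // x ∈ U}, E (X.map e) (X'.map e) → X = ∅ → X' = ∅ := by
    intro X X' hXX hX
    have h1 := hcard _ _ hXX
    rw [Finset.card_map, Finset.card_map, hX, Finset.card_empty] at h1
    exact Finset.card_eq_zero.1 h1.symm
  obtain ⟨𝒯, hT1, hT2, hT3⟩ := hTEN {x // x ∈ U} lab' (fun X X' => E (X.map e) (X'.map e)) m hm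
    ⟨fun X => hE.refl _, fun hxy => hE.symm hxy, fun hxy hyz => hE.trans hxy hyz⟩
    (by
      intro X X' hXX
      have h1 := hcard _ _ hXX
      rwa [Finset.card_map, Finset.card_map] at h1)
    (by
      intro i' X X' hXX hX x hx
      rcases Finset.eq_empty_or_nonempty X with h0 | ⟨x0, hx0⟩
      · rw [hemp X X' hXX h0] at hx
        exact absurd hx (Finset.notMem_empty _)
      · have h1 : lab x = lab i' :=
          hlab (lab i') (X.map e) (X'.map e) (hsub X) hXX (hlabX i' X hX) x
            (Finset.mem_map.2 ⟨x, hx, rfl⟩)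
        have h2 : lab x0 = lab i' := hlabX i' X hX x0 (Finset.mem_map.2 ⟨x0, hx0, rfl⟩)
        rw [hl2 x x0 (h1.trans h2.symm)]
        exact hX x0 hx0)
    (by
      intro i' X hX
      refine le_trans ?_ (hcnt (lab i') (X.map e) (hsub X) (hlabX i' X hX))
      refine Set.ncard_le_ncard_of_injOn (fun X' => X'.map e) ?_ ?_ (Set.toFinite _)
      · intro X' hX'
        exact hX'
      · intro X1 _ X2 _ h12
        exact Finset.map_injective _ h12)
    (fun X => h (X.map e)) j
    (by
      intro i' X X' Y hXX hX hY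
      show h ((X ∪ Y).map e) = h ((X' ∪ Y).map e)
      rcases Finset.eq_empty_or_nonempty X with h0 | ⟨x0, hx0⟩
      · rw [hemp X X' hXX h0, h0]
      · rw [Finset.map_union, Finset.map_union]
        refine hinv (lab i') (X.map e) (X'.map e) (Y.map e) (hsub X) (hsub Y) hXX
          (hlabX i' X hX) ?_
        intro y hy hyi
        rw [Finset.mem_map] at hy
        obtain ⟨z, hz, rfl⟩ := hy
        have h2 : lab x0 = lab i' := hlabX i' X hX x0 (Finset.mem_map.2 ⟨x0, hx0, rfl⟩)
        apply hY z hz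
        rw [hl2 z x0 (hyi.trans h2.symm)]
        exact hX x0 hx0)
    (by
      intro T _ hT
      rw [tenu_mob]
      refine hdeg _ (hsub T) ?_
      rwa [Finset.card_map])
    (by
      obtain ⟨X, hXU, hX⟩ := hne
      rw [← hU] at hXU
      obtain ⟨u, _, hu⟩ := Finset.subset_map_iff.1 hXU
      refine ⟨u, ?_⟩
      show h (u.map e) ≠ 0
      rw [← hu]
      exact hX)
  refine ⟨𝒯.map ⟨fun S => S.map e, Finset.map_injective e⟩, ?_, ?_, ?_⟩
  · intro S hS
    rw [Finset.mem_map] at hS
    obtain ⟨S0, hS0, rfl⟩ := hS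
    exact ⟨hsub S0, hT1 S0 hS0⟩
  · intro S hS S' hS' hSS
    rw [Finset.mem_map] at hS hS'
    obtain ⟨S0, hS0, rfl⟩ := hS
    obtain ⟨S0', hS0', rfl⟩ := hS'
    have hfil : ∀ (z : {x // x ∈ U}) (A : Finset {x // x ∈ U}),
        (A.filter fun x => lab' x = lab' z).map e = (A.map e).filter fun x => lab x = lab z := by
      intro z A
      ext x
      simp only [Finset.mem_map, Finset.mem_filter]
      constructor
      · rintro ⟨y, ⟨hy, hyz⟩, rfl⟩
        refine ⟨⟨y, hy, rfl⟩, ?_⟩
        have h1 := hl1 y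
        rw [hyz, hl1 z] at h1
        exact h1.symm
      · rintro ⟨⟨y, hy, rfl⟩, hyz⟩
        exact ⟨y, ⟨hy, hl2 y z hyz⟩, rfl⟩
    have hkey : S0 = S0' := by
      refine hT2 S0 hS0 S0' hS0' ?_
      intro i'
      by_cases hz : ∃ z : {x // x ∈ U}, lab' z = i'
      · obtain ⟨z, rfl⟩ := hz
        show E ((S0.filter fun x => lab' x = lab' z).map e) ((S0'.filter fun x => lab' x = lab' z).map e)
        rw [hfil, hfil]
        exact hSS (lab z)
      · have hA : ∀ A : Finset {x // x ∈ U}, (A.filter fun x => lab' x = i') = ∅ := by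
          intro A
          refine Finset.filter_eq_empty_iff.2 ?_
          intro x _ hx
          exact hz ⟨x, hx⟩
        show E ((S0.filter fun x => lab' x = i').map e) ((S0'.filter fun x => lab' x = i').map e)
        rw [hA, hA]
        exact hE.refl _
    rw [hkey]
  · rw [Finset.card_map]
    rwa [Fintype.card_coe] at hT3

end Pool.Agent.NTW
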