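import Pool.Agent.NTW.Fin5
import Pool.Agent.NTW.MHOM
import Pool.Agent.NTW.MTENU
import Pool.Agent.NTW.MKEY
import Pool.Agent.NTW.MSML
import Pool.Agent.NTW.MHITP
import Pool.Agent.NTW.MNUMX
import Pool.Agent.NTW.MRM
import Pool.Agent.NTW.MONE
import Pool.Agent.NTW.MTEN
import Pool.Agent.NTW.MCNT
import Pool.Agent.NTW.MGRP
import Pool.Agent.NTW.MESZ
import Pool.Agent.NTW.MHIT

/-!
The substitution theorem for MP_e73337_co, without hypotheses (helper39).
-/

set_option autoImplicit false

namespace Pool.Agent.NTW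

open Finset Pool.Agent.Lib_helper61.SwitchBasic Fin5

/-- The substitution theorem: a graph whose vertices are partitioned into modules (up to switching),
such that all but few vertices have at most two near vertices or have all their near vertices in
their module, is switching-reconstructible. -/
theorem subst_main (p : ℕ) (hp : 3 < p) (G : SimpleGraph (Fin p)) (c : Fin p → ℕ)
    (hmod : ∀ i, IsMod G (part c i)) (h2 : ∃ y z, c y ≠ c z) (E : Finset (Fin p))
    (hE : 16 * (Nat.clog 2 p + 1) ^ 2 * E.card ≤ (univ.image c).card)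
    (h : ∀ y, y ∉ E →
      {z | z ≠ y ∧ NearP G c (33 * (Nat.clog 2 p + 1) ^ 3) y z}.ncard ≤ 2 ∨
      ∀ z, NearP G c (33 * (Nat.clog 2 p + 1) ^ 3) y z → c z = c y)
    (H : SimpleGraph (Fin p)) (hdeck : SameDeck G H) : Nonempty (G ≃g H) :=
  main5 (t_KEY t_HOM (t_TENU (t_TEN (t_ONE t_RM))) t_CNT) (t_SML t_GRP t_ESZ) (t_HITP t_HIT)
    t_NUMX p hp G c hmod h2 E hE h H hdeck

end Pool.Agent.NTW
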