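import Pool.Agent.NTW.Fin7
import Pool.Agent.NTW.Fin8
import Pool.Agent.NTW.Main5
import Pool.Agent.NTW.MHOMV
import Pool.Agent.NTW.MUBLK
import Pool.Agent.NTW.MPBLK
import Pool.Agent.NTW.MPROD
import Pool.Agent.NTW.MLEAD
import Pool.Agent.NTW.MPBL2
import Pool.Agent.NTW.MREP
import Pool.Agent.NTW.MCNTQ
import Pool.Agent.NTW.MMOD
import Pool.Agent.NTW.MINVA
import Pool.Agent.NTW.MINVB
import Pool.Agent.NTW.MCENT
import Pool.Agent.NTW.MDEG34
import Pool.Agent.NTW.MCOMP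

/-!
T3 with the sharp exponent, without hypotheses (helper39).
-/

set_option autoImplicit false

namespace Pool.Agent.NTW

open Finset Pool.Agent.Lib_helper61.SwitchBasic

/-- Class-invariant partitions into modules. -/
theorem parts_main (p : ℕ) (hp4 : p ≠ 4) (G : SimpleGraph (Fin p)) (c : Fin p → ℕ)
    (hmod : ∀ i, IsMod G (Fin5.part c i)) (h2 : ∃ y z, c y ≠ c z)
    (hinv : ∀ s : Equiv.Perm (Fin p), IsClassAut G s → ∀ x y, c x = c y → c (s x) = c (s y))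
    (hM : (4 * partImages G c) ^ 2 < 2 ^ (univ.image c).card)
    (H : SimpleGraph (Fin p)) (hdeck : SameDeck G H) : Nonempty (G ≃g H) :=
  T3s (t_PBLK (t_HOMV t_HOM) (t_TENU (t_TEN (t_ONE t_RM))) t_RM)
    (t_PBL2 (t_UBLK (t_TENU (t_TEN (t_ONE t_RM))) t_RM) t_LEAD) t_PROD t_REP t_CNTQ
    p hp4 G c hmod h2 hinv hM H hdeck

end Pool.Agent.NTW
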