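import Pool.Agent.NTW.St10
import Pool.Agent.NTW.Main6
import Pool.Agent.NTW.Sw

/-!
Substitution into a prime graph with few class automorphisms (helper39): assembly.
-/

set_option autoImplicit false

namespace Pool.Agent.NTW

open Finset Pool.Agent.Lib_helper61.SwitchBasic

/-- The parts are modules of `G` iff they are modules of a switched graph. -/
theorem isMod_sw_iff {α : Type} [DecidableEq α] (G : SimpleGraph α) (S C : Finset α) :
    IsMod (sw G S) C ↔ IsMod G C := by
  constructor
  · intro h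
    have h1 := mod_sw (sw G S) S C h
    rwa [sw_sw, symmDiff_self, Finset.bot_eq_empty, sw_empty] at h1
  · exact mod_sw G S C

theorem subst_prime (hQAUT : S_QAUT) (hPRQ : S_PRQ) (p r : ℕ) (hp4 : p ≠ 4) (hr : 4 ≤ r)
    (F : SimpleGraph (Fin r))
    (hF : ∀ C : Finset (Fin r), IsMod F C → C.card ≤ 1 ∨ r ≤ C.card + 1)
    (hA : (4 * {σ : Equiv.Perm (Fin r) | IsClassAut F σ}.ncard) ^ 2 < 2 ^ r)
    (G : SimpleGraph (Fin p)) (S : Finset (Fin p)) (π : Fin p → Fin r)
    (hπ : Function.Surjective π)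
    (hsub : ∀ u v, π u ≠ π v → ((sw G S).Adj u v ↔ F.Adj (π u) (π v)))
    (hsmall : ∀ i, 2 * (univ.filter fun x => π x = i).card < p)
    (H : SimpleGraph (Fin p)) (hdeck : SameDeck G H) : Nonempty (G ≃g H) := by
  classical
  have hcard : Fintype.card (Fin p) = p := Fintype.card_fin p
  set B := sw G S with hB
  set c : Fin p → ℕ := fun x => (π x : ℕ) with hc
  have hcπ : ∀ x y, c x = c y ↔ π x = π y := fun x y => Fin.ext_iff.symm
  obtain ⟨h1, h2, h3⟩ := hPRQ p r F B π hπ hsub
  have hsmall' : ∀ i, 2 * (Fin5.part c i).card < Fintype.card (Fin p) := by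
    intro i
    rw [hcard]
    rcases Nat.lt_or_ge i r with hi | hi
    · have h4 : Fin5.part c i = univ.filter fun x => π x = ⟨i, hi⟩ := by
        ext x
        rw [Fin5.mem_part]
        simp only [Finset.mem_filter, Finset.mem_univ, true_and, hc, Fin.ext_iff]
      rw [h4]
      exact hsmall ⟨i, hi⟩
    · have h4 : Fin5.part c i = ∅ := by
        rw [Finset.eq_empty_iff_forall_notMem]
        intro x hx
        rw [Fin5.mem_part] at hx
        have := (π x).isLt
        simp only [hc] at hx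
        omega
      rw [h4, Finset.card_empty]
      obtain ⟨x, -⟩ := hπ ⟨0, by omega⟩
      have := x.isLt
      omega
  have hinvB := t_INVB t_INVA (Fin p) B c h2 (by rw [h3]; exact hr) (h1 hF) hsmall'
  have hinv : ∀ s : Equiv.Perm (Fin p), IsClassAut G s → ∀ x y, c x = c y → c (s x) = c (s y) :=
    fun s hs => hinvB s ((Fin6.classAut_sw G S s).2 hs)
  have hMe : partImages B c = partImages G c := by
    unfold partImages
    congr 1
    ext h
    constructor
    · rintro ⟨s, hs, e⟩
      exact ⟨s, (Fin6.classAut_sw G S s).1 hs, e⟩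
    · rintro ⟨s, hs, e⟩
      exact ⟨s, (Fin6.classAut_sw G S s).2 hs, e⟩
  have hM := hQAUT p r F B π hπ (by omega) hsub (by
    intro s hs x y hxy
    exact (hcπ _ _).1 (hinvB s hs x y ((hcπ _ _).2 hxy)))
  change partImages B c ≤ _ at hM
  rw [hMe] at hM
  refine parts_main p hp4 G c (fun i => (isMod_sw_iff G S _).1 (h2 i)) ?_ hinv ?_ H hdeck
  · obtain ⟨y, hy⟩ := hπ ⟨0, by omega⟩
    obtain ⟨z, hz⟩ := hπ ⟨1, by omega⟩
    refine ⟨y, z, fun e => ?_⟩
    rw [hcπ, hy, hz] at e
    have := congrArg Fin.val e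
    simp at this
  · rw [h3]
    refine lt_of_le_of_lt (Nat.pow_le_pow_left (Nat.mul_le_mul_left 4 hM) 2) hA

end Pool.Agent.NTW
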