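import Pool.Agent.NTW.MHALF3

/-!
# MP_e73337_co, modules with exactly half of the vertices: the exceptional case is balanced (helper39, Dec 5)

`theorem t_HALF4 : S_HALF4`.
-/

set_option autoImplicit false

namespace Pool.Agent.NTW

open Finset Pool.Agent.Lib_helper61.SwitchBasic

/-- **HALF4** (no hypothesis; uses `half3_two` and the way `t_HALF3` constructs `Half3D` in MHALF3.lean; `Half3D` needs only `Even n`).  `W = Uᶜ`.  Suppose `f S ≠ 0`, `2 * card (S ∩ U) ≠ n`.  Let `P` be `S` or `S Δ U` with `k = card (P ∩ U)`, `2 k < n`.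
(1) If `X ∩ W = P ∩ W` and `f X ≠ 0`, then `card (X ∩ U)` is `k` or `n - k`: if `0 < f P * f X` then `X = r P` or `(r P)ᶜ` (`orbit`), `r` straight (maps `U` to `U`): clear; `r` crossed: `X = r P`: `card (P ∩ W) = card (X ∩ W) = card (P ∩ U) = k` and `card (X ∩ U) = card (P ∩ W) = k`; `X = (r P)ᶜ`: `card (P ∩ W) = card (X ∩ W) = n - k` and
`card (X ∩ U) = n - card (P ∩ W) = k`.  If `f P * f X < 0` use `X Δ U`.  (2) If moreover `card (X ∩ U) = k`, then `0 < f P * f X`: otherwise `0 < f P * f (X Δ U)`, `X Δ U = r P` or `(r P)ᶜ`, and `card ((X Δ U) ∩ U) = n - k`.  `r` straight, `r P`: the number would be `k`.  `r` straight, `(r P)ᶜ`: `W \ r P = P ∩ W`, so with `r'` = `r` on `W`, the identity on `U`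
(an automorphism, `half3split_aut`), `r' P = P Δ W`, so `f (P Δ W) = f P`, but `f (P Δ W) = f (P Δ U) = - f P` (`invc`).  `r` crossed, `r P`: `n - k = card (P ∩ W)`, `card (P ∩ W) = card (r P ∩ W) = k`, impossible.  `r` crossed, `(r P)ᶜ`: `n - k = n - card (P ∩ W)`, `card (P ∩ W) = n - k`, impossible.
(3) Let `f₁` = `half3a B U f a`, `a = half3q B U P`; `∑_(u ∈ U) f₁ (T Δ {u}) = 0` for all `T` (`half3_two` for `S₀ = P` or `P Δ U`, the one with `0 < f S₀`).  `1 ≤ k`: take `T = P Δ {u₀}`, `u₀ ∈ P ∩ U`: `card ((T Δ {u}) ∩ U)` is `k` or `k - 2`, so by (1), (2) all terms times `f P` are `≥ 0`, and the term of `u₀` is `f₁ P = f P ≠ 0`.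
`k = 0`: `T = P Δ {u₀}`, `u₀ ∈ U`: for `u ≠ u₀` the number is 2, not 0 and not `n`, so the only term which is not 0 is `f₁ P`.  Contradiction. -/
def S_HALF4 : Prop :=
  ∀ (α : Type) [Fintype α] [DecidableEq α] (B : SimpleGraph α) (U : Finset α) (n : ℕ)
    (f : Finset α → ℚ), Half B U n f → 4 ≤ n → Even n → (∀ S, f (symmDiff S U) = - f S) →
    ∀ S, f S ≠ 0 → 2 * (S ∩ U).card = n

end Pool.Agent.NTW
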