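import Pool.Agent.NTW.Fin9b
import Pool.Agent.NTW.St11

/-!
Modules with exactly half of the vertices: the exceptional case is balanced (helper39): assembly.
-/

set_option autoImplicit false

namespace Pool.Agent.NTW

open Finset Pool.Agent.Lib_helper61.SwitchBasic

namespace Fin13

section
variable {α : Type} [Fintype α] [DecidableEq α]

/-- `Half` for the complement. -/
theorem half_compl (B : SimpleGraph α) (U : Finset α) (n : ℕ) (f : Finset α → ℚ)
    (h : Half B U n f) : Half B Uᶜ n f where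
  cardU := h.cardW
  cardW := by rw [compl_compl]; exact h.cardU
  mod := by
    intro u hu u' hu' w hw w' hw'
    rw [Finset.mem_compl] at hu hu'
    rw [Finset.mem_compl, not_not] at hw hw'
    rw [B.adj_comm u w, B.adj_comm u' w']
    exact h.mod w hw w' hw' u hu u' hu'
  aut := by
    intro s hs
    rcases h.aut s hs with h1 | h1
    · left
      intro x
      rw [Finset.mem_compl, Finset.mem_compl, h1 x]
    · right
      intro x
      rw [Finset.mem_compl, Finset.mem_compl, h1 x]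
  sum := h.sum
  inv := h.inv
  invc := h.invc
  orbit := h.orbit
  pos := h.pos

/-- Counting neighbours in a half. -/
theorem count (G : SimpleGraph α) (S U : Finset α) (n : ℕ) (hU : U.card = n)
    (hmod : ∀ u ∈ U, ∀ u' ∈ U, ∀ w ∉ U, ∀ w' ∉ U, ((sw G S).Adj u w ↔ (sw G S).Adj u' w'))
    (hS : 2 * (S ∩ U).card = n) (w : α) (hw : w ∉ U) :
    2 * {u | u ∈ U ∧ G.Adj w u}.ncard = n := by
  classical
  have hG : ∀ u ∈ U, (G.Adj w u ↔ ((sw G S).Adj u w ↔ (u ∈ S ↔ w ∈ S))) := by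
    intro u hu
    have huw : u ≠ w := fun e => hw (e ▸ hu)
    rw [sw_adj, G.adj_comm w u]
    constructor
    · intro h1
      constructor
      · intro h2
        exact h2.2.1 h1
      · intro h2
        exact ⟨huw, ⟨fun _ => h2, fun _ => h1⟩⟩
    · intro h1
      by_contra hc
      by_cases h2 : (u ∈ S ↔ w ∈ S)
      · exact hc ((h1.2 h2).2.2 h2)
      · have h3 : u ≠ w ∧ (G.Adj u w ↔ (u ∈ S ↔ w ∈ S)) :=
          ⟨huw, ⟨fun h => absurd h hc, fun h => absurd h h2⟩⟩
        exact h2 (h1.1 h3)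
  have hsplit : (U ∩ S).card + (U \ S).card = n := by
    rw [Finset.card_inter_add_card_sdiff, hU]
  have hS' : 2 * (U ∩ S).card = n := by
    rw [Finset.inter_comm]
    exact hS
  have key : ∀ P : Prop, (∀ u ∈ U, (G.Adj w u ↔ (P ↔ u ∈ S))) →
      2 * {u | u ∈ U ∧ G.Adj w u}.ncard = n := by
    intro P hP
    by_cases hp : P
    · have e : {u | u ∈ U ∧ G.Adj w u} = ((U ∩ S : Finset α) : Set α) := by
        ext u
        rw [Finset.mem_coe, Finset.mem_inter, Set.mem_ofPred_eq]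
        constructor
        · rintro ⟨h1, h2⟩
          exact ⟨h1, ((hP u h1).1 h2).1 hp⟩
        · rintro ⟨h1, h2⟩
          exact ⟨h1, (hP u h1).2 ⟨fun _ => h2, fun _ => hp⟩⟩
      rw [e, Set.ncard_coe_finset]
      exact hS'
    · have e : {u | u ∈ U ∧ G.Adj w u} = ((U \ S : Finset α) : Set α) := by
        ext u
        rw [Finset.mem_coe, Finset.mem_sdiff, Set.mem_ofPred_eq]
        constructor
        · rintro ⟨h1, h2⟩
          exact ⟨h1, fun h3 => hp (((hP u h1).1 h2).2 h3)⟩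
        · rintro ⟨h1, h2⟩
          exact ⟨h1, (hP u h1).2 ⟨fun h => absurd h hp, fun h => absurd h h2⟩⟩
      rw [e, Set.ncard_coe_finset]
      omega
  rcases U.eq_empty_or_nonempty with h0 | ⟨u₀, hu₀⟩
  · apply key True
    intro u hu
    rw [h0] at hu
    exact absurd hu (Finset.notMem_empty u)
  · apply key ((sw G S).Adj u₀ w ↔ w ∈ S)
    intro u hu
    rw [hG u hu, hmod u hu u₀ hu₀ w hw w hw]
    by_cases a1 : (sw G S).Adj u₀ w <;> by_cases a2 : w ∈ S <;> by_cases a3 : u ∈ S <;>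
      simp [a1, a2, a3]

end

end Fin13

open Fin13

theorem half_bal (hMOD : S_MOD) (hREP : S_REP) (hDEG : S_DEG34) (hCOMP : S_COMP)
    (hHALF2 : S_HALF2b) (hHALF4 : S_HALF4) (p n : ℕ) (hpn : p = 2 * n) (hn4 : 4 ≤ n)
    (hev : Even n) (G : SimpleGraph (Fin p)) (U : Finset (Fin p)) (hU : IsMod G U)
    (hUc : U.card = n) (H : SimpleGraph (Fin p)) (hdeck : SameDeck G H)
    (hne : ¬ Nonempty (G ≃g H)) :
    (∀ w ∉ U, 2 * {u | u ∈ U ∧ G.Adj w u}.ncard = n) ∧
      (∀ w ∈ U, 2 * {u | u ∉ U ∧ G.Adj w u}.ncard = n) := by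
  classical
  obtain ⟨S₁, φ, hH, hφ⟩ := half_exists hMOD hREP hDEG hCOMP p n hpn hn4 G U hU hUc H hdeck hne
  have hH' := half_compl _ _ _ _ hH
  have h1 := hHALF4 (Fin p) (sw G S₁) U n φ hH hn4 hev
    (hHALF2 (Fin p) (sw G S₁) U n φ hH hn4) S₁ hφ
  have h2 := hHALF4 (Fin p) (sw G S₁) Uᶜ n φ hH' hn4 hev
    (hHALF2 (Fin p) (sw G S₁) Uᶜ n φ hH' hn4) S₁ hφ
  refine ⟨fun w hw => count G S₁ U n hUc hH.mod h1 w hw, fun w hw => ?_⟩
  have h3 := count G S₁ Uᶜ n hH.cardW hH'.mod h2 w (by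
    rw [Finset.mem_compl, not_not]
    exact hw)
  simpa only [Finset.mem_compl] using h3

end Pool.Agent.NTW
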