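import Pool.Agent.NTW.MHALF4

/-!
# MP_e73337_co, modules with exactly half of the vertices: both sides are symmetric (helper39, Dec 5)

`theorem t_HALF5 : S_HALF5`.
-/

set_option autoImplicit false

namespace Pool.Agent.NTW

open Finset Pool.Agent.Lib_helper61.SwitchBasic

/-- **HALF5** (no hypothesis; uses `half3_two`, `orbit`, `aut` and the lower bound for the support of a function on a cube with the eigenvalue 0: `t_RM`, `t_DEG` (files MRM, MDEG, statements St.lean), or HOM / the similar lemmas of Pool/Agent/RGP15).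
Choose `P` with `0 < f P` (`pos`), `a = half3q B U P`, `b = half3q B Uᶜ P`, `D : Half3D B U n f a b P` (as in the proof of `t_HALF3`; there is a lemma in MHALF4.lean).  `Y = P ∩ Uᶜ`, `g X = half3a B U f a (X ∪ Y)` for `X ⊆ U`.
For `T ⊆ U`, `u ∈ U`: `symmDiff (T ∪ Y) {u} = symmDiff T {u} ∪ Y`, so `half3_two D (T ∪ Y)` says `∑_(u ∈ U) g (T Δ {u}) = 0`; `g (P ∩ U) = f P ≠ 0`.  Carry `g` to the type `{x // x ∈ U}` (`Finset.map` along the inclusion): the Moebius
coefficients of degree greater than `n / 2` vanish (DEG), and RM (degree `j = n / 2`) gives at least `2 ^ (n - n / 2)` sets `X ⊆ U` with `g X ≠ 0`, so `f (X ∪ Y) ≠ 0`.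
Then `0 < f P * f (X ∪ Y)` or `0 < f P * f (symmDiff (X ∪ Y) U)` (`f (S Δ U) = - f S`), so by `orbit` one of `X ∪ Y`, `(X ∪ Y) Δ U` is `r P` or `(r P)ᶜ`, `r` an automorphism of `B`, and in all cases `X = r P ∩ U` or `X = U \ r P`.  If `r` is straight (maps `U` to `U`; `aut`), `r P ∩ U = r (P ∩ U)`;
if it is crossed, `r P ∩ U = r (P ∩ Uᶜ)`.  If there is a crossed automorphism fix one, `r₀`, and put `Z₂ = r₀ (P ∩ Uᶜ)`; `Z₁ = P ∩ U`; for `r` crossed, `φ = r r₀⁻¹` is straight and `r (P ∩ Uᶜ) = φ Z₂`.  So every such `X` is `φ Z` or `U \ φ Z` with `Z ∈ {Z₁, Z₂}` and `φ` the restriction to `U` of a straight automorphism,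
an element of `B.induce {x | x ∈ U} ≃g B.induce {x | x ∈ U}`: at most `4 * Nat.card` sets. -/
def S_HALF5 : Prop :=
  ∀ (α : Type) [Fintype α] [DecidableEq α] (B : SimpleGraph α) (U : Finset α) (n : ℕ)
    (f : Finset α → ℚ), Half B U n f → Even n → (∀ S, f (symmDiff S U) = - f S) →
    2 ^ (n - n / 2) ≤ 4 * Nat.card (B.induce {x | x ∈ U} ≃g B.induce {x | x ∈ U})

end Pool.Agent.NTW
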