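import Pool.Agent.NTW.Fin13
import Pool.Agent.NTW.SmallComp
import Pool.Agent.NTW.St12

/-!
Modules with exactly half of the vertices: both sides are connected, with connected complements, and
have many automorphisms (helper39).
-/

set_option autoImplicit false

namespace Pool.Agent.NTW

open Finset Pool.Agent.Lib_helper61.SwitchBasic

namespace Fin14

section
variable {α : Type}

theorem reach_in (Γ : SimpleGraph α) (V : Set α) (hno : ∀ u ∈ V, ∀ w, w ∉ V → ¬ Γ.Adj u w)
    {x y : α} (h : Γ.Reachable x y) (hx : x ∈ V) :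
    ∃ hy : y ∈ V, (Γ.induce V).Reachable ⟨x, hx⟩ ⟨y, hy⟩ := by
  obtain ⟨w⟩ := h
  induction w with
  | nil => exact ⟨hx, SimpleGraph.Reachable.refl _⟩
  | @cons a b c hab _ ih =>
    have hb : b ∈ V := by
      by_contra hb
      exact hno _ hx b hb hab
    obtain ⟨hy, h2⟩ := ih hb
    refine ⟨hy, SimpleGraph.Reachable.trans (SimpleGraph.Adj.reachable ?_) h2⟩
    exact hab

end

theorem side_connected (p : ℕ) (hp4 : p ≠ 4) (G H : SimpleGraph (Fin p)) (hdeck : SameDeck G H)
    (hne : ¬ Nonempty (G ≃g H)) (S : Finset (Fin p)) (Γ : SimpleGraph (Fin p))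
    (hΓ : Γ = sw G S ∨ Γ = (sw G S)ᶜ) (U : Finset (Fin p)) (hUc : 2 * U.card = p) (hp : 0 < p)
    (hno : ∀ u ∈ U, ∀ w, w ∉ U → ¬ Γ.Adj u w) :
    (Γ.induce {x | x ∈ U}).Connected := by
  classical
  have hU0 : 0 < U.card := by omega
  obtain ⟨u₀, hu₀⟩ := Finset.card_pos.1 hU0
  have hUW : U.card < (univ : Finset (Fin p)).card := by
    rw [Finset.card_univ, Fintype.card_fin]
    omega
  obtain ⟨w₀, -, hw₀⟩ := Finset.exists_mem_notMem_of_card_lt_card hUW
  have hno' : ∀ u ∈ {x | x ∈ U}, ∀ w, w ∉ {x | x ∈ U} → ¬ Γ.Adj u w := hno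
  have hno2 : ∀ u ∈ {x | x ∉ U}, ∀ w, w ∉ {x | x ∉ U} → ¬ Γ.Adj u w := by
    intro u hu w hw h
    exact hno w (by_contra fun h' => hw h') u hu h.symm
  have : Nonempty {x | x ∈ U} := ⟨⟨u₀, hu₀⟩⟩
  refine ⟨?_⟩
  by_contra hcon
  have h1 : ∃ a b : {x | x ∈ U}, ¬ (Γ.induce {x | x ∈ U}).Reachable a b := by
    by_contra hc
    push Not at hc
    exact hcon fun a b => hc a b
  obtain ⟨⟨a, ha⟩, ⟨b, hb⟩, hab⟩ := h1
  apply hne
  refine SmallComp.small_comps p hp4 G S Γ hΓ ?_ (Or.inl ?_) H hdeck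
  · have d1 : Γ.connectedComponentMk a ≠ Γ.connectedComponentMk b := by
      intro e
      obtain ⟨_, h2⟩ := reach_in Γ _ hno' (SimpleGraph.ConnectedComponent.exact e) ha
      exact hab h2
    have d2 : ∀ u, u ∈ U → Γ.connectedComponentMk u ≠ Γ.connectedComponentMk w₀ := by
      intro u hu e
      obtain ⟨h3, _⟩ := reach_in Γ _ hno' (SimpleGraph.ConnectedComponent.exact e) hu
      exact hw₀ h3
    have h3 : ({Γ.connectedComponentMk a, Γ.connectedComponentMk b,
        Γ.connectedComponentMk w₀} : Finset Γ.ConnectedComponent).card = 3 := by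
      rw [Finset.card_insert_of_notMem, Finset.card_pair (d2 b hb)]
      rw [Finset.mem_insert, Finset.mem_singleton, not_or]
      exact ⟨d1, d2 a ha⟩
    rw [Nat.card_eq_fintype_card, ← h3]
    exact Finset.card_le_univ _
  · intro c
    induction c using SimpleGraph.ConnectedComponent.ind with
    | h x =>
      by_cases hx : x ∈ U
      · have hsub : (Γ.connectedComponentMk x).supp ⊆ (U : Set (Fin p)) := by
          intro y hy
          rw [SimpleGraph.ConnectedComponent.mem_supp_iff] at hy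
          obtain ⟨h3, _⟩ := reach_in Γ _ hno' (SimpleGraph.ConnectedComponent.exact hy.symm) hx
          exact h3
        have := Set.ncard_le_ncard hsub (Finset.finite_toSet U)
        rw [Set.ncard_coe_finset] at this
        omega
      · have hsub : (Γ.connectedComponentMk x).supp ⊆ ((Uᶜ : Finset (Fin p)) : Set (Fin p)) := by
          intro y hy
          rw [SimpleGraph.ConnectedComponent.mem_supp_iff] at hy
          obtain ⟨h3, _⟩ := reach_in Γ _ hno2 (SimpleGraph.ConnectedComponent.exact hy.symm) hx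
          rw [Finset.mem_coe, Finset.mem_compl]
          exact h3
        have := Set.ncard_le_ncard hsub (Finset.finite_toSet Uᶜ)
        rw [Set.ncard_coe_finset, Finset.card_compl, Fintype.card_fin] at this
        omega

theorem side_co_connected (p : ℕ) (hp4 : p ≠ 4) (G H : SimpleGraph (Fin p))
    (hdeck : SameDeck G H) (hne : ¬ Nonempty (G ≃g H)) (S U : Finset (Fin p))
    (hUc : 2 * U.card = p) (hp : 0 < p)
    (hno : ∀ u ∈ U, ∀ w, w ∉ U → ¬ (sw G S).Adj u w) :
    ((sw G S).induce {x | x ∈ U})ᶜ.Connected := by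
  have h1 := side_connected p hp4 G H hdeck hne (symmDiff S U) (sw G (symmDiff S U))ᶜ (Or.inr rfl)
    U hUc hp (by
      intro u hu w hw h
      rw [SimpleGraph.compl_adj, ← sw_sw, sw_adj] at h
      apply h.2
      refine ⟨h.1, ?_⟩
      constructor
      · intro h2
        exact absurd h2 (hno u hu w hw)
      · intro h2
        exact absurd (h2.1 hu) hw)
  have h2 : ((sw G (symmDiff S U))ᶜ.induce {x | x ∈ U}) = ((sw G S).induce {x | x ∈ U})ᶜ := by
    ext a b
    obtain ⟨a, ha⟩ := a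
    obtain ⟨b, hb⟩ := b
    rw [Set.mem_ofPred_eq] at ha hb
    simp only [SimpleGraph.comap_adj, Function.Embedding.subtype_apply, SimpleGraph.compl_adj,
      ← sw_sw, sw_adj, ne_eq, Subtype.mk.injEq, ha, hb]
    by_cases h1 : a = b
    · simp [h1]
    · simp [h1]
  rw [← h2]
  exact h1

end Fin14

open Fin14

/-- The two sides of a module with exactly half of the vertices. -/
theorem half_sides (hMOD : S_MOD) (hREP : S_REP) (hDEG : S_DEG34) (hCOMP : S_COMP)
    (hHALF2 : S_HALF2b) (hHALF5 : S_HALF5) (p n : ℕ) (hpn : p = 2 * n) (hn4 : 4 ≤ n)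
    (hev : Even n) (G : SimpleGraph (Fin p)) (U : Finset (Fin p)) (hU : IsMod G U)
    (hUc : U.card = n) (H : SimpleGraph (Fin p)) (hdeck : SameDeck G H)
    (hne : ¬ Nonempty (G ≃g H)) :
    ∃ S : Finset (Fin p), (∀ u ∈ U, ∀ w, w ∉ U → ¬ (sw G S).Adj u w) ∧
      ((sw G S).induce {x | x ∈ U}).Connected ∧ ((sw G S).induce {x | x ∈ U})ᶜ.Connected ∧
      ((sw G S).induce {x | x ∉ U}).Connected ∧ ((sw G S).induce {x | x ∉ U})ᶜ.Connected ∧
      2 ^ (n - n / 2) ≤ 4 * Nat.card ((sw G S).induce {x | x ∈ U} ≃g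
        (sw G S).induce {x | x ∈ U}) ∧
      2 ^ (n - n / 2) ≤ 4 * Nat.card ((sw G S).induce {x | x ∉ U} ≃g
        (sw G S).induce {x | x ∉ U}) := by
  classical
  obtain ⟨S₁, φ, hH, hφ⟩ := half_exists hMOD hREP hDEG hCOMP p n hpn hn4 G U hU hUc H hdeck hne
  have hH' := Fin13.half_compl _ _ _ _ hH
  have h1 := hHALF5 (Fin p) (sw G S₁) U n φ hH hev
    (hHALF2 (Fin p) (sw G S₁) U n φ hH hn4)
  have h2 := hHALF5 (Fin p) (sw G S₁) Uᶜ n φ hH' hev
    (hHALF2 (Fin p) (sw G S₁) Uᶜ n φ hH' hn4)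
  have hset : {x : Fin p | x ∈ Uᶜ} = {x | x ∉ U} := by
    ext x
    simp
  rw [hset] at h2
  have hUW : Uᶜ.card = n := hH.cardW
  have hp0 : 0 < p := by omega
  have hp4 : p ≠ 4 := by omega
  -- a switching without edges between the sides
  obtain ⟨S, hno, e1, e2⟩ : ∃ S : Finset (Fin p), (∀ u ∈ U, ∀ w, w ∉ U → ¬ (sw G S).Adj u w) ∧
      (sw G S).induce {x | x ∈ U} = (sw G S₁).induce {x | x ∈ U} ∧
      (sw G S).induce {x | x ∉ U} = (sw G S₁).induce {x | x ∉ U} := by
    by_cases hc : ∃ u ∈ U, ∃ w, w ∉ U ∧ (sw G S₁).Adj u w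
    · obtain ⟨u₀, hu₀, w₀, hw₀, hadj⟩ := hc
      refine ⟨symmDiff S₁ U, ?_, ?_, ?_⟩
      · intro u hu w hw h
        rw [← sw_sw, sw_adj] at h
        have h3 : (sw G S₁).Adj u w := (hH.mod u hu u₀ hu₀ w hw w₀ hw₀).2 hadj
        exact hw ((h.2.1 h3).1 hu)
      · ext a b
        obtain ⟨a, ha⟩ := a
        obtain ⟨b, hb⟩ := b
        rw [Set.mem_ofPred_eq] at ha hb
        simp only [SimpleGraph.comap_adj, Function.Embedding.subtype_apply, ← sw_sw, sw_adj,
          ne_eq, ha, hb]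
        tauto
      · ext a b
        obtain ⟨a, ha⟩ := a
        obtain ⟨b, hb⟩ := b
        rw [Set.mem_ofPred_eq] at ha hb
        simp only [SimpleGraph.comap_adj, Function.Embedding.subtype_apply, ← sw_sw, sw_adj,
          ne_eq, ha, hb]
        tauto
    · push Not at hc
      exact ⟨S₁, fun u hu w hw => hc u hu w hw, rfl, rfl⟩
  have hno2 : ∀ u ∈ Uᶜ, ∀ w, w ∉ Uᶜ → ¬ (sw G S).Adj u w := by
    intro u hu w hw h
    rw [Finset.mem_compl] at hu
    rw [Finset.mem_compl, not_not] at hw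
    exact hno w hw u hu h.symm
  have c1 := side_connected p hp4 G H hdeck hne S (sw G S) (Or.inl rfl) U (by omega) hp0 hno
  have c2 := side_co_connected p hp4 G H hdeck hne S U (by omega) hp0 hno
  have c3 := side_connected p hp4 G H hdeck hne S (sw G S) (Or.inl rfl) Uᶜ (by omega) hp0 hno2
  have c4 := side_co_connected p hp4 G H hdeck hne S Uᶜ (by omega) hp0 hno2
  rw [hset] at c3 c4
  refine ⟨S, hno, c1, c2, c3, c4, ?_, ?_⟩
  · rw [e1]
    exact h1
  · rw [e2]
    exact h2

end Pool.Agent.NTW
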