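import Pool.Agent.NTW.Fin12

/-!
Sizes of the parts of the centroid: what follows from helper78's theorem for substitutions (helper39).
-/

set_option autoImplicit false

namespace Pool.Agent.NTW

open Finset Pool.Agent.Lib_helper61.SwitchBasic

/-- Sizes of the parts (theorem of helper78). -/
def S_SIZE : Prop :=
  ∀ (p : ℕ) (G H : SimpleGraph (Fin p)), SameDeck G H → ¬ Nonempty (G ≃g H) →
    ∀ c : Fin p → ℕ, (∀ i, IsMod G (Fin5.part c i)) → (∀ i, 2 * (Fin5.part c i).card < p) →
      5 ≤ (univ.image c).card → PrimeQ G c →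
      (∀ s : Equiv.Perm (Fin p), IsClassAut G s → ∀ x y, c x = c y → c (s x) = c (s y)) →
      ∃ E : Finset ℕ, E.card ≤ 4 ∧ (∀ i ∈ E, Even (Fin5.part c i).card) ∧
        ∀ i ∈ univ.image c, i ∉ E → (Fin5.part c i).card < 2 * {V : Finset (Fin p) |
          ∃ s : Equiv.Perm (Fin p), IsClassAut G s ∧
            V = (Fin5.part c i).map s.toEmbedding}.ncard

namespace Fin15

theorem images_le (p : ℕ) (G : SimpleGraph (Fin p)) (c : Fin p → ℕ)
    (hinv : ∀ s : Equiv.Perm (Fin p), IsClassAut G s → ∀ x y, c x = c y → c (s x) = c (s y))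
    (i : ℕ) (hi : i ∈ univ.image c) :
    {V : Finset (Fin p) | ∃ s : Equiv.Perm (Fin p), IsClassAut G s ∧
      V = (Fin5.part c i).map s.toEmbedding}.ncard ≤ (univ.image c).card := by
  classical
  obtain ⟨x₀, -, hx₀⟩ := Finset.mem_image.1 hi
  have hsub : {V : Finset (Fin p) | ∃ s : Equiv.Perm (Fin p), IsClassAut G s ∧
      V = (Fin5.part c i).map s.toEmbedding} ⊆
      (((univ.image c).image fun j => Fin5.part c j : Finset (Finset (Fin p))) :
        Set (Finset (Fin p))) := by
    rintro V ⟨s, hs, rfl⟩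
    rw [Finset.coe_image]
    refine ⟨c (s x₀), Finset.mem_coe.2 (Finset.mem_image_of_mem c (Finset.mem_univ _)), ?_⟩
    ext y
    rw [Fin5.mem_part, Finset.mem_map_equiv, Fin5.mem_part]
    constructor
    · intro h
      have h1 := hinv _ (Fin6.classAut_inv G s hs) y (s x₀) h
      rw [show s⁻¹ (s x₀) = x₀ from s.symm_apply_apply x₀] at h1
      exact h1.trans hx₀
    · intro h
      have h1 := hinv s hs (s.symm y) x₀ (h.trans hx₀.symm)
      rw [Equiv.apply_symm_apply] at h1
      exact h1
  have h1 := Set.ncard_le_ncard hsub (Finset.finite_toSet _)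
  rw [Set.ncard_coe_finset] at h1
  exact h1.trans Finset.card_image_le

end Fin15

/-- Substitution of graphs, at least five of them large, into a prime graph. -/
theorem subst_sizes (hSIZE : S_SIZE) (hPRQ : S_PRQ) (p r : ℕ)
    (F : SimpleGraph (Fin r))
    (hF : ∀ C : Finset (Fin r), IsMod F C → C.card ≤ 1 ∨ r ≤ C.card + 1)
    (G : SimpleGraph (Fin p)) (S : Finset (Fin p)) (π : Fin p → Fin r)
    (hπ : Function.Surjective π)
    (hsub : ∀ u v, π u ≠ π v → ((sw G S).Adj u v ↔ F.Adj (π u) (π v)))
    (hsmall : ∀ i, 2 * (univ.filter fun x => π x = i).card < p)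
    (h5 : 5 ≤ (univ.filter fun i => 2 * r ≤ (univ.filter fun x => π x = i).card).card)
    (H : SimpleGraph (Fin p)) (hdeck : SameDeck G H) : Nonempty (G ≃g H) := by
  classical
  by_contra hne
  have hr5 : 5 ≤ r := by
    have := (Finset.card_le_univ (univ.filter fun i : Fin r =>
      2 * r ≤ (univ.filter fun x => π x = i).card))
    rw [Fintype.card_fin] at this
    omega
  have hcard : Fintype.card (Fin p) = p := Fintype.card_fin p
  set B := sw G S with hB
  set c : Fin p → ℕ := fun x => (π x : ℕ) with hc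
  have hcπ : ∀ x y, c x = c y ↔ π x = π y := fun x y => Fin.ext_iff.symm
  obtain ⟨h1, h2, h3⟩ := hPRQ p r F B π hπ hsub
  have hpart : ∀ i : Fin r, Fin5.part c (i : ℕ) = univ.filter fun x => π x = i := by
    intro i
    ext x
    rw [Fin5.mem_part]
    simp only [Finset.mem_filter, Finset.mem_univ, true_and, hc, Fin.ext_iff]
  have hsmall' : ∀ i, 2 * (Fin5.part c i).card < Fintype.card (Fin p) := by
    intro i
    rw [hcard]
    rcases Nat.lt_or_ge i r with hi | hi
    · rw [hpart ⟨i, hi⟩]
      exact hsmall ⟨i, hi⟩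
    · have h4 : Fin5.part c i = ∅ := by
        rw [Finset.eq_empty_iff_forall_notMem]
        intro x hx
        rw [Fin5.mem_part] at hx
        have := (π x).isLt
        simp only [hc] at hx
        omega
      rw [h4, Finset.card_empty]
      obtain ⟨x, -⟩ := hπ ⟨0, by omega⟩
      have := x.isLt
      omega
  have hinvB := t_INVB t_INVA (Fin p) B c h2 (by rw [h3]; omega) (h1 hF) hsmall'
  have hinv : ∀ s : Equiv.Perm (Fin p), IsClassAut G s → ∀ x y, c x = c y → c (s x) = c (s y) :=
    fun s hs => hinvB s ((Fin6.classAut_sw G S s).2 hs)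
  have hmodG : ∀ i, IsMod G (Fin5.part c i) := fun i => (isMod_sw_iff G S _).1 (h2 i)
  have hPG : PrimeQ G c := by
    intro W hW hu
    exact h1 hF W ((isMod_sw_iff G S W).2 hW) hu
  obtain ⟨E, hE4, -, hE⟩ := hSIZE p G H hdeck hne c hmodG (fun i => by
    have := hsmall' i
    rwa [hcard] at this) (by rw [h3]; exact hr5) hPG hinv
  -- five large parts, at most four exceptions
  have hcardE : ((univ.filter fun i : Fin r => 2 * r ≤ (univ.filter fun x => π x = i).card).map
      Fin.valEmbedding).card = (univ.filter fun i : Fin r =>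
        2 * r ≤ (univ.filter fun x => π x = i).card).card := Finset.card_map _
  obtain ⟨j, hj, hjE⟩ := Finset.exists_mem_notMem_of_card_lt_card
    (show E.card < ((univ.filter fun i : Fin r =>
      2 * r ≤ (univ.filter fun x => π x = i).card).map Fin.valEmbedding).card by omega)
  obtain ⟨i, hi, rfl⟩ := Finset.mem_map.1 hj
  have hi2 : 2 * r ≤ (univ.filter fun x => π x = i).card := (Finset.mem_filter.1 hi).2
  have hmem : (i : ℕ) ∈ univ.image c := by
    obtain ⟨x, hx⟩ := hπ i
    exact Finset.mem_image.2 ⟨x, Finset.mem_univ x, by rw [hc]; simp only [hx]⟩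
  have h6 := hE (i : ℕ) hmem hjE
  have h7 := Fin15.images_le p G c hinv (i : ℕ) hmem
  rw [hpart i] at h6
  rw [hpart i, h3] at h7
  omega

end Pool.Agent.NTW
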