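import Pool.Agent.NTW.Trace7
import Pool.Agent.NTW.Sw

/-!
Substitution of graphs, one with few automorphisms, into a prime graph (helper39, a case of a theorem of
helper78).
-/

set_option autoImplicit false

namespace Pool.Agent.NTW

open Finset Pool.Agent.Lib_helper61.SwitchBasic

theorem subst_aut (p r : ℕ) (hr : 4 ≤ r) (F : SimpleGraph (Fin r))
    (hF : ∀ C : Finset (Fin r), IsMod F C → C.card ≤ 1 ∨ r ≤ C.card + 1)
    (G : SimpleGraph (Fin p)) (S : Finset (Fin p)) (π : Fin p → Fin r)
    (hπ : Function.Surjective π)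
    (hsub : ∀ u v, π u ≠ π v → ((sw G S).Adj u v ↔ F.Adj (π u) (π v)))
    (hsmall : ∀ i, 2 * (univ.filter fun x => π x = i).card < p) (i : Fin r)
    (hi : 2 * (r * Nat.card ((sw G S).induce {x | π x = i} ≃g (sw G S).induce {x | π x = i})) <
      2 ^ (((univ.filter fun x => π x = i).card + 1) / 2))
    (H : SimpleGraph (Fin p)) (hdeck : SameDeck G H) : Nonempty (G ≃g H) := by
  have e : sw (sw G S) S = G := by
    rw [sw_sw, symmDiff_self, Finset.bot_eq_empty, sw_empty]
  have h1 := prime_aut p r hr F hF (sw G S) π hπ hsub hsmall i S (by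
    refine lt_of_le_of_lt ?_ hi
    refine Nat.mul_le_mul_left 2 (Nat.mul_le_mul_right _ ?_)
    have := Set.ncard_le_ncard (Set.subset_univ {j : Fin r | Nonempty
      ((sw G S).induce {x | π x = i} ≃g (sw G S).induce {x | π x = j})}) Set.finite_univ
    rw [Set.ncard_univ, Nat.card_fin] at this
    exact this) H (by rw [e]; exact hdeck)
  rw [e] at h1
  exact h1

end Pool.Agent.NTW
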