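import Mathlib
import Pool.Agent.NTW.St2

/-!
# MP_e73337_co, version 3: large twin classes (helper78 for helper48, Dec 5)

THEOREM (V3).  `L = ⌈log₂ p⌉`, `M ≥ 4`, `D = 12 M L²`, `24 M L² + 2 ≤ p`.  Let `G` be a graph on `p` vertices such that for all but at most
`p / (6 M L)` vertices `y`: (a) at most two vertices are near `y`, or (b) `y` and all vertices near `y` lie in a module (up to switching)
`C` with `|C|! ≤ 2^(M-1)`, or (c) all vertices near `y` are twins of `y`, and `2^k ≤ (k+1)^M` for `k` = 1 + their number.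
Then `G` is switching-reconstructible.

Chain: `S_ONE` → `S_BLS`; `S_BLC`; `S_TEN3`; `S_GRP3`; `S_NUM3`; with DEG, HIT, ORB, ORB2, ESZ2, CNT the theorem.
-/

set_option autoImplicit false

namespace Pool.Agent.NTW

open Finset Pool.Agent.Lib_helper61.SwitchBasic

/-- The conclusion of ONE for one block, with exponent `M`. -/
def BlockOK {α : Type} [DecidableEq α] (Λ : Finset α) (E : Finset α → Finset α → Prop) (M : ℕ) :
    Prop :=
  ∀ (f : Finset α → ℚ) (j : ℕ), (∀ X ⊆ Λ, ∀ X' ⊆ Λ, E X X' → f X = f X') → DegLE Λ j f →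
    (∃ X ⊆ Λ, f X ≠ 0) →
    ∃ 𝒯 : Finset (Finset α), (∀ X ∈ 𝒯, X ⊆ Λ ∧ f X ≠ 0) ∧ (∀ X ∈ 𝒯, ∀ X' ∈ 𝒯, E X X' → X = X') ∧
      2 ^ (Λ.card - j) ≤ 𝒯.card ^ M

/-- **BLS** (from ONE).  `1 ≤ 2 ^ (..) ≤ card 𝒯 ^ (m + 1)`, so `1 ≤ card 𝒯` and `card 𝒯 ^ (m + 1) ≤ card 𝒯 ^ M`. -/
def S_BLS : Prop :=
  ∀ (α : Type) [DecidableEq α] (U : Finset α) (E : Finset α → Finset α → Prop) (m M : ℕ),
    1 ≤ m → m + 1 ≤ M → Equivalence E → (∀ X X', E X X' → X.card = X'.card) →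
    (∀ X ⊆ U, {X' : Finset α | X' ⊆ U ∧ E X X'}.ncard ≤ 2 ^ m) → BlockOK U E M

/-- **BLC** (a block of twins).  `f` is a function `φ` of `card X` on the subsets of `Λ`; `n = card Λ`.  For `j < i ≤ n` (take any `T ⊆ Λ` with
`i` elements): `0 = mob f T = ∑_(k ≤ i) (-1)^k C(i,k) φ k`, i.e. the `i`-th forward difference of `φ` at 0 vanishes.  Newton: for `k ≤ n`
`φ k = ∑_(i ≤ k) C(k,i) Δ^i φ 0 = ∑_(i ≤ j) C(k,i) Δ^i φ 0 = P k`, `P` a polynomial of degree `≤ j` (Mathlib: `shift_eq_sum_fwdDiff_iter`,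
`fwdDiff_iter_eq_sum_shift`, `descPochhammer_eval_eq_descFactorial`), not the zero polynomial, so `φ` has at most `j` zeros among `0..n`:
at least `n + 1 - j` cardinalities `k` have `φ k ≠ 0`; `𝒯` = one subset of `Λ` for each of them (different cardinalities are not
equivalent).  Numbers: `d = n - j`, `d + 1 ≤ card 𝒯` (natural subtraction; `1 ≤ card 𝒯` in any case), and `2 ^ d ≤ (d + 1) ^ M` for `d ≤ c`: weighted AM-GM gives
`(c + 1) ^ d ≤ (d + 1) ^ c`, so `2 ^ (c d) ≤ (c + 1) ^ (M d) ≤ (d + 1) ^ (M c)`, take the `c`-th root (`c = 0` is trivial).  This last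
fact is needed elsewhere too: second part. -/
def S_BLC : Prop :=
  (∀ (α : Type) [DecidableEq α] (Λ : Finset α) (E : Finset α → Finset α → Prop) (M : ℕ),
    (∀ X ⊆ Λ, ∀ X' ⊆ Λ, X.card = X'.card → E X X') → (∀ X X', E X X' → X.card = X'.card) →
    2 ^ Λ.card ≤ (Λ.card + 1) ^ M → BlockOK Λ E M) ∧
  (∀ c d M : ℕ, d ≤ c → 2 ^ c ≤ (c + 1) ^ M → 2 ^ d ≤ (d + 1) ^ M)

/-- **TEN3**.  As TEN (`Pool/Agent/NTW/MTEN.lean`), with `BlockOK` instead of ONE. -/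
def S_TEN3 : Prop :=
  ∀ (α : Type) [Fintype α] [DecidableEq α] (lab : α → α) (E : Finset α → Finset α → Prop) (M : ℕ),
    1 ≤ M → Equivalence E → (∀ i : α, BlockOK (univ.filter fun x => lab x = i) E M) →
    ∀ (f : Finset α → ℚ) (j : ℕ),
    (∀ (i : α) (X X' Y : Finset α), E X X' → (∀ x ∈ X, lab x = i) → (∀ x ∈ Y, lab x ≠ i) →
      f (X ∪ Y) = f (X' ∪ Y)) →
    DegLE univ j f → (∃ X, f X ≠ 0) →
    ∃ 𝒯 : Finset (Finset α), (∀ S ∈ 𝒯, f S ≠ 0) ∧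
      (∀ S ∈ 𝒯, ∀ S' ∈ 𝒯,
        (∀ i : α, E (S.filter fun x => lab x = i) (S'.filter fun x => lab x = i)) → S = S') ∧
      2 ^ (Fintype.card α - j) ≤ 𝒯.card ^ M

/-- **GRP3**.  As GRP2 (`Pool/Agent/NTW/MGRP2.lean`: same `lab`, same (1), (2)), one more alternative.  `A`, `B` are properties of sizes.
(3) Case T: some `y` in the block satisfies the third alternative (twins).  `N = FG G R`.  (i) it then holds for every `u ∈ orb y` (`u = κ y`: apply `κ⁻¹`).  (ii) the block is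
`orb y`: if `u ∈ orb y` and `r u v`, then `v ∈ orb y`: otherwise (`v ∉ orb u`) `¬ (G.Adj (σ u) (σ' v) ↔ G.Adj u v)` with `σ, σ' ∈ N`, so with `ρ = σ⁻¹ σ'`:
`¬ (G.Adj u (ρ v) ↔ G.Adj u v)`; but `G.Adj u (ρ v) ↔ G.Adj (ρ⁻¹ u) v`, and `G.Adj v u ↔ G.Adj v (ρ⁻¹ u)` by (i) (`v ≠ u`, `v ≠ ρ⁻¹ u`).  By symmetry (`GRP2.swap`)
also `v ∈ orb y → u ∈ orb y`, so by induction over `EqvGen` the block is `orb y`.  (iii) every permutation `π` of `α` with `π z = z` for `z ∉ orb y` is in `N`: it fixes `R`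
(if `r ∈ R` is in `orb y` then `orb y = {r}`); adjacency: one of `u`, `v` outside `orb y`: (i); both inside, `u ≠ v`, `a = π u`, `b = π v`, `a ≠ b`:
if `b ≠ u`: `G.Adj u v ↔ G.Adj u b ↔ G.Adj a b`; if `b = u`: `G.Adj u v ↔ G.Adj u a`.  (iv) for `X, X' ⊆ orb y` with `X.card = X'.card` some such `π` maps
`X` to `X'` (`Equiv.extendSubtype` in the subtype `orb y`, `Equiv.Perm.ofSubtype`).  So the second alternative of the conclusion holds.
Case A (no `y` as in case T, some `y` with the second alternative) and case B (all `y` in the block have `(orb y).ncard ≤ 3`): as in GRP2. -/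
def S_GRP3 : Prop :=
  ∀ (α : Type) [Fintype α] [DecidableEq α] (G : SimpleGraph α) (R : Finset α) (A B : ℕ → Prop),
    A 3 → (∀ a b : ℕ, a ≤ b → A b → A a) →
    (∀ y : α, (orb G R y).ncard ≤ 3 ∨
      (∃ C : Finset α, A C.card ∧ orb G R y ⊆ (C : Set α) ∧
        ∀ τ ∈ FG G R, ∀ z ∈ C, τ z ∈ C → ∀ x, x ∉ C → (G.Adj x z ↔ G.Adj x (τ z))) ∨
      (B (orb G R y).ncard ∧
        ∀ τ ∈ FG G R, ∀ x, x ≠ y → x ≠ τ y → (G.Adj x y ↔ G.Adj x (τ y)))) →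
    ∃ lab : α → α, (∀ τ ∈ FG G R, ∀ x, lab (τ x) = lab x) ∧
      (∀ i : α, ∀ τ ∈ FG G R, ∃ τ' ∈ FG G R, ∀ x, τ' x = if lab x = i then τ x else x) ∧
      (∀ i : α, (∃ Z : Finset α, A Z.card ∧ (∀ τ ∈ FG G R, ∀ z ∈ Z, τ z ∈ Z) ∧
          ∀ τ ∈ FG G R, (∀ z ∈ Z, τ z = z) → ∀ x, lab x = i → τ x = x) ∨
        (B (univ.filter fun x => lab x = i).card ∧
          ∀ X X' : Finset α, (∀ x ∈ X, lab x = i) → (∀ x ∈ X', lab x = i) → X.card = X'.card →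
            ∃ τ ∈ FG G R, X' = X.map τ.toEmbedding))

/-- **NUM3**.  As NUM (`Pool/Agent/NTW/MNUM.lean`) with `2 M` in place of `t ^ 2`: `p ≤ 2 ^ L`, so it is enough that `2 M (2 + L r) < p`.
`p ≥ 24 M L² + 2 ≥ 98`, so `L ≥ 7`; `2 M L (2L+2) (p/D + 1) ≤ p (1/3 + 1/21) + 4 M L² + 4 M L`, `2 M L e ≤ p/3`,
`M (4L² + 6L + 4) ≤ 5 M L² ≤ (5/24) p`; the sum is `< p`. -/
def S_NUM3 : Prop :=
  ∀ M : ℕ, 4 ≤ M → ∀ p e r : ℕ, 24 * M * Nat.clog 2 p ^ 2 + 2 ≤ p →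
    6 * M * Nat.clog 2 p * e ≤ p →
    r ≤ (2 * Nat.clog 2 p + 2) * (p / (12 * M * Nat.clog 2 p ^ 2) + 1) + 1 + e →
    (4 * p ^ r) ^ M < 2 ^ (p - p / 2)

end Pool.Agent.NTW
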