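import Pool.Agent.NTW.Fin
import Pool.Agent.NTW.St4

/-!
Assembly of version 3 (MP_e73337_co, few near twins; modules; large twin classes) (helper78; adapted from Fin2.lean of helper48).
-/

set_option autoImplicit false

namespace Pool.Agent.NTW

open Finset Pool.Agent.Lib_helper61.SwitchBasic

open Fin0

theorem fac_pow (n : ℕ) : 2 ^ n ≤ (n + 1).factorial := by
  induction n with
  | zero => simp
  | succ n ih =>
    rw [Nat.factorial_succ, pow_succ, mul_comm]
    exact Nat.mul_le_mul (by omega) ih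

theorem le_of_fac {k M : ℕ} (hM : 1 ≤ M) (h : k.factorial ≤ 2 ^ (M - 1)) : k ≤ M := by
  by_contra hk
  have h1 : (M + 1).factorial ≤ k.factorial := Nat.factorial_le (by omega)
  have h2 := fac_pow M
  have h3 : 2 ^ (M - 1) < 2 ^ M := Nat.pow_lt_pow_right (by norm_num) (by omega)
  omega

/-- The hypothesis on one vertex `y`, tolerance `D`. -/
def OKV {α : Type} [Fintype α] (G : SimpleGraph α) (D M : ℕ) (y : α) : Prop :=
  {z | z ≠ y ∧ Near G D y z}.ncard ≤ 2 ∨
  (∃ C : Finset α, y ∈ C ∧ C.card.factorial ≤ 2 ^ (M - 1) ∧ IsMod G C ∧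
    ∀ z, z ≠ y → Near G D y z → z ∈ C) ∨
  (2 ^ ({z | z ≠ y ∧ Near G D y z}.ncard + 1) ≤ ({z | z ≠ y ∧ Near G D y z}.ncard + 2) ^ M ∧
    ∀ z, z ≠ y → Near G D y z → Twins G y z)

theorem main3 (hTEN : S_TEN3) (hBLS : S_BLS) (hBLC : S_BLC) (hDEG : S_DEG) (hHIT : S_HIT)
    (hGRP : S_GRP3) (hESZ : S_ESZ2) (hORB1 : S_ORB) (hORB : S_ORB2) (hCNT : S_CNT) (hNUM : S_NUM3)
    (p M : ℕ) (hM : 4 ≤ M) (hp : 24 * M * Nat.clog 2 p ^ 2 + 2 ≤ p) (G : SimpleGraph (Fin p))
    (E : Finset (Fin p)) (hE : 6 * M * Nat.clog 2 p * E.card ≤ p)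
    (h : ∀ y, y ∉ E → OKV G (12 * M * Nat.clog 2 p ^ 2) M y)
    (H : SimpleGraph (Fin p)) (hdeck : SameDeck G H) : Nonempty (G ≃g H) := by
  classical
  by_contra hne
  set L := Nat.clog 2 p with hL
  set D := 12 * M * L ^ 2 with hD
  have hL2 : 1 ≤ L := by
    rw [hL]
    exact Nat.clog_pos (by norm_num) (by omega)
  have hMD : M ≤ D := by
    rw [hD]
    have h4 : 1 ≤ L ^ 2 := Nat.one_le_pow _ _ hL2
    nlinarith
  have hD1 : 1 ≤ D := by omega
  have hcard : Fintype.card (Fin p) = p := Fintype.card_fin p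
  have hp0 : 0 < p := by omega
  set y₀ : Fin p := ⟨0, hp0⟩ with hy₀
  have h2D : 2 * D + 2 ≤ p := by
    have : 2 * D = 24 * M * L ^ 2 := by rw [hD]; ring
    omega
  -- the hitting set
  set P : Finset (Fin p × Fin p) := univ.filter fun q => q.1 ≠ q.2 ∧ ¬ Near G D q.1 q.2 with hP
  set Q : Fin p → Finset (Fin p) → Prop := fun y C => y ∈ C ∧ C.card.factorial ≤ 2 ^ (M - 1) ∧
        IsMod G C ∧ ∀ z, z ≠ y → Near G D y z → z ∈ C with hQ
  set cf : Fin p → Finset (Fin p) := fun y => if hy : ∃ C, Q y C then hy.choose else ∅ with hcf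
  have hcfc : ∀ y, (cf y).card ≤ M := by
    intro y
    by_cases hy : ∃ C, Q y C
    · simp only [hcf, dif_pos hy]
      exact le_of_fac (by omega) hy.choose_spec.2.1
    · simp only [hcf, dif_neg hy, Finset.card_empty]
      omega
  have hcfQ : ∀ y, (∃ C, Q y C) → Q y (cf y) := by
    intro y hy
    simp only [hcf, dif_pos hy]
    exact hy.choose_spec
  set 𝒜 : Finset (Finset (Fin p)) := (P.image (fun q => sep G q.1 q.2) ∪
    P.image (fun q => cosep G q.1 q.2)) ∪ univ.image (fun y => univ \ cf y) with h𝒜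
  have hPc : P.card ≤ p * p := by
    calc P.card ≤ (univ : Finset (Fin p × Fin p)).card := Finset.card_le_card (Finset.filter_subset _ _)
      _ = p * p := by rw [Finset.card_univ, Fintype.card_prod, hcard]
  have hpL : p ≤ 2 ^ L := Nat.le_pow_clog (by norm_num) p
  have h𝒜c : 𝒜.card < 2 ^ (2 * L + 2) := by
    have h0 : (univ.image (fun y : Fin p => univ \ cf y)).card ≤ p := by
      refine Finset.card_image_le.trans ?_
      rw [Finset.card_univ, hcard]
    have h1 : 𝒜.card ≤ P.card + P.card + p :=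
      (Finset.card_union_le _ _).trans (Nat.add_le_add ((Finset.card_union_le _ _).trans
        (Nat.add_le_add Finset.card_image_le Finset.card_image_le)) h0)
    have h5 : p ≤ p * p := Nat.le_mul_self p
    have h2 : p * p ≤ 2 ^ L * 2 ^ L := Nat.mul_le_mul hpL hpL
    have h3 : 2 ^ (2 * L + 2) = 4 * (2 ^ L * 2 ^ L) := by
      rw [pow_add, two_mul, pow_add]; ring
    have h4 : 0 < 2 ^ L * 2 ^ L := by positivity
    omega
  have hkD : Fintype.card (Fin p) ≤ (p / D + 1) * D := by
    rw [hcard]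
    have := Nat.lt_div_mul_add (a := p) (b := D) (by omega)
    rw [Nat.add_mul, one_mul]
    omega
  obtain ⟨R₀, hR₀, hR₀'⟩ := hHIT (Fin p) 𝒜 D (2 * L + 2) (p / D + 1) hD1 (by
    intro A hA
    simp only [h𝒜, hP, mem_union, mem_image, mem_filter, mem_univ, true_and] at hA
    rcases hA with (⟨q, ⟨-, hq⟩, rfl⟩ | ⟨q, ⟨-, hq⟩, rfl⟩) | ⟨y, rfl⟩
    · unfold Near at hq
      push Not at hq
      exact hq.1
    · unfold Near at hq
      push Not at hq
      exact hq.2
    · have h1 := hcfc y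
      have h2 : (univ \ cf y).card = p - (cf y).card := by
        rw [Finset.card_sdiff_of_subset (Finset.subset_univ _), Finset.card_univ, hcard]
      rw [h2]
      omega) h𝒜c hkD
  set R : Finset (Fin p) := insert y₀ (R₀ ∪ E) with hR
  have hRc : R.card ≤ (2 * L + 2) * (p / D + 1) + 1 + E.card := by
    have h1 : R.card ≤ (R₀ ∪ E).card + 1 := Finset.card_insert_le _ _
    have h2 := Finset.card_union_le R₀ E
    omega
  have hx₀ : y₀ ∈ R := Finset.mem_insert_self _ _
  have hsepR : ∀ y z, y ≠ z → ¬ Near G D y z →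
      (sep G y z ∩ R).Nonempty ∧ (cosep G y z ∩ R).Nonempty := by
    intro y z hyz hn
    have hm : (y, z) ∈ P := by
      simp only [hP, mem_filter, mem_univ, true_and]
      exact ⟨hyz, hn⟩
    have hsub : R₀ ⊆ R := (Finset.subset_union_left).trans (Finset.subset_insert _ _)
    constructor
    · exact (hR₀' _ (Finset.mem_union_left _ (Finset.mem_union_left _ (Finset.mem_image_of_mem
        (fun q : Fin p × Fin p => sep G q.1 q.2) hm)))).mono (Finset.inter_subset_inter_left hsub)
    · exact (hR₀' _ (Finset.mem_union_left _ (Finset.mem_union_right _ (Finset.mem_image_of_mem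
        (fun q : Fin p × Fin p => cosep G q.1 q.2) hm)))).mono (Finset.inter_subset_inter_left hsub)
  obtain ⟨hiso, horb, hmod⟩ := hORB (Fin p) G R y₀ D hx₀ hsepR
  obtain ⟨-, horbT⟩ := hORB1 (Fin p) G R y₀ D hx₀ hsepR
  have hRC : ∀ y, ∃ x₁ ∈ R, x₁ ∉ cf y := by
    intro y
    obtain ⟨x, hx⟩ := hR₀' _ (Finset.mem_union_right _ (Finset.mem_image_of_mem
      (fun y : Fin p => univ \ cf y) (mem_univ y)))
    rw [Finset.mem_inter, Finset.mem_sdiff] at hx
    exact ⟨x, Finset.mem_insert_of_mem (Finset.mem_union_left _ hx.2), hx.1.2⟩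
  set G₀ := sw G (nb0 G y₀) with hG₀
  -- the orbits
  have horb1 : ∀ y, orb G₀ R y ⊆ insert y {z | z ≠ y ∧ Near G D y z} := by
    rintro y z ⟨τ, hτ, rfl⟩
    by_cases hy : τ y = y
    · left; exact hy
    · right
      exact ⟨hy, horb τ hτ y hy⟩
  have horb2 : ∀ y, (orb G₀ R y).ncard ≤ {z | z ≠ y ∧ Near G D y z}.ncard + 1 := fun y =>
    (Set.ncard_le_ncard (horb1 y) (Set.toFinite _)).trans (Set.ncard_insert_le _ _)
  have horbE : ∀ y ∈ E, (orb G₀ R y).ncard ≤ 1 := by
    intro y hy
    have : orb G₀ R y ⊆ {y} := by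
      rintro z ⟨τ, hτ, rfl⟩
      exact hτ.1 y (Finset.mem_insert_of_mem (Finset.mem_union_right _ hy))
    exact (Set.ncard_le_ncard this (Set.toFinite _)).trans (Set.ncard_singleton y).le
  obtain ⟨lab, hlab, hglue, hfix⟩ := hGRP (Fin p) G₀ R (fun n => n.factorial ≤ 2 ^ (M - 1))
    (fun n => 2 ^ n ≤ (n + 1) ^ M) (by
      have h1 : 2 ^ 3 ≤ 2 ^ (M - 1) := Nat.pow_le_pow_right (by norm_num) (by omega)
      have h2 : (3 : ℕ).factorial ≤ 2 ^ 3 := by decide
      exact h2.trans h1) (fun a b hab hb => (Nat.factorial_le hab).trans hb) (by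
    intro y
    by_cases hy : y ∈ E
    · left; exact (horbE y hy).trans (by norm_num)
    · rcases h y hy with h1 | h1 | h1
      · left
        have := horb2 y
        omega
      · right; left
        obtain ⟨q1, q2, q3, q4⟩ := hcfQ y h1
        refine ⟨cf y, q2, ?_, ?_⟩
        · intro z hz
          rcases horb1 y hz with h2 | h2
          · rw [h2]; exact q1
          · exact q4 z h2.1 h2.2
        · exact hmod (cf y) q3 (hRC y)
      · right; right
        refine ⟨hBLC.2 _ _ M (horb2 y) h1.1, ?_⟩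
        intro τ hτ x hx hx'
        by_cases hty : τ y = y
        · rw [hty]
        · obtain ⟨-, hnear, htw⟩ := horbT τ hτ y hty
          exact htw (h1.2 (τ y) hty hnear) x hx hx')
  -- the function
  set φ : Finset (Fin p) → ℚ := fun T => ff G H (symmDiff (nb0 G y₀) T) with hφ
  have hsw : ∀ T, sw G (symmDiff (nb0 G y₀) T) = sw G₀ T := fun T => (sw_sw _ _ _).symm
  have hφsum : ∀ S, ∑ i : Fin p, φ (symmDiff S {i}) = 0 := by
    intro S
    have h1 := sum_ff hdeck (symmDiff (nb0 G y₀) S)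
    rw [← h1]
    refine Finset.sum_congr rfl fun i _ => ?_
    simp only [hφ]
    rw [symmDiff_assoc]
  have hφdeg : DegLE univ (p / 2) φ := by
    intro T _ hT
    apply hDEG (Fin p) φ hφsum T
    rw [hcard]
    omega
  have hφne : ∃ X, φ X ≠ 0 := by
    refine ⟨nb0 G y₀, ?_⟩
    obtain ⟨T, hT⟩ := exists_sw hdeck y₀
    have h1 : 0 < cnt G H := cnt_pos G H T hT
    simp only [hφ]
    rw [symmDiff_self, Finset.bot_eq_empty, ff_empty hne]
    exact h1.ne'
  have hφinv : ∀ τ ∈ FG G₀ R, ∀ T, φ (T.map τ.toEmbedding) = φ T := by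
    intro τ hτ T
    simp only [hφ, ff, hsw]
    have e : ∀ K, ind (sw G₀ (T.map τ.toEmbedding)) K = ind (sw G₀ T) K := fun K =>
      (ind_congr_left K ⟨isoSw (isoOf hτ) T⟩).symm
    rw [e, e]
  have hφor : ∀ T, φ T ≠ 0 → Nonempty (sw G₀ T ≃g G) ∨ Nonempty (sw G₀ T ≃g H) := by
    intro T hT
    by_contra hc
    push Not at hc
    apply hT
    simp only [hφ, ff, hsw]
    rw [ind_of_not _ _ (not_nonempty_iff.2 hc.1), ind_of_not _ _ (not_nonempty_iff.2 hc.2)]
    ring
  have hEEc : ∀ X X', EE G₀ R X X' → X.card = X'.card := by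
    rintro X X' ⟨τ, -, rfl⟩
    rw [Finset.card_map]
  obtain ⟨𝒯, hT1, hT2, hT3⟩ := hTEN (Fin p) lab (EE G₀ R) M (by omega) (EE_equiv G₀ R)
    (by
      intro i
      rcases hfix i with ⟨Z, hZ1, hZ2, hZ3⟩ | ⟨hB1, hB2⟩
      · refine hBLS (Fin p) _ (EE G₀ R) (M - 1) M (by omega) (by omega) (EE_equiv G₀ R) hEEc ?_
        intro X hX
        have h5 : {X' : Finset (Fin p) | X' ⊆ (univ.filter fun x => lab x = i) ∧
            EE G₀ R X X'}.ncard ≤
            {X' : Finset (Fin p) | ∃ τ ∈ FG G₀ R, X' = X.map τ.toEmbedding}.ncard :=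
          Set.ncard_le_ncard (fun X' hX' => hX'.2) (Set.toFinite _)
        refine h5.trans ((hESZ (Fin p) G₀ R Z.card Z X le_rfl hZ2 ?_).trans hZ1)
        intro τ hτ hz x hx
        exact hZ3 τ hτ hz x (mem_filter.1 (hX hx)).2
      · refine hBLC.1 (Fin p) _ (EE G₀ R) M ?_ hEEc hB1
        intro X hX X' hX' hXX'
        exact hB2 X X' (fun x hx => (mem_filter.1 (hX hx)).2)
          (fun x hx => (mem_filter.1 (hX' hx)).2) hXX')
    φ (p / 2)
    (by
      rintro i X X' Y ⟨τ, hτ, rfl⟩ hX hY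
      obtain ⟨τ', hτ', he⟩ := hglue i τ hτ
      rw [← hφinv τ' hτ' (X ∪ Y)]
      congr 1
      rw [Finset.map_union]
      congr 1
      · ext x
        simp only [Finset.mem_map_equiv]
        constructor
        · intro hx
          have e1 := he (τ'.symm x)
          rw [if_pos (hX _ hx)] at e1
          rw [Equiv.apply_symm_apply] at e1
          rw [e1, Equiv.symm_apply_apply]
          exact hx
        · intro hx
          have e1 := he (τ.symm x)
          rw [if_pos (hX _ hx), Equiv.apply_symm_apply] at e1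
          have : τ'.symm x = τ.symm x := by
            rw [Equiv.symm_apply_eq]
            exact e1.symm
          rw [this]
          exact hx
      · ext x
        simp only [Finset.mem_map_equiv]
        constructor
        · intro hx
          have e1 := he (τ'.symm x)
          rw [if_neg (hY _ hx), Equiv.apply_symm_apply] at e1
          rw [e1]
          exact hx
        · intro hx
          have e1 := he x
          rw [if_neg (hY _ hx)] at e1
          have : τ'.symm x = x := by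
            rw [Equiv.symm_apply_eq]
            exact e1.symm
          rw [this]
          exact hx)
    hφdeg hφne
  have hup := hCNT (Fin p) G₀ G H R y₀ hx₀ hiso 𝒯 (fun T hT => hφor T (hT1 T hT)) (by
    rintro T hT T' hT' ⟨τ, hτ, rfl⟩
    refine hT2 T hT _ hT' fun i => ⟨τ, hτ, ?_⟩
    ext x
    simp only [Finset.mem_filter, Finset.mem_map_equiv]
    have : lab x = lab (τ.symm x) := by
      have := hlab τ hτ (τ.symm x)
      rwa [Equiv.apply_symm_apply] at this
    rw [this])
  rw [hcard] at hup hT3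
  have hlast := hNUM M hM p E.card R.card hp hE hRc
  have : 2 ^ (p - p / 2) ≤ (4 * p ^ R.card) ^ M :=
    hT3.trans (Nat.pow_le_pow_left hup _)
  omega

end Pool.Agent.NTW
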