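import Mathlib
import Pool.Agent.NTW.St

/-!
# MP_e73337_co, few near twins: module ORB (helper87)
-/

set_option autoImplicit false

namespace Pool.Agent.NTW

open Finset Pool.Agent.Lib_helper61.SwitchBasic

theorem orb_aux1 (p q r a b : Prop) (h : (q ↔ (r ↔ b)) ↔ (p ↔ (r ↔ a))) :
    (p ↔ q) ↔ (a ↔ b) := by
  by_cases hp : p <;> by_cases hq : q <;> by_cases hr : r <;> by_cases ha : a <;>
    by_cases hb : b <;> simp [hp, hq, hr, ha, hb] at h ⊢

theorem orb_aux2 (p q r a b : Prop) (h : (p ↔ q) ↔ (a ↔ b)) :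
    (p ↔ (r ↔ a)) ↔ (q ↔ (r ↔ b)) := by
  by_cases hp : p <;> by_cases hq : q <;> by_cases hr : r <;> by_cases ha : a <;>
    by_cases hb : b <;> simp [hp, hq, hr, ha, hb] at h ⊢

theorem t_ORB : S_ORB := by
  classical
  intro α _ _ G R x₀ D hx₀ hsep
  have hN : ∀ v, v ∈ nb0 G x₀ ↔ G.Adj x₀ v := by
    intro v
    simp [nb0]
  have hx₀N : x₀ ∉ nb0 G x₀ := by
    rw [hN]
    exact G.loopless.irrefl x₀
  refine ⟨?_, ?_⟩
  · intro v hv
    rw [sw_adj] at hv
    obtain ⟨-, hv⟩ := hv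
    rw [hN v] at hv
    by_cases h : G.Adj x₀ v
    · exact hx₀N ((hv.1 h).2 h)
    · exact h (hv.2 ⟨fun h' => absurd h' hx₀N, fun h' => absurd h' h⟩)
  · intro τ hτ y hy
    obtain ⟨hτR, hτA⟩ := hτ
    have hyR : y ∉ R := fun h => hy (hτR y h)
    have hzR : τ y ∉ R := by
      intro h
      exact hy (τ.injective (hτR _ h))
    -- the key relation
    have key : ∀ x ∈ R, ((G.Adj x y ↔ G.Adj x (τ y)) ↔
        (y ∈ nb0 G x₀ ↔ τ y ∈ nb0 G x₀)) := by
      intro x hx
      have hxy : x ≠ y := fun h => hyR (h ▸ hx)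
      have hxz : x ≠ τ y := fun h => hzR (h ▸ hx)
      have h1 := hτA x y
      rw [hτR x hx, sw_adj, sw_adj] at h1
      have h2 : ((G.Adj x (τ y) ↔ (x ∈ nb0 G x₀ ↔ τ y ∈ nb0 G x₀)) ↔
          (G.Adj x y ↔ (x ∈ nb0 G x₀ ↔ y ∈ nb0 G x₀))) := by
        constructor
        · intro h
          exact (h1.1 ⟨hxz, h⟩).2
        · intro h
          exact (h1.2 ⟨hxy, h⟩).2
      exact orb_aux1 _ _ _ _ _ h2
    refine ⟨hyR, ?_, ?_⟩
    · by_contra hnear
      obtain ⟨⟨a, ha⟩, ⟨b, hb⟩⟩ := hsep y (τ y) (fun h => hy h.symm) hnear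
      rw [mem_inter] at ha hb
      have ha1 : ¬ (G.Adj a y ↔ G.Adj a (τ y)) := by
        have := ha.1
        simp only [sep, mem_filter, mem_univ, true_and] at this
        exact this.2.2
      have hb1 : (G.Adj b y ↔ G.Adj b (τ y)) := by
        have := hb.1
        simp only [cosep, mem_filter, mem_univ, true_and] at this
        exact this.2.2
      exact ha1 ((key a ha.2).2 ((key b hb.2).1 hb1))
    · intro htw x hxy hxz
      have h0 := key x₀ hx₀
      have hx0y : x₀ ≠ y := fun h => hyR (h ▸ hx₀)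
      have hx0z : x₀ ≠ τ y := fun h => hzR (h ▸ hx₀)
      rw [sw_adj, sw_adj]
      have hkey2 : (G.Adj x y ↔ G.Adj x (τ y)) ↔ (y ∈ nb0 G x₀ ↔ τ y ∈ nb0 G x₀) := by
        rcases htw with h | h
        · have h3 : ∀ w, w ≠ y → w ≠ τ y → (G.Adj w y ↔ G.Adj w (τ y)) := by
            intro w hw1 hw2
            by_contra hw
            have : w ∈ sep G y (τ y) := by
              simp only [sep, mem_filter, mem_univ, true_and]
              exact ⟨hw1, hw2, hw⟩
            rw [h] at this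
            exact absurd this (notMem_empty w)
          have h4 := h3 x hxy hxz
          have h5 := h0.1 (h3 x₀ hx0y hx0z)
          exact ⟨fun _ => h5, fun _ => h4⟩
        · have h3 : ∀ w, w ≠ y → w ≠ τ y → ¬ (G.Adj w y ↔ G.Adj w (τ y)) := by
            intro w hw1 hw2 hw
            have : w ∈ cosep G y (τ y) := by
              simp only [cosep, mem_filter, mem_univ, true_and]
              exact ⟨hw1, hw2, hw⟩
            rw [h] at this
            exact absurd this (notMem_empty w)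
          have h4 := h3 x hxy hxz
          have h5 : ¬ (y ∈ nb0 G x₀ ↔ τ y ∈ nb0 G x₀) := fun h6 => h3 x₀ hx0y hx0z (h0.2 h6)
          exact ⟨fun h6 => absurd h6 h4, fun h6 => absurd h6 h5⟩
      have h7 : ((G.Adj x y ↔ (x ∈ nb0 G x₀ ↔ y ∈ nb0 G x₀)) ↔
          (G.Adj x (τ y) ↔ (x ∈ nb0 G x₀ ↔ τ y ∈ nb0 G x₀))) :=
        orb_aux2 _ _ _ _ _ hkey2
      constructor
      · rintro ⟨-, h8⟩
        exact ⟨hxz, h7.1 h8⟩
      · rintro ⟨-, h8⟩
        exact ⟨hxy, h7.2 h8⟩

end Pool.Agent.NTW
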