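import Mathlib
import Pool.Agent.NTW.St2
import Pool.Agent.NTW.MORB

/-!
# MP_e73337_co, few near twins: module ORB2 (helper87)
-/

set_option autoImplicit false

namespace Pool.Agent.NTW

open Finset Pool.Agent.Lib_helper61.SwitchBasic

theorem t_ORB2 : S_ORB2 := by
  classical
  intro α _ _ G R x₀ D hx₀ hsep
  obtain ⟨h1, h2⟩ := t_ORB α G R x₀ D hx₀ hsep
  refine ⟨h1, fun τ hτ y hy => (h2 τ hτ y hy).2.1, ?_⟩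
  rintro C hC ⟨x₁, hx₁R, hx₁C⟩ τ ⟨hτR, hτA⟩ z hz hτz x hx
  have hne : ∀ w, w ∉ C → w ≠ z ∧ w ≠ τ z := by
    intro w hw
    exact ⟨fun h => hw (h ▸ hz), fun h => hw (h ▸ hτz)⟩
  have key : (G.Adj x₁ z ↔ G.Adj x₁ (τ z)) ↔ (z ∈ nb0 G x₀ ↔ τ z ∈ nb0 G x₀) := by
    have h3 := hτA x₁ z
    rw [hτR x₁ hx₁R, sw_adj, sw_adj] at h3
    obtain ⟨h4, h5⟩ := hne x₁ hx₁C
    refine orb_aux1 _ _ (x₁ ∈ nb0 G x₀) _ _ ⟨fun h => (h3.1 ⟨h5, h⟩).2, fun h => (h3.2 ⟨h4, h⟩).2⟩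
  have key2 : (G.Adj x z ↔ G.Adj x (τ z)) ↔ (z ∈ nb0 G x₀ ↔ τ z ∈ nb0 G x₀) := by
    rcases hC z hz (τ z) hτz with h | h
    · have h6 := key.1 (h x₁ hx₁C)
      exact ⟨fun _ => h6, fun _ => h x hx⟩
    · have h6 : ¬ (z ∈ nb0 G x₀ ↔ τ z ∈ nb0 G x₀) := fun h7 => h x₁ hx₁C (key.2 h7)
      exact ⟨fun h7 => absurd h7 (h x hx), fun h7 => absurd h7 h6⟩
  have h7 := orb_aux2 _ _ (x ∈ nb0 G x₀) _ _ key2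
  obtain ⟨h4, h5⟩ := hne x hx
  rw [sw_adj, sw_adj]
  exact ⟨fun h => ⟨h5, h7.1 h.2⟩, fun h => ⟨h4, h7.2 h.2⟩⟩

end Pool.Agent.NTW
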