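import Pool.Agent.NTW.St5
import Pool.Agent.NTW.Sw
import Pool.Agent.NTW.MORB2

/-!
Assembly of the substitution theorem, part A: parts, near vertices, gluing (helper39).
-/

set_option autoImplicit false

namespace Pool.Agent.NTW

open Finset Pool.Agent.Lib_helper61.SwitchBasic

/-- Near vertices with respect to the parts (the fibres of `c`). -/
def NearP {α : Type} [Fintype α] (G : SimpleGraph α) (c : α → ℕ) (q : ℕ) (y z : α) : Prop :=
  ((sep G y z).image c).card < q ∨ ((cosep G y z).image c).card < q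

namespace Fin5

section
variable {α : Type} [Fintype α]

open Classical in
/-- The part with label `i`. -/
noncomputable def part (c : α → ℕ) (i : ℕ) : Finset α := univ.filter fun x => c x = i

theorem mem_part (c : α → ℕ) (i : ℕ) (x : α) : x ∈ part c i ↔ c x = i := by
  classical
  simp [part]

theorem mem_sep (G : SimpleGraph α) (y z x : α) :
    x ∈ sep G y z ↔ x ≠ y ∧ x ≠ z ∧ ¬ (G.Adj x y ↔ G.Adj x z) := by
  classical
  simp [sep]

theorem mem_cosep (G : SimpleGraph α) (y z x : α) :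
    x ∈ cosep G y z ↔ x ≠ y ∧ x ≠ z ∧ (G.Adj x y ↔ G.Adj x z) := by
  classical
  simp [cosep]

/-- A part which meets `sep y z` and does not contain `y`, `z` is contained in `sep y z`; the same for
`cosep`. -/
theorem part_dich (G : SimpleGraph α) (c : α → ℕ) (hmod : ∀ i, IsMod G (part c i)) (y z x x' : α)
    (hy : c x ≠ c y) (hz : c x ≠ c z) (h : c x' = c x) :
    (x ∈ sep G y z ↔ x' ∈ sep G y z) ∧ (x ∈ cosep G y z ↔ x' ∈ cosep G y z) := by
  have e1 : x ≠ y := fun e => hy (by rw [e])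
  have e2 : x ≠ z := fun e => hz (by rw [e])
  have e3 : x' ≠ y := fun e => hy (by rw [← h, e])
  have e4 : x' ≠ z := fun e => hz (by rw [← h, e])
  have hy' : y ∉ part c (c x) := fun hh => hy ((mem_part c _ _).1 hh).symm
  have hz' : z ∉ part c (c x) := fun hh => hz ((mem_part c _ _).1 hh).symm
  have key : (G.Adj x y ↔ G.Adj x z) ↔ (G.Adj x' y ↔ G.Adj x' z) := by
    rcases hmod (c x) x ((mem_part c _ _).2 rfl) x' ((mem_part c _ _).2 h) with h1 | h1
    · have a := h1 y hy'
      have b := h1 z hz'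
      rw [G.adj_comm x y, G.adj_comm x z, G.adj_comm x' y, G.adj_comm x' z]
      tauto
    · have a := h1 y hy'
      have b := h1 z hz'
      rw [G.adj_comm x y, G.adj_comm x z, G.adj_comm x' y, G.adj_comm x' z]
      tauto
  rw [mem_sep, mem_sep, mem_cosep, mem_cosep]
  tauto

/-- Two vertices of one part are near. -/
theorem near_of_same (G : SimpleGraph α) (c : α → ℕ) (hmod : ∀ i, IsMod G (part c i)) (q : ℕ)
    (hq : 2 ≤ q) (y z : α) (h : c y = c z) : NearP G c q y z := by
  classical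
  have hs : ∀ A : Finset α, (∀ x ∈ A, c x = c y) → (A.image c).card < q := by
    intro A hA
    have h1 : A.image c ⊆ {c y} := by
      intro i hi
      obtain ⟨x, hx, rfl⟩ := Finset.mem_image.1 hi
      exact Finset.mem_singleton.2 (hA x hx)
    have := Finset.card_le_card h1
    rw [Finset.card_singleton] at this
    omega
  rcases hmod (c y) y ((mem_part c _ _).2 rfl) z ((mem_part c _ _).2 h.symm) with h1 | h1
  · left
    apply hs
    intro x hx
    by_contra hc
    exact ((mem_sep G y z x).1 hx).2.2 (h1 x (fun hh => hc ((mem_part c _ _).1 hh)))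
  · right
    apply hs
    intro x hx
    by_contra hc
    exact (h1 x (fun hh => hc ((mem_part c _ _).1 hh))) ((mem_cosep G y z x).1 hx).2.2

end

section
variable {α : Type} [Fintype α] [DecidableEq α]

/-- If `q` parts meet `A` and every part which meets `A`, except those of `y`, `z`, is contained in
`A`, then `q - 2` parts are contained in `A`. -/
theorem count_parts (c : α → ℕ) (q : ℕ) (y z : α) (A : Finset α) (hq : q ≤ (A.image c).card)
    (hA : ∀ x x', c x ≠ c y → c x ≠ c z → c x' = c x → (x ∈ A ↔ x' ∈ A)) :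
    q - 2 ≤ ((univ.image c).filter fun i => ∀ x, c x = i → x ∈ A).card := by
  have hsub : ((A.image c).erase (c y)).erase (c z) ⊆
      (univ.image c).filter fun i => ∀ x, c x = i → x ∈ A := by
    intro i hi
    rw [Finset.mem_erase, Finset.mem_erase] at hi
    obtain ⟨hz, hy, hi⟩ := hi
    obtain ⟨x, hx, rfl⟩ := Finset.mem_image.1 hi
    rw [Finset.mem_filter]
    refine ⟨Finset.mem_image_of_mem c (Finset.mem_univ x), fun x' hx' => ?_⟩
    exact (hA x x' hy hz hx').1 hx
  have h1 := Finset.card_le_card hsub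
  have h2 : (A.image c).card - 1 ≤ ((A.image c).erase (c y)).card := Finset.pred_card_le_card_erase
  have h3 : ((A.image c).erase (c y)).card - 1 ≤ (((A.image c).erase (c y)).erase (c z)).card :=
    Finset.pred_card_le_card_erase
  omega

/-- Number of parts: a pair which is not near. -/
theorem two_mul_le (G : SimpleGraph α) (c : α → ℕ) (hmod : ∀ i, IsMod G (part c i)) (q : ℕ)
    (y z : α) (h : ¬ NearP G c q y z) :
    q - 2 ≤ ((univ.image c).filter fun i => ∀ x, c x = i → x ∈ sep G y z).card ∧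
    q - 2 ≤ ((univ.image c).filter fun i => ∀ x, c x = i → x ∈ cosep G y z).card ∧
    2 * (q - 2) ≤ (univ.image c).card := by
  unfold NearP at h
  push Not at h
  have h1 := count_parts c q y z (sep G y z) h.1
    (fun x x' a b d => (part_dich G c hmod y z x x' a b d).1)
  have h2 := count_parts c q y z (cosep G y z) h.2
    (fun x x' a b d => (part_dich G c hmod y z x x' a b d).2)
  refine ⟨h1, h2, ?_⟩
  have hdis : Disjoint ((univ.image c).filter fun i => ∀ x, c x = i → x ∈ sep G y z)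
      ((univ.image c).filter fun i => ∀ x, c x = i → x ∈ cosep G y z) := by
    rw [Finset.disjoint_left]
    intro i hi hi'
    rw [Finset.mem_filter] at hi hi'
    obtain ⟨x, -, rfl⟩ := Finset.mem_image.1 hi.1
    exact ((mem_sep G y z x).1 (hi.2 x rfl)).2.2 ((mem_cosep G y z x).1 (hi'.2 x rfl)).2.2
  have h3 : (((univ.image c).filter fun i => ∀ x, c x = i → x ∈ sep G y z) ∪
      ((univ.image c).filter fun i => ∀ x, c x = i → x ∈ cosep G y z)).card
      ≤ (univ.image c).card := by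
    apply Finset.card_le_card
    exact Finset.union_subset (Finset.filter_subset _ _) (Finset.filter_subset _ _)
  rw [Finset.card_union_of_disjoint hdis] at h3
  omega

/-- Vertices move only to near vertices. -/
theorem orb_near (G : SimpleGraph α) (c : α → ℕ) (q : ℕ) (R : Finset α) (x₀ : α)
    (hhit : ∀ y z, y ≠ z → ¬ NearP G c q y z →
      (sep G y z ∩ R).Nonempty ∧ (cosep G y z ∩ R).Nonempty)
    (τ : Equiv.Perm α) (hτ : τ ∈ FG (sw G (nb0 G x₀)) R) (y : α) (hy : τ y ≠ y) :
    NearP G c q y (τ y) := by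
  by_contra hn
  obtain ⟨⟨x, hx⟩, ⟨x', hx'⟩⟩ := hhit y (τ y) hy.symm hn
  rw [Finset.mem_inter] at hx hx'
  have key : ∀ w ∈ R, w ≠ y → w ≠ τ y →
      ((G.Adj w y ↔ G.Adj w (τ y)) ↔ (y ∈ nb0 G x₀ ↔ τ y ∈ nb0 G x₀)) := by
    intro w hw h1 h2
    have h3 := hτ.2 w y
    rw [hτ.1 w hw] at h3
    have h4 := sw_adj_iff G (nb0 G x₀) w y (τ y) h1 h2
    tauto
  have h1 := (mem_sep G _ _ _).1 hx.1
  have h2 := (mem_cosep G _ _ _).1 hx'.1
  have h3 := key x hx.2 h1.1 h1.2.1
  have h4 := key x' hx'.2 h2.1 h2.2.1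
  have h5 := h1.2.2
  have h6 := h2.2.2
  tauto

/-- The third part of `ORB2`. -/
theorem mod_orb (G : SimpleGraph α) (R : Finset α) (x₀ : α) (hx₀ : x₀ ∈ R) :
    (∀ v, ¬ (sw G (nb0 G x₀)).Adj x₀ v) ∧
    (∀ C : Finset α, IsMod G C → (∃ x₁ ∈ R, x₁ ∉ C) → ∀ τ ∈ FG (sw G (nb0 G x₀)) R,
      ∀ z ∈ C, τ z ∈ C → ∀ x, x ∉ C →
        ((sw G (nb0 G x₀)).Adj x z ↔ (sw G (nb0 G x₀)).Adj x (τ z))) := by
  obtain ⟨h1, -, h3⟩ := t_ORB2 α G R x₀ (Fintype.card α + 1) hx₀ (by
    intro y z _ hn
    exfalso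
    apply hn
    left
    exact Nat.lt_succ_of_le (Finset.card_le_univ _))
  exact ⟨h1, h3⟩

/-- Gluing on a homogeneous invariant set. -/
theorem glue (G₀ : SimpleGraph α) (R W : Finset α)
    (hW : ∀ τ ∈ FG G₀ R, ∀ x ∈ W, τ x ∈ W)
    (hh : ∀ τ ∈ FG G₀ R, ∀ z ∈ W, ∀ x, x ∉ W → (G₀.Adj x z ↔ G₀.Adj x (τ z)))
    (τ : Equiv.Perm α) (hτ : τ ∈ FG G₀ R) :
    ∃ τ' ∈ FG G₀ R, ∀ x, τ' x = if x ∈ W then τ x else x := by
  have hW' : ∀ x, τ x ∈ W → x ∈ W := by
    intro x hx
    have h1 := hW τ⁻¹ (inv_mem hτ) (τ x) hx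
    simpa using h1
  let τ' : Equiv.Perm α :=
    { toFun := fun x => if x ∈ W then τ x else x
      invFun := fun x => if x ∈ W then τ⁻¹ x else x
      left_inv := by
        intro x
        by_cases hx : x ∈ W
        · simp [hx, hW τ hτ x hx]
        · simp [hx]
      right_inv := by
        intro x
        by_cases hx : x ∈ W
        · have h1 : τ⁻¹ x ∈ W := hW τ⁻¹ (inv_mem hτ) x hx
          have h2 : τ.symm x ∈ W := h1
          simp [hx, h2]
        · simp [hx] }
  have hτ' : ∀ x, τ' x = if x ∈ W then τ x else x := fun x => rfl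
  refine ⟨τ', ⟨?_, ?_⟩, hτ'⟩
  · intro r hr
    rw [hτ']
    split_ifs
    · exact hτ.1 r hr
    · rfl
  · intro u v
    rw [hτ' u, hτ' v]
    by_cases hu : u ∈ W
    · by_cases hv : v ∈ W
      · rw [if_pos hu, if_pos hv]; exact hτ.2 u v
      · rw [if_pos hu, if_neg hv, G₀.adj_comm, G₀.adj_comm u v]
        exact (hh τ hτ u hu v hv).symm
    · by_cases hv : v ∈ W
      · rw [if_neg hu, if_pos hv]
        exact (hh τ hτ v hv u hu).symm
      · rw [if_neg hu, if_neg hv]

/-- Images of subsets of a small invariant set. -/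
theorem images_le (G₀ : SimpleGraph α) (R W X : Finset α) (m : ℕ)
    (hW : ∀ τ ∈ FG G₀ R, ∀ x ∈ W, τ x ∈ W) (hX : X ⊆ W) (hm : W.card ≤ m) :
    {X' : Finset α | ∃ τ ∈ FG G₀ R, X' = X.map τ.toEmbedding}.ncard ≤ 2 ^ m := by
  have h1 : {X' : Finset α | ∃ τ ∈ FG G₀ R, X' = X.map τ.toEmbedding} ⊆
      (W.powerset : Set (Finset α)) := by
    rintro X' ⟨τ, hτ, rfl⟩
    rw [Finset.mem_coe, Finset.mem_powerset]
    intro x hx
    obtain ⟨w, hw, rfl⟩ := Finset.mem_map.1 hx
    exact hW τ hτ w (hX hw)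
  calc _ ≤ ((W.powerset : Finset (Finset α)) : Set (Finset α)).ncard :=
        Set.ncard_le_ncard h1 (Set.toFinite _)
    _ = 2 ^ W.card := by rw [Set.ncard_coe_finset, Finset.card_powerset]
    _ ≤ 2 ^ m := Nat.pow_le_pow_right (by norm_num) hm

end

end Fin5

end Pool.Agent.NTW
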