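import Pool.Agent.NTW.Fin5A

/-!
Assembly of the substitution theorem, part B: small parts, large parts, counting (helper39).
-/

set_option autoImplicit false

namespace Pool.Agent.NTW

open Finset Pool.Agent.Lib_helper61.SwitchBasic

namespace Fin5

section
variable {α : Type} [Fintype α] [DecidableEq α]

/-- The conclusion of `KEY` for all `U`, `lab`, `m`. -/
def KeyAt (G₀ : SimpleGraph α) (R : Finset α) (L : ℕ) : Prop :=
  ∀ (U : Finset α) (lab : α → α) (m : ℕ), 1 ≤ m →
    (∀ τ ∈ FG G₀ R, ∀ x ∈ U, τ x ∈ U ∧ lab (τ x) = lab x) →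
    (∀ i : α, ∀ τ ∈ FG G₀ R, ∃ τ' ∈ FG G₀ R, ∀ x, τ' x = if x ∈ U ∧ lab x = i then τ x else x) →
    (∀ (i : α) (X : Finset α), X ⊆ U → (∀ x ∈ X, lab x = i) →
      {X' : Finset α | ∃ τ ∈ FG G₀ R, X' = X.map τ.toEmbedding}.ncard ≤ 2 ^ m) →
    U.card - U.card / 2 ≤ (m + 1) * (2 + L * R.card)

/-- The vertices in parts with at most three elements. -/
theorem small (hSML : S_SML) (G₀ : SimpleGraph α) (R : Finset α) (L : ℕ) (hK : KeyAt G₀ R L)
    (V : Finset α) (hV : ∀ τ ∈ FG G₀ R, ∀ x ∈ V, τ x ∈ V)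
    (horb : ∀ x ∈ V, (orb G₀ R x).ncard ≤ 3)
    (hh : ∀ τ ∈ FG G₀ R, ∀ x ∈ V, ∀ z, z ∉ V → (G₀.Adj x z ↔ G₀.Adj x (τ z))) :
    V.card ≤ 8 * (2 + L * R.card) := by
  obtain ⟨lab, h1, h2, h3⟩ := hSML α G₀ R V hV horb hh
  have h4 := hK V lab 3 (by norm_num) h1 h2 h3
  omega

/-- Parts of size between `2 ^ a` and `2 ^ (a + 1)`. -/
theorem large (G₀ : SimpleGraph α) (R : Finset α) (L : ℕ) (hK : KeyAt G₀ R L) (c : α → ℕ) (a : ℕ)
    (J : Finset ℕ)
    (hJ : ∀ i ∈ J, 2 ^ a ≤ (part c i).card ∧ (part c i).card < 2 ^ (a + 1))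
    (hc : ∀ τ ∈ FG G₀ R, ∀ x, c x ∈ J → c (τ x) = c x)
    (hh : ∀ τ ∈ FG G₀ R, ∀ z, c z ∈ J → ∀ x, c x ≠ c z → (G₀.Adj x z ↔ G₀.Adj x (τ z))) :
    J.card ≤ 4 * (2 + L * R.card) := by
  classical
  set U : Finset α := univ.filter fun x => c x ∈ J with hU
  have hmemU : ∀ x, x ∈ U ↔ c x ∈ J := fun x => by simp [hU]
  -- labels
  have hex : ∀ x : α, ∃ y : α, c y = c x := fun x => ⟨x, rfl⟩
  set g : ℕ → Option α := fun i => if h : ∃ y : α, c y = i then some h.choose else none with hg
  set lab : α → α := fun x => (g (c x)).getD x with hlab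
  have hlabc : ∀ x, c (lab x) = c x := by
    intro x
    simp only [hlab, hg]
    rw [dif_pos (hex x)]
    exact (hex x).choose_spec
  have hlabe : ∀ x y, c x = c y → lab x = lab y := by
    intro x y h
    simp only [hlab, hg]
    rw [dif_pos (hex x), dif_pos (hex y)]
    simp only [Option.getD_some]
    congr 1
    simp only [h]
  have hlabi : ∀ x y, lab x = lab y → c x = c y := by
    intro x y h
    rw [← hlabc x, h, hlabc y]
  have hcard : J.card * 2 ^ a ≤ U.card := by
    have h1 : U.card = ∑ i ∈ J, (part c i).card := by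
      have h2 : U = J.biUnion fun i => part c i := by
        ext x
        rw [hmemU, Finset.mem_biUnion]
        constructor
        · intro hx
          exact ⟨c x, hx, (mem_part c _ _).2 rfl⟩
        · rintro ⟨i, hi, hx⟩
          rw [mem_part] at hx
          rw [hx]
          exact hi
      rw [h2, Finset.card_biUnion]
      intro i _ j _ hij
      change Disjoint (part c i) (part c j)
      rw [Finset.disjoint_left]
      intro x hx hx'
      rw [mem_part] at hx hx'
      exact hij (hx.symm.trans hx')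
    rw [h1]
    calc J.card * 2 ^ a = ∑ i ∈ J, 2 ^ a := by rw [Finset.sum_const, smul_eq_mul]
      _ ≤ _ := Finset.sum_le_sum fun i hi => (hJ i hi).1
  have h2a : 2 ≤ 2 ^ (a + 1) := by
    rw [pow_succ]
    have : 0 < 2 ^ a := by positivity
    omega
  have hinv : ∀ i : α, ∀ τ ∈ FG G₀ R, ∀ x ∈ U.filter (fun x => lab x = i),
      τ x ∈ U.filter (fun x => lab x = i) := by
    intro i τ hτ x hx
    rw [Finset.mem_filter, hmemU] at hx ⊢
    rw [hc τ hτ x hx.1]
    exact ⟨hx.1, (hlabe _ _ (hc τ hτ x hx.1)).trans hx.2⟩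
  have key := hK U lab (2 ^ (a + 1) - 1) (by omega)
    (by
      intro τ hτ x hx
      rw [hmemU] at hx ⊢
      rw [hc τ hτ x hx]
      exact ⟨hx, hlabe _ _ (hc τ hτ x hx)⟩)
    (by
      intro i τ hτ
      obtain ⟨τ', hτ', he⟩ := glue G₀ R (U.filter fun x => lab x = i) (hinv i)
        (by
          intro τ hτ z hz x hx
          rw [Finset.mem_filter, hmemU] at hz hx
          apply hh τ hτ z hz.1 x
          intro hxz
          exact hx ⟨hxz ▸ hz.1, (hlabe _ _ hxz).trans hz.2⟩) τ hτ
      refine ⟨τ', hτ', fun x => ?_⟩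
      rw [he x]
      by_cases hx : x ∈ U ∧ lab x = i
      · rw [if_pos hx, if_pos (Finset.mem_filter.2 hx)]
      · rw [if_neg hx, if_neg (fun h => hx (Finset.mem_filter.1 h))])
    (by
      intro i X hX hXi
      refine images_le G₀ R (U.filter fun x => lab x = i) X _ (hinv i)
        (fun x hx => Finset.mem_filter.2 ⟨hX hx, hXi x hx⟩) ?_
      rcases (U.filter fun x => lab x = i).eq_empty_or_nonempty with h | ⟨x, hx⟩
      · rw [h, Finset.card_empty]
        omega
      · rw [Finset.mem_filter, hmemU] at hx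
        have h1 : (U.filter fun x => lab x = i) ⊆ part c (c x) := by
          intro y hy
          rw [Finset.mem_filter] at hy
          exact (mem_part c _ _).2 (hlabi _ _ (hy.2.trans hx.2.symm))
        have h2 := Finset.card_le_card h1
        have h3 := (hJ (c x) hx.1).2
        omega)
  have h3 : 2 ^ (a + 1) - 1 + 1 = 2 * 2 ^ a := by
    rw [pow_succ] at h2a ⊢
    omega
  rw [h3] at key
  have h4 : U.card ≤ 2 * (2 * 2 ^ a * (2 + L * R.card)) := by omega
  have h5 : J.card * 2 ^ a ≤ (4 * (2 + L * R.card)) * 2 ^ a := by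
    calc J.card * 2 ^ a ≤ U.card := hcard
      _ ≤ _ := h4
      _ = (4 * (2 + L * R.card)) * 2 ^ a := by ring
  exact Nat.le_of_mul_le_mul_right h5 (by positivity)

/-- Counting the parts. -/
theorem cover (c : α → ℕ) (R V : Finset α) (L K : ℕ) (hL : 2 ≤ L) (hR : R.Nonempty)
    (hp : Fintype.card α ≤ 2 ^ L) (hVd : ∀ x, (part c (c x)).card ≤ 3 → x ∈ V)
    (hV : V.card ≤ 8 * K)
    (hJ : ∀ a, 2 ≤ a → ∀ J : Finset ℕ, (∀ i ∈ J, 2 ^ a ≤ (part c i).card ∧
      (part c i).card < 2 ^ (a + 1) ∧ Disjoint (part c i) R) → J.card ≤ 4 * K) :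
    (univ.image c).card ≤ R.card + 4 * L * K := by
  classical
  set J : ℕ → Finset ℕ := fun a => (univ.image c).filter fun i => 2 ^ a ≤ (part c i).card ∧
      (part c i).card < 2 ^ (a + 1) ∧ Disjoint (part c i) R with hJd
  have hsub : univ.image c ⊆ (R.image c ∪ V.image c) ∪ (Finset.Ico 2 L).biUnion J := by
    intro i hi
    obtain ⟨x, -, rfl⟩ := Finset.mem_image.1 hi
    by_cases h1 : Disjoint (part c (c x)) R
    · by_cases h2 : (part c (c x)).card ≤ 3
      · apply Finset.mem_union_left
        apply Finset.mem_union_right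
        exact Finset.mem_image_of_mem c (hVd x h2)
      · apply Finset.mem_union_right
        rw [Finset.mem_biUnion]
        have h3 : (part c (c x)).card ≠ 0 := by omega
        have hlt : (part c (c x)).card < 2 ^ L := by
          obtain ⟨y, hy⟩ := hR
          have h4 : part c (c x) ⊆ univ.erase y := by
            intro z hz
            rw [Finset.mem_erase]
            refine ⟨fun e => ?_, Finset.mem_univ _⟩
            rw [e] at hz
            exact (Finset.disjoint_left.1 h1 hz) hy
          have h5 := Finset.card_le_card h4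
          rw [Finset.card_erase_of_mem (Finset.mem_univ _), Finset.card_univ] at h5
          have h6 : 0 < Fintype.card α := Fintype.card_pos_iff.2 ⟨y⟩
          omega
        refine ⟨Nat.log 2 (part c (c x)).card, ?_, ?_⟩
        · rw [Finset.mem_Ico]
          constructor
          · apply Nat.le_log_of_pow_le (by norm_num)
            omega
          · exact Nat.log_lt_of_lt_pow h3 hlt
        · simp only [hJd, Finset.mem_filter]
          exact ⟨hi, Nat.pow_log_le_self 2 h3, Nat.lt_pow_succ_log_self (by norm_num) _, h1⟩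
    · apply Finset.mem_union_left
      apply Finset.mem_union_left
      rw [Finset.not_disjoint_iff] at h1
      obtain ⟨y, hy, hy'⟩ := h1
      rw [mem_part] at hy
      rw [← hy]
      exact Finset.mem_image_of_mem c hy'
  have h1 := Finset.card_le_card hsub
  have h2 := Finset.card_union_le (R.image c ∪ V.image c) ((Finset.Ico 2 L).biUnion J)
  have h3 := Finset.card_union_le (R.image c) (V.image c)
  have h4 : (R.image c).card ≤ R.card := Finset.card_image_le
  have h5 : (V.image c).card ≤ V.card := Finset.card_image_le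
  have h6 : ((Finset.Ico 2 L).biUnion J).card ≤ (L - 2) * (4 * K) := by
    refine (Finset.card_biUnion_le_card_mul _ _ (4 * K) ?_).trans ?_
    · intro a ha
      apply hJ a (Finset.mem_Ico.1 ha).1
      intro i hi
      exact (Finset.mem_filter.1 hi).2
    · rw [Nat.card_Ico]
  have h7 : 8 * K + (L - 2) * (4 * K) = 4 * L * K := by
    obtain ⟨l, rfl⟩ : ∃ l, L = l + 2 := ⟨L - 2, by omega⟩
    rw [Nat.add_sub_cancel]
    ring
  omega

end

end Fin5

end Pool.Agent.NTW
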