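import Pool.Agent.NTW.Fin6
import Pool.Agent.NTW.SmallComp

/-!
Assembly of T6, the centroid theorem (helper39).
-/

set_option autoImplicit false

namespace Pool.Agent.NTW

open Finset Pool.Agent.Lib_helper61.SwitchBasic

/-- T6: the centroid theorem. -/
theorem T6 (hPBLK : S_PBLK) (hPROD : S_PROD) (hREP : S_REP) (hCNTQ : S_CNTQ) (hINVB : S_INVB)
    (hCENT : S_CENT) (hDEG : S_DEG34) (hCOMP : S_COMP)
    (p : ℕ) (hp4 : p ≠ 4) (G : SimpleGraph (Fin p))
    (hhalf : ∀ C : Finset (Fin p), IsMod G C → 2 * C.card ≠ p)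
    (hprime : ∀ c : Fin p → ℕ, (∀ i, IsMod G (Fin5.part c i)) →
      (∀ i, 2 * (Fin5.part c i).card < p) → 4 ≤ (univ.image c).card → PrimeQ G c →
      (∀ s : Equiv.Perm (Fin p), IsClassAut G s → ∀ x y, c x = c y → c (s x) = c (s y)) →
      (4 * partImages G c) ^ 4 < 2 ^ (univ.image c).card)
    (H : SimpleGraph (Fin p)) (hdeck : SameDeck G H) : Nonempty (G ≃g H) := by
  classical
  by_contra hne
  have hcard : Fintype.card (Fin p) = p := Fintype.card_fin p
  have h4 := Pool.Agent.Lib_helper61.SwMain.four_dvd hdeck hne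
  rw [hcard] at h4
  have hp3 : 3 ≤ p := by
    obtain ⟨⟨m, hm⟩, h0⟩ := h4
    omega
  obtain ⟨c, hmod, hsmall, hcases⟩ := hCENT (Fin p) G (by rw [hcard]; exact hp3)
    (by rw [hcard]; exact hhalf)
  rw [hcard] at hsmall
  have hdeg : ((univ.image c = {0, 1, 2, 3} ∧ IsMod G (Fin5.part c 0 ∪ Fin5.part c 1) ∧
      IsMod G (Fin5.part c 1 ∪ Fin5.part c 2)) ∨ (univ.image c).card = 3) → False := by
    intro hc
    obtain ⟨S, hS⟩ := hDEG (Fin p) G c hmod hc
    have h3 : 3 ≤ (univ.image c).card := by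
      rcases hc with ⟨h, -⟩ | h
      · rw [h]; decide
      · exact h.ge
    have hs : ∀ i, 2 * (Fin5.part c i).card ≤ Fintype.card (Fin p) := by
      intro i
      rw [hcard]
      exact (hsmall i).le
    apply hne
    rcases hS with hS | hS
    · obtain ⟨h5, h6⟩ := hCOMP (Fin p) (sw G S) c hS h3 hs
      rw [hcard] at h6
      exact SmallComp.small_comps p hp4 G S (sw G S)
        (Or.inl rfl) h5 (Or.inl h6) H hdeck
    · obtain ⟨h5, h6⟩ := hCOMP (Fin p) (sw G S)ᶜ c (fun x y hxy hadj => by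
        rw [SimpleGraph.compl_adj] at hadj
        exact hadj.2 (hS x y hxy)) h3 hs
      rw [hcard] at h6
      exact SmallComp.small_comps p hp4 G S (sw G S)ᶜ
        (Or.inr rfl) h5 (Or.inl h6) H hdeck
  rcases hcases with ⟨hr, hP⟩ | hc
  · have hinv := hINVB (Fin p) G c hmod hr hP (by rw [hcard]; exact hsmall)
    have h2 : ∃ y z, c y ≠ c z := by
      by_contra hc
      push Not at hc
      have : (univ.image c).card ≤ 1 := by
        rw [Finset.card_le_one]
        intro i hi j hj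
        obtain ⟨x, -, rfl⟩ := Finset.mem_image.1 hi
        obtain ⟨y, -, rfl⟩ := Finset.mem_image.1 hj
        exact hc x y
      omega
    exact hne (T3 hPBLK hPROD hREP hCNTQ p hp4 G c hmod h2 hinv
      (hprime c hmod hsmall hr hP hinv) H hdeck)
  · exact hdeg hc

end Pool.Agent.NTW
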