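import Pool.Agent.NTW.MDEG
import Pool.Agent.NTW.MHOM
import Pool.Agent.Lib_helper61.SwMain

/-!
The halving theorem for MP_e73337_co (helper48): if all copies of `C` in its switching class are close to `C`, then
`C` switched at a set far from half size is switching-reconstructible.
-/

set_option autoImplicit false

namespace Pool.Agent.NTW.Half

open Finset Pool.Agent.Lib_helper61.SwitchBasic Pool.Agent.Lib_helper61.SwMain

section alt

variable {α : Type} [DecidableEq α]

/-- All alternating sums of `g` over the subsets of `E` with at least `N` elements vanish. -/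
def Van (E : Finset α) (N : ℕ) (g : Finset α → ℚ) : Prop := ∀ T ⊆ E, N ≤ T.card → mob g T = 0

theorem sum_card (g : Finset α → ℚ) (T : Finset α) :
    ∑ R ∈ T.powerset, (-1 : ℚ) ^ R.card * (g R * (R.card : ℚ)) =
      ∑ x ∈ T, (mob g T - mob g (T.erase x)) := by
  have h1 : ∀ x ∈ T, mob g T - mob g (T.erase x) =
      ∑ R ∈ T.powerset, if x ∈ R then (-1 : ℚ) ^ R.card * g R else 0 := by
    intro x hx
    have h2 : mob g T = ∑ R ∈ T.powerset, (if x ∈ R then (-1 : ℚ) ^ R.card * g R else 0) +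
        ∑ R ∈ T.powerset, (if x ∈ R then 0 else (-1 : ℚ) ^ R.card * g R) := by
      unfold mob
      rw [← Finset.sum_add_distrib]
      refine Finset.sum_congr rfl fun R _ => ?_
      split_ifs <;> simp
    have h3 : mob g (T.erase x) =
        ∑ R ∈ T.powerset, (if x ∈ R then 0 else (-1 : ℚ) ^ R.card * g R) := by
      unfold mob
      have h4 : (T.erase x).powerset = T.powerset.filter fun R => x ∉ R := by
        ext R
        rw [Finset.mem_filter, Finset.mem_powerset, Finset.mem_powerset, Finset.subset_erase]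
      rw [h4, Finset.sum_filter]
      refine Finset.sum_congr rfl fun R _ => ?_
      by_cases hR : x ∈ R <;> simp [hR]
    rw [h2, h3]
    ring
  rw [Finset.sum_congr rfl h1, Finset.sum_comm]
  refine Finset.sum_congr rfl fun R hR => ?_
  rw [← Finset.sum_filter, Finset.sum_const, nsmul_eq_mul]
  have h5 : T.filter (fun x => x ∈ R) = R := by
    ext x
    rw [Finset.mem_filter]
    exact ⟨fun h => h.2, fun h => ⟨Finset.mem_powerset.1 hR h, h⟩⟩
  rw [h5]
  ring

theorem van_lin (E : Finset α) (N : ℕ) (g : Finset α → ℚ) (h : Van E N g) (c : ℚ) :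
    Van E (N + 1) (fun R => g R * (c - (R.card : ℚ))) := by
  intro T hT hN
  have h1 : mob (fun R => g R * (c - (R.card : ℚ))) T = c * mob g T -
      ∑ R ∈ T.powerset, (-1 : ℚ) ^ R.card * (g R * (R.card : ℚ)) := by
    unfold mob
    rw [Finset.mul_sum, ← Finset.sum_sub_distrib]
    refine Finset.sum_congr rfl fun R _ => ?_
    ring
  rw [h1, sum_card, h T hT (by omega), mul_zero, zero_sub, neg_eq_zero]
  refine Finset.sum_eq_zero fun x hx => ?_
  rw [h (T.erase x) ((Finset.erase_subset _ _).trans hT)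
    (by rw [Finset.card_erase_of_mem hx]; omega), sub_zero]

theorem van_prod (E : Finset α) (N : ℕ) (g : Finset α → ℚ) (h : Van E N g) (c : ℕ → ℚ)
    (s : Finset ℕ) : Van E (N + s.card) (fun R => g R * ∏ j ∈ s, (c j - (R.card : ℚ))) := by
  induction s using Finset.induction_on with
  | empty => simpa using h
  | insert a s ha ih =>
    rw [Finset.card_insert_of_notMem ha, ← add_assoc]
    have h1 := van_lin E (N + s.card) _ ih (c a)
    intro T hT hN
    have h2 := h1 T hT hN
    rw [← h2]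
    unfold mob
    refine Finset.sum_congr rfl fun R _ => ?_
    show (-1 : ℚ) ^ R.card * (g R * ∏ j ∈ insert a s, (c j - (R.card : ℚ))) =
      (-1 : ℚ) ^ R.card * (g R * (∏ j ∈ s, (c j - (R.card : ℚ))) * (c a - (R.card : ℚ)))
    rw [Finset.prod_insert ha]
    ring

end alt

section core

variable {α : Type} [Fintype α] [DecidableEq α]

/-- The imbalance of `T`. -/
def ww (T : Finset α) : ℤ := (Fintype.card α : ℤ) - 2 * (T.card : ℤ)

theorem ww_compl (T : Finset α) : ww Tᶜ = - ww T := by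
  unfold ww
  have h := Finset.card_compl_add_card T
  omega

theorem ww_sum (T : Finset α) : ((ww T : ℤ) : ℚ) = ∑ x : α, homChi T {x} := by
  have h1 : ∀ x : α, homChi T {x} = 1 - (if x ∈ T then (2 : ℚ) else 0) := by
    intro x
    unfold homChi
    rw [Finset.prod_singleton]
    split_ifs <;> norm_num
  rw [Finset.sum_congr rfl (fun x _ => h1 x), Finset.sum_sub_distrib, Finset.sum_ite_mem]
  unfold ww
  simp
  ring

theorem level_two (φ : Finset α → ℚ) (hf : ∀ S, ∑ i : α, φ (symmDiff S {i}) = 0)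
    (hp : Fintype.card α ≠ 4) (hp0 : Fintype.card α ≠ 0) :
    (∑ T, φ T = 0) ∧ (∑ T, φ T * ((ww T : ℤ) : ℚ) ^ 2 = 0) := by
  have h0 : ∑ T, φ T = 0 := by
    have h := hom_F_zero φ hf ∅ (by simpa using hp0.symm)
    have h2 : ∀ T : Finset α, homChi T ∅ = 1 := fun T => by
      unfold homChi
      simp
    rw [Finset.sum_congr rfl (fun T _ => by rw [h2 T, one_mul])] at h
    exact h
  refine ⟨h0, ?_⟩
  have h1 : ∀ x y : α, ∑ T, φ T * (homChi T {x} * homChi T {y}) = 0 := by
    intro x y
    by_cases hxy : x = y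
    · subst hxy
      rw [← h0]
      refine Finset.sum_congr rfl fun T _ => ?_
      rw [hom_chi_sq, mul_one]
    · have h := hom_F_zero φ hf {x, y} (by rw [Finset.card_pair hxy]; omega)
      rw [← h]
      refine Finset.sum_congr rfl fun T _ => ?_
      have h2 : ({x, y} : Finset α) = {x} ∪ {y} := rfl
      rw [h2, hom_chi_union T {x} {y} (by simpa using hxy)]
      ring
  have h2 : ∀ T : Finset α, φ T * ((ww T : ℤ) : ℚ) ^ 2 =
      ∑ x : α, ∑ y : α, φ T * (homChi T {x} * homChi T {y}) := by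
    intro T
    rw [ww_sum, sq, Finset.sum_mul_sum, Finset.mul_sum]
    refine Finset.sum_congr rfl fun x _ => ?_
    rw [Finset.mul_sum]
  rw [Finset.sum_congr rfl (fun T _ => h2 T), Finset.sum_comm]
  refine Finset.sum_eq_zero fun x _ => ?_
  rw [Finset.sum_comm]
  exact Finset.sum_eq_zero fun y _ => h1 x y

/-- The size of a set is determined up to `δ` and complement by the graph. -/
theorem band (C : SimpleGraph α) (δ : ℕ)
    (hδ : ∀ S : Finset α, Nonempty (sw C S ≃g C) → S.card ≤ δ ∨ Fintype.card α ≤ S.card + δ)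
    (T T' : Finset α) (h : Nonempty (sw C T ≃g sw C T')) :
    |(|ww T|) - (|ww T'|)| ≤ 2 * (δ : ℤ) := by
  obtain ⟨ψ⟩ := h
  have h1 := isoSw ψ T
  rw [sw_sw, sw_sw, symmDiff_self, Finset.bot_eq_empty, sw_empty] at h1
  have h2 := hδ _ ⟨h1.symm⟩
  set M := T.map ψ.toEquiv.toEmbedding with hM
  have hcard : M.card = T.card := Finset.card_map _
  have h3 : (symmDiff T' M).card = (T' \ M).card + (M \ T').card := by
    rw [symmDiff_def, Finset.sup_eq_union, Finset.card_union_of_disjoint]
    exact disjoint_sdiff_sdiff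
  have h4 : (T' \ M).card + (T' ∩ M).card = T'.card := Finset.card_sdiff_add_card_inter _ _
  have h5 : (M \ T').card + (T' ∩ M).card = M.card := by
    rw [Finset.inter_comm]
    exact Finset.card_sdiff_add_card_inter _ _
  have h6 : (T' ∪ M).card + (T' ∩ M).card = T'.card + M.card := Finset.card_union_add_card_inter _ _
  have h7 : (T' ∪ M).card ≤ Fintype.card α := Finset.card_le_univ _
  have key : |ww T - ww T'| ≤ 2 * (δ : ℤ) ∨ |ww T + ww T'| ≤ 2 * (δ : ℤ) := by
    unfold ww
    rcases h2 with h2 | h2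
    · left
      rw [abs_le]
      constructor <;> omega
    · right
      rw [abs_le]
      constructor <;> omega
  rcases key with h | h
  · exact (abs_abs_sub_abs_le_abs_sub _ _).trans h
  · have e : |ww T'| = |(- ww T')| := (abs_neg _).symm
    rw [e]
    refine (abs_abs_sub_abs_le_abs_sub _ _).trans ?_
    rwa [sub_neg_eq_add]

/-- The polynomial argument. -/
theorem poly (φ : Finset α → ℚ) (hf : ∀ S, ∑ i : α, φ (symmDiff S {i}) = 0) (k : ℕ) (a₀ : ℕ)
    (T₀ : Finset α) (h0 : φ T₀ ≠ 0) (hT₀ : Fintype.card α = 2 * T₀.card + a₀) (ha : 4 * k + 3 ≤ a₀)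
    (hsupp : ∀ R : Finset α, Disjoint T₀ R → φ (T₀ ∪ R) ≠ 0 → R.card ≤ k ∨
      (a₀ ≤ R.card + k ∧ R.card ≤ a₀)) : False := by
  have hvan : Van T₀ᶜ (Fintype.card α / 2 + 1) (fun R => φ (symmDiff T₀ R)) := by
    intro T hT hN
    refine t_DEG α (fun R => φ (symmDiff T₀ R)) ?_ T (by omega)
    intro S
    have := hf (symmDiff T₀ S)
    rw [← this]
    refine Finset.sum_congr rfl fun i _ => ?_
    show φ (symmDiff T₀ (symmDiff S {i})) = φ (symmDiff (symmDiff T₀ S) {i})
    rw [symmDiff_assoc]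
  have h1 := van_prod _ _ _ hvan (fun j => ((j : ℚ) + 1)) (Finset.range k)
  have h2 := van_prod _ _ _ h1 (fun j => ((a₀ : ℚ) - j)) (Finset.range (k + 1))
  rw [Finset.card_range, Finset.card_range] at h2
  have hc : (T₀ᶜ).card + T₀.card = Fintype.card α := Finset.card_compl_add_card T₀
  have h3 := h2 T₀ᶜ (Finset.Subset.refl _) (by omega)
  unfold mob at h3
  rw [Finset.sum_eq_single ∅] at h3
  · simp only [Finset.card_empty, pow_zero, one_mul, Nat.cast_zero, sub_zero] at h3
    rw [mul_eq_zero, mul_eq_zero] at h3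
    rcases h3 with (h3 | h3) | h3
    · apply h0
      have : symmDiff T₀ ∅ = T₀ := sd_empty T₀
      rwa [this] at h3
    · rw [Finset.prod_eq_zero_iff] at h3
      obtain ⟨j, -, hj⟩ := h3
      have : (0 : ℚ) < (j : ℚ) + 1 := by positivity
      linarith
    · rw [Finset.prod_eq_zero_iff] at h3
      obtain ⟨j, hj, hj2⟩ := h3
      rw [Finset.mem_range] at hj
      have : (j : ℚ) < (a₀ : ℚ) := by
        have : j < a₀ := by omega
        exact_mod_cast this
      linarith
  · intro R hR hne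
    rw [Finset.mem_powerset] at hR
    have hdis : Disjoint T₀ R := by
      rw [Finset.disjoint_left]
      intro x hx hx'
      exact (Finset.mem_compl.1 (hR hx')) hx
    have hsd : symmDiff T₀ R = T₀ ∪ R := by
      rw [hdis.symmDiff_eq_sup, Finset.sup_eq_union]
    have hpos : 0 < R.card := Finset.card_pos.2 (Finset.nonempty_iff_ne_empty.2 hne)
    by_cases hφ : φ (T₀ ∪ R) = 0
    · simp [hsd, hφ]
    · rcases hsupp R hdis hφ with h4 | ⟨h4, h5⟩
      · have : ∏ j ∈ Finset.range k, (((j : ℚ) + 1) - (R.card : ℚ)) = 0 := by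
          refine Finset.prod_eq_zero (i := R.card - 1) (Finset.mem_range.2 (by omega)) ?_
          have : ((R.card - 1 : ℕ) : ℚ) = (R.card : ℚ) - 1 := by
            rw [Nat.cast_sub hpos]
            simp
          rw [this]
          ring
        simp only [this, mul_zero, zero_mul]
      · have : ∏ j ∈ Finset.range (k + 1), (((a₀ : ℚ) - j) - (R.card : ℚ)) = 0 := by
          refine Finset.prod_eq_zero (i := a₀ - R.card) (Finset.mem_range.2 (by omega)) ?_
          have : ((a₀ - R.card : ℕ) : ℚ) = (a₀ : ℚ) - (R.card : ℚ) := Nat.cast_sub h5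
          rw [this]
          ring
        simp only [this, mul_zero]
  · intro h
    exact absurd (Finset.empty_mem_powerset _) h

theorem ff_compl (G H : SimpleGraph α) (S : Finset α) : ff G H Sᶜ = ff G H S := by
  unfold ff
  rw [sw_compl]

/-- The core theorem. -/
theorem core (hp : Fintype.card α ≠ 4) (C : SimpleGraph α) (δ : ℕ)
    (hδ : ∀ S : Finset α, Nonempty (sw C S ≃g C) → S.card ≤ δ ∨ Fintype.card α ≤ S.card + δ)
    (X : Finset α)
    (hX : 2 * X.card + 24 * δ + 3 ≤ Fintype.card α ∨ Fintype.card α + 24 * δ + 3 ≤ 2 * X.card)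
    (H : SimpleGraph α) (hdeck : SameDeck (sw C X) H) : Nonempty (sw C X ≃g H) := by
  by_contra hne
  have hp0 : Fintype.card α ≠ 0 := (four_dvd hdeck hne).2
  set φ : Finset α → ℚ := fun T => ff (sw C X) H (symmDiff X T) with hφ
  have hsw : ∀ T, sw (sw C X) (symmDiff X T) = sw C T := by
    intro T
    rw [sw_sw, ← symmDiff_assoc, symmDiff_self, bot_symmDiff]
  have hf : ∀ S, ∑ i : α, φ (symmDiff S {i}) = 0 := by
    intro S
    have h := sum_ff hdeck (symmDiff X S)
    rw [← h]
    refine Finset.sum_congr rfl fun i _ => ?_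
    show ff (sw C X) H (symmDiff X (symmDiff S {i})) = _
    rw [symmDiff_assoc]
  have hφc : ∀ T, φ Tᶜ = φ T := by
    intro T
    have h : symmDiff X Tᶜ = (symmDiff X T)ᶜ := by
      ext x
      simp only [Finset.mem_symmDiff, Finset.mem_compl]
      tauto
    show ff (sw C X) H (symmDiff X Tᶜ) = ff (sw C X) H (symmDiff X T)
    rw [h, ff_compl]
  have hX0 : 0 < φ X := by
    have h : symmDiff X X = (∅ : Finset α) := by rw [symmDiff_self, Finset.bot_eq_empty]
    show 0 < ff (sw C X) H (symmDiff X X)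
    rw [h, ff_empty hne]
    obtain ⟨i⟩ : Nonempty α := by
      rw [← not_isEmpty_iff]
      intro h0
      exact hp0 Fintype.card_eq_zero
    obtain ⟨T, hT⟩ := exists_sw hdeck i
    exact cnt_pos _ H T hT
  have hG : ∀ T, 0 < φ T → |(|ww T|) - (|ww X|)| ≤ 2 * (δ : ℤ) := by
    intro T hT
    have h := iso_of_ff_pos hT
    rw [hsw] at h
    exact band C δ hδ T X h
  have hH : ∀ T T', φ T < 0 → φ T' < 0 → |(|ww T|) - (|ww T'|)| ≤ 2 * (δ : ℤ) := by
    intro T T' hT hT'
    have h := iso_of_ff_neg hT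
    have h' := iso_of_ff_neg hT'
    rw [hsw] at h h'
    obtain ⟨ψ⟩ := h
    obtain ⟨ψ'⟩ := h'
    exact band C δ hδ T T' ⟨ψ.trans ψ'.symm⟩
  obtain ⟨hs0, hs2⟩ := level_two φ hf hp hp0
  have hsm : ∀ m : ℤ, ∑ T, φ T * ((((ww T) ^ 2 - m ^ 2 : ℤ)) : ℚ) = 0 := by
    intro m
    have h : ∀ T : Finset α, φ T * ((((ww T) ^ 2 - m ^ 2 : ℤ)) : ℚ) =
        φ T * ((ww T : ℤ) : ℚ) ^ 2 - φ T * (m : ℚ) ^ 2 := by
      intro T
      push_cast
      ring
    rw [Finset.sum_congr rfl (fun T _ => h T), Finset.sum_sub_distrib, hs2, ← Finset.sum_mul, hs0]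
    ring
  have ha : 24 * (δ : ℤ) + 3 ≤ |ww X| := by
    rcases hX with h | h
    · refine le_trans ?_ (le_abs_self _)
      unfold ww
      omega
    · refine le_trans ?_ (neg_le_abs _)
      unfold ww
      omega
  set a := |ww X| with hadef
  have hband : ∀ T, φ T < 0 → |(|ww T|) - a| ≤ 6 * (δ : ℤ) := by
    intro T hT
    rw [abs_le]
    constructor
    · by_contra hcon
      push Not at hcon
      have h := hsm (a - 2 * (δ : ℤ))
      have hpos : 0 < ∑ T', φ T' * ((((ww T') ^ 2 - (a - 2 * (δ : ℤ)) ^ 2 : ℤ)) : ℚ) := by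
        refine Finset.sum_pos' (fun T' _ => ?_) ⟨T, Finset.mem_univ _, ?_⟩
        · rcases lt_trichotomy (φ T') 0 with h1 | h1 | h1
          · have h2 := abs_le.1 (hH T' T h1 hT)
            have h3 : (ww T') ^ 2 - (a - 2 * (δ : ℤ)) ^ 2 ≤ 0 := by
              have : (ww T') ^ 2 ≤ (a - 2 * (δ : ℤ)) ^ 2 := by
                rw [sq_le_sq]
                refine le_trans ?_ (le_abs_self _)
                linarith [h2.2]
              linarith
            have h4 : ((((ww T') ^ 2 - (a - 2 * (δ : ℤ)) ^ 2 : ℤ)) : ℚ) ≤ 0 := by exact_mod_cast h3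
            exact mul_nonneg_of_nonpos_of_nonpos h1.le h4
          · rw [h1, zero_mul]
          · have h2 := abs_le.1 (hG T' h1)
            have h3 : 0 ≤ (ww T') ^ 2 - (a - 2 * (δ : ℤ)) ^ 2 := by
              have : (a - 2 * (δ : ℤ)) ^ 2 ≤ (ww T') ^ 2 := by
                rw [sq_le_sq, abs_of_nonneg (by linarith : 0 ≤ a - 2 * (δ : ℤ))]
                linarith [h2.1]
              linarith
            have h4 : 0 ≤ ((((ww T') ^ 2 - (a - 2 * (δ : ℤ)) ^ 2 : ℤ)) : ℚ) := by exact_mod_cast h3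
            exact mul_nonneg h1.le h4
        · have h3 : (ww T) ^ 2 - (a - 2 * (δ : ℤ)) ^ 2 < 0 := by
            have : (ww T) ^ 2 < (a - 2 * (δ : ℤ)) ^ 2 := by
              rw [sq_lt_sq]
              refine lt_of_lt_of_le ?_ (le_abs_self _)
              have : (0 : ℤ) ≤ δ := Int.natCast_nonneg δ
              linarith
            linarith
          have h4 : ((((ww T) ^ 2 - (a - 2 * (δ : ℤ)) ^ 2 : ℤ)) : ℚ) < 0 := by exact_mod_cast h3
          exact mul_pos_of_neg_of_neg hT h4
      rw [h] at hpos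
      exact lt_irrefl _ hpos
    · by_contra hcon
      push Not at hcon
      have h := hsm (a + 2 * (δ : ℤ))
      have hpos : ∑ T', φ T' * ((((ww T') ^ 2 - (a + 2 * (δ : ℤ)) ^ 2 : ℤ)) : ℚ) < 0 := by
        have hδ0 : (0 : ℤ) ≤ δ := Int.natCast_nonneg δ
        have ha0 : 0 ≤ a := abs_nonneg _
        have hstep : 0 < ∑ T', - (φ T' * ((((ww T') ^ 2 - (a + 2 * (δ : ℤ)) ^ 2 : ℤ)) : ℚ)) := by
          refine Finset.sum_pos' (fun T' _ => ?_) ⟨T, Finset.mem_univ _, ?_⟩
          · rcases lt_trichotomy (φ T') 0 with h1 | h1 | h1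
            · have h2 := abs_le.1 (hH T' T h1 hT)
              have h3 : 0 ≤ (ww T') ^ 2 - (a + 2 * (δ : ℤ)) ^ 2 := by
                have : (a + 2 * (δ : ℤ)) ^ 2 ≤ (ww T') ^ 2 := by
                  rw [sq_le_sq, abs_of_nonneg (by linarith : 0 ≤ a + 2 * (δ : ℤ))]
                  linarith [h2.1]
                linarith
              have h4 : 0 ≤ ((((ww T') ^ 2 - (a + 2 * (δ : ℤ)) ^ 2 : ℤ)) : ℚ) := by exact_mod_cast h3
              have := mul_nonneg (neg_nonneg.2 h1.le) h4
              linarith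
            · rw [h1, zero_mul, neg_zero]
            · have h2 := abs_le.1 (hG T' h1)
              have h3 : (ww T') ^ 2 - (a + 2 * (δ : ℤ)) ^ 2 ≤ 0 := by
                have : (ww T') ^ 2 ≤ (a + 2 * (δ : ℤ)) ^ 2 := by
                  rw [sq_le_sq]
                  refine le_trans ?_ (le_abs_self _)
                  linarith [h2.2]
                linarith
              have h4 : ((((ww T') ^ 2 - (a + 2 * (δ : ℤ)) ^ 2 : ℤ)) : ℚ) ≤ 0 := by exact_mod_cast h3
              have := mul_nonneg h1.le (neg_nonneg.2 h4)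
              linarith
          · have h3 : 0 < (ww T) ^ 2 - (a + 2 * (δ : ℤ)) ^ 2 := by
              have : (a + 2 * (δ : ℤ)) ^ 2 < (ww T) ^ 2 := by
                rw [sq_lt_sq, abs_of_nonneg (by linarith : 0 ≤ a + 2 * (δ : ℤ))]
                linarith
              linarith
            have h4 : 0 < ((((ww T) ^ 2 - (a + 2 * (δ : ℤ)) ^ 2 : ℤ)) : ℚ) := by exact_mod_cast h3
            have := mul_pos (neg_pos.2 hT) h4
            linarith
        rw [Finset.sum_neg_distrib] at hstep
        linarith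
      rw [h] at hpos
      exact lt_irrefl _ hpos
  have hall : ∀ T, φ T ≠ 0 → |(|ww T|) - a| ≤ 6 * (δ : ℤ) := by
    intro T hT
    rcases lt_or_gt_of_ne hT with h | h
    · exact hband T h
    · have h1 := hG T h
      have : (0 : ℤ) ≤ δ := Int.natCast_nonneg δ
      linarith
  obtain ⟨T₁, hT₁, hmax⟩ := Finset.exists_max_image (univ.filter fun T : Finset α => φ T ≠ 0)
    (fun T => |ww T|) ⟨X, Finset.mem_filter.2 ⟨Finset.mem_univ _, hX0.ne'⟩⟩
  rw [Finset.mem_filter] at hT₁
  obtain ⟨T₀, hT₀, hT₀w, hT₀m⟩ : ∃ T₀, φ T₀ ≠ 0 ∧ 0 ≤ ww T₀ ∧ ∀ T, φ T ≠ 0 → |ww T| ≤ ww T₀ := by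
    by_cases hw : 0 ≤ ww T₁
    · refine ⟨T₁, hT₁.2, hw, fun T hT => ?_⟩
      have := hmax T (Finset.mem_filter.2 ⟨Finset.mem_univ _, hT⟩)
      rwa [abs_of_nonneg hw] at this
    · refine ⟨T₁ᶜ, by rw [hφc]; exact hT₁.2, by rw [ww_compl]; linarith, fun T hT => ?_⟩
      have := hmax T (Finset.mem_filter.2 ⟨Finset.mem_univ _, hT⟩)
      rw [ww_compl]
      push Not at hw
      rwa [abs_of_neg hw] at this
  have hb := abs_le.1 (hall T₀ hT₀)
  rw [abs_of_nonneg hT₀w] at hb
  have hb1 := hT₀m X hX0.ne'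
  rw [← hadef] at hb1
  refine poly φ hf (6 * δ) (ww T₀).toNat T₀ hT₀ ?_ ?_ ?_
  · have h : ww T₀ = (Fintype.card α : ℤ) - 2 * (T₀.card : ℤ) := rfl
    omega
  · omega
  · intro R hR hφR
    have h1 := abs_le.1 (hall _ hφR)
    have h2 := hT₀m _ hφR
    have h3 : ww (T₀ ∪ R) = ww T₀ - 2 * (R.card : ℤ) := by
      unfold ww
      rw [Finset.card_union_of_disjoint hR]
      push_cast
      ring
    rw [h3] at h1 h2
    rcases abs_cases (ww T₀ - 2 * (R.card : ℤ)) with ⟨h4, h5⟩ | ⟨h4, h5⟩
    · rw [h4] at h1 h2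
      left
      omega
    · rw [h4] at h1 h2
      right
      constructor <;> omega

end core

end Pool.Agent.NTW.Half
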