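import Pool.Agent.NTW.Half

/-!
The halving theorem for MP_e73337_co (helper48), part 2: invariant sets, bounded degree, few edges.
-/

set_option autoImplicit false

namespace Pool.Agent.NTW.Half

open Finset Pool.Agent.Lib_helper61.SwitchBasic Pool.Agent.Lib_helper61.SwMain

variable {α : Type} [Fintype α] [DecidableEq α]

/-- Switching at an invariant set does not change the distances of the copies. -/
theorem inv_copies (C : SimpleGraph α) (δ : ℕ)
    (hδ : ∀ S : Finset α, Nonempty (sw C S ≃g C) → S.card ≤ δ ∨ Fintype.card α ≤ S.card + δ)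
    (A : Finset α) (hA : IsInvariant C A) (S : Finset α) (h : Nonempty (sw (sw C A) S ≃g sw C A)) :
    S.card ≤ δ ∨ Fintype.card α ≤ S.card + δ := by
  obtain ⟨ψ⟩ := h
  rw [sw_sw] at ψ
  have hinv := hA ψ.toEquiv (classAut_of_iso C _ _ ψ)
  have hmap : A.map ψ.toEquiv.toEmbedding = A := by
    ext x
    constructor
    · intro hx
      obtain ⟨y, hy, rfl⟩ := Finset.mem_map.1 hx
      exact (hinv y).2 hy
    · intro hx
      refine Finset.mem_map.2 ⟨ψ.toEquiv.symm x, ?_, ?_⟩
      · rw [← hinv]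
        simpa using hx
      · simp
  have h2 := isoSw ψ A
  rw [hmap, sw_sw, sw_sw, symmDiff_self, Finset.bot_eq_empty, sw_empty] at h2
  have h3 : symmDiff (symmDiff A S) A = S := by
    rw [symmDiff_comm A S, sd_cancel]
  rw [h3] at h2
  exact hδ S ⟨h2⟩

open Classical in
/-- Twice the number of edges. -/
noncomputable def ee (K : SimpleGraph α) : ℤ := ∑ i : α, ∑ j : α, if K.Adj i j then 1 else 0

open Classical in
/-- The number of edges between `S` and its complement. -/
noncomputable def cut (K : SimpleGraph α) (S : Finset α) : ℤ :=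
  ∑ i ∈ S, ∑ j ∈ Sᶜ, if K.Adj i j then 1 else 0

theorem ee_iso {K L : SimpleGraph α} (h : Nonempty (K ≃g L)) : ee K = ee L := by
  classical
  obtain ⟨ψ⟩ := h
  unfold ee
  rw [← Equiv.sum_comp ψ.toEquiv (fun i => ∑ j : α, if L.Adj i j then (1 : ℤ) else 0)]
  refine Finset.sum_congr rfl fun i _ => ?_
  rw [← Equiv.sum_comp ψ.toEquiv (fun j => if L.Adj (ψ.toEquiv i) j then (1 : ℤ) else 0)]
  refine Finset.sum_congr rfl fun j _ => ?_
  have : L.Adj (ψ.toEquiv i) (ψ.toEquiv j) ↔ K.Adj i j := ψ.map_rel_iff'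
  simp only [this]

theorem sum_ind (S T : Finset α) (F : α → α → ℤ) :
    ∑ i : α, ∑ j : α, (if i ∈ S then (if j ∈ T then F i j else 0) else 0) =
      ∑ i ∈ S, ∑ j ∈ T, F i j := by
  have h : ∀ i : α, ∑ j : α, (if i ∈ S then (if j ∈ T then F i j else 0) else 0) =
      if i ∈ S then ∑ j ∈ T, F i j else 0 := by
    intro i
    by_cases hi : i ∈ S
    · simp only [hi, if_true]
      rw [Finset.sum_ite_mem, Finset.univ_inter]
    · simp [hi]
  rw [Finset.sum_congr rfl (fun i _ => h i), Finset.sum_ite_mem, Finset.univ_inter]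

theorem ee_sw (K : SimpleGraph α) (S : Finset α) :
    ee (sw K S) = ee K + 2 * ((S.card : ℤ) * (Sᶜ.card : ℤ) - 2 * cut K S) := by
  classical
  have h1 : ∀ i j : α, (if (sw K S).Adj i j then (1 : ℤ) else 0) = (if K.Adj i j then 1 else 0) +
      ((if i ∈ S then (if j ∈ Sᶜ then (1 - 2 * (if K.Adj i j then 1 else 0)) else 0) else 0) +
      (if i ∈ Sᶜ then (if j ∈ S then (1 - 2 * (if K.Adj i j then 1 else 0)) else 0) else 0)) := by
    intro i j
    by_cases hij : i = j
    · subst hij
      by_cases hi : i ∈ S <;> simp [hi]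
    · by_cases hK : K.Adj i j <;> by_cases hi : i ∈ S <;> by_cases hj : j ∈ S <;>
        simp [sw_adj, hij, hK, hi, hj]
  have h2 : ∑ i ∈ Sᶜ, ∑ j ∈ S, ((1 : ℤ) - 2 * (if K.Adj i j then 1 else 0)) =
      ∑ i ∈ S, ∑ j ∈ Sᶜ, ((1 : ℤ) - 2 * (if K.Adj i j then 1 else 0)) := by
    rw [Finset.sum_comm]
    refine Finset.sum_congr rfl fun i _ => Finset.sum_congr rfl fun j _ => ?_
    simp only [K.adj_comm j i]
  have h3 : ∑ i ∈ S, ∑ j ∈ Sᶜ, ((1 : ℤ) - 2 * (if K.Adj i j then 1 else 0)) =
      (S.card : ℤ) * (Sᶜ.card : ℤ) - 2 * cut K S := by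
    unfold cut
    simp only [Finset.sum_sub_distrib, Finset.sum_const, ← Finset.mul_sum, nsmul_eq_mul, mul_one]
  unfold ee
  simp only [h1, Finset.sum_add_distrib]
  rw [sum_ind S Sᶜ, sum_ind Sᶜ S, h2, h3]
  ring

omit [Fintype α] [DecidableEq α] in
theorem sum_adj (K : SimpleGraph α) [DecidableRel K.Adj] (T : Finset α) (i : α) :
    (∑ j ∈ T, @ite ℤ (K.Adj i j) (Classical.propDecidable (K.Adj i j)) 1 0) =
      ((T.filter fun j => K.Adj i j).card : ℤ) := by
  rw [← Finset.sum_boole]
  refine Finset.sum_congr rfl fun j _ => ?_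
  by_cases h : K.Adj i j <;> simp [h]

theorem cut_le_left (K : SimpleGraph α) [DecidableRel K.Adj] (S : Finset α) :
    cut K S ≤ ∑ i ∈ S, (K.degree i : ℤ) := by
  unfold cut
  refine Finset.sum_le_sum fun i _ => ?_
  rw [← SimpleGraph.card_neighborFinset_eq_degree, sum_adj, Nat.cast_le]
  refine Finset.card_le_card ?_
  intro j hj
  rw [SimpleGraph.mem_neighborFinset]
  exact (Finset.mem_filter.1 hj).2

theorem cut_compl (K : SimpleGraph α) (S : Finset α) : cut K Sᶜ = cut K S := by
  classical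
  unfold cut
  rw [compl_compl, Finset.sum_comm]
  refine Finset.sum_congr rfl fun i _ => Finset.sum_congr rfl fun j _ => ?_
  simp only [K.adj_comm j i]

theorem copies_deg (C : SimpleGraph α) [DecidableRel C.Adj]
    (hdeg : ∀ v, 4 * C.degree v < Fintype.card α) (S : Finset α) (h : Nonempty (sw C S ≃g C)) :
    S.card ≤ 0 ∨ Fintype.card α ≤ S.card + 0 := by
  have h1 := ee_sw C S
  rw [ee_iso h] at h1
  have hc : ((Sᶜ.card : ℕ) : ℤ) + (S.card : ℤ) = (Fintype.card α : ℤ) := by
    exact_mod_cast Finset.card_compl_add_card S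
  have hb : ∀ T : Finset α, T.Nonempty → 4 * cut C T < (T.card : ℤ) * (Fintype.card α : ℤ) := by
    intro T hT
    have h2 := cut_le_left C T
    have h3 : ∑ i ∈ T, (4 * (C.degree i : ℤ)) < ∑ i ∈ T, (Fintype.card α : ℤ) := by
      refine Finset.sum_lt_sum_of_nonempty hT fun i _ => ?_
      exact_mod_cast hdeg i
    rw [Finset.sum_const, nsmul_eq_mul, ← Finset.mul_sum] at h3
    linarith
  by_contra hcon
  push Not at hcon
  obtain ⟨h4, h5⟩ := hcon
  have hS : S.Nonempty := Finset.card_pos.1 h4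
  have hS' : (Sᶜ).Nonempty := by
    rw [← Finset.card_pos]
    omega
  have h6 := hb S hS
  have h7 := hb Sᶜ hS'
  rw [cut_compl] at h7
  have hS0 : (0 : ℤ) < S.card := by exact_mod_cast h4
  have hS1 : (0 : ℤ) < (Sᶜ.card : ℤ) := by exact_mod_cast Finset.card_pos.2 hS'
  have h8 : (S.card : ℤ) * (Sᶜ.card : ℤ) = 2 * cut C S := by linarith
  rw [← hc] at h6 h7
  nlinarith

theorem copies_edges (C : SimpleGraph α) [DecidableRel C.Adj] (S : Finset α)
    (h : Nonempty (sw C S ≃g C)) :
    S.card ≤ 4 * C.edgeFinset.card / Fintype.card α ∨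
      Fintype.card α ≤ S.card + 4 * C.edgeFinset.card / Fintype.card α := by
  classical
  by_cases hp : Fintype.card α = 0
  · right
    rw [hp]
    exact Nat.zero_le _
  have h1 := ee_sw C S
  rw [ee_iso h] at h1
  have hc := Finset.card_compl_add_card S
  have h2 : 2 * cut C S ≤ ee C := by
    have e1 : 2 * cut C S = cut C S + cut C Sᶜ := by rw [cut_compl]; ring
    rw [e1]
    unfold ee
    rw [← Finset.sum_add_sum_compl S]
    refine add_le_add ?_ ?_
    · unfold cut
      refine Finset.sum_le_sum fun i _ => ?_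
      refine Finset.sum_le_sum_of_subset_of_nonneg (Finset.subset_univ _) fun j _ _ => ?_
      split_ifs <;> norm_num
    · unfold cut
      refine Finset.sum_le_sum fun i _ => ?_
      refine Finset.sum_le_sum_of_subset_of_nonneg (Finset.subset_univ _) fun j _ _ => ?_
      split_ifs <;> norm_num
  have h3 : ee C = 2 * (C.edgeFinset.card : ℤ) := by
    have e2 : ee C = ((∑ i : α, C.degree i : ℕ) : ℤ) := by
      unfold ee
      push_cast
      refine Finset.sum_congr rfl fun i _ => ?_
      rw [← SimpleGraph.card_neighborFinset_eq_degree, sum_adj]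
      congr 2
      ext j
      simp
    rw [e2, C.sum_degrees_eq_twice_card_edges]
    push_cast
    ring
  have h8 : (S.card : ℤ) * (Sᶜ.card : ℤ) ≤ 2 * (C.edgeFinset.card : ℤ) := by linarith
  have h9 : S.card * Sᶜ.card ≤ 2 * C.edgeFinset.card := by exact_mod_cast h8
  rcases le_total S.card Sᶜ.card with h10 | h10
  · left
    rw [Nat.le_div_iff_mul_le (Nat.pos_of_ne_zero hp)]
    calc S.card * Fintype.card α ≤ S.card * (2 * Sᶜ.card) := Nat.mul_le_mul_left _ (by omega)
      _ = 2 * (S.card * Sᶜ.card) := by ring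
      _ ≤ 2 * (2 * C.edgeFinset.card) := Nat.mul_le_mul_left _ h9
      _ = 4 * C.edgeFinset.card := by ring
  · right
    have h11 : Sᶜ.card ≤ 4 * C.edgeFinset.card / Fintype.card α := by
      rw [Nat.le_div_iff_mul_le (Nat.pos_of_ne_zero hp)]
      calc Sᶜ.card * Fintype.card α ≤ Sᶜ.card * (2 * S.card) := Nat.mul_le_mul_left _ (by omega)
        _ = 2 * (S.card * Sᶜ.card) := by ring
        _ ≤ 2 * (2 * C.edgeFinset.card) := Nat.mul_le_mul_left _ h9
        _ = 4 * C.edgeFinset.card := by ring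
    omega

/-- The general theorem. -/
theorem general (hp : Fintype.card α ≠ 4) (C : SimpleGraph α) (δ : ℕ)
    (hδ : ∀ S : Finset α, Nonempty (sw C S ≃g C) → S.card ≤ δ ∨ Fintype.card α ≤ S.card + δ)
    (A : Finset α) (hA : IsInvariant C A) (X : Finset α)
    (hX : 2 * (symmDiff X A).card + 24 * δ + 3 ≤ Fintype.card α ∨
      Fintype.card α + 24 * δ + 3 ≤ 2 * (symmDiff X A).card)
    (H : SimpleGraph α) (hdeck : SameDeck (sw C X) H) : Nonempty (sw C X ≃g H) := by
  have h := core hp (sw C A) δ (inv_copies C δ hδ A hA) (symmDiff X A) hX H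
  have e : sw (sw C A) (symmDiff X A) = sw C X := by
    rw [sw_sw, symmDiff_comm X A, ← symmDiff_assoc, symmDiff_self, bot_symmDiff]
  rw [e] at h
  exact h hdeck

end Pool.Agent.NTW.Half
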