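import Pool.Agent.NTW.Half2

/-!
The halving theorem for MP_e73337_co (helper48), part 3: classes with an invariant set of odd size.
-/

set_option autoImplicit false

namespace Pool.Agent.NTW.Half

open Finset Pool.Agent.Lib_helper61.SwitchBasic Pool.Agent.Lib_helper61.SwMain

variable {α : Type} [Fintype α] [DecidableEq α]

omit [Fintype α] in
/-- Invariant sets of `G` are invariant for all graphs of the class. -/
theorem inv_sw (G : SimpleGraph α) (S₀ A : Finset α) (hA : IsInvariant G A) :
    IsInvariant (sw G S₀) A := by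
  intro σ hσ v
  obtain ⟨S, hS⟩ := hσ
  let ψ : sw G S₀ ≃g sw (sw G S₀) S :=
    { toEquiv := σ, map_rel_iff' := by intro a b; exact hS a b }
  have h : ψ v ∈ A ↔ v ∈ A :=
    inv_of_iso hA S₀ (symmDiff S₀ S) rfl (sw_sw G S₀ S) ψ v
  exact h

open Classical in
/-- The parity of the number of neighbours of `v` in `V`. -/
noncomputable def dd (K : SimpleGraph α) (V : Finset α) (v : α) : ZMod 2 :=
  ∑ w ∈ V, if K.Adj v w then 1 else 0

omit [Fintype α] in
theorem dd_sw (K : SimpleGraph α) (V S : Finset α) (v : α) (hV : Odd V.card) :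
    dd (sw K S) V v = dd K V v + ((∑ w ∈ V, if w ∈ S then 1 else 0) + if v ∈ S then 1 else 0) := by
  classical
  have h1 : dd (sw K S) V v = dd K V v + ∑ w ∈ V, (if (v ∈ S ↔ w ∈ S) then (0 : ZMod 2) else 1) := by
    unfold dd
    rw [← Finset.sum_add_distrib]
    refine Finset.sum_congr rfl fun w _ => ?_
    by_cases hvw : v = w
    · subst hvw
      simp
    · by_cases hK : K.Adj v w <;> by_cases hs : (v ∈ S ↔ w ∈ S) <;>
        simp [sw_adj, hvw, hK, hs]
      decide
  rw [h1]
  congr 1
  by_cases hv : v ∈ S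
  · have h2 : ∀ w ∈ V, (if (v ∈ S ↔ w ∈ S) then (0 : ZMod 2) else 1) =
        (if w ∈ S then 1 else 0) + 1 := by
      intro w _
      by_cases hw : w ∈ S <;> simp [hv, hw]
      decide
    rw [Finset.sum_congr rfl h2, Finset.sum_add_distrib, if_pos hv, Finset.sum_const,
      nsmul_eq_mul, mul_one]
    congr 1
    obtain ⟨k, hk⟩ := hV
    rw [hk]
    push_cast
    have : (2 : ZMod 2) = 0 := by decide
    rw [this]
    ring
  · rw [if_neg hv, add_zero]
    refine Finset.sum_congr rfl fun w _ => ?_
    by_cases hw : w ∈ S <;> simp [hv, hw]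

omit [Fintype α] [DecidableEq α] in
theorem dd_sum (K : SimpleGraph α) (V : Finset α) : ∑ v ∈ V, dd K V v = 0 := by
  classical
  unfold dd
  rw [← Finset.sum_product']
  refine Finset.sum_involution (fun q _ => (q.2, q.1)) ?_ ?_ ?_ ?_
  · intro q _
    by_cases h : K.Adj q.1 q.2
    · simp only [h, h.symm, if_true]
      decide
    · have h' : ¬ K.Adj q.2 q.1 := fun e => h e.symm
      simp only [h, h', if_false, add_zero]
  · intro q _ hq he
    have h1 : q.1 = q.2 := by
      have := congrArg Prod.snd he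
      exact this
    rw [h1] at hq
    simp at hq
  · intro q hq
    rw [Finset.mem_product] at hq ⊢
    exact ⟨hq.2, hq.1⟩
  · intro q _
    rfl

/-- The canonical graph of a class with an invariant set of odd size. -/
theorem canon (G : SimpleGraph α) (V : Finset α) (hV : IsInvariant G V) (hodd : Odd V.card) :
    ∃ S₀ : Finset α, ∀ S : Finset α, Nonempty (sw (sw G S₀) S ≃g sw G S₀) →
      S.card ≤ 0 ∨ Fintype.card α ≤ S.card + 0 := by
  classical
  set S₀ : Finset α := univ.filter fun v => dd G V v ≠ 0 with hS₀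
  have hz : ∀ x : ZMod 2, (if x ≠ 0 then (1 : ZMod 2) else 0) = x := by decide
  have hmem : ∀ v, (if v ∈ S₀ then (1 : ZMod 2) else 0) = dd G V v := by
    intro v
    rw [← hz (dd G V v)]
    simp [hS₀]
  have hC : ∀ v, dd (sw G S₀) V v = 0 := by
    intro v
    rw [dd_sw G V S₀ v hodd, hmem v, Finset.sum_congr rfl (fun w _ => hmem w), dd_sum, zero_add]
    exact CharTwo.add_self_eq_zero _
  refine ⟨S₀, fun S hS => ?_⟩
  obtain ⟨ψ⟩ := hS
  have hinv : ∀ v, ψ v ∈ V ↔ v ∈ V := by
    intro v
    exact inv_of_iso hV (symmDiff S₀ S) S₀ (sw_sw G S₀ S) rfl ψ v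
  have h1 : ∀ v, dd (sw (sw G S₀) S) V v = 0 := by
    intro v
    rw [← hC (ψ v)]
    unfold dd
    refine Finset.sum_bij (fun w _ => ψ w) (fun w hw => (hinv w).2 hw)
      (fun w _ w' _ h => ψ.injective h) ?_ ?_
    · intro w hw
      refine ⟨ψ.symm w, ?_, by simp⟩
      rw [← hinv]
      simpa using hw
    · intro w _
      have : (sw G S₀).Adj (ψ v) (ψ w) ↔ (sw (sw G S₀) S).Adj v w := ψ.map_rel_iff'
      simp only [this]
  have h2 : ∀ v, ((∑ w ∈ V, if w ∈ S then (1 : ZMod 2) else 0) + if v ∈ S then 1 else 0) = 0 := by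
    intro v
    have := h1 v
    rw [dd_sw (sw G S₀) V S v hodd, hC v, zero_add] at this
    exact this
  by_cases hem : S = ∅
  · left
    rw [hem]
    simp
  · right
    obtain ⟨x, hx⟩ := Finset.nonempty_iff_ne_empty.2 hem
    have h3 : S = univ := by
      rw [Finset.eq_univ_iff_forall]
      intro v
      by_contra hv
      have e1 := h2 x
      have e2 := h2 v
      rw [if_pos hx] at e1
      rw [if_neg hv, add_zero] at e2
      rw [e2, zero_add] at e1
      exact one_ne_zero e1
    rw [h3, Finset.card_univ]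
    exact le_rfl

/-- Classes with an invariant set of odd size. -/
theorem odd_class (hp : Fintype.card α ≠ 4) (G : SimpleGraph α) (V : Finset α)
    (hV : IsInvariant G V) (hodd : Odd V.card) :
    ∃ S₀ : Finset α, ∀ A : Finset α, IsInvariant G A → ∀ X : Finset α,
      (2 * (symmDiff X A).card + 3 ≤ Fintype.card α ∨
        Fintype.card α + 3 ≤ 2 * (symmDiff X A).card) →
      ∀ H : SimpleGraph α, SameDeck (sw (sw G S₀) X) H → Nonempty (sw (sw G S₀) X ≃g H) := by
  obtain ⟨S₀, hS₀⟩ := canon G V hV hodd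
  refine ⟨S₀, fun A hA X hX H hdeck => ?_⟩
  refine general hp (sw G S₀) 0 hS₀ A (inv_sw G S₀ A hA) X ?_ H hdeck
  rcases hX with h | h
  · left
    omega
  · right
    omega

end Pool.Agent.NTW.Half
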