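import Pool.Agent.NTW.Main5

/-!
Independent parts of the stabilisers of the automorphism group of a switching class (helper78), for MP_e73337_co.
-/

set_option autoImplicit false

namespace Pool.Agent.NTW

open Finset Pool.Agent.Lib_helper61.SwitchBasic Fin5

namespace Ind

/-- An automorphism of `G` switched at the neighbours of `x₀` is an automorphism of the switching
class. -/
theorem classAut_of_mem {α : Type} [Fintype α] [DecidableEq α] (G : SimpleGraph α) (R B : Finset α)
    (τ : Equiv.Perm α) (hτ : τ ∈ FG (sw G B) R) : IsClassAut G τ := by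
  refine ⟨symmDiff B (B.map τ.toEmbedding), fun u v => ?_⟩
  have h1 := hτ.2 u v
  rw [← sw_sw, sw_adj]
  have h2 : ∀ w : α, τ w ∈ B.map τ.toEmbedding ↔ w ∈ B := by
    intro w
    constructor
    · intro h
      obtain ⟨x, hx, hxw⟩ := Finset.mem_map.1 h
      have : x = w := τ.injective hxw
      rwa [← this]
    · intro h
      exact Finset.mem_map.2 ⟨w, h, rfl⟩
  rw [h1, h2, h2, sw_adj]
  by_cases huv : u = v
  · subst huv
    simp
  · have h3 : τ u ≠ τ v := fun e => huv (τ.injective e)
    tauto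

/-- An automorphism of the switching class which fixes `x₀` is an automorphism of `G` switched at
the neighbours of `x₀`. -/
theorem mem_of_classAut {α : Type} [Fintype α] [DecidableEq α] (G : SimpleGraph α) (R : Finset α)
    (x₀ : α) (hx₀ : x₀ ∈ R) (τ : Equiv.Perm α) (h : IsClassAut G τ) (hR : ∀ x ∈ R, τ x = x) :
    τ ∈ FG (sw G (nb0 G x₀)) R := by
  classical
  obtain ⟨S, hS⟩ := h
  have hnb : ∀ w, w ∈ nb0 G x₀ ↔ G.Adj x₀ w := by
    intro w
    simp [nb0]
  refine ⟨hR, fun u v => ?_⟩
  have h0 : τ x₀ = x₀ := hR x₀ hx₀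
  rw [sw_adj, sw_adj, hnb, hnb, hnb, hnb]
  by_cases huv : u = v
  · subst huv
    simp
  have h3 : τ u ≠ τ v := fun e => huv (τ.injective e)
  by_cases hu : u = x₀
  · rw [hu, h0]
    have h4 : x₀ ≠ τ v := by
      intro e
      apply huv
      rw [hu]
      apply τ.injective
      rw [h0]; exact e
    have h5 : x₀ ≠ v := fun e => huv (hu.trans e)
    have h6 : ¬ G.Adj x₀ x₀ := G.loopless.irrefl x₀
    tauto
  by_cases hv : v = x₀
  · rw [hv, h0]
    have h4 : τ u ≠ x₀ := by
      intro e
      apply hu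
      apply τ.injective
      rw [h0]; exact e
    have h6 : ¬ G.Adj x₀ x₀ := G.loopless.irrefl x₀
    have h7 : G.Adj (τ u) x₀ ↔ G.Adj x₀ (τ u) := G.adj_comm _ _
    have h8 : G.Adj u x₀ ↔ G.Adj x₀ u := G.adj_comm _ _
    tauto
  have e1 := hS u v
  have e2 := hS x₀ u
  have e3 := hS x₀ v
  rw [sw_adj] at e1 e2 e3
  rw [h0] at e2 e3
  have h4 : x₀ ≠ τ u := by
    intro e
    apply hu
    apply τ.injective
    rw [h0]; exact e.symm
  have h5 : x₀ ≠ τ v := by
    intro e
    apply hv
    apply τ.injective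
    rw [h0]; exact e.symm
  have key : ∀ A B C X Y Z : Prop, (A ↔ (B ↔ C)) ↔
      ((A ↔ (Y ↔ Z)) ↔ ((B ↔ (X ↔ Y)) ↔ (C ↔ (X ↔ Z)))) := by
    intro A B C X Y Z
    by_cases a1 : A <;> by_cases a2 : B <;> by_cases a3 : C <;> by_cases a4 : X <;>
      by_cases a5 : Y <;> by_cases a6 : Z <;> simp only [a1, a2, a3, a4, a5, a6, iff_true, true_iff,
        iff_false, false_iff, not_true, not_false_iff]
  rw [← e1, ← e2, ← e3]
  simp only [ne_eq, h3, h4, h5, huv, not_false_iff, true_and]
  exact key _ _ _ _ _ _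

end Ind

/-- Disjoint vertex sets which are invariant and independent for the automorphisms of the switching
class that fix `R`: if there are more than `4 (L + 1) (2 + L |R|)` of them, the graph is
switching-reconstructible. -/
theorem indep_parts (p : ℕ) (G : SimpleGraph (Fin p)) (R : Finset (Fin p)) (hR : R.Nonempty)
    (r : ℕ) (B : Fin r → Finset (Fin p)) (hne : ∀ i, (B i).Nonempty)
    (hdis : ∀ i j, i ≠ j → Disjoint (B i) (B j))
    (hB : ∀ i, ∀ σ : Equiv.Perm (Fin p), IsClassAut G σ → (∀ x ∈ R, σ x = x) →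
      (∀ x ∈ B i, σ x ∈ B i) ∧
      ∃ σ' : Equiv.Perm (Fin p), IsClassAut G σ' ∧ ∀ x, σ' x = if x ∈ B i then σ x else x)
    (hr : 4 * (Nat.clog 2 p + 1) * (2 + Nat.clog 2 p * R.card) < r)
    (H : SimpleGraph (Fin p)) (hdeck : SameDeck G H) : Nonempty (G ≃g H) := by
  classical
  by_contra hnot
  obtain ⟨x₀, hx₀⟩ := hR
  have hK : KeyAt (sw G (nb0 G x₀)) R (Nat.clog 2 p) :=
    keyAt (t_KEY t_HOM (t_TENU (t_TEN (t_ONE t_RM))) t_CNT) p G H hdeck hnot R x₀ hx₀
  set L := Nat.clog 2 p with hL
  have hpL : p ≤ 2 ^ L := Nat.le_pow_clog (by norm_num) p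
  set G₀ := sw G (nb0 G x₀) with hG₀
  have hBi : ∀ i, ∀ τ ∈ FG G₀ R, (∀ x ∈ B i, τ x ∈ B i) ∧
      ∀ z ∈ B i, ∀ x, x ∉ B i → (G₀.Adj x z ↔ G₀.Adj x (τ z)) := by
    intro i τ hτ
    obtain ⟨h1, σ', h2, h3⟩ := hB i τ (Ind.classAut_of_mem G R _ τ hτ) hτ.1
    refine ⟨h1, fun z hz x hx => ?_⟩
    have h4 : σ' ∈ FG G₀ R := by
      apply Ind.mem_of_classAut G R x₀ hx₀ σ' h2
      intro y hy
      rw [h3]
      split_ifs
      · exact hτ.1 y hy
      · rfl
    have h5 := h4.2 x z
    rw [h3 x, h3 z, if_neg hx, if_pos hz] at h5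
    exact h5.symm
  -- the labels
  set c : Fin p → ℕ := fun x => if h : ∃ i : Fin r, x ∈ B i then (h.choose : ℕ) + 1 else 0 with hc
  have hcB : ∀ (i : Fin r) (x : Fin p), c x = (i : ℕ) + 1 ↔ x ∈ B i := by
    intro i x
    simp only [hc]
    constructor
    · intro h
      split_ifs at h with h1
      · have h2 : h1.choose = i := by
          apply Fin.ext
          omega
        rw [← h2]
        exact h1.choose_spec
    · intro h
      have h1 : ∃ i : Fin r, x ∈ B i := ⟨i, h⟩
      rw [dif_pos h1]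
      have h2 : h1.choose = i := by
        by_contra hne'
        exact (Finset.disjoint_left.1 (hdis _ _ hne') h1.choose_spec) h
      rw [h2]
  have hpart : ∀ i : Fin r, part c ((i : ℕ) + 1) = B i := by
    intro i
    ext x
    rw [mem_part, hcB]
  -- the classes of sizes
  set I : ℕ → Finset (Fin r) := fun a => univ.filter fun i => 2 ^ a ≤ (B i).card ∧
    (B i).card < 2 ^ (a + 1) with hI
  have hIc : ∀ a, (I a).card ≤ 4 * (2 + L * R.card) := by
    intro a
    have hinj : Function.Injective fun i : Fin r => (i : ℕ) + 1 := by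
      intro i j h
      apply Fin.ext
      have : (i : ℕ) + 1 = (j : ℕ) + 1 := h
      omega
    have h1 : ((I a).image fun i : Fin r => (i : ℕ) + 1).card = (I a).card :=
      Finset.card_image_of_injective _ hinj
    rw [← h1]
    apply large G₀ R L hK c a
    · intro j hj
      obtain ⟨i, hi, rfl⟩ := Finset.mem_image.1 hj
      rw [hpart]
      exact (Finset.mem_filter.1 hi).2
    · intro τ hτ x hx
      obtain ⟨i, hi, hix⟩ := Finset.mem_image.1 hx
      have h2 : x ∈ B i := (hcB i x).1 hix.symm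
      have h3 := (hBi i τ hτ).1 x h2
      rw [← hix]
      exact (hcB i _).2 h3
    · intro τ hτ z hz x hx
      obtain ⟨i, hi, hix⟩ := Finset.mem_image.1 hz
      have h2 : z ∈ B i := (hcB i z).1 hix.symm
      apply (hBi i τ hτ).2 z h2 x
      intro h3
      apply hx
      rw [← hix]
      exact (hcB i x).2 h3
  have hcov : (univ : Finset (Fin r)) ⊆ (Finset.range (L + 1)).biUnion I := by
    intro i _
    rw [Finset.mem_biUnion]
    have h1 : (B i).card ≠ 0 := (Finset.card_pos.2 (hne i)).ne'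
    have h2 : (B i).card ≤ 2 ^ L := by
      refine le_trans ?_ hpL
      calc (B i).card ≤ (univ : Finset (Fin p)).card := Finset.card_le_univ _
        _ = p := by rw [Finset.card_univ, Fintype.card_fin]
    refine ⟨Nat.log 2 (B i).card, ?_, ?_⟩
    · rw [Finset.mem_range, Nat.lt_succ_iff]
      calc Nat.log 2 (B i).card ≤ Nat.log 2 (2 ^ L) := Nat.log_mono_right h2
        _ = L := Nat.log_pow (by norm_num) L
    · simp only [hI, Finset.mem_filter, Finset.mem_univ, true_and]
      exact ⟨Nat.pow_log_le_self 2 h1, Nat.lt_pow_succ_log_self (by norm_num) _⟩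
  have h1 := Finset.card_le_card hcov
  rw [Finset.card_univ, Fintype.card_fin] at h1
  have h2 : ((Finset.range (L + 1)).biUnion I).card ≤ (L + 1) * (4 * (2 + L * R.card)) := by
    refine (Finset.card_biUnion_le_card_mul _ _ (4 * (2 + L * R.card)) (fun a _ => hIc a)).trans ?_
    rw [Finset.card_range]
  have h3 : (L + 1) * (4 * (2 + L * R.card)) = 4 * (L + 1) * (2 + L * R.card) := by ring
  omega

end Pool.Agent.NTW
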