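import Mathlib
import Pool.Agent.NTW.St4

/-!
MP_e73337_co, NTW: statement `S_BLC` of `Pool/Agent/NTW/St4.lean` (helper21).
-/

set_option autoImplicit false

namespace Pool.Agent.NTW

open Finset

namespace BLC

theorem poly_alt (P : Polynomial ℚ) (n : ℕ) (hP : P.natDegree < n) :
    ∑ k ∈ range (n + 1), (-1 : ℚ) ^ k * ((n.choose k : ℕ) : ℚ) * P.eval (k : ℚ) = 0 := by
  have h := congrFun (Polynomial.fwdDiff_iter_eq_zero_of_degree_lt hP) 0
  rw [fwdDiff_iter_eq_sum_shift] at h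
  have h2 : ∑ k ∈ range (n + 1), (-1 : ℚ) ^ k * ((n.choose k : ℕ) : ℚ) * P.eval (k : ℚ) =
      (-1 : ℚ) ^ n * ∑ k ∈ range (n + 1),
        ((-1 : ℤ) ^ (n - k) * (n.choose k : ℤ)) • P.eval (0 + k • (1 : ℚ)) := by
    rw [mul_sum]
    refine sum_congr rfl fun k hk => ?_
    have hkn : k ≤ n := Nat.lt_succ_iff.1 (mem_range.1 hk)
    have e1 : (-1 : ℚ) ^ n * (-1 : ℚ) ^ (n - k) = (-1 : ℚ) ^ k := by
      have : n = k + (n - k) := by omega
      have e2 : (-1 : ℚ) ^ (n - k) * (-1 : ℚ) ^ (n - k) = 1 := by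
        rw [← mul_pow]; simp
      calc (-1 : ℚ) ^ n * (-1 : ℚ) ^ (n - k)
          = (-1 : ℚ) ^ (k + (n - k)) * (-1 : ℚ) ^ (n - k) := by rw [← this]
        _ = (-1 : ℚ) ^ k * ((-1 : ℚ) ^ (n - k) * (-1 : ℚ) ^ (n - k)) := by rw [pow_add]; ring
        _ = _ := by rw [e2, mul_one]
    rw [zsmul_eq_mul]
    push_cast
    rw [zero_add, nsmul_eq_mul, mul_one, ← mul_assoc, ← mul_assoc, e1]
  rw [h2, h]
  simp

theorem exists_poly (φ : ℕ → ℚ) (j n : ℕ)
    (h : ∀ i, j < i → i ≤ n → ∑ k ∈ range (i + 1), (-1 : ℚ) ^ k * ((i.choose k : ℕ) : ℚ) * φ k = 0) :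
    ∃ P : Polynomial ℚ, P.degree < ((j + 1 : ℕ) : WithBot ℕ) ∧ ∀ k ≤ n, φ k = P.eval (k : ℚ) := by
  have hinj : Set.InjOn (fun k : ℕ => (k : ℚ)) (range (j + 1) : Finset ℕ) := by
    intro a _ b _ hab
    exact Nat.cast_injective hab
  set P := Lagrange.interpolate (range (j + 1)) (fun k : ℕ => (k : ℚ)) φ with hPdef
  have hdeg : P.degree < ((j + 1 : ℕ) : WithBot ℕ) := by
    have := Lagrange.degree_interpolate_lt φ hinj
    rwa [card_range] at this
  refine ⟨P, hdeg, ?_⟩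
  intro k
  induction k using Nat.strong_induction_on with
  | _ k ih =>
    intro hk
    by_cases hkj : k ≤ j
    · exact (Lagrange.eval_interpolate_at_node φ hinj (mem_range.2 (by omega))).symm
    · have hjk : j < k := by omega
      have h1 := h k hjk hk
      have hnd : P.natDegree < k := by
        by_cases hP0 : P = 0
        · rw [hP0, Polynomial.natDegree_zero]; omega
        · have := (Polynomial.natDegree_lt_iff_degree_lt hP0).2 hdeg
          omega
      have h2 := poly_alt P k hnd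
      rw [sum_range_succ] at h1 h2
      have h3 : ∑ m ∈ range k, (-1 : ℚ) ^ m * ((k.choose m : ℕ) : ℚ) * φ m =
          ∑ m ∈ range k, (-1 : ℚ) ^ m * ((k.choose m : ℕ) : ℚ) * P.eval (m : ℚ) := by
        refine sum_congr rfl fun m hm => ?_
        have hm' := mem_range.1 hm
        rw [ih m hm' (by omega)]
      rw [h3] at h1
      have h4 : (-1 : ℚ) ^ k * ((k.choose k : ℕ) : ℚ) * φ k =
          (-1 : ℚ) ^ k * ((k.choose k : ℕ) : ℚ) * P.eval (k : ℚ) := by linarith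
      have h5 : (-1 : ℚ) ^ k * ((k.choose k : ℕ) : ℚ) ≠ 0 := by
        rw [Nat.choose_self]
        rw [Nat.cast_one, mul_one]
        exact pow_ne_zero _ (by norm_num)
      exact mul_left_cancel₀ h5 h4

theorem count (φ : ℕ → ℚ) (j n : ℕ)
    (h : ∀ i, j < i → i ≤ n → ∑ k ∈ range (i + 1), (-1 : ℚ) ^ k * ((i.choose k : ℕ) : ℚ) * φ k = 0)
    (hne : ∃ k ≤ n, φ k ≠ 0) :
    n - j + 1 ≤ ((range (n + 1)).filter fun k => φ k ≠ 0).card := by
  obtain ⟨P, hdeg, hP⟩ := exists_poly φ j n h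
  obtain ⟨k0, hk0, hφ⟩ := hne
  have hz : ((range (n + 1)).filter fun k => φ k = 0).card ≤ j := by
    by_contra hcon
    push Not at hcon
    have hP0 : P = 0 := by
      refine Polynomial.eq_zero_of_degree_lt_of_eval_index_eq_zero
        (s := (range (n + 1)).filter fun k => φ k = 0) (v := fun k : ℕ => (k : ℚ)) ?_ ?_ ?_
      · intro a _ b _ hab
        exact Nat.cast_injective hab
      · refine lt_of_lt_of_le hdeg ?_
        exact_mod_cast hcon
      · intro i hi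
        have hi' := mem_filter.1 hi
        rw [← hP i (by have := mem_range.1 hi'.1; omega)]
        exact hi'.2
    apply hφ
    rw [hP k0 hk0, hP0]
    simp
  have hsum := Finset.card_filter_add_card_filter_not (s := range (n + 1)) (fun k => φ k = 0)
  rw [card_range] at hsum
  have hpos : 1 ≤ ((range (n + 1)).filter fun k => φ k ≠ 0).card :=
    card_pos.2 ⟨k0, mem_filter.2 ⟨mem_range.2 (by omega), hφ⟩⟩
  have hsum' : ((range (n + 1)).filter fun k => φ k = 0).card +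
      ((range (n + 1)).filter fun k => φ k ≠ 0).card = n + 1 := hsum
  omega

theorem num (c d M : ℕ) (hdc : d ≤ c) (h : 2 ^ c ≤ (c + 1) ^ M) : 2 ^ d ≤ (d + 1) ^ M := by
  rcases Nat.eq_zero_or_pos d with hd | hd
  · subst hd; simp
  have hc : c ≠ 0 := by omega
  have hd' : (0 : ℝ) < d := by exact_mod_cast hd
  have h1 : (1 : ℝ) ≤ (c : ℝ) / d := by
    rw [le_div_iff₀ hd', one_mul]; exact_mod_cast hdc
  have h2 := one_add_mul_self_le_rpow_one_add (s := (d : ℝ)) (by linarith) h1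
  rw [div_mul_cancel₀ _ hd'.ne'] at h2
  have h3 : (1 + (c : ℝ)) ^ d ≤ ((1 + (d : ℝ)) ^ ((c : ℝ) / d)) ^ d :=
    pow_le_pow_left₀ (by positivity) h2 d
  have h4 : ((1 + (d : ℝ)) ^ ((c : ℝ) / d)) ^ d = (1 + (d : ℝ)) ^ c := by
    rw [← Real.rpow_natCast, ← Real.rpow_mul (by positivity), div_mul_cancel₀ _ hd'.ne',
      Real.rpow_natCast]
  rw [h4] at h3
  have h5 : (c + 1) ^ d ≤ (d + 1) ^ c := by
    have : (((c + 1) ^ d : ℕ) : ℝ) ≤ (((d + 1) ^ c : ℕ) : ℝ) := by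
      push_cast
      rw [add_comm (c : ℝ) 1, add_comm (d : ℝ) 1]
      exact h3
    exact_mod_cast this
  have h6 : (2 ^ d) ^ c ≤ ((d + 1) ^ M) ^ c := by
    calc (2 ^ d) ^ c = (2 ^ c) ^ d := by rw [← pow_mul, ← pow_mul, mul_comm]
      _ ≤ ((c + 1) ^ M) ^ d := Nat.pow_le_pow_left h d
      _ = ((c + 1) ^ d) ^ M := by rw [← pow_mul, ← pow_mul, mul_comm]
      _ ≤ ((d + 1) ^ c) ^ M := Nat.pow_le_pow_left h5 M
      _ = ((d + 1) ^ M) ^ c := by rw [← pow_mul, ← pow_mul, mul_comm]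
  exact (Nat.pow_le_pow_iff_left hc).1 h6

end BLC

theorem t_BLC : S_BLC := by
  refine ⟨?_, BLC.num⟩
  intro α _ Λ E M hE1 hE2 hM f j hinv hdeg hne
  set n := Λ.card with hn
  have hex : ∀ k : ℕ, ∃ X : Finset α, X ⊆ Λ ∧ (k ≤ n → X.card = k) := by
    intro k
    by_cases hk : k ≤ n
    · obtain ⟨X, hX, hXc⟩ := Finset.exists_subset_card_eq (s := Λ) hk
      exact ⟨X, hX, fun _ => hXc⟩
    · exact ⟨∅, empty_subset _, fun h => absurd h hk⟩
  choose c hcs hcc using hex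
  have hval : ∀ X ⊆ Λ, f X = f (c X.card) := by
    intro X hX
    have hXn : X.card ≤ n := card_le_card hX
    exact hinv X hX _ (hcs _) (hE1 X hX _ (hcs _) (hcc _ hXn).symm)
  have hmob : ∀ T ⊆ Λ, mob f T =
      ∑ k ∈ range (T.card + 1), (-1 : ℚ) ^ k * ((T.card.choose k : ℕ) : ℚ) * f (c k) := by
    intro T hT
    unfold mob
    rw [Finset.sum_congr rfl (g := fun S => (fun k : ℕ => (-1 : ℚ) ^ k * f (c k)) S.card)
      (fun S hS => by rw [hval S ((mem_powerset.1 hS).trans hT)])]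
    rw [Finset.sum_powerset_apply_card (fun k : ℕ => (-1 : ℚ) ^ k * f (c k))]
    refine sum_congr rfl fun k _ => ?_
    rw [nsmul_eq_mul]
    ring
  have halt : ∀ i, j < i → i ≤ n →
      ∑ k ∈ range (i + 1), (-1 : ℚ) ^ k * ((i.choose k : ℕ) : ℚ) * f (c k) = 0 := by
    intro i hji hin
    have h1 := hdeg (c i) (hcs i) (by rw [hcc i hin]; exact hji)
    rw [hmob _ (hcs i), hcc i hin] at h1
    exact h1
  have hne' : ∃ k ≤ n, f (c k) ≠ 0 := by
    obtain ⟨X, hX, hfX⟩ := hne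
    exact ⟨X.card, card_le_card hX, by rw [← hval X hX]; exact hfX⟩
  have hcount := BLC.count (fun k => f (c k)) j n halt hne'
  set K := (range (n + 1)).filter fun k => f (c k) ≠ 0 with hK
  have hKn : ∀ k ∈ K, k ≤ n ∧ f (c k) ≠ 0 := by
    intro k hk
    have := mem_filter.1 hk
    exact ⟨by have := mem_range.1 this.1; omega, this.2⟩
  have hinjK : Set.InjOn c (K : Set ℕ) := by
    intro a ha b hb hab
    have h1 := hcc a (hKn a (mem_coe.1 ha)).1
    have h2 := hcc b (hKn b (mem_coe.1 hb)).1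
    rw [← h1, ← h2, hab]
  refine ⟨K.image c, ?_, ?_, ?_⟩
  · intro X hX
    obtain ⟨k, hk, rfl⟩ := mem_image.1 hX
    exact ⟨hcs k, (hKn k hk).2⟩
  · intro X hX X' hX' hE
    obtain ⟨k, hk, rfl⟩ := mem_image.1 hX
    obtain ⟨k', hk', rfl⟩ := mem_image.1 hX'
    have h1 := hE2 _ _ hE
    rw [hcc k (hKn k hk).1, hcc k' (hKn k' hk').1] at h1
    rw [h1]
  · rw [card_image_of_injOn hinjK]
    calc 2 ^ (n - j) ≤ (n - j + 1) ^ M := BLC.num n (n - j) M (Nat.sub_le _ _) hM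
      _ ≤ K.card ^ M := Nat.pow_le_pow_left hcount M

end Pool.Agent.NTW

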