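import Mathlib
import Pool.Agent.NTW.St4

/-!
# MP_e73337_co: a block with at most `M` points (helper15)

BLM: for a block of at most `M` points the conclusion `BlockOK` needs no bound on the group.
-/

set_option autoImplicit false

namespace Pool.Agent.NTW

open Finset

/-- **BLM**.  If `j ≥ card U` take one element of the support.  If `j < card U` there are two elements of the support which are not equivalent
(otherwise they all have the same cardinality and the same value, and `mob f U ≠ 0`). -/
def S_BLM : Prop :=
  ∀ (α : Type) [DecidableEq α] (U : Finset α) (E : Finset α → Finset α → Prop) (M : ℕ),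
    U.card ≤ M → Equivalence E → (∀ X X', E X X' → X.card = X'.card) → BlockOK U E M

theorem t_BLM : S_BLM := by
  classical
  intro α _ U E M hUM hE hcard f j hinv hdeg hne
  obtain ⟨X₀, hX₀, hf₀⟩ := hne
  by_cases hj : U.card ≤ j
  · refine ⟨{X₀}, ?_, ?_, ?_⟩
    · intro X hX
      rw [mem_singleton] at hX
      subst hX
      exact ⟨hX₀, hf₀⟩
    · intro X hX X' hX' _
      rw [mem_singleton] at hX hX'
      rw [hX, hX']
    · rw [Nat.sub_eq_zero_of_le hj, card_singleton, one_pow, pow_zero]
  · push Not at hj
    by_cases hall : ∀ X ⊆ U, f X ≠ 0 → E X₀ X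
    · exfalso
      have h0 : mob f U = 0 := hdeg U (Subset.refl U) hj
      have h1 : mob f U =
          ((U.powerset.filter fun X => f X ≠ 0).card : ℚ) * ((-1) ^ X₀.card * f X₀) := by
        unfold mob
        rw [← Finset.sum_filter_add_sum_filter_not U.powerset (fun X => f X ≠ 0)]
        have h2 : ∑ X ∈ U.powerset with ¬ f X ≠ 0, (-1 : ℚ) ^ X.card * f X = 0 := by
          refine Finset.sum_eq_zero fun X hX => ?_
          have := (mem_filter.1 hX).2
          push Not at this
          rw [this, mul_zero]
        rw [h2, add_zero, ← nsmul_eq_mul, ← Finset.sum_const]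
        refine Finset.sum_congr rfl fun X hX => ?_
        obtain ⟨hXU, hfX⟩ := mem_filter.1 hX
        rw [mem_powerset] at hXU
        have h3 := hall X hXU hfX
        rw [← hcard X₀ X h3, ← hinv X₀ hX₀ X hXU h3]
      rw [h1] at h0
      rcases mul_eq_zero.1 h0 with h4 | h4
      · have h5 : X₀ ∈ U.powerset.filter fun X => f X ≠ 0 :=
          mem_filter.2 ⟨mem_powerset.2 hX₀, hf₀⟩
        have h6 := Finset.card_pos.2 ⟨X₀, h5⟩
        have h7 : (U.powerset.filter fun X => f X ≠ 0).card = 0 := by exact_mod_cast h4
        omega
      · rcases mul_eq_zero.1 h4 with h5 | h5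
        · exact absurd h5 (pow_ne_zero _ (by norm_num))
        · exact hf₀ h5
    · push Not at hall
      obtain ⟨X₁, hX₁, hf₁, hE1⟩ := hall
      have hne' : X₀ ≠ X₁ := fun h => hE1 (h ▸ hE.refl X₀)
      refine ⟨{X₀, X₁}, ?_, ?_, ?_⟩
      · intro X hX
        rw [mem_insert, mem_singleton] at hX
        rcases hX with rfl | rfl
        · exact ⟨hX₀, hf₀⟩
        · exact ⟨hX₁, hf₁⟩
      · intro X hX X' hX' hXX'
        rw [mem_insert, mem_singleton] at hX hX'
        rcases hX with rfl | rfl <;> rcases hX' with rfl | rfl
        · rfl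
        · exact absurd hXX' hE1
        · exact absurd (hE.symm hXX') hE1
        · rfl
      · rw [card_pair hne']
        exact Nat.pow_le_pow_right (by norm_num) (by omega)

end Pool.Agent.NTW
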