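import Mathlib
import Pool.Agent.NTW.St4

/-!
# MP_e73337_co, version 3: module BLS (helper78)
-/

set_option autoImplicit false

namespace Pool.Agent.NTW

open Finset

theorem t_BLS (hONE : S_ONE) : S_BLS := by
  intro α _ U E m M hm hmM hE hcard hn f j hinv hdeg hne
  obtain ⟨𝒯, h1, h2, h3⟩ := hONE α U j m f E hm hE hcard hn hinv hdeg hne
  refine ⟨𝒯, h1, h2, h3.trans ?_⟩
  have h4 : 1 ≤ 𝒯.card := by
    by_contra h0
    have h5 : 𝒯.card = 0 := by omega
    rw [h5, Nat.zero_pow (by omega)] at h3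
    have : 0 < 2 ^ (U.card - j) := by positivity
    omega
  exact Nat.pow_le_pow_right h4 hmM

end Pool.Agent.NTW
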