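import Pool.Agent.NTW.St6

set_option autoImplicit false

namespace Pool.Agent.NTW

open Finset Pool.Agent.Lib_helper61.SwitchBasic

theorem comp_reach {α : Type} (Γ : SimpleGraph α) (c : α → ℕ)
    (h : ∀ x y, c x ≠ c y → ¬ Γ.Adj x y) {x y : α} (hxy : Γ.Reachable x y) : c x = c y := by
  obtain ⟨w⟩ := hxy
  induction w with
  | nil => rfl
  | cons hadj _ ih =>
    refine Eq.trans ?_ ih
    by_contra hne
    exact h _ _ hne hadj

theorem t_COMP : S_COMP := by
  intro α _ _ Γ c h h3 hhalf
  let f : Γ.ConnectedComponent → ℕ :=
    SimpleGraph.ConnectedComponent.lift c (fun v w p _ => comp_reach Γ c h ⟨p⟩)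
  have hf : ∀ v, f (Γ.connectedComponentMk v) = c v := fun v => rfl
  have hfin : Finite Γ.ConnectedComponent :=
    Finite.of_surjective Γ.connectedComponentMk (fun C => by
      induction C using SimpleGraph.ConnectedComponent.ind with
      | h v => exact ⟨v, rfl⟩)
  constructor
  · refine h3.trans ?_
    have := Fintype.ofFinite Γ.ConnectedComponent
    rw [Nat.card_eq_fintype_card]
    have hsub : univ.image c ⊆ (univ : Finset Γ.ConnectedComponent).image f := by
      intro i hi
      obtain ⟨v, -, rfl⟩ := mem_image.1 hi
      exact mem_image.2 ⟨Γ.connectedComponentMk v, mem_univ _, hf v⟩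
    calc (univ.image c).card ≤ ((univ : Finset Γ.ConnectedComponent).image f).card :=
          card_le_card hsub
      _ ≤ (univ : Finset Γ.ConnectedComponent).card := card_image_le
      _ = Fintype.card Γ.ConnectedComponent := rfl
  · intro C
    induction C using SimpleGraph.ConnectedComponent.ind with
    | h v =>
      refine le_trans (Nat.mul_le_mul_left 2 ?_) (hhalf (c v))
      rw [← Set.ncard_coe_finset]
      apply Set.ncard_le_ncard _ (Finset.finite_toSet _)
      intro x hx
      have hx' : Γ.connectedComponentMk x = Γ.connectedComponentMk v := hx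
      have hr : Γ.Reachable x v := SimpleGraph.ConnectedComponent.exact hx'
      have hc := comp_reach Γ c h hr
      simp [Fin5.part, hc]

end Pool.Agent.NTW
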