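import Mathlib
import Pool.Agent.NTW.St2

/-!
Module ESZ2 of the project NTW (helper64): class sizes, second version.
-/

set_option autoImplicit false

namespace Pool.Agent.NTW

open Finset

theorem t_ESZ2 : S_ESZ2 := by
  intro α _ _ G R t Z X ht hZ hX
  classical
  have hO : ∀ τ ∈ FG G R, ∀ z, τ z ∈ Z ↔ z ∈ Z := by
    intro τ hτ z
    constructor
    · intro h
      have h2 := hZ τ⁻¹ ((FG G R).inv_mem hτ) (τ z) h
      simpa using h2
    · intro h
      exact hZ τ hτ z h
  let S : Set (Finset α) := {X' | ∃ τ ∈ FG G R, X' = X.map τ.toEmbedding}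
  have hc : ∀ s : S, ∃ τ : Equiv.Perm α, τ ∈ FG G R ∧ (s : Finset α) = X.map τ.toEmbedding := by
    intro s
    obtain ⟨τ, h1, h2⟩ := s.2
    exact ⟨τ, h1, h2⟩
  choose T hT hT' using hc
  let φ : S → Equiv.Perm {z // z ∈ Z} := fun s =>
    (T s).subtypePerm (fun z => hO (T s) (hT s) z)
  have hinj : Function.Injective φ := by
    intro s s' h
    apply Subtype.ext
    rw [hT' s, hT' s']
    have hz : ∀ z ∈ Z, T s z = T s' z := by
      intro z hz
      have h2 := congrArg (fun e : Equiv.Perm {z // z ∈ Z} => ((e ⟨z, hz⟩ : {z // z ∈ Z}) : α)) h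
      exact h2
    have hfix := hX ((T s')⁻¹ * T s) ((FG G R).mul_mem ((FG G R).inv_mem (hT s')) (hT s))
      (fun z hz' => by
        rw [Equiv.Perm.mul_apply, hz z hz']
        simp)
    rw [Finset.map_eq_image, Finset.map_eq_image]
    apply Finset.image_congr
    intro x hx
    have h3 := hfix x (by simpa using hx)
    rw [Equiv.Perm.mul_apply, Equiv.Perm.inv_eq_iff_eq] at h3
    exact h3
  have h1 : Nat.card S ≤ Nat.card (Equiv.Perm {z // z ∈ Z}) :=
    Nat.card_le_card_of_injective φ hinj
  rw [Nat.card_perm] at h1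
  have h2 : (Nat.card {z // z ∈ Z}).factorial ≤ t.factorial := by
    apply Nat.factorial_le
    simpa using ht
  exact h1.trans h2

end Pool.Agent.NTW
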