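import Pool.Agent.NTW.St2
import Pool.Agent.NTW.MGRP

/-!
# MP_e73337_co, small modules: module GRP2 (helper14)
-/

set_option autoImplicit false

namespace Pool.Agent.NTW

open Finset

namespace GRP2

open GRP

variable {α : Type}

theorem step [Finite α] {G : SimpleGraph α} {R : Finset α}
    {τ : Equiv.Perm α} (hτ : τ ∈ FG G R) {u v : α} (hcard : (orb G R v).ncard ≤ 3)
    (h : ∃ σ ∈ FG G R, ∃ σ' ∈ FG G R, ¬ (G.Adj (σ u) (σ' v) ↔ G.Adj u v))
    (hu : ∀ z ∈ orb G R u, τ z = z) : ∀ z ∈ orb G R v, τ z = z := by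
  obtain ⟨σ, hσ, σ', hσ', hn⟩ := h
  have hρ : σ⁻¹ * σ' ∈ FG G R := (FG G R).mul_mem ((FG G R).inv_mem hσ) hσ'
  have hρn : ¬ (G.Adj u v ↔ G.Adj u ((σ⁻¹ * σ') v)) := by
    intro h1
    apply hn
    rw [h1, ← adj hσ u ((σ⁻¹ * σ') v)]
    simp
  have hρO : (σ⁻¹ * σ') v ∈ orb G R v := ⟨_, hρ, rfl⟩
  obtain ⟨w, hw, huniq⟩ := single (orb G R v) hcard (fun z => G.Adj u z) v ((σ⁻¹ * σ') v)
    (self_mem G R v) hρO hρn
  intro z hz
  obtain ⟨κ, hκ, hκw⟩ := orb_trans hz hw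
  have h2 : τ (κ u) = κ u := hu _ ⟨κ, hκ, rfl⟩
  have h3 : κ⁻¹ (τ z) ∈ orb G R v := orb_map (orb_map hz hτ) ((FG G R).inv_mem hκ)
  have h4 : G.Adj u (κ⁻¹ (τ z)) ↔ G.Adj u w := by
    have h5 : G.Adj u (κ⁻¹ (τ z)) ↔ G.Adj (κ u) (τ z) := by
      rw [← adj hκ u (κ⁻¹ (τ z))]
      simp
    have h6 : G.Adj (κ u) (τ z) ↔ G.Adj (κ u) z := by
      rw [← adj hτ (κ u) z, h2]
    have h7 : G.Adj (κ u) z ↔ G.Adj u w := by
      rw [← hκw, adj hκ]
    exact h5.trans (h6.trans h7)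
  have h8 := huniq _ h3 h4
  rw [Equiv.Perm.inv_eq_iff_eq] at h8
  rw [h8, hκw]

theorem swap {G : SimpleGraph α} {R : Finset α} {u v : α}
    (h : ∃ σ ∈ FG G R, ∃ σ' ∈ FG G R, ¬ (G.Adj (σ u) (σ' v) ↔ G.Adj u v)) :
    ∃ σ ∈ FG G R, ∃ σ' ∈ FG G R, ¬ (G.Adj (σ v) (σ' u) ↔ G.Adj v u) := by
  obtain ⟨σ, hσ, σ', hσ', hn⟩ := h
  refine ⟨σ', hσ', σ, hσ, ?_⟩
  rw [G.adj_comm (σ' v), G.adj_comm v]
  exact hn

theorem gen_iff [Finite α] {G : SimpleGraph α} {R : Finset α} {τ : Equiv.Perm α}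
    (hτ : τ ∈ FG G R) {u v : α} (h : Relation.EqvGen (r G R) u v) :
    (∀ w, Relation.EqvGen (r G R) u w → (orb G R w).ncard ≤ 3) →
    ((∀ z ∈ orb G R u, τ z = z) ↔ ∀ z ∈ orb G R v, τ z = z) := by
  induction h with
  | rel u v h =>
    intro hw
    rcases h with h | h
    · have h1 : orb G R v = orb G R u := orb_eq h
      rw [h1]
    · exact ⟨step hτ (hw v (.rel _ _ (Or.inr h))) h, step hτ (hw u (.refl _)) (swap h)⟩
  | refl u => exact fun _ => Iff.rfl
  | symm u v h ih => exact fun hw => (ih fun w h' => hw w (.trans _ _ _ (.symm _ _ h) h')).symm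
  | trans u v w h h' ih1 ih2 =>
    exact fun hw => (ih1 hw).trans (ih2 fun x hx => hw x (.trans _ _ _ h hx))

theorem mod_step {G : SimpleGraph α} {R : Finset α} {C : Finset α}
    (hC : ∀ τ ∈ FG G R, ∀ z ∈ C, τ z ∈ C → ∀ x, x ∉ C → (G.Adj x z ↔ G.Adj x (τ z)))
    {u v : α} (h : ∃ σ ∈ FG G R, ∃ σ' ∈ FG G R, ¬ (G.Adj (σ u) (σ' v) ↔ G.Adj u v))
    (hu : orb G R u ⊆ (C : Set α)) : orb G R v ⊆ (C : Set α) := by
  by_contra hcon
  obtain ⟨x, hx, hxC⟩ := Set.not_subset.1 hcon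
  have hxC' : x ∉ C := fun h' => hxC h'
  -- no vertex of the orbit of `v` separates the orbit of `u`
  have h1 : ∀ z ∈ orb G R u, ∀ z' ∈ orb G R u, (G.Adj x z ↔ G.Adj x z') := by
    intro z hz z' hz'
    obtain ⟨κ, hκ, rfl⟩ := orb_trans hz' hz
    exact hC κ hκ z (hu hz) (hu hz') x hxC'
  have h2 : ∀ v' ∈ orb G R v, ∀ z ∈ orb G R u, ∀ z' ∈ orb G R u,
      (G.Adj v' z ↔ G.Adj v' z') := by
    intro v' hv' z hz z' hz'
    obtain ⟨κ, hκ, hκx⟩ := orb_trans hx hv'
    have h3 := h1 (κ z) (orb_map hz hκ) (κ z') (orb_map hz' hκ)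
    rw [← hκx, adj hκ, adj hκ] at h3
    exact h3
  obtain ⟨σ, hσ, σ', hσ', hn⟩ := h
  apply hn
  have h4 : G.Adj (σ u) (σ' v) ↔ G.Adj (σ' u) (σ' v) := by
    rw [G.adj_comm (σ u), G.adj_comm (σ' u)]
    exact h2 _ ⟨σ', hσ', rfl⟩ _ ⟨σ, hσ, rfl⟩ _ ⟨σ', hσ', rfl⟩
  rw [h4, adj hσ']

theorem mod_gen {G : SimpleGraph α} {R : Finset α} {C : Finset α}
    (hC : ∀ τ ∈ FG G R, ∀ z ∈ C, τ z ∈ C → ∀ x, x ∉ C → (G.Adj x z ↔ G.Adj x (τ z)))
    {u v : α} (h : Relation.EqvGen (r G R) u v) :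
    orb G R u ⊆ (C : Set α) ↔ orb G R v ⊆ (C : Set α) := by
  induction h with
  | rel u v h =>
    rcases h with h | h
    · have h1 : orb G R v = orb G R u := orb_eq h
      rw [h1]
    · exact ⟨mod_step hC h, mod_step hC (swap h)⟩
  | refl u => exact Iff.rfl
  | symm u v _ ih => exact ih.symm
  | trans u v w _ _ ih1 ih2 => exact ih1.trans ih2

end GRP2

open GRP in
theorem t_GRP2 : S_GRP2 := by
  classical
  intro α _ _ G R t ht H
  set s : Setoid α := Relation.EqvGen.setoid (r G R) with hs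
  set lab : α → α := fun x => (Quotient.mk s x).out with hlab
  have hl : ∀ x y, lab x = lab y ↔ Relation.EqvGen (r G R) x y := by
    intro x y
    rw [hlab]
    show (Quotient.mk s x).out = (Quotient.mk s y).out ↔ _
    rw [Quotient.out_inj, Quotient.eq]
    rfl
  have hlr : ∀ x y, r G R x y → lab x = lab y := fun x y h => (hl x y).2 (.rel _ _ h)
  have h1 : ∀ τ ∈ FG G R, ∀ x, lab (τ x) = lab x := fun τ hτ x =>
    (hlr x (τ x) (Or.inl ⟨τ, hτ, rfl⟩)).symm
  refine ⟨lab, h1, ?_, ?_⟩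
  · intro i τ hτ
    have hτi : τ⁻¹ ∈ FG G R := (FG G R).inv_mem hτ
    let τ' : Equiv.Perm α :=
      { toFun := fun x => if lab x = i then τ x else x
        invFun := fun x => if lab x = i then τ⁻¹ x else x
        left_inv := by
          intro x
          by_cases hx : lab x = i
          · simp [hx, h1 τ hτ]
          · simp [hx]
        right_inv := by
          intro x
          by_cases hx : lab x = i
          · have h9 : lab (τ⁻¹ x) = i := (h1 _ hτi x).trans hx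
            show (if lab (if lab x = i then τ⁻¹ x else x) = i then
              τ (if lab x = i then τ⁻¹ x else x) else (if lab x = i then τ⁻¹ x else x)) = x
            rw [if_pos hx, if_pos h9]
            exact Equiv.apply_symm_apply τ x
          · simp [hx] }
    have hval : ∀ x, τ' x = if lab x = i then τ x else x := fun x => rfl
    have hcross : ∀ u v, lab u = i → lab v ≠ i → (G.Adj (τ u) v ↔ G.Adj u v) := by
      intro u v hu hv
      by_contra hcon
      exact hv ((hlr u v (Or.inr ⟨τ, hτ, 1, (FG G R).one_mem, hcon⟩)).symm.trans hu)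
    refine ⟨τ', ⟨?_, ?_⟩, hval⟩
    · intro x hx
      rw [hval]
      split_ifs
      · exact fix hτ x hx
      · rfl
    · intro u v
      rw [hval, hval]
      split_ifs with hu hv hv
      · exact adj hτ u v
      · exact hcross u v hu hv
      · rw [G.adj_comm, hcross v u hv hu, G.adj_comm]
      · exact Iff.rfl
  · intro i
    by_cases hA : ∃ y, lab y = i ∧ ∃ C : Finset α, C.card ≤ t ∧ orb G R y ⊆ (C : Set α) ∧
        ∀ τ ∈ FG G R, ∀ z ∈ C, τ z ∈ C → ∀ x, x ∉ C → (G.Adj x z ↔ G.Adj x (τ z))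
    · obtain ⟨y, hy, C, hCt, hyC, hC⟩ := hA
      refine ⟨univ.filter fun x => lab x = i, ?_, ?_, ?_⟩
      · refine (card_le_card ?_).trans hCt
        intro x hx
        rw [mem_filter] at hx
        have h2 : Relation.EqvGen (r G R) y x := (hl y x).1 (hy.trans hx.2.symm)
        exact (GRP2.mod_gen hC h2).1 hyC (self_mem G R x)
      · intro τ hτ z hz
        rw [mem_filter] at hz ⊢
        exact ⟨mem_univ _, (h1 τ hτ z).trans hz.2⟩
      · intro τ _ hfix x hx
        exact hfix x (mem_filter.2 ⟨mem_univ _, hx⟩)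
    · by_cases hi : ∃ y, lab y = i
      · obtain ⟨y, hy⟩ := hi
        have hcl : ∀ w, Relation.EqvGen (r G R) y w → (orb G R w).ncard ≤ 3 := by
          intro w hw
          rcases H w with h3 | h3
          · exact h3
          · exact absurd ⟨w, ((hl y w).2 hw).symm.trans hy, h3⟩ hA
        refine ⟨(Set.toFinite (orb G R y)).toFinset, ?_, ?_, ?_⟩
        · rw [← Set.ncard_eq_toFinset_card]
          exact (hcl y (.refl _)).trans ht
        · intro τ hτ z hz
          rw [Set.Finite.mem_toFinset] at hz ⊢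
          exact orb_map hz hτ
        · intro τ hτ hfix x hx
          have h2 : Relation.EqvGen (r G R) y x := (hl y x).1 (hy.trans hx.symm)
          refine (GRP2.gen_iff hτ h2 hcl).1 ?_ x (self_mem G R x)
          intro z hz
          exact hfix z ((Set.Finite.mem_toFinset _).2 hz)
      · exact ⟨∅, by simp, by simp, fun τ _ _ x hx => absurd ⟨x, hx⟩ hi⟩

end Pool.Agent.NTW
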