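import Pool.Agent.NTW.St4
import Pool.Agent.NTW.MGRP2

/-!
# MP_e73337_co, large twin classes: module GRP3 (helper77)
-/

set_option autoImplicit false

namespace Pool.Agent.NTW

open Finset

namespace GRP3

open GRP

variable {α : Type}

/-- the third alternative of GRP3: all vertices of the orbit of `y` are twins of `y` -/
def Tw (G : SimpleGraph α) (R : Finset α) (y : α) : Prop :=
  ∀ τ ∈ FG G R, ∀ x, x ≠ y → x ≠ τ y → (G.Adj x y ↔ G.Adj x (τ y))

theorem tw_orb {G : SimpleGraph α} {R : Finset α} {y u : α} (h : Tw G R y)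
    (hu : u ∈ orb G R y) : Tw G R u := by
  obtain ⟨κ, hκ, rfl⟩ := hu
  intro τ hτ x hx hx'
  have hκi := (FG G R).inv_mem hκ
  have h1 := h (κ⁻¹ * τ * κ) ((FG G R).mul_mem ((FG G R).mul_mem hκi hτ) hκ) (κ⁻¹ x)
    (by
      intro h2
      apply hx
      rw [← h2]
      simp)
    (by
      intro h2
      apply hx'
      have h3 : κ (κ⁻¹ x) = κ ((κ⁻¹ * τ * κ) y) := by rw [h2]
      simpa using h3)
  rw [← adj hκ (κ⁻¹ x) y, ← adj hκ (κ⁻¹ x) ((κ⁻¹ * τ * κ) y)] at h1
  simpa using h1

theorem orb_inv {G : SimpleGraph α} {R : Finset α} {y z : α} {τ : Equiv.Perm α}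
    (h : τ ∈ FG G R) (hz : τ z ∈ orb G R y) : z ∈ orb G R y := by
  have h1 := orb_map hz ((FG G R).inv_mem h)
  simpa using h1

theorem tw_step {G : SimpleGraph α} {R : Finset α} {y : α} (H : Tw G R y) {u v : α}
    (h : ∃ σ ∈ FG G R, ∃ σ' ∈ FG G R, ¬ (G.Adj (σ u) (σ' v) ↔ G.Adj u v))
    (hu : u ∈ orb G R y) : v ∈ orb G R y := by
  by_contra hv
  obtain ⟨σ, hσ, σ', hσ', hn⟩ := h
  have hρ : σ'⁻¹ * σ ∈ FG G R := (FG G R).mul_mem ((FG G R).inv_mem hσ') hσ
  apply hn
  have h1 : G.Adj (σ u) (σ' v) ↔ G.Adj ((σ'⁻¹ * σ) u) v := by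
    rw [← adj hσ' ((σ'⁻¹ * σ) u) v]
    simp
  have h2 := tw_orb H hu (σ'⁻¹ * σ) hρ v (fun h => hv (h ▸ hu))
    (fun h => hv (h ▸ orb_map hu hρ))
  rw [h1, G.adj_comm _ v, ← h2, G.adj_comm]

theorem tw_gen {G : SimpleGraph α} {R : Finset α} {y : α} (H : Tw G R y) {u v : α}
    (h : Relation.EqvGen (r G R) u v) : u ∈ orb G R y ↔ v ∈ orb G R y := by
  induction h with
  | rel u v h =>
    rcases h with h | h
    · obtain ⟨τ, hτ, rfl⟩ := h
      exact ⟨fun h1 => orb_map h1 hτ, fun h1 => orb_inv hτ h1⟩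
    · exact ⟨tw_step H h, tw_step H (GRP2.swap h)⟩
  | refl u => exact Iff.rfl
  | symm u v _ ih => exact ih.symm
  | trans u v w _ _ ih1 ih2 => exact ih1.trans ih2

theorem tw_perm {G : SimpleGraph α} {R : Finset α} {y : α} (H : Tw G R y)
    (π : Equiv.Perm α) (hπ : ∀ z, z ∉ orb G R y → π z = z) : π ∈ FG G R := by
  have hin : ∀ z, z ∈ orb G R y → π z ∈ orb G R y := by
    intro z hz
    by_contra hcon
    have h1 := π.injective (hπ _ hcon)
    exact hcon (by rw [h1]; exact hz)
  refine ⟨?_, ?_⟩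
  · intro x hx
    by_cases hxO : x ∈ orb G R y
    · obtain ⟨τ, hτ, h1⟩ := orb_trans (hin x hxO) hxO
      rw [← h1]
      exact fix hτ x hx
    · exact hπ x hxO
  · intro u v
    by_cases hu : u ∈ orb G R y
    · by_cases hv : v ∈ orb G R y
      · obtain ⟨τ, hτ, h1⟩ := orb_trans (hin u hu) hu
        obtain ⟨τ', hτ', h2⟩ := orb_trans (hin v hv) hv
        by_cases huv : u = v
        · subst huv
          simp
        · have hab : π u ≠ π v := fun h => huv (π.injective h)
          by_cases hbu : π v = u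
          · obtain ⟨κ, hκ, h3⟩ := orb_trans (hin u hu) hv
            have h4 := tw_orb H hv κ hκ u huv (by rw [h3]; exact fun h => hab (by rw [← h, hbu]))
            rw [h3] at h4
            rw [hbu, h4, G.adj_comm]
          · have h3 := tw_orb H hv τ' hτ' u huv (by rw [h2]; exact fun h => hbu h.symm)
            have h4 := tw_orb H hu τ hτ (π v) hbu (by rw [h1]; exact fun h => hab h.symm)
            rw [h2] at h3
            rw [h1] at h4
            rw [h3, G.adj_comm u, h4, G.adj_comm]
      · obtain ⟨τ, hτ, h1⟩ := orb_trans (hin u hu) hu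
        have h2 := tw_orb H hu τ hτ v (fun h => hv (h ▸ hu))
          (fun h => hv (by rw [h, h1]; exact hin u hu))
        rw [h1] at h2
        rw [hπ v hv, G.adj_comm, ← h2, G.adj_comm]
    · by_cases hv : v ∈ orb G R y
      · obtain ⟨τ, hτ, h1⟩ := orb_trans (hin v hv) hv
        have h2 := tw_orb H hv τ hτ u (fun h => hu (h ▸ hv))
          (fun h => hu (by rw [h, h1]; exact hin v hv))
        rw [h1] at h2
        rw [hπ u hu, ← h2]
      · rw [hπ u hu, hπ v hv]

theorem ex_perm [Finite α] [DecidableEq α] (O : Set α) (X X' : Finset α) (hX : ∀ x ∈ X, x ∈ O)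
    (hX' : ∀ x ∈ X', x ∈ O) (hc : X.card = X'.card) :
    ∃ π : Equiv.Perm α, (∀ z, z ∉ O → π z = z) ∧ X' = X.map π.toEmbedding := by
  classical
  have : Fintype α := Fintype.ofFinite α
  have hcard : ∀ Y : Finset α, (∀ x ∈ Y, x ∈ O) →
      Fintype.card {z : {x // x ∈ O} // z.1 ∈ Y} = Y.card := by
    intro Y hY
    rw [← Fintype.card_coe Y]
    exact Fintype.card_congr
      { toFun := fun z => ⟨z.1.1, z.2⟩
        invFun := fun z => ⟨⟨z.1, hY z.1 z.2⟩, z.2⟩
        left_inv := fun z => rfl
        right_inv := fun z => rfl }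
  let e : {z : {x // x ∈ O} // z.1 ∈ X} ≃ {z : {x // x ∈ O} // z.1 ∈ X'} :=
    Fintype.equivOfCardEq (by rw [hcard X hX, hcard X' hX', hc])
  let π : Equiv.Perm α := Equiv.Perm.ofSubtype e.extendSubtype
  refine ⟨π, fun z hz => Equiv.Perm.ofSubtype_apply_of_not_mem _ hz, ?_⟩
  symm
  refine Finset.eq_of_subset_of_card_le ?_ (by rw [card_map, hc])
  intro x hx
  rw [mem_map] at hx
  obtain ⟨z, hz, rfl⟩ := hx
  show π z ∈ X'
  have h1 : π z = (e.extendSubtype ⟨z, hX z hz⟩ : {x // x ∈ O}).1 :=
    Equiv.Perm.ofSubtype_apply_of_mem _ (hX z hz)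
  rw [h1]
  exact e.extendSubtype_mem ⟨z, hX z hz⟩ hz

end GRP3

open GRP in
theorem t_GRP3 : S_GRP3 := by
  classical
  intro α _ _ G R A B hA3 hdown H
  set s : Setoid α := Relation.EqvGen.setoid (r G R) with hs
  set lab : α → α := fun x => (Quotient.mk s x).out with hlab
  have hl : ∀ x y, lab x = lab y ↔ Relation.EqvGen (r G R) x y := by
    intro x y
    rw [hlab]
    show (Quotient.mk s x).out = (Quotient.mk s y).out ↔ _
    rw [Quotient.out_inj, Quotient.eq]
    rfl
  have hlr : ∀ x y, r G R x y → lab x = lab y := fun x y h => (hl x y).2 (.rel _ _ h)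
  have h1 : ∀ τ ∈ FG G R, ∀ x, lab (τ x) = lab x := fun τ hτ x =>
    (hlr x (τ x) (Or.inl ⟨τ, hτ, rfl⟩)).symm
  refine ⟨lab, h1, ?_, ?_⟩
  · intro i τ hτ
    have hτi : τ⁻¹ ∈ FG G R := (FG G R).inv_mem hτ
    let τ' : Equiv.Perm α :=
      { toFun := fun x => if lab x = i then τ x else x
        invFun := fun x => if lab x = i then τ⁻¹ x else x
        left_inv := by
          intro x
          by_cases hx : lab x = i
          · simp [hx, h1 τ hτ]
          · simp [hx]
        right_inv := by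
          intro x
          by_cases hx : lab x = i
          · have h9 : lab (τ⁻¹ x) = i := (h1 _ hτi x).trans hx
            show (if lab (if lab x = i then τ⁻¹ x else x) = i then
              τ (if lab x = i then τ⁻¹ x else x) else (if lab x = i then τ⁻¹ x else x)) = x
            rw [if_pos hx, if_pos h9]
            exact Equiv.apply_symm_apply τ x
          · simp [hx] }
    have hval : ∀ x, τ' x = if lab x = i then τ x else x := fun x => rfl
    have hcross : ∀ u v, lab u = i → lab v ≠ i → (G.Adj (τ u) v ↔ G.Adj u v) := by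
      intro u v hu hv
      by_contra hcon
      exact hv ((hlr u v (Or.inr ⟨τ, hτ, 1, (FG G R).one_mem, hcon⟩)).symm.trans hu)
    refine ⟨τ', ⟨?_, ?_⟩, hval⟩
    · intro x hx
      rw [hval]
      split_ifs
      · exact fix hτ x hx
      · rfl
    · intro u v
      rw [hval, hval]
      split_ifs with hu hv hv
      · exact adj hτ u v
      · exact hcross u v hu hv
      · rw [G.adj_comm, hcross v u hv hu, G.adj_comm]
      · exact Iff.rfl
  · intro i
    by_cases hT : ∃ y, lab y = i ∧ B (orb G R y).ncard ∧ GRP3.Tw G R y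
    · obtain ⟨y, hy, hB, hTw⟩ := hT
      have hblock : ∀ x, lab x = i ↔ x ∈ orb G R y := by
        intro x
        constructor
        · intro hx
          exact (GRP3.tw_gen hTw ((hl y x).1 (hy.trans hx.symm))).1 (self_mem G R y)
        · rintro ⟨τ, hτ, rfl⟩
          exact (h1 τ hτ y).trans hy
      right
      refine ⟨?_, ?_⟩
      · have h2 : ((univ.filter fun x => lab x = i : Finset α) : Set α) = orb G R y := by
          ext x
          rw [coe_filter, ← hblock x]
          simp
        rw [← Set.ncard_coe_finset, h2]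
        exact hB
      · intro X X' hX hX' hc
        obtain ⟨π, hπ, hXX⟩ := GRP3.ex_perm (orb G R y) X X' (fun x hx => (hblock x).1 (hX x hx))
          (fun x hx => (hblock x).1 (hX' x hx)) hc
        exact ⟨π, GRP3.tw_perm hTw π hπ, hXX⟩
    · left
      by_cases hA : ∃ y, lab y = i ∧ ∃ C : Finset α, A C.card ∧ orb G R y ⊆ (C : Set α) ∧
          ∀ τ ∈ FG G R, ∀ z ∈ C, τ z ∈ C → ∀ x, x ∉ C → (G.Adj x z ↔ G.Adj x (τ z))
      · obtain ⟨y, hy, C, hCt, hyC, hC⟩ := hA
        refine ⟨univ.filter fun x => lab x = i, ?_, ?_, ?_⟩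
        · refine hdown _ _ (card_le_card ?_) hCt
          intro x hx
          rw [mem_filter] at hx
          have h2 : Relation.EqvGen (r G R) y x := (hl y x).1 (hy.trans hx.2.symm)
          exact (GRP2.mod_gen hC h2).1 hyC (self_mem G R x)
        · intro τ hτ z hz
          rw [mem_filter] at hz ⊢
          exact ⟨mem_univ _, (h1 τ hτ z).trans hz.2⟩
        · intro τ _ hfix x hx
          exact hfix x (mem_filter.2 ⟨mem_univ _, hx⟩)
      · by_cases hi : ∃ y, lab y = i
        · obtain ⟨y, hy⟩ := hi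
          have hcl : ∀ w, Relation.EqvGen (r G R) y w → (orb G R w).ncard ≤ 3 := by
            intro w hw
            have hwi : lab w = i := ((hl y w).2 hw).symm.trans hy
            rcases H w with h3 | h3 | h3
            · exact h3
            · exact absurd ⟨w, hwi, h3⟩ hA
            · exact absurd ⟨w, hwi, h3.1, h3.2⟩ hT
          refine ⟨(Set.toFinite (orb G R y)).toFinset, ?_, ?_, ?_⟩
          · rw [← Set.ncard_eq_toFinset_card]
            exact hdown _ _ (hcl y (.refl _)) hA3
          · intro τ hτ z hz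
            rw [Set.Finite.mem_toFinset] at hz ⊢
            exact orb_map hz hτ
          · intro τ hτ hfix x hx
            have h2 : Relation.EqvGen (r G R) y x := (hl y x).1 (hy.trans hx.symm)
            refine (GRP2.gen_iff hτ h2 hcl).1 ?_ x (self_mem G R x)
            intro z hz
            exact hfix z ((Set.Finite.mem_toFinset _).2 hz)
        · exact ⟨∅, hdown _ _ (by simp) hA3, by simp, fun τ _ _ x hx => absurd ⟨x, hx⟩ hi⟩

end Pool.Agent.NTW
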