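import Pool.Agent.NTW.MGRP3

/-!
# MP_e73337_co, large modules and large twin classes: module GRP4 (helper77)

As GRP3, with the two cases of the first alternative of the conclusion kept apart: for every label `i` the
block has size in `A`, or at most three vertices determine the action on the block, or the block is a twin class.
-/

set_option autoImplicit false

namespace Pool.Agent.NTW

open Finset

/-- **GRP4**.  As GRP3; conclusion: for every label `i`, (α) `A` holds for the size of the block, or (β) an
invariant set of at most three vertices determines the action on the block, or (γ) `B` holds for the size of the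
block and all subsets of the block of equal size are equivalent. -/
def S_GRP4 : Prop :=
  ∀ (α : Type) [Fintype α] [DecidableEq α] (G : SimpleGraph α) (R : Finset α) (A B : ℕ → Prop),
    (∀ a b : ℕ, a ≤ b → A b → A a) →
    (∀ y : α, (orb G R y).ncard ≤ 3 ∨
      (∃ C : Finset α, A C.card ∧ orb G R y ⊆ (C : Set α) ∧
        ∀ τ ∈ FG G R, ∀ z ∈ C, τ z ∈ C → ∀ x, x ∉ C → (G.Adj x z ↔ G.Adj x (τ z))) ∨
      (B (orb G R y).ncard ∧
        ∀ τ ∈ FG G R, ∀ x, x ≠ y → x ≠ τ y → (G.Adj x y ↔ G.Adj x (τ y)))) →
    ∃ lab : α → α, (∀ τ ∈ FG G R, ∀ x, lab (τ x) = lab x) ∧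
      (∀ i : α, ∀ τ ∈ FG G R, ∃ τ' ∈ FG G R, ∀ x, τ' x = if lab x = i then τ x else x) ∧
      (∀ i : α, A (univ.filter fun x => lab x = i).card ∨
        (∃ Z : Finset α, Z.card ≤ 3 ∧ (∀ τ ∈ FG G R, ∀ z ∈ Z, τ z ∈ Z) ∧
          ∀ τ ∈ FG G R, (∀ z ∈ Z, τ z = z) → ∀ x, lab x = i → τ x = x) ∨
        (B (univ.filter fun x => lab x = i).card ∧
          ∀ X X' : Finset α, (∀ x ∈ X, lab x = i) → (∀ x ∈ X', lab x = i) → X.card = X'.card →
            ∃ τ ∈ FG G R, X' = X.map τ.toEmbedding))

open GRP in
theorem t_GRP4 : S_GRP4 := by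
  classical
  intro α _ _ G R A B hdown H
  set s : Setoid α := Relation.EqvGen.setoid (r G R) with hs
  set lab : α → α := fun x => (Quotient.mk s x).out with hlab
  have hl : ∀ x y, lab x = lab y ↔ Relation.EqvGen (r G R) x y := by
    intro x y
    rw [hlab]
    show (Quotient.mk s x).out = (Quotient.mk s y).out ↔ _
    rw [Quotient.out_inj, Quotient.eq]
    rfl
  have hlr : ∀ x y, r G R x y → lab x = lab y := fun x y h => (hl x y).2 (.rel _ _ h)
  have h1 : ∀ τ ∈ FG G R, ∀ x, lab (τ x) = lab x := fun τ hτ x =>
    (hlr x (τ x) (Or.inl ⟨τ, hτ, rfl⟩)).symm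
  refine ⟨lab, h1, ?_, ?_⟩
  · intro i τ hτ
    have hτi : τ⁻¹ ∈ FG G R := (FG G R).inv_mem hτ
    let τ' : Equiv.Perm α :=
      { toFun := fun x => if lab x = i then τ x else x
        invFun := fun x => if lab x = i then τ⁻¹ x else x
        left_inv := by
          intro x
          by_cases hx : lab x = i
          · simp [hx, h1 τ hτ]
          · simp [hx]
        right_inv := by
          intro x
          by_cases hx : lab x = i
          · have h9 : lab (τ⁻¹ x) = i := (h1 _ hτi x).trans hx
            show (if lab (if lab x = i then τ⁻¹ x else x) = i then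
              τ (if lab x = i then τ⁻¹ x else x) else (if lab x = i then τ⁻¹ x else x)) = x
            rw [if_pos hx, if_pos h9]
            exact Equiv.apply_symm_apply τ x
          · simp [hx] }
    have hval : ∀ x, τ' x = if lab x = i then τ x else x := fun x => rfl
    have hcross : ∀ u v, lab u = i → lab v ≠ i → (G.Adj (τ u) v ↔ G.Adj u v) := by
      intro u v hu hv
      by_contra hcon
      exact hv ((hlr u v (Or.inr ⟨τ, hτ, 1, (FG G R).one_mem, hcon⟩)).symm.trans hu)
    refine ⟨τ', ⟨?_, ?_⟩, hval⟩
    · intro x hx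
      rw [hval]
      split_ifs
      · exact fix hτ x hx
      · rfl
    · intro u v
      rw [hval, hval]
      split_ifs with hu hv hv
      · exact adj hτ u v
      · exact hcross u v hu hv
      · rw [G.adj_comm, hcross v u hv hu, G.adj_comm]
      · exact Iff.rfl
  · intro i
    by_cases hT : ∃ y, lab y = i ∧ B (orb G R y).ncard ∧ GRP3.Tw G R y
    · obtain ⟨y, hy, hB, hTw⟩ := hT
      have hblock : ∀ x, lab x = i ↔ x ∈ orb G R y := by
        intro x
        constructor
        · intro hx
          exact (GRP3.tw_gen hTw ((hl y x).1 (hy.trans hx.symm))).1 (self_mem G R y)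
        · rintro ⟨τ, hτ, rfl⟩
          exact (h1 τ hτ y).trans hy
      right
      right
      refine ⟨?_, ?_⟩
      · have h2 : ((univ.filter fun x => lab x = i : Finset α) : Set α) = orb G R y := by
          ext x
          rw [coe_filter, ← hblock x]
          simp
        rw [← Set.ncard_coe_finset, h2]
        exact hB
      · intro X X' hX hX' hc
        obtain ⟨π, hπ, hXX⟩ := GRP3.ex_perm (orb G R y) X X' (fun x hx => (hblock x).1 (hX x hx))
          (fun x hx => (hblock x).1 (hX' x hx)) hc
        exact ⟨π, GRP3.tw_perm hTw π hπ, hXX⟩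
    · by_cases hA : ∃ y, lab y = i ∧ ∃ C : Finset α, A C.card ∧ orb G R y ⊆ (C : Set α) ∧
          ∀ τ ∈ FG G R, ∀ z ∈ C, τ z ∈ C → ∀ x, x ∉ C → (G.Adj x z ↔ G.Adj x (τ z))
      · obtain ⟨y, hy, C, hCt, hyC, hC⟩ := hA
        left
        refine hdown _ _ (card_le_card ?_) hCt
        intro x hx
        rw [mem_filter] at hx
        have h2 : Relation.EqvGen (r G R) y x := (hl y x).1 (hy.trans hx.2.symm)
        exact (GRP2.mod_gen hC h2).1 hyC (self_mem G R x)
      · right
        left
        by_cases hi : ∃ y, lab y = i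
        · obtain ⟨y, hy⟩ := hi
          have hcl : ∀ w, Relation.EqvGen (r G R) y w → (orb G R w).ncard ≤ 3 := by
            intro w hw
            have hwi : lab w = i := ((hl y w).2 hw).symm.trans hy
            rcases H w with h3 | h3 | h3
            · exact h3
            · exact absurd ⟨w, hwi, h3⟩ hA
            · exact absurd ⟨w, hwi, h3.1, h3.2⟩ hT
          refine ⟨(Set.toFinite (orb G R y)).toFinset, ?_, ?_, ?_⟩
          · rw [← Set.ncard_eq_toFinset_card]
            exact hcl y (.refl _)
          · intro τ hτ z hz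
            rw [Set.Finite.mem_toFinset] at hz ⊢
            exact orb_map hz hτ
          · intro τ hτ hfix x hx
            have h2 : Relation.EqvGen (r G R) y x := (hl y x).1 (hy.trans hx.symm)
            refine (GRP2.gen_iff hτ h2 hcl).1 ?_ x (self_mem G R x)
            intro z hz
            exact hfix z ((Set.Finite.mem_toFinset _).2 hz)
        · exact ⟨∅, by simp, by simp, fun τ _ _ x hx => absurd ⟨x, hx⟩ hi⟩

end Pool.Agent.NTW
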