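import Pool.Agent.NTW.St8

/-!
# MP_e73337_co, module NTW_HALF1 (helper76, Dec 5)

`theorem t_HALF1 : S_HALF1`.
-/

set_option autoImplicit false

namespace Pool.Agent.NTW

open Finset

section half1

variable {α : Type} [Fintype α] [DecidableEq α]

theorem half1_in {U Y Z : Finset α} {i : α} (hi : i ∈ U) (hZ : Z ⊆ Uᶜ) :
    symmDiff (Y ∪ Z) {i} = symmDiff Y {i} ∪ Z := by
  have hiZ : i ∉ Z := fun h => (mem_compl.1 (hZ h)) hi
  ext x
  simp only [mem_symmDiff, mem_union, mem_singleton]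
  by_cases hx : x = i
  · subst hx
    tauto
  · tauto

theorem half1_out {U Y Z : Finset α} {i : α} (hi : i ∈ Uᶜ) (hY : Y ⊆ U) :
    symmDiff (Y ∪ Z) {i} = Y ∪ symmDiff Z {i} := by
  have hiY : i ∉ Y := fun h => (mem_compl.1 hi) (hY h)
  ext x
  simp only [mem_symmDiff, mem_union, mem_singleton]
  by_cases hx : x = i
  · subst hx
    tauto
  · tauto

theorem half1_sum {B : SimpleGraph α} {U : Finset α} {n : ℕ} {f : Finset α → ℚ}
    (H : Half B U n f) (Y : Finset α) (hY : Y ⊆ U) :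
    ∑ i ∈ U, ∑ Z ∈ Uᶜ.powerset, f (symmDiff Y {i} ∪ Z) =
      -(n * ∑ Z ∈ Uᶜ.powerset, f (Y ∪ Z)) := by
  have h0 : ∑ Z ∈ Uᶜ.powerset, ∑ i : α, f (symmDiff (Y ∪ Z) {i}) = 0 :=
    sum_eq_zero fun Z _ => H.sum _
  rw [sum_comm, ← sum_add_sum_compl U] at h0
  have h1 : ∑ i ∈ U, ∑ Z ∈ Uᶜ.powerset, f (symmDiff (Y ∪ Z) {i}) =
      ∑ i ∈ U, ∑ Z ∈ Uᶜ.powerset, f (symmDiff Y {i} ∪ Z) :=
    sum_congr rfl fun i hi => sum_congr rfl fun Z hZ => by
      rw [half1_in hi (mem_powerset.1 hZ)]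
  have h2 : ∑ i ∈ Uᶜ, ∑ Z ∈ Uᶜ.powerset, f (symmDiff (Y ∪ Z) {i}) =
      n * ∑ Z ∈ Uᶜ.powerset, f (Y ∪ Z) := by
    have h3 : ∀ i ∈ Uᶜ, ∑ Z ∈ Uᶜ.powerset, f (symmDiff (Y ∪ Z) {i}) =
        ∑ Z ∈ Uᶜ.powerset, f (Y ∪ Z) := by
      intro i hi
      have hmem : ∀ Z ∈ Uᶜ.powerset, symmDiff Z {i} ∈ Uᶜ.powerset := by
        intro Z hZ
        rw [mem_powerset] at hZ ⊢
        intro x hx
        rw [mem_symmDiff, mem_singleton] at hx
        rcases hx with ⟨hx, -⟩ | ⟨hx, -⟩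
        · exact hZ hx
        · rw [hx]; exact hi
      have hinv : ∀ Z : Finset α, symmDiff (symmDiff Z {i}) {i} = Z :=
        fun Z => symmDiff_symmDiff_cancel_right _ _
      refine sum_nbij' (fun Z => symmDiff Z {i}) (fun Z => symmDiff Z {i}) hmem hmem
        (fun Z _ => hinv Z) (fun Z _ => hinv Z) ?_
      intro Z _
      rw [half1_out hi hY]
    rw [sum_congr rfl h3, sum_const, H.cardW, nsmul_eq_mul]
  rw [h1, h2] at h0
  linarith

/-- If the absolute value of `F` is maximal at `Y`, then all neighbours have the value `- F Y`. -/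
theorem half1_step {U : Finset α} {n : ℕ} {F : Finset α → ℚ} (hn : U.card = n) {M : ℚ}
    {Y : Finset α}
    (hsum : ∑ i ∈ U, F (symmDiff Y {i}) = -(n * F Y))
    (hM : ∀ i ∈ U, |F (symmDiff Y {i})| ≤ M) (hY : |F Y| = M) :
    ∀ i ∈ U, |F (symmDiff Y {i})| = M := by
  have h1 : ∑ i ∈ U, (F (symmDiff Y {i}) + F Y) = 0 := by
    rw [sum_add_distrib, hsum, sum_const, hn, nsmul_eq_mul]
    ring
  have h2 : ∀ i ∈ U, F (symmDiff Y {i}) + F Y = 0 := by
    rcases le_total 0 (F Y) with h | h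
    · rw [abs_of_nonneg h] at hY
      rw [sum_eq_zero_iff_of_nonneg] at h1
      · exact h1
      · intro i hi
        have := (abs_le.1 (hM i hi)).1
        linarith
    · rw [abs_of_nonpos h] at hY
      rw [sum_eq_zero_iff_of_nonpos] at h1
      · exact h1
      · intro i hi
        have := (abs_le.1 (hM i hi)).2
        linarith
  intro i hi
  have h3 : F (symmDiff Y {i}) = - F Y := by
    have := h2 i hi
    linarith
  rw [h3, abs_neg, hY]

theorem half1_const {B : SimpleGraph α} {U : Finset α} {n : ℕ} {f : Finset α → ℚ}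
    (H : Half B U n f) :
    ∃ M : ℚ, ∀ Y ⊆ U, |∑ Z ∈ Uᶜ.powerset, f (Y ∪ Z)| = M := by
  set F : Finset α → ℚ := fun Y => ∑ Z ∈ Uᶜ.powerset, f (Y ∪ Z) with hF
  obtain ⟨Y0, hY0, hmax⟩ := exists_max_image U.powerset (fun Y => |F Y|)
    ⟨∅, empty_mem_powerset _⟩
  have hsub : ∀ Y ⊆ U, ∀ i ∈ U, symmDiff Y {i} ⊆ U := by
    intro Y hY i hi x hx
    rw [mem_symmDiff, mem_singleton] at hx
    rcases hx with ⟨hx, -⟩ | ⟨hx, -⟩
    · exact hY hx
    · rw [hx]; exact hi
  have hkey : ∀ A ⊆ U, symmDiff Y0 A ⊆ U ∧ |F (symmDiff Y0 A)| = |F Y0| := by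
    intro A
    induction A using Finset.induction_on with
    | empty =>
      intro _
      have : symmDiff Y0 (∅ : Finset α) = Y0 := symmDiff_bot Y0
      rw [this]
      exact ⟨mem_powerset.1 hY0, rfl⟩
    | insert a A ha ih =>
      intro hA
      obtain ⟨h1, h2⟩ := ih ((subset_insert a A).trans hA)
      have haU : a ∈ U := hA (mem_insert_self a A)
      have h3 : symmDiff Y0 (insert a A) = symmDiff (symmDiff Y0 A) {a} := by
        ext x
        simp only [mem_symmDiff, mem_insert, mem_singleton]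
        by_cases hx : x = a
        · subst hx
          tauto
        · tauto
      rw [h3]
      refine ⟨hsub _ h1 a haU, ?_⟩
      exact half1_step H.cardU (half1_sum H _ h1)
        (fun i hi => hmax _ (mem_powerset.2 (hsub _ h1 i hi))) h2 a haU
  refine ⟨|F Y0|, fun Y hY => ?_⟩
  have h1 := hkey (symmDiff Y0 Y) (by
    intro x hx
    rw [mem_symmDiff] at hx
    rcases hx with ⟨hx, -⟩ | ⟨hx, -⟩
    · exact mem_powerset.1 hY0 hx
    · exact hY hx)
  rw [symmDiff_symmDiff_cancel_left] at h1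
  exact h1.2

theorem half1_compl {U : Finset α} {n : ℕ} (hn : U.card = n) (T : Finset α) :
    (Tᶜ ∩ U).card = n - (T ∩ U).card := by
  have h1 : Tᶜ ∩ U = U \ T := by
    ext x
    simp only [mem_inter, mem_compl, mem_sdiff]
    tauto
  have h2 := card_sdiff_add_card_inter U T
  rw [h1, inter_comm T U]
  omega

theorem half1_four {B : SimpleGraph α} {U : Finset α} {n : ℕ} {f : Finset α → ℚ}
    (H : Half B U n f) (S0 : Finset α) :
    ∃ A : Finset ℕ, A.card ≤ 4 ∧ ∀ S, 0 < f S0 * f S → (S ∩ U).card ∈ A := by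
  refine ⟨{(S0 ∩ U).card, n - (S0 ∩ U).card, (S0 ∩ Uᶜ).card, n - (S0 ∩ Uᶜ).card},
    card_le_four, ?_⟩
  intro S hS
  obtain ⟨s, hs, hs2⟩ := H.orbit S0 S hS
  have h1 : ((S0.map s.toEmbedding) ∩ U).card = (S0 ∩ U).card ∨
      ((S0.map s.toEmbedding) ∩ U).card = (S0 ∩ Uᶜ).card := by
    rcases H.aut s hs with h | h
    · left
      have e : (S0.map s.toEmbedding) ∩ U = (S0 ∩ U).map s.toEmbedding := by
        ext x
        simp only [mem_inter, mem_map, Equiv.coe_toEmbedding]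
        constructor
        · rintro ⟨⟨y, hy, rfl⟩, h2⟩
          exact ⟨y, ⟨hy, (h y).1 h2⟩, rfl⟩
        · rintro ⟨y, ⟨hy, hy2⟩, rfl⟩
          exact ⟨⟨y, hy, rfl⟩, (h y).2 hy2⟩
      rw [e, card_map]
    · right
      have e : (S0.map s.toEmbedding) ∩ U = (S0 ∩ Uᶜ).map s.toEmbedding := by
        ext x
        simp only [mem_inter, mem_map, Equiv.coe_toEmbedding, mem_compl]
        constructor
        · rintro ⟨⟨y, hy, rfl⟩, h2⟩
          exact ⟨y, ⟨hy, (h y).1 h2⟩, rfl⟩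
        · rintro ⟨y, ⟨hy, hy2⟩, rfl⟩
          exact ⟨⟨y, hy, rfl⟩, (h y).2 hy2⟩
      rw [e, card_map]
  simp only [mem_insert, mem_singleton]
  rcases hs2 with rfl | rfl
  · rcases h1 with h1 | h1 <;> rw [h1] <;> tauto
  · rw [half1_compl H.cardU]
    rcases h1 with h1 | h1 <;> rw [h1] <;> tauto

end half1

theorem t_HALF1 : S_HALF1 := by
  intro α _ _ B U n f H hn Y hY
  obtain ⟨M, hM⟩ := half1_const H
  by_contra hne
  have hM0 : 0 < M := by
    rw [← hM Y hY]
    exact abs_pos.2 hne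
  obtain ⟨S1, hS1⟩ := H.pos
  obtain ⟨A1, hA1, hA1'⟩ := half1_four H S1
  obtain ⟨A2, hA2, hA2'⟩ : ∃ A : Finset ℕ, A.card ≤ 4 ∧ ∀ S, f S < 0 → (S ∩ U).card ∈ A := by
    by_cases h : ∃ S, f S < 0
    · obtain ⟨S2, hS2⟩ := h
      obtain ⟨A, hA, hA'⟩ := half1_four H S2
      exact ⟨A, hA, fun S hS => hA' S (mul_pos_of_neg_of_neg hS2 hS)⟩
    · exact ⟨∅, by simp, fun S hS => absurd ⟨S, hS⟩ h⟩
  have hsub : range (n + 1) ⊆ A1 ∪ A2 := by
    intro m hm
    rw [mem_range] at hm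
    obtain ⟨X, hX, hXm⟩ := exists_subset_card_eq (s := U) (n := m) (by rw [H.cardU]; omega)
    have h1 : ∑ Z ∈ Uᶜ.powerset, f (X ∪ Z) ≠ 0 := by
      intro h
      have := hM X hX
      rw [h, abs_zero] at this
      linarith
    obtain ⟨Z, hZ, hZ'⟩ := exists_ne_zero_of_sum_ne_zero h1
    have h2 : (X ∪ Z) ∩ U = X := by
      have hZ2 := mem_powerset.1 hZ
      ext x
      simp only [mem_inter, mem_union]
      constructor
      · rintro ⟨h3 | h3, h4⟩
        · exact h3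
        · exact absurd h4 (mem_compl.1 (hZ2 h3))
      · intro h3
        exact ⟨Or.inl h3, hX h3⟩
    rw [mem_union]
    rcases lt_or_gt_of_ne hZ' with h3 | h3
    · right
      have := hA2' _ h3
      rwa [h2, hXm] at this
    · left
      have := hA1' _ (mul_pos hS1 h3)
      rwa [h2, hXm] at this
  have h1 := card_le_card hsub
  have h2 := card_union_le A1 A2
  rw [card_range] at h1
  omega

end Pool.Agent.NTW
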