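import Pool.Agent.NTW.St9
import Pool.Agent.NTW.MHALF1
import Pool.Agent.NTW.MHALF2

/-!
# MP_e73337_co, module NTW_HALF1b (helper33, Dec 5)

`theorem t_HALF1b : S_HALF1b`.
-/

set_option autoImplicit false

namespace Pool.Agent.NTW

open Finset

section half1b

variable {α : Type} [Fintype α] [DecidableEq α]

theorem half1b_map {s : Equiv.Perm α} {V V' : Finset α} (h : ∀ x, s x ∈ V ↔ x ∈ V')
    (S : Finset α) : ((S.map s.toEmbedding) ∩ V).card = (S ∩ V').card := by
  have e : (S.map s.toEmbedding) ∩ V = (S ∩ V').map s.toEmbedding := by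
    ext x
    simp only [mem_inter, mem_map, Equiv.coe_toEmbedding]
    constructor
    · rintro ⟨⟨y, hy, rfl⟩, h2⟩
      exact ⟨y, ⟨hy, (h y).1 h2⟩, rfl⟩
    · rintro ⟨y, ⟨hy, hy2⟩, rfl⟩
      exact ⟨⟨y, hy, rfl⟩, (h y).2 hy2⟩
  rw [e, card_map]

/-- `[|S ∩ V| = 0] + [|S ∩ V| = n]` -/
def half1b_h (V : Finset α) (n : ℕ) (S : Finset α) : ℕ :=
  (if (S ∩ V).card = 0 then 1 else 0) + (if (S ∩ V).card = n then 1 else 0)

theorem half1b_hc {V : Finset α} {n : ℕ} (hV : V.card = n) (S : Finset α) :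
    half1b_h V n Sᶜ = half1b_h V n S := by
  have h1 := half1_compl hV S
  have h2 : (S ∩ V).card ≤ n := by
    rw [← hV]; exact card_le_card inter_subset_right
  unfold half1b_h
  rw [h1]
  have e1 : (n - (S ∩ V).card = 0) ↔ ((S ∩ V).card = n) := by omega
  have e2 : (n - (S ∩ V).card = n) ↔ ((S ∩ V).card = 0) := by omega
  simp only [e1, e2]
  ring

theorem half1b_hm {V V' : Finset α} {n : ℕ} {s : Equiv.Perm α} (h : ∀ x, s x ∈ V ↔ x ∈ V')
    (S : Finset α) : half1b_h V n (S.map s.toEmbedding) = half1b_h V' n S := by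
  unfold half1b_h
  rw [half1b_map h]

/-- sums over the sets with `0 < f S` -/
def half1b_s (f : Finset α → ℚ) (g : Finset α → ℕ) : ℕ := ∑ S, if 0 < f S then g S else 0

theorem half1b_sc {f : Finset α → ℚ} (hc : ∀ S, f Sᶜ = f S) (g : Finset α → ℕ) :
    half1b_s f (fun S => g Sᶜ) = half1b_s f g := by
  unfold half1b_s
  have h := Equiv.sum_comp (Function.Involutive.toPerm (compl : Finset α → Finset α)
    compl_involutive) (fun S => if 0 < f S then g S else 0)
  rw [← h]
  refine sum_congr rfl fun S _ => ?_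
  show (if 0 < f S then g Sᶜ else 0) = (if 0 < f Sᶜ then g Sᶜ else 0)
  rw [hc]

theorem half1b_sm {f : Finset α → ℚ} {s : Equiv.Perm α} (hs : ∀ S, f (S.map s.toEmbedding) = f S)
    (g : Finset α → ℕ) : half1b_s f (fun S => g (S.map s.toEmbedding)) = half1b_s f g := by
  unfold half1b_s
  have h := Equiv.sum_comp s.finsetCongr (fun S => if 0 < f S then g S else 0)
  rw [← h]
  refine sum_congr rfl fun S _ => ?_
  rw [Equiv.finsetCongr_apply, hs]

theorem half1b_sadd (f : Finset α → ℚ) (g g' : Finset α → ℕ) :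
    half1b_s f (fun S => g S + g' S) = half1b_s f g + half1b_s f g' := by
  unfold half1b_s
  rw [← sum_add_distrib]
  refine sum_congr rfl fun S _ => ?_
  split_ifs <;> rfl

theorem half1b_sconst {f : Finset α → ℚ} {g : Finset α → ℕ} {c : ℕ}
    (h : ∀ S, 0 < f S → g S = c) : half1b_s f g = c * half1b_s f (fun _ => 1) := by
  unfold half1b_s
  rw [mul_sum]
  refine sum_congr rfl fun S _ => ?_
  by_cases hS : 0 < f S
  · rw [if_pos hS, if_pos hS, h S hS, mul_one]
  · rw [if_neg hS, if_neg hS, mul_zero]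

theorem half1b_claim {B : SimpleGraph α} {U : Finset α} {n : ℕ} {f : Finset α → ℚ}
    (H : Half B U n f) : ∃ a : ℕ, 4 * half1b_s f (fun S => if (S ∩ U).card = 0 then 1 else 0) =
      a * half1b_s f (fun _ => 1) := by
  obtain ⟨S1, hS1⟩ := H.pos
  -- the sum of `h`
  have h2 : half1b_s f (half1b_h U n) =
      2 * half1b_s f (fun S => if (S ∩ U).card = 0 then 1 else 0) := by
    have e1 : half1b_s f (half1b_h U n) =
        half1b_s f (fun S => if (S ∩ U).card = 0 then 1 else 0) +
        half1b_s f (fun S => if (S ∩ U).card = n then 1 else 0) :=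
      half1b_sadd f _ _
    have e2 : half1b_s f (fun S => if (S ∩ U).card = n then 1 else 0) =
        half1b_s f (fun S => if (S ∩ U).card = 0 then 1 else 0) := by
      rw [← half1b_sc H.invc (fun S => if (S ∩ U).card = 0 then 1 else 0)]
      unfold half1b_s
      refine sum_congr rfl fun S _ => ?_
      have h3 : (S ∩ U).card ≤ n := by
        rw [← H.cardU]; exact card_le_card inter_subset_right
      have e3 : ((Sᶜ ∩ U).card = 0) ↔ ((S ∩ U).card = n) := by
        rw [half1_compl H.cardU S]; omega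
      simp only [e3]
    rw [e1, e2]
    ring
  have hcU := half1b_hc H.cardU
  have hcW := half1b_hc H.cardW
  by_cases hcr : ∃ s : Equiv.Perm α, IsAut B s ∧ ∀ x, s x ∈ U ↔ x ∉ U
  · obtain ⟨s, hs, hsU⟩ := hcr
    have hk : half1b_s f (half1b_h Uᶜ n) = half1b_s f (half1b_h U n) := by
      rw [← half1b_sm (fun S => H.inv s hs S) (half1b_h U n)]
      unfold half1b_s
      refine sum_congr rfl fun S _ => ?_
      have h4 : ∀ x, s x ∈ U ↔ x ∈ Uᶜ := fun x => by rw [hsU x, mem_compl]
      show (if 0 < f S then half1b_h Uᶜ n S else 0) =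
        if 0 < f S then half1b_h U n (S.map s.toEmbedding) else 0
      rw [half1b_hm h4]
    have hconst : ∀ T, 0 < f T → half1b_h U n T + half1b_h Uᶜ n T =
        half1b_h U n S1 + half1b_h Uᶜ n S1 := by
      intro T hT
      obtain ⟨r, hr, hr2⟩ := H.orbit S1 T (mul_pos hS1 hT)
      have key : half1b_h U n (S1.map r.toEmbedding) + half1b_h Uᶜ n (S1.map r.toEmbedding) =
          half1b_h U n S1 + half1b_h Uᶜ n S1 := by
        rcases H.aut r hr with h5 | h5
        · have h6 : ∀ x, r x ∈ Uᶜ ↔ x ∈ Uᶜ := fun x => by rw [mem_compl, mem_compl, h5 x]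
          rw [half1b_hm h5, half1b_hm h6]
        · have h6 : ∀ x, r x ∈ U ↔ x ∈ Uᶜ := fun x => by rw [h5 x, mem_compl]
          have h7 : ∀ x, r x ∈ Uᶜ ↔ x ∈ U := fun x => by rw [mem_compl, h5 x, not_not]
          rw [half1b_hm h6, half1b_hm h7, add_comm]
      rcases hr2 with rfl | rfl
      · exact key
      · rw [hcU, hcW, key]
    refine ⟨half1b_h U n S1 + half1b_h Uᶜ n S1, ?_⟩
    have h8 := half1b_sconst (g := fun S => half1b_h U n S + half1b_h Uᶜ n S) hconst
    rw [half1b_sadd, hk, h2] at h8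
    omega
  · have hconst : ∀ T, 0 < f T → half1b_h U n T = half1b_h U n S1 := by
      intro T hT
      obtain ⟨r, hr, hr2⟩ := H.orbit S1 T (mul_pos hS1 hT)
      have key : half1b_h U n (S1.map r.toEmbedding) = half1b_h U n S1 := by
        rcases H.aut r hr with h5 | h5
        · exact half1b_hm h5 S1
        · exact absurd ⟨r, hr, h5⟩ hcr
      rcases hr2 with rfl | rfl
      · exact key
      · rw [hcU, key]
    refine ⟨2 * half1b_h U n S1, ?_⟩
    have h8 := half1b_sconst hconst
    rw [h2] at h8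
    rw [mul_assoc, ← h8]
    ring

theorem half1b_split (U : Finset α) (g : Finset α → ℚ) :
    ∑ Y ∈ U.powerset, ∑ Z ∈ Uᶜ.powerset, g (Y ∪ Z) = ∑ S, g S := by
  rw [← sum_product']
  refine sum_bij' (fun p _ => p.1 ∪ p.2) (fun S _ => (S ∩ U, S ∩ Uᶜ)) (fun _ _ => mem_univ _)
    ?_ ?_ ?_ (fun _ _ => rfl)
  · intro S _
    rw [mem_product, mem_powerset, mem_powerset]
    exact ⟨inter_subset_right, inter_subset_right⟩
  · rintro ⟨Y, Z⟩ hp
    rw [mem_product, mem_powerset, mem_powerset] at hp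
    obtain ⟨hY, hZ⟩ := hp
    ext x
    · simp only [mem_inter, mem_union]
      constructor
      · rintro ⟨h1 | h1, h2⟩
        · exact h1
        · exact absurd h2 (mem_compl.1 (hZ h1))
      · intro h1
        exact ⟨Or.inl h1, hY h1⟩
    · simp only [mem_inter, mem_union]
      constructor
      · rintro ⟨h1 | h1, h2⟩
        · exact absurd (hY h1) (mem_compl.1 h2)
        · exact h1
      · intro h1
        exact ⟨Or.inr h1, hZ h1⟩
  · intro S _
    show (S ∩ U) ∪ (S ∩ Uᶜ) = S
    rw [← inter_union_distrib_left, union_compl, inter_univ]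

theorem half1b_tot {B : SimpleGraph α} {U : Finset α} {n : ℕ}
    {f : Finset α → ℚ} (H : Half B U n f) (hn : 4 ≤ n) : ∑ S, f S = 0 := by
  have h1 : ∑ S : Finset α, ∑ i : α, f (symmDiff S {i}) = 0 :=
    sum_eq_zero (fun S _ => H.sum S)
  rw [sum_comm] at h1
  have h2 : ∀ i : α, ∑ S : Finset α, f (symmDiff S {i}) = ∑ S, f S :=
    fun i => half2_sum {i} f
  rw [sum_congr rfl (fun i _ => h2 i), sum_const, nsmul_eq_mul] at h1
  rcases mul_eq_zero.1 h1 with h3 | h3
  · exfalso
    have h4 : (univ : Finset α).card = 0 := by exact_mod_cast h3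
    have h5 : U.card ≤ (univ : Finset α).card := card_le_card (subset_univ U)
    have h6 := H.cardU
    omega
  · exact h3

/-- `half1b_s` as a sum of rational numbers -/
theorem half1b_cast (f : Finset α → ℚ) (p : Finset α → Prop) [DecidablePred p] (v : ℚ) :
    ∑ S, (if p S then (if 0 < f S then v else 0) else 0) =
      v * ((half1b_s f (fun S => if p S then 1 else 0) : ℕ) : ℚ) := by
  unfold half1b_s
  rw [Nat.cast_sum, mul_sum]
  refine sum_congr rfl fun S _ => ?_
  by_cases h1 : p S <;> by_cases h2 : 0 < f S <;> simp [h1, h2]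

end half1b

theorem t_HALF1b : S_HALF1b := by
  intro α _ _ B U n f H hn Y hY
  obtain ⟨M, hM⟩ := half1_const H
  by_contra hne
  have hM0 : 0 < M := by
    rw [← hM Y hY]
    exact abs_pos.2 hne
  obtain ⟨S1, hS1⟩ := H.pos
  have htot := half1b_tot H hn
  -- there is a negative value
  have hneg : ∃ S, f S < 0 := by
    by_contra hcon
    have h1 : ∀ S ∈ (univ : Finset (Finset α)), 0 ≤ f S := fun S _ =>
      not_lt.1 (fun h => hcon ⟨S, h⟩)
    have h2 := sum_pos' h1 ⟨S1, mem_univ _, hS1⟩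
    linarith
  obtain ⟨S2, hS2⟩ := hneg
  set g : Finset α → ℚ := fun S => - f S with hg
  have H' : Half B U n g := half2_neg H ⟨S2, hS2⟩
  set v := f S1 with hv
  set w := g S2 with hw
  have hw0 : 0 < w := by
    show 0 < - f S2
    linarith
  have hval : ∀ S, f S = (if 0 < f S then v else 0) - (if 0 < g S then w else 0) := by
    intro S
    rcases lt_trichotomy (f S) 0 with h1 | h1 | h1
    · have h2 : 0 < g S := by show 0 < - f S; linarith
      have h3 : g S = w := half2_val H' (mul_pos hw0 h2)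
      rw [if_neg (by linarith), if_pos h2, ← h3]
      show f S = 0 - (- f S)
      ring
    · have h2 : ¬ 0 < g S := by show ¬ 0 < - f S; rw [h1]; norm_num
      rw [if_neg (by linarith), if_neg h2, h1]
      ring
    · have h2 : ¬ 0 < g S := by show ¬ 0 < - f S; linarith
      have h3 : f S = v := half2_val H (mul_pos hS1 h1)
      rw [if_pos h1, if_neg h2, h3]
      ring
  have habs : ∀ S, |f S| = (if 0 < f S then v else 0) + (if 0 < g S then w else 0) := by
    intro S
    rcases lt_trichotomy (f S) 0 with h1 | h1 | h1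
    · have h2 : 0 < g S := by show 0 < - f S; linarith
      have h3 : g S = w := half2_val H' (mul_pos hw0 h2)
      rw [if_neg (by linarith), if_pos h2, ← h3, abs_of_neg h1, zero_add]
    · have h2 : ¬ 0 < g S := by show ¬ 0 < - f S; rw [h1]; norm_num
      rw [if_neg (by linarith), if_neg h2, h1, abs_zero]
      ring
    · have h2 : ¬ 0 < g S := by show ¬ 0 < - f S; linarith
      have h3 : f S = v := half2_val H (mul_pos hS1 h1)
      rw [if_pos h1, if_neg h2, h3, abs_of_pos (by rw [← h3]; exact h1)]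
      ring
  obtain ⟨a, ha⟩ := half1b_claim H
  obtain ⟨a', ha'⟩ := half1b_claim H'
  set p := half1b_s f (fun _ => 1) with hp
  set q := half1b_s g (fun _ => 1) with hq
  set NP := half1b_s f (fun S => if (S ∩ U).card = 0 then 1 else 0) with hNP
  set NN := half1b_s g (fun S => if (S ∩ U).card = 0 then 1 else 0) with hNN
  have hp1 : ∑ S, (if 0 < f S then v else 0) = v * (p : ℚ) := by
    have := half1b_cast f (fun _ => True) v
    simpa using this
  have hq1 : ∑ S, (if 0 < g S then w else 0) = w * (q : ℚ) := by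
    have := half1b_cast g (fun _ => True) w
    simpa using this
  have hm : v * (p : ℚ) = w * (q : ℚ) := by
    rw [sum_congr rfl (fun S _ => hval S), sum_sub_distrib, hp1, hq1] at htot
    linarith
  have hF : ∑ Z ∈ Uᶜ.powerset, f (∅ ∪ Z) = v * (NP : ℚ) - w * (NN : ℚ) := by
    have e1 : Uᶜ.powerset = univ.filter (fun S : Finset α => (S ∩ U).card = 0) := by
      ext S
      simp only [mem_powerset, mem_filter, mem_univ, true_and, card_eq_zero]
      rw [← disjoint_iff_inter_eq_empty]
      constructor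
      · intro h
        rw [disjoint_left]
        intro x hx hx'
        exact (mem_compl.1 (h hx)) hx'
      · intro h x hx
        rw [mem_compl]
        exact fun hx' => (disjoint_left.1 h hx) hx'
    rw [e1, sum_filter, hNP, hNN, ← half1b_cast f (fun S => (S ∩ U).card = 0) v,
      ← half1b_cast g (fun S => (S ∩ U).card = 0) w, ← sum_sub_distrib]
    refine sum_congr rfl fun S _ => ?_
    by_cases h1 : (S ∩ U).card = 0
    · rw [if_pos h1, if_pos h1, if_pos h1, empty_union]
      exact hval S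
    · rw [if_neg h1, if_neg h1, if_neg h1, sub_zero]
  -- the two bounds
  have hsum : (2 : ℚ) ^ n * M ≤ 2 * (v * (p : ℚ)) := by
    have h1 : ∑ Y ∈ U.powerset, |∑ Z ∈ Uᶜ.powerset, f (Y ∪ Z)| = (2 : ℚ) ^ n * M := by
      rw [sum_congr rfl (fun Y hY => hM Y (mem_powerset.1 hY)), sum_const, card_powerset,
        H.cardU, nsmul_eq_mul]
      push_cast
      ring
    rw [← h1]
    calc ∑ Y ∈ U.powerset, |∑ Z ∈ Uᶜ.powerset, f (Y ∪ Z)| ≤
        ∑ Y ∈ U.powerset, ∑ Z ∈ Uᶜ.powerset, |f (Y ∪ Z)| :=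
          sum_le_sum fun Y _ => abs_sum_le_sum_abs _ _
      _ = ∑ S, |f S| := half1b_split U (fun S => |f S|)
      _ = v * (p : ℚ) + w * (q : ℚ) := by
          rw [sum_congr rfl (fun S _ => habs S), sum_add_distrib, hp1, hq1]
      _ = 2 * (v * (p : ℚ)) := by rw [← hm]; ring
  have h4 : 4 * ∑ Z ∈ Uᶜ.powerset, f (∅ ∪ Z) = ((a : ℚ) - (a' : ℚ)) * (v * (p : ℚ)) := by
    have e1 : (4 : ℚ) * (NP : ℚ) = (a : ℚ) * (p : ℚ) := by exact_mod_cast ha
    have e2 : (4 : ℚ) * (NN : ℚ) = (a' : ℚ) * (q : ℚ) := by exact_mod_cast ha'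
    rw [hF]
    calc 4 * (v * (NP : ℚ) - w * (NN : ℚ)) = v * (4 * (NP : ℚ)) - w * (4 * (NN : ℚ)) := by ring
      _ = v * ((a : ℚ) * (p : ℚ)) - w * ((a' : ℚ) * (q : ℚ)) := by rw [e1, e2]
      _ = (a : ℚ) * (v * (p : ℚ)) - (a' : ℚ) * (w * (q : ℚ)) := by ring
      _ = _ := by rw [← hm]; ring
  have hM4 : 4 * M = |(a : ℚ) - (a' : ℚ)| * |v * (p : ℚ)| := by
    rw [← abs_mul, ← h4, abs_mul, hM ∅ (empty_subset U)]
    norm_num
  have hvp : 0 < v * (p : ℚ) := by
    by_contra hcon
    have : (2 : ℚ) ^ n * M ≤ 0 := by linarith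
    have h5 : (0 : ℚ) < (2 : ℚ) ^ n * M := by positivity
    linarith
  have hone : 1 ≤ |(a : ℚ) - (a' : ℚ)| := by
    have h5 : (a : ℤ) - (a' : ℤ) ≠ 0 := by
      intro h6
      have h7 : (a : ℚ) - (a' : ℚ) = 0 := by exact_mod_cast h6
      rw [h7, abs_zero, zero_mul] at hM4
      linarith
    have h8 : 1 ≤ |(a : ℤ) - (a' : ℤ)| := Int.one_le_abs h5
    exact_mod_cast h8
  rw [abs_of_pos hvp] at hM4
  have h9 : v * (p : ℚ) ≤ 4 * M := by
    rw [hM4]
    nlinarith
  have h10 : (16 : ℚ) ≤ (2 : ℚ) ^ n := by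
    calc (16 : ℚ) = 2 ^ 4 := by norm_num
      _ ≤ 2 ^ n := pow_le_pow_right₀ (by norm_num) hn
  nlinarith

end Pool.Agent.NTW
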