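import Pool.Agent.NTW.St9

/-!
# MP_e73337_co, module NTW_HALF2b (helper3, Dec 5)

`theorem t_HALF2b (h : S_HALF1b) : S_HALF2b`.
-/

set_option autoImplicit false

namespace Pool.Agent.NTW

open Finset

section half2b

variable {α : Type} [Fintype α] [DecidableEq α]

theorem half2b_swap {B : SimpleGraph α} {U : Finset α} {n : ℕ} {f : Finset α → ℚ}
    (H : Half B U n f) : Half B Uᶜ n f where
  cardU := H.cardW
  cardW := by rw [compl_compl]; exact H.cardU
  mod := by
    intro u hu u' hu' w hw w' hw'
    have h := H.mod w (by simpa using hw) w' (by simpa using hw') u (by simpa using hu) u'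
      (by simpa using hu')
    rw [B.adj_comm u w, B.adj_comm u' w']
    exact h
  aut := by
    intro s hs
    rcases H.aut s hs with h | h
    · left
      intro x
      rw [mem_compl, mem_compl, h x]
    · right
      intro x
      rw [mem_compl, mem_compl, h x]
  sum := H.sum
  inv := H.inv
  invc := H.invc
  orbit := H.orbit
  pos := H.pos

theorem half2b_neg {B : SimpleGraph α} {U : Finset α} {n : ℕ} {f : Finset α → ℚ}
    (H : Half B U n f) (hneg : ∃ S, f S < 0) : Half B U n (fun S => - f S) where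
  cardU := H.cardU
  cardW := H.cardW
  mod := H.mod
  aut := H.aut
  sum := by
    intro S
    have h := H.sum S
    rw [sum_neg_distrib, h, neg_zero]
  inv := by
    intro s hs S
    show - f _ = - f S
    rw [H.inv s hs S]
  invc := by
    intro S
    show - f _ = - f S
    rw [H.invc S]
  orbit := by
    intro S T h
    apply H.orbit S T
    have h1 : (- f S) * (- f T) = f S * f T := by ring
    rw [← h1]
    exact h
  pos := by
    obtain ⟨S, hS⟩ := hneg
    exact ⟨S, by show 0 < - f S; linarith⟩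

theorem half2b_flip (h : S_HALF1b) {B : SimpleGraph α} {U : Finset α} {n : ℕ}
    {f : Finset α → ℚ} (H : Half B U n f) (hn : 4 ≤ n) {S : Finset α} (hS : 0 < f S) :
    ∃ T, (∀ x ∈ U, (x ∈ T ↔ x ∈ S)) ∧ f T < 0 := by
  have h0 := h α B U n f H hn (S ∩ U) inter_subset_right
  by_contra hcon
  have hcon' : ∀ T : Finset α, (∀ x ∈ U, (x ∈ T ↔ x ∈ S)) → 0 ≤ f T := by
    intro T hT
    by_contra hf
    exact hcon ⟨T, hT, not_le.1 hf⟩
  have hall : ∀ Z ∈ Uᶜ.powerset, 0 ≤ f ((S ∩ U) ∪ Z) := by
    intro Z hZ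
    apply hcon'
    intro x hx
    have hxZ : x ∉ Z := fun hz => by
      have h1 := (mem_powerset.1 hZ) hz
      exact (mem_compl.1 h1) hx
    simp [hx, hxZ]
  have hpos : 0 < f ((S ∩ U) ∪ (S ∩ Uᶜ)) := by
    have h1 : (S ∩ U) ∪ (S ∩ Uᶜ) = S := by
      rw [← inter_union_distrib_left, union_compl, inter_univ]
    rw [h1]
    exact hS
  have h2 := sum_pos' hall ⟨S ∩ Uᶜ, mem_powerset.2 inter_subset_right, hpos⟩
  linarith

theorem half2b_flip' (h : S_HALF1b) {B : SimpleGraph α} {U : Finset α} {n : ℕ}
    {f : Finset α → ℚ} (H : Half B U n f) (hn : 4 ≤ n) {S : Finset α} (hS : f S < 0) :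
    ∃ T, (∀ x ∈ U, (x ∈ T ↔ x ∈ S)) ∧ 0 < f T := by
  obtain ⟨T, hT, hf⟩ := half2b_flip h (half2b_neg H ⟨S, hS⟩) hn (S := S)
    (by show 0 < - f S; linarith)
  exact ⟨T, hT, by have : - f T < 0 := hf; linarith⟩

/-- The relation given by `orbit`. -/
theorem half2b_orbit {B : SimpleGraph α} {U : Finset α} {n : ℕ}
    {f : Finset α → ℚ} (H : Half B U n f) {S T : Finset α} (hST : 0 < f S * f T) :
    ∃ s : Equiv.Perm α, IsAut B s ∧ ((∀ x, s x ∈ T ↔ x ∈ S) ∨ (∀ x, s x ∈ T ↔ x ∉ S)) := by
  obtain ⟨s, hs, h⟩ := H.orbit S T hST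
  refine ⟨s, hs, ?_⟩
  rcases h with h | h
  · left
    intro x
    rw [h, mem_map_equiv, Equiv.symm_apply_apply]
  · right
    intro x
    rw [h, mem_compl, mem_map_equiv, Equiv.symm_apply_apply]

theorem half2b_val {B : SimpleGraph α} {U : Finset α} {n : ℕ}
    {f : Finset α → ℚ} (H : Half B U n f) {S T : Finset α} (hST : 0 < f S * f T) :
    f T = f S := by
  obtain ⟨s, hs, h⟩ := H.orbit S T hST
  rcases h with h | h
  · rw [h, H.inv s hs]
  · rw [h, H.invc, H.inv s hs]

theorem half2b_map {S T : Finset α} {s : Equiv.Perm α} (h : ∀ x, s x ∈ S ↔ x ∈ T) :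
    T.map s.toEmbedding = S := by
  ext x
  rw [mem_map_equiv, ← h, Equiv.apply_symm_apply]

/-- Inverse of an automorphism. -/
theorem half2b_inv {B : SimpleGraph α} {s : Equiv.Perm α} (hs : IsAut B s) :
    IsAut B s.symm := by
  intro u v
  rw [← hs (s.symm u) (s.symm v), Equiv.apply_symm_apply, Equiv.apply_symm_apply]

theorem half2b_trans {B : SimpleGraph α} {s t : Equiv.Perm α} (hs : IsAut B s)
    (ht : IsAut B t) : IsAut B (s.trans t) := by
  intro u v
  rw [Equiv.trans_apply, Equiv.trans_apply, ht, hs]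

/-- `r` on the complement of `U`, the identity on `U`. -/
def half2b_perm (U : Finset α) (r : Equiv.Perm α) (hr : ∀ x, r x ∈ U ↔ x ∈ U) :
    Equiv.Perm α where
  toFun x := if x ∈ U then x else r x
  invFun x := if x ∈ U then x else r.symm x
  left_inv x := by
    by_cases hx : x ∈ U
    · simp [hx]
    · have h1 : r x ∉ U := fun h => hx ((hr x).1 h)
      simp [hx, h1]
  right_inv x := by
    by_cases hx : x ∈ U
    · simp [hx]
    · have h1 : r.symm x ∉ U := fun h => hx (by
        have := (hr (r.symm x)).2 h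
        rwa [Equiv.apply_symm_apply] at this)
      simp [hx, h1]

theorem half2b_perm_in {U : Finset α} {r : Equiv.Perm α} (hr : ∀ x, r x ∈ U ↔ x ∈ U)
    {x : α} (hx : x ∈ U) : half2b_perm U r hr x = x := by
  show (if x ∈ U then x else r x) = x
  rw [if_pos hx]

theorem half2b_perm_out {U : Finset α} {r : Equiv.Perm α} (hr : ∀ x, r x ∈ U ↔ x ∈ U)
    {x : α} (hx : x ∉ U) : half2b_perm U r hr x = r x := by
  show (if x ∈ U then x else r x) = r x
  rw [if_neg hx]

theorem half2b_perm_aut {B : SimpleGraph α} {U : Finset α} {n : ℕ} {f : Finset α → ℚ}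
    (H : Half B U n f) {r : Equiv.Perm α} (hr : ∀ x, r x ∈ U ↔ x ∈ U) (ha : IsAut B r) :
    IsAut B (half2b_perm U r hr) := by
  intro u v
  by_cases hu : u ∈ U
  · by_cases hv : v ∈ U
    · rw [half2b_perm_in hr hu, half2b_perm_in hr hv]
    · rw [half2b_perm_in hr hu, half2b_perm_out hr hv]
      exact H.mod u hu u hu (r v) (fun h => hv ((hr v).1 h)) v hv
  · by_cases hv : v ∈ U
    · rw [half2b_perm_out hr hu, half2b_perm_in hr hv, B.adj_comm (r u) v, B.adj_comm u v]
      exact H.mod v hv v hv (r u) (fun h => hu ((hr u).1 h)) u hu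
    · rw [half2b_perm_out hr hu, half2b_perm_out hr hv]
      exact ha u v

theorem half2b_str (h : S_HALF1b) {B : SimpleGraph α} {U : Finset α} {n : ℕ}
    {f : Finset α → ℚ} (H : Half B U n f) (hn : 4 ≤ n) {S T : Finset α} (hS : 0 < f S)
    (hT : f T < 0) (hU : ∀ x ∈ U, (x ∈ T ↔ x ∈ S)) :
    ∃ r : Equiv.Perm α, IsAut B r ∧ (∀ x, r x ∈ U ↔ x ∈ U) ∧
      ((∀ w, w ∉ U → (r w ∈ S ↔ w ∈ T)) ∨ (∀ w, w ∉ U → (r w ∈ S ↔ w ∉ T))) := by
  obtain ⟨T', hT'W, hT'⟩ := half2b_flip h (half2b_swap H) hn hS
  obtain ⟨S', hS'W, hS'⟩ := half2b_flip' h (half2b_swap H) hn hT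
  have hT'W' : ∀ w, w ∉ U → (w ∈ T' ↔ w ∈ S) := fun w hw => hT'W w (mem_compl.2 hw)
  have hS'W' : ∀ w, w ∉ U → (w ∈ S' ↔ w ∈ T) := fun w hw => hS'W w (mem_compl.2 hw)
  obtain ⟨s, hs, hsT⟩ := half2b_orbit H (S := T) (T := T') (mul_pos_of_neg_of_neg hT hT')
  obtain ⟨s', hs', hsS⟩ := half2b_orbit H (S := S) (T := S') (mul_pos hS hS')
  rcases H.aut s hs with hst | hcr
  · refine ⟨s, hs, hst, ?_⟩
    rcases hsT with h1 | h1
    · left
      intro w hw
      rw [← h1 w, hT'W' (s w) (fun hh => hw ((hst w).1 hh))]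
    · right
      intro w hw
      rw [← h1 w, hT'W' (s w) (fun hh => hw ((hst w).1 hh))]
  · rcases H.aut s' hs' with hst' | hcr'
    · have hst2 : ∀ x, s'.symm x ∈ U ↔ x ∈ U := by
        intro x
        rw [← hst' (s'.symm x), Equiv.apply_symm_apply]
      refine ⟨s'.symm, half2b_inv hs', hst2, ?_⟩
      rcases hsS with h1 | h1
      · left
        intro w hw
        rw [← h1 (s'.symm w), Equiv.apply_symm_apply, hS'W' w hw]
      · right
        intro w hw
        have h2 := h1 (s'.symm w)
        rw [Equiv.apply_symm_apply, hS'W' w hw] at h2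
        rw [h2, not_not]
    · refine ⟨s'.symm.trans s, half2b_trans (half2b_inv hs') hs, ?_, ?_⟩
      · intro x
        have h2 := hcr' (s'.symm x)
        rw [Equiv.apply_symm_apply] at h2
        rw [Equiv.trans_apply, hcr, h2]
      · have key : ∀ w, w ∉ U → s'.symm w ∈ U ∧ s (s'.symm w) ∉ U := by
          intro w hw
          have h2 := hcr' (s'.symm w)
          rw [Equiv.apply_symm_apply] at h2
          have h3 : s'.symm w ∈ U := by
            by_contra h4
            exact hw (h2.2 h4)
          exact ⟨h3, fun h4 => ((hcr _).1 h4) h3⟩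
        rcases hsT with h1 | h1
        · rcases hsS with h3 | h3
          · left
            intro w hw
            obtain ⟨k1, k2⟩ := key w hw
            have h5 := h3 (s'.symm w)
            rw [Equiv.apply_symm_apply, hS'W' w hw] at h5
            rw [Equiv.trans_apply, ← hT'W' _ k2, h1, hU _ k1, h5]
          · right
            intro w hw
            obtain ⟨k1, k2⟩ := key w hw
            have h5 := h3 (s'.symm w)
            rw [Equiv.apply_symm_apply, hS'W' w hw] at h5
            rw [Equiv.trans_apply, ← hT'W' _ k2, h1, hU _ k1, h5, not_not]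
        · rcases hsS with h3 | h3
          · right
            intro w hw
            obtain ⟨k1, k2⟩ := key w hw
            have h5 := h3 (s'.symm w)
            rw [Equiv.apply_symm_apply, hS'W' w hw] at h5
            rw [Equiv.trans_apply, ← hT'W' _ k2, h1, hU _ k1, h5]
          · left
            intro w hw
            obtain ⟨k1, k2⟩ := key w hw
            have h5 := h3 (s'.symm w)
            rw [Equiv.apply_symm_apply, hS'W' w hw] at h5
            rw [Equiv.trans_apply, ← hT'W' _ k2, h1, hU _ k1, h5]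

theorem half2b_lt (h : S_HALF1b) {B : SimpleGraph α} {U : Finset α} {n : ℕ}
    {f : Finset α → ℚ} (H : Half B U n f) (hn : 4 ≤ n) {S : Finset α} (hS : 0 < f S) :
    f (symmDiff S U) < 0 := by
  obtain ⟨T, hU, hT⟩ := half2b_flip h H hn hS
  obtain ⟨r, ha, hr, hrr⟩ := half2b_str h H hn hS hT hU
  rcases hrr with h1 | h1
  · exfalso
    have h2 : T.map (half2b_perm U r hr).toEmbedding = S := by
      apply half2b_map
      intro x
      by_cases hx : x ∈ U
      · rw [half2b_perm_in hr hx, hU x hx]
      · rw [half2b_perm_out hr hx, h1 x hx]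
    have h3 := H.inv _ (half2b_perm_aut H hr ha) T
    rw [h2] at h3
    linarith
  · have h2 : T.map (half2b_perm U r hr).toEmbedding = (symmDiff S U)ᶜ := by
      apply half2b_map
      intro x
      by_cases hx : x ∈ U
      · rw [half2b_perm_in hr hx, hU x hx]
        simp [mem_symmDiff, hx]
      · have hx' : r x ∉ U := fun hh => hx ((hr x).1 hh)
        rw [half2b_perm_out hr hx, mem_compl, mem_symmDiff]
        have h4 := h1 x hx
        constructor
        · intro h5
          by_contra h6
          exact h5 (Or.inl ⟨h4.2 h6, hx'⟩)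
        · intro h5 h6
          rcases h6 with ⟨h7, _⟩ | ⟨h7, _⟩
          · exact (h4.1 h7) h5
          · exact hx' h7
    have h3 := H.inv _ (half2b_perm_aut H hr ha) T
    rw [h2, H.invc] at h3
    rw [h3]
    exact hT

theorem half2b_gt (h : S_HALF1b) {B : SimpleGraph α} {U : Finset α} {n : ℕ}
    {f : Finset α → ℚ} (H : Half B U n f) (hn : 4 ≤ n) {S : Finset α} (hS : f S < 0) :
    0 < f (symmDiff S U) := by
  have h1 := half2b_lt h (half2b_neg H ⟨S, hS⟩) hn (S := S) (by show 0 < - f S; linarith)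
  have h2 : - f (symmDiff S U) < 0 := h1
  linarith

/-- Translation by a fixed set. -/
def half2b_tr (V : Finset α) : Equiv.Perm (Finset α) :=
  Function.Involutive.toPerm (fun S => symmDiff S V)
    (fun S => symmDiff_symmDiff_cancel_right V S)

theorem half2b_sum (V : Finset α) (f : Finset α → ℚ) :
    ∑ S, f (symmDiff S V) = ∑ S, f S :=
  Equiv.sum_comp (half2b_tr V) f

theorem half2b_tot {B : SimpleGraph α} {U : Finset α} {n : ℕ}
    {f : Finset α → ℚ} (H : Half B U n f) (hn : 4 ≤ n) : ∑ S, f S = 0 := by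
  have h1 : ∑ S : Finset α, ∑ i : α, f (symmDiff S {i}) = 0 :=
    sum_eq_zero (fun S _ => H.sum S)
  rw [sum_comm] at h1
  have h2 : ∀ i : α, ∑ S : Finset α, f (symmDiff S {i}) = ∑ S, f S :=
    fun i => half2b_sum {i} f
  rw [sum_congr rfl (fun i _ => h2 i), sum_const, nsmul_eq_mul] at h1
  rcases mul_eq_zero.1 h1 with h3 | h3
  · exfalso
    have h4 : (univ : Finset α).card = 0 := by exact_mod_cast h3
    have h5 : U.card ≤ (univ : Finset α).card := card_le_card (subset_univ U)
    have h6 := H.cardU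
    omega
  · exact h3

end half2b

theorem t_HALF2b (h : S_HALF1b) : S_HALF2b := by
  intro α _ _ B U n f H hn
  obtain ⟨P, hP⟩ := H.pos
  have hQ := half2b_lt h H hn hP
  set Q := symmDiff P U with hQdef
  -- `f S + f (S Δ U)` is `0` or `f P + f Q`
  have key : ∀ S, (f S = 0 ∧ f (symmDiff S U) = 0) ∨ f S + f (symmDiff S U) = f P + f Q := by
    intro S
    rcases lt_trichotomy (f S) 0 with h1 | h1 | h1
    · right
      have h2 := half2b_gt h H hn h1
      have h3 : f S = f Q := half2b_val H (mul_pos_of_neg_of_neg hQ h1)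
      have h4 : f (symmDiff S U) = f P := half2b_val H (mul_pos hP h2)
      rw [h3, h4]
      ring
    · left
      refine ⟨h1, ?_⟩
      rcases lt_trichotomy (f (symmDiff S U)) 0 with h2 | h2 | h2
      · have h3 := half2b_gt h H hn h2
        rw [symmDiff_symmDiff_cancel_right] at h3
        linarith
      · exact h2
      · have h3 := half2b_lt h H hn h2
        rw [symmDiff_symmDiff_cancel_right] at h3
        linarith
    · right
      have h2 := half2b_lt h H hn h1
      have h3 : f S = f P := half2b_val H (mul_pos hP h1)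
      have h4 : f (symmDiff S U) = f Q := half2b_val H (mul_pos_of_neg_of_neg hQ h2)
      rw [h3, h4]
  have htot : ∑ S : Finset α, (f S + f (symmDiff S U)) = 0 := by
    rw [sum_add_distrib, half2b_sum, half2b_tot H hn, add_zero]
  have hc : f P + f Q = 0 := by
    by_contra hc
    have h1 : ∑ S : Finset α, (f S + f (symmDiff S U)) * (f P + f Q) = 0 := by
      rw [← sum_mul, htot, zero_mul]
    have h2 : 0 < ∑ S : Finset α, (f S + f (symmDiff S U)) * (f P + f Q) := by
      apply sum_pos'
      · intro S _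
        rcases key S with ⟨k1, k2⟩ | k1
        · rw [k1, k2]
          simp
        · rw [k1]
          exact mul_self_nonneg _
      · refine ⟨P, mem_univ _, ?_⟩
        exact mul_self_pos.2 hc
    linarith
  intro S
  rcases key S with ⟨k1, k2⟩ | k1
  · rw [k1, k2, neg_zero]
  · linarith

end Pool.Agent.NTW
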