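import Pool.Agent.NTW.St8

/-! Module HALF3 (statement of helper39): two halves, `4 ∣ n`. -/

set_option autoImplicit false

namespace Pool.Agent.NTW

open Finset Pool.Agent.Lib_helper61.SwitchBasic

section half3

variable {α : Type} [Fintype α] [DecidableEq α]

/-- Seidel form of `V` after switching at `S` -/
noncomputable def half3q (B : SimpleGraph α) (V S : Finset α) : ℤ := qq (sw B S) V

omit [Fintype α] in
theorem half3_qq_congr (K L : SimpleGraph α) (V : Finset α)
    (h : ∀ i ∈ V, ∀ j ∈ V, i ≠ j → (K.Adj i j ↔ L.Adj i j)) : qq K V = qq L V := by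
  unfold qq DD
  refine sum_congr rfl fun i hi => sum_congr rfl fun j hj => ?_
  have hj' := mem_erase.1 hj
  have := h i hi j hj'.2 (Ne.symm hj'.1)
  unfold mm
  by_cases hk : K.Adj i j
  · rw [if_pos hk, if_pos (this.1 hk)]
  · rw [if_neg hk, if_neg (fun h' => hk (this.2 h'))]

omit [Fintype α] in
theorem half3_qq_iso {K L : SimpleGraph α} (V V' : Finset α) (φ : K ≃g L)
    (hφ : ∀ v, φ v ∈ V' ↔ v ∈ V) : qq K V = qq L V' := by
  unfold qq DD
  refine Finset.sum_bij (fun i _ => φ i) (fun i hi => (hφ i).2 hi)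
    (fun i _ j _ h => φ.injective h) ?_ ?_
  · intro j hj
    refine ⟨φ.symm j, ?_, by simp⟩
    rw [← hφ]
    simpa using hj
  · intro i hi
    refine Finset.sum_bij (fun j _ => φ j) ?_ (fun j _ k _ h => φ.injective h) ?_ ?_
    · intro j hj
      rw [Finset.mem_erase] at hj ⊢
      exact ⟨fun e => hj.1 (φ.injective e), (hφ j).2 hj.2⟩
    · intro k hk
      rw [Finset.mem_erase] at hk
      refine ⟨φ.symm k, ?_, by simp⟩
      rw [Finset.mem_erase]
      refine ⟨fun e => hk.1 (by rw [← e]; simp), ?_⟩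
      rw [← hφ]
      simpa using hk.2
    · intro j _
      have : L.Adj (φ i) (φ j) ↔ K.Adj i j := φ.map_rel_iff'
      unfold mm
      by_cases hk : K.Adj i j
      · rw [if_pos hk, if_pos (this.2 hk)]
      · rw [if_neg hk, if_neg (fun h' => hk (this.1 h'))]

omit [Fintype α] in
theorem half3_q_in (B : SimpleGraph α) (V S : Finset α) (b : α) (hb : b ∈ V)
    (hV : Even V.card) : half3q B V (symmDiff S {b}) ≠ half3q B V S := by
  unfold half3q
  rw [← sw_sw, qq_in _ V b hb]
  have := DD_odd (sw B S) V b hb hV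
  omega

omit [Fintype α] in
theorem half3_q_out (B : SimpleGraph α) (V S : Finset α) (b : α) (hb : b ∉ V) :
    half3q B V (symmDiff S {b}) = half3q B V S := by
  unfold half3q
  rw [← sw_sw, qq_out _ V b hb]

theorem half3_q_compl (B : SimpleGraph α) (V S : Finset α) : half3q B V Sᶜ = half3q B V S := by
  unfold half3q
  congr 1
  ext u v
  simp only [sw_adj, mem_compl]
  tauto

theorem half3_q_U (B : SimpleGraph α) (U S : Finset α) :
    half3q B U (symmDiff S U) = half3q B U S := by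
  unfold half3q
  rw [← sw_sw]
  apply half3_qq_congr
  intro i hi j hj hij
  rw [sw_adj]
  tauto

theorem half3_q_U' (B : SimpleGraph α) (U S : Finset α) :
    half3q B Uᶜ (symmDiff S U) = half3q B Uᶜ S := by
  unfold half3q
  rw [← sw_sw]
  apply half3_qq_congr
  intro i hi j hj hij
  rw [mem_compl] at hi hj
  rw [sw_adj]
  tauto

omit [Fintype α] in
theorem half3_q_aut (B : SimpleGraph α) (V V' S : Finset α) (s : Equiv.Perm α) (hs : IsAut B s)
    (h : ∀ x, s x ∈ V' ↔ x ∈ V) : half3q B V' (S.map s.toEmbedding) = half3q B V S := by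
  unfold half3q
  let φ : B ≃g B := ⟨s, fun {u v} => hs u v⟩
  exact (half3_qq_iso V V' (isoSw φ S) h).symm

/-- `r` on `V`, the identity outside -/
def half3split (V : Finset α) (r : Equiv.Perm α) (h : ∀ x, r x ∈ V ↔ x ∈ V) : Equiv.Perm α where
  toFun x := if x ∈ V then r x else x
  invFun x := if x ∈ V then r.symm x else x
  left_inv x := by
    by_cases hx : x ∈ V
    · simp [hx, (h x).2 hx]
    · simp [hx]
  right_inv x := by
    by_cases hx : x ∈ V
    · have : r.symm x ∈ V := by rw [← h]; simpa using hx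
      simp [hx, this]
    · simp [hx]

omit [Fintype α] in
theorem half3split_aut (B : SimpleGraph α) (V : Finset α)
    (hmod : ∀ u ∈ V, ∀ u' ∈ V, ∀ w ∉ V, ∀ w' ∉ V, (B.Adj u w ↔ B.Adj u' w'))
    (r : Equiv.Perm α) (h : ∀ x, r x ∈ V ↔ x ∈ V) (hr : IsAut B r) :
    IsAut B (half3split V r h) := by
  intro u v
  change B.Adj (if u ∈ V then r u else u) (if v ∈ V then r v else v) ↔ B.Adj u v
  by_cases hu : u ∈ V <;> by_cases hv : v ∈ V
  · rw [if_pos hu, if_pos hv]; exact hr u v
  · rw [if_pos hu, if_neg hv]; exact hmod _ ((h u).2 hu) _ hu _ hv _ hv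
  · rw [if_neg hu, if_pos hv, B.adj_comm, B.adj_comm u v]
    exact hmod _ ((h v).2 hv) _ hv _ hu _ hu
  · rw [if_neg hu, if_neg hv]

omit [Fintype α] in
theorem half3split_mem (V : Finset α) (r : Equiv.Perm α) (h : ∀ x, r x ∈ V ↔ x ∈ V) (x : α) :
    half3split V r h x ∈ V ↔ x ∈ V := by
  change (if x ∈ V then r x else x) ∈ V ↔ x ∈ V
  by_cases hx : x ∈ V
  · rw [if_pos hx]; exact h x
  · rw [if_neg hx]

omit [Fintype α] in
theorem half3split_symm (V : Finset α) (r : Equiv.Perm α) (h : ∀ x, r x ∈ V ↔ x ∈ V) (x : α) :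
    (half3split V r h).symm x = if x ∈ V then r.symm x else x := rfl

/-- the two parts of `f` -/
noncomputable def half3a (B : SimpleGraph α) (U : Finset α) (f : Finset α → ℚ) (a : ℤ)
    (S : Finset α) : ℚ := if half3q B U S = a then f S else 0

noncomputable def half3b (B : SimpleGraph α) (U : Finset α) (f : Finset α → ℚ) (a : ℤ)
    (S : Finset α) : ℚ := if half3q B U S = a then 0 else f S

/-- the situation of the proof -/
structure Half3D (B : SimpleGraph α) (U : Finset α) (n : ℕ) (f : Finset α → ℚ) (a b : ℤ)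
    (S₀ : Finset α) : Prop where
  hH : Half B U n f
  h2 : ∀ S, f (symmDiff S U) = - f S
  ev : Even n
  ab : ∀ S, f S ≠ 0 → (half3q B U S = a ∧ half3q B Uᶜ S = b) ∨
    (half3q B U S = b ∧ half3q B Uᶜ S = a)
  s0 : 0 < f S₀
  s0a : half3q B U S₀ = a

variable {B : SimpleGraph α} {U : Finset α} {n : ℕ} {f : Finset α → ℚ} {a b : ℤ} {S₀ : Finset α}

theorem half3_add (S : Finset α) : f S = half3a B U f a S + half3b B U f a S := by
  unfold half3a half3b
  split_ifs <;> ring

theorem half3_na (D : Half3D B U n f a b S₀) (hab : a ≠ b) (S : Finset α)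
    (h : half3a B U f a S ≠ 0) : half3q B U S = a ∧ half3q B Uᶜ S = b ∧ f S ≠ 0 := by
  unfold half3a at h
  split_ifs at h with h1
  · rcases D.ab S h with h3 | h3
    · exact ⟨h1, h3.2, h⟩
    · exact absurd (h1.symm.trans h3.1) hab
  · exact absurd rfl h

theorem half3_nb (D : Half3D B U n f a b S₀) (S : Finset α)
    (h : half3b B U f a S ≠ 0) :
    half3q B U S = b ∧ half3q B Uᶜ S = a ∧ a ≠ b ∧ f S ≠ 0 := by
  unfold half3b at h
  split_ifs at h with h1
  · exact absurd rfl h
  · rcases D.ab S h with h3 | h3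
    · exact absurd h3.1 h1
    · exact ⟨h3.1, h3.2, fun e => h1 (h3.1.trans e.symm), h⟩

theorem half3_one (D : Half3D B U n f a b S₀) (S : Finset α) :
    ∑ i ∈ U, half3a B U f a (symmDiff S {i}) = - ∑ i ∈ Uᶜ, half3b B U f a (symmDiff S {i}) := by
  have evU : Even U.card := by rw [D.hH.cardU]; exact D.ev
  have evW : Even Uᶜ.card := by rw [D.hH.cardW]; exact D.ev
  have hs := D.hH.sum S
  rw [← Finset.sum_add_sum_compl U] at hs
  have i1 : ∀ u ∈ U, half3q B U (symmDiff S {u}) ≠ half3q B U S :=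
    fun u hu => half3_q_in B U S u hu evU
  have i2 : ∀ u ∈ U, half3q B Uᶜ (symmDiff S {u}) = half3q B Uᶜ S :=
    fun u hu => half3_q_out B Uᶜ S u (by simpa using hu)
  have i3 : ∀ u ∈ Uᶜ, half3q B U (symmDiff S {u}) = half3q B U S :=
    fun u hu => half3_q_out B U S u (by simpa using hu)
  have i4 : ∀ u ∈ Uᶜ, half3q B Uᶜ (symmDiff S {u}) ≠ half3q B Uᶜ S :=
    fun u hu => half3_q_in B Uᶜ S u hu evW
  by_cases hab : a = b
  · have hf2 : ∀ T, half3b B U f a T = 0 := by
      intro T
      by_contra hT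
      exact (half3_nb D T hT).2.2.1 hab
    have hf1 : ∀ T, half3a B U f a T = f T := by
      intro T
      rw [half3_add (B := B) (U := U) (f := f) (a := a) T, hf2 T, add_zero]
    simp only [hf2, hf1, sum_const_zero, neg_zero]
    have hq : ∀ T, f T ≠ 0 → half3q B U T = a := by
      intro T hT
      rcases D.ab T hT with h | h
      · exact h.1
      · exact h.1.trans hab.symm
    by_cases hc : ∃ w ∈ Uᶜ, f (symmDiff S {w}) ≠ 0
    · obtain ⟨w, hw, hwf⟩ := hc
      refine sum_eq_zero fun u hu => ?_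
      by_contra hu0
      have e1 := hq _ hu0
      have e2 := hq _ hwf
      rw [i3 w hw] at e2
      exact i1 u hu (e1.trans e2.symm)
    · push Not at hc
      rw [sum_eq_zero hc, add_zero] at hs
      exact hs
  · by_cases hc : (∃ u ∈ U, half3a B U f a (symmDiff S {u}) ≠ 0) ∨
      (∃ w ∈ Uᶜ, half3b B U f a (symmDiff S {w}) ≠ 0)
    · have k3 : ∀ u ∈ U, half3b B U f a (symmDiff S {u}) = 0 := by
        intro u hu
        by_contra h0
        obtain ⟨e1, e2, -, -⟩ := half3_nb D _ h0
        have j1 := i1 u hu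
        have j2 := i2 u hu
        rcases hc with ⟨v, hv, hv0⟩ | ⟨v, hv, hv0⟩
        · obtain ⟨e3, e4, -⟩ := half3_na D hab _ hv0
          have j3 := i2 v hv
          exact hab (by rw [← e2, ← e4, j2, j3])
        · obtain ⟨e3, e4, -, -⟩ := half3_nb D _ hv0
          have j3 := i3 v hv
          exact j1 (by rw [e1, ← e3, j3])
      have k4 : ∀ w ∈ Uᶜ, half3a B U f a (symmDiff S {w}) = 0 := by
        intro u hu
        by_contra h0
        obtain ⟨e1, e2, -⟩ := half3_na D hab _ h0
        have j1 := i3 u hu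
        have j2 := i4 u hu
        rcases hc with ⟨v, hv, hv0⟩ | ⟨v, hv, hv0⟩
        · obtain ⟨e3, e4, -⟩ := half3_na D hab _ hv0
          exact i1 v hv (by rw [e3, ← e1, j1])
        · obtain ⟨e3, e4, -, -⟩ := half3_nb D _ hv0
          have j3 := i3 v hv
          exact hab (by rw [← e1, ← e3, j1, j3])
      have l1 : ∑ i ∈ U, f (symmDiff S {i}) = ∑ i ∈ U, half3a B U f a (symmDiff S {i}) :=
        sum_congr rfl fun u hu => by
          rw [half3_add (B := B) (U := U) (f := f) (a := a) (symmDiff S {u}), k3 u hu, add_zero]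
      have l2 : ∑ i ∈ Uᶜ, f (symmDiff S {i}) = ∑ i ∈ Uᶜ, half3b B U f a (symmDiff S {i}) :=
        sum_congr rfl fun u hu => by
          rw [half3_add (B := B) (U := U) (f := f) (a := a) (symmDiff S {u}), k4 u hu, zero_add]
      rw [l1, l2] at hs
      linarith
    · push Not at hc
      rw [sum_eq_zero hc.1, sum_eq_zero hc.2, neg_zero]

theorem half3a_compl (D : Half3D B U n f a b S₀) (S : Finset α) :
    half3a B U f a Sᶜ = half3a B U f a S := by
  unfold half3a
  rw [half3_q_compl, D.hH.invc]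

theorem half3a_U (D : Half3D B U n f a b S₀) (S : Finset α) :
    half3a B U f a (symmDiff S U) = - half3a B U f a S := by
  unfold half3a
  rw [half3_q_U, D.h2]
  split_ifs
  · rfl
  · rw [neg_zero]

theorem half3a_straight (D : Half3D B U n f a b S₀) (s : Equiv.Perm α) (hs : IsAut B s)
    (h : ∀ x, s x ∈ U ↔ x ∈ U) (S : Finset α) :
    half3a B U f a (S.map s.toEmbedding) = half3a B U f a S := by
  unfold half3a
  rw [half3_q_aut B U U S s hs h, D.hH.inv s hs]

theorem half3a_cross (D : Half3D B U n f a b S₀) (hab : a ≠ b) (s : Equiv.Perm α)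
    (hs : IsAut B s) (h : ∀ x, s x ∈ U ↔ x ∉ U) (S : Finset α) :
    half3a B U f a (S.map s.toEmbedding) = half3b B U f a S := by
  unfold half3a half3b
  rw [half3_q_aut B Uᶜ U S s hs (fun x => by rw [mem_compl]; exact h x), D.hH.inv s hs]
  by_cases hf : f S = 0
  · rw [hf]; simp
  · rcases D.ab S hf with h1 | h1
    · rw [if_pos h1.1, if_neg (by rw [h1.2]; exact hab.symm)]
    · rw [if_pos h1.2, if_neg (by rw [h1.1]; exact hab.symm)]

/-- the sum over `U` -/
noncomputable def half3g (B : SimpleGraph α) (U : Finset α) (f : Finset α → ℚ) (a : ℤ)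
    (S : Finset α) : ℚ := ∑ i ∈ U, half3a B U f a (symmDiff S {i})

omit [Fintype α] in
theorem half3_map_sd (s : Equiv.Perm α) (S : Finset α) (i : α) :
    symmDiff (S.map s.toEmbedding) {s i} = (symmDiff S {i}).map s.toEmbedding := by
  ext x
  simp only [mem_symmDiff, mem_map_equiv, mem_singleton, Equiv.symm_apply_eq]

theorem half3g_straight (D : Half3D B U n f a b S₀) (s : Equiv.Perm α) (hs : IsAut B s)
    (h : ∀ x, s x ∈ U ↔ x ∈ U) (S : Finset α) :
    half3g B U f a (S.map s.toEmbedding) = half3g B U f a S := by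
  unfold half3g
  symm
  refine sum_equiv s (fun i => (h i).symm) fun i _ => ?_
  rw [half3_map_sd, half3a_straight D s hs h]

theorem half3g_cross (D : Half3D B U n f a b S₀) (hab : a ≠ b) (s : Equiv.Perm α)
    (hs : IsAut B s) (h : ∀ x, s x ∈ U ↔ x ∉ U) (S : Finset α) :
    half3g B U f a (S.map s.toEmbedding) = - half3g B U f a S := by
  unfold half3g
  rw [half3_one D S, neg_neg]
  symm
  refine sum_equiv s (fun i => by rw [mem_compl]; exact (h i).symm) fun i _ => ?_
  rw [half3_map_sd, half3a_cross D hab s hs h]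

theorem half3_mod' (D : Half3D B U n f a b S₀) :
    ∀ u ∈ Uᶜ, ∀ u' ∈ Uᶜ, ∀ w ∉ Uᶜ, ∀ w' ∉ Uᶜ, (B.Adj u w ↔ B.Adj u' w') := by
  intro u hu u' hu' w hw w' hw'
  rw [mem_compl] at hu hu'
  rw [mem_compl, not_not] at hw hw'
  rw [B.adj_comm, B.adj_comm u' w']
  exact D.hH.mod w hw w' hw' u hu u' hu'

theorem half3_L (D : Half3D B U n f a b S₀) (hab : a ≠ b) (P R : Finset α)
    (hP : half3a B U f a P ≠ 0) (hR : half3a B U f a R ≠ 0) :
    ∃ e : ℚ, e ≠ 0 ∧ ∀ X ⊆ U, half3a B U f a (X ∪ (R ∩ Uᶜ)) =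
      e * half3a B U f a (X ∪ (P ∩ Uᶜ)) := by
  obtain ⟨p1, p2, p3⟩ := half3_na D hab P hP
  obtain ⟨r1, r2, r3⟩ := half3_na D hab R hR
  obtain ⟨R', h1, h2, h3⟩ : ∃ R' : Finset α, (∀ y, y ∉ U → (y ∈ R' ↔ y ∈ R)) ∧
      half3q B U R' = a ∧ 0 < f P * f R' := by
    by_cases hpos : 0 < f P * f R
    · exact ⟨R, fun _ _ => Iff.rfl, r1, hpos⟩
    · refine ⟨symmDiff R U, fun y hy => ?_, by rw [half3_q_U]; exact r1, ?_⟩
      · rw [mem_symmDiff]; tauto
      · rw [D.h2]
        have : f P * f R ≠ 0 := mul_ne_zero p3 r3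
        have h4 : f P * f R < 0 := lt_of_le_of_ne (not_lt.1 hpos) this
        linarith
  obtain ⟨r, hr, hrr⟩ := D.hH.orbit P R' h3
  have hq : half3q B U R' = half3q B U (P.map r.toEmbedding) := by
    rcases hrr with h | h
    · rw [h]
    · rw [h, half3_q_compl]
  have hst : ∀ x, r x ∈ U ↔ x ∈ U := by
    rcases D.hH.aut r hr with h | h
    · exact h
    · exfalso
      rw [half3_q_aut B Uᶜ U P r hr (fun x => by rw [mem_compl]; exact h x), h2, p2] at hq
      exact hab hq
  have hst' : ∀ x, r x ∈ Uᶜ ↔ x ∈ Uᶜ := fun x => by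
    rw [mem_compl, mem_compl, hst]
  have hsy : ∀ y, r.symm y ∈ U ↔ y ∈ U := fun y => by
    rw [← hst]; simp
  set r' := half3split Uᶜ r hst' with hr'
  have hr'a : IsAut B r' := half3split_aut B Uᶜ (half3_mod' D) r hst' hr
  have hr's : ∀ x, r' x ∈ U ↔ x ∈ U := fun x => by
    have := half3split_mem Uᶜ r hst' x
    rw [mem_compl, mem_compl] at this
    exact not_iff_not.1 this
  have hmem : ∀ (X : Finset α), X ⊆ U → ∀ y, (y ∈ (X ∪ (P ∩ Uᶜ)).map r'.toEmbedding ↔
      (y ∈ U ∧ y ∈ X) ∨ (y ∉ U ∧ r.symm y ∈ P)) := by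
    intro X hX y
    rw [mem_map_equiv, hr', half3split_symm]
    by_cases hy : y ∈ U
    · have hy' : y ∉ Uᶜ := by rw [mem_compl, not_not]; exact hy
      rw [if_neg hy']
      simp [hy]
    · have hy' : y ∈ Uᶜ := mem_compl.2 hy
      rw [if_pos hy']
      have h5 : r.symm y ∉ U := fun h => hy ((hsy y).1 h)
      have h6 : r.symm y ∉ X := fun h => h5 (hX h)
      simp [hy, h5, h6]
  rcases hrr with h | h
  · refine ⟨1, one_ne_zero, fun X hX => ?_⟩
    rw [one_mul, ← half3a_straight D r' hr'a hr's (X ∪ (P ∩ Uᶜ))]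
    congr 1
    ext y
    rw [hmem X hX y]
    have h7 : y ∉ U → (y ∈ R ↔ r.symm y ∈ P) := fun hy => by
      rw [← h1 y hy, h, mem_map_equiv]
    have h8 : y ∈ X → y ∈ U := fun hy => hX hy
    simp only [mem_union, mem_inter, mem_compl]
    tauto
  · refine ⟨-1, by norm_num, fun X hX => ?_⟩
    have e1 : half3a B U f a (X ∪ (R ∩ Uᶜ)) =
        half3a B U f a (symmDiff ((X ∪ (P ∩ Uᶜ)).map r'.toEmbedding) U)ᶜ := by
      congr 1
      ext y
      rw [mem_compl, mem_symmDiff, hmem X hX y]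
      have h7 : y ∉ U → (y ∈ R ↔ r.symm y ∉ P) := fun hy => by
        rw [← h1 y hy, h, mem_compl, mem_map_equiv]
      have h8 : y ∈ X → y ∈ U := fun hy => hX hy
      simp only [mem_union, mem_inter, mem_compl]
      tauto
    rw [e1, half3a_compl D, half3a_U D, half3a_straight D r' hr'a hr's]
    ring

theorem half3_two (D : Half3D B U n f a b S₀) (S : Finset α) : half3g B U f a S = 0 := by
  by_contra hg
  have h1 := half3_one D S
  have h2 : ∃ w ∈ Uᶜ, half3b B U f a (symmDiff S {w}) ≠ 0 := by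
    by_contra hc
    push Not at hc
    rw [sum_eq_zero hc, neg_zero] at h1
    exact hg h1
  obtain ⟨w, hw, hw0⟩ := h2
  obtain ⟨t1, -, hab, t3⟩ := half3_nb D _ hw0
  -- a crossed automorphism
  obtain ⟨T, hT1, hT2⟩ : ∃ T : Finset α, half3q B U T = b ∧ 0 < f T := by
    rcases lt_or_gt_of_ne t3 with h | h
    · refine ⟨symmDiff (symmDiff S {w}) U, by rw [half3_q_U]; exact t1, ?_⟩
      rw [D.h2]; linarith
    · exact ⟨_, t1, h⟩
  obtain ⟨s, hs, hss⟩ := D.hH.orbit S₀ T (mul_pos D.s0 hT2)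
  have hq : half3q B U T = half3q B U (S₀.map s.toEmbedding) := by
    rcases hss with h | h
    · rw [h]
    · rw [h, half3_q_compl]
  have hcr : ∀ x, s x ∈ U ↔ x ∉ U := by
    rcases D.hH.aut s hs with h | h
    · exfalso
      rw [half3_q_aut B U U S₀ s hs h, hT1, D.s0a] at hq
      exact hab hq.symm
    · exact h
  obtain ⟨u, hu, hu0⟩ : ∃ u ∈ U, half3a B U f a (symmDiff S {u}) ≠ 0 := by
    by_contra hc
    push Not at hc
    exact hg (sum_eq_zero hc)
  obtain ⟨v, hv, hv0⟩ : ∃ v ∈ U, half3a B U f a (symmDiff (S.map s.toEmbedding) {v}) ≠ 0 := by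
    by_contra hc
    push Not at hc
    have h3 := half3g_cross D hab s hs hcr S
    have h4 : half3g B U f a (S.map s.toEmbedding) = 0 := sum_eq_zero hc
    rw [h4] at h3
    apply hg
    linarith
  obtain ⟨e, he, hL⟩ := half3_L D hab _ _ hu0 hv0
  set Q : Finset α := (S ∩ U) ∪ ((S.map s.toEmbedding) ∩ Uᶜ) with hQ
  have hgQ : half3g B U f a Q = e * half3g B U f a S := by
    unfold half3g
    rw [mul_sum]
    refine sum_congr rfl fun i hi => ?_
    have hX : symmDiff (S ∩ U) {i} ⊆ U := by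
      intro x hx
      rw [mem_symmDiff, mem_inter, mem_singleton] at hx
      rcases hx with ⟨⟨_, h⟩, _⟩ | ⟨rfl, _⟩
      · exact h
      · exact hi
    have e1 : symmDiff Q {i} = symmDiff (S ∩ U) {i} ∪
        ((symmDiff (S.map s.toEmbedding) {v}) ∩ Uᶜ) := by
      ext x
      have hxi : x = i → x ∈ U := fun h => h ▸ hi
      have hxv : x = v → x ∈ U := fun h => h ▸ hv
      simp only [hQ, mem_symmDiff, mem_union, mem_inter, mem_compl, mem_singleton]
      tauto
    have e2 : symmDiff S {i} = symmDiff (S ∩ U) {i} ∪ ((symmDiff S {u}) ∩ Uᶜ) := by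
      ext x
      have hxi : x = i → x ∈ U := fun h => h ▸ hi
      have hxv : x = u → x ∈ U := fun h => h ▸ hu
      simp only [mem_symmDiff, mem_union, mem_inter, mem_compl, mem_singleton]
      tauto
    rw [e1, hL _ hX, ← e2]
  have hss2 : IsAut B (s * s) := fun x y => by
    rw [Equiv.Perm.mul_apply, Equiv.Perm.mul_apply, hs, hs]
  have hst2 : ∀ x, (s * s) x ∈ U ↔ x ∈ U := fun x => by
    rw [Equiv.Perm.mul_apply, hcr, hcr, not_not]
  have hsy : ∀ y, s.symm y ∈ U ↔ y ∉ U := fun y => by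
    have := hcr (s.symm y)
    rw [Equiv.apply_symm_apply] at this
    tauto
  set t := half3split U (s * s) hst2 with ht
  have hta : IsAut B t := half3split_aut B U D.hH.mod (s * s) hst2 hss2
  have hts : ∀ x, t x ∈ U ↔ x ∈ U := half3split_mem U (s * s) hst2
  have hmt : Q.map t.toEmbedding = Q.map s.toEmbedding := by
    ext y
    rw [mem_map_equiv, mem_map_equiv, ht, half3split_symm]
    by_cases hy : y ∈ U
    · rw [if_pos hy]
      have e1 : (s * s).symm y = s.symm (s.symm y) := rfl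
      have h5 : s.symm y ∉ U := fun h => ((hsy y).1 h) hy
      have h6 : s.symm (s.symm y) ∈ U := (hsy _).2 h5
      rw [e1]
      simp only [hQ, mem_union, mem_inter, mem_compl, mem_map_equiv]
      tauto
    · rw [if_neg hy]
      have h5 : s.symm y ∈ U := (hsy y).2 hy
      simp only [hQ, mem_union, mem_inter, mem_compl, mem_map_equiv]
      tauto
  have g1 := half3g_straight D t hta hts Q
  have g2 := half3g_cross D hab s hs hcr Q
  rw [hmt, g2] at g1
  have g3 : half3g B U f a Q = 0 := by linarith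
  rw [hgQ] at g3
  exact (mul_ne_zero he hg) g3

end half3

theorem t_HALF3 (h : S_HALF2) : S_HALF3 := by
  intro α _ _ B U n f hH hn h4
  obtain ⟨S₀, hS₀⟩ := hH.pos
  have h2 := h α B U n f hH hn
  have D : Half3D B U n f (half3q B U S₀) (half3q B Uᶜ S₀) S₀ := by
    refine ⟨hH, h2, ?_, ?_, hS₀, rfl⟩
    · obtain ⟨k, hk⟩ := h4
      exact ⟨2 * k, by omega⟩
    · have key : ∀ T, 0 < f T → (half3q B U T = half3q B U S₀ ∧ half3q B Uᶜ T = half3q B Uᶜ S₀) ∨
        (half3q B U T = half3q B Uᶜ S₀ ∧ half3q B Uᶜ T = half3q B U S₀) := by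
        intro T hT
        obtain ⟨s, hs, hss⟩ := hH.orbit S₀ T (mul_pos hS₀ hT)
        have e1 : ∀ V, half3q B V T = half3q B V (S₀.map s.toEmbedding) := by
          intro V
          rcases hss with h | h
          · rw [h]
          · rw [h, half3_q_compl]
        rw [e1, e1]
        rcases hH.aut s hs with h5 | h5
        · left
          exact ⟨half3_q_aut B U U S₀ s hs h5,
            half3_q_aut B Uᶜ Uᶜ S₀ s hs fun x => by rw [mem_compl, mem_compl, h5]⟩
        · right
          exact ⟨half3_q_aut B Uᶜ U S₀ s hs fun x => by rw [mem_compl, h5],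
            half3_q_aut B U Uᶜ S₀ s hs fun x => by rw [mem_compl, h5, not_not]⟩
      intro S hS
      rcases lt_or_gt_of_ne hS with h6 | h6
      · have := key (symmDiff S U) (by rw [h2]; linarith)
        rwa [half3_q_U, half3_q_U'] at this
      · exact key S h6
  have hg := half3_two D
  have he := (eigen U 0 (half3a B U f (half3q B U S₀)) (fun S => by
    have := hg S
    unfold half3g at this
    rw [this]; simp)).1 (n / 2 : ℕ) (by
      rw [hH.cardU]
      obtain ⟨k, hk⟩ := h4
      omega) S₀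
  rw [half3a_U D] at he
  have h7 : ((Int.negOnePow ((n / 2 : ℕ) : ℤ) : ℤˣ) : ℤ) = 1 := by
    have h8 : Even ((n / 2 : ℕ) : ℤ) := by
      obtain ⟨k, hk⟩ := h4
      exact ⟨k, by omega⟩
    rw [Int.negOnePow_even _ h8]
    rfl
  rw [h7] at he
  have h9 : half3a B U f (half3q B U S₀) S₀ = f S₀ := by
    unfold half3a
    rw [if_pos rfl]
  rw [h9] at he
  push_cast at he
  linarith

end Pool.Agent.NTW
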