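import Pool.Agent.NTW.St8

/-!
# MP_e73337_co, modules with exactly half of the vertices, `4 ≤ n` in place of `8 ≤ n` (helper39, Dec 5)

The same statements as in St8, with `4 ≤ n`; only HALF1 needs a new argument.

`theorem t_HALF1b : S_HALF1b`, `theorem t_HALF2b (h : S_HALF1b) : S_HALF2b`, `theorem t_HALF3b (h : S_HALF2b) : S_HALF3b`.
-/

set_option autoImplicit false

namespace Pool.Agent.NTW

open Finset Pool.Agent.Lib_helper61.SwitchBasic

/-- **HALF1b** (no hypothesis).  As HALF1: `F Y = ∑_(Z ⊆ W) f (Y ∪ Z)`, `|F Y| = K` for all `Y ⊆ U`; suppose `K ≠ 0`.  Let `O` be the set of the `S` with `0 < f S`, `O'` that of the `S` with `f S < 0`; `f` is constant on each (`orbit`, `inv`, `invc`), and the sum of all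
values is 0, so `v * card O = v' * card O' = m`.  Put `N = ` number of `S ∈ O` with `S ∩ U = ∅`, `N'` the same for `O'`.  CLAIM: `4 * N` is an integer multiple of `card O`: `4 * N = a * card O` (and `4 * N' = a' * card O'`).  Proof of the claim: if there is a crossed automorphism `s`, let `t` run over the four maps `S ↦ S, Sᶜ, s S, (s S)ᶜ`
of `O` to itself (bijections); otherwise over `S ↦ S, Sᶜ` (and then `2 * N = a * card O`).  For `S ∈ O` the number of the `t` with `t S ∩ U = ∅` does not depend on `S`: every `T ∈ O` is `r S` or `(r S)ᶜ`, and with `(x, y) = (card (S ∩ U), card (S ∩ W))` the pair for `T` is one of `(x, y)`, `(n - x, n - y)`, and if `r` is crossed `(y, x)`,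
`(n - y, n - x)`; the four pairs for `t S` are the same multiset for `S` and `T`.  Count the pairs `(S, t)`, `S ∈ O`, `t S ∩ U = ∅`, in two ways.  So `4 * F ∅ = 4 (v N - v' N') = (a - a') m` is not 0, `4 K ≥ m`.  But
`2 ^ n * K = ∑_(Y ⊆ U) |F Y| ≤ ∑_S |f S| = 2 m`, so `2 ^ n ≤ 8`, against `4 ≤ n`. -/
def S_HALF1b : Prop :=
  ∀ (α : Type) [Fintype α] [DecidableEq α] (B : SimpleGraph α) (U : Finset α) (n : ℕ)
    (f : Finset α → ℚ), Half B U n f → 4 ≤ n →
    ∀ Y ⊆ U, ∑ Z ∈ Uᶜ.powerset, f (Y ∪ Z) = 0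

/-- **HALF2b** (from HALF1b).  As HALF2. -/
def S_HALF2b : Prop :=
  ∀ (α : Type) [Fintype α] [DecidableEq α] (B : SimpleGraph α) (U : Finset α) (n : ℕ)
    (f : Finset α → ℚ), Half B U n f → 4 ≤ n → ∀ S, f (symmDiff S U) = - f S

/-- **HALF3b** (from HALF2b).  As HALF3. -/
def S_HALF3b : Prop :=
  ∀ (α : Type) [Fintype α] [DecidableEq α] (B : SimpleGraph α) (U : Finset α) (n : ℕ)
    (f : Finset α → ℚ), Half B U n f → 4 ≤ n → 4 ∣ n → False

end Pool.Agent.NTW
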