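import Pool.Agent.NTW.MHALF3
import Pool.Agent.NTW.St9

/-! Module HALF3b (statement of helper39): two halves, `4 ∣ n`, `4 ≤ n`. -/

set_option autoImplicit false

namespace Pool.Agent.NTW

open Finset Pool.Agent.Lib_helper61.SwitchBasic

/-- HALF3 from the conclusion of HALF2; no hypothesis on the size of `n` -/
theorem half3_core {α : Type} [Fintype α] [DecidableEq α] (B : SimpleGraph α) (U : Finset α) (n : ℕ)
    (f : Finset α → ℚ) (hH : Half B U n f) (h2 : ∀ S, f (symmDiff S U) = - f S) (h4 : 4 ∣ n) :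
    False := by
  obtain ⟨S₀, hS₀⟩ := hH.pos
  have D : Half3D B U n f (half3q B U S₀) (half3q B Uᶜ S₀) S₀ := by
    refine ⟨hH, h2, ?_, ?_, hS₀, rfl⟩
    · obtain ⟨k, hk⟩ := h4
      exact ⟨2 * k, by omega⟩
    · have key : ∀ T, 0 < f T → (half3q B U T = half3q B U S₀ ∧ half3q B Uᶜ T = half3q B Uᶜ S₀) ∨
        (half3q B U T = half3q B Uᶜ S₀ ∧ half3q B Uᶜ T = half3q B U S₀) := by
        intro T hT
        obtain ⟨s, hs, hss⟩ := hH.orbit S₀ T (mul_pos hS₀ hT)
        have e1 : ∀ V, half3q B V T = half3q B V (S₀.map s.toEmbedding) := by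
          intro V
          rcases hss with h | h
          · rw [h]
          · rw [h, half3_q_compl]
        rw [e1, e1]
        rcases hH.aut s hs with h5 | h5
        · left
          exact ⟨half3_q_aut B U U S₀ s hs h5,
            half3_q_aut B Uᶜ Uᶜ S₀ s hs fun x => by rw [mem_compl, mem_compl, h5]⟩
        · right
          exact ⟨half3_q_aut B Uᶜ U S₀ s hs fun x => by rw [mem_compl, h5],
            half3_q_aut B U Uᶜ S₀ s hs fun x => by rw [mem_compl, h5, not_not]⟩
      intro S hS
      rcases lt_or_gt_of_ne hS with h6 | h6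
      · have := key (symmDiff S U) (by rw [h2]; linarith)
        rwa [half3_q_U, half3_q_U'] at this
      · exact key S h6
  have hg := half3_two D
  have he := (eigen U 0 (half3a B U f (half3q B U S₀)) (fun S => by
    have := hg S
    unfold half3g at this
    rw [this]; simp)).1 (n / 2 : ℕ) (by
      rw [hH.cardU]
      obtain ⟨k, hk⟩ := h4
      omega) S₀
  rw [half3a_U D] at he
  have h7 : ((Int.negOnePow ((n / 2 : ℕ) : ℤ) : ℤˣ) : ℤ) = 1 := by
    have h8 : Even ((n / 2 : ℕ) : ℤ) := by
      obtain ⟨k, hk⟩ := h4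
      exact ⟨k, by omega⟩
    rw [Int.negOnePow_even _ h8]
    rfl
  rw [h7] at he
  have h9 : half3a B U f (half3q B U S₀) S₀ = f S₀ := by
    unfold half3a
    rw [if_pos rfl]
  rw [h9] at he
  push_cast at he
  linarith

theorem t_HALF3b (h : S_HALF2b) : S_HALF3b :=
  fun α _ _ B U n f hH hn h4 => half3_core B U n f hH (h α B U n f hH hn) h4

end Pool.Agent.NTW
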