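import Pool.Agent.NTW.St11

/-! Module HALF4 (statement of helper39): two halves, the exceptional case is balanced. -/

set_option autoImplicit false

namespace Pool.Agent.NTW

open Finset Pool.Agent.Lib_helper61.SwitchBasic

section half4

variable {α : Type} [Fintype α] [DecidableEq α]

omit [Fintype α] in
theorem half4_map (S V V' : Finset α) (r : Equiv.Perm α) (h : ∀ x, r x ∈ V' ↔ x ∈ V) :
    (S.map r.toEmbedding ∩ V').card = (S ∩ V).card := by
  have e : S.map r.toEmbedding ∩ V' = (S ∩ V).map r.toEmbedding := by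
    ext x
    have h1 := h (r.symm x)
    rw [Equiv.apply_symm_apply] at h1
    simp only [mem_inter, mem_map_equiv, h1]
  rw [e, card_map]

theorem half4_compl (S V : Finset α) : (Sᶜ ∩ V).card + (S ∩ V).card = V.card := by
  have h := card_sdiff_add_card_inter V S
  have e : Sᶜ ∩ V = V \ S := by
    ext x
    simp only [mem_inter, mem_compl, mem_sdiff]
    tauto
  rw [e, inter_comm S V]
  exact h

omit [Fintype α] in
theorem half4_sdU (S U : Finset α) : ((symmDiff S U) ∩ U).card + (S ∩ U).card = U.card := by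
  have h := card_sdiff_add_card_inter U S
  have e : symmDiff S U ∩ U = U \ S := by
    ext x
    simp only [mem_inter, mem_symmDiff, mem_sdiff]
    tauto
  rw [e, inter_comm S U]
  exact h

theorem half4_sdW (S U : Finset α) : (symmDiff S U) ∩ Uᶜ = S ∩ Uᶜ := by
  ext x
  simp only [mem_inter, mem_symmDiff, mem_compl]
  tauto

variable {B : SimpleGraph α} {U : Finset α} {n : ℕ} {f : Finset α → ℚ}

theorem half4_L (hH : Half B U n f) (h2 : ∀ S, f (symmDiff S U) = - f S) (P X : Finset α)
    (hX : X ∩ Uᶜ = P ∩ Uᶜ) (hp : 0 < f P * f X) : (X ∩ U).card = (P ∩ U).card := by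
  obtain ⟨r, hr, hrr⟩ := hH.orbit P X hp
  have cU := hH.cardU
  have cW := hH.cardW
  rcases hH.aut r hr with hst | hcr
  · rcases hrr with h | h
    · rw [h]
      exact half4_map P U U r hst
    · exfalso
      have hst' : ∀ x, r x ∈ Uᶜ ↔ x ∈ Uᶜ := fun x => by
        rw [mem_compl, mem_compl, hst]
      have hmod : ∀ u ∈ Uᶜ, ∀ u' ∈ Uᶜ, ∀ w ∉ Uᶜ, ∀ w' ∉ Uᶜ, (B.Adj u w ↔ B.Adj u' w') := by
        intro u hu u' hu' w hw w' hw'
        rw [mem_compl] at hu hu'
        rw [mem_compl, not_not] at hw hw'
        rw [B.adj_comm, B.adj_comm u' w']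
        exact hH.mod w hw w' hw' u hu u' hu'
      have hr'a : IsAut B (half3split Uᶜ r hst') := half3split_aut B Uᶜ hmod r hst' hr
      have e : P.map (half3split Uᶜ r hst').toEmbedding = (symmDiff P U)ᶜ := by
        ext y
        have hc : y ∈ (symmDiff P U)ᶜ ↔ y ∉ symmDiff P U := mem_compl
        rw [mem_map_equiv, half3split_symm, hc, mem_symmDiff]
        by_cases hy : y ∈ U
        · have hy' : y ∉ Uᶜ := by rw [mem_compl, not_not]; exact hy
          rw [if_neg hy']
          tauto
        · have hy' : y ∈ Uᶜ := mem_compl.2 hy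
          rw [if_pos hy']
          have h5 : y ∈ X ↔ y ∈ P := by
            have h6 : y ∈ X ∩ Uᶜ ↔ y ∈ P ∩ Uᶜ := by rw [hX]
            rw [mem_inter, mem_inter] at h6
            tauto
          have h7 : y ∈ X ↔ r.symm y ∉ P := by
            rw [h, mem_compl, mem_map_equiv]
          tauto
      have e1 := hH.inv _ hr'a P
      rw [e, hH.invc, h2] at e1
      have e2 : f P = 0 := by linarith
      rw [e2, zero_mul] at hp
      exact lt_irrefl _ hp
  · have m1 : (P.map r.toEmbedding ∩ U).card = (P ∩ Uᶜ).card :=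
      half4_map P Uᶜ U r fun x => by rw [mem_compl]; exact hcr x
    have m2 : (P.map r.toEmbedding ∩ Uᶜ).card = (P ∩ U).card :=
      half4_map P U Uᶜ r fun x => by rw [mem_compl, hcr, not_not]
    have hXc : (X ∩ Uᶜ).card = (P ∩ Uᶜ).card := by rw [hX]
    rcases hrr with h | h
    · rw [h] at hXc ⊢
      omega
    · rw [h] at hXc ⊢
      have c1 := half4_compl (P.map r.toEmbedding) U
      have c2 := half4_compl (P.map r.toEmbedding) Uᶜ
      omega

theorem half4_D (hH : Half B U n f) (h2 : ∀ S, f (symmDiff S U) = - f S) (hev : Even n)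
    {S₀ : Finset α} (hS₀ : 0 < f S₀) :
    Half3D B U n f (half3q B U S₀) (half3q B Uᶜ S₀) S₀ := by
  refine ⟨hH, h2, hev, ?_, hS₀, rfl⟩
  have key : ∀ T, 0 < f T → (half3q B U T = half3q B U S₀ ∧ half3q B Uᶜ T = half3q B Uᶜ S₀) ∨
      (half3q B U T = half3q B Uᶜ S₀ ∧ half3q B Uᶜ T = half3q B U S₀) := by
    intro T hT
    obtain ⟨s, hs, hss⟩ := hH.orbit S₀ T (mul_pos hS₀ hT)
    have e1 : ∀ V, half3q B V T = half3q B V (S₀.map s.toEmbedding) := by
      intro V
      rcases hss with h | h
      · rw [h]
      · rw [h, half3_q_compl]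
    rw [e1, e1]
    rcases hH.aut s hs with h5 | h5
    · left
      exact ⟨half3_q_aut B U U S₀ s hs h5,
        half3_q_aut B Uᶜ Uᶜ S₀ s hs fun x => by rw [mem_compl, mem_compl, h5]⟩
    · right
      exact ⟨half3_q_aut B Uᶜ U S₀ s hs fun x => by rw [mem_compl, h5],
        half3_q_aut B U Uᶜ S₀ s hs fun x => by rw [mem_compl, h5, not_not]⟩
  intro S hS
  rcases lt_or_gt_of_ne hS with h6 | h6
  · have := key (symmDiff S U) (by rw [h2]; linarith)
    rwa [half3_q_U, half3_q_U'] at this
  · exact key S h6

end half4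

theorem t_HALF4 : S_HALF4 := by
  intro α _ _ B U n f hH hn hev h2 S hS
  by_contra hk
  obtain ⟨P, hP0, hPk⟩ : ∃ P : Finset α, f P ≠ 0 ∧ 2 * (P ∩ U).card < n := by
    rcases lt_or_gt_of_ne hk with h | h
    · exact ⟨S, hS, h⟩
    · refine ⟨symmDiff S U, by rw [h2]; exact neg_ne_zero.2 hS, ?_⟩
      have := half4_sdU S U
      rw [hH.cardU] at this
      omega
  obtain ⟨S₀, hS₀, hq₀⟩ : ∃ S₀ : Finset α, 0 < f S₀ ∧ half3q B U S₀ = half3q B U P := by
    rcases lt_or_gt_of_ne hP0 with h | h
    · exact ⟨symmDiff P U, by rw [h2]; linarith, half3_q_U B U P⟩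
    · exact ⟨P, h, rfl⟩
  have hg := half3_two (half4_D hH h2 hev hS₀)
  obtain ⟨u₀, hu₀, hu₀'⟩ : ∃ u₀ ∈ U, (P ∩ U).card = 0 ∨ u₀ ∈ P := by
    by_cases hc : (P ∩ U).card = 0
    · have hne : U.Nonempty := by
        rw [← card_pos, hH.cardU]
        omega
      obtain ⟨u, hu⟩ := hne
      exact ⟨u, hu, Or.inl hc⟩
    · obtain ⟨u, hu⟩ := card_pos.1 (Nat.pos_of_ne_zero hc)
      exact ⟨u, (mem_inter.1 hu).2, Or.inr (mem_inter.1 hu).1⟩
  have hs := hg (symmDiff P {u₀})
  unfold half3g at hs
  have hs2 : ∑ i ∈ U, f P * half3a B U f (half3q B U S₀) (symmDiff (symmDiff P {u₀}) {i}) = 0 := by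
    rw [← mul_sum, hs, mul_zero]
  have hu₀t : f P * half3a B U f (half3q B U S₀) (symmDiff (symmDiff P {u₀}) {u₀}) =
      f P * f P := by
    rw [symmDiff_symmDiff_cancel_right]
    unfold half3a
    rw [if_pos hq₀.symm]
  have hnn : ∀ i ∈ U, 0 ≤ f P * half3a B U f (half3q B U S₀)
      (symmDiff (symmDiff P {u₀}) {i}) := by
    intro i hi
    by_cases hiu : i = u₀
    · rw [hiu, hu₀t]
      exact mul_self_nonneg _
    · set X : Finset α := symmDiff (symmDiff P {u₀}) {i} with hXdef
      unfold half3a
      split_ifs with hq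
      · by_contra hneg
        push Not at hneg
        have hW : X ∩ Uᶜ = P ∩ Uᶜ := by
          ext x
          have hxi : x = i → x ∈ U := fun h => h ▸ hi
          have hxu : x = u₀ → x ∈ U := fun h => h ▸ hu₀
          simp only [hXdef, mem_symmDiff, mem_inter, mem_compl, mem_singleton]
          tauto
        have h3 := half4_L hH h2 P (symmDiff X U) (by rw [half4_sdW, hW]) (by rw [h2]; linarith)
        have h4 := half4_sdU X U
        rw [hH.cardU, h3] at h4
        have h5 : (X ∩ U).card ≤ (P ∩ U).card ∨ ((P ∩ U).card = 0 ∧ (X ∩ U).card ≤ 2) := by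
          rcases hu₀' with h6 | h6
          · right
            refine ⟨h6, ?_⟩
            have hsub : X ∩ U ⊆ {u₀, i} := by
              intro x hx
              have h7 : x ∉ P ∩ U := by
                rw [card_eq_zero.1 h6]
                exact notMem_empty x
              rw [mem_inter] at h7
              simp only [hXdef, mem_symmDiff, mem_inter, mem_singleton] at hx
              rw [mem_insert, mem_singleton]
              tauto
            exact (card_le_card hsub).trans card_le_two
          · left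
            have hsub : X ∩ U ⊆ insert i ((P ∩ U).erase u₀) := by
              intro x hx
              simp only [hXdef, mem_symmDiff, mem_inter, mem_singleton] at hx
              simp only [mem_insert, mem_erase, mem_inter]
              by_cases hx1 : x = u₀
              · subst hx1
                tauto
              · tauto
            have h8 := (card_le_card hsub).trans (card_insert_le _ _)
            have h9 := card_erase_add_one (mem_inter.2 ⟨h6, hu₀⟩ : u₀ ∈ P ∩ U)
            omega
        rcases h5 with h5 | h5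
        · omega
        · omega
      · rw [mul_zero]
  have h0 := (sum_eq_zero_iff_of_nonneg hnn).1 hs2 u₀ hu₀
  rw [hu₀t] at h0
  exact hP0 (mul_self_eq_zero.1 h0)

end Pool.Agent.NTW
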