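import Pool.Agent.NTW.St12
import Pool.Agent.NTW.MRM
import Pool.Agent.NTW.MDEG

/-! Module HALF5 (statement of helper39): two halves, in the exceptional case both sides are
symmetric. -/

set_option autoImplicit false

namespace Pool.Agent.NTW

open Finset Pool.Agent.Lib_helper61.SwitchBasic

section half5

theorem half5_count {β : Type} [Fintype β] [DecidableEq β] (g : Finset β → ℚ)
    (hs : ∀ T, ∑ i : β, g (symmDiff T {i}) = 0) (hn : ∃ X, g X ≠ 0) :
    2 ^ (Fintype.card β - Fintype.card β / 2) ≤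
      ((univ : Finset (Finset β)).filter fun X => g X ≠ 0).card := by
  have h1 : DegLE univ (Fintype.card β / 2) g := by
    intro T _ hT
    exact t_DEG β g hs T (by omega)
  obtain ⟨X, hX⟩ := hn
  have h2 := t_RM β univ (Fintype.card β / 2) g h1 ⟨X, subset_univ X, hX⟩
  rw [card_univ, powerset_univ] at h2
  exact h2

variable {α : Type} [Fintype α] [DecidableEq α]

/-- a subset of `U` together with `Y` -/
def half5up (U Y : Finset α) (Z : Finset {x // x ∈ U}) : Finset α :=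
  Z.map (Function.Embedding.subtype _) ∪ Y

omit [Fintype α] in
theorem half5_mem_up {U Y : Finset α} (Z : Finset {x // x ∈ U}) (x : α) :
    x ∈ half5up U Y Z ↔ (∃ hx : x ∈ U, (⟨x, hx⟩ : {x // x ∈ U}) ∈ Z) ∨ x ∈ Y := by
  unfold half5up
  rw [mem_union, mem_map]
  constructor
  · rintro (⟨y, hy, hyx⟩ | h)
    · left
      subst hyx
      exact ⟨y.2, hy⟩
    · exact Or.inr h
  · rintro (⟨hx, hz⟩ | h)
    · exact Or.inl ⟨⟨x, hx⟩, hz, rfl⟩
    · exact Or.inr h

omit [Fintype α] in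
theorem half5_up_sd {U Y : Finset α} (hY : Disjoint U Y) (Z : Finset {x // x ∈ U})
    (i : {x // x ∈ U}) :
    half5up U Y (symmDiff Z {i}) = symmDiff (half5up U Y Z) {i.1} := by
  have hiY : i.1 ∉ Y := fun h => (Finset.disjoint_left.1 hY) i.2 h
  ext x
  rw [half5_mem_up, mem_symmDiff, half5_mem_up, mem_singleton]
  by_cases hx : x ∈ U
  · have hxY : x ∉ Y := fun h => (Finset.disjoint_left.1 hY) hx h
    have e : (⟨x, hx⟩ : {x // x ∈ U}) = i ↔ x = i.1 := by
      rw [Subtype.ext_iff]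
    have e1 : (∃ hx : x ∈ U, (⟨x, hx⟩ : {x // x ∈ U}) ∈ symmDiff Z {i}) ↔
        (⟨x, hx⟩ : {x // x ∈ U}) ∈ symmDiff Z {i} := ⟨fun ⟨_, h⟩ => h, fun h => ⟨hx, h⟩⟩
    have e2 : (∃ hx : x ∈ U, (⟨x, hx⟩ : {x // x ∈ U}) ∈ Z) ↔
        (⟨x, hx⟩ : {x // x ∈ U}) ∈ Z := ⟨fun ⟨_, h⟩ => h, fun h => ⟨hx, h⟩⟩
    rw [e1, e2, mem_symmDiff, mem_singleton, e]
    tauto
  · have e1 : ¬ ∃ hx : x ∈ U, (⟨x, hx⟩ : {x // x ∈ U}) ∈ symmDiff Z {i} :=
      fun ⟨h, _⟩ => hx h
    have e2 : ¬ ∃ hx : x ∈ U, (⟨x, hx⟩ : {x // x ∈ U}) ∈ Z := fun ⟨h, _⟩ => hx h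
    have e3 : x ≠ i.1 := fun h => hx (h ▸ i.2)
    tauto

/-- the restriction of a straight automorphism -/
def half5iso (B : SimpleGraph α) (U : Finset α) (r : Equiv.Perm α) (hr : IsAut B r)
    (h : ∀ x, r x ∈ U ↔ x ∈ U) : B.induce {x | x ∈ U} ≃g B.induce {x | x ∈ U} where
  toFun x := ⟨r x.1, (h x.1).2 x.2⟩
  invFun x := ⟨r.symm x.1, by
    change r.symm x.1 ∈ U
    rw [← h, Equiv.apply_symm_apply]
    exact x.2⟩
  left_inv x := Subtype.ext (r.symm_apply_apply x.1)
  right_inv x := Subtype.ext (r.apply_symm_apply x.1)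
  map_rel_iff' := by
    intro u v
    exact hr u.1 v.1

theorem half5_rep {B : SimpleGraph α} {U : Finset α} {n : ℕ} {f : Finset α → ℚ}
    (hH : Half B U n f) :
    ∃ ρ : Bool → Equiv.Perm α, (∀ c, IsAut B (ρ c)) ∧
      ∀ r : Equiv.Perm α, IsAut B r → ∃ c, ∀ x, (r x ∈ U ↔ ρ c x ∈ U) := by
  have h1 : IsAut B (1 : Equiv.Perm α) := fun u v => Iff.rfl
  by_cases hc : ∃ r₀ : Equiv.Perm α, IsAut B r₀ ∧ ∀ x, r₀ x ∈ U ↔ x ∉ U
  · obtain ⟨r₀, h2, h3⟩ := hc
    refine ⟨fun c => if c = true then 1 else r₀, ?_, ?_⟩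
    · intro c
      cases c
      · exact h2
      · exact h1
    · intro r hr
      rcases hH.aut r hr with h | h
      · exact ⟨true, fun x => h x⟩
      · exact ⟨false, fun x => (h x).trans (h3 x).symm⟩
  · refine ⟨fun _ => 1, fun _ => h1, ?_⟩
    intro r hr
    rcases hH.aut r hr with h | h
    · exact ⟨true, fun x => h x⟩
    · exact absurd ⟨r, hr, h⟩ hc

theorem half5_class {B : SimpleGraph α} {U : Finset α} {n : ℕ} {f : Finset α → ℚ}
    (hH : Half B U n f) (h2 : ∀ S, f (symmDiff S U) = - f S) {P : Finset α} (hP : 0 < f P)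
    (X : Finset α) (hX : f X ≠ 0) :
    ∃ r : Equiv.Perm α, IsAut B r ∧ ((∀ y ∈ U, (y ∈ X ↔ r.symm y ∈ P)) ∨
      (∀ y ∈ U, (y ∈ X ↔ r.symm y ∉ P))) := by
  rcases lt_or_gt_of_ne hX with h | h
  · have h3 : 0 < f (symmDiff X U) := by
      rw [h2]
      linarith
    obtain ⟨r, hr, hrr⟩ := hH.orbit P _ (mul_pos hP h3)
    refine ⟨r, hr, ?_⟩
    rcases hrr with h4 | h4
    · right
      intro y hy
      have h5 : y ∈ symmDiff X U ↔ r.symm y ∈ P := by rw [h4, mem_map_equiv]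
      rw [mem_symmDiff] at h5
      tauto
    · left
      intro y hy
      have h5 : y ∈ symmDiff X U ↔ r.symm y ∉ P := by rw [h4, mem_compl, mem_map_equiv]
      rw [mem_symmDiff] at h5
      tauto
  · obtain ⟨r, hr, hrr⟩ := hH.orbit P _ (mul_pos hP h)
    refine ⟨r, hr, ?_⟩
    rcases hrr with h4 | h4
    · left
      intro y _
      rw [h4, mem_map_equiv]
    · right
      intro y _
      rw [h4, mem_compl, mem_map_equiv]

end half5

theorem t_HALF5 : S_HALF5 := by
  intro α _ _ B U n f hH hev h2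
  classical
  obtain ⟨P, hP⟩ := hH.pos
  have D := half4_D hH h2 hev hP
  have hdis : Disjoint U (P ∩ Uᶜ) :=
    Finset.disjoint_left.2 fun x hx hx' => (mem_compl.1 (mem_inter.1 hx').2) hx
  set g : Finset {x // x ∈ U} → ℚ :=
    fun Z => half3a B U f (half3q B U P) (half5up U (P ∩ Uᶜ) Z) with hg
  have hs : ∀ T, ∑ i : {x // x ∈ U}, g (symmDiff T {i}) = 0 := by
    intro T
    have h3 := half3_two D (half5up U (P ∩ Uᶜ) T)
    unfold half3g at h3
    rw [← Finset.sum_coe_sort] at h3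
    rw [← h3]
    refine sum_congr rfl fun i _ => ?_
    rw [hg]
    simp only
    rw [half5_up_sd hdis]
  have hne : ∃ X, g X ≠ 0 := by
    refine ⟨univ.filter fun y => y.1 ∈ P, ?_⟩
    have e : half5up U (P ∩ Uᶜ) (univ.filter fun y : {x // x ∈ U} => y.1 ∈ P) = P := by
      ext x
      rw [half5_mem_up, mem_inter, mem_compl]
      constructor
      · rintro (⟨hx, h⟩ | h)
        · exact (mem_filter.1 h).2
        · exact h.1
      · intro h
        by_cases hx : x ∈ U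
        · exact Or.inl ⟨hx, mem_filter.2 ⟨mem_univ _, h⟩⟩
        · exact Or.inr ⟨h, hx⟩
    rw [hg]
    simp only
    rw [e]
    unfold half3a
    rw [if_pos rfl]
    exact hP.ne'
  have h4 := half5_count g hs hne
  rw [Fintype.card_coe, hH.cardU] at h4
  refine h4.trans ?_
  obtain ⟨ρ, hρ, hρ'⟩ := half5_rep hH
  have : Finite (B.induce {x | x ∈ U} ≃g B.induce {x | x ∈ U}) := DFunLike.finite _
  let Φ : Bool × Bool × (B.induce {x | x ∈ U} ≃g B.induce {x | x ∈ U}) →
      Finset {x // x ∈ U} := fun p => univ.filter fun y =>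
        (p.2.1 = true ↔ (ρ p.1).symm (p.2.2.symm ⟨y.1, y.2⟩).1 ∈ P)
  have hsub : (((univ : Finset (Finset {x // x ∈ U})).filter fun X => g X ≠ 0 :
      Finset (Finset {x // x ∈ U})) : Set (Finset {x // x ∈ U})) ⊆ Φ '' Set.univ := by
    intro Z hZ
    have hZ1 : g Z ≠ 0 := (mem_filter.1 (mem_coe.1 hZ)).2
    have hZ2 : f (half5up U (P ∩ Uᶜ) Z) ≠ 0 := by
      intro h
      apply hZ1
      rw [hg]
      simp only
      unfold half3a
      rw [h, ite_self]
    obtain ⟨r, hr, hrr⟩ := half5_class hH h2 hP _ hZ2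
    obtain ⟨c, hc⟩ := hρ' r hr
    have ha : IsAut B ((ρ c).symm.trans r) := by
      intro u v
      rw [Equiv.trans_apply, Equiv.trans_apply, hr]
      have := hρ c ((ρ c).symm u) ((ρ c).symm v)
      rw [Equiv.apply_symm_apply, Equiv.apply_symm_apply] at this
      exact this.symm
    have hb : ∀ x, ((ρ c).symm.trans r) x ∈ U ↔ x ∈ U := by
      intro x
      rw [Equiv.trans_apply, hc, Equiv.apply_symm_apply]
    have hmem : ∀ y : {x // x ∈ U}, y ∈ Z ↔ y.1 ∈ half5up U (P ∩ Uᶜ) Z := by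
      intro y
      rw [half5_mem_up, mem_inter, mem_compl]
      constructor
      · intro h
        exact Or.inl ⟨y.2, h⟩
      · rintro (⟨_, h⟩ | h)
        · exact h
        · exact absurd y.2 h.2
    have hval : ∀ y : {x // x ∈ U},
        (ρ c).symm ((half5iso B U _ ha hb).symm ⟨y.1, y.2⟩).1 = r.symm y.1 := by
      intro y
      change (ρ c).symm (((ρ c).symm.trans r).symm y.1) = r.symm y.1
      rw [Equiv.symm_trans_apply, Equiv.symm_symm, Equiv.symm_apply_apply]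
    rcases hrr with h5 | h5
    · refine ⟨(c, true, half5iso B U _ ha hb), Set.mem_univ _, ?_⟩
      ext y
      change y ∈ univ.filter (fun y : {x // x ∈ U} => (true = true ↔
        (ρ c).symm ((half5iso B U _ ha hb).symm ⟨y.1, y.2⟩).1 ∈ P)) ↔ y ∈ Z
      rw [mem_filter, hval y, hmem y, h5 y.1 y.2]
      simp
    · refine ⟨(c, false, half5iso B U _ ha hb), Set.mem_univ _, ?_⟩
      ext y
      change y ∈ univ.filter (fun y : {x // x ∈ U} => (false = true ↔
        (ρ c).symm ((half5iso B U _ ha hb).symm ⟨y.1, y.2⟩).1 ∈ P)) ↔ y ∈ Z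
      rw [mem_filter, hval y, hmem y, h5 y.1 y.2]
      simp
  have hfin : (Set.univ : Set (Bool × Bool ×
      (B.induce {x | x ∈ U} ≃g B.induce {x | x ∈ U}))).Finite := Set.toFinite _
  have h6 := Set.ncard_le_ncard hsub (hfin.image Φ)
  rw [Set.ncard_coe_finset] at h6
  refine h6.trans ((Set.ncard_image_le hfin).trans ?_)
  rw [Set.ncard_univ, Nat.card_prod, Nat.card_prod, Nat.card_eq_fintype_card (α := Bool),
    Fintype.card_bool]
  omega

end Pool.Agent.NTW
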