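import Mathlib
import Pool.Agent.NTW.St4

/-! Module NUM3 of `Pool/Agent/NTW/St4.lean` (helper87; after `MNUM.lean` of helper39). -/

set_option autoImplicit false

namespace Pool.Agent.NTW

theorem t_NUM3 : S_NUM3 := by
  intro M hM4 p e r h1 h2 h3
  have hp2 : 2 ≤ p := by omega
  have hpL : p ≤ 2 ^ Nat.clog 2 p := Nat.le_pow_clog (by norm_num) p
  generalize hL : Nat.clog 2 p = L at *
  have hL1 : 1 ≤ L := by
    rcases Nat.eq_zero_or_pos L with h0 | h0
    · rw [h0] at hpL; norm_num at hpL; omega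
    · exact h0
  have hL7 : 7 ≤ L := by
    by_contra hlt
    have h6 : L ≤ 6 := by omega
    have hp64 : 2 ^ L ≤ 2 ^ 6 := Nat.pow_le_pow_right (by norm_num) h6
    have hL2 : 1 ≤ L ^ 2 := Nat.one_le_pow _ _ hL1
    have : 4 ≤ M * L ^ 2 := by nlinarith
    nlinarith
  -- atoms
  obtain ⟨c, hc⟩ : ∃ c, c = 2 * M := ⟨_, rfl⟩
  have hD : 12 * M * L ^ 2 = 6 * c * L ^ 2 := by rw [hc]; ring
  rw [hD] at h3
  have h1' : 2 * (6 * c * L ^ 2) + 2 ≤ p := by
    have : 2 * (6 * c * L ^ 2) = 24 * M * L ^ 2 := by rw [hc]; ring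
    omega
  have h2' : 3 * c * L * e ≤ p := by
    have : 3 * c * L * e = 6 * M * L * e := by rw [hc]; ring
    omega
  obtain ⟨q, hq⟩ : ∃ q, q = p / (6 * c * L ^ 2) := ⟨_, rfl⟩
  rw [← hq] at h3
  have hDq : 6 * c * L ^ 2 * q ≤ p := by rw [hq]; exact Nat.mul_div_le _ _
  -- key inequality
  have key : c * (2 + L * r) < p := by
    have e1 : c * (L * r) ≤ c * (L * ((2 * L + 2) * (q + 1) + 1 + e)) :=
      Nat.mul_le_mul_left _ (Nat.mul_le_mul_left _ h3)
    have e2 : c * (L * ((2 * L + 2) * (q + 1) + 1 + e))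
        = 2 * (c * L ^ 2 * q) + 2 * (c * L * q) + 2 * (c * L ^ 2) + 3 * (c * L) + c * L * e := by
      ring
    have e3 : 7 * (c * L * q) ≤ c * L ^ 2 * q := by
      have : c * L ^ 2 * q = L * (c * L * q) := by ring
      rw [this]; exact Nat.mul_le_mul_right _ hL7
    have e4 : 7 * (c * L) ≤ c * L ^ 2 := by
      have : c * L ^ 2 = L * (c * L) := by ring
      rw [this]; exact Nat.mul_le_mul_right _ hL7
    have e5 : 7 * c ≤ c * L := by
      rw [mul_comm c L]; exact Nat.mul_le_mul_right _ hL7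
    have e6 : 6 * (c * L ^ 2 * q) ≤ p := by
      have : 6 * c * L ^ 2 * q = 6 * (c * L ^ 2 * q) := by ring
      omega
    have e7 : 3 * (c * L * e) ≤ p := by
      have : 3 * c * L * e = 3 * (c * L * e) := by ring
      omega
    have e8 : 12 * (c * L ^ 2) + 2 ≤ p := by
      have : 2 * (6 * c * L ^ 2) + 2 = 12 * (c * L ^ 2) + 2 := by ring
      omega
    have e9 : c * (2 + L * r) = 2 * c + c * (L * r) := by ring
    rw [e9]
    generalize c * L ^ 2 * q = x1 at *
    generalize c * L * q = x2 at *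
    generalize c * L ^ 2 = x3 at *
    generalize c * L * e = x4 at *
    generalize c * L = x5 at *
    generalize c * (L * r) = x6 at *
    omega
  have hb : 4 * p ^ r ≤ 2 ^ (2 + L * r) := by
    rw [pow_add, pow_mul]
    exact Nat.mul_le_mul (by norm_num) (Nat.pow_le_pow_left hpL r)
  calc (4 * p ^ r) ^ M ≤ (2 ^ (2 + L * r)) ^ M := Nat.pow_le_pow_left hb M
    _ = 2 ^ ((2 + L * r) * M) := by rw [← pow_mul]
    _ < 2 ^ (p - p / 2) := by
        apply Nat.pow_lt_pow_right (by norm_num)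
        have h8 : 2 * ((2 + L * r) * M) = c * (2 + L * r) := by
          rw [hc]; ring
        omega

end Pool.Agent.NTW
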