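import Pool.Agent.NTW.St10

/-!
MP_e73337_co, module NTW_PRQ (helper73).
-/

set_option autoImplicit false

namespace Pool.Agent.NTW

open Finset Pool.Agent.Lib_helper61.SwitchBasic

theorem t_PRQ : S_PRQ := by
  intro p r F G π hsurj hadj
  have hadj' : ∀ x z, π x ≠ π z → (G.Adj x z ↔ F.Adj (π x) (π z)) := hadj
  refine ⟨?_, ?_, ?_⟩
  · intro hF W hWm hWu
    have hmem : ∀ x, x ∈ W ↔ π x ∈ W.image π := by
      intro x
      constructor
      · intro hx
        exact mem_image_of_mem π hx
      · intro hx
        obtain ⟨y, hy, hyx⟩ := mem_image.1 hx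
        exact hWu y hy x (by simp only [hyx])
    have hmod : IsMod F (W.image π) := by
      intro i hi j hj
      obtain ⟨z, hz, rfl⟩ := mem_image.1 hi
      obtain ⟨w, hw, rfl⟩ := mem_image.1 hj
      rcases hWm z hz w hw with h | h
      · left
        intro l hl
        obtain ⟨x, rfl⟩ := hsurj l
        have hx : x ∉ W := fun hx => hl ((hmem x).1 hx)
        have h1 : π x ≠ π z := fun e => hl (e ▸ hi)
        have h2 : π x ≠ π w := fun e => hl (e ▸ hj)
        rw [← hadj' x z h1, ← hadj' x w h2]
        exact h x hx
      · right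
        intro l hl
        obtain ⟨x, rfl⟩ := hsurj l
        have hx : x ∉ W := fun hx => hl ((hmem x).1 hx)
        have h1 : π x ≠ π z := fun e => hl (e ▸ hi)
        have h2 : π x ≠ π w := fun e => hl (e ▸ hj)
        rw [← hadj' x z h1, ← hadj' x w h2]
        exact h x hx
    rcases hF _ hmod with h | h
    · left
      intro x hx y hy
      have := card_le_one.1 h (π x) ((hmem x).1 hx) (π y) ((hmem y).1 hy)
      simp only [this]
    · right
      intro x hx y hy
      have hc : ((W.image π)ᶜ).card ≤ 1 := by
        rw [card_compl, Fintype.card_fin]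
        omega
      have hx' : π x ∈ (W.image π)ᶜ := by
        rw [mem_compl]
        exact fun h' => hx ((hmem x).2 h')
      have hy' : π y ∈ (W.image π)ᶜ := by
        rw [mem_compl]
        exact fun h' => hy ((hmem y).2 h')
      have := card_le_one.1 hc (π x) hx' (π y) hy'
      simp only [this]
  · intro i z hz w hw
    rw [Fin5.mem_part] at hz hw
    have hzw : π z = π w := Fin.ext (hz.trans hw.symm)
    left
    intro x hx
    rw [Fin5.mem_part] at hx
    have h1 : π x ≠ π z := fun e => hx (by rw [e]; exact hz)
    have h2 : π x ≠ π w := hzw ▸ h1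
    rw [hadj' x z h1, hadj' x w h2, hzw]
  · have h1 : (univ.image (fun x => (π x : ℕ))) = (univ.image π).image Fin.val := by
      rw [image_image]
      rfl
    rw [h1, image_univ_of_surjective hsurj, card_image_of_injective _ Fin.val_injective,
      card_univ, Fintype.card_fin]

end Pool.Agent.NTW
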