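import Pool.Agent.NTW.St10

/-!
QAUT: class automorphisms descend to the quotient (module NTW_QAUT).
-/

set_option autoImplicit false

namespace Pool.Agent.NTW

open Finset Pool.Agent.Lib_helper61.SwitchBasic

private theorem qaut_one (p r : ℕ) (F : SimpleGraph (Fin r)) (G : SimpleGraph (Fin p))
    (π : Fin p → Fin r) (hπ : Function.Surjective π) (hr : 2 ≤ r)
    (hF : ∀ u v, π u ≠ π v → (G.Adj u v ↔ F.Adj (π u) (π v)))
    (hpart : ∀ s : Equiv.Perm (Fin p), IsClassAut G s → ∀ x y, π x = π y → π (s x) = π (s y))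
    (s : Equiv.Perm (Fin p)) (hs : IsClassAut G s) :
    ∃ σ : Equiv.Perm (Fin r), IsClassAut F σ ∧ ∀ x, σ (π x) = π (s x) := by
  classical
  have hp1 := hpart s hs
  have hp2 := hpart s⁻¹ (Fin6.classAut_inv G s hs)
  have hback : ∀ x y, π (s x) = π (s y) → π x = π y := by
    intro x y h
    have h1 := hp2 (s x) (s y) h
    have e1 : s⁻¹ (s x) = x := s.symm_apply_apply x
    have e2 : s⁻¹ (s y) = y := s.symm_apply_apply y
    rwa [e1, e2] at h1
  choose g hg using hπ
  let f : Fin r → Fin r := fun i => π (s (g i))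
  have hf : ∀ x, f (π x) = π (s x) := fun x => hp1 _ _ (hg (π x))
  have hinj : Function.Injective f := by
    intro i j h
    have h1 := hback _ _ h
    rwa [hg, hg] at h1
  let σ : Equiv.Perm (Fin r) := Equiv.ofBijective f (Finite.injective_iff_bijective.1 hinj)
  have hσ : ∀ x, σ (π x) = π (s x) := fun x => hf x
  obtain ⟨T, hT⟩ := hs
  -- the key equivalence
  have key : ∀ u v, π u ≠ π v → ((s u ∈ T ↔ s v ∈ T) ↔
      (F.Adj (σ (π u)) (σ (π v)) ↔ F.Adj (π u) (π v))) := by
    intro u v huv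
    have h1 := hT u v
    rw [sw_adj] at h1
    have h2 : s u ≠ s v := fun e => huv (by rw [s.injective e])
    have h3 : π (s u) ≠ π (s v) := fun e => huv (hback _ _ e)
    have h4 := hF u v huv
    have h5 := hF (s u) (s v) h3
    rw [hσ, hσ]
    tauto
  have hT1 : ∀ u u', π (s u) = π (s u') → (s u ∈ T ↔ s u' ∈ T) := by
    intro u u' h
    have h1 := hback _ _ h
    have hne : ∃ j : Fin r, j ≠ π u := by
      by_contra hcon
      push Not at hcon
      have h0 := hcon ⟨0, by omega⟩
      have h1' := hcon ⟨1, by omega⟩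
      rw [← h1'] at h0
      have := congrArg Fin.val h0
      simp at this
    obtain ⟨j, hj⟩ := hne
    have hv : π (g j) = j := hg j
    have k1 := key u (g j) (by rw [hv]; exact hj.symm)
    have k2 := key u' (g j) (by rw [hv, ← h1]; exact hj.symm)
    rw [← h1] at k2
    tauto
  have hT2 : ∀ a a', π a = π a' → (a ∈ T ↔ a' ∈ T) := by
    intro a a' h
    have e1 : s (s.symm a) = a := s.apply_symm_apply a
    have e2 : s (s.symm a') = a' := s.apply_symm_apply a'
    have h1 := hT1 (s.symm a) (s.symm a') (by rw [e1, e2]; exact h)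
    rwa [e1, e2] at h1
  have hT3 : ∀ a, π a ∈ T.image π ↔ a ∈ T := by
    intro a
    rw [Finset.mem_image]
    constructor
    · rintro ⟨b, hb, hba⟩
      exact (hT2 b a hba).1 hb
    · intro ha
      exact ⟨a, ha, rfl⟩
  refine ⟨σ, ⟨T.image π, ?_⟩, hσ⟩
  intro i j
  by_cases hij : i = j
  · rw [hij]
    exact iff_of_false (SimpleGraph.irrefl _) (SimpleGraph.irrefl _)
  · have hi : π (g i) = i := hg i
    have hj : π (g j) = j := hg j
    have hne : π (g i) ≠ π (g j) := by rw [hi, hj]; exact hij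
    have k := key (g i) (g j) hne
    have m1 := hT3 (s (g i))
    have m2 := hT3 (s (g j))
    rw [← hσ, hi] at m1
    rw [← hσ, hj] at m2
    rw [hi, hj] at k
    have hne2 : σ i ≠ σ j := fun e => hij (σ.injective e)
    rw [sw_adj, m1, m2]
    tauto

theorem t_QAUT : S_QAUT := by
  intro p r F G π hπ hr hF hpart
  unfold partImages
  have hsub : {h : Fin p → ℕ | ∃ s : Equiv.Perm (Fin p), IsClassAut G s ∧
      h = fun x => ((π (s x) : Fin r) : ℕ)} ⊆
      (fun (σ : Equiv.Perm (Fin r)) (x : Fin p) => ((σ (π x) : Fin r) : ℕ)) ''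
        {σ : Equiv.Perm (Fin r) | IsClassAut F σ} := by
    rintro h ⟨s, hs, rfl⟩
    obtain ⟨σ, h1, h2⟩ := qaut_one p r F G π hπ hr hF hpart s hs
    exact ⟨σ, h1, by funext x; simp only [h2]⟩
  refine le_trans (Set.ncard_le_ncard hsub (Set.toFinite _)) ?_
  exact Set.ncard_image_le (Set.toFinite _)

end Pool.Agent.NTW
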