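import Pool.Agent.NTW.St3

set_option autoImplicit false

/-!
# Separation numbers of a strongly regular graph (module SRG1)
-/

namespace Pool.Agent.NTW

open Finset

theorem t_SRG1 : S_SRG1 := by
  intro α _ _ G _ v k l m h y z hyz
  classical
  have hN : ∀ x : α, (G.neighborFinset x).card = k := fun x => h.regular x
  have hcom : ∀ x w : α, (G.neighborFinset x ∩ G.neighborFinset w).card =
      Fintype.card (G.commonNeighbors x w) := by
    intro x w
    rw [← Set.toFinset_card]
    congr 1
    ext u
    simp [SimpleGraph.mem_commonNeighbors]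
  have hdiff : ∀ x w : α, (G.neighborFinset x \ G.neighborFinset w).card =
      k - Fintype.card (G.commonNeighbors x w) := by
    intro x w
    rw [Finset.card_sdiff, Finset.inter_comm, hcom, hN]
  have hsep : sep G y z = (G.neighborFinset y \ G.neighborFinset z).erase z ∪
      (G.neighborFinset z \ G.neighborFinset y).erase y := by
    ext x
    simp only [sep, mem_filter, mem_univ, true_and, mem_union, mem_erase, mem_sdiff,
      SimpleGraph.mem_neighborFinset]
    constructor
    · rintro ⟨h1, h2, h3⟩
      by_cases h4 : G.Adj x y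
      · have h5 : ¬ G.Adj x z := fun h5 => h3 ⟨fun _ => h5, fun _ => h4⟩
        exact Or.inl ⟨h2, h4.symm, fun h6 => h5 h6.symm⟩
      · have h5 : G.Adj x z := by
          by_contra h5
          exact h3 ⟨fun h6 => absurd h6 h4, fun h6 => absurd h6 h5⟩
        exact Or.inr ⟨h1, h5.symm, fun h6 => h4 h6.symm⟩
    · rintro (⟨h1, h2, h3⟩ | ⟨h1, h2, h3⟩)
      · refine ⟨?_, h1, fun h4 => h3 (h4.mp h2.symm).symm⟩
        rintro rfl
        exact G.loopless.irrefl _ h2
      · refine ⟨h1, ?_, fun h4 => h3 (h4.mpr h2.symm).symm⟩
        rintro rfl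
        exact G.loopless.irrefl _ h2
  have hdisj : Disjoint ((G.neighborFinset y \ G.neighborFinset z).erase z)
      ((G.neighborFinset z \ G.neighborFinset y).erase y) := by
    rw [Finset.disjoint_left]
    intro x hx hx'
    simp only [mem_erase, mem_sdiff] at hx hx'
    exact hx.2.2 hx'.2.1
  have hcard : (sep G y z).card = ((G.neighborFinset y \ G.neighborFinset z).erase z).card +
      ((G.neighborFinset z \ G.neighborFinset y).erase y).card := by
    rw [hsep, Finset.card_union_of_disjoint hdisj]
  refine ⟨fun hadj => ?_, fun hnadj => ?_, ?_⟩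
  · have hz : z ∈ G.neighborFinset y \ G.neighborFinset z := by
      simp [hadj]
    have hy : y ∈ G.neighborFinset z \ G.neighborFinset y := by
      simp [hadj.symm]
    rw [hcard, Finset.card_erase_of_mem hz, Finset.card_erase_of_mem hy, hdiff, hdiff,
      h.of_adj y z hadj, h.of_adj z y hadj.symm]
    omega
  · have hz : z ∉ G.neighborFinset y \ G.neighborFinset z := by
      simp [hnadj]
    have hnadj' : ¬ G.Adj z y := fun h' => hnadj h'.symm
    have hy : y ∉ G.neighborFinset z \ G.neighborFinset y := by
      simp [hnadj']
    rw [hcard, Finset.erase_eq_of_notMem hz, Finset.erase_eq_of_notMem hy, hdiff, hdiff,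
      h.of_not_adj hyz hnadj, h.of_not_adj hyz.symm hnadj']
    omega
  · have hu : (univ : Finset α) = (sep G y z ∪ cosep G y z) ∪ {y, z} := by
      ext x
      simp only [sep, cosep, mem_filter, mem_univ, true_and, mem_union, mem_insert,
        mem_singleton, true_iff]
      by_cases h1 : x = y
      · exact Or.inr (Or.inl h1)
      by_cases h2 : x = z
      · exact Or.inr (Or.inr h2)
      by_cases h3 : G.Adj x y ↔ G.Adj x z
      · exact Or.inl (Or.inr ⟨h1, h2, h3⟩)
      · exact Or.inl (Or.inl ⟨h1, h2, h3⟩)
    have hd1 : Disjoint (sep G y z) (cosep G y z) := by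
      rw [Finset.disjoint_left]
      intro x hx hx'
      simp only [sep, cosep, mem_filter, mem_univ, true_and] at hx hx'
      exact hx.2.2 hx'.2.2
    have hd2 : Disjoint (sep G y z ∪ cosep G y z) ({y, z} : Finset α) := by
      rw [Finset.disjoint_left]
      intro x hx hx'
      simp only [sep, cosep, mem_filter, mem_univ, true_and, mem_union, mem_insert,
        mem_singleton] at hx hx'
      rcases hx with hx | hx <;> rcases hx' with hx' | hx'
      · exact hx.1 hx'
      · exact hx.2.1 hx'
      · exact hx.1 hx'
      · exact hx.2.1 hx'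
    rw [← Finset.card_univ, hu, Finset.card_union_of_disjoint hd2,
      Finset.card_union_of_disjoint hd1, Finset.card_pair hyz]

end Pool.Agent.NTW
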