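import Pool.Agent.NTW.St3

set_option autoImplicit false

/-!
# Primitive strongly regular graphs have no near twins (module SRG2)
-/

namespace Pool.Agent.NTW

open Finset

theorem srg2_mem_sep {α : Type} [Fintype α] (G : SimpleGraph α) (x y z : α) :
    x ∈ sep G y z ↔ x ≠ y ∧ x ≠ z ∧ ¬ (G.Adj x y ↔ G.Adj x z) := by
  simp [sep]

theorem srg2_mem_cosep {α : Type} [Fintype α] (G : SimpleGraph α) (x y z : α) :
    x ∈ cosep G y z ↔ x ≠ y ∧ x ≠ z ∧ (G.Adj x y ↔ G.Adj x z) := by
  simp [cosep]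

theorem srg2_tri {α : Type} [Fintype α] (G : SimpleGraph α) (y w z : α)
    (hw : w ∉ sep G y z) :
    (sep G y z).card ≤ (sep G y w).card + (sep G w z).card := by
  classical
  refine (card_le_card (t := sep G y w ∪ sep G w z) ?_).trans (card_union_le _ _)
  intro u hu
  have hu' := hu
  rw [srg2_mem_sep] at hu'
  have huw : u ≠ w := by
    rintro rfl
    exact hw hu
  rw [mem_union, srg2_mem_sep, srg2_mem_sep]
  by_cases h : (G.Adj u y ↔ G.Adj u w)
  · right
    exact ⟨huw, hu'.2.1, fun h' => hu'.2.2 (h.trans h')⟩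
  · left
    exact ⟨hu'.1, huw, h⟩

theorem srg2_cotri {α : Type} [Fintype α] (G : SimpleGraph α) (y z w : α) :
    (sep G y w).card ≤ 1 + (cosep G y z).card + (cosep G z w).card := by
  classical
  have hsub : sep G y w ⊆ ({z} ∪ cosep G y z) ∪ cosep G z w := by
    intro u hu
    have hu' := hu
    rw [srg2_mem_sep] at hu'
    rw [mem_union, mem_union, mem_singleton, srg2_mem_cosep, srg2_mem_cosep]
    by_cases h0 : u = z
    · exact Or.inl (Or.inl h0)
    by_cases h : (G.Adj u y ↔ G.Adj u z)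
    · exact Or.inl (Or.inr ⟨hu'.1, h0, h⟩)
    · refine Or.inr ⟨h0, hu'.2.1, ?_⟩
      have h3 := hu'.2.2
      tauto
  have h1 := card_le_card hsub
  have h2 := card_union_le ({z} ∪ cosep G y z) (cosep G z w)
  have h3 := card_union_le ({z} : Finset α) (cosep G y z)
  rw [card_singleton] at h3
  omega

/-- The arithmetic of the lower bound for the separations. -/
theorem srg2_arith (v k k' a b m D : ℕ) (hv : v = 1 + k + k') (hb : k = m + b) (hm : 0 < m)
    (hpe : k * a = k' * m) (hba : b ≤ 2 * a) (hab : a ≤ 2 * b) (hak : a + 1 ≤ k)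
    (hak' : a + 1 ≤ k') (hbk' : b + 1 ≤ k') (hD : 9 * D ^ 2 + 2 ≤ v) :
    D ≤ a ∧ D ≤ b ∧ 3 * D + 1 ≤ k ∧ 3 * D + 1 ≤ k' := by
  have e1 : k * k' = k * a + k' * b := by
    rw [hpe, hb]; ring
  have h1 : k' ≤ k' * m := Nat.le_mul_of_pos_right _ hm
  have h2 : k * a + k ≤ k * k := by
    have := Nat.mul_le_mul_left k hak
    rw [Nat.mul_add, Nat.mul_one] at this
    exact this
  have hk : 3 * D + 1 ≤ k := by
    have h3 : (3 * D) ^ 2 < k ^ 2 := by nlinarith
    have h4 := lt_of_pow_lt_pow_left₀ 2 (Nat.zero_le k) h3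
    omega
  have h5 : k * a + k ≤ k * k' := by
    have := Nat.mul_le_mul_left k hak'
    rw [Nat.mul_add, Nat.mul_one] at this
    exact this
  have h6 : k' * b + k' ≤ k' * k' := by
    have := Nat.mul_le_mul_left k' hbk'
    rw [Nat.mul_add, Nat.mul_one] at this
    exact this
  have hk' : 3 * D + 1 ≤ k' := by
    have h3 : (3 * D) ^ 2 < k' ^ 2 := by nlinarith
    have h4 := lt_of_pow_lt_pow_left₀ 2 (Nat.zero_le k') h3
    omega
  refine ⟨?_, ?_, hk, hk'⟩
  · by_contra hcon
    push Not at hcon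
    -- `3 a < k` and `3 a < k'`
    have h7 : 3 * a + 1 ≤ k := by omega
    have h8 : 3 * a + 1 ≤ k' := by omega
    have h9 : k' * b ≤ k' * (2 * a) := Nat.mul_le_mul_left _ hba
    have h10 : k' * (3 * a + 1) ≤ k' * k := Nat.mul_le_mul_left _ h7
    have h11 : k * (3 * a + 1) ≤ k * k' := Nat.mul_le_mul_left _ h8
    have h12 : 0 < k := by omega
    nlinarith
  · by_contra hcon
    push Not at hcon
    have h7 : 3 * b + 1 ≤ k := by omega
    have h8 : 3 * b + 1 ≤ k' := by omega
    have h9 : k * a ≤ k * (2 * b) := Nat.mul_le_mul_left _ hab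
    have h10 : k' * (3 * b + 1) ≤ k' * k := Nat.mul_le_mul_left _ h7
    have h11 : k * (3 * b + 1) ≤ k * k' := Nat.mul_le_mul_left _ h8
    have h12 : 0 < k := by omega
    nlinarith

/-- A primitive strongly regular graph on at least `9 D ^ 2 + 2` vertices has no near twins. -/
theorem srg_not_near (h1 : S_SRG1) (α : Type) [Fintype α] [DecidableEq α] (G : SimpleGraph α)
    [DecidableRel G.Adj] (v k l m D : ℕ) (hG : G.IsSRGWith v k l m) (hm : 0 < m) (hmk : m < k)
    (hk : k + 1 < v) (hD : 9 * D ^ 2 + 2 ≤ v) :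
    ∀ y z : α, y ≠ z → 2 * D ≤ (sep G y z).card ∧ D ≤ (cosep G y z).card := by
  have hs := h1 α G v k l m hG
  have hcard : Fintype.card α = v := hG.card
  have hN : ∀ x : α, (G.neighborFinset x).card = k := fun x => hG.regular x
  have hcom : ∀ x w : α, (G.neighborFinset x ∩ G.neighborFinset w).card =
      Fintype.card (G.commonNeighbors x w) := by
    intro x w
    rw [← Set.toFinset_card]
    congr 1
    ext u
    simp [SimpleGraph.mem_commonNeighbors]
  have hdiff : ∀ x w : α, (G.neighborFinset x \ G.neighborFinset w).card =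
      k - Fintype.card (G.commonNeighbors x w) := by
    intro x w
    rw [Finset.card_sdiff, Finset.inter_comm, hcom, hN]
  have hpe : k * (k - l - 1) = (v - k - 1) * m := SimpleGraph.IsSRGWith.param_eq G hG (by omega)
  have hco : ∀ x : α, (univ \ G.neighborFinset x).card = v - k := by
    intro x
    rw [card_sdiff_of_subset (subset_univ _), card_univ, hcard, hN]
  obtain ⟨y0⟩ : Nonempty α := by
    rw [← Fintype.card_pos_iff]; omega
  have hnon : ∀ x : α, ∀ w : α, k + 2 < v ∨ w = x → ∃ z, x ≠ z ∧ w ≠ z ∧ ¬ G.Adj x z := by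
    intro x w hxw
    by_contra hcon
    push Not at hcon
    have hsub : (univ : Finset α) ⊆ insert w (insert x (G.neighborFinset x)) := by
      intro u _
      rw [mem_insert, mem_insert, SimpleGraph.mem_neighborFinset]
      by_cases hu : u = w
      · exact Or.inl hu
      by_cases hu' : u = x
      · exact Or.inr (Or.inl hu')
      exact Or.inr (Or.inr (hcon u (Ne.symm hu') (Ne.symm hu)))
    have h2 := card_le_card hsub
    rw [card_univ, hcard] at h2
    have h3 := card_insert_le x (G.neighborFinset x)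
    rw [hN] at h3
    rcases hxw with hxw | hxw
    · have h4 := card_insert_le w (insert x (G.neighborFinset x))
      omega
    · rw [hxw, insert_idem] at h2
      omega
  obtain ⟨z0, hz0, -, hz0'⟩ := hnon y0 y0 (Or.inr rfl)
  obtain ⟨w0, hw0⟩ : (G.neighborFinset y0 ∩ G.neighborFinset z0).Nonempty := by
    rw [← card_pos, hcom, hG.of_not_adj hz0 hz0']; exact hm
  rw [mem_inter, SimpleGraph.mem_neighborFinset, SimpleGraph.mem_neighborFinset] at hw0
  obtain ⟨x0, hx0⟩ : (G.neighborFinset y0 \ G.neighborFinset z0).Nonempty := by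
    rw [← card_pos, hdiff, hG.of_not_adj hz0 hz0']; omega
  rw [mem_sdiff, SimpleGraph.mem_neighborFinset, SimpleGraph.mem_neighborFinset] at hx0
  have hz0x0 : z0 ≠ x0 := by
    rintro rfl
    exact hz0' hx0.1
  have hlt : l < k := by
    have h2 := hx0.1.card_commonNeighbors_lt_degree
    rw [hG.of_adj y0 x0 hx0.1, hG.regular] at h2
    exact h2
  -- the two inequalities between the separations
  have hwn : w0 ∉ sep G y0 z0 := by
    rw [srg2_mem_sep]
    rintro ⟨-, -, h3⟩
    exact h3 ⟨fun _ => hw0.2.symm, fun _ => hw0.1.symm⟩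
  have hyw : y0 ≠ w0 := hw0.1.ne
  have hwz : w0 ≠ z0 := hw0.2.ne'
  have h3 := srg2_tri G y0 w0 z0 hwn
  rw [(hs y0 z0 hz0).2.1 hz0', (hs y0 w0 hyw).1 hw0.1, (hs w0 z0 hwz).1 hw0.2.symm] at h3
  have hzn : z0 ∉ sep G y0 x0 := by
    rw [srg2_mem_sep]
    rintro ⟨-, -, h4⟩
    exact h4 ⟨fun h5 => absurd h5.symm hz0', fun h5 => absurd h5 hx0.2⟩
  have h4 := srg2_tri G y0 z0 x0 hzn
  rw [(hs y0 x0 hx0.1.ne).1 hx0.1, (hs y0 z0 hz0).2.1 hz0', (hs z0 x0 hz0x0).2.1 hx0.2] at h4
  -- the sizes of the sets of non-neighbours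
  have h5 : k - l + 1 ≤ v - k := by
    have hsub : insert z0 (G.neighborFinset x0 \ G.neighborFinset y0) ⊆
        univ \ G.neighborFinset y0 := by
      intro u hu
      rw [mem_insert, mem_sdiff] at hu
      rw [mem_sdiff]
      refine ⟨mem_univ _, ?_⟩
      rcases hu with rfl | hu
      · rw [SimpleGraph.mem_neighborFinset]; exact hz0'
      · exact hu.2
    have h6 := card_le_card hsub
    rw [hco, card_insert_of_notMem, hdiff, hG.of_adj x0 y0 hx0.1.symm] at h6
    · exact h6
    · rw [mem_sdiff, SimpleGraph.mem_neighborFinset]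
      rintro ⟨h7, -⟩
      exact hx0.2 h7.symm
  have h6 : k - m + 2 ≤ v - k := by
    have hsub : insert y0 (insert z0 (G.neighborFinset z0 \ G.neighborFinset y0)) ⊆
        univ \ G.neighborFinset y0 := by
      intro u hu
      rw [mem_insert, mem_insert, mem_sdiff] at hu
      rw [mem_sdiff]
      refine ⟨mem_univ _, ?_⟩
      rcases hu with rfl | rfl | hu
      · simp
      · rw [SimpleGraph.mem_neighborFinset]; exact hz0'
      · exact hu.2
    have h7 := card_le_card hsub
    have h8 : ¬ G.Adj z0 y0 := fun h => hz0' h.symm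
    rw [hco, card_insert_of_notMem, card_insert_of_notMem, hdiff,
      hG.of_not_adj hz0.symm h8] at h7
    · exact h7
    · simp
    · rw [mem_insert, mem_sdiff, SimpleGraph.mem_neighborFinset]
      rintro (h9 | ⟨h9, -⟩)
      · exact hz0 h9
      · exact h8 h9
  obtain ⟨hDa, hDb, hk3, hk3'⟩ := srg2_arith v k (v - k - 1) (k - l - 1) (k - m) m D
    (by omega) (by omega) hm hpe (by omega) (by omega) (by omega) (by omega) (by omega) hD
  have hsep : ∀ y z : α, y ≠ z → 2 * D ≤ (sep G y z).card := by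
    intro y z hyz
    by_cases h : G.Adj y z
    · rw [(hs y z hyz).1 h]; omega
    · rw [(hs y z hyz).2.1 h]; omega
  intro y z hyz
  refine ⟨hsep y z hyz, ?_⟩
  by_contra hcon
  push Not at hcon
  have hD1 : 1 ≤ D := by omega
  have htot := (hs y z hyz).2.2
  by_cases h : G.Adj y z
  · -- a second neighbour of `z`
    obtain ⟨w, hw⟩ : ((G.neighborFinset z).erase y).Nonempty := by
      rw [← card_pos, card_erase_of_mem (by simpa using h.symm), hN]; omega
    rw [mem_erase, SimpleGraph.mem_neighborFinset] at hw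
    have h7 := srg2_cotri G y z w
    have h8 := hsep y w hw.1.symm
    have h9 := (hs z w hw.2.ne).2.2
    have h10 := (hs z w hw.2.ne).1 hw.2
    have h11 := (hs y z hyz).1 h
    omega
  · obtain ⟨w, hw1, hw2, hw3⟩ := hnon z y (Or.inl (by omega))
    have h7 := srg2_cotri G y z w
    have h8 := hsep y w hw2
    have h9 := (hs z w hw1).2.2
    have h10 := (hs z w hw1).2.1 hw3
    have h11 := (hs y z hyz).2.1 h
    omega

theorem srg2_pow (n : ℕ) : 26244 * (n + 37) ^ 4 + 2 ≤ 2 ^ (n + 36) := by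
  induction n with
  | zero => norm_num
  | succ n ih =>
    have h1 : 2 * (n + 37) ^ 4 = (n + 1 + 37) ^ 4 +
        (n ^ 4 + 144 * n ^ 3 + 7764 * n ^ 2 + 185736 * n + 1663186) := by ring
    have h2 : 2 ^ (n + 1 + 36) = 2 * 2 ^ (n + 36) := by ring
    omega

theorem srg2_num (v : ℕ) (hv : 2 ^ 36 ≤ v) :
    9 * (6 * 3 ^ 2 * Nat.clog 2 v ^ 2) ^ 2 + 2 ≤ v := by
  have h1 : 36 ≤ Nat.clog 2 v := by
    have h := Nat.clog_mono_right 2 hv
    rwa [Nat.clog_pow 2 36 (by norm_num)] at h
  have h2 : 9 * (6 * 3 ^ 2 * Nat.clog 2 v ^ 2) ^ 2 + 2 = 26244 * Nat.clog 2 v ^ 4 + 2 := by ring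
  rw [h2]
  rcases h1.eq_or_lt with h3 | h3
  · rw [← h3]
    refine le_trans ?_ hv
    norm_num
  · obtain ⟨n, hn⟩ := Nat.exists_eq_add_of_le h3
    have h4 := srg2_pow n
    have h5 : Nat.clog 2 v = n + 37 := by omega
    have h6 : 2 ^ (n + 36) < v := by
      by_contra hcon
      push Not at hcon
      have := Nat.clog_le_of_le_pow hcon
      omega
    rw [h5]
    omega

theorem t_SRG2 (h1 : S_SRG1) : S_SRG2 := by
  intro α _ _ G _ v k l m hG hm hmk hk hv y z hyz hnear
  have h2 := srg_not_near h1 α G v k l m _ hG hm hmk hk (srg2_num v hv) y z hyz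
  rcases hnear with h3 | h3
  · omega
  · omega

end Pool.Agent.NTW
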