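import Mathlib
import Pool.Agent.NTW.St4
import Pool.Agent.NTW.MTEN

/-!
# MP_e73337_co, version 3: module TEN3 (helper78; adapted from MTEN.lean of helper76)
-/

set_option autoImplicit false

namespace Pool.Agent.NTW

open Finset

theorem ten_step3 {α : Type} [Fintype α] [DecidableEq α] (lab : α → α)
    (E : Finset α → Finset α → Prop) (M : ℕ) (hM : 1 ≤ M) (hE : Equivalence E)
    (hB : ∀ i : α, BlockOK (univ.filter fun x => lab x = i) E M)
    (I : Finset α) :
    ∀ (f : Finset α → ℚ) (j : ℕ),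
      (∀ i ∈ I, ∀ (X X' Y : Finset α), E X X' → (∀ x ∈ X, lab x = i) → (∀ x ∈ Y, lab x ≠ i) →
        f (X ∪ Y) = f (X' ∪ Y)) →
      DegLE (univ.filter fun x => lab x ∈ I) j f →
      (∃ X ⊆ (univ.filter fun x => lab x ∈ I), f X ≠ 0) →
      ∃ 𝒯 : Finset (Finset α), (∀ S ∈ 𝒯, S ⊆ (univ.filter fun x => lab x ∈ I) ∧ f S ≠ 0) ∧
        (∀ S ∈ 𝒯, ∀ S' ∈ 𝒯,
          (∀ i ∈ I, E (S.filter fun x => lab x = i) (S'.filter fun x => lab x = i)) → S = S') ∧
        2 ^ ((univ.filter fun x => lab x ∈ I).card - j) ≤ 𝒯.card ^ M := by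
  induction I using Finset.induction_on with
  | empty =>
    intro f j _ _ hne
    obtain ⟨X, hX, hfX⟩ := hne
    have hX0 : X = ∅ := by
      apply Finset.eq_empty_of_forall_notMem
      intro x hx
      have := hX hx
      simp at this
    subst hX0
    refine ⟨{∅}, ?_, ?_, ?_⟩
    · intro S hS
      rw [Finset.mem_singleton] at hS
      subst hS
      exact ⟨Finset.empty_subset _, hfX⟩
    · intro S hS S' hS' _
      rw [Finset.mem_singleton] at hS hS'
      rw [hS, hS']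
    · simp
  | insert i I hi ih =>
    intro f j hinv hdeg hne
    obtain ⟨Λ, hΛ⟩ : ∃ Λ : Finset α, Λ = univ.filter fun x => lab x = i := ⟨_, rfl⟩
    obtain ⟨U, hU⟩ : ∃ U : Finset α, U = univ.filter fun x => lab x ∈ I := ⟨_, rfl⟩
    have hΛm : ∀ x, x ∈ Λ ↔ lab x = i := by intro x; simp [hΛ]
    have hUm : ∀ x, x ∈ U ↔ lab x ∈ I := by intro x; simp [hU]
    have hUU : (univ.filter fun x => lab x ∈ insert i I) = Λ ∪ U := by
      ext x
      rw [Finset.mem_union, hΛm, hUm]
      simp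
    have hdis : Disjoint Λ U := by
      rw [Finset.disjoint_left]
      intro x hx hx'
      rw [hΛm] at hx
      rw [hUm, hx] at hx'
      exact hi hx'
    rw [hUU] at hdeg hne ⊢
    rw [← hU] at ih
    -- the partial alternating sums
    obtain ⟨g, hg⟩ : ∃ g : Finset α → Finset α → ℚ,
      g = fun T Y => ∑ S ∈ T.powerset, (-1 : ℚ) ^ S.card * f (S ∪ Y) := ⟨_, rfl⟩
    have hgd : ∀ T Y, g T Y = ∑ S ∈ T.powerset, (-1 : ℚ) ^ S.card * f (S ∪ Y) := by
      intro T Y; rw [hg]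
    have hgm : ∀ T ⊆ Λ, ∀ T' ⊆ U, mob (g T) T' = mob f (T ∪ T') := by
      intro T hT T' hT'
      rw [← ten_union f (Finset.disjoint_of_subset_left hT
        (Finset.disjoint_of_subset_right hT' hdis))]
      unfold mob
      simp_rw [hgd]
    -- some partial sum is not zero
    have hex : ∃ T ∈ Λ.powerset, ∃ Y ⊆ U, g T Y ≠ 0 := by
      by_contra hcon
      obtain ⟨X0, hX0, hf0⟩ := hne
      have hz : ∀ T ⊆ Λ, g T (X0 ∩ U) = 0 := by
        intro T hT
        by_contra h0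
        exact hcon ⟨T, Finset.mem_powerset.2 hT, X0 ∩ U, Finset.inter_subset_right, h0⟩
      have h1 := ten_zero (fun X => f (X ∪ (X0 ∩ U))) Λ (by
        intro T hT
        have := hz T hT
        rw [hgd] at this
        exact this) (X0 ∩ Λ) Finset.inter_subset_right
      apply hf0
      have h2 : (X0 ∩ Λ) ∪ (X0 ∩ U) = X0 := by
        rw [← Finset.inter_union_distrib_left]
        exact Finset.inter_eq_left.2 hX0
      simpa [h2] using h1
    obtain ⟨T0, hT0, hY0⟩ := hex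
    obtain ⟨T, hT, hTmax⟩ := Finset.exists_max_image
      (Λ.powerset.filter fun T => ∃ Y ⊆ U, g T Y ≠ 0) (fun T => T.card)
      ⟨T0, Finset.mem_filter.2 ⟨hT0, hY0⟩⟩
    rw [Finset.mem_filter, Finset.mem_powerset] at hT
    obtain ⟨hTΛ, hTne⟩ := hT
    have hbig : ∀ T₁ ⊆ Λ, T.card < T₁.card → ∀ Y ⊆ U, g T₁ Y = 0 := by
      intro T₁ hT₁ hlt Y hY
      by_contra h0
      have := hTmax T₁ (Finset.mem_filter.2 ⟨Finset.mem_powerset.2 hT₁, Y, hY, h0⟩)
      omega
    have hTU : ∀ T' ⊆ U, (T ∪ T').card = T.card + T'.card := by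
      intro T' hT'
      exact Finset.card_union_of_disjoint (Finset.disjoint_of_subset_left hTΛ
        (Finset.disjoint_of_subset_right hT' hdis))
    have htj : T.card ≤ j := by
      by_contra hlt
      obtain ⟨Y, hY, hgY⟩ := hTne
      apply hgY
      apply ten_zero (g T) U _ Y hY
      intro T' hT'
      rw [hgm T hTΛ T' hT']
      apply hdeg _ (Finset.union_subset_union hTΛ hT')
      rw [hTU T' hT']
      omega
    have hgdeg : DegLE U (j - T.card) (g T) := by
      intro T' hT' hlt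
      rw [hgm T hTΛ T' hT']
      apply hdeg _ (Finset.union_subset_union hTΛ hT')
      rw [hTU T' hT']
      omega
    have hginv : ∀ i' ∈ I, ∀ (X X' Y : Finset α), E X X' → (∀ x ∈ X, lab x = i') →
        (∀ x ∈ Y, lab x ≠ i') → g T (X ∪ Y) = g T (X' ∪ Y) := by
      intro i' hi' X X' Y hXX' hX hY
      rw [hgd, hgd]
      apply Finset.sum_congr rfl
      intro S hS
      rw [Finset.mem_powerset] at hS
      congr 1
      rw [Finset.union_left_comm S X Y, Finset.union_left_comm S X' Y]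
      apply hinv i' (Finset.mem_insert_of_mem hi') X X' (S ∪ Y) hXX' hX
      intro x hx
      rcases Finset.mem_union.1 hx with h | h
      · have h1 := (hΛm x).1 (hTΛ (hS h))
        rw [h1]
        rintro rfl
        exact hi hi'
      · exact hY x h
    obtain ⟨𝒯', h1', h2', h3'⟩ := ih (g T) (j - T.card) hginv hgdeg hTne
    -- one block
    have hone : ∀ Y ∈ 𝒯', ∃ 𝒯 : Finset (Finset α), (∀ X ∈ 𝒯, X ⊆ Λ ∧ f (X ∪ Y) ≠ 0) ∧
        (∀ X ∈ 𝒯, ∀ X' ∈ 𝒯, E X X' → X = X') ∧ 2 ^ (Λ.card - T.card) ≤ 𝒯.card ^ M := by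
      intro Y hY
      obtain ⟨hYU, hgY⟩ := h1' Y hY
      have hYi : ∀ x ∈ Y, lab x ≠ i := by
        intro x hx hxi
        have := (hUm x).1 (hYU hx)
        rw [hxi] at this
        exact hi this
      refine (hΛ ▸ hB i) (fun X => f (X ∪ Y)) T.card ?_ ?_ ?_
      · intro X hX X' _ hXX'
        exact hinv i (Finset.mem_insert_self _ _) X X' Y hXX' (fun x hx => (hΛm x).1 (hX hx)) hYi
      · intro T₁ hT₁ hlt
        have := hbig T₁ hT₁ hlt Y hYU
        rw [hgd] at this
        exact this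
      · rw [hgd] at hgY
        by_contra hcon
        apply hgY
        apply Finset.sum_eq_zero
        intro S hS
        rw [Finset.mem_powerset] at hS
        have h0 : f (S ∪ Y) = 0 := by
          by_contra h
          exact hcon ⟨S, hS.trans hTΛ, h⟩
        rw [h0, mul_zero]
    choose! 𝒳 hX1 hX2 hX3 using hone
    have hdecX : ∀ Y ∈ 𝒯', ∀ X ∈ 𝒳 Y, (X ∪ Y).filter (fun x => lab x = i) = X := by
      intro Y hY X hX
      ext x
      rw [Finset.mem_filter, Finset.mem_union]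
      constructor
      · rintro ⟨h | h, hx⟩
        · exact h
        · have := (hUm x).1 ((h1' Y hY).1 h)
          rw [hx] at this
          exact absurd this hi
      · intro h
        exact ⟨Or.inl h, (hΛm x).1 ((hX1 Y hY X hX).1 h)⟩
    have hdecY : ∀ Y ∈ 𝒯', ∀ X ∈ 𝒳 Y, ∀ i' ∈ I,
        (X ∪ Y).filter (fun x => lab x = i') = Y.filter fun x => lab x = i' := by
      intro Y hY X hX i' hi'
      ext x
      rw [Finset.mem_filter, Finset.mem_filter, Finset.mem_union]
      constructor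
      · rintro ⟨h | h, hx⟩
        · have := (hΛm x).1 ((hX1 Y hY X hX).1 h)
          rw [hx] at this
          rw [this] at hi'
          exact absurd hi' hi
        · exact ⟨h, hx⟩
      · rintro ⟨h, hx⟩
        exact ⟨Or.inr h, hx⟩
    have hsep : ∀ Y ∈ 𝒯', ∀ X ∈ 𝒳 Y, ∀ Y' ∈ 𝒯', ∀ X' ∈ 𝒳 Y',
        (∀ i' ∈ insert i I, E ((X ∪ Y).filter fun x => lab x = i')
          ((X' ∪ Y').filter fun x => lab x = i')) → X = X' ∧ Y = Y' := by
      intro Y hY X hX Y' hY' X' hX' h
      have hYY : Y = Y' := by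
        apply h2' Y hY Y' hY'
        intro i' hi'
        have := h i' (Finset.mem_insert_of_mem hi')
        rwa [hdecY Y hY X hX i' hi', hdecY Y' hY' X' hX' i' hi'] at this
      subst hYY
      refine ⟨?_, rfl⟩
      have := h i (Finset.mem_insert_self _ _)
      rw [hdecX Y hY X hX, hdecX Y hY' X' hX'] at this
      exact hX2 Y hY X hX X' hX' this
    have hinj : ∀ Y ∈ 𝒯', ∀ X ∈ 𝒳 Y, ∀ Y' ∈ 𝒯', ∀ X' ∈ 𝒳 Y', X ∪ Y = X' ∪ Y' →
        X = X' ∧ Y = Y' := by
      intro Y hY X hX Y' hY' X' hX' h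
      apply hsep Y hY X hX Y' hY' X' hX'
      intro i' _
      rw [h]
      exact hE.refl _
    obtain ⟨𝒯, h𝒯⟩ : ∃ 𝒯 : Finset (Finset α),
      𝒯 = 𝒯'.biUnion fun Y => (𝒳 Y).image fun X => X ∪ Y := ⟨_, rfl⟩
    have h𝒯m : ∀ S, S ∈ 𝒯 ↔ ∃ Y ∈ 𝒯', ∃ X ∈ 𝒳 Y, X ∪ Y = S := by
      intro S
      rw [h𝒯, Finset.mem_biUnion]
      simp only [Finset.mem_image]
    have hcard𝒯 : 𝒯.card = ∑ Y ∈ 𝒯', (𝒳 Y).card := by
      rw [h𝒯, Finset.card_biUnion]
      · apply Finset.sum_congr rfl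
        intro Y hY
        apply Finset.card_image_of_injOn
        intro X hX X' hX' h
        exact (hinj Y hY X hX Y hY X' hX' h).1
      · intro Y hY Y' hY' hne'
        refine Finset.disjoint_left.2 ?_
        intro S hS hS'
        obtain ⟨X, hX, hXS⟩ := Finset.mem_image.1 hS
        obtain ⟨X', hX', hXS'⟩ := Finset.mem_image.1 hS'
        exact hne' (hinj Y hY X hX Y' hY' X' hX' (hXS.trans hXS'.symm)).2
    refine ⟨𝒯, ?_, ?_, ?_⟩
    · intro S hS
      obtain ⟨Y, hY, X, hX, rfl⟩ := (h𝒯m S).1 hS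
      exact ⟨Finset.union_subset_union (hX1 Y hY X hX).1 (h1' Y hY).1, (hX1 Y hY X hX).2⟩
    · intro S hS S' hS' h
      obtain ⟨Y, hY, X, hX, rfl⟩ := (h𝒯m S).1 hS
      obtain ⟨Y', hY', X', hX', rfl⟩ := (h𝒯m S').1 hS'
      obtain ⟨e1, e2⟩ := hsep Y hY X hX Y' hY' X' hX' h
      rw [e1, e2]
    · -- the count
      have hexn : ∃ n : ℕ, 2 ^ (Λ.card - T.card) ≤ n ^ M :=
        ⟨2 ^ (Λ.card - T.card), Nat.le_self_pow (by omega) _⟩
      have hcl : Nat.find hexn * 𝒯'.card ≤ 𝒯.card := by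
        rw [hcard𝒯, Nat.mul_comm, ← smul_eq_mul]
        apply Finset.card_nsmul_le_sum
        intro Y hY
        exact Nat.find_min' hexn (hX3 Y hY)
      have hΛU : (Λ ∪ U).card = Λ.card + U.card := Finset.card_union_of_disjoint hdis
      have hTc : T.card ≤ Λ.card := Finset.card_le_card hTΛ
      calc 2 ^ ((Λ ∪ U).card - j)
          ≤ 2 ^ ((Λ.card - T.card) + (U.card - (j - T.card))) := by
            apply Nat.pow_le_pow_right (by norm_num)
            rw [hΛU]
            omega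
        _ = 2 ^ (Λ.card - T.card) * 2 ^ (U.card - (j - T.card)) := pow_add _ _ _
        _ ≤ (Nat.find hexn) ^ M * 𝒯'.card ^ M :=
            Nat.mul_le_mul (Nat.find_spec hexn) h3'
        _ = (Nat.find hexn * 𝒯'.card) ^ M := (Nat.mul_pow _ _ _).symm
        _ ≤ 𝒯.card ^ M := Nat.pow_le_pow_left hcl _

theorem t_TEN3 : S_TEN3 := by
  intro α _ _ lab E M hM hE hB f j hinv hdeg hne
  have hu : (univ.filter fun x => lab x ∈ (univ : Finset α)) = univ := by
    ext x; simp
  obtain ⟨𝒯, h1, h2, h3⟩ := ten_step3 lab E M hM hE hB univ f j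
    (fun i _ X X' Y => hinv i X X' Y) (by rw [hu]; exact hdeg)
    (by
      obtain ⟨X, hX⟩ := hne
      exact ⟨X, by rw [hu]; exact Finset.subset_univ _, hX⟩)
  refine ⟨𝒯, fun S hS => (h1 S hS).2, fun S hS S' hS' h => h2 S hS S' hS' fun i _ => h i, ?_⟩
  rw [hu, Finset.card_univ] at h3
  exact h3

end Pool.Agent.NTW
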