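import Pool.Agent.NTW.Main9
import Pool.Agent.NTW.Fin14
import Pool.Agent.NTW.MHALF5
import Pool.Agent.NTW.CographKept

/-!
The balanced half case of the centroid theorem, without hypotheses (helper39).
-/

set_option autoImplicit false

namespace Pool.Agent.NTW

open Finset Pool.Agent.Lib_helper61.SwitchBasic

/-- The two sides of a module with exactly half of the vertices. -/
theorem half_sides_main (p : ℕ) (hp4 : p ≠ 4) (hp8 : p % 8 = 4) (G : SimpleGraph (Fin p))
    (U : Finset (Fin p)) (hU : IsMod G U) (hUc : 2 * U.card = p) (H : SimpleGraph (Fin p))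
    (hdeck : SameDeck G H) (hne : ¬ Nonempty (G ≃g H)) :
    ∃ S : Finset (Fin p), (∀ u ∈ U, ∀ w, w ∉ U → ¬ (sw G S).Adj u w) ∧
      ((sw G S).induce {x | x ∈ U}).Connected ∧ ((sw G S).induce {x | x ∈ U})ᶜ.Connected ∧
      ((sw G S).induce {x | x ∉ U}).Connected ∧ ((sw G S).induce {x | x ∉ U})ᶜ.Connected ∧
      2 ^ (p / 4) ≤ 4 * Nat.card ((sw G S).induce {x | x ∈ U} ≃g
        (sw G S).induce {x | x ∈ U}) ∧
      2 ^ (p / 4) ≤ 4 * Nat.card ((sw G S).induce {x | x ∉ U} ≃g
        (sw G S).induce {x | x ∉ U}) := by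
  have h := half_sides t_MOD t_REP (t_DEG34 t_REP) t_COMP (t_HALF2b t_HALF1b) t_HALF5 p U.card
    hUc.symm (by omega) (Nat.even_iff.2 (by omega)) G U hU rfl H hdeck hne
  have e : U.card - U.card / 2 = p / 4 := by omega
  rw [e] at h
  exact h

end Pool.Agent.NTW
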