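import Pool.Agent.NTI.P
import Pool.Agent.NTW.MREP
import Pool.Agent.NTW.Fin5A

/-!
At most four parts of a class-invariant partition into modules have few images (helper78), for
MP_e73337_co.
-/

set_option autoImplicit false

namespace Pool.Agent.NTI

open Finset Pool.Agent.Lib_helper61.SwitchBasic

/-- The orbit of a module with few images: switching at the module exchanges the two classes. -/
theorem orbit_flip' {α : Type} [DecidableEq α] [Fintype α] {B : SimpleGraph α} {f : Finset α → ℚ}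
    (h : Two B f) (V : Finset α) (hb : 2 * V.card < Fintype.card α)
    (hmod : ∀ σ : Equiv.Perm α, IsClassAut B σ → Hom B (V.map σ.toEmbedding))
    (hdis : ∀ σ ρ : Equiv.Perm α, IsClassAut B σ → IsClassAut B ρ →
      V.map σ.toEmbedding ≠ V.map ρ.toEmbedding →
      Disjoint (V.map σ.toEmbedding) (V.map ρ.toEmbedding))
    (hk : 2 * {W : Finset α | ∃ σ : Equiv.Perm α, IsClassAut B σ ∧
      W = V.map σ.toEmbedding}.ncard ≤ V.card) :
    (∀ S, (0 < f S → f (symmDiff S V) < 0) ∧ (f S < 0 → 0 < f (symmDiff S V))) ∧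
      ∀ S, 0 < f S → Even V.card := by
  classical
  have hfin : {W : Finset α | ∃ σ : Equiv.Perm α, IsClassAut B σ ∧
      W = V.map σ.toEmbedding}.Finite := Set.toFinite _
  have hm : ∀ W, W ∈ hfin.toFinset ↔ ∃ σ : Equiv.Perm α, IsClassAut B σ ∧
      W = V.map σ.toEmbedding := fun W => hfin.mem_toFinset
  have hF : Fam B hfin.toFinset V.card := by
    refine ⟨fun W hW => ?_, fun W hW W' hW' hne => ?_, fun W hW ρ hρ => ?_, fun W hW => ?_⟩
    · obtain ⟨σ, h1, rfl⟩ := (hm W).1 hW
      exact hmod σ h1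
    · obtain ⟨σ, h1, rfl⟩ := (hm W).1 hW
      obtain ⟨ρ, h2, rfl⟩ := (hm W').1 hW'
      exact hdis σ ρ h1 h2 hne
    · obtain ⟨σ, h1, rfl⟩ := (hm W).1 hW
      refine (hm _).2 ⟨ρ * σ, caut_mul hρ h1, ?_⟩
      rw [map_map]
      rfl
    · obtain ⟨σ, h1, rfl⟩ := (hm W).1 hW
      exact card_map _
  have hV : V ∈ hfin.toFinset := by
    exact (hm V).2 ⟨1, caut_one B, Finset.map_refl.symm⟩
  have hc : hfin.toFinset.card = {W : Finset α | ∃ σ : Equiv.Perm α, IsClassAut B σ ∧
      W = V.map σ.toEmbedding}.ncard := (Set.ncard_eq_toFinset_card _ hfin).symm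
  have hR : Rich B V hfin.toFinset.card := rich_of_le V (by rw [hc]; exact hk)
  exact ⟨fun S => flipBoth h hF hb hV hR S, fun S hS => evenB h hF hb hV hR S hS⟩

end Pool.Agent.NTI

namespace Pool.Agent.NTW

open Finset Pool.Agent.Lib_helper61.SwitchBasic Pool.Agent.NTI

/-- The number of images of `V` under the class automorphisms of `G`. -/
noncomputable def imgs {p : ℕ} (G : SimpleGraph (Fin p)) (V : Finset (Fin p)) : ℕ :=
  {W : Finset (Fin p) | ∃ s : Equiv.Perm (Fin p), IsClassAut G s ∧ W = V.map s.toEmbedding}.ncard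

/-- In a graph which is not switching-reconstructible, partitioned into modules (up to switching)
with fewer than half of the vertices permuted by the class automorphisms, at most two or exactly
four parts with `n` vertices have at most `n / 2` images, and they have an even number of
vertices. -/
theorem few_small_orbits (p : ℕ) (G H : SimpleGraph (Fin p)) (hdeck : SameDeck G H)
    (hne : ¬ Nonempty (G ≃g H)) (c : Fin p → ℕ) (hmod : ∀ i, IsMod G (Fin5.part c i))
    (hs : ∀ i, 2 * (Fin5.part c i).card < p)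
    (hinv : ∀ s : Equiv.Perm (Fin p), IsClassAut G s → ∀ x y, c x = c y → c (s x) = c (s y)) :
    ∃ E : Finset ℕ, E ⊆ univ.image c ∧ (E.card ≤ 2 ∨ E.card = 4) ∧
      (∀ i ∈ univ.image c, i ∉ E → (Fin5.part c i).card < 2 * imgs G (Fin5.part c i)) ∧
      ∀ i ∈ E, Even (Fin5.part c i).card ∧
        2 * imgs G (Fin5.part c i) ≤ (Fin5.part c i).card := by
  classical
  have hp0 : 0 < p := by
    have := hs 0
    omega
  obtain ⟨S, hS⟩ := t_REP (Fin p) G c hmod
  set B := sw G S with hB
  have hG : sw B S = G := by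
    rw [hB, sw_sw, symmDiff_self, Finset.bot_eq_empty, sw_empty]
  have hdeck' : SameDeck (sw B S) H := by
    rw [hG]
    exact hdeck
  have hne' : ¬ Nonempty (sw B S ≃g H) := by
    rw [hG]
    exact hne
  have h := two_ff hdeck' ⟨0, hp0⟩
  set f : Finset (Fin p) → ℚ := fun T => ff (sw B S) H (symmDiff S T) with hf
  have hf0 : 0 < f S := by
    show 0 < ff (sw B S) H (symmDiff S S)
    rw [symmDiff_self, Finset.bot_eq_empty, ff_empty hne']
    exact cntGH hdeck' ⟨0, hp0⟩
  have hcl : ∀ σ : Equiv.Perm (Fin p), IsClassAut B σ ↔ IsClassAut G σ := fun σ => caut_sw G S σ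
  have hmp : ∀ i x, x ∈ Fin5.part c i ↔ c x = i := fun i x => Fin5.mem_part c i x
  -- the images of the parts
  have himg : ∀ σ : Equiv.Perm (Fin p), IsClassAut B σ → ∀ x₀,
      (Fin5.part c (c x₀)).map σ.toEmbedding = Fin5.part c (c (σ x₀)) := by
    intro σ hσ x₀
    ext z
    obtain ⟨y, rfl⟩ := σ.surjective z
    rw [mem_map_perm, hmp, hmp]
    constructor
    · intro h1
      exact hinv σ ((hcl σ).1 hσ) y x₀ h1
    · intro h1
      have h2 := hinv σ⁻¹ ((hcl _).1 (caut_inv hσ)) (σ y) (σ x₀) h1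
      rw [show σ⁻¹ (σ y) = y from σ.symm_apply_apply y,
        show σ⁻¹ (σ x₀) = x₀ from σ.symm_apply_apply x₀] at h2
      exact h2
  have hHom : ∀ i, Hom B (Fin5.part c i) := by
    intro i x hx y hy z hz
    rw [hmp] at hx hy hz
    exact hS z x y (hx.trans hy.symm) (fun h1 => hz (h1.trans hx))
  have hdisj : ∀ i j, i ≠ j → Disjoint (Fin5.part c i) (Fin5.part c j) := by
    intro i j hij
    rw [disjoint_left]
    intro x hx hx'
    rw [hmp] at hx hx'
    exact hij (hx.symm.trans hx')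
  have himgs : ∀ V : Finset (Fin p), imgs G V = {W : Finset (Fin p) |
      ∃ s : Equiv.Perm (Fin p), IsClassAut B s ∧ W = V.map s.toEmbedding}.ncard := by
    intro V
    unfold imgs
    congr 1
    ext W
    constructor
    · rintro ⟨s, h1, h2⟩
      exact ⟨s, (hcl s).2 h1, h2⟩
    · rintro ⟨s, h1, h2⟩
      exact ⟨s, (hcl s).1 h1, h2⟩
  have hflip : ∀ x₀, 2 * imgs G (Fin5.part c (c x₀)) ≤ (Fin5.part c (c x₀)).card →
      (∀ T, (0 < f T → f (symmDiff T (Fin5.part c (c x₀))) < 0) ∧
        (f T < 0 → 0 < f (symmDiff T (Fin5.part c (c x₀))))) ∧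
      ∀ T, 0 < f T → Even (Fin5.part c (c x₀)).card := by
    intro x₀ hk
    refine orbit_flip' h _ ?_ ?_ ?_ ?_
    · rw [Fintype.card_fin]
      exact hs _
    · intro σ hσ
      rw [himg σ hσ x₀]
      exact hHom _
    · intro σ ρ hσ hρ hne1
      rw [himg σ hσ x₀, himg ρ hρ x₀] at hne1 ⊢
      exact hdisj _ _ fun h1 => hne1 (by rw [h1])
    · rw [← himgs]
      exact hk
  set E : Finset ℕ := (univ.image c).filter fun i =>
    2 * imgs G (Fin5.part c i) ≤ (Fin5.part c i).card with hE
  have hmE : ∀ i, i ∈ E ↔ i ∈ univ.image c ∧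
      2 * imgs G (Fin5.part c i) ≤ (Fin5.part c i).card := fun i => by rw [hE, mem_filter]
  have hrep : ∀ i ∈ univ.image c, ∃ x₀, c x₀ = i := by
    intro i hi
    obtain ⟨x, -, hx⟩ := Finset.mem_image.1 hi
    exact ⟨x, hx⟩
  refine ⟨E, filter_subset _ _, ?_, fun i hi hiE => ?_, fun i hiE => ?_⟩
  · have hcard : (E.image (Fin5.part c)).card = E.card := by
      refine card_image_of_injOn fun i hi j hj hij => ?_
      obtain ⟨x₀, hx₀⟩ := hrep i ((hmE i).1 hi).1
      have h1 : x₀ ∈ Fin5.part c i := (hmp _ _).2 hx₀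
      have hij' : Fin5.part c i = Fin5.part c j := hij
      rw [hij', hmp] at h1
      exact hx₀.symm.trans h1
    rw [← hcard]
    refine few h (E.image (Fin5.part c)) ?_ ?_ ?_ ?_ ?_ ?_ S hf0
    · intro V hV
      obtain ⟨i, -, rfl⟩ := Finset.mem_image.1 hV
      exact hHom i
    · intro V hV
      obtain ⟨i, hi, rfl⟩ := Finset.mem_image.1 hV
      obtain ⟨x₀, hx₀⟩ := hrep i ((hmE i).1 hi).1
      exact ⟨x₀, (hmp _ _).2 hx₀⟩
    · intro V hV W hW hVW
      obtain ⟨i, -, rfl⟩ := Finset.mem_image.1 hV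
      obtain ⟨j, -, rfl⟩ := Finset.mem_image.1 hW
      exact hdisj i j fun h1 => hVW (by rw [h1])
    · intro V hV σ hσ
      obtain ⟨i, hi, rfl⟩ := Finset.mem_image.1 hV
      obtain ⟨x₀, rfl⟩ := hrep i ((hmE i).1 hi).1
      rw [himg σ hσ x₀]
      refine Finset.mem_image_of_mem _ ((hmE _).2 ⟨Finset.mem_image_of_mem c (Finset.mem_univ _), ?_⟩)
      rw [← himg σ hσ x₀, card_map]
      have h1 : imgs G ((Fin5.part c (c x₀)).map σ.toEmbedding) = imgs G (Fin5.part c (c x₀)) := by
        unfold imgs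
        congr 1
        ext W
        have hσG := (hcl σ).1 hσ
        constructor
        · rintro ⟨s, h2, rfl⟩
          refine ⟨s * σ, caut_mul h2 hσG, ?_⟩
          rw [map_map]
          rfl
        · rintro ⟨s, h2, rfl⟩
          refine ⟨s * σ⁻¹, caut_mul h2 (caut_inv hσG), ?_⟩
          rw [map_map]
          ext z
          simp only [Finset.mem_map, Function.Embedding.trans_apply, Equiv.coe_toEmbedding,
            Equiv.Perm.mul_apply]
          constructor
          · rintro ⟨x, hx, rfl⟩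
            refine ⟨x, hx, ?_⟩
            rw [show σ⁻¹ (σ x) = x from σ.symm_apply_apply x]
          · rintro ⟨x, hx, rfl⟩
            refine ⟨x, hx, ?_⟩
            rw [show σ⁻¹ (σ x) = x from σ.symm_apply_apply x]
      rw [h1]
      exact ((hmE _).1 hi).2
    · intro V hV
      obtain ⟨i, -, rfl⟩ := Finset.mem_image.1 hV
      refine out ?_
      rw [Fintype.card_fin]
      have := hs i
      omega
    · intro V hV
      obtain ⟨i, hi, rfl⟩ := Finset.mem_image.1 hV
      obtain ⟨x₀, rfl⟩ := hrep i ((hmE i).1 hi).1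
      exact (hflip x₀ ((hmE _).1 hi).2).1
  · by_contra hcon
    push Not at hcon
    exact hiE ((hmE i).2 ⟨hi, hcon⟩)
  · obtain ⟨x₀, rfl⟩ := hrep i ((hmE i).1 hiE).1
    exact ⟨(hflip x₀ ((hmE _).1 hiE).2).2 S hf0, ((hmE _).1 hiE).2⟩

end Pool.Agent.NTW
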