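import Pool.Agent.NTW.Main10
import Pool.Agent.NTW.Fin15
import Pool.Agent.NTW.TraceD

/-!
Sizes of the parts of the centroid, without hypotheses (helper39, over a theorem of helper78).
-/

set_option autoImplicit false

namespace Pool.Agent.NTW

open Finset Pool.Agent.Lib_helper61.SwitchBasic

theorem t_SIZE : S_SIZE := by
  intro p G H hdeck hne c hmod hs _ _ hinv
  obtain ⟨E, -, hE, h1, h2⟩ := few_small_orbits p G H hdeck hne c hmod hs hinv
  exact ⟨E, by omega, fun i hi => (h2 i hi).1, fun i hi hiE => h1 i hi hiE⟩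

/-- Substitution of graphs, at least five of them large, into a prime graph. -/
theorem subst_sizes_main (p r : ℕ) (F : SimpleGraph (Fin r))
    (hF : ∀ C : Finset (Fin r), IsMod F C → C.card ≤ 1 ∨ r ≤ C.card + 1)
    (G : SimpleGraph (Fin p)) (S : Finset (Fin p)) (π : Fin p → Fin r)
    (hπ : Function.Surjective π)
    (hsub : ∀ u v, π u ≠ π v → ((sw G S).Adj u v ↔ F.Adj (π u) (π v)))
    (hsmall : ∀ i, 2 * (univ.filter fun x => π x = i).card < p)
    (h5 : 5 ≤ (univ.filter fun i => 2 * r ≤ (univ.filter fun x => π x = i).card).card)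
    (H : SimpleGraph (Fin p)) (hdeck : SameDeck G H) : Nonempty (G ≃g H) :=
  subst_sizes t_SIZE t_PRQ p r F hF G S π hπ hsub hsmall h5 H hdeck

end Pool.Agent.NTW
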