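import Pool.Agent.NTW.Fin11
import Pool.Agent.NTW.MHALF1
import Pool.Agent.NTW.MHALF2
import Pool.Agent.NTW.MHALF3

/-!
The centroid theorem, without hypotheses (helper39).
-/

set_option autoImplicit false

namespace Pool.Agent.NTW

open Finset Pool.Agent.Lib_helper61.SwitchBasic

/-- The centroid theorem. -/
theorem centroid_thm (p : ℕ) (hp4 : p ≠ 4) (G H : SimpleGraph (Fin p))
    (hdeck : SameDeck G H) (hne : ¬ Nonempty (G ≃g H)) :
    ((p % 8 = 4 ∨ p = 8) ∧ ∃ U : Finset (Fin p), IsMod G U ∧ 2 * U.card = p) ∨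
    ∃ c : Fin p → ℕ, (∀ i, IsMod G (Fin5.part c i)) ∧
      (∀ i, 2 * (Fin5.part c i).card < p) ∧ 5 ≤ (univ.image c).card ∧ PrimeQ G c ∧
      (∀ s : Equiv.Perm (Fin p), IsClassAut G s → ∀ x y, c x = c y → c (s x) = c (s y)) ∧
      2 ^ (univ.image c).card ≤ (4 * partImages G c) ^ 2 :=
  centroid_main (t_HALF3 (t_HALF2 t_HALF1)) p hp4 G H hdeck hne

end Pool.Agent.NTW
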