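import Pool.Agent.NTW.Main8
import Pool.Agent.NTW.Fin12
import Pool.Agent.NTW.Fin13
import Pool.Agent.NTW.MQAUT
import Pool.Agent.NTW.MPRQ
import Pool.Agent.NTW.MHALF4

/-!
The three parts of the centroid theorem, without hypotheses (helper39).
-/

set_option autoImplicit false

namespace Pool.Agent.NTW

open Finset Pool.Agent.Lib_helper61.SwitchBasic

/-- A module with exactly half of the vertices, not balanced. -/
theorem half_balanced (p : ℕ) (hp4 : p ≠ 4) (hp8 : p % 8 = 4) (G : SimpleGraph (Fin p))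
    (U : Finset (Fin p)) (hU : IsMod G U) (hUc : 2 * U.card = p) (H : SimpleGraph (Fin p))
    (hdeck : SameDeck G H) (hne : ¬ Nonempty (G ≃g H)) :
    (∀ w ∉ U, 2 * {u | u ∈ U ∧ G.Adj w u}.ncard = U.card) ∧
      (∀ w ∈ U, 2 * {u | u ∉ U ∧ G.Adj w u}.ncard = U.card) :=
  half_bal t_MOD t_REP (t_DEG34 t_REP) t_COMP (t_HALF2b t_HALF1b) t_HALF4 p U.card hUc.symm
    (by omega) (Nat.even_iff.2 (by omega)) G U hU rfl H hdeck hne

/-- Substitution into a prime graph with few class automorphisms. -/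
theorem subst_prime_main (p r : ℕ) (hp4 : p ≠ 4) (hr : 4 ≤ r) (F : SimpleGraph (Fin r))
    (hF : ∀ C : Finset (Fin r), IsMod F C → C.card ≤ 1 ∨ r ≤ C.card + 1)
    (hA : (4 * {σ : Equiv.Perm (Fin r) | IsClassAut F σ}.ncard) ^ 2 < 2 ^ r)
    (G : SimpleGraph (Fin p)) (S : Finset (Fin p)) (π : Fin p → Fin r)
    (hπ : Function.Surjective π)
    (hsub : ∀ u v, π u ≠ π v → ((sw G S).Adj u v ↔ F.Adj (π u) (π v)))
    (hsmall : ∀ i, 2 * (univ.filter fun x => π x = i).card < p)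
    (H : SimpleGraph (Fin p)) (hdeck : SameDeck G H) : Nonempty (G ≃g H) :=
  subst_prime t_QAUT t_PRQ p r hp4 hr F hF hA G S π hπ hsub hsmall H hdeck

end Pool.Agent.NTW
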