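import Pool.Agent.NTW.Half3
import Pool.Agent.RGP15.Bound

/-!
Odd sets (MP_e73337_co, helper48): pairwise disjoint vertex sets of odd size of a graph that is not
switching-reconstructible have exponentially many images under the class automorphisms.
-/

set_option autoImplicit false

namespace Pool.Agent.NTW.OddSets

open Finset Pool.Agent.Lib_helper61.SwitchBasic Pool.Agent.Lib_helper61.SwMain
  Pool.Agent.NTW.Half Pool.Agent.RGP15

variable {α : Type} [Fintype α] [DecidableEq α] {ι : Type} [Fintype ι] [DecidableEq ι]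

omit [Fintype α] in
theorem chi_mul (T A B : Finset α) :
    homChi T A * homChi T B = homChi T (symmDiff A B) := by
  have h1 : homChi T A = homChi T (A \ B) * homChi T (A ∩ B) := by
    rw [← hom_chi_union T _ _ (Finset.disjoint_sdiff_inter A B), Finset.sdiff_union_inter]
  have h2 : homChi T B = homChi T (B \ A) * homChi T (A ∩ B) := by
    rw [Finset.inter_comm, ← hom_chi_union T _ _ (Finset.disjoint_sdiff_inter B A),
      Finset.sdiff_union_inter]
  have h3 : homChi T (symmDiff A B) = homChi T (A \ B) * homChi T (B \ A) := by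
    rw [symmDiff_def, Finset.sup_eq_union, hom_chi_union T _ _ disjoint_sdiff_sdiff]
  rw [h1, h2, h3]
  have h4 := hom_chi_sq T (A ∩ B)
  calc homChi T (A \ B) * homChi T (A ∩ B) * (homChi T (B \ A) * homChi T (A ∩ B))
      = homChi T (A \ B) * homChi T (B \ A) * (homChi T (A ∩ B) * homChi T (A ∩ B)) := by ring
    _ = homChi T (A \ B) * homChi T (B \ A) := by rw [h4, mul_one]

omit [Fintype α] in
theorem chi_pow (T A : Finset α) : homChi T A = (-1 : ℚ) ^ (T ∩ A).card := by
  unfold homChi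
  rw [Finset.prod_ite, Finset.prod_const, Finset.prod_const_one, mul_one]
  congr 2
  ext x
  simp only [mem_filter, mem_inter]
  tauto

/-- All parity patterns on at least half of the sets occur in the support. -/
theorem patterns (f : Finset α → ℚ) (hf : ∀ S, ∑ i : α, f (symmDiff S {i}) = 0)
    (hne : ∃ S, f S ≠ 0) (W : ι → Finset α) (hdis : ∀ i j, i ≠ j → Disjoint (W i) (W j))
    (hodd : ∀ i, Odd (W i).card) :
    ∃ M : Finset ι, Fintype.card ι ≤ 2 * M.card ∧
      ∀ K ⊆ M, ∃ T, f T ≠ 0 ∧ ∀ i ∈ M, (i ∈ K ↔ Odd (T ∩ W i).card) := by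
  obtain ⟨Y, hY⟩ := hom_F_ne f hne
  have hYc : 2 * Y.card = Fintype.card α := by
    by_contra hc
    exact hY (hom_F_zero f hf Y hc)
  have hu : ∀ i, (W i).card ≠ 2 * (Y ∩ W i).card := by
    intro i h
    have := hodd i
    rw [h] at this
    exact (Nat.not_odd_iff_even.2 (even_two_mul _)) this
  obtain ⟨M, hM, hsum⟩ : ∃ M : Finset ι, Fintype.card ι ≤ 2 * M.card ∧
      ∀ J ⊆ M, J ≠ ∅ → ∑ i ∈ J, (W i).card ≠ ∑ i ∈ J, 2 * (Y ∩ W i).card := by
    set P : Finset ι := univ.filter fun i => 2 * (Y ∩ W i).card < (W i).card with hP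
    have hc := Finset.card_compl_add_card P
    by_cases h : Pᶜ.card ≤ P.card
    · refine ⟨P, by omega, fun J hJ hne => ?_⟩
      refine ne_of_gt (Finset.sum_lt_sum_of_nonempty (Finset.nonempty_iff_ne_empty.2 hne) ?_)
      intro i hi
      exact (Finset.mem_filter.1 (hJ hi)).2
    · refine ⟨Pᶜ, by omega, fun J hJ hne => ?_⟩
      refine ne_of_lt (Finset.sum_lt_sum_of_nonempty (Finset.nonempty_iff_ne_empty.2 hne) ?_)
      intro i hi
      have h1 := Finset.mem_compl.1 (hJ hi)
      have h2 : ¬ 2 * (Y ∩ W i).card < (W i).card := fun h3 =>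
        h1 (Finset.mem_filter.2 ⟨Finset.mem_univ _, h3⟩)
      exact lt_of_le_of_ne (not_lt.1 h2) (hu i)
  refine ⟨M, hM, fun K hK => ?_⟩
  -- the characters of unions
  have hchi : ∀ (T : Finset α) (J : Finset ι),
      homChi T (J.biUnion W) = ∏ i ∈ J, homChi T (W i) := by
    intro T J
    unfold homChi
    rw [Finset.prod_biUnion]
    intro i _ j _ hij
    exact hdis i j hij
  have hzero : ∀ J ⊆ M, J ≠ ∅ → ∑ T, homChi T (symmDiff Y (J.biUnion W)) * f T = 0 := by
    intro J hJ hJne
    apply hom_F_zero f hf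
    intro hc
    apply hsum J hJ hJne
    have c1 : (J.biUnion W).card = ∑ i ∈ J, (W i).card :=
      Finset.card_biUnion fun i _ j _ hij => hdis i j hij
    have c2 : (Y ∩ J.biUnion W).card = ∑ i ∈ J, (Y ∩ W i).card := by
      rw [Finset.inter_biUnion, Finset.card_biUnion]
      intro i _ j _ hij
      exact (hdis i j hij).mono Finset.inter_subset_right Finset.inter_subset_right
    have c3 : (symmDiff Y (J.biUnion W)).card = (Y \ J.biUnion W).card + (J.biUnion W \ Y).card := by
      rw [symmDiff_def, Finset.sup_eq_union, Finset.card_union_of_disjoint disjoint_sdiff_sdiff]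
    have c4 : (Y \ J.biUnion W).card + (Y ∩ J.biUnion W).card = Y.card :=
      Finset.card_sdiff_add_card_inter _ _
    have c5 : (J.biUnion W \ Y).card + (Y ∩ J.biUnion W).card = (J.biUnion W).card := by
      rw [Finset.inter_comm]
      exact Finset.card_sdiff_add_card_inter _ _
    rw [← Finset.mul_sum, ← c1, ← c2]
    omega
  have hmain : ∑ T, (homChi T Y * f T) * ∏ i ∈ M, (1 + (if i ∈ K then (-1 : ℚ) else 1) *
      homChi T (W i)) = ∑ T, homChi T Y * f T := by
    have h1 : ∀ T : Finset α, (homChi T Y * f T) * ∏ i ∈ M,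
        (1 + (if i ∈ K then (-1 : ℚ) else 1) * homChi T (W i)) =
        ∑ J ∈ M.powerset, (∏ i ∈ J, (if i ∈ K then (-1 : ℚ) else 1)) *
          (homChi T (symmDiff Y (J.biUnion W)) * f T) := by
      intro T
      rw [Finset.prod_one_add, Finset.mul_sum]
      refine Finset.sum_congr rfl fun J _ => ?_
      rw [Finset.prod_mul_distrib, ← hchi T J, ← chi_mul]
      ring
    rw [Finset.sum_congr rfl (fun T _ => h1 T), Finset.sum_comm,
      Finset.sum_eq_single_of_mem ∅ (Finset.empty_mem_powerset M)]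
    · refine Finset.sum_congr rfl fun T _ => ?_
      rw [Finset.prod_empty, one_mul, Finset.biUnion_empty]
      have : symmDiff Y ∅ = Y := sd_empty Y
      rw [this]
    · intro J hJ hJne
      rw [← Finset.mul_sum, hzero J (Finset.mem_powerset.1 hJ) hJne, mul_zero]
  have hex : ∃ T, (homChi T Y * f T) * ∏ i ∈ M, (1 + (if i ∈ K then (-1 : ℚ) else 1) *
      homChi T (W i)) ≠ 0 := by
    by_contra hcon
    push Not at hcon
    rw [Finset.sum_eq_zero fun T _ => hcon T] at hmain
    exact hY hmain.symm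
  obtain ⟨T, hT⟩ := hex
  refine ⟨T, fun h => hT (by rw [h]; ring), fun i hi => ?_⟩
  have h2 : (1 + (if i ∈ K then (-1 : ℚ) else 1) * homChi T (W i)) ≠ 0 := by
    intro h
    apply hT
    rw [Finset.prod_eq_zero hi h, mul_zero]
  rw [chi_pow] at h2
  by_cases hK' : i ∈ K
  · rw [if_pos hK'] at h2
    rcases Nat.even_or_odd (T ∩ W i).card with he | ho
    · exfalso
      apply h2
      rw [he.neg_one_pow]
      ring
    · exact ⟨fun _ => ho, fun _ => hK'⟩
  · rw [if_neg hK'] at h2
    rcases Nat.even_or_odd (T ∩ W i).card with he | ho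
    · exact ⟨fun h => absurd h hK', fun h => absurd h (Nat.not_odd_iff_even.2 he)⟩
    · exfalso
      apply h2
      rw [ho.neg_one_pow]
      ring

omit [Fintype α] [Fintype ι] [DecidableEq ι] in
/-- An isomorphism of two graphs of the class which preserves all the sets preserves the relative
parities. -/
theorem rel_parity (G : SimpleGraph α) (W : ι → Finset α) (hodd : ∀ i, Odd (W i).card)
    (T T' : Finset α) (τ : sw G T ≃g sw G T') (hτ : ∀ i v, τ v ∈ W i ↔ v ∈ W i) (i j : ι) :
    ((T' ∩ W i).card : ZMod 2) - ((T' ∩ W j).card : ZMod 2) =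
      ((T ∩ W i).card : ZMod 2) - ((T ∩ W j).card : ZMod 2) := by
  classical
  have htt : ∀ (S A : Finset α), (∑ w ∈ A, if w ∈ S then (1 : ZMod 2) else 0) =
      ((S ∩ A).card : ZMod 2) := by
    intro S A
    rw [Finset.sum_boole, Finset.filter_mem_eq_inter, Finset.inter_comm]
  have hiso : ∀ (k : ι) (v : α), dd (sw G T') (W k) (τ v) = dd (sw G T) (W k) v := by
    intro k v
    unfold dd
    symm
    refine Finset.sum_bij (fun w _ => τ w) (fun w hw => (hτ k w).2 hw)
      (fun w _ w' _ h => τ.injective h) ?_ ?_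
    · intro w hw
      refine ⟨τ.symm w, ?_, by simp⟩
      rw [← hτ k]
      simpa using hw
    · intro w _
      have : (sw G T').Adj (τ v) (τ w) ↔ (sw G T).Adj v w := τ.map_rel_iff'
      simp only [this]
  have hE : ∀ (k : ι) (v : α), dd G (W k) (τ v) + (((T' ∩ W k).card : ZMod 2) +
      if τ v ∈ T' then 1 else 0) = dd G (W k) v + (((T ∩ W k).card : ZMod 2) +
      if v ∈ T then 1 else 0) := by
    intro k v
    have h := hiso k v
    rw [dd_sw G (W k) T' (τ v) (hodd k), dd_sw G (W k) T v (hodd k), htt, htt] at h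
    exact h
  have hD : ∀ v, (dd G (W i) (τ v) - dd G (W j) (τ v)) +
      (((T' ∩ W i).card : ZMod 2) - ((T' ∩ W j).card : ZMod 2)) =
      (dd G (W i) v - dd G (W j) v) + (((T ∩ W i).card : ZMod 2) - ((T ∩ W j).card : ZMod 2)) := by
    intro v
    linear_combination hE i v - hE j v
  have hsum : ∑ v ∈ W i, ((dd G (W i) (τ v) - dd G (W j) (τ v)) +
      (((T' ∩ W i).card : ZMod 2) - ((T' ∩ W j).card : ZMod 2))) =
      ∑ v ∈ W i, ((dd G (W i) v - dd G (W j) v) +
        (((T ∩ W i).card : ZMod 2) - ((T ∩ W j).card : ZMod 2))) :=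
    Finset.sum_congr rfl fun v _ => hD v
  rw [Finset.sum_add_distrib, Finset.sum_add_distrib] at hsum
  have hre : ∑ v ∈ W i, (dd G (W i) (τ v) - dd G (W j) (τ v)) =
      ∑ v ∈ W i, (dd G (W i) v - dd G (W j) v) := by
    refine Finset.sum_bij (fun w _ => τ w) (fun w hw => (hτ i w).2 hw)
      (fun w _ w' _ h => τ.injective h) ?_ ?_
    · intro w hw
      refine ⟨τ.symm w, ?_, by simp⟩
      rw [← hτ i]
      simpa using hw
    · intro w _
      rfl
  rw [hre, add_right_inj, Finset.sum_const, Finset.sum_const, nsmul_eq_mul, nsmul_eq_mul] at hsum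
  have hone : (((W i).card : ℕ) : ZMod 2) = 1 := by
    obtain ⟨k, hk⟩ := hodd i
    rw [hk]
    push_cast
    have : (2 : ZMod 2) = 0 := by decide
    rw [this]
    ring
  rw [hone, one_mul, one_mul] at hsum
  exact hsum

theorem odd_iff_cast (n : ℕ) : Odd n ↔ (n : ZMod 2) = 1 := by
  constructor
  · rintro ⟨k, hk⟩
    rw [hk]
    push_cast
    have : (2 : ZMod 2) = 0 := by decide
    rw [this]
    ring
  · intro h
    by_contra hc
    rw [Nat.not_odd_iff_even] at hc
    obtain ⟨k, hk⟩ := hc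
    rw [hk] at h
    push_cast at h
    rw [CharTwo.add_self_eq_zero] at h
    exact zero_ne_one h

omit [Fintype α] [Fintype ι] [DecidableEq ι] in
theorem rel_odd (G : SimpleGraph α) (W : ι → Finset α) (hodd : ∀ i, Odd (W i).card)
    (T T' : Finset α) (τ : sw G T ≃g sw G T') (hτ : ∀ i v, τ v ∈ W i ↔ v ∈ W i) (i j : ι)
    (hj : Odd (T ∩ W j).card ↔ Odd (T' ∩ W j).card) :
    Odd (T ∩ W i).card ↔ Odd (T' ∩ W i).card := by
  have h := rel_parity G W hodd T T' τ hτ i j
  have hz : ∀ a b c d : ZMod 2, a - b = c - d → (d = 1 ↔ b = 1) → (c = 1 ↔ a = 1) := by decide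
  rw [odd_iff_cast, odd_iff_cast] at hj ⊢
  exact hz _ _ _ _ h hj

/-- Odd sets have exponentially many images. -/
theorem odd_sets (G H : SimpleGraph α) (hdeck : SameDeck G H) (hne : ¬ Nonempty (G ≃g H))
    (W : ι → Finset α) (hdis : ∀ i j, i ≠ j → Disjoint (W i) (W j)) (hodd : ∀ i, Odd (W i).card) :
    2 ^ ((Fintype.card ι + 1) / 2) ≤ 4 * (Images G W).ncard := by
  classical
  obtain ⟨M, hM, hpat⟩ := patterns (ff G H) (sum_ff hdeck) ⟨∅, ff_empty_ne hdeck hne⟩ W hdis hodd
  have hα : Nonempty α := by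
    rw [← not_isEmpty_iff]
    intro h0
    exact (four_dvd hdeck hne).2 Fintype.card_eq_zero
  obtain ⟨x₀⟩ := hα
  obtain ⟨T₁, ⟨θ⟩⟩ := exists_sw hdeck x₀
  let B : Bool → Finset α := fun b => if b then T₁ else ∅
  have hty : ∀ T, ff G H T ≠ 0 → ∃ b : Bool, Nonempty (sw G T ≃g sw G (B b)) := by
    intro T hT
    rcases lt_or_gt_of_ne hT with h | h
    · obtain ⟨ψ⟩ := iso_of_ff_neg h
      exact ⟨true, ⟨ψ.trans θ.symm⟩⟩
    · obtain ⟨ψ⟩ := iso_of_ff_pos h
      refine ⟨false, ?_⟩
      have : sw G (B false) = G := sw_empty G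
      rw [this]
      exact ⟨ψ⟩
  have hch : ∀ K : {K // K ∈ M.powerset}, ∃ (T : Finset α) (b : Bool) (_ : sw G T ≃g sw G (B b)),
      ∀ i ∈ M, (i ∈ K.1 ↔ Odd (T ∩ W i).card) := by
    intro K
    obtain ⟨T, hT, hT2⟩ := hpat K.1 (Finset.mem_powerset.1 K.2)
    obtain ⟨b, ⟨ψ⟩⟩ := hty T hT
    exact ⟨T, b, ψ, hT2⟩
  choose T b ψ hTK using hch
  by_cases hM0 : M = ∅
  · rw [hM0, Finset.card_empty] at hM
    have h1 : (Fintype.card ι + 1) / 2 = 0 := by omega
    rw [h1, pow_zero]
    have h2 : (Images G W).Nonempty := ⟨_, 1, classAut_one G, rfl⟩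
    have h3 := (Set.ncard_pos (Set.toFinite _)).2 h2
    omega
  obtain ⟨i₀, hi₀⟩ := Finset.nonempty_iff_ne_empty.2 hM0
  let Φ : {K // K ∈ M.powerset} → Bool × Images G W × Bool := fun K =>
    (b K, ⟨fun i => (W i).map (ψ K).toEquiv.toEmbedding,
      ⟨(ψ K).toEquiv, classAut_of_iso G _ _ (ψ K), rfl⟩⟩, decide (i₀ ∈ K.1))
  have hinj : Function.Injective Φ := by
    intro K K' h
    have e1 : b K = b K' := congrArg Prod.fst h
    have e2 : (fun i => (W i).map (ψ K).toEquiv.toEmbedding) =
        fun i => (W i).map (ψ K').toEquiv.toEmbedding :=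
      congrArg Subtype.val (congrArg Prod.fst (congrArg Prod.snd h))
    have e3 : decide (i₀ ∈ K.1) = decide (i₀ ∈ K'.1) :=
      congrArg Prod.snd (congrArg Prod.snd h)
    have e3' : i₀ ∈ K.1 ↔ i₀ ∈ K'.1 := by simpa using e3
    obtain ⟨ψ', hψ'⟩ : ∃ ψ' : sw G (T K') ≃g sw G (B (b K)), ∀ v, ψ' v = ψ K' v := by
      rw [e1]
      exact ⟨ψ K', fun v => rfl⟩
    have hτ : ∀ i v, ((ψ K).trans ψ'.symm) v ∈ W i ↔ v ∈ W i := by
      intro i v
      have e4 : (W i).map (ψ K).toEquiv.toEmbedding = (W i).map (ψ K').toEquiv.toEmbedding :=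
        congrFun e2 i
      have e5 : ψ K v ∈ (W i).map (ψ K).toEquiv.toEmbedding ↔ v ∈ W i := by
        rw [Finset.mem_map]
        constructor
        · rintro ⟨w, hw, hwv⟩
          have : w = v := (ψ K).injective hwv
          rwa [← this]
        · intro hv
          exact ⟨v, hv, rfl⟩
      rw [e4, Finset.mem_map] at e5
      rw [← e5]
      constructor
      · intro hv
        refine ⟨_, hv, ?_⟩
        have : ψ' (ψ'.symm (ψ K v)) = ψ K v := by simp
        rw [hψ'] at this
        exact this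
      · rintro ⟨w, hw, hwv⟩
        have h6 : ψ' w = ψ K v := by
          rw [hψ']
          exact hwv
        have h7 : ((ψ K).trans ψ'.symm) v = w := by
          show ψ'.symm (ψ K v) = w
          rw [← h6]
          simp
        rw [h7]
        exact hw
    apply Subtype.ext
    have hKM := Finset.mem_powerset.1 K.2
    have hKM' := Finset.mem_powerset.1 K'.2
    ext i
    by_cases hi : i ∈ M
    · rw [hTK K i hi, hTK K' i hi]
      refine rel_odd G W hodd (T K) (T K') ((ψ K).trans ψ'.symm) hτ i i₀ ?_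
      rw [← hTK K i₀ hi₀, ← hTK K' i₀ hi₀]
      exact e3'
    · exact ⟨fun h => absurd (hKM h) hi, fun h => absurd (hKM' h) hi⟩
  have hfin : Finite (Images G W) := (Set.toFinite _).to_subtype
  have h8 := Nat.card_le_card_of_injective Φ hinj
  rw [Nat.card_eq_fintype_card, Fintype.card_coe, Finset.card_powerset, Nat.card_prod,
    Nat.card_prod, Nat.card_coe_set_eq] at h8
  have h9 : Nat.card Bool = 2 := by simp
  rw [h9] at h8
  calc 2 ^ ((Fintype.card ι + 1) / 2) ≤ 2 ^ M.card := Nat.pow_le_pow_right (by norm_num) (by omega)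
    _ ≤ 2 * ((Images G W).ncard * 2) := h8
    _ = 4 * (Images G W).ncard := by ring

end Pool.Agent.NTW.OddSets
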