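import Pool.Agent.NTW.OddSets
import Pool.Agent.RGP15.Traces

/-!
Odd sets (MP_e73337_co, helper48), for all graphs of a switching class.
-/

set_option autoImplicit false

namespace Pool.Agent.NTW.OddSets

open Finset Pool.Agent.Lib_helper61.SwitchBasic Pool.Agent.RGP15

variable {α : Type} [Fintype α] [DecidableEq α] {ι : Type} [Fintype ι] [DecidableEq ι]

omit [Fintype α] [Fintype ι] [DecidableEq ι] in
theorem images_sw (G : SimpleGraph α) (X : Finset α) (W : ι → Finset α) :
    Images (sw G X) W = Images G W := by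
  ext Φ
  constructor
  · rintro ⟨σ, hσ, h⟩
    exact ⟨σ, classAut_unsw G X σ hσ, h⟩
  · rintro ⟨σ, hσ, h⟩
    exact ⟨σ, classAut_sw G X σ hσ, h⟩

/-- If `sw G X` is not reconstructible, then pairwise disjoint vertex sets of odd size have exponentially many
images under the class automorphisms of `G`. -/
theorem odd_sets_class (G : SimpleGraph α) (X : Finset α) (H : SimpleGraph α)
    (hdeck : SameDeck (sw G X) H) (hne : ¬ Nonempty (sw G X ≃g H))
    (W : ι → Finset α) (hdis : ∀ i j, i ≠ j → Disjoint (W i) (W j)) (hodd : ∀ i, Odd (W i).card) :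
    2 ^ ((Fintype.card ι + 1) / 2) ≤ 4 * (Images G W).ncard := by
  rw [← images_sw G X W]
  exact odd_sets (sw G X) H hdeck hne W hdis hodd

/-- The same for `k` sets. -/
theorem odd_sets_fin (G : SimpleGraph α) (X : Finset α) (H : SimpleGraph α)
    (hdeck : SameDeck (sw G X) H) (hne : ¬ Nonempty (sw G X ≃g H)) (k : ℕ)
    (W : Fin k → Finset α) (hdis : ∀ i j, i ≠ j → Disjoint (W i) (W j))
    (hodd : ∀ i, Odd (W i).card) : 2 ^ (k - k / 2) ≤ 4 * (Images G W).ncard := by
  have h := odd_sets_class G X H hdeck hne W hdis hodd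
  rw [Fintype.card_fin] at h
  have e : k - k / 2 = (k + 1) / 2 := by omega
  rwa [e]

/-- The form for two graphs with the same deck (signature of helper15). -/
theorem odd_bound (G H : SimpleGraph α) (hdeck : SameDeck G H) (hne : ¬ Nonempty (G ≃g H)) (n : ℕ)
    (W : Fin n → Finset α) (hdisj : ∀ i j, i ≠ j → Disjoint (W i) (W j))
    (hodd : ∀ i, Odd (W i).card) : 2 ^ (n - n / 2) ≤ 4 * (Images G W).ncard := by
  have h := odd_sets G H hdeck hne W hdisj hodd
  rw [Fintype.card_fin] at h
  have e : n - n / 2 = (n + 1) / 2 := by omega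
  rwa [e]

end Pool.Agent.NTW.OddSets
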