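import Pool.Agent.NTW.Main5
import Pool.Agent.NTW.Sw
import Pool.Agent.NTW.MSRG1
import Pool.Agent.NTW.MSRG2

/-!
The substitution theorem for whole switching classes, and its consequences (MP_e73337_co).
-/

set_option autoImplicit false

namespace Pool.Agent.NTW

open Finset Pool.Agent.Lib_helper61.SwitchBasic Fin5

/-- `G` is switching-reconstructible: every `H` with the same switching deck is isomorphic to `G`. -/
def Recon {p : ℕ} (G : SimpleGraph (Fin p)) : Prop :=
  ∀ H : SimpleGraph (Fin p), SameDeck G H → Nonempty (G ≃g H)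

/-- `G` arises from the skeleton `Γ` by substituting graphs for its vertices: `c x` is the vertex of `Γ` for which the
graph containing the vertex `x` of `G` has been substituted. -/
def IsSubst {p r : ℕ} (Γ : SimpleGraph (Fin r)) (G : SimpleGraph (Fin p)) (c : Fin p → Fin r) :
    Prop :=
  Function.Surjective c ∧ ∀ x y, c x ≠ c y → (G.Adj x y ↔ Γ.Adj (c x) (c y))

theorem sep_sw {α : Type} [Fintype α] [DecidableEq α] (G : SimpleGraph α) (S : Finset α)
    (y z : α) : (sep (sw G S) y z = sep G y z ∧ cosep (sw G S) y z = cosep G y z) ∨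
      (sep (sw G S) y z = cosep G y z ∧ cosep (sw G S) y z = sep G y z) := by
  classical
  by_cases hS : (y ∈ S ↔ z ∈ S)
  · left
    constructor
    · ext x
      simp only [sep, mem_filter, mem_univ, true_and]
      by_cases h1 : x = y
      · simp [h1]
      by_cases h2 : x = z
      · simp [h2]
      rw [sw_adj_iff G S x y z h1 h2]
      tauto
    · ext x
      simp only [cosep, mem_filter, mem_univ, true_and]
      by_cases h1 : x = y
      · simp [h1]
      by_cases h2 : x = z
      · simp [h2]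
      rw [sw_adj_iff G S x y z h1 h2]
      tauto
  · right
    constructor
    · ext x
      simp only [sep, cosep, mem_filter, mem_univ, true_and]
      by_cases h1 : x = y
      · simp [h1]
      by_cases h2 : x = z
      · simp [h2]
      rw [sw_adj_iff G S x y z h1 h2]
      tauto
    · ext x
      simp only [sep, cosep, mem_filter, mem_univ, true_and]
      by_cases h1 : x = y
      · simp [h1]
      by_cases h2 : x = z
      · simp [h2]
      rw [sw_adj_iff G S x y z h1 h2]
      tauto

theorem nearP_sw {α : Type} [Fintype α] [DecidableEq α] (G : SimpleGraph α) (S : Finset α)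
    (c : α → ℕ) (q : ℕ) (y z : α) : NearP (sw G S) c q y z ↔ NearP G c q y z := by
  unfold NearP
  rcases sep_sw G S y z with ⟨h1, h2⟩ | ⟨h1, h2⟩
  · rw [h1, h2]
  · rw [h1, h2, or_comm]

/-- The substitution theorem for the switching class. -/
theorem subst_class (p : ℕ) (hp : 3 < p) (G : SimpleGraph (Fin p)) (c : Fin p → ℕ)
    (hmod : ∀ i, IsMod G (part c i)) (h2 : ∃ y z, c y ≠ c z) (E : Finset (Fin p))
    (hE : 16 * (Nat.clog 2 p + 1) ^ 2 * E.card ≤ (univ.image c).card)
    (h : ∀ y, y ∉ E →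
      {z | z ≠ y ∧ NearP G c (33 * (Nat.clog 2 p + 1) ^ 3) y z}.ncard ≤ 2 ∨
      ∀ z, NearP G c (33 * (Nat.clog 2 p + 1) ^ 3) y z → c z = c y)
    (S : Finset (Fin p)) : Recon (sw G S) := by
  intro H hdeck
  refine subst_main p hp (sw G S) c (fun i => mod_sw G S _ (hmod i)) h2 E hE ?_ H hdeck
  intro y hy
  simp only [nearP_sw]
  exact h y hy

theorem image_sep {p r : ℕ} {Γ : SimpleGraph (Fin r)} {G : SimpleGraph (Fin p)}
    {c : Fin p → Fin r} (hc : IsSubst Γ G c) (y z : Fin p) :
    (sep Γ (c y) (c z)).card ≤ ((sep G y z).image fun x => ((c x : Fin r) : ℕ)).card ∧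
    (cosep Γ (c y) (c z)).card ≤ ((cosep G y z).image fun x => ((c x : Fin r) : ℕ)).card := by
  classical
  have key : ∀ x, c x ≠ c y → c x ≠ c z → ((G.Adj x y ↔ G.Adj x z) ↔
      (Γ.Adj (c x) (c y) ↔ Γ.Adj (c x) (c z))) := by
    intro x h1 h2
    rw [hc.2 x y h1, hc.2 x z h2]
  constructor
  · rw [← Finset.card_map (Fin.valEmbedding (n := r))]
    refine Finset.card_le_card ?_
    intro n hn
    obtain ⟨i, hi, rfl⟩ := Finset.mem_map.1 hn
    simp only [sep, mem_filter, mem_univ, true_and] at hi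
    obtain ⟨x, rfl⟩ := hc.1 i
    refine Finset.mem_image.2 ⟨x, ?_, rfl⟩
    simp only [sep, mem_filter, mem_univ, true_and]
    refine ⟨fun e => hi.1 (by rw [e]), fun e => hi.2.1 (by rw [e]), ?_⟩
    rw [key x hi.1 hi.2.1]
    exact hi.2.2
  · rw [← Finset.card_map (Fin.valEmbedding (n := r))]
    refine Finset.card_le_card ?_
    intro n hn
    obtain ⟨i, hi, rfl⟩ := Finset.mem_map.1 hn
    simp only [cosep, mem_filter, mem_univ, true_and] at hi
    obtain ⟨x, rfl⟩ := hc.1 i
    refine Finset.mem_image.2 ⟨x, ?_, rfl⟩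
    simp only [cosep, mem_filter, mem_univ, true_and]
    refine ⟨fun e => hi.1 (by rw [e]), fun e => hi.2.1 (by rw [e]), ?_⟩
    rw [key x hi.1 hi.2.1]
    exact hi.2.2

/-- Substitution into a skeleton in which all pairs are separated and coseparated by many vertices. -/
theorem subst_skeleton (p r : ℕ) (Γ : SimpleGraph (Fin r)) (G : SimpleGraph (Fin p))
    (c : Fin p → Fin r) (hr : 2 ≤ r) (hc : IsSubst Γ G c)
    (h : ∀ i j, i ≠ j → 33 * (Nat.clog 2 p + 1) ^ 3 ≤ (sep Γ i j).card ∧
      33 * (Nat.clog 2 p + 1) ^ 3 ≤ (cosep Γ i j).card) (S : Finset (Fin p)) :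
    Recon (sw G S) := by
  classical
  obtain ⟨y, hy⟩ := hc.1 ⟨0, by omega⟩
  obtain ⟨z, hz⟩ := hc.1 ⟨1, by omega⟩
  have hyz : c y ≠ c z := by
    rw [hy, hz]
    simp
  have hp : 3 < p := by
    have h1 := (h (c y) (c z) hyz).1
    have h2 : 33 ≤ 33 * (Nat.clog 2 p + 1) ^ 3 := by
      have : 1 ≤ (Nat.clog 2 p + 1) ^ 3 := Nat.one_le_pow _ _ (Nat.succ_pos _)
      omega
    have h3 : (sep Γ (c y) (c z)).card ≤ r := by
      calc (sep Γ (c y) (c z)).card ≤ Fintype.card (Fin r) := Finset.card_le_univ _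
        _ = r := Fintype.card_fin r
    have h4 : r ≤ p := by
      have := Fintype.card_le_of_surjective c hc.1
      rwa [Fintype.card_fin, Fintype.card_fin] at this
    omega
  refine subst_class p hp G (fun x => ((c x : Fin r) : ℕ)) ?_
    ⟨y, z, fun e => hyz (Fin.ext e)⟩ ∅ (by simp) ?_ S
  · intro i u hu w hw
    left
    intro x hx
    rw [mem_part] at hu hw hx
    have h1 : c u = c w := Fin.ext (hu.trans hw.symm)
    have h2 : c x ≠ c u := fun e => hx (by rw [e]; exact hu)
    rw [hc.2 x u h2, hc.2 x w (by rw [← h1]; exact h2), h1]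
  · intro u _
    right
    intro w hw
    by_contra hne
    have hne' : c u ≠ c w := fun e => hne (by rw [e])
    obtain ⟨h1, h2⟩ := image_sep hc u w
    obtain ⟨h3, h4⟩ := h (c u) (c w) hne'
    rcases hw with hw | hw
    · omega
    · omega

/-- Substitution into a primitive strongly regular graph. -/
theorem subst_srg (p r k l m : ℕ) (Γ : SimpleGraph (Fin r)) [DecidableRel Γ.Adj]
    (G : SimpleGraph (Fin p)) (c : Fin p → Fin r) (hΓ : Γ.IsSRGWith r k l m) (hm : 0 < m)
    (hmk : m < k) (hk : k + 1 < r) (hr : 9 * (33 * (Nat.clog 2 p + 1) ^ 3) ^ 2 + 2 ≤ r)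
    (hc : IsSubst Γ G c) (S : Finset (Fin p)) : Recon (sw G S) := by
  refine subst_skeleton p r Γ G c (by omega) hc ?_ S
  intro i j hij
  have := srg_not_near t_SRG1 (Fin r) Γ r k l m (33 * (Nat.clog 2 p + 1) ^ 3) hΓ hm hmk hk hr i j hij
  exact ⟨by omega, this.2⟩

end Pool.Agent.NTW
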