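import Pool.Agent.NTW.Fin6

/-!
# MP_e73337_co, the centroid theorem: substitution into a prime graph (helper39, Dec 5)

`theorem t_QAUT : S_QAUT`, `theorem t_PRQ : S_PRQ`.
-/

set_option autoImplicit false

namespace Pool.Agent.NTW

open Finset Pool.Agent.Lib_helper61.SwitchBasic

/-- **QAUT** (no hypothesis).  Let `s` be a class automorphism of `G`, `(sw G T).Adj (s u) (s v) ↔ G.Adj u v`.  The permutation `σ` of `Fin r` with `σ (π x) = π (s x)` exists (`s⁻¹` is a class automorphism too, `Fin6.classAut_inv`).  For `π u ≠ π v`: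
`F.Adj (π u) (π v) ↔ G.Adj u v ↔ (G.Adj (s u) (s v) ↔ (s u ∈ T ↔ s v ∈ T))` and `G.Adj (s u) (s v) ↔ F.Adj (σ (π u)) (σ (π v))`.  So for fixed `π u ≠ π v` the truth of `s u ∈ T ↔ s v ∈ T` does not depend on `u`, `v`; as `2 ≤ r`, `T` is a union of fibres of `π`, and with
`T' = T.image π` we get `(sw F T').Adj (σ i) (σ j) ↔ F.Adj i j`: `σ` is a class automorphism of `F`.  So the set counted by `partImages` is contained in the image of `{σ | IsClassAut F σ}` under `σ ↦ (x ↦ (σ (π x) : ℕ))`. -/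
def S_QAUT : Prop :=
  ∀ (p r : ℕ) (F : SimpleGraph (Fin r)) (G : SimpleGraph (Fin p)) (π : Fin p → Fin r),
    Function.Surjective π → 2 ≤ r →
    (∀ u v, π u ≠ π v → (G.Adj u v ↔ F.Adj (π u) (π v))) →
    (∀ s : Equiv.Perm (Fin p), IsClassAut G s → ∀ x y, π x = π y → π (s x) = π (s y)) →
    partImages G (fun x => (π x : ℕ)) ≤ {σ : Equiv.Perm (Fin r) | IsClassAut F σ}.ncard

/-- **PRQ** (no hypothesis).  Let `W` be a module of `G` which is a union of fibres, `C = W.image π` (so `x ∈ W ↔ π x ∈ C`).  `C` is a module of `F`: for `i, j ∈ C` choose `z, w ∈ W` over `i`, `j`; for `l ∉ C` choose `x` over `l`; `F.Adj l i ↔ G.Adj x z` and so on.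
If `C.card ≤ 1` the first alternative of `PrimeQ` holds, if `r ≤ C.card + 1` the second one.  The other two parts: a fibre is a module of `G`, `univ.image (fun x => (π x : ℕ))` has `r` elements. -/
def S_PRQ : Prop :=
  ∀ (p r : ℕ) (F : SimpleGraph (Fin r)) (G : SimpleGraph (Fin p)) (π : Fin p → Fin r),
    Function.Surjective π →
    (∀ u v, π u ≠ π v → (G.Adj u v ↔ F.Adj (π u) (π v))) →
    ((∀ C : Finset (Fin r), IsMod F C → C.card ≤ 1 ∨ r ≤ C.card + 1) →
      PrimeQ G (fun x => (π x : ℕ))) ∧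
    (∀ i, IsMod G (Fin5.part (fun x => (π x : ℕ)) i)) ∧
    (univ.image (fun x => (π x : ℕ))).card = r

end Pool.Agent.NTW
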