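import Mathlib
import Pool.Agent.NTW.Defs

/-!
# MP_e73337_co: primitive strongly regular graphs have no near twins (helper48, Dec 5)

`G` strongly regular `(v, k, l, m)`, `0 < m < k`, `k + 1 < v`.  Put `a = k - 1 - l`, `b = k - m`, `k' = v - 1 - k`.
-/

set_option autoImplicit false

namespace Pool.Agent.NTW

open Finset

/-- **SRG1**.  `sep G y z` is the disjoint union of the neighbours of `y` which are not neighbours of `z` and different from `z`, and the same with
`y`, `z` exchanged.  `y` has `k` neighbours, `l` (or `m`) of them are neighbours of `z`, and `z` itself is a neighbour of `y` if they are adjacent. -/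
def S_SRG1 : Prop :=
  ∀ (α : Type) [Fintype α] [DecidableEq α] (G : SimpleGraph α) [DecidableRel G.Adj] (v k l m : ℕ),
    G.IsSRGWith v k l m → ∀ y z : α, y ≠ z →
    (G.Adj y z → (sep G y z).card = 2 * (k - 1 - l)) ∧ (¬ G.Adj y z → (sep G y z).card = 2 * (k - m)) ∧
    (sep G y z).card + (cosep G y z).card + 2 = Fintype.card α

/-- **SRG2** (from SRG1).  `k a = k' m` (`SimpleGraph.IsSRGWith.param_eq`, `a = k - l - 1`), so `k a + k' b = k k'` (as `m = k - b`).
(i) There are nonadjacent `y ≠ z` (`k + 1 < v`), they have a common neighbour `w` (`0 < m`).  A vertex in `sep G y z` is not `w`, and it lies in `sep G y w` or in `sep G w z`: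
`2 b ≤ 4 a`, `b ≤ 2 a`.  (ii) `k > m`: for nonadjacent `y ≠ z'` there is a neighbour `z` of `y` not adjacent to `z'` (and `z ≠ z'`): `y ~ z`, `w = z'` adjacent to
neither; a vertex in `sep G y z` is not `w`, and lies in `sep G y w` or `sep G w z`: `2 a ≤ 4 b`, `a ≤ 2 b`.
(iii) `k k' = k a + k' b ≤ (k + 2 k') a` and `≤ (2 k + k') b`; with `c = min k k'`: `c ≤ 3 a`, `c ≤ 3 b` (e.g. if `3 a < k` and `3 a < k'` then `k a * 3 < k k'`, `2 k' a * 3 < 2 k k'`, so
`3 (k + 2 k') a < 3 k k'`).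
(iv) `c ^ 2 + 1 ≥ v`: `k' ≤ k' m = k a ≤ k (k - 1)`, so `v = 1 + k + k' ≤ 1 + k ^ 2`; and `k' b = k (k' - a)` with `k' - a = v - 2k + l` equal to the number of common non-neighbours of two
adjacent vertices, positive because of the triple in (ii) (`y ~ z`, `w` adjacent to neither), so `a ≤ k' - 1`, `b ≤ a`-part: `k ≤ k (k' - a) = k' b`, and `b ≤ k' - 1` because two nonadjacent
vertices `y`, `z'` have `b` vertices adjacent to `z'` only, all non-neighbours of `y` other than `z'`; so `v ≤ 1 + k' ^ 2`.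
(v) `L = ⌈log₂ v⌉`, `D = 54 L²`, `v ≥ 2 ^ 36`: `v ≥ 9 D² + 2` (`2 ^ (L - 1) < v`; `2 ^ (L - 1) ≥ 26244 L ^ 4 + 2` for `L ≥ 37`, and for `L = 36` `v = 2 ^ 36 ≥ 26244 * 36 ^ 4 + 2`), so `c ≥ 3 D + 1`
(`c ^ 2 ≥ v - 1 > (3 D) ^ 2`), `a, b ≥ D`, all separations are `≥ 2 D`.
(vi) Suppose `(cosep G y z).card < D` for some `y ≠ z`.  By SRG1 the same holds for all adjacent pairs (if `y ~ z`) or for all nonadjacent pairs.  Take `w ≠ y` with `w ~ z` (`k ≥ 2`), or `w ≠ y, z`
with `w` nonadjacent to `z` (`k' ≥ 2`; both by (v)).  A vertex in `sep G y w` is `z` or lies in `cosep G y z` or in `cosep G z w` (if it separates `y`, `z` and `z`, `w`, it does not separate `y`, `w`):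
`2 D ≤ 1 + 2 (D - 1)`, a contradiction. -/
def S_SRG2 : Prop :=
  ∀ (α : Type) [Fintype α] [DecidableEq α] (G : SimpleGraph α) [DecidableRel G.Adj] (v k l m : ℕ),
    G.IsSRGWith v k l m → 0 < m → m < k → k + 1 < v → 2 ^ 36 ≤ v →
    ∀ y z : α, y ≠ z → ¬ Near G (6 * 3 ^ 2 * Nat.clog 2 v ^ 2) y z

end Pool.Agent.NTW
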