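import Pool.Agent.NTW.St6

/-!
# MP_e73337_co, modules with exactly half of the vertices (helper39, Dec 5)

THEOREM.  `p = 2 n`, `4 ∣ n`, `8 ≤ n`: a graph with a module (up to switching) of exactly `n` vertices is switching-reconstructible.
(So the hypothesis on `p / 2` in the centroid theorem is needed only for `p ≡ 4` mod 8 and `p = 8`.)

`theorem t_HALF1 : S_HALF1`, `theorem t_HALF2 (h : S_HALF1) : S_HALF2`, `theorem t_HALF3 (h : S_HALF2) : S_HALF3`.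

`W = Uᶜ`.  An automorphism `s` of `B` is `straight` if it maps `U` to `U`, `crossed` if it maps `U` to `W`.  If `s` is straight, then `s` on `U`, the identity
on `W`, and also `s` on `W`, the identity on `U`, are automorphisms (`mod`).
-/

set_option autoImplicit false

namespace Pool.Agent.NTW

open Finset Pool.Agent.Lib_helper61.SwitchBasic

/-- `s` is an automorphism of `B`. -/
def IsAut {α : Type} (B : SimpleGraph α) (s : Equiv.Perm α) : Prop :=
  ∀ u v, B.Adj (s u) (s v) ↔ B.Adj u v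

/-- The situation of two halves. -/
structure Half {α : Type} [Fintype α] [DecidableEq α] (B : SimpleGraph α) (U : Finset α) (n : ℕ)
    (f : Finset α → ℚ) : Prop where
  cardU : U.card = n
  cardW : Uᶜ.card = n
  mod : ∀ u ∈ U, ∀ u' ∈ U, ∀ w ∉ U, ∀ w' ∉ U, (B.Adj u w ↔ B.Adj u' w')
  aut : ∀ s : Equiv.Perm α, IsAut B s → (∀ x, s x ∈ U ↔ x ∈ U) ∨ (∀ x, s x ∈ U ↔ x ∉ U)
  sum : ∀ S, ∑ i : α, f (symmDiff S {i}) = 0
  inv : ∀ s : Equiv.Perm α, IsAut B s → ∀ S, f (S.map s.toEmbedding) = f S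
  invc : ∀ S : Finset α, f Sᶜ = f S
  orbit : ∀ S T : Finset α, 0 < f S * f T →
    ∃ s : Equiv.Perm α, IsAut B s ∧ (T = S.map s.toEmbedding ∨ T = (S.map s.toEmbedding)ᶜ)
  pos : ∃ S, 0 < f S

/-- **HALF1** (no hypothesis).  `F Y = ∑_(Z ⊆ W) f (Y ∪ Z)`.  Sum the hypothesis `sum` at `Y ∪ Z` over `Z ⊆ W`: the `i ∈ W` give `n * F Y` (`Z ↦ Z Δ {i}`), so `∑_(i ∈ U) F (Y Δ {i}) = - n * F Y` for `Y ⊆ U`.  Take `Y₀ ⊆ U` with `|F Y₀|` maximal: all `F (Y₀ Δ {i})`, `i ∈ U`, are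
`- F Y₀`; by induction on the distance `|F Y| = |F Y₀|` for all `Y ⊆ U`.  If this number is not 0, every `Y ⊆ U` is `S ∩ U` for some `S` with `f S ≠ 0`.  But by `orbit` and `aut` the number `card (S ∩ U)` takes at most 4 values for `0 < f S` (`a`, `n - a`, `b`, `n - b` with `a = card (S⁺ ∩ U)`,
`b = card (S⁺ ∩ W)`, `S⁺` fixed), and at most 4 for `f S < 0`, and `8 < n + 1`. -/
def S_HALF1 : Prop :=
  ∀ (α : Type) [Fintype α] [DecidableEq α] (B : SimpleGraph α) (U : Finset α) (n : ℕ)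
    (f : Finset α → ℚ), Half B U n f → 8 ≤ n →
    ∀ Y ⊆ U, ∑ Z ∈ Uᶜ.powerset, f (Y ∪ Z) = 0

/-- **HALF2** (from HALF1; also for `Uᶜ` in place of `U`: `Half B Uᶜ n f` holds too, and for `-f` if some value is negative: some value of `f` is negative, as the sum of all values is 0 by `sum`).
Let `0 < f S`, `x = S ∩ U`, `y = S ∩ W`.  HALF1: there is `T` with `T ∩ U = x`, `f T < 0`; `z = T ∩ W`.  Write `A ≈ A'` (`A, A' ⊆ W`) if a straight automorphism maps `A` to `A'` or to `W \ A'`.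
HALF1 for `Uᶜ` at `y`: `T'` with `T' ∩ W = y`, `f T' < 0`, so `T' = s T` or `(s T)ᶜ`: if `s` is straight `y ≈ z`; if `s` is crossed, `y` is `s x` or `W \ s x`.  HALF1 for `Uᶜ` at `z`: `S'` with `S' ∩ W = z`, `0 < f S'`, so `S' = s' S` or `(s' S)ᶜ`: if `s'` is straight, `z ≈ y`;
if it is crossed, `z` is `s' x` or `W \ s' x`.  If both are crossed, `s' s⁻¹` is straight and gives `y ≈ z`.  So `y ≈ z`: a straight `r` with `r z = y` or `r z = W \ y`; let `r'` be `r` on `W`, the identity on `U`.  In the first case `r' T = S`, `f T = f S`, impossible.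
In the second `r' T = S Δ W`, so `f (S Δ W) < 0`, and `f (S Δ U) = f (S Δ W)` by `invc`.  In the same way `f S < 0` implies `0 < f (S Δ U)`.  `f` has only one positive value `v` and only one negative value `- v'` (`orbit`, `inv`, `invc`), there are equally many sets with
`0 < f S` and `f S < 0` (`S ↦ S Δ U`), and the sum of all values is 0, so `v = v'`. -/
def S_HALF2 : Prop :=
  ∀ (α : Type) [Fintype α] [DecidableEq α] (B : SimpleGraph α) (U : Finset α) (n : ℕ)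
    (f : Finset α → ℚ), Half B U n f → 8 ≤ n → ∀ S, f (symmDiff S U) = - f S

/-- **HALF3** (from HALF2).  `qU S = qq (sw B S) U`, `qW S = qq (sw B S) Uᶜ` (SwitchBasic.lean; `qq_in`, `qq_out`, `DD_odd`: switching at `b ∈ U` changes `qU` by `- 4 * (odd number) ≠ 0` as `n` is even, and not `qW`).  If `T = s S` or `(s S)ᶜ` then `(qU, qW) T = (qU, qW) S` for straight `s`,
`(qW, qU) S` for crossed `s` (see `qq_iso`); `(qU, qW) (S Δ U) = (qU, qW) S`.  Fix `S⁺` with `0 < f S⁺`, `(a, b) = (qU, qW) S⁺`.  For `f S ≠ 0`: `(qU, qW) S` is `(a, b)` or `(b, a)` (for `f S < 0` use `S Δ U`).  Put `f₁ S = f S` if `qU S = a` and 0 otherwise, `f₂ = f - f₁`, `g S = ∑_(i ∈ U) f₁ (S Δ {i})`.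
(1) `g S = - ∑_(i ∈ W) f₂ (S Δ {i})`.  If `a = b` then `f₂ = 0` and we have to show `∑_(i ∈ U) f (S Δ {i}) = 0`: as in `sum_ff_inv`, if some `f (S Δ {w}) ≠ 0`, `w ∈ W`, then `qU S = a` and no `f (S Δ {u}) ≠ 0`, `u ∈ U`.  Let `a ≠ b`.  `f₁ (S Δ {u}) ≠ 0` (`u ∈ U`) implies `qW S = b`, `qU S ≠ a`; `f₂ (S Δ {w}) ≠ 0` (`w ∈ W`) implies
`qU S = b`, `qW S ≠ a`; `f₂ (S Δ {u}) ≠ 0` implies `qW S = a`; `f₁ (S Δ {w}) ≠ 0` implies `qU S = a`.  So if one of the first two kinds of terms occurs at `S`, none of the last two kinds occurs, and `sum` gives (1).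
(2) `g = 0`.  Let `g S ≠ 0`.  By (1) some `f₂ T ≠ 0`, and `(qU, qW) T = (b, a)`, `a ≠ b`, so there is a crossed automorphism `s` (`orbit`).  For crossed `s`: `f₂ (s S) = f₁ S` and `g (s S) = ∑_(w ∈ W) f₂ (S Δ {w}) = - g S`.  `g` and `f₁` are invariant under straight automorphisms.
If `f₁ (X₀ ∪ S₂) ≠ 0`, `f₁ (Y₀ ∪ T₂) ≠ 0` (`X₀, Y₀ ⊆ U`, `S₂, T₂ ⊆ W`), then there is a sign `e` with `f₁ (X ∪ T₂) = e * f₁ (X ∪ S₂)` for all `X ⊆ U`: replacing `Y₀` by `U \ Y₀` we may assume that both values have the same sign, so `Y₀ ∪ T₂ = r (X₀ ∪ S₂)` or its complement, `r` is straight (otherwise `qU`, `qW` are exchanged), and `T₂ = r S₂` or `W \ r S₂`;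
use `r` on `W`, the identity on `U`, and `f₁ (S Δ W) = - f₁ S`.  So with `S₁ = S ∩ U`, `S₂ = S ∩ W`, `g (S₁ ∪ s S₁) = e * g (S₁ ∪ S₂) ≠ 0` (`T₂ = s S₁` occurs because `g (s S) ≠ 0`, `s S = s S₂ ∪ s S₁`).  But `g (s (S₁ ∪ s S₁)) = - g (S₁ ∪ s S₁)`, and `s (S₁ ∪ s S₁) = s S₁ ∪ s² S₁` is the image of `S₁ ∪ s S₁` under `s²` on `U`, the
identity on `W`, so `g (S₁ ∪ s S₁) = 0`.  Contradiction.
(3) By `eigen` (V = U, l = 0, `g = 0`): `f₁ (S Δ U) = f₁ S` (`n / 2` even), by HALF2 `f₁ (S Δ U) = - f₁ S`, so `f₁ = 0`, but `f₁ S⁺ ≠ 0`. -/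
def S_HALF3 : Prop :=
  ∀ (α : Type) [Fintype α] [DecidableEq α] (B : SimpleGraph α) (U : Finset α) (n : ℕ)
    (f : Finset α → ℚ), Half B U n f → 8 ≤ n → 4 ∣ n → False

end Pool.Agent.NTW
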