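import Pool.Agent.NTW.Sw
import Pool.Agent.NTW.Fin3

/-!
The hypothesis `OKV` is not changed by switching (helper78).
-/

set_option autoImplicit false

namespace Pool.Agent.NTW

open Finset Pool.Agent.Lib_helper61.SwitchBasic

theorem twins_sw {α : Type} [Fintype α] [DecidableEq α] (G : SimpleGraph α) (S : Finset α)
    (y z : α) : Twins (sw G S) y z ↔ Twins G y z := by
  classical
  by_cases hS : (y ∈ S ↔ z ∈ S)
  · have e1 : sep (sw G S) y z = sep G y z := by
      ext x
      simp only [sep, mem_filter, mem_univ, true_and]
      by_cases h1 : x = y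
      · simp [h1]
      by_cases h2 : x = z
      · simp [h2]
      rw [sw_adj_iff G S x y z h1 h2]
      tauto
    have e2 : cosep (sw G S) y z = cosep G y z := by
      ext x
      simp only [cosep, mem_filter, mem_univ, true_and]
      by_cases h1 : x = y
      · simp [h1]
      by_cases h2 : x = z
      · simp [h2]
      rw [sw_adj_iff G S x y z h1 h2]
      tauto
    unfold Twins
    rw [e1, e2]
  · have e1 : sep (sw G S) y z = cosep G y z := by
      ext x
      simp only [sep, cosep, mem_filter, mem_univ, true_and]
      by_cases h1 : x = y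
      · simp [h1]
      by_cases h2 : x = z
      · simp [h2]
      rw [sw_adj_iff G S x y z h1 h2]
      tauto
    have e2 : cosep (sw G S) y z = sep G y z := by
      ext x
      simp only [sep, cosep, mem_filter, mem_univ, true_and]
      by_cases h1 : x = y
      · simp [h1]
      by_cases h2 : x = z
      · simp [h2]
      rw [sw_adj_iff G S x y z h1 h2]
      tauto
    unfold Twins
    rw [e1, e2, or_comm]

theorem mod_sw_iff {α : Type} [DecidableEq α] (G : SimpleGraph α) (S C : Finset α) :
    IsMod (sw G S) C ↔ IsMod G C := by
  refine ⟨fun h => ?_, mod_sw G S C⟩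
  have h1 := mod_sw (sw G S) S C h
  rw [sw_sw, symmDiff_self, Finset.bot_eq_empty] at h1
  have h2 : sw G ∅ = G := by
    ext x y
    rw [sw_adj]
    constructor
    · rintro ⟨-, h⟩
      simpa using h
    · intro h
      exact ⟨G.ne_of_adj h, by simpa using h⟩
  rwa [h2] at h1

theorem okv_sw {α : Type} [Fintype α] [DecidableEq α] (G : SimpleGraph α) (S : Finset α)
    (D M : ℕ) (y : α) : OKV (sw G S) D M y ↔ OKV G D M y := by
  unfold OKV
  simp only [near_sw, twins_sw, mod_sw_iff]

end Pool.Agent.NTW
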