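import Pool.Agent.NTW.Whole
import Pool.Agent.NTW.OddSets

/-!
Three invariant sets of odd size (MP_e73337_co, helper48): the whole class is reconstructible.
-/

set_option autoImplicit false

namespace Pool.Agent.NTW.Three

open Finset Pool.Agent.Lib_helper61.SwitchBasic Pool.Agent.Lib_helper61.SwMain
  Pool.Agent.Lib_helper61.SwComp Pool.Agent.Lib_helper61.SwSys Pool.Agent.NTW
  Pool.Agent.NTW.OddSets Pool.Agent.NTW.Half

variable {α : Type} [Fintype α] [DecidableEq α]

omit [Fintype α] in
theorem chi_comm (T A : Finset α) : homChi T A = homChi A T := by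
  rw [chi_pow, chi_pow, Finset.inter_comm]

omit [Fintype α] in
theorem chi_flip (S X : Finset α) (i : α) :
    homChi (symmDiff S {i}) X = homChi S X * (if i ∈ X then -1 else 1) := by
  rw [chi_comm (symmDiff S {i}) X, ← chi_mul, chi_comm X S]
  congr 1
  unfold homChi
  rw [Finset.prod_singleton]

omit [Fintype α] in
theorem chi_val (T A : Finset α) : homChi T A = 1 ∨ homChi T A = -1 := by
  rw [chi_pow]
  exact neg_one_pow_eq_or ℚ _

theorem chi_compl (T X : Finset α) (hX : Even X.card) : homChi Tᶜ X = homChi T X := by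
  rw [chi_pow, chi_pow]
  have h : (Tᶜ ∩ X).card + (T ∩ X).card = X.card := by
    rw [← Finset.card_union_of_disjoint]
    · congr 1
      ext x
      simp only [Finset.mem_union, Finset.mem_inter, Finset.mem_compl]
      tauto
    · rw [Finset.disjoint_left]
      intro x hx hx'
      simp only [Finset.mem_inter, Finset.mem_compl] at hx hx'
      exact hx.1 hx'.1
  have h2 : Even (Tᶜ ∩ X).card ↔ Even (T ∩ X).card := by
    have h3 : Even ((Tᶜ ∩ X).card + (T ∩ X).card) := by rw [h]; exact hX
    rwa [Nat.even_add] at h3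
  rcases Nat.even_or_odd (T ∩ X).card with he | ho
  · rw [he.neg_one_pow, (h2.2 he).neg_one_pow]
  · have ho' : Odd (Tᶜ ∩ X).card := by
      rw [← Nat.not_even_iff_odd] at ho ⊢
      exact fun hh => ho (h2.1 hh)
    rw [ho.neg_one_pow, ho'.neg_one_pow]

omit [Fintype α] in
theorem chi_im {Γ : SimpleGraph α} (φ : Γ ≃g Γ) (T X : Finset α) (hX : ∀ v, φ v ∈ X ↔ v ∈ X) :
    homChi (im φ T) X = homChi T X := by
  rw [chi_pow, chi_pow]
  congr 1
  have h : im φ T ∩ X = im φ (T ∩ X) := by
    ext x
    obtain ⟨y, rfl⟩ := φ.surjective x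
    rw [Finset.mem_inter, mem_im, mem_im, Finset.mem_inter, hX]
  rw [h]
  unfold im
  rw [Finset.card_map]

/-- A character of an invariant set of even size, not half of the vertices, is constant on the support. -/
theorem chi_const {Γ : SimpleGraph α} {F : Finset α → ℚ} (S : Sys Γ F) (X : Finset α)
    (hX : IsInvariant Γ X) (hev : Even X.card) (hp : 2 * X.card ≠ Fintype.card α)
    (T0 T1 : Finset α) (h0 : F T0 ≠ 0) (h1 : F T1 ≠ 0) : homChi T1 X = homChi T0 X := by
  have hsame : ∀ U U', 0 < F U * F U' → homChi U' X = homChi U X := by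
    intro U U' h
    obtain ⟨φ, hφ⟩ := S.hs U U' h
    have hinv : ∀ v, φ v ∈ X ↔ v ∈ X := by
      intro v
      refine hX φ.toEquiv ⟨∅, fun a b => ?_⟩ v
      rw [sw_empty]
      exact φ.map_rel_iff'
    have h2 := chi_im φ U X hinv
    rcases hφ with hφ | hφ
    · rw [← hφ, h2]
    · rw [hφ, chi_compl U' X hev] at h2
      exact h2
  rcases lt_or_gt_of_ne (mul_ne_zero h0 h1) with hlt | hgt
  swap
  · exact hsame T0 T1 hgt
  by_contra hcon
  have hneg : homChi T1 X = - homChi T0 X := by
    rcases chi_val T0 X with h2 | h2 <;> rcases chi_val T1 X with h3 | h3 <;>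
      rw [h2, h3] at hcon ⊢ <;> simp at hcon ⊢
  have hsum : ∑ T, homChi T X * F T = 0 := hom_F_zero F S.hT X hp
  have hnn : ∀ T ∈ (univ : Finset (Finset α)), 0 ≤ (homChi T0 X * F T0) * (homChi T X * F T) := by
    intro T _
    rcases lt_trichotomy (F T0 * F T) 0 with h | h | h
    · have h2 : 0 < F T1 * F T := by
        rcases lt_or_gt_of_ne h0 with ha | ha
        · have hb : 0 < F T1 := by nlinarith
          have hc : 0 < F T := by nlinarith
          positivity
        · have hb : F T1 < 0 := by nlinarith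
          have hc : F T < 0 := by nlinarith
          exact mul_pos_of_neg_of_neg hb hc
      rw [hsame T1 T h2, hneg]
      rcases chi_val T0 X with h3 | h3 <;> rw [h3] <;> nlinarith
    · have : (homChi T0 X * F T0) * (homChi T X * F T) =
          (homChi T0 X * homChi T X) * (F T0 * F T) := by ring
      rw [this, h, mul_zero]
    · rw [hsame T0 T h]
      rcases chi_val T0 X with h3 | h3 <;> rw [h3] <;> nlinarith
  have hz : ∑ T, (homChi T0 X * F T0) * (homChi T X * F T) = 0 := by
    rw [← Finset.mul_sum, hsum, mul_zero]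
  have h2 := (Finset.sum_eq_zero_iff_of_nonneg hnn).1 hz T0 (Finset.mem_univ _)
  have h3 : (homChi T0 X * F T0) * (homChi T0 X * F T0) = F T0 * F T0 := by
    rcases chi_val T0 X with h3 | h3 <;> rw [h3] <;> ring
  rw [h3] at h2
  exact (mul_ne_zero h0 h0) h2

/-- An invariant function orthogonal to `F` and to which a constant may be added is constant on the support. -/
theorem const_of_sum (F φ : Finset α → ℚ) (hsame : ∀ U U', 0 < F U * F U' → φ U' = φ U)
    (h0 : ∑ T, F T = 0) (h1 : ∑ T, F T * φ T = 0) (T0 T1 : Finset α) (hT0 : F T0 ≠ 0)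
    (hT1 : F T1 ≠ 0) : φ T1 = φ T0 := by
  rcases lt_or_gt_of_ne (mul_ne_zero hT0 hT1) with hlt | hgt
  swap
  · exact hsame T0 T1 hgt
  have hz : ∑ T, F T1 * F T * ((φ T - φ T0) * (φ T1 - φ T0)) = 0 := by
    have e : ∀ T, F T1 * F T * ((φ T - φ T0) * (φ T1 - φ T0)) =
        F T1 * (φ T1 - φ T0) * (F T * φ T) - F T1 * (φ T1 - φ T0) * φ T0 * F T := by
      intro T
      ring
    rw [Finset.sum_congr rfl (fun T _ => e T), Finset.sum_sub_distrib, ← Finset.mul_sum,
      ← Finset.mul_sum, h0, h1]
    ring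
  have hnn : ∀ T ∈ (univ : Finset (Finset α)),
      0 ≤ F T1 * F T * ((φ T - φ T0) * (φ T1 - φ T0)) := by
    intro T _
    rcases lt_trichotomy (F T1 * F T) 0 with h | h | h
    · have h2 : 0 < F T0 * F T := by
        rcases lt_or_gt_of_ne hT0 with ha | ha
        · have hb : 0 < F T1 := by nlinarith
          have hc : F T < 0 := by nlinarith
          exact mul_pos_of_neg_of_neg ha hc
        · have hb : F T1 < 0 := by nlinarith
          have hc : 0 < F T := by nlinarith
          positivity
      rw [hsame T0 T h2, sub_self, zero_mul, mul_zero]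
    · rw [h, zero_mul]
    · rw [hsame T1 T h]
      have := mul_self_nonneg (φ T1 - φ T0)
      positivity
  have h2 := (Finset.sum_eq_zero_iff_of_nonneg hnn).1 hz T1 (Finset.mem_univ _)
  have h3 : F T1 * F T1 ≠ 0 := mul_ne_zero hT1 hT1
  rcases mul_eq_zero.1 h2 with h4 | h4
  · exact absurd h4 h3
  · rw [mul_self_eq_zero, sub_eq_zero] at h4
    exact h4

/-- The sum of the signs over `Y`. -/
noncomputable def ell (Y T : Finset α) : ℚ := ∑ y ∈ Y, homChi T {y}

omit [Fintype α] in
theorem chi_single (T : Finset α) (y : α) : homChi T {y} = if y ∈ T then -1 else 1 := by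
  unfold homChi
  rw [Finset.prod_singleton]

omit [Fintype α] in
theorem ell_eq (Y T : Finset α) : ell Y T = (((Y.card : ℤ) - 2 * ((T ∩ Y).card : ℤ) : ℤ) : ℚ) := by
  unfold ell
  have h : ∀ y ∈ Y, homChi T {y} = 1 - 2 * (if y ∈ T then (1 : ℚ) else 0) := by
    intro y _
    rw [chi_single]
    by_cases hy : y ∈ T
    · simp only [hy, if_true]
      norm_num
    · simp only [hy, if_false]
      norm_num
  rw [Finset.sum_congr rfl h, Finset.sum_sub_distrib, Finset.sum_const, ← Finset.mul_sum,
    Finset.sum_boole, nsmul_eq_mul, mul_one]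
  have h2 : (Y.filter fun y => y ∈ T) = T ∩ Y := by
    ext y
    simp only [Finset.mem_filter, Finset.mem_inter]
    tauto
  rw [h2]
  push_cast
  ring

omit [Fintype α] in
theorem ell_ne (Y T : Finset α) (hY : Odd Y.card) : ell Y T ≠ 0 := by
  rw [ell_eq]
  intro h
  have h2 : (Y.card : ℤ) - 2 * ((T ∩ Y).card : ℤ) = 0 := by exact_mod_cast h
  obtain ⟨k, hk⟩ := hY
  omega

omit [Fintype α] in
theorem card_im {Γ : SimpleGraph α} (φ : Γ ≃g Γ) (T X : Finset α) (hX : ∀ v, φ v ∈ X ↔ v ∈ X) :
    (im φ T ∩ X).card = (T ∩ X).card := by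
  have h : im φ T ∩ X = im φ (T ∩ X) := by
    ext x
    obtain ⟨y, rfl⟩ := φ.surjective x
    rw [Finset.mem_inter, mem_im, mem_im, Finset.mem_inter, hX]
  rw [h]
  unfold im
  rw [Finset.card_map]

theorem card_compl_inter (T X : Finset α) : (Tᶜ ∩ X).card + (T ∩ X).card = X.card := by
  rw [← Finset.card_union_of_disjoint]
  · congr 1
    ext x
    simp only [Finset.mem_union, Finset.mem_inter, Finset.mem_compl]
    tauto
  · rw [Finset.disjoint_left]
    intro x hx hx'
    simp only [Finset.mem_inter, Finset.mem_compl] at hx hx'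
    exact hx.1 hx'.1

theorem ell_compl (Y T : Finset α) : ell Y Tᶜ = - ell Y T := by
  rw [ell_eq, ell_eq]
  have h := card_compl_inter T Y
  have h2 : ((Tᶜ ∩ Y).card : ℤ) = (Y.card : ℤ) - ((T ∩ Y).card : ℤ) := by omega
  rw [h2]
  push_cast
  ring

omit [Fintype α] in
theorem ell_im {Γ : SimpleGraph α} (φ : Γ ≃g Γ) (T Y : Finset α) (hY : ∀ v, φ v ∈ Y ↔ v ∈ Y) :
    ell Y (im φ T) = ell Y T := by
  rw [ell_eq, ell_eq, card_im φ T Y hY]

theorem chi_compl_odd (T X : Finset α) (hX : Odd X.card) : homChi Tᶜ X = - homChi T X := by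
  rw [chi_pow, chi_pow]
  have h := card_compl_inter T X
  obtain ⟨k, hk⟩ := hX
  rcases Nat.even_or_odd (T ∩ X).card with he | ho
  · have ho' : Odd (Tᶜ ∩ X).card := by
      obtain ⟨m, hm⟩ := he
      exact ⟨k - m, by omega⟩
    rw [he.neg_one_pow, ho'.neg_one_pow]
  · have he' : Even (Tᶜ ∩ X).card := by
      obtain ⟨m, hm⟩ := ho
      exact ⟨k - m, by omega⟩
    rw [ho.neg_one_pow, he'.neg_one_pow, neg_neg]

/-- The character of the union of two disjoint invariant sets of odd size is constant on the support. -/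
theorem pair_const {Γ : SimpleGraph α} {F : Finset α → ℚ} (S : Sys Γ F)
    (hp4 : Fintype.card α ≠ 4) (A B : Finset α)
    (hA : IsInvariant Γ A) (hB : IsInvariant Γ B) (oA : Odd A.card) (oB : Odd B.card)
    (dAB : Disjoint A B) (T0 T1 : Finset α) (h0 : F T0 ≠ 0) (h1 : F T1 ≠ 0) :
    homChi T1 (A ∪ B) = homChi T0 (A ∪ B) := by
  have hcard : (A ∪ B).card = A.card + B.card := Finset.card_union_of_disjoint dAB
  have hAB : IsInvariant Γ (A ∪ B) := by
    intro σ hσ v
    rw [Finset.mem_union, Finset.mem_union, hA σ hσ v, hB σ hσ v]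
  by_cases hs : 2 * (A ∪ B).card ≠ Fintype.card α
  · exact chi_const S (A ∪ B) hAB (by rw [hcard]; exact oA.add_odd oB) hs T0 T1 h0 h1
  push Not at hs
  have hpos : Fintype.card α ≠ 0 := by
    obtain ⟨k, hk⟩ := oA
    omega
  have hsum0 : ∑ T, F T = 0 := (level_two F S.hT hp4 hpos).1
  have hinv : ∀ (X : Finset α), IsInvariant Γ X → ∀ (φ : Γ ≃g Γ) (v : α), φ v ∈ X ↔ v ∈ X := by
    intro X hX φ v
    refine hX φ.toEquiv ⟨∅, fun a b => ?_⟩ v
    rw [sw_empty]
    exact φ.map_rel_iff'
  -- the product of the character and the sum of the signs of one odd set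
  have hone : ∀ Y : Finset α, IsInvariant Γ Y → Odd Y.card → 2 * (Y.card - 1) ≠ Fintype.card α →
      homChi T1 Y * ell Y T1 = homChi T0 Y * ell Y T0 := by
    intro Y hY oY hc
    refine const_of_sum F (fun T => homChi T Y * ell Y T) ?_ hsum0 ?_ T0 T1 h0 h1
    · intro U U' h
      obtain ⟨φ, hφ⟩ := S.hs U U' h
      have e1 := chi_im φ U Y (hinv Y hY φ)
      have e2 := ell_im φ U Y (hinv Y hY φ)
      rcases hφ with hφ | hφ
      · rw [← hφ, e1, e2]
      · rw [hφ] at e1 e2
        rw [chi_compl_odd U' Y oY] at e1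
        rw [ell_compl Y U'] at e2
        rw [← e1, ← e2]
        ring
    · have e : ∀ T, F T * (homChi T Y * ell Y T) =
          ∑ y ∈ Y, homChi T (symmDiff Y {y}) * F T := by
        intro T
        unfold ell
        rw [← Finset.sum_mul]
        have e3 : ∑ y ∈ Y, homChi T (symmDiff Y {y}) = homChi T Y * ∑ y ∈ Y, homChi T {y} := by
          rw [Finset.mul_sum]
          exact Finset.sum_congr rfl fun y _ => (chi_mul T Y {y}).symm
        rw [e3]
        ring
      rw [Finset.sum_congr rfl (fun T _ => e T), Finset.sum_comm]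
      refine Finset.sum_eq_zero fun y hy => ?_
      refine hom_F_zero F S.hT (symmDiff Y {y}) ?_
      have e4 : symmDiff Y {y} = Y.erase y := by
        ext x
        rw [Finset.mem_symmDiff, Finset.mem_singleton, Finset.mem_erase]
        constructor
        · rintro (h | h)
          · exact ⟨h.2, h.1⟩
          · exact absurd (h.1 ▸ hy) h.2
        · rintro ⟨h, h'⟩
          exact Or.inl ⟨h', h⟩
      rw [e4, Finset.card_erase_of_mem hy]
      exact hc
  have hA1 := hone A hA oA (by
    obtain ⟨k, hk⟩ := oA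
    obtain ⟨l, hl⟩ := oB
    omega)
  have hB1 := hone B hB oB (by
    obtain ⟨k, hk⟩ := oA
    obtain ⟨l, hl⟩ := oB
    omega)
  have hC1 : ell A T1 * ell B T1 = ell A T0 * ell B T0 := by
    refine const_of_sum F (fun T => ell A T * ell B T) ?_ hsum0 ?_ T0 T1 h0 h1
    · intro U U' h
      obtain ⟨φ, hφ⟩ := S.hs U U' h
      have e1 := ell_im φ U A (hinv A hA φ)
      have e2 := ell_im φ U B (hinv B hB φ)
      rcases hφ with hφ | hφ
      · rw [← hφ, e1, e2]
      · rw [hφ] at e1 e2
        rw [ell_compl A U'] at e1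
        rw [ell_compl B U'] at e2
        rw [← e1, ← e2]
        ring
    · have e : ∀ T, F T * (ell A T * ell B T) =
          ∑ a ∈ A, ∑ b ∈ B, homChi T (symmDiff {a} {b}) * F T := by
        intro T
        unfold ell
        rw [Finset.sum_mul_sum, Finset.mul_sum]
        refine Finset.sum_congr rfl fun a _ => ?_
        rw [Finset.mul_sum]
        refine Finset.sum_congr rfl fun b _ => ?_
        rw [← chi_mul]
        ring
      rw [Finset.sum_congr rfl (fun T _ => e T), Finset.sum_comm]
      refine Finset.sum_eq_zero fun a ha => ?_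
      rw [Finset.sum_comm]
      refine Finset.sum_eq_zero fun b hb => ?_
      refine hom_F_zero F S.hT (symmDiff {a} {b}) ?_
      have hab : a ≠ b := by
        rintro rfl
        exact (Finset.disjoint_left.1 dAB) ha hb
      have e4 : symmDiff ({a} : Finset α) {b} = {a, b} := by
        ext x
        simp only [Finset.mem_symmDiff, Finset.mem_singleton, Finset.mem_insert]
        constructor
        · rintro (h | h)
          · exact Or.inl h.1
          · exact Or.inr h.1
        · rintro (h | h)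
          · exact Or.inl ⟨h, fun h' => hab (h.symm.trans h')⟩
          · exact Or.inr ⟨h, fun h' => hab (h'.symm.trans h)⟩
      rw [e4, Finset.card_pair hab]
      omega
  rw [hom_chi_union T1 A B dAB, hom_chi_union T0 A B dAB]
  have hne : ell A T0 * ell B T0 ≠ 0 := mul_ne_zero (ell_ne A T0 oA) (ell_ne B T0 oB)
  have h5 : (homChi T1 A * homChi T1 B) * (ell A T0 * ell B T0) =
      (homChi T0 A * homChi T0 B) * (ell A T0 * ell B T0) := by
    calc (homChi T1 A * homChi T1 B) * (ell A T0 * ell B T0)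
        = (homChi T1 A * homChi T1 B) * (ell A T1 * ell B T1) := by rw [hC1]
      _ = (homChi T1 A * ell A T1) * (homChi T1 B * ell B T1) := by ring
      _ = (homChi T0 A * ell A T0) * (homChi T0 B * ell B T0) := by rw [hA1, hB1]
      _ = (homChi T0 A * homChi T0 B) * (ell A T0 * ell B T0) := by ring
  exact mul_right_cancel₀ hne h5

/-- If a character is constant on the support then the flips inside the set sum up to zero. -/
theorem flips_zero {Γ : SimpleGraph α} {F : Finset α → ℚ} (S : Sys Γ F) (X : Finset α)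
    (hX : ∀ T0 T1, F T0 ≠ 0 → F T1 ≠ 0 → homChi T1 X = homChi T0 X) (T : Finset α) :
    ∑ i ∈ X, F (symmDiff T {i}) = 0 := by
  obtain ⟨T0, h0⟩ := S.hne
  have hconst : ∀ U, homChi U X * F U = homChi T0 X * F U := by
    intro U
    by_cases hU : F U = 0
    · rw [hU, mul_zero, mul_zero]
    · rw [hX T0 U h0 hU]
  have h1 : ∑ i, homChi (symmDiff T {i}) X * F (symmDiff T {i}) = 0 := by
    rw [Finset.sum_congr rfl (fun i _ => hconst (symmDiff T {i})), ← Finset.mul_sum, S.hT, mul_zero]
  have h2 : homChi T X * ∑ i, (if i ∈ X then (-1 : ℚ) else 1) * F (symmDiff T {i}) = 0 := by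
    rw [← h1, Finset.mul_sum]
    refine Finset.sum_congr rfl fun i _ => ?_
    rw [chi_flip]
    ring
  have h3 : ∑ i, (if i ∈ X then (-1 : ℚ) else 1) * F (symmDiff T {i}) = 0 := by
    rcases mul_eq_zero.1 h2 with h | h
    · rcases chi_val T X with h4 | h4 <;> rw [h4] at h <;> norm_num at h
    · exact h
  have h4 : ∑ i ∈ X, F (symmDiff T {i}) =
      ∑ i, (if i ∈ X then F (symmDiff T {i}) else 0) := by
    rw [Finset.sum_ite_mem, Finset.univ_inter]
  have h5 : 2 * ∑ i, (if i ∈ X then F (symmDiff T {i}) else 0) =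
      ∑ i, F (symmDiff T {i}) - ∑ i, (if i ∈ X then (-1 : ℚ) else 1) * F (symmDiff T {i}) := by
    rw [Finset.mul_sum, ← Finset.sum_sub_distrib]
    refine Finset.sum_congr rfl fun i _ => ?_
    by_cases hi : i ∈ X
    · simp only [hi, if_true]
      ring
    · simp only [hi, if_false]
      ring
  rw [h4]
  rw [S.hT, h3, sub_zero] at h5
  linarith

/-- Three pairwise disjoint invariant sets of odd size. -/
theorem sys_three {Γ : SimpleGraph α} {F : Finset α → ℚ} (S : Sys Γ F)
    (hp4 : Fintype.card α ≠ 4) (A B D : Finset α)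
    (hA : IsInvariant Γ A) (hB : IsInvariant Γ B) (hD : IsInvariant Γ D)
    (oA : Odd A.card) (oB : Odd B.card) (oD : Odd D.card)
    (dAB : Disjoint A B) (dAD : Disjoint A D) (dBD : Disjoint B D) : False := by
  have h1 : ∀ T, ∑ i ∈ A ∪ B, F (symmDiff T {i}) = 0 :=
    flips_zero S (A ∪ B) (pair_const S hp4 A B hA hB oA oB dAB)
  have h2 : ∀ T, ∑ i ∈ A ∪ D, F (symmDiff T {i}) = 0 :=
    flips_zero S (A ∪ D) (pair_const S hp4 A D hA hD oA oD dAD)
  have h3 : ∀ T, ∑ i ∈ B ∪ D, F (symmDiff T {i}) = 0 :=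
    flips_zero S (B ∪ D) (pair_const S hp4 B D hB hD oB oD dBD)
  have h4 : ∀ T, ∑ i ∈ A, F (symmDiff T {i}) = ((0 : ℤ) : ℚ) * F T := by
    intro T
    have e1 := h1 T
    have e2 := h2 T
    have e3 := h3 T
    rw [Finset.sum_union dAB] at e1
    rw [Finset.sum_union dAD] at e2
    rw [Finset.sum_union dBD] at e3
    rw [Int.cast_zero, zero_mul]
    linarith
  obtain ⟨T0, h0⟩ := S.hne
  refine h0 ((eigen A 0 F h4).2 ?_ T0)
  rw [sub_zero]
  exact_mod_cast oA

theorem aut_of_copies (C : SimpleGraph α)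
    (h : ∀ S : Finset α, Nonempty (sw C S ≃g C) → S.card ≤ 0 ∨ Fintype.card α ≤ S.card + 0)
    (σ : Equiv.Perm α) (hσ : IsClassAut C σ) (u v : α) : C.Adj (σ u) (σ v) ↔ C.Adj u v := by
  obtain ⟨S, hS⟩ := hσ
  have hiso : Nonempty (sw C S ≃g C) := by
    refine ⟨?_⟩
    exact (SimpleGraph.Iso.symm { toEquiv := σ, map_rel_iff' := by intro a b; exact hS a b })
  rcases h S hiso with h | h
  · have h0 : S = ∅ := by
      rw [← Finset.card_eq_zero]
      omega
    subst h0
    have := hS u v
    rwa [sw_empty] at this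
  · have h0 : S = univ := by
      rw [← Finset.card_eq_iff_eq_univ]
      have := Finset.card_le_univ S
      omega
    subst h0
    have := hS u v
    rwa [sw_univ] at this

/-- **Three odd invariant sets.** -/
theorem three_odd (hp4 : Fintype.card α ≠ 4) (G : SimpleGraph α) (A B D : Finset α)
    (hA : IsInvariant G A) (hB : IsInvariant G B) (hD : IsInvariant G D)
    (oA : Odd A.card) (oB : Odd B.card) (oD : Odd D.card)
    (dAB : Disjoint A B) (dAD : Disjoint A D) (dBD : Disjoint B D)
    (X : Finset α) (H : SimpleGraph α) (hdeck : SameDeck (sw G X) H) :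
    Nonempty (sw G X ≃g H) := by
  by_contra hne
  obtain ⟨S₀, hS₀⟩ := canon G A hA oA
  have hsw : sw (sw G X) (symmDiff X S₀) = sw G S₀ := by
    rw [sw_sw]
    congr 1
    rw [← symmDiff_assoc, symmDiff_self]
    exact bot_symmDiff S₀
  have hS := mkSys hdeck hne (symmDiff X S₀) hsw
    (fun σ hσ u v => aut_of_copies (sw G S₀) hS₀ σ hσ u v)
  exact sys_three hS hp4 A B D (inv_sw G S₀ A hA) (inv_sw G S₀ B hB) (inv_sw G S₀ D hD)
    oA oB oD dAB dAD dBD

/-- Three vertices fixed by all automorphisms of a sparse graph. -/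
theorem three_fixed (hp : Fintype.card α ≠ 4) (C : SimpleGraph α) [DecidableRel C.Adj]
    (hdeg : ∀ v, 4 * C.degree v < Fintype.card α) (T : Finset α) (hT : T.card = 3)
    (hfix : ∀ φ : C ≃g C, ∀ v ∈ T, φ v = v) (X : Finset α) (H : SimpleGraph α)
    (hdeck : SameDeck (sw C X) H) : Nonempty (sw C X ≃g H) := by
  obtain ⟨a, b, c, hab, hac, hbc, rfl⟩ := Finset.card_eq_three.1 hT
  have hinv : ∀ x ∈ ({a, b, c} : Finset α), IsInvariant C {x} := by
    intro x hx σ hσ v
    have h1 := classAut_aut C hdeg σ hσ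
    have h2 : σ x = x :=
      hfix { toEquiv := σ, map_rel_iff' := by intro u w; exact h1 u w } x hx
    rw [Finset.mem_singleton, Finset.mem_singleton]
    constructor
    · intro h
      exact σ.injective (by rw [h, h2])
    · rintro rfl
      exact h2
  exact three_odd hp C {a} {b} {c} (hinv a (by simp)) (hinv b (by simp)) (hinv c (by simp))
    (by simp) (by simp) (by simp) (by simpa using hab) (by simpa using hac)
    (by simpa using hbc) X H hdeck

end Pool.Agent.NTW.Three
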