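import Pool.Agent.NTW.MHOM
import Pool.Agent.NTW.MBLC

/-!
Functions of low degree on the subsets of a set: intervals, shifts, Hamming balls (helper78), for
MP_e73337_co.
-/

set_option autoImplicit false

namespace Pool.Agent.NTW

open Finset

namespace Trace

section
variable {α : Type} [DecidableEq α]

/-- Sums over intervals. -/
theorem interval (U : Finset α) (d : ℕ) (h : Finset α → ℚ) (hd : DegLE U d h) (A : Finset α) :
    ∀ D : Finset α, A ⊆ U → D ⊆ U → Disjoint A D → d < D.card →
      ∑ R ∈ D.powerset, (-1 : ℚ) ^ R.card * h (A ∪ R) = 0 := by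
  classical
  induction A using Finset.induction_on with
  | empty =>
    intro D _ hD _ hc
    have h1 := hd D hD hc
    unfold mob at h1
    rw [← h1]
    refine Finset.sum_congr rfl fun R _ => ?_
    rw [Finset.empty_union]
  | insert a A ha ih =>
    intro D hA hD hdis hc
    have haD : a ∉ D := fun hh => (Finset.disjoint_left.1 hdis (Finset.mem_insert_self a A)) hh
    have hAU : A ⊆ U := (Finset.subset_insert a A).trans hA
    have hdis' : Disjoint A D := Finset.disjoint_of_subset_left (Finset.subset_insert a A) hdis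
    have h1 := ih D hAU hD hdis' hc
    have h2 := ih (insert a D) hAU (Finset.insert_subset (hA (Finset.mem_insert_self a A)) hD)
      (by
        rw [Finset.disjoint_insert_right]
        exact ⟨ha, hdis'⟩)
      (lt_of_lt_of_le hc (Finset.card_le_card (Finset.subset_insert a D)))
    rw [Finset.sum_powerset_insert haD, h1, zero_add] at h2
    have h3 : ∑ R ∈ D.powerset, (-1 : ℚ) ^ (insert a R).card * h (A ∪ insert a R) =
        - ∑ R ∈ D.powerset, (-1 : ℚ) ^ R.card * h (insert a A ∪ R) := by
      rw [← Finset.sum_neg_distrib]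
      refine Finset.sum_congr rfl fun R hR => ?_
      have haR : a ∉ R := fun hh => haD (Finset.mem_powerset.1 hR hh)
      rw [Finset.card_insert_of_notMem haR, pow_succ, Finset.union_insert, Finset.insert_union]
      ring
    rw [h3] at h2
    linarith

/-- Shifts do not change the degree. -/
theorem shift (U : Finset α) (d : ℕ) (h : Finset α → ℚ) (hd : DegLE U d h) (S : Finset α)
    (hS : S ⊆ U) : DegLE U d (fun X => h (symmDiff X S)) := by
  classical
  intro D hD hc
  unfold mob
  have h1 := interval U d h hd (S \ D) D (Finset.sdiff_subset.trans hS) hD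
    Finset.sdiff_disjoint hc
  have h2 : ∑ R ∈ D.powerset, (-1 : ℚ) ^ R.card * h (symmDiff R S) =
      (-1 : ℚ) ^ (S ∩ D).card * ∑ R ∈ D.powerset, (-1 : ℚ) ^ R.card * h (S \ D ∪ R) := by
    rw [Finset.mul_sum]
    refine Finset.sum_bij' (fun R _ => symmDiff R (S ∩ D)) (fun R _ => symmDiff R (S ∩ D))
      ?_ ?_ ?_ ?_ ?_
    · intro R hR
      rw [Finset.mem_powerset] at hR ⊢
      intro x hx
      rw [Finset.mem_symmDiff, Finset.mem_inter] at hx
      rcases hx with ⟨h3, -⟩ | ⟨h3, -⟩
      · exact hR h3
      · exact h3.2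
    · intro R hR
      rw [Finset.mem_powerset] at hR ⊢
      intro x hx
      rw [Finset.mem_symmDiff, Finset.mem_inter] at hx
      rcases hx with ⟨h3, -⟩ | ⟨h3, -⟩
      · exact hR h3
      · exact h3.2
    · intro R _
      simp
    · intro R _
      simp
    · intro R hR
      have hR' := Finset.mem_powerset.1 hR
      have e1 : S \ D ∪ symmDiff R (S ∩ D) = symmDiff R S := by
        ext x
        rw [Finset.mem_union, Finset.mem_sdiff, Finset.mem_symmDiff, Finset.mem_symmDiff,
          Finset.mem_inter]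
        have : x ∈ R → x ∈ D := fun h => hR' h
        tauto
      have e2 : (-1 : ℚ) ^ (S ∩ D).card * (-1 : ℚ) ^ (symmDiff R (S ∩ D)).card =
          (-1 : ℚ) ^ R.card := by
        have e3 : (symmDiff R (S ∩ D)).card + 2 * (R ∩ (S ∩ D)).card =
            R.card + (S ∩ D).card := by
          have a1 : (symmDiff R (S ∩ D)).card =
              (R \ (S ∩ D)).card + ((S ∩ D) \ R).card := by
            rw [symmDiff_def, Finset.sup_eq_union, Finset.card_union_of_disjoint]
            exact disjoint_sdiff_sdiff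
          have a2 := Finset.card_sdiff_add_card_inter R (S ∩ D)
          have a3 := Finset.card_sdiff_add_card_inter (S ∩ D) R
          rw [Finset.inter_comm (S ∩ D) R] at a3
          omega
        have e4 : (-1 : ℚ) ^ (2 * (R ∩ (S ∩ D)).card) = 1 := by
          rw [pow_mul]
          norm_num
        have e5 : (-1 : ℚ) ^ (S ∩ D).card * (-1 : ℚ) ^ (S ∩ D).card = 1 := by
          rw [← mul_pow]
          norm_num
        calc (-1 : ℚ) ^ (S ∩ D).card * (-1 : ℚ) ^ (symmDiff R (S ∩ D)).card
            = (-1 : ℚ) ^ (S ∩ D).card * ((-1 : ℚ) ^ (symmDiff R (S ∩ D)).card *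
                (-1 : ℚ) ^ (2 * (R ∩ (S ∩ D)).card)) := by rw [e4, mul_one]
          _ = (-1 : ℚ) ^ (S ∩ D).card * ((-1 : ℚ) ^ R.card * (-1 : ℚ) ^ (S ∩ D).card) := by
              rw [← pow_add, e3, pow_add]
          _ = (-1 : ℚ) ^ R.card * ((-1 : ℚ) ^ (S ∩ D).card * (-1 : ℚ) ^ (S ∩ D).card) := by ring
          _ = _ := by rw [e5, mul_one]
      rw [e1, ← mul_assoc, e2]
  rw [h2, h1, mul_zero]

/-- The number of the `i`-subsets of `M` which contain `R`. -/
theorem count_over (M R : Finset α) (hR : R ⊆ M) (i : ℕ) (hi : R.card ≤ i) :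
    ((M.powersetCard i).filter fun D => R ⊆ D).card =
      (M.card - R.card).choose (i - R.card) := by
  classical
  have h1 : (M.powersetCard i).filter (fun D => R ⊆ D) =
      ((M \ R).powersetCard (i - R.card)).image fun E => E ∪ R := by
    ext D
    rw [Finset.mem_filter, Finset.mem_powersetCard, Finset.mem_image]
    constructor
    · rintro ⟨⟨h1, h2⟩, h3⟩
      refine ⟨D \ R, ?_, Finset.sdiff_union_of_subset h3⟩
      rw [Finset.mem_powersetCard]
      refine ⟨Finset.sdiff_subset_sdiff h1 (Finset.Subset.refl R), ?_⟩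
      rw [Finset.card_sdiff_of_subset h3, h2]
    · rintro ⟨E, hE, rfl⟩
      rw [Finset.mem_powersetCard] at hE
      have hdis : Disjoint E R :=
        Finset.disjoint_of_subset_left hE.1 Finset.sdiff_disjoint
      refine ⟨⟨Finset.union_subset (hE.1.trans Finset.sdiff_subset) hR, ?_⟩,
        Finset.subset_union_right⟩
      rw [Finset.card_union_of_disjoint hdis, hE.2]
      omega
  rw [h1, Finset.card_image_of_injOn, Finset.card_powersetCard, Finset.card_sdiff_of_subset hR]
  intro E hE E' hE' he
  rw [Finset.mem_coe, Finset.mem_powersetCard] at hE hE'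
  have hdis : Disjoint E R := Finset.disjoint_of_subset_left hE.1 Finset.sdiff_disjoint
  have hdis' : Disjoint E' R := Finset.disjoint_of_subset_left hE'.1 Finset.sdiff_disjoint
  have he' : E ∪ R = E' ∪ R := he
  calc E = (E ∪ R) \ R := (Finset.union_sdiff_cancel_right hdis).symm
    _ = (E' ∪ R) \ R := by rw [he']
    _ = E' := Finset.union_sdiff_cancel_right hdis'

/-- The averages over the levels above `Y` have vanishing differences of high order. -/
theorem levels (U : Finset α) (d : ℕ) (h : Finset α → ℚ) (hd : DegLE U d h) (Y : Finset α)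
    (hY : Y ⊆ U) (i : ℕ) (hdi : d < i) (him : i ≤ (U \ Y).card) :
    ∑ k ∈ range (i + 1), (-1 : ℚ) ^ k * ((i.choose k : ℕ) : ℚ) *
      ((∑ R ∈ (U \ Y).powersetCard k, h (Y ∪ R)) / (((U \ Y).card.choose k : ℕ) : ℚ)) = 0 := by
  classical
  set M := U \ Y with hM
  have h1 : ∑ D ∈ M.powersetCard i, ∑ R ∈ D.powerset, (-1 : ℚ) ^ R.card * h (Y ∪ R) = 0 := by
    refine Finset.sum_eq_zero fun D hD => ?_
    rw [Finset.mem_powersetCard] at hD
    apply interval U d h hd Y D hY (hD.1.trans Finset.sdiff_subset)
    · exact Finset.disjoint_of_subset_right hD.1 Finset.disjoint_sdiff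
    · rw [hD.2]
      exact hdi
  have h2 : ∑ D ∈ M.powersetCard i, ∑ R ∈ D.powerset, (-1 : ℚ) ^ R.card * h (Y ∪ R) =
      ∑ R ∈ M.powerset, (((M.powersetCard i).filter fun D => R ⊆ D).card : ℚ) *
        ((-1 : ℚ) ^ R.card * h (Y ∪ R)) := by
    rw [Finset.sum_comm' (t' := M.powerset) (s' := fun R => (M.powersetCard i).filter fun D => R ⊆ D)]
    · refine Finset.sum_congr rfl fun R _ => ?_
      rw [Finset.sum_const, nsmul_eq_mul]
    · intro D R
      rw [Finset.mem_powersetCard, Finset.mem_powerset, Finset.mem_filter, Finset.mem_powersetCard,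
        Finset.mem_powerset]
      constructor
      · rintro ⟨⟨a, b⟩, c⟩
        exact ⟨⟨⟨a, b⟩, c⟩, c.trans a⟩
      · rintro ⟨⟨⟨a, b⟩, c⟩, -⟩
        exact ⟨⟨a, b⟩, c⟩
  rw [h2] at h1
  have h3 : ∑ R ∈ M.powerset, (((M.powersetCard i).filter fun D => R ⊆ D).card : ℚ) *
        ((-1 : ℚ) ^ R.card * h (Y ∪ R)) =
      ∑ k ∈ range (M.card + 1), ∑ R ∈ M.powersetCard k,
        (((M.powersetCard i).filter fun D => R ⊆ D).card : ℚ) *
        ((-1 : ℚ) ^ R.card * h (Y ∪ R)) := by
    rw [Finset.sum_powerset]
  rw [h3] at h1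
  have h4 : ∑ k ∈ range (M.card + 1), ∑ R ∈ M.powersetCard k,
        (((M.powersetCard i).filter fun D => R ⊆ D).card : ℚ) *
        ((-1 : ℚ) ^ R.card * h (Y ∪ R)) =
      ∑ k ∈ range (i + 1), ∑ R ∈ M.powersetCard k,
        (((M.powersetCard i).filter fun D => R ⊆ D).card : ℚ) *
        ((-1 : ℚ) ^ R.card * h (Y ∪ R)) := by
    symm
    apply Finset.sum_subset
    · intro k hk
      rw [Finset.mem_range] at hk ⊢
      omega
    · intro k _ hk
      rw [Finset.mem_range, not_lt] at hk
      refine Finset.sum_eq_zero fun R hR => ?_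
      rw [Finset.mem_powersetCard] at hR
      have : (M.powersetCard i).filter (fun D => R ⊆ D) = ∅ := by
        apply Finset.eq_empty_of_forall_notMem
        intro D hD
        rw [Finset.mem_filter, Finset.mem_powersetCard] at hD
        have := Finset.card_le_card hD.2
        omega
      rw [this, Finset.card_empty]
      simp
  rw [h4] at h1
  have h5 : ∀ k ∈ range (i + 1), ∑ R ∈ M.powersetCard k,
        (((M.powersetCard i).filter fun D => R ⊆ D).card : ℚ) *
        ((-1 : ℚ) ^ R.card * h (Y ∪ R)) =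
      ((M.card.choose i : ℕ) : ℚ) * ((-1 : ℚ) ^ k * ((i.choose k : ℕ) : ℚ) *
      ((∑ R ∈ M.powersetCard k, h (Y ∪ R)) / ((M.card.choose k : ℕ) : ℚ))) := by
    intro k hk
    have hki : k ≤ i := by
      rw [Finset.mem_range] at hk
      omega
    have e1 : ∑ R ∈ M.powersetCard k,
        (((M.powersetCard i).filter fun D => R ⊆ D).card : ℚ) *
        ((-1 : ℚ) ^ R.card * h (Y ∪ R)) =
        (((M.card - k).choose (i - k) : ℕ) : ℚ) * ((-1 : ℚ) ^ k *
          ∑ R ∈ M.powersetCard k, h (Y ∪ R)) := by
      rw [Finset.mul_sum, Finset.mul_sum]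
      refine Finset.sum_congr rfl fun R hR => ?_
      rw [Finset.mem_powersetCard] at hR
      rw [count_over M R hR.1 i (by rw [hR.2]; exact hki), hR.2]
    rw [e1]
    have e2 : M.card.choose i * i.choose k = M.card.choose k * (M.card - k).choose (i - k) :=
      Nat.choose_mul hki
    have e3 : ((M.card.choose i : ℕ) : ℚ) * ((i.choose k : ℕ) : ℚ) =
        ((M.card.choose k : ℕ) : ℚ) * (((M.card - k).choose (i - k) : ℕ) : ℚ) := by
      exact_mod_cast e2
    have e4 : ((M.card.choose k : ℕ) : ℚ) ≠ 0 := by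
      have : 0 < M.card.choose k := Nat.choose_pos (hki.trans him)
      exact_mod_cast this.ne'
    field_simp
    linear_combination (-∑ R ∈ M.powersetCard k, h (Y ∪ R)) * e3
  rw [Finset.sum_congr rfl h5, ← Finset.mul_sum] at h1
  have h6 : ((M.card.choose i : ℕ) : ℚ) ≠ 0 := by
    have : 0 < M.card.choose i := Nat.choose_pos him
    exact_mod_cast this.ne'
  rcases mul_eq_zero.1 h1 with h7 | h7
  · exact absurd h7 h6
  · exact h7

/-- A function of degree at most half the size is not supported near the bottom and the top. -/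
theorem balls_low (U : Finset α) (h : Finset α → ℚ) (hd : DegLE U (U.card / 2) h) (Y : Finset α)
    (hY : Y ⊆ U) (hne : h Y ≠ 0) (hYl : 4 * Y.card + 3 ≤ U.card)
    (hs : ∀ X ⊆ U, h X ≠ 0 → 4 * X.card + 3 ≤ U.card ∨ 4 * (U.card - X.card) + 3 ≤ U.card) :
    False := by
  classical
  set M := U \ Y with hM
  set c := U.card with hc
  set l := (c - 3) / 4 with hl
  have hMc : M.card = c - Y.card := Finset.card_sdiff_of_subset hY
  have hYc : Y.card ≤ l := by omega
  have h1 := BLC.count (fun k => (∑ R ∈ M.powersetCard k, h (Y ∪ R)) /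
    ((M.card.choose k : ℕ) : ℚ)) (c / 2) M.card
    (fun i h1 h2 => levels U (c / 2) h hd Y hY i h1 h2) ⟨0, Nat.zero_le _, by
      simp only [Finset.powersetCard_zero, Finset.sum_singleton, Finset.union_empty,
        Nat.choose_zero_right, Nat.cast_one, div_one]
      exact hne⟩
  have h2 : ((range (M.card + 1)).filter fun k => (∑ R ∈ M.powersetCard k, h (Y ∪ R)) /
      ((M.card.choose k : ℕ) : ℚ) ≠ 0) ⊆ range (l - Y.card + 1) ∪
        Finset.Icc (c - l - Y.card) M.card := by
    intro k hk
    rw [Finset.mem_filter, Finset.mem_range] at hk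
    have h3 : ∑ R ∈ M.powersetCard k, h (Y ∪ R) ≠ 0 := by
      intro h0
      apply hk.2
      rw [h0, zero_div]
    obtain ⟨R, hR, hR'⟩ := Finset.exists_ne_zero_of_sum_ne_zero h3
    rw [Finset.mem_powersetCard] at hR
    have hdis : Disjoint Y R := Finset.disjoint_of_subset_right hR.1 Finset.disjoint_sdiff
    have h4 := hs (Y ∪ R) (Finset.union_subset hY (hR.1.trans Finset.sdiff_subset)) hR'
    rw [Finset.card_union_of_disjoint hdis, hR.2] at h4
    rw [Finset.mem_union, Finset.mem_range, Finset.mem_Icc]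
    omega
  have h3 := Finset.card_le_card h2
  have h4 := Finset.card_union_le (range (l - Y.card + 1)) (Finset.Icc (c - l - Y.card) M.card)
  rw [Finset.card_range, Nat.card_Icc] at h4
  omega

/-- A function of degree at most half the size is not supported in two antipodal Hamming balls of
radius at most `(|U| - 3) / 4`. -/
theorem balls (U : Finset α) (h : Finset α → ℚ) (hd : DegLE U (U.card / 2) h) (S : Finset α)
    (hS : S ⊆ U) (hne : ∃ X ⊆ U, h X ≠ 0)
    (hs : ∀ X ⊆ U, h X ≠ 0 → 4 * (symmDiff X S).card + 3 ≤ U.card ∨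
      4 * (U.card - (symmDiff X S).card) + 3 ≤ U.card) :
    False := by
  classical
  obtain ⟨X, hX, hXne⟩ := hne
  have hsub : ∀ A B : Finset α, A ⊆ U → B ⊆ U → symmDiff A B ⊆ U := by
    intro A B hA hB x hx
    rw [Finset.mem_symmDiff] at hx
    rcases hx with ⟨h1, -⟩ | ⟨h1, -⟩
    · exact hA h1
    · exact hB h1
  rcases hs X hX hXne with h1 | h1
  · apply balls_low U (fun X => h (symmDiff X S)) (shift U _ h hd S hS) (symmDiff X S)
      (hsub X S hX hS)
    · simp only [symmDiff_symmDiff_cancel_right]
      exact hXne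
    · exact h1
    · intro Z hZ hZne
      have h2 := hs (symmDiff Z S) (hsub Z S hZ hS) hZne
      rw [symmDiff_symmDiff_cancel_right] at h2
      exact h2
  · -- shift by the complement of `S`
    set S' := U \ S with hS'
    have hS'U : S' ⊆ U := Finset.sdiff_subset
    have hcompl : ∀ Z ⊆ U, (symmDiff Z S').card + (symmDiff Z S).card = U.card := by
      intro Z hZ
      have e : symmDiff Z S' = U \ symmDiff Z S := by
        ext x
        rw [Finset.mem_symmDiff, Finset.mem_sdiff, Finset.mem_sdiff, Finset.mem_symmDiff]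
        have a1 : x ∈ Z → x ∈ U := fun h => hZ h
        have a2 : x ∈ S → x ∈ U := fun h => hS h
        tauto
      rw [e, Finset.card_sdiff_of_subset (hsub Z S hZ hS)]
      have := Finset.card_le_card (hsub Z S hZ hS)
      omega
    apply balls_low U (fun X => h (symmDiff X S')) (shift U _ h hd S' hS'U) (symmDiff X S')
      (hsub X S' hX hS'U)
    · simp only [symmDiff_symmDiff_cancel_right]
      exact hXne
    · have := hcompl X hX
      omega
    · intro Z hZ hZne
      have h2 := hs (symmDiff Z S') (hsub Z S' hZ hS'U) hZne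
      have h3 := hcompl (symmDiff Z S') (hsub Z S' hZ hS'U)
      rw [symmDiff_symmDiff_cancel_right] at h3
      omega

end

end Trace

end Pool.Agent.NTW
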