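import Pool.Agent.NTW.IndParts
import Pool.Agent.NTW.MBLC

/-!
Twin classes of a switching class (helper78), for MP_e73337_co.

If for some `c` there is at least one twin class (up to switching) with exactly `c` vertices, and the
number of those classes is at most `(c + 1) / 8`, then the graph is switching-reconstructible.
-/

set_option autoImplicit false

namespace Pool.Agent.NTW

open Finset Pool.Agent.Lib_helper61.SwitchBasic Fin5

/-- `C` is a class of twins up to switching: for some `y`, the vertices `z` which no other vertex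
separates from `y`, or which all other vertices separate from `y`. -/
def IsTwinClass {α : Type} [Fintype α] (G : SimpleGraph α) (C : Finset α) : Prop :=
  ∃ y : α, ∀ z : α, z ∈ C ↔ Twins G y z

namespace TwinCls

section
variable {α : Type} [Fintype α]

theorem twins_iff (G : SimpleGraph α) (y z : α) :
    Twins G y z ↔ (∀ x, x ≠ y → x ≠ z → (G.Adj x y ↔ G.Adj x z)) ∨
      (∀ x, x ≠ y → x ≠ z → ¬ (G.Adj x y ↔ G.Adj x z)) := by
  classical
  unfold Twins
  constructor
  · rintro (h | h)
    · left
      intro x h1 h2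
      by_contra h3
      have : x ∈ sep G y z := (mem_sep G y z x).2 ⟨h1, h2, h3⟩
      rw [h] at this
      exact absurd this (Finset.notMem_empty x)
    · right
      intro x h1 h2 h3
      have : x ∈ cosep G y z := (mem_cosep G y z x).2 ⟨h1, h2, h3⟩
      rw [h] at this
      exact absurd this (Finset.notMem_empty x)
  · rintro (h | h)
    · left
      apply Finset.eq_empty_of_forall_notMem
      intro x hx
      have := (mem_sep G y z x).1 hx
      exact this.2.2 (h x this.1 this.2.1)
    · right
      apply Finset.eq_empty_of_forall_notMem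
      intro x hx
      have := (mem_cosep G y z x).1 hx
      exact h x this.1 this.2.1 this.2.2

/-- No other vertex separates `y` and `z`. -/
def Tw (G : SimpleGraph α) (y z : α) : Prop := ∀ x, x ≠ y → x ≠ z → (G.Adj x y ↔ G.Adj x z)

theorem tw_sw [DecidableEq α] (G : SimpleGraph α) (S : Finset α) (y z : α) (h : Tw G y z)
    (h3 : ∃ x, x ≠ y ∧ x ≠ z) : Tw (sw G S) y z ↔ (y ∈ S ↔ z ∈ S) := by
  constructor
  · intro h1
    obtain ⟨x, hx, hx'⟩ := h3
    have h2 := h1 x hx hx'
    rw [sw_adj_iff G S x y z hx hx'] at h2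
    exact h2.1 (h x hx hx')
  · intro h1 x hx hx'
    rw [sw_adj_iff G S x y z hx hx']
    exact ⟨fun _ => h1, fun _ => h x hx hx'⟩

/-- A twin class is a set of twins after a suitable switching. -/
theorem exists_pure [DecidableEq α] (G : SimpleGraph α) (C : Finset α) (hC : IsTwinClass G C) :
    ∃ B : Finset α, ∀ y ∈ C, ∀ z ∈ C, Tw (sw G B) y z := by
  classical
  obtain ⟨y₀, hy₀⟩ := hC
  set B : Finset α := univ.filter fun z => ¬ Tw G y₀ z with hB
  have hmB : ∀ z, z ∈ B ↔ ¬ Tw G y₀ z := fun z => by simp [hB]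
  have hy₀B : y₀ ∉ B := by
    rw [hmB]
    intro h
    exact h (fun x _ _ => Iff.rfl)
  have h1 : ∀ z ∈ C, Tw (sw G B) y₀ z := by
    intro z hz x hx hx'
    rw [sw_adj_iff G B x y₀ z hx hx']
    rcases (twins_iff G y₀ z).1 ((hy₀ z).1 hz) with h2 | h2
    · have h3 : z ∉ B := by
        rw [hmB]
        intro h
        exact h h2
      have := h2 x hx hx'
      tauto
    · have h3 : z ∈ B := by
        rw [hmB]
        intro h
        exact h2 x hx hx' (h x hx hx')
      have := h2 x hx hx'
      tauto
  refine ⟨B, fun y hy z hz x hx hx' => ?_⟩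
  set K := sw G B with hK
  by_cases e1 : y = y₀
  · rw [e1] at hx ⊢
    exact h1 z hz x hx hx'
  by_cases e2 : z = y₀
  · rw [e2] at hx' ⊢
    exact (h1 y hy x hx' hx).symm
  by_cases e3 : x = y₀
  · rw [e3]
    -- adj y₀ y ↔ adj y₀ z
    by_cases e4 : y = z
    · rw [e4]
    have a1 := h1 z hz y e1 e4
    have a2 := h1 y hy z e2 (fun e => e4 e.symm)
    have a3 : K.Adj y z ↔ K.Adj z y := K.adj_comm _ _
    have a4 : K.Adj y y₀ ↔ K.Adj y₀ y := K.adj_comm _ _
    have a5 : K.Adj z y₀ ↔ K.Adj y₀ z := K.adj_comm _ _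
    tauto
  · have a1 := h1 z hz x e3 hx'
    have a2 := h1 y hy x e3 hx
    tauto

/-- Twins can be exchanged. -/
theorem swap_mem [DecidableEq α] (K : SimpleGraph α) (y z : α) (h : Tw K y z) :
    Equiv.swap y z ∈ FG K (∅ : Finset α) := by
  refine ⟨fun r hr => absurd hr (Finset.notMem_empty r), fun u v => ?_⟩
  have key : ∀ x, x ≠ y → x ≠ z → (K.Adj x y ↔ K.Adj x z) := h
  have hs : ∀ a b : α, K.Adj a b ↔ K.Adj b a := fun a b => K.adj_comm a b
  by_cases e1 : u = y
  · by_cases e2 : v = y
    · rw [e1, e2, Equiv.swap_apply_left]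
      simp
    · by_cases e3 : v = z
      · rw [e1, e3, Equiv.swap_apply_left, Equiv.swap_apply_right]
        exact hs _ _
      · rw [e1, Equiv.swap_apply_left, Equiv.swap_apply_of_ne_of_ne e2 e3]
        rw [hs z v, hs y v]
        exact (key v e2 e3).symm
  · by_cases e2 : u = z
    · by_cases e3 : v = y
      · rw [e2, e3, Equiv.swap_apply_left, Equiv.swap_apply_right]
        exact hs _ _
      · by_cases e4 : v = z
        · rw [e2, e4, Equiv.swap_apply_right]
          simp
        · rw [e2, Equiv.swap_apply_right, Equiv.swap_apply_of_ne_of_ne e3 e4]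
          rw [hs y v, hs z v]
          exact key v e3 e4
    · rw [Equiv.swap_apply_of_ne_of_ne e1 e2]
      by_cases e3 : v = y
      · rw [e3, Equiv.swap_apply_left]
        exact (key u e1 e2).symm
      · by_cases e4 : v = z
        · rw [e4, Equiv.swap_apply_right]
          exact key u e1 e2
        · rw [Equiv.swap_apply_of_ne_of_ne e3 e4]

/-- A function invariant under the exchange of twins depends, on the class, only on the
cardinality. -/
theorem card_inv [DecidableEq α] (φ : Finset α → ℚ) (C : Finset α)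
    (h : ∀ y ∈ C, ∀ z ∈ C, ∀ S : Finset α, φ (S.map (Equiv.swap y z).toEmbedding) = φ S)
    (Y : Finset α) (hY : Disjoint Y C) :
    ∀ (n : ℕ) (X X' : Finset α), X ⊆ C → X' ⊆ C → X.card = X'.card → (X \ X').card = n →
      φ (X ∪ Y) = φ (X' ∪ Y) := by
  intro n
  induction n with
  | zero =>
    intro X X' hX hX' hc hn
    have h1 : X ⊆ X' := by
      rw [← Finset.sdiff_eq_empty_iff_subset]
      exact Finset.card_eq_zero.1 hn
    rw [Finset.eq_of_subset_of_card_le h1 hc.ge]
  | succ n ih =>
    intro X X' hX hX' hc hn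
    obtain ⟨y, hy⟩ : (X \ X').Nonempty := by
      rw [← Finset.card_pos]
      omega
    obtain ⟨z, hz⟩ : (X' \ X).Nonempty := by
      rw [← Finset.card_pos, ← Finset.card_sdiff_comm hc]
      omega
    rw [Finset.mem_sdiff] at hy hz
    have hyz : y ≠ z := fun e => hz.2 (e ▸ hy.1)
    have hyC := hX hy.1
    have hzC := hX' hz.1
    have hyY : y ∉ Y := fun hh => (Finset.disjoint_left.1 hY hh) hyC
    have hzY : z ∉ Y := fun hh => (Finset.disjoint_left.1 hY hh) hzC
    set X₁ := insert z (X.erase y) with hX₁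
    have e1 : (X ∪ Y).map (Equiv.swap y z).toEmbedding = X₁ ∪ Y := by
      ext x
      rw [Finset.mem_map_equiv, Equiv.symm_swap, Finset.mem_union, Finset.mem_union, hX₁,
        Finset.mem_insert, Finset.mem_erase]
      by_cases a1 : x = y
      · rw [a1, Equiv.swap_apply_left]
        have := hz.2
        tauto
      · by_cases a2 : x = z
        · rw [a2, Equiv.swap_apply_right]
          have := hy.1
          tauto
        · rw [Equiv.swap_apply_of_ne_of_ne a1 a2]
          tauto
    have e2 := h y hyC z hzC (X ∪ Y)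
    rw [e1] at e2
    rw [← e2]
    have hzX : z ∉ X.erase y := fun hh => hz.2 (Finset.mem_of_mem_erase hh)
    have hpos : 0 < X.card := Finset.card_pos.2 ⟨y, hy.1⟩
    apply ih X₁ X'
    · intro x hx
      rw [hX₁, Finset.mem_insert] at hx
      rcases hx with rfl | hx
      · exact hzC
      · exact hX (Finset.mem_of_mem_erase hx)
    · exact hX'
    · rw [hX₁, Finset.card_insert_of_notMem hzX, Finset.card_erase_of_mem hy.1]
      omega
    · have e3 : X₁ \ X' = (X \ X').erase y := by
        ext x
        rw [hX₁, Finset.mem_sdiff, Finset.mem_insert, Finset.mem_erase, Finset.mem_erase,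
          Finset.mem_sdiff]
        constructor
        · rintro ⟨rfl | ⟨h1, h2⟩, h3⟩
          · exact absurd hz.1 h3
          · exact ⟨h1, h2, h3⟩
        · rintro ⟨h1, h2, h3⟩
          exact ⟨Or.inr ⟨h1, h2⟩, h3⟩
      rw [e3, Finset.card_erase_of_mem (Finset.mem_sdiff.2 hy)]
      omega

open Classical in
/-- The number of the members of `C` which are twins of `y` in `K`. -/
noncomputable def lev (K : SimpleGraph α) (C : Finset α) (y : α) : ℕ :=
  (C.filter fun z => Tw K y z).card

theorem lev_sw [DecidableEq α] (K : SimpleGraph α) (C X : Finset α) (y : α) (hy : y ∈ C)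
    (h : ∀ y ∈ C, ∀ z ∈ C, Tw K y z) (h3 : 2 < Fintype.card α) :
    lev (sw K X) C y = (X ∩ C).card ∨ (X ∩ C).card = C.card - lev (sw K X) C y := by
  classical
  have hex : ∀ z : α, ∃ x, x ≠ y ∧ x ≠ z := by
    intro z
    have h4 : ({y, z} : Finset α).card < (univ : Finset α).card := by
      rw [Finset.card_univ]
      exact lt_of_le_of_lt (Finset.card_le_two) h3
    obtain ⟨x, -, hx⟩ := Finset.exists_mem_notMem_of_card_lt_card h4
    simp only [Finset.mem_insert, Finset.mem_singleton, not_or] at hx
    exact ⟨x, hx.1, hx.2⟩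
  have h1 : ∀ z ∈ C, (Tw (sw K X) y z ↔ (y ∈ X ↔ z ∈ X)) := fun z hz =>
    tw_sw K X y z (h y hy z hz) (hex z)
  by_cases hyX : y ∈ X
  · left
    unfold lev
    congr 1
    ext z
    rw [Finset.mem_filter, Finset.mem_inter]
    constructor
    · rintro ⟨h2, h4⟩
      exact ⟨((h1 z h2).1 h4).1 hyX, h2⟩
    · rintro ⟨h2, h4⟩
      exact ⟨h4, (h1 z h4).2 ⟨fun _ => h2, fun _ => hyX⟩⟩
  · right
    have e : C.filter (fun z => Tw (sw K X) y z) = C \ (X ∩ C) := by
      ext z
      rw [Finset.mem_filter, Finset.mem_sdiff, Finset.mem_inter]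
      constructor
      · rintro ⟨h2, h4⟩
        refine ⟨h2, fun h5 => hyX (((h1 z h2).1 h4).2 h5.1)⟩
      · rintro ⟨h2, h4⟩
        refine ⟨h2, (h1 z h2).2 ⟨fun h5 => absurd h5 hyX, fun h5 => absurd ⟨h5, h2⟩ h4⟩⟩
    unfold lev
    rw [e, Finset.card_sdiff_of_subset Finset.inter_subset_right]
    have h5 := Finset.card_le_card (Finset.inter_subset_right : X ∩ C ⊆ C)
    omega

/-- Twins are transported by isomorphisms. -/
theorem tw_iso {K K' : SimpleGraph α} (σ : K ≃g K') (y z : α) : Tw K' (σ y) (σ z) ↔ Tw K y z := by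
  constructor
  · intro h x hx hx'
    have h1 := h (σ x) (fun e => hx (σ.injective e)) (fun e => hx' (σ.injective e))
    rwa [σ.map_adj_iff, σ.map_adj_iff] at h1
  · intro h x hx hx'
    obtain ⟨w, rfl⟩ := σ.surjective x
    rw [σ.map_adj_iff, σ.map_adj_iff]
    exact h w (fun e => hx (by rw [e])) (fun e => hx' (by rw [e]))

theorem twins_sw [DecidableEq α] (G : SimpleGraph α) (S : Finset α) (y z : α) :
    Twins (sw G S) y z ↔ Twins G y z := by
  rw [twins_iff, twins_iff]
  by_cases h : (y ∈ S ↔ z ∈ S)
  · have h1 : ∀ x, x ≠ y → x ≠ z → (((sw G S).Adj x y ↔ (sw G S).Adj x z) ↔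
        (G.Adj x y ↔ G.Adj x z)) := by
      intro x hx hx'
      rw [sw_adj_iff G S x y z hx hx']
      tauto
    constructor
    · rintro (h2 | h2)
      · exact Or.inl fun x hx hx' => (h1 x hx hx').1 (h2 x hx hx')
      · exact Or.inr fun x hx hx' h3 => h2 x hx hx' ((h1 x hx hx').2 h3)
    · rintro (h2 | h2)
      · exact Or.inl fun x hx hx' => (h1 x hx hx').2 (h2 x hx hx')
      · exact Or.inr fun x hx hx' h3 => h2 x hx hx' ((h1 x hx hx').1 h3)
  · have h1 : ∀ x, x ≠ y → x ≠ z → (((sw G S).Adj x y ↔ (sw G S).Adj x z) ↔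
        ¬ (G.Adj x y ↔ G.Adj x z)) := by
      intro x hx hx'
      rw [sw_adj_iff G S x y z hx hx']
      tauto
    constructor
    · rintro (h2 | h2)
      · exact Or.inr fun x hx hx' => (h1 x hx hx').1 (h2 x hx hx')
      · refine Or.inl fun x hx hx' => ?_
        by_contra h3
        exact h2 x hx hx' ((h1 x hx hx').2 h3)
    · rintro (h2 | h2)
      · exact Or.inr fun x hx hx' h3 => (h1 x hx hx').1 h3 (h2 x hx hx')
      · exact Or.inl fun x hx hx' => (h1 x hx hx').2 (h2 x hx hx')

theorem twins_iso {K K' : SimpleGraph α} (σ : K ≃g K') (y z : α) :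
    Twins K' (σ y) (σ z) ↔ Twins K y z := by
  rw [twins_iff, twins_iff]
  constructor
  · rintro (h | h)
    · left
      intro x hx hx'
      have h1 := h (σ x) (fun e => hx (σ.injective e)) (fun e => hx' (σ.injective e))
      rwa [σ.map_adj_iff, σ.map_adj_iff] at h1
    · right
      intro x hx hx'
      have h1 := h (σ x) (fun e => hx (σ.injective e)) (fun e => hx' (σ.injective e))
      rwa [σ.map_adj_iff, σ.map_adj_iff] at h1
  · rintro (h | h)
    · left
      intro x hx hx'
      obtain ⟨w, rfl⟩ := σ.surjective x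
      rw [σ.map_adj_iff, σ.map_adj_iff]
      exact h w (fun e => hx (by rw [e])) (fun e => hx' (by rw [e]))
    · right
      intro x hx hx'
      obtain ⟨w, rfl⟩ := σ.surjective x
      rw [σ.map_adj_iff, σ.map_adj_iff]
      exact h w (fun e => hx (by rw [e])) (fun e => hx' (by rw [e]))

end

end TwinCls

end Pool.Agent.NTW
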