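import Pool.Agent.NTW.Trace1
import Pool.Agent.NTW.MRM
import Pool.Agent.NTW.TwinCls

/-!
Traces of the switchings of `G` that are isomorphic to `G` (helper78), for MP_e73337_co.
-/

set_option autoImplicit false

namespace Pool.Agent.NTW

open Finset Pool.Agent.Lib_helper61.SwitchBasic Fin5

namespace Trace

theorem xor_key (a b c d g s : Prop) (h1 : (g ↔ (a ↔ b)) ↔ s) (h2 : g ↔ (c ↔ d)) :
    ((a ∧ ¬ c ∨ c ∧ ¬ a) ↔ (b ∧ ¬ d ∨ d ∧ ¬ b)) ↔ s := by
  by_cases ha : a <;> by_cases hb : b <;> by_cases hc : c <;> by_cases hd : d <;>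
    simp_all

theorem same_key (a b s t : Prop) (h : (a ↔ b) ↔ (s ↔ t)) (hc : a ↔ s) : b ↔ t := by
  by_cases ha : a <;> by_cases hb : b <;> by_cases hs : s <;> by_cases ht : t <;> simp_all

theorem opp_key (a b s t : Prop) (h : (a ↔ b) ↔ (s ↔ t)) (hc : ¬ (a ↔ s)) : ¬ b ↔ t := by
  by_cases ha : a <;> by_cases hb : b <;> by_cases hs : s <;> by_cases ht : t <;> simp_all

/-- The sum over all sets with a given trace on a set with fewer than half of the vertices. -/
theorem proj_zero {α : Type} [Fintype α] [DecidableEq α] (f : Finset α → ℚ)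
    (hf : ∀ S, ∑ i : α, f (symmDiff S {i}) = 0) (C : Finset α)
    (hC : 2 * C.card < Fintype.card α) (Y : Finset α) (hY : Y ⊆ C) :
    ∑ Z ∈ Cᶜ.powerset, f (Y ∪ Z) = 0 := by
  set g : Finset α → ℚ := fun X => ∑ Z ∈ Cᶜ.powerset, f (X ∪ Z) with hg
  have hgF : ∀ T ⊆ C, ∑ X ∈ C.powerset, homChi X T * g X = 0 := by
    intro T hT
    rw [← hom_F_zero f hf T (by
      have := Finset.card_le_card hT
      omega), hom_split C]
    refine Finset.sum_congr rfl fun X hX => ?_
    rw [hg, Finset.mul_sum]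
    refine Finset.sum_congr rfl fun Z hZ => ?_
    have hZ' := Finset.mem_powerset.1 hZ
    have e1 : homChi (X ∪ Z) T = homChi X T := by
      unfold homChi
      refine Finset.prod_congr rfl fun i hi => ?_
      have : i ∉ Z := fun h => (Finset.mem_compl.1 (hZ' h)) (hT hi)
      simp [this]
    rw [e1]
  have h1 : ∑ T ∈ C.powerset, homChi Y T * ∑ X ∈ C.powerset, homChi X T * g X = 0 :=
    Finset.sum_eq_zero fun T hT => by rw [hgF T (Finset.mem_powerset.1 hT), mul_zero]
  have h2 : ∀ X : Finset α, ∑ T ∈ C.powerset, homChi Y T * homChi X T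
      = ∏ i ∈ C, (1 + (if i ∈ Y then (-1 : ℚ) else 1) * (if i ∈ X then (-1 : ℚ) else 1)) := by
    intro X
    rw [Finset.prod_one_add]
    refine Finset.sum_congr rfl fun T _ => ?_
    unfold homChi
    rw [← Finset.prod_mul_distrib]
  have h3 : ∀ X ⊆ C, X ≠ Y → ∑ T ∈ C.powerset, homChi Y T * homChi X T = 0 := by
    intro X hX hXY
    rw [h2]
    have : ∃ i ∈ C, ¬ (i ∈ X ↔ i ∈ Y) := by
      by_contra hc
      push Not at hc
      apply hXY
      ext i
      by_cases hi : i ∈ C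
      · have := hc i hi
        tauto
      · exact ⟨fun h => absurd (hX h) hi, fun h => absurd (hY h) hi⟩
    obtain ⟨i, hi, hi'⟩ := this
    refine Finset.prod_eq_zero hi ?_
    by_cases h4 : i ∈ X <;> by_cases h5 : i ∈ Y <;> simp [h4, h5] <;> tauto
  have h4 : ∑ T ∈ C.powerset, homChi Y T * homChi Y T = (2 : ℚ) ^ C.card := by
    rw [Finset.sum_congr rfl (fun T _ => hom_chi_sq Y T)]
    simp
  have h5 : ∑ T ∈ C.powerset, homChi Y T * ∑ X ∈ C.powerset, homChi X T * g X
      = (2 : ℚ) ^ C.card * g Y := by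
    simp only [Finset.mul_sum]
    rw [Finset.sum_comm]
    rw [Finset.sum_eq_single Y]
    · rw [← h4, Finset.sum_mul]
      exact Finset.sum_congr rfl fun T _ => by ring
    · intro X hX hXY
      have : ∑ T ∈ C.powerset, homChi Y T * (homChi X T * g X)
          = (∑ T ∈ C.powerset, homChi Y T * homChi X T) * g X := by
        rw [Finset.sum_mul]
        exact Finset.sum_congr rfl fun T _ => by ring
      rw [this, h3 X (Finset.mem_powerset.1 hX) hXY, zero_mul]
    · intro h
      exact absurd (Finset.mem_powerset.2 hY) h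
  rw [h1] at h5
  rcases mul_eq_zero.1 h5.symm with h | h
  · exact absurd h (by positivity)
  · exact h

/-- On fewer than half of the vertices `G` and `H` have the same traces. -/
theorem trace_eq {p : ℕ} {G H : SimpleGraph (Fin p)} (hdeck : SameDeck G H) (C : Finset (Fin p)) (hC : 2 * C.card < p) (X : Finset (Fin p))
    (hX : Nonempty (sw G X ≃g H)) :
    ∃ X' : Finset (Fin p), X' ∩ C = X ∩ C ∧ Nonempty (sw G X' ≃g G) := by
  classical
  by_contra hcon
  push Not at hcon
  have hp : C.card < Fintype.card (Fin p) := by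
    rw [Fintype.card_fin]
    omega
  obtain ⟨i₀, -, -⟩ := Finset.exists_mem_notMem_of_card_lt_card
    (show C.card < (univ : Finset (Fin p)).card by rw [Finset.card_univ]; exact hp)
  have h0 := proj_zero (ff G H) (fun S => sum_ff hdeck S) C (by rw [Fintype.card_fin]; exact hC)
    (X ∩ C) Finset.inter_subset_right
  have hGG : 0 < cnt G G := cnt_pos G G ∅ (by
    rw [sw_empty]
    exact ⟨SimpleGraph.Iso.refl⟩)
  have hle : ∀ Z ∈ Cᶜ.powerset, ff G H (X ∩ C ∪ Z) ≤ 0 := by
    intro Z hZ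
    have hZ' := Finset.mem_powerset.1 hZ
    have e : (X ∩ C ∪ Z) ∩ C = X ∩ C := by
      ext x
      rw [Finset.mem_inter, Finset.mem_union, Finset.mem_inter]
      constructor
      · rintro ⟨h1 | h1, h2⟩
        · exact h1
        · exact absurd h2 (Finset.mem_compl.1 (hZ' h1))
      · intro h1
        exact ⟨Or.inl h1, h1.2⟩
    have h1 := hcon _ e
    unfold ff
    rw [ind_of_not _ _ (not_nonempty_iff.2 h1), mul_zero, zero_sub, neg_nonpos]
    exact mul_nonneg hGG.le (ind_nonneg _ _)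
  have hlt : ff G H (X ∩ C ∪ (X ∩ Cᶜ)) < 0 := by
    have e : X ∩ C ∪ (X ∩ Cᶜ) = X := by
      rw [← Finset.inter_union_distrib_left, Finset.union_compl, Finset.inter_univ]
    rw [e]
    have h1 := hcon X rfl
    unfold ff
    rw [ind_of_not _ _ (not_nonempty_iff.2 h1), ind_of _ _ hX, mul_zero, zero_sub, mul_one]
    exact neg_neg_of_pos hGG
  have h2 : ∑ Z ∈ Cᶜ.powerset, ff G H (X ∩ C ∪ Z) < 0 := by
    apply Finset.sum_neg' hle
    exact ⟨X ∩ Cᶜ, Finset.mem_powerset.2 Finset.inter_subset_right, hlt⟩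
  rw [h0] at h2
  exact lt_irrefl _ h2

/-- A nonzero function of degree at most `|C| / 2` on the subsets of `C` which is supported on the
traces. -/
theorem core {p : ℕ} {G H : SimpleGraph (Fin p)} (hdeck : SameDeck G H)
    (hnot : ¬ Nonempty (G ≃g H)) (C : Finset (Fin p)) (hC : 2 * C.card < p) :
    ∃ h : Finset (Fin p) → ℚ, DegLE C (C.card / 2) h ∧ (∃ X ⊆ C, h X ≠ 0) ∧
      ∀ X ⊆ C, h X ≠ 0 → ∃ X' : Finset (Fin p), Nonempty (sw G X' ≃g G) ∧ X = X' ∩ C := by
  classical
  have hne : ∃ S, ff G H S ≠ 0 := by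
    refine ⟨∅, ?_⟩
    have hp : 0 < p := by omega
    obtain ⟨T, hT⟩ := exists_sw hdeck ⟨0, hp⟩
    have h1 : 0 < cnt G H := cnt_pos G H T hT
    rw [ff_empty hnot]
    exact h1.ne'
  obtain ⟨h, hdeg, hne', hsupp, -⟩ := t_HOM (Fin p) (ff G H) (fun S => sum_ff hdeck S) hne C
  refine ⟨h, hdeg, hne', fun X hX hX0 => ?_⟩
  obtain ⟨Y, hY, hXY⟩ := hsupp X hX hX0
  have e : (X ∪ Y) ∩ C = X := by
    ext x
    rw [Finset.mem_inter, Finset.mem_union]
    constructor
    · rintro ⟨h1 | h1, h2⟩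
      · exact h1
      · exact absurd h2 (Finset.disjoint_left.1 hY h1)
    · intro h1
      exact ⟨Or.inl h1, hX h1⟩
  by_cases h1 : Nonempty (sw G (X ∪ Y) ≃g G)
  · exact ⟨X ∪ Y, h1, e.symm⟩
  · have h2 : Nonempty (sw G (X ∪ Y) ≃g H) := by
      by_contra h2
      apply hXY
      unfold ff
      rw [ind_of_not _ _ h1, ind_of_not _ _ h2]
      ring
    obtain ⟨X', h3, h4⟩ := trace_eq hdeck C hC (X ∪ Y) h2
    exact ⟨X', h4, by rw [h3, e]⟩

end Trace

open Trace

/-- Few traces. -/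
theorem few_traces (p : ℕ) (G : SimpleGraph (Fin p)) (C : Finset (Fin p)) (hC : 2 * C.card < p)
    (h : {P : Finset (Fin p) | ∃ X : Finset (Fin p), Nonempty (sw G X ≃g G) ∧ P = X ∩ C}.ncard <
      2 ^ ((C.card + 1) / 2))
    (H : SimpleGraph (Fin p)) (hdeck : SameDeck G H) : Nonempty (G ≃g H) := by
  classical
  by_contra hnot
  obtain ⟨f, hdeg, hne, hsupp⟩ := core hdeck hnot C hC
  have h1 := t_RM (Fin p) C (C.card / 2) f hdeg hne
  have h2 : (C.powerset.filter fun X => f X ≠ 0).card ≤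
      {P : Finset (Fin p) | ∃ X : Finset (Fin p), Nonempty (sw G X ≃g G) ∧ P = X ∩ C}.ncard := by
    rw [← Set.ncard_coe_finset]
    apply Set.ncard_le_ncard _ (Set.toFinite _)
    intro X hX
    rw [Finset.mem_coe, Finset.mem_filter, Finset.mem_powerset] at hX
    exact hsupp X hX.1 hX.2
  have h3 : C.card - C.card / 2 = (C.card + 1) / 2 := by omega
  rw [h3] at h1
  omega

/-- Traces in two antipodal Hamming balls. -/
theorem ball_traces (p : ℕ) (G : SimpleGraph (Fin p)) (C S : Finset (Fin p))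
    (hC : 2 * C.card < p)
    (h : ∀ X : Finset (Fin p), Nonempty (sw G X ≃g G) →
      4 * (symmDiff X S ∩ C).card + 3 ≤ C.card ∨ 4 * (C \ symmDiff X S).card + 3 ≤ C.card)
    (H : SimpleGraph (Fin p)) (hdeck : SameDeck G H) : Nonempty (G ≃g H) := by
  classical
  by_contra hnot
  obtain ⟨f, hdeg, hne, hsupp⟩ := core hdeck hnot C hC
  refine balls C f hdeg (S ∩ C) Finset.inter_subset_right hne fun X hX hX0 => ?_
  obtain ⟨X', h1, h2⟩ := hsupp X hX hX0
  have e : symmDiff X (S ∩ C) = symmDiff X' S ∩ C := by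
    rw [h2]
    ext x
    rw [Finset.mem_symmDiff, Finset.mem_inter, Finset.mem_inter, Finset.mem_inter,
      Finset.mem_symmDiff]
    tauto
  rw [e]
  rcases h X' h1 with h3 | h3
  · exact Or.inl h3
  · right
    have h4 : (C \ symmDiff X' S).card = C.card - (symmDiff X' S ∩ C).card := by
      have := Finset.card_sdiff_add_card_inter C (symmDiff X' S)
      rw [Finset.inter_comm C] at this
      omega
    rw [← h4]
    exact h3

/-- Modules which become honest modules after switching few of their vertices. -/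
theorem module_cuts (p : ℕ) (G : SimpleGraph (Fin p)) (C : Finset (Fin p))
    (hC : 2 * C.card < p)
    (h : ∀ σ : Equiv.Perm (Fin p), IsClassAut G σ → ∃ S : Finset (Fin p),
      S ⊆ C.map σ.toEmbedding ∧ 4 * S.card + 3 ≤ C.card ∧
      ∀ x, x ∉ C.map σ.toEmbedding → ∀ y ∈ C.map σ.toEmbedding, ∀ z ∈ C.map σ.toEmbedding,
        ((sw G S).Adj x y ↔ (sw G S).Adj x z))
    (H : SimpleGraph (Fin p)) (hdeck : SameDeck G H) : Nonempty (G ≃g H) := by
  classical
  have hcount : ∀ (σ : Equiv.Perm (Fin p)) (w : Fin p), σ w ∈ C.map σ.toEmbedding ↔ w ∈ C := by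
    intro σ w
    constructor
    · intro hh
      obtain ⟨x, hx, hxw⟩ := Finset.mem_map.1 hh
      have : x = w := σ.injective hxw
      rwa [← this]
    · intro hh
      exact Finset.mem_map.2 ⟨w, hh, rfl⟩
  -- the base
  obtain ⟨S₀, hS₀, hS₀c, hS₀m⟩ := h 1 ⟨∅, fun u v => by rw [sw_empty]; rfl⟩
  have h1C : C.map (1 : Equiv.Perm (Fin p)).toEmbedding = C := by
    ext x
    exact hcount 1 x
  rw [h1C] at hS₀ hS₀m
  have hC3 : 3 ≤ C.card := by omega
  obtain ⟨z₀, hz₀⟩ : C.Nonempty := by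
    rw [← Finset.card_pos]
    omega
  obtain ⟨x₀, -, hx₀⟩ := Finset.exists_mem_notMem_of_card_lt_card
    (show C.card < (univ : Finset (Fin p)).card by
      rw [Finset.card_univ, Fintype.card_fin]
      omega)
  apply ball_traces p G C S₀ hC _ H hdeck
  rintro X ⟨φ⟩
  set σ : Equiv.Perm (Fin p) := φ.toEquiv with hσ
  have hσa : ∀ u v, G.Adj (σ u) (σ v) ↔ (sw G X).Adj u v := fun u v => φ.map_rel_iff'
  have hcl : IsClassAut G σ := by
    have φ' : sw G X ≃g sw G ∅ := by
      rw [sw_empty]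
      exact φ
    have h1 := classAut_of_iso G X ∅ φ'
    refine ⟨X.map σ.toEmbedding, fun u v => ?_⟩
    have h2 : (sw G (X.map φ.toEquiv.toEmbedding)).Adj (φ.toEquiv u) (φ.toEquiv v) ↔
        (sw (sw G X) X).Adj u v := (isoSw φ X).map_rel_iff'
    rw [sw_sw, symmDiff_self, Finset.bot_eq_empty, sw_empty] at h2
    exact h2
  obtain ⟨S, hSD, hSc, hSm⟩ := h σ hcl
  -- the parts
  have key : ∀ z ∈ C, ∀ w ∈ C, ((z ∈ symmDiff X S₀ ↔ w ∈ symmDiff X S₀) ↔ (σ z ∈ S ↔ σ w ∈ S)) := by
    intro z hz w hw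
    have hxz : x₀ ≠ z := fun e => hx₀ (e ▸ hz)
    have hxw : x₀ ≠ w := fun e => hx₀ (e ▸ hw)
    have hσx : σ x₀ ∉ C.map σ.toEmbedding := fun hh => hx₀ ((hcount σ x₀).1 hh)
    have a1 := hSm (σ x₀) hσx (σ z) ((hcount σ z).2 hz) (σ w) ((hcount σ w).2 hw)
    rw [sw_adj_iff G S (σ x₀) (σ z) (σ w) (fun e => hxz (σ.injective e))
      (fun e => hxw (σ.injective e)), hσa, hσa, sw_adj_iff G X x₀ z w hxz hxw] at a1
    have a2 := hS₀m x₀ hx₀ z hz w hw
    rw [sw_adj_iff G S₀ x₀ z w hxz hxw] at a2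
    rw [Finset.mem_symmDiff, Finset.mem_symmDiff]
    exact xor_key _ _ _ _ _ _ a1 a2
  by_cases hcase : (z₀ ∈ symmDiff X S₀ ↔ σ z₀ ∈ S)
  · left
    have e : (symmDiff X S₀ ∩ C).map σ.toEmbedding = S := by
      ext y
      obtain ⟨x, rfl⟩ := σ.surjective y
      have e1 : σ x ∈ (symmDiff X S₀ ∩ C).map σ.toEmbedding ↔ x ∈ symmDiff X S₀ ∩ C := by
        constructor
        · intro hh
          obtain ⟨x', hx', hxx⟩ := Finset.mem_map.1 hh
          have : x' = x := σ.injective hxx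
          rwa [← this]
        · intro hh
          exact Finset.mem_map.2 ⟨x, hh, rfl⟩
      rw [e1, Finset.mem_inter]
      constructor
      · rintro ⟨h1, h2⟩
        exact (same_key _ _ _ _ (key z₀ hz₀ x h2) hcase).1 h1
      · intro h1
        have h2 : x ∈ C := (hcount σ x).1 (hSD h1)
        exact ⟨(same_key _ _ _ _ (key z₀ hz₀ x h2) hcase).2 h1, h2⟩
    rw [← Finset.card_map σ.toEmbedding, e]
    exact hSc
  · right
    have e : (C \ symmDiff X S₀).map σ.toEmbedding = S := by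
      ext y
      obtain ⟨x, rfl⟩ := σ.surjective y
      have e1 : σ x ∈ (C \ symmDiff X S₀).map σ.toEmbedding ↔ x ∈ C \ symmDiff X S₀ := by
        constructor
        · intro hh
          obtain ⟨x', hx', hxx⟩ := Finset.mem_map.1 hh
          have : x' = x := σ.injective hxx
          rwa [← this]
        · intro hh
          exact Finset.mem_map.2 ⟨x, hh, rfl⟩
      rw [e1, Finset.mem_sdiff]
      constructor
      · rintro ⟨h1, h2⟩
        exact (opp_key _ _ _ _ (key z₀ hz₀ x h1) hcase).1 h2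
      · intro h1
        have h2 : x ∈ C := (hcount σ x).1 (hSD h1)
        exact ⟨h2, (opp_key _ _ _ _ (key z₀ hz₀ x h2) hcase).2 h1⟩
    rw [← Finset.card_map σ.toEmbedding, e]
    exact hSc

end Pool.Agent.NTW
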