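import Pool.Agent.NTW.Trace2
import Pool.Agent.NTW.MINVA
import Pool.Agent.NTW.MINVB

/-!
Substitution into a graph with prime two-graph: all orders (helper78), for MP_e73337_co.
-/

set_option autoImplicit false

namespace Pool.Agent.NTW

open Finset Pool.Agent.Lib_helper61.SwitchBasic Fin5

namespace Trace

theorem classAut_sw {p : ℕ} (G : SimpleGraph (Fin p)) (X : Finset (Fin p))
    (σ : Equiv.Perm (Fin p)) (h : IsClassAut (sw G X) σ) : IsClassAut G σ := by
  classical
  obtain ⟨S, hS⟩ := h
  have φ : ∃ φ : sw G X ≃g sw G (symmDiff X S), φ.toEquiv = σ := by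
    refine ⟨{ toEquiv := σ, map_rel_iff' := ?_ }, rfl⟩
    intro u v
    rw [← sw_sw]
    exact hS u v
  obtain ⟨φ, hφ⟩ := φ
  have h1 := classAut_of_iso G X (symmDiff X S) φ
  rwa [hφ] at h1

end Trace

open Trace

/-- Substitution into a graph with prime two-graph, and few switched vertices in the parts of some
size. -/
theorem prime_subst (p r : ℕ) (hr : 4 ≤ r) (B : SimpleGraph (Fin r))
    (hB : ∀ W : Finset (Fin r), IsMod B W → W.card ≤ 1 ∨ r ≤ W.card + 1)
    (G : SimpleGraph (Fin p)) (c : Fin p → Fin r) (hc : Function.Surjective c)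
    (hG : ∀ x y, c x ≠ c y → (G.Adj x y ↔ B.Adj (c x) (c y)))
    (hsz : ∀ i, 2 * (univ.filter fun x => c x = i).card < p)
    (n : ℕ) (hn : ∃ i, (univ.filter fun x => c x = i).card = n) (X : Finset (Fin p))
    (hX : ∀ i, (univ.filter fun x => c x = i).card = n →
      4 * ((univ.filter fun x => c x = i) ∩ X).card + 3 ≤ n ∨
      4 * ((univ.filter fun x => c x = i) \ X).card + 3 ≤ n)
    (H : SimpleGraph (Fin p)) (hdeck : SameDeck (sw G X) H) : Nonempty (sw G X ≃g H) := by
  classical
  set k : Fin p → ℕ := fun x => (c x : ℕ) with hk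
  have hkc : ∀ x y, k x = k y ↔ c x = c y := by
    intro x y
    simp only [hk]
    exact ⟨fun h => Fin.ext h, fun h => by rw [h]⟩
  set P : Fin r → Finset (Fin p) := fun i => univ.filter fun x => c x = i with hP
  have hmP : ∀ i x, x ∈ P i ↔ c x = i := fun i x => by simp [hP]
  have hpart : ∀ i : Fin r, part k (i : ℕ) = P i := by
    intro i
    ext x
    rw [mem_part, hmP]
    simp only [hk]
    exact ⟨fun h => Fin.ext h, fun h => by rw [h]⟩
  have htrue : ∀ x y z, c y = c z → c x ≠ c y → (G.Adj x y ↔ G.Adj x z) := by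
    intro x y z h1 h2
    rw [hG x y h2, hG x z (by rw [← h1]; exact h2), h1]
  have hmod : ∀ i, IsMod G (part k i) := by
    intro i z hz w hw
    left
    intro x hx
    rw [mem_part] at hz hw hx
    have h1 : c z = c w := (hkc z w).1 (hz.trans hw.symm)
    have h2 : c x ≠ c z := fun h => hx (((hkc x z).2 h).trans hz)
    exact htrue x z w h1 h2
  have himg : (univ.image k).card = r := by
    have h1 : univ.image k = univ.image (fun i : Fin r => (i : ℕ)) := by
      ext j
      simp only [hk, Finset.mem_image, Finset.mem_univ, true_and]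
      constructor
      · rintro ⟨x, rfl⟩
        exact ⟨c x, rfl⟩
      · rintro ⟨i, rfl⟩
        obtain ⟨x, rfl⟩ := hc i
        exact ⟨x, rfl⟩
    rw [h1, Finset.card_image_of_injective _ Fin.val_injective, Finset.card_univ, Fintype.card_fin]
  have hprime : PrimeQ G k := by
    intro W hW hWu
    set W' : Finset (Fin r) := W.image c with hW'
    have hmW : ∀ x, c x ∈ W' ↔ x ∈ W := by
      intro x
      rw [hW', Finset.mem_image]
      constructor
      · rintro ⟨y, hy, hyx⟩
        exact hWu y hy x ((hkc x y).2 hyx.symm)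
      · intro hx
        exact ⟨x, hx, rfl⟩
    have hB' : IsMod B W' := by
      intro i hi j hj
      obtain ⟨z, rfl⟩ := hc i
      obtain ⟨w, rfl⟩ := hc j
      rw [hmW] at hi hj
      rcases hW z hi w hj with h1 | h1
      · left
        intro l hl
        obtain ⟨x, rfl⟩ := hc l
        rw [hmW] at hl
        have h2 := h1 x hl
        rwa [hG x z (fun h => hl (hWu z hi x ((hkc x z).2 h))),
          hG x w (fun h => hl (hWu w hj x ((hkc x w).2 h)))] at h2
      · right
        intro l hl
        obtain ⟨x, rfl⟩ := hc l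
        rw [hmW] at hl
        have h2 := h1 x hl
        rwa [hG x z (fun h => hl (hWu z hi x ((hkc x z).2 h))),
          hG x w (fun h => hl (hWu w hj x ((hkc x w).2 h)))] at h2
    rcases hB W' hB' with h1 | h1
    · left
      intro x hx y hy
      rw [hkc]
      rw [Finset.card_le_one] at h1
      exact h1 (c x) ((hmW x).2 hx) (c y) ((hmW y).2 hy)
    · right
      intro x hx y hy
      rw [hkc]
      have h2 : W'ᶜ.card ≤ 1 := by
        rw [Finset.card_compl, Fintype.card_fin]
        omega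
      rw [Finset.card_le_one] at h2
      exact h2 (c x) (Finset.mem_compl.2 fun h => hx ((hmW x).1 h)) (c y)
        (Finset.mem_compl.2 fun h => hy ((hmW y).1 h))
  have hsize : ∀ i, 2 * (part k i).card < Fintype.card (Fin p) := by
    intro i
    rw [Fintype.card_fin]
    by_cases hi : i < r
    · have h1 := hpart ⟨i, hi⟩
      have h2 : part k i = P ⟨i, hi⟩ := h1
      rw [h2]
      exact hsz _
    · have h1 : part k i = ∅ := by
        apply Finset.eq_empty_of_forall_notMem
        intro x hx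
        rw [mem_part] at hx
        apply hi
        rw [← hx]
        exact (c x).isLt
      rw [h1, Finset.card_empty]
      obtain ⟨x, -⟩ := hc ⟨0, by omega⟩
      have := x.isLt
      omega
  have hperm := t_INVB t_INVA (Fin p) G k hmod (by rw [himg]; exact hr) hprime hsize
  obtain ⟨i₀, hi₀⟩ := hn
  have hi₀' : (P i₀).card = n := hi₀
  refine module_cuts p (sw G X) (P i₀) (hsz i₀) ?_ H hdeck
  intro σ hσ
  have hσG : IsClassAut G σ := classAut_sw G X σ hσ
  -- the inverse
  have hσi : IsClassAut G σ⁻¹ := by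
    obtain ⟨S, hS⟩ := hσG
    have φ : ∃ φ : sw G S ≃g sw G ∅, φ.toEquiv = σ⁻¹ := by
      refine ⟨{ toEquiv := σ⁻¹, map_rel_iff' := ?_ }, rfl⟩
      intro u v
      rw [sw_empty]
      have h1 := hS (σ⁻¹ u) (σ⁻¹ v)
      rw [show σ (σ⁻¹ u) = u from σ.apply_symm_apply u,
        show σ (σ⁻¹ v) = v from σ.apply_symm_apply v] at h1
      exact h1.symm
    obtain ⟨φ, hφ⟩ := φ
    have h1 := classAut_of_iso G S ∅ φ
    rwa [hφ] at h1
  have hp1 : ∀ x y, c x = c y → c (σ x) = c (σ y) := fun x y h =>
    (hkc _ _).1 (hperm σ hσG x y ((hkc _ _).2 h))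
  have hp2 : ∀ x y, c (σ x) = c (σ y) → c x = c y := by
    intro x y h
    have h1 := (hkc _ _).1 (hperm σ⁻¹ hσi (σ x) (σ y) ((hkc _ _).2 h))
    rwa [show σ⁻¹ (σ x) = x from σ.symm_apply_apply x,
      show σ⁻¹ (σ y) = y from σ.symm_apply_apply y] at h1
  obtain ⟨x₀, hx₀⟩ := hc i₀
  have himage : (P i₀).map σ.toEmbedding = P (c (σ x₀)) := by
    ext y
    obtain ⟨x, rfl⟩ := σ.surjective y
    rw [hmP, Finset.mem_map]
    constructor
    · rintro ⟨x', hx', hxx⟩
      have h1 : x' = x := σ.injective hxx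
      rw [h1, hmP] at hx'
      exact hp1 _ _ (hx'.trans hx₀.symm)
    · intro h
      refine ⟨x, ?_, rfl⟩
      rw [hmP, ← hx₀]
      exact hp2 _ _ h
  rw [himage]
  set j := c (σ x₀) with hj
  have hjc : (P j).card = n := by
    rw [← himage, Finset.card_map]
    exact hi₀'
  rw [hi₀']
  have hadj : ∀ S : Finset (Fin p), (∀ y ∈ P j, ∀ z ∈ P j,
      (y ∈ symmDiff X S ↔ z ∈ symmDiff X S)) →
      ∀ x, x ∉ P j → ∀ y ∈ P j, ∀ z ∈ P j,
      ((sw (sw G X) S).Adj x y ↔ (sw (sw G X) S).Adj x z) := by
    intro S hS x hx y hy z hz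
    rw [sw_sw, sw_adj_iff G _ x y z (fun e => hx (e ▸ hy)) (fun e => hx (e ▸ hz))]
    have h1 := hS y hy z hz
    have h2 : G.Adj x y ↔ G.Adj x z := by
      rw [hmP] at hx hy hz
      exact htrue x y z (hy.trans hz.symm) (fun h => hx (h.trans hy))
    exact ⟨fun _ => h1, fun _ => h2⟩
  rcases hX j hjc with h1 | h1
  · refine ⟨P j ∩ X, Finset.inter_subset_left, h1, hadj _ ?_⟩
    intro y hy z hz
    rw [Finset.mem_symmDiff, Finset.mem_symmDiff, Finset.mem_inter, Finset.mem_inter]
    tauto
  · refine ⟨P j \ X, Finset.sdiff_subset, h1, hadj _ ?_⟩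
    intro y hy z hz
    rw [Finset.mem_symmDiff, Finset.mem_symmDiff, Finset.mem_sdiff, Finset.mem_sdiff]
    tauto

end Pool.Agent.NTW
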