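import Pool.Agent.NTW.Trace3

/-!
Sides of the cuts (helper78), for MP_e73337_co: the version with the set of the sizes of the smaller sides.
-/

set_option autoImplicit false

namespace Pool.Agent.NTW

open Finset Pool.Agent.Lib_helper61.SwitchBasic Fin5

namespace Trace

section
variable {α : Type} [DecidableEq α]

theorem sides_low (U : Finset α) (h : Finset α → ℚ) (hd : DegLE U (U.card / 2) h) (Y : Finset α)
    (hY : Y ⊆ U) (hne : h Y ≠ 0) (M : Finset ℕ) (l : ℕ) (hMl : ∀ a ∈ M, a ≤ l)
    (hl : 2 * (l + M.card) < U.card) (hYM : Y.card ∈ M)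
    (hs : ∀ X ⊆ U, h X ≠ 0 → X.card ∈ M ∨ U.card - X.card ∈ M) :
    False := by
  classical
  set M' := U \ Y with hM'
  set n := U.card with hn
  have hMc : M'.card = n - Y.card := Finset.card_sdiff_of_subset hY
  have hYl : Y.card ≤ l := hMl _ hYM
  have h1 := BLC.count (fun k => (∑ R ∈ M'.powersetCard k, h (Y ∪ R)) /
    ((M'.card.choose k : ℕ) : ℚ)) (n / 2) M'.card
    (fun i h1 h2 => levels U (n / 2) h hd Y hY i h1 h2) ⟨0, Nat.zero_le _, by
      simp only [Finset.powersetCard_zero, Finset.sum_singleton, Finset.union_empty,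
        Nat.choose_zero_right, Nat.cast_one, div_one]
      exact hne⟩
  set K₂ := (range (M'.card + 1)).filter fun k => n - (Y.card + k) ∈ M with hK₂
  have hK₂c : K₂.card ≤ M.card := by
    apply Finset.card_le_card_of_injOn (fun k => n - (Y.card + k))
    · intro k hk
      exact (Finset.mem_filter.1 hk).2
    · intro k hk k' hk' he
      have a1 := Finset.mem_range.1 (Finset.mem_filter.1 hk).1
      have a2 := Finset.mem_range.1 (Finset.mem_filter.1 hk').1
      have he' : n - (Y.card + k) = n - (Y.card + k') := he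
      omega
  have h2 : ((range (M'.card + 1)).filter fun k => (∑ R ∈ M'.powersetCard k, h (Y ∪ R)) /
      ((M'.card.choose k : ℕ) : ℚ) ≠ 0) ⊆ range (l - Y.card + 1) ∪ K₂ := by
    intro k hk
    rw [Finset.mem_filter] at hk
    have h3 : ∑ R ∈ M'.powersetCard k, h (Y ∪ R) ≠ 0 := by
      intro h0
      apply hk.2
      rw [h0, zero_div]
    obtain ⟨R, hR, hR'⟩ := Finset.exists_ne_zero_of_sum_ne_zero h3
    rw [Finset.mem_powersetCard] at hR
    have hdis : Disjoint Y R := Finset.disjoint_of_subset_right hR.1 Finset.disjoint_sdiff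
    have h4 := hs (Y ∪ R) (Finset.union_subset hY (hR.1.trans Finset.sdiff_subset)) hR'
    rw [Finset.card_union_of_disjoint hdis, hR.2] at h4
    rw [Finset.mem_union]
    rcases h4 with h4 | h4
    · left
      have := hMl _ h4
      rw [Finset.mem_range]
      omega
    · right
      exact Finset.mem_filter.2 ⟨hk.1, h4⟩
  have h3 := Finset.card_le_card h2
  have h4 := Finset.card_union_le (range (l - Y.card + 1)) K₂
  rw [Finset.card_range] at h4
  omega

/-- A function of degree at most half the size which is supported on few levels away from the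
middle. -/
theorem sides (U : Finset α) (h : Finset α → ℚ) (hd : DegLE U (U.card / 2) h) (S : Finset α)
    (hS : S ⊆ U) (hne : ∃ X ⊆ U, h X ≠ 0) (M : Finset ℕ) (l : ℕ) (hMl : ∀ a ∈ M, a ≤ l)
    (hl : 2 * (l + M.card) < U.card)
    (hs : ∀ X ⊆ U, h X ≠ 0 → (symmDiff X S).card ∈ M ∨ U.card - (symmDiff X S).card ∈ M) :
    False := by
  classical
  obtain ⟨X, hX, hXne⟩ := hne
  have hsub : ∀ A B : Finset α, A ⊆ U → B ⊆ U → symmDiff A B ⊆ U := by
    intro A B hA hB x hx
    rw [Finset.mem_symmDiff] at hx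
    rcases hx with ⟨h1, -⟩ | ⟨h1, -⟩
    · exact hA h1
    · exact hB h1
  rcases hs X hX hXne with h1 | h1
  · apply sides_low U (fun X => h (symmDiff X S)) (shift U _ h hd S hS) (symmDiff X S)
      (hsub X S hX hS) _ M l hMl hl h1
    · intro Z hZ hZne
      have h2 := hs (symmDiff Z S) (hsub Z S hZ hS) hZne
      rw [symmDiff_symmDiff_cancel_right] at h2
      exact h2
    · simp only [symmDiff_symmDiff_cancel_right]
      exact hXne
  · -- shift by the complement of `S`
    set S' := U \ S with hS'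
    have hS'U : S' ⊆ U := Finset.sdiff_subset
    have hcompl : ∀ Z ⊆ U, (symmDiff Z S').card + (symmDiff Z S).card = U.card := by
      intro Z hZ
      have e : symmDiff Z S' = U \ symmDiff Z S := by
        ext x
        rw [Finset.mem_symmDiff, Finset.mem_sdiff, Finset.mem_sdiff, Finset.mem_symmDiff]
        have a1 : x ∈ Z → x ∈ U := fun h => hZ h
        have a2 : x ∈ S → x ∈ U := fun h => hS h
        tauto
      rw [e, Finset.card_sdiff_of_subset (hsub Z S hZ hS)]
      have := Finset.card_le_card (hsub Z S hZ hS)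
      omega
    have hXc : (symmDiff X S').card ∈ M := by
      have := hcompl X hX
      have e : (symmDiff X S').card = U.card - (symmDiff X S).card := by omega
      rw [e]
      exact h1
    apply sides_low U (fun X => h (symmDiff X S')) (shift U _ h hd S' hS'U) (symmDiff X S')
      (hsub X S' hX hS'U) _ M l hMl hl hXc
    · intro Z hZ hZne
      have h2 := hs (symmDiff Z S') (hsub Z S' hZ hS'U) hZne
      have h3 := hcompl (symmDiff Z S') (hsub Z S' hZ hS'U)
      rw [symmDiff_symmDiff_cancel_right] at h3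
      have e : U.card - (symmDiff (symmDiff Z S') S).card = Z.card := by omega
      have e' : (symmDiff (symmDiff Z S') S).card = U.card - Z.card := by omega
      rw [e] at h2
      rw [e'] at h2
      exact h2.symm
    · simp only [symmDiff_symmDiff_cancel_right]
      exact hXne

end

end Trace

open Trace

/-- Traces with few sizes of the smaller sides. -/
theorem side_traces (p : ℕ) (G : SimpleGraph (Fin p)) (C S : Finset (Fin p))
    (hC : 2 * C.card < p) (M : Finset ℕ) (l : ℕ) (hMl : ∀ a ∈ M, a ≤ l)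
    (hl : 2 * (l + M.card) < C.card)
    (h : ∀ X : Finset (Fin p), Nonempty (sw G X ≃g G) →
      (symmDiff X S ∩ C).card ∈ M ∨ (C \ symmDiff X S).card ∈ M)
    (H : SimpleGraph (Fin p)) (hdeck : SameDeck G H) : Nonempty (G ≃g H) := by
  classical
  by_contra hnot
  obtain ⟨f, hdeg, hne, hsupp⟩ := core hdeck hnot C hC
  refine sides C f hdeg (S ∩ C) Finset.inter_subset_right hne M l hMl hl fun X hX hX0 => ?_
  obtain ⟨X', h1, h2⟩ := hsupp X hX hX0
  have e : symmDiff X (S ∩ C) = symmDiff X' S ∩ C := by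
    rw [h2]
    ext x
    rw [Finset.mem_symmDiff, Finset.mem_inter, Finset.mem_inter, Finset.mem_inter,
      Finset.mem_symmDiff]
    tauto
  rw [e]
  rcases h X' h1 with h3 | h3
  · exact Or.inl h3
  · right
    have h4 : (C \ symmDiff X' S).card = C.card - (symmDiff X' S ∩ C).card := by
      have := Finset.card_sdiff_add_card_inter C (symmDiff X' S)
      rw [Finset.inter_comm C] at this
      omega
    rw [← h4]
    exact h3

/-- Modules which become honest modules after switching few of their vertices. -/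
theorem module_sides (p : ℕ) (G : SimpleGraph (Fin p)) (C : Finset (Fin p))
    (hC : 2 * C.card < p) (M : Finset ℕ) (l : ℕ) (hMl : ∀ a ∈ M, a ≤ l)
    (hl : 2 * (l + M.card) < C.card)
    (h : ∀ σ : Equiv.Perm (Fin p), IsClassAut G σ → ∃ S : Finset (Fin p),
      S ⊆ C.map σ.toEmbedding ∧ S.card ∈ M ∧
      ∀ x, x ∉ C.map σ.toEmbedding → ∀ y ∈ C.map σ.toEmbedding, ∀ z ∈ C.map σ.toEmbedding,
        ((sw G S).Adj x y ↔ (sw G S).Adj x z))
    (H : SimpleGraph (Fin p)) (hdeck : SameDeck G H) : Nonempty (G ≃g H) := by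
  classical
  have hcount : ∀ (σ : Equiv.Perm (Fin p)) (w : Fin p), σ w ∈ C.map σ.toEmbedding ↔ w ∈ C := by
    intro σ w
    constructor
    · intro hh
      obtain ⟨x, hx, hxw⟩ := Finset.mem_map.1 hh
      have : x = w := σ.injective hxw
      rwa [← this]
    · intro hh
      exact Finset.mem_map.2 ⟨w, hh, rfl⟩
  -- the base
  obtain ⟨S₀, hS₀, hS₀c, hS₀m⟩ := h 1 ⟨∅, fun u v => by rw [sw_empty]; rfl⟩
  have h1C : C.map (1 : Equiv.Perm (Fin p)).toEmbedding = C := by
    ext x
    exact hcount 1 x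
  rw [h1C] at hS₀ hS₀m
  obtain ⟨z₀, hz₀⟩ : C.Nonempty := by
    rw [← Finset.card_pos]
    omega
  obtain ⟨x₀, -, hx₀⟩ := Finset.exists_mem_notMem_of_card_lt_card
    (show C.card < (univ : Finset (Fin p)).card by
      rw [Finset.card_univ, Fintype.card_fin]
      omega)
  apply side_traces p G C S₀ hC M l hMl hl _ H hdeck
  rintro X ⟨φ⟩
  set σ : Equiv.Perm (Fin p) := φ.toEquiv with hσ
  have hσa : ∀ u v, G.Adj (σ u) (σ v) ↔ (sw G X).Adj u v := fun u v => φ.map_rel_iff'
  have hcl : IsClassAut G σ := by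
    have φ' : sw G X ≃g sw G ∅ := by
      rw [sw_empty]
      exact φ
    have h1 := classAut_of_iso G X ∅ φ'
    refine ⟨X.map σ.toEmbedding, fun u v => ?_⟩
    have h2 : (sw G (X.map φ.toEquiv.toEmbedding)).Adj (φ.toEquiv u) (φ.toEquiv v) ↔
        (sw (sw G X) X).Adj u v := (isoSw φ X).map_rel_iff'
    rw [sw_sw, symmDiff_self, Finset.bot_eq_empty, sw_empty] at h2
    exact h2
  obtain ⟨S, hSD, hSc, hSm⟩ := h σ hcl
  -- the parts
  have key : ∀ z ∈ C, ∀ w ∈ C, ((z ∈ symmDiff X S₀ ↔ w ∈ symmDiff X S₀) ↔ (σ z ∈ S ↔ σ w ∈ S)) := by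
    intro z hz w hw
    have hxz : x₀ ≠ z := fun e => hx₀ (e ▸ hz)
    have hxw : x₀ ≠ w := fun e => hx₀ (e ▸ hw)
    have hσx : σ x₀ ∉ C.map σ.toEmbedding := fun hh => hx₀ ((hcount σ x₀).1 hh)
    have a1 := hSm (σ x₀) hσx (σ z) ((hcount σ z).2 hz) (σ w) ((hcount σ w).2 hw)
    rw [sw_adj_iff G S (σ x₀) (σ z) (σ w) (fun e => hxz (σ.injective e))
      (fun e => hxw (σ.injective e)), hσa, hσa, sw_adj_iff G X x₀ z w hxz hxw] at a1
    have a2 := hS₀m x₀ hx₀ z hz w hw
    rw [sw_adj_iff G S₀ x₀ z w hxz hxw] at a2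
    rw [Finset.mem_symmDiff, Finset.mem_symmDiff]
    exact xor_key _ _ _ _ _ _ a1 a2
  by_cases hcase : (z₀ ∈ symmDiff X S₀ ↔ σ z₀ ∈ S)
  · left
    have e : (symmDiff X S₀ ∩ C).map σ.toEmbedding = S := by
      ext y
      obtain ⟨x, rfl⟩ := σ.surjective y
      have e1 : σ x ∈ (symmDiff X S₀ ∩ C).map σ.toEmbedding ↔ x ∈ symmDiff X S₀ ∩ C := by
        constructor
        · intro hh
          obtain ⟨x', hx', hxx⟩ := Finset.mem_map.1 hh
          have : x' = x := σ.injective hxx
          rwa [← this]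
        · intro hh
          exact Finset.mem_map.2 ⟨x, hh, rfl⟩
      rw [e1, Finset.mem_inter]
      constructor
      · rintro ⟨h1, h2⟩
        exact (same_key _ _ _ _ (key z₀ hz₀ x h2) hcase).1 h1
      · intro h1
        have h2 : x ∈ C := (hcount σ x).1 (hSD h1)
        exact ⟨(same_key _ _ _ _ (key z₀ hz₀ x h2) hcase).2 h1, h2⟩
    rw [← Finset.card_map σ.toEmbedding, e]
    exact hSc
  · right
    have e : (C \ symmDiff X S₀).map σ.toEmbedding = S := by
      ext y
      obtain ⟨x, rfl⟩ := σ.surjective y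
      have e1 : σ x ∈ (C \ symmDiff X S₀).map σ.toEmbedding ↔ x ∈ C \ symmDiff X S₀ := by
        constructor
        · intro hh
          obtain ⟨x', hx', hxx⟩ := Finset.mem_map.1 hh
          have : x' = x := σ.injective hxx
          rwa [← this]
        · intro hh
          exact Finset.mem_map.2 ⟨x, hh, rfl⟩
      rw [e1, Finset.mem_sdiff]
      constructor
      · rintro ⟨h1, h2⟩
        exact (opp_key _ _ _ _ (key z₀ hz₀ x h1) hcase).1 h2
      · intro h1
        have h2 : x ∈ C := (hcount σ x).1 (hSD h1)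
        exact ⟨h2, (opp_key _ _ _ _ (key z₀ hz₀ x h2) hcase).2 h1⟩
    rw [← Finset.card_map σ.toEmbedding, e]
    exact hSc

/-- Substitution into a graph with prime two-graph, and few switched vertices in the parts of some
size. -/
theorem prime_sides (p r : ℕ) (hr : 4 ≤ r) (B : SimpleGraph (Fin r))
    (hB : ∀ W : Finset (Fin r), IsMod B W → W.card ≤ 1 ∨ r ≤ W.card + 1)
    (G : SimpleGraph (Fin p)) (c : Fin p → Fin r) (hc : Function.Surjective c)
    (hG : ∀ x y, c x ≠ c y → (G.Adj x y ↔ B.Adj (c x) (c y)))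
    (hsz : ∀ i, 2 * (univ.filter fun x => c x = i).card < p)
    (n : ℕ) (hn : ∃ i, (univ.filter fun x => c x = i).card = n) (X : Finset (Fin p))
    (M : Finset ℕ) (l : ℕ) (hMl : ∀ a ∈ M, a ≤ l) (hl : 2 * (l + M.card) < n)
    (hX : ∀ i, (univ.filter fun x => c x = i).card = n →
      ((univ.filter fun x => c x = i) ∩ X).card ∈ M ∨
      ((univ.filter fun x => c x = i) \ X).card ∈ M)
    (H : SimpleGraph (Fin p)) (hdeck : SameDeck (sw G X) H) : Nonempty (sw G X ≃g H) := by
  classical
  set k : Fin p → ℕ := fun x => (c x : ℕ) with hk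
  have hkc : ∀ x y, k x = k y ↔ c x = c y := by
    intro x y
    simp only [hk]
    exact ⟨fun h => Fin.ext h, fun h => by rw [h]⟩
  set P : Fin r → Finset (Fin p) := fun i => univ.filter fun x => c x = i with hP
  have hmP : ∀ i x, x ∈ P i ↔ c x = i := fun i x => by simp [hP]
  have hpart : ∀ i : Fin r, part k (i : ℕ) = P i := by
    intro i
    ext x
    rw [mem_part, hmP]
    simp only [hk]
    exact ⟨fun h => Fin.ext h, fun h => by rw [h]⟩
  have htrue : ∀ x y z, c y = c z → c x ≠ c y → (G.Adj x y ↔ G.Adj x z) := by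
    intro x y z h1 h2
    rw [hG x y h2, hG x z (by rw [← h1]; exact h2), h1]
  have hmod : ∀ i, IsMod G (part k i) := by
    intro i z hz w hw
    left
    intro x hx
    rw [mem_part] at hz hw hx
    have h1 : c z = c w := (hkc z w).1 (hz.trans hw.symm)
    have h2 : c x ≠ c z := fun h => hx (((hkc x z).2 h).trans hz)
    exact htrue x z w h1 h2
  have himg : (univ.image k).card = r := by
    have h1 : univ.image k = univ.image (fun i : Fin r => (i : ℕ)) := by
      ext j
      simp only [hk, Finset.mem_image, Finset.mem_univ, true_and]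
      constructor
      · rintro ⟨x, rfl⟩
        exact ⟨c x, rfl⟩
      · rintro ⟨i, rfl⟩
        obtain ⟨x, rfl⟩ := hc i
        exact ⟨x, rfl⟩
    rw [h1, Finset.card_image_of_injective _ Fin.val_injective, Finset.card_univ, Fintype.card_fin]
  have hprime : PrimeQ G k := by
    intro W hW hWu
    set W' : Finset (Fin r) := W.image c with hW'
    have hmW : ∀ x, c x ∈ W' ↔ x ∈ W := by
      intro x
      rw [hW', Finset.mem_image]
      constructor
      · rintro ⟨y, hy, hyx⟩
        exact hWu y hy x ((hkc x y).2 hyx.symm)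
      · intro hx
        exact ⟨x, hx, rfl⟩
    have hB' : IsMod B W' := by
      intro i hi j hj
      obtain ⟨z, rfl⟩ := hc i
      obtain ⟨w, rfl⟩ := hc j
      rw [hmW] at hi hj
      rcases hW z hi w hj with h1 | h1
      · left
        intro l hl
        obtain ⟨x, rfl⟩ := hc l
        rw [hmW] at hl
        have h2 := h1 x hl
        rwa [hG x z (fun h => hl (hWu z hi x ((hkc x z).2 h))),
          hG x w (fun h => hl (hWu w hj x ((hkc x w).2 h)))] at h2
      · right
        intro l hl
        obtain ⟨x, rfl⟩ := hc l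
        rw [hmW] at hl
        have h2 := h1 x hl
        rwa [hG x z (fun h => hl (hWu z hi x ((hkc x z).2 h))),
          hG x w (fun h => hl (hWu w hj x ((hkc x w).2 h)))] at h2
    rcases hB W' hB' with h1 | h1
    · left
      intro x hx y hy
      rw [hkc]
      rw [Finset.card_le_one] at h1
      exact h1 (c x) ((hmW x).2 hx) (c y) ((hmW y).2 hy)
    · right
      intro x hx y hy
      rw [hkc]
      have h2 : W'ᶜ.card ≤ 1 := by
        rw [Finset.card_compl, Fintype.card_fin]
        omega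
      rw [Finset.card_le_one] at h2
      exact h2 (c x) (Finset.mem_compl.2 fun h => hx ((hmW x).1 h)) (c y)
        (Finset.mem_compl.2 fun h => hy ((hmW y).1 h))
  have hsize : ∀ i, 2 * (part k i).card < Fintype.card (Fin p) := by
    intro i
    rw [Fintype.card_fin]
    by_cases hi : i < r
    · have h1 := hpart ⟨i, hi⟩
      have h2 : part k i = P ⟨i, hi⟩ := h1
      rw [h2]
      exact hsz _
    · have h1 : part k i = ∅ := by
        apply Finset.eq_empty_of_forall_notMem
        intro x hx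
        rw [mem_part] at hx
        apply hi
        rw [← hx]
        exact (c x).isLt
      rw [h1, Finset.card_empty]
      obtain ⟨x, -⟩ := hc ⟨0, by omega⟩
      have := x.isLt
      omega
  have hperm := t_INVB t_INVA (Fin p) G k hmod (by rw [himg]; exact hr) hprime hsize
  obtain ⟨i₀, hi₀⟩ := hn
  have hi₀' : (P i₀).card = n := hi₀
  refine module_sides p (sw G X) (P i₀) (hsz i₀) M l hMl (by rw [hi₀']; exact hl) ?_ H hdeck
  intro σ hσ
  have hσG : IsClassAut G σ := classAut_sw G X σ hσ
  -- the inverse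
  have hσi : IsClassAut G σ⁻¹ := by
    obtain ⟨S, hS⟩ := hσG
    have φ : ∃ φ : sw G S ≃g sw G ∅, φ.toEquiv = σ⁻¹ := by
      refine ⟨{ toEquiv := σ⁻¹, map_rel_iff' := ?_ }, rfl⟩
      intro u v
      rw [sw_empty]
      have h1 := hS (σ⁻¹ u) (σ⁻¹ v)
      rw [show σ (σ⁻¹ u) = u from σ.apply_symm_apply u,
        show σ (σ⁻¹ v) = v from σ.apply_symm_apply v] at h1
      exact h1.symm
    obtain ⟨φ, hφ⟩ := φ
    have h1 := classAut_of_iso G S ∅ φ
    rwa [hφ] at h1
  have hp1 : ∀ x y, c x = c y → c (σ x) = c (σ y) := fun x y h =>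
    (hkc _ _).1 (hperm σ hσG x y ((hkc _ _).2 h))
  have hp2 : ∀ x y, c (σ x) = c (σ y) → c x = c y := by
    intro x y h
    have h1 := (hkc _ _).1 (hperm σ⁻¹ hσi (σ x) (σ y) ((hkc _ _).2 h))
    rwa [show σ⁻¹ (σ x) = x from σ.symm_apply_apply x,
      show σ⁻¹ (σ y) = y from σ.symm_apply_apply y] at h1
  obtain ⟨x₀, hx₀⟩ := hc i₀
  have himage : (P i₀).map σ.toEmbedding = P (c (σ x₀)) := by
    ext y
    obtain ⟨x, rfl⟩ := σ.surjective y
    rw [hmP, Finset.mem_map]
    constructor
    · rintro ⟨x', hx', hxx⟩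
      have h1 : x' = x := σ.injective hxx
      rw [h1, hmP] at hx'
      exact hp1 _ _ (hx'.trans hx₀.symm)
    · intro h
      refine ⟨x, ?_, rfl⟩
      rw [hmP, ← hx₀]
      exact hp2 _ _ h
  rw [himage]
  set j := c (σ x₀) with hj
  have hjc : (P j).card = n := by
    rw [← himage, Finset.card_map]
    exact hi₀'
  have hadj : ∀ S : Finset (Fin p), (∀ y ∈ P j, ∀ z ∈ P j,
      (y ∈ symmDiff X S ↔ z ∈ symmDiff X S)) →
      ∀ x, x ∉ P j → ∀ y ∈ P j, ∀ z ∈ P j,
      ((sw (sw G X) S).Adj x y ↔ (sw (sw G X) S).Adj x z) := by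
    intro S hS x hx y hy z hz
    rw [sw_sw, sw_adj_iff G _ x y z (fun e => hx (e ▸ hy)) (fun e => hx (e ▸ hz))]
    have h1 := hS y hy z hz
    have h2 : G.Adj x y ↔ G.Adj x z := by
      rw [hmP] at hx hy hz
      exact htrue x y z (hy.trans hz.symm) (fun h => hx (h.trans hy))
    exact ⟨fun _ => h1, fun _ => h2⟩
  rcases hX j hjc with h1 | h1
  · refine ⟨P j ∩ X, Finset.inter_subset_left, h1, hadj _ ?_⟩
    intro y hy z hz
    rw [Finset.mem_symmDiff, Finset.mem_symmDiff, Finset.mem_inter, Finset.mem_inter]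
    tauto
  · refine ⟨P j \ X, Finset.sdiff_subset, h1, hadj _ ?_⟩
    intro y hy z hz
    rw [Finset.mem_symmDiff, Finset.mem_symmDiff, Finset.mem_sdiff, Finset.mem_sdiff]
    tauto

end Pool.Agent.NTW
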