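import Pool.Agent.NTW.TwinCls

/-!
The twin class theorem (helper78), for MP_e73337_co.
-/

set_option autoImplicit false

namespace Pool.Agent.NTW

open Finset Pool.Agent.Lib_helper61.SwitchBasic Fin5 TwinCls

/-- If the switching class of `G` has a class of twins (up to switching) with exactly `c` vertices,
and the number of its twin classes with exactly `c` vertices is at most `(c + 1) / 8`, then `G` is
switching-reconstructible. -/
theorem twin_classes (p : ℕ) (G : SimpleGraph (Fin p)) (c : ℕ)
    (h1 : ∃ C, IsTwinClass G C ∧ C.card = c)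
    (h8 : 8 * {C : Finset (Fin p) | IsTwinClass G C ∧ C.card = c}.ncard ≤ c + 1)
    (H : SimpleGraph (Fin p)) (hdeck : SameDeck G H) : Nonempty (G ≃g H) := by
  classical
  by_contra hnot
  obtain ⟨C, hC, hCc⟩ := h1
  set 𝒞 : Finset (Finset (Fin p)) := univ.filter fun C => IsTwinClass G C ∧ C.card = c with h𝒞
  have h𝒞c : {C : Finset (Fin p) | IsTwinClass G C ∧ C.card = c}.ncard = 𝒞.card := by
    rw [← Set.ncard_coe_finset]
    congr 1
    ext D
    simp [h𝒞]
  rw [h𝒞c] at h8
  have hC𝒞 : C ∈ 𝒞 := by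
    rw [h𝒞, Finset.mem_filter]
    exact ⟨Finset.mem_univ _, hC, hCc⟩
  have hpos : 0 < 𝒞.card := Finset.card_pos.2 ⟨C, hC𝒞⟩
  have hp3 : 2 < Fintype.card (Fin p) := by
    have h2 : C.card ≤ Fintype.card (Fin p) := Finset.card_le_univ C
    omega
  obtain ⟨B, hB⟩ := exists_pure G C hC
  set G₀ := sw G B with hG₀
  set φ : Finset (Fin p) → ℚ := fun T => ff G H (symmDiff B T) with hφ
  have hsw : ∀ T, sw G (symmDiff B T) = sw G₀ T := fun T => (sw_sw _ _ _).symm
  have hφsum : ∀ S, ∑ i : Fin p, φ (symmDiff S {i}) = 0 := by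
    intro S
    have h1 := sum_ff hdeck (symmDiff B S)
    rw [← h1]
    refine Finset.sum_congr rfl fun i _ => ?_
    simp only [hφ]
    rw [symmDiff_assoc]
  have hφne : ∃ X, φ X ≠ 0 := by
    refine ⟨B, ?_⟩
    obtain ⟨i₀, hi₀⟩ : C.Nonempty := by
      rw [← Finset.card_pos]
      omega
    obtain ⟨T, hT⟩ := exists_sw hdeck i₀
    have h1 : 0 < cnt G H := cnt_pos G H T hT
    simp only [hφ]
    rw [symmDiff_self, Finset.bot_eq_empty, ff_empty hnot]
    exact h1.ne'
  have hφinv : ∀ τ ∈ FG G₀ (∅ : Finset (Fin p)), ∀ T, φ (T.map τ.toEmbedding) = φ T := by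
    intro τ hτ T
    simp only [hφ, ff, hsw]
    have e : ∀ K, ind (sw G₀ (T.map τ.toEmbedding)) K = ind (sw G₀ T) K := fun K =>
      (ind_congr_left K ⟨isoSw (isoOf hτ) T⟩).symm
    rw [e, e]
  have hφor : ∀ T, φ T ≠ 0 → Nonempty (sw G₀ T ≃g G) ∨ Nonempty (sw G₀ T ≃g H) := by
    intro T hT
    by_contra hc
    push Not at hc
    apply hT
    simp only [hφ, ff, hsw]
    rw [ind_of_not _ _ (not_nonempty_iff.2 hc.1), ind_of_not _ _ (not_nonempty_iff.2 hc.2)]
    ring
  obtain ⟨h, hdeg, hne, hsupp, hval⟩ := t_HOM (Fin p) φ hφsum hφne C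
  -- `h` depends only on the cardinality
  have hcard : ∀ X ⊆ C, ∀ X' ⊆ C, X.card = X'.card → h X = h X' := by
    intro X hX X' hX' hc
    apply hval X hX X' hX' hc
    intro Y hY
    exact card_inv φ C (fun y hy z hz S => hφinv _ (swap_mem G₀ y z (hB y hy z hz)) S) Y hY
      _ X X' hX hX' hc rfl
  -- the levels
  obtain ⟨TH, hTH⟩ : ∃ T, Nonempty (sw G T ≃g H) := by
    obtain ⟨i₀, -⟩ : C.Nonempty := by
      rw [← Finset.card_pos]
      omega
    exact exists_sw hdeck i₀
  set w : Finset (Fin p) → Fin p := fun D => if hD : D.Nonempty then hD.choose else C.card |>.rec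
    (by
      have : 0 < p := by
        have h2 := hp3
        rw [Fintype.card_fin] at h2
        omega
      exact ⟨0, this⟩) (fun _ a => a) with hw
  have hwm : ∀ D : Finset (Fin p), D.Nonempty → w D ∈ D := by
    intro D hD
    simp only [hw]
    rw [dif_pos hD]
    exact hD.choose_spec
  set Lv : Finset ℕ := ((𝒞.image fun D => lev G D (w D)) ∪ (𝒞.image fun D => c - lev G D (w D))) ∪
    ((𝒞.image fun D => lev (sw G TH) D (w D)) ∪ (𝒞.image fun D => c - lev (sw G TH) D (w D)))
    with hLv
  have hLvc : Lv.card ≤ 4 * 𝒞.card := by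
    have a1 : (𝒞.image fun D => lev G D (w D)).card ≤ 𝒞.card := Finset.card_image_le
    have a2 : (𝒞.image fun D => c - lev G D (w D)).card ≤ 𝒞.card := Finset.card_image_le
    have a3 : (𝒞.image fun D => lev (sw G TH) D (w D)).card ≤ 𝒞.card := Finset.card_image_le
    have a4 : (𝒞.image fun D => c - lev (sw G TH) D (w D)).card ≤ 𝒞.card := Finset.card_image_le
    have b1 := Finset.card_union_le (𝒞.image fun D => lev G D (w D))
      (𝒞.image fun D => c - lev G D (w D))
    have b2 := Finset.card_union_le (𝒞.image fun D => lev (sw G TH) D (w D))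
      (𝒞.image fun D => c - lev (sw G TH) D (w D))
    have b3 := Finset.card_union_le ((𝒞.image fun D => lev G D (w D)) ∪
      (𝒞.image fun D => c - lev G D (w D))) ((𝒞.image fun D => lev (sw G TH) D (w D)) ∪
      (𝒞.image fun D => c - lev (sw G TH) D (w D)))
    rw [hLv]
    omega
  have hlevel : ∀ (K : SimpleGraph (Fin p)) (X T : Finset (Fin p)),
      K = sw G T → Nonempty (sw G₀ X ≃g K) → ∃ D ∈ 𝒞, (X ∩ C).card = lev K D (w D) ∨
        (X ∩ C).card = c - lev K D (w D) := by
    rintro K X T hK ⟨σ⟩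
    set D : Finset (Fin p) := C.map σ.toEquiv.toEmbedding with hD
    have hmD : ∀ z, σ z ∈ D ↔ z ∈ C := by
      intro z
      rw [hD, Finset.mem_map]
      constructor
      · rintro ⟨x, hx, hxz⟩
        have : x = z := σ.injective hxz
        rwa [← this]
      · intro hz
        exact ⟨z, hz, rfl⟩
    have htw : ∀ y z, Twins G (σ y) (σ z) ↔ Twins G y z := by
      intro y z
      rw [← twins_sw G T (σ y) (σ z), ← hK, twins_iso σ y z, twins_sw, hG₀, twins_sw]
    have hDcl : IsTwinClass G D := by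
      obtain ⟨y₀, hy₀⟩ := hC
      refine ⟨σ y₀, fun z => ?_⟩
      obtain ⟨x, rfl⟩ := σ.surjective z
      rw [hmD, htw]
      exact hy₀ x
    have hDc : D.card = c := by
      rw [hD, Finset.card_map, hCc]
    have hD𝒞 : D ∈ 𝒞 := by
      rw [h𝒞, Finset.mem_filter]
      exact ⟨Finset.mem_univ _, hDcl, hDc⟩
    refine ⟨D, hD𝒞, ?_⟩
    have hDn : D.Nonempty := by
      rw [← Finset.card_pos]
      omega
    obtain ⟨y, hy⟩ := σ.surjective (w D)
    have hyC : y ∈ C := by
      rw [← hmD, hy]
      exact hwm D hDn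
    have hlev : lev K D (w D) = lev (sw G₀ X) C y := by
      unfold lev
      rw [← hy]
      have e : D.filter (fun z => Tw K (σ y) z) =
          (C.filter fun z => Tw (sw G₀ X) y z).map σ.toEquiv.toEmbedding := by
        ext z
        obtain ⟨x, rfl⟩ := σ.surjective z
        rw [Finset.mem_filter, hmD, tw_iso σ y x, Finset.mem_map]
        constructor
        · intro h2
          exact ⟨x, Finset.mem_filter.2 h2, rfl⟩
        · rintro ⟨x', hx', hxx⟩
          have : x' = x := σ.injective hxx
          rw [← this]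
          exact Finset.mem_filter.1 hx'
      rw [e, Finset.card_map]
    rw [hlev]
    rcases lev_sw G₀ C X y hyC hB hp3 with h2 | h2
    · left
      exact h2.symm
    · right
      rw [hCc] at h2
      exact h2
  have hXlev : ∀ X, φ X ≠ 0 → (X ∩ C).card ∈ Lv := by
    intro X hX
    rw [hLv, Finset.mem_union, Finset.mem_union, Finset.mem_union]
    rcases hφor X hX with h2 | h2
    · obtain ⟨D, hD, h3⟩ := hlevel G X ∅ (sw_empty G).symm h2
      left
      rcases h3 with h3 | h3
      · left
        rw [h3]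
        exact Finset.mem_image_of_mem (fun D => lev G D (w D)) hD
      · right
        rw [h3]
        exact Finset.mem_image_of_mem (fun D => c - lev G D (w D)) hD
    · have h4 : Nonempty (sw G₀ X ≃g sw G TH) := by
        obtain ⟨a⟩ := h2
        obtain ⟨b⟩ := hTH
        exact ⟨a.trans b.symm⟩
      obtain ⟨D, hD, h3⟩ := hlevel (sw G TH) X TH rfl h4
      right
      rcases h3 with h3 | h3
      · left
        rw [h3]
        exact Finset.mem_image_of_mem (fun D => lev (sw G TH) D (w D)) hD
      · right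
        rw [h3]
        exact Finset.mem_image_of_mem (fun D => c - lev (sw G TH) D (w D)) hD
  -- levels of `h`
  have hex : ∀ k : ℕ, ∃ X : Finset (Fin p), X ⊆ C ∧ (k ≤ c → X.card = k) := by
    intro k
    by_cases hk : k ≤ c
    · have hk' : k ≤ C.card := by
        rw [hCc]
        exact hk
      obtain ⟨X, hX, hXc⟩ := Finset.exists_subset_card_eq hk'
      exact ⟨X, hX, fun _ => hXc⟩
    · exact ⟨∅, empty_subset _, fun h => absurd h hk⟩
  choose s hs hsc using hex
  have hhval : ∀ X ⊆ C, h X = h (s X.card) := by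
    intro X hX
    have hXn : X.card ≤ c := by
      rw [← hCc]
      exact Finset.card_le_card hX
    exact hcard X hX _ (hs _) (hsc _ hXn).symm
  have hmob : ∀ T ⊆ C, mob h T =
      ∑ k ∈ range (T.card + 1), (-1 : ℚ) ^ k * ((T.card.choose k : ℕ) : ℚ) * h (s k) := by
    intro T hT
    unfold mob
    rw [Finset.sum_congr rfl (g := fun S => (fun k : ℕ => (-1 : ℚ) ^ k * h (s k)) S.card)
      (fun S hS => by rw [hhval S ((mem_powerset.1 hS).trans hT)])]
    rw [Finset.sum_powerset_apply_card (fun k : ℕ => (-1 : ℚ) ^ k * h (s k))]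
    refine sum_congr rfl fun k _ => ?_
    rw [nsmul_eq_mul]
    ring
  have halt : ∀ i, C.card / 2 < i → i ≤ c →
      ∑ k ∈ range (i + 1), (-1 : ℚ) ^ k * ((i.choose k : ℕ) : ℚ) * h (s k) = 0 := by
    intro i hji hin
    have h1 := hdeg (s i) (hs i) (by rw [hsc i hin]; exact hji)
    rw [hmob _ (hs i), hsc i hin] at h1
    exact h1
  have hne' : ∃ k ≤ c, h (s k) ≠ 0 := by
    obtain ⟨X, hX, hfX⟩ := hne
    refine ⟨X.card, ?_, ?_⟩
    · rw [← hCc]
      exact Finset.card_le_card hX
    · rw [← hhval X hX]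
      exact hfX
  have hcount := BLC.count (fun k => h (s k)) (C.card / 2) c halt hne'
  have hsub : ((range (c + 1)).filter fun k => h (s k) ≠ 0) ⊆ Lv := by
    intro k hk
    rw [Finset.mem_filter, Finset.mem_range] at hk
    have hkc : k ≤ c := by omega
    obtain ⟨Y, hY, hφY⟩ := hsupp (s k) (hs k) hk.2
    have h2 := hXlev _ hφY
    have h3 : (s k ∪ Y) ∩ C = s k := by
      ext x
      rw [Finset.mem_inter, Finset.mem_union]
      constructor
      · rintro ⟨h4 | h4, h5⟩
        · exact h4
        · exact absurd h5 (Finset.disjoint_left.1 hY h4)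
      · intro h4
        exact ⟨Or.inl h4, hs k h4⟩
    rw [h3, hsc k hkc] at h2
    exact h2
  have h2 := Finset.card_le_card hsub
  rw [hCc] at hcount
  omega

end Pool.Agent.NTW
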