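import Pool.Agent.NTW.Trace4
import Pool.Agent.NTW.TwinCls2

/-!
Parts which are sets of twins (helper78), for MP_e73337_co.
-/

set_option autoImplicit false

namespace Pool.Agent.NTW

open Finset Pool.Agent.Lib_helper61.SwitchBasic Fin5 TwinCls

namespace Trace

theorem t5_aux (z s x c : Prop) (h : (z ∧ c) ↔ ((s ∧ ¬ x ∨ x ∧ ¬ s) ∧ c)) :
    ((z ∧ ¬ s ∨ s ∧ ¬ z) ∧ c) ↔ (x ∧ c) := by
  by_cases b1 : z <;> by_cases b2 : s <;> by_cases b3 : x <;> by_cases b4 : c <;> simp_all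

theorem cut_card (p : ℕ) (G : SimpleGraph (Fin p)) (C S₀ X S : Finset (Fin p))
    (hCp : C.card < p) (hCn : C.Nonempty)
    (hS₀m : ∀ x, x ∉ C → ∀ y ∈ C, ∀ z ∈ C, ((sw G S₀).Adj x y ↔ (sw G S₀).Adj x z))
    (φ : sw G X ≃g G) (hSD : S ⊆ C.map φ.toEquiv.toEmbedding)
    (hSm : ∀ x, x ∉ C.map φ.toEquiv.toEmbedding → ∀ y ∈ C.map φ.toEquiv.toEmbedding,
      ∀ z ∈ C.map φ.toEquiv.toEmbedding, ((sw G S).Adj x y ↔ (sw G S).Adj x z)) :
    (symmDiff X S₀ ∩ C).card = S.card ∨ (symmDiff X S₀ ∩ C).card = C.card - S.card := by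
  classical
  have hcount : ∀ (σ : Equiv.Perm (Fin p)) (w : Fin p), σ w ∈ C.map σ.toEmbedding ↔ w ∈ C := by
    intro σ w
    constructor
    · intro hh
      obtain ⟨x, hx, hxw⟩ := Finset.mem_map.1 hh
      have : x = w := σ.injective hxw
      rwa [← this]
    · intro hh
      exact Finset.mem_map.2 ⟨w, hh, rfl⟩
  obtain ⟨z₀, hz₀⟩ := hCn
  obtain ⟨x₀, -, hx₀⟩ := Finset.exists_mem_notMem_of_card_lt_card
    (show C.card < (univ : Finset (Fin p)).card by
      rw [Finset.card_univ, Fintype.card_fin]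
      exact hCp)
  set σ : Equiv.Perm (Fin p) := φ.toEquiv with hσ
  have hσa : ∀ u v, G.Adj (σ u) (σ v) ↔ (sw G X).Adj u v := fun u v => φ.map_rel_iff'
  -- the parts
  have key : ∀ z ∈ C, ∀ w ∈ C, ((z ∈ symmDiff X S₀ ↔ w ∈ symmDiff X S₀) ↔ (σ z ∈ S ↔ σ w ∈ S)) := by
    intro z hz w hw
    have hxz : x₀ ≠ z := fun e => hx₀ (e ▸ hz)
    have hxw : x₀ ≠ w := fun e => hx₀ (e ▸ hw)
    have hσx : σ x₀ ∉ C.map σ.toEmbedding := fun hh => hx₀ ((hcount σ x₀).1 hh)
    have a1 := hSm (σ x₀) hσx (σ z) ((hcount σ z).2 hz) (σ w) ((hcount σ w).2 hw)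
    rw [sw_adj_iff G S (σ x₀) (σ z) (σ w) (fun e => hxz (σ.injective e))
      (fun e => hxw (σ.injective e)), hσa, hσa, sw_adj_iff G X x₀ z w hxz hxw] at a1
    have a2 := hS₀m x₀ hx₀ z hz w hw
    rw [sw_adj_iff G S₀ x₀ z w hxz hxw] at a2
    rw [Finset.mem_symmDiff, Finset.mem_symmDiff]
    exact xor_key _ _ _ _ _ _ a1 a2
  by_cases hcase : (z₀ ∈ symmDiff X S₀ ↔ σ z₀ ∈ S)
  · left
    have e : (symmDiff X S₀ ∩ C).map σ.toEmbedding = S := by
      ext y
      obtain ⟨x, rfl⟩ := σ.surjective y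
      have e1 : σ x ∈ (symmDiff X S₀ ∩ C).map σ.toEmbedding ↔ x ∈ symmDiff X S₀ ∩ C := by
        constructor
        · intro hh
          obtain ⟨x', hx', hxx⟩ := Finset.mem_map.1 hh
          have : x' = x := σ.injective hxx
          rwa [← this]
        · intro hh
          exact Finset.mem_map.2 ⟨x, hh, rfl⟩
      rw [e1, Finset.mem_inter]
      constructor
      · rintro ⟨h1, h2⟩
        exact (same_key _ _ _ _ (key z₀ hz₀ x h2) hcase).1 h1
      · intro h1
        have h2 : x ∈ C := (hcount σ x).1 (hSD h1)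
        exact ⟨(same_key _ _ _ _ (key z₀ hz₀ x h2) hcase).2 h1, h2⟩
    rw [← Finset.card_map σ.toEmbedding, e]
  · right
    have e : (C \ symmDiff X S₀).map σ.toEmbedding = S := by
      ext y
      obtain ⟨x, rfl⟩ := σ.surjective y
      have e1 : σ x ∈ (C \ symmDiff X S₀).map σ.toEmbedding ↔ x ∈ C \ symmDiff X S₀ := by
        constructor
        · intro hh
          obtain ⟨x', hx', hxx⟩ := Finset.mem_map.1 hh
          have : x' = x := σ.injective hxx
          rwa [← this]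
        · intro hh
          exact Finset.mem_map.2 ⟨x, hh, rfl⟩
      rw [e1, Finset.mem_sdiff]
      constructor
      · rintro ⟨h1, h2⟩
        exact (opp_key _ _ _ _ (key z₀ hz₀ x h1) hcase).1 h2
      · intro h1
        have h2 : x ∈ C := (hcount σ x).1 (hSD h1)
        exact ⟨h2, (opp_key _ _ _ _ (key z₀ hz₀ x h2) hcase).2 h1⟩
    have h5 : (C \ symmDiff X S₀).card = S.card := by
      rw [← Finset.card_map σ.toEmbedding, e]
    have h6 := Finset.card_sdiff_add_card_inter C (symmDiff X S₀)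
    rw [Finset.inter_comm C] at h6
    omega

end Trace

open Trace

/-- Twins: few levels. -/
theorem twin_levels (p : ℕ) (G : SimpleGraph (Fin p)) (C S : Finset (Fin p))
    (hC : 2 * C.card < p) (hT : ∀ y ∈ C, ∀ z ∈ C, Tw (sw G S) y z) (M : Finset ℕ)
    (hM : 2 * M.card ≤ C.card + 1)
    (hX : ∀ X : Finset (Fin p), Nonempty (sw G X ≃g G) → (symmDiff X S ∩ C).card ∈ M)
    (H : SimpleGraph (Fin p)) (hdeck : SameDeck G H) : Nonempty (G ≃g H) := by
  classical
  by_contra hnot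
  set G₀ := sw G S with hG₀
  set c := C.card with hCc
  set φ : Finset (Fin p) → ℚ := fun T => ff G H (symmDiff S T) with hφ
  have hsw : ∀ T, sw G (symmDiff S T) = sw G₀ T := fun T => (sw_sw _ _ _).symm
  have hφsum : ∀ T, ∑ i : Fin p, φ (symmDiff T {i}) = 0 := by
    intro T
    have h1 := sum_ff hdeck (symmDiff S T)
    rw [← h1]
    refine Finset.sum_congr rfl fun i _ => ?_
    simp only [hφ]
    rw [symmDiff_assoc]
  have hφne : ∃ X, φ X ≠ 0 := by
    refine ⟨S, ?_⟩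
    have hp : 0 < p := by omega
    obtain ⟨T, hT⟩ := exists_sw hdeck ⟨0, hp⟩
    have h1 : 0 < cnt G H := cnt_pos G H T hT
    simp only [hφ]
    rw [symmDiff_self, Finset.bot_eq_empty, ff_empty hnot]
    exact h1.ne'
  have hφinv : ∀ τ ∈ FG G₀ (∅ : Finset (Fin p)), ∀ T, φ (T.map τ.toEmbedding) = φ T := by
    intro τ hτ T
    simp only [hφ, ff, hsw]
    have e : ∀ K, ind (sw G₀ (T.map τ.toEmbedding)) K = ind (sw G₀ T) K := fun K =>
      (ind_congr_left K ⟨isoSw (isoOf hτ) T⟩).symm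
    rw [e, e]
  have hφor : ∀ T, φ T ≠ 0 → Nonempty (sw G (symmDiff S T) ≃g G) ∨
      Nonempty (sw G (symmDiff S T) ≃g H) := by
    intro T hT
    by_contra hc
    push Not at hc
    apply hT
    simp only [hφ, ff]
    rw [ind_of_not _ _ (not_nonempty_iff.2 hc.1), ind_of_not _ _ (not_nonempty_iff.2 hc.2)]
    ring
  obtain ⟨h, hdeg, hne, hsupp, hval⟩ := t_HOM (Fin p) φ hφsum hφne C
  have hcard : ∀ X ⊆ C, ∀ X' ⊆ C, X.card = X'.card → h X = h X' := by
    intro X hX X' hX' hc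
    apply hval X hX X' hX' hc
    intro Y hY
    exact card_inv φ C (fun y hy z hz S => hφinv _ (swap_mem G₀ y z (hT y hy z hz)) S) Y hY
      _ X X' hX hX' hc rfl
  have hlevX : ∀ X, φ X ≠ 0 → (X ∩ C).card ∈ M := by
    intro X hX0
    have e1 : ∀ Z : Finset (Fin p), Z ∩ C = symmDiff S X ∩ C → symmDiff Z S ∩ C = X ∩ C := by
      intro Z hZ
      ext x
      have h1 : x ∈ Z ∩ C ↔ x ∈ symmDiff S X ∩ C := by rw [hZ]
      rw [Finset.mem_inter, Finset.mem_inter, Finset.mem_symmDiff] at h1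
      rw [Finset.mem_inter, Finset.mem_inter, Finset.mem_symmDiff]
      exact t5_aux _ _ _ _ h1
    rcases hφor X hX0 with h2 | h2
    · have h3 := hX _ h2
      rwa [e1 _ rfl] at h3
    · obtain ⟨X', h3, h4⟩ := trace_eq hdeck C hC _ h2
      have h5 := hX _ h4
      rwa [e1 _ h3] at h5
  have hex : ∀ k : ℕ, ∃ X : Finset (Fin p), X ⊆ C ∧ (k ≤ c → X.card = k) := by
    intro k
    by_cases hk : k ≤ c
    · have hk' : k ≤ C.card := hk
      obtain ⟨X, hX, hXc⟩ := Finset.exists_subset_card_eq hk'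
      exact ⟨X, hX, fun _ => hXc⟩
    · exact ⟨∅, empty_subset _, fun h => absurd h hk⟩
  choose s hs hsc using hex
  have hhval : ∀ X ⊆ C, h X = h (s X.card) := by
    intro X hX
    have hXn : X.card ≤ c := Finset.card_le_card hX
    exact hcard X hX _ (hs _) (hsc _ hXn).symm
  have hmob : ∀ T ⊆ C, mob h T =
      ∑ k ∈ range (T.card + 1), (-1 : ℚ) ^ k * ((T.card.choose k : ℕ) : ℚ) * h (s k) := by
    intro T hT
    unfold mob
    rw [Finset.sum_congr rfl (g := fun S => (fun k : ℕ => (-1 : ℚ) ^ k * h (s k)) S.card)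
      (fun S hS => by rw [hhval S ((mem_powerset.1 hS).trans hT)])]
    rw [Finset.sum_powerset_apply_card (fun k : ℕ => (-1 : ℚ) ^ k * h (s k))]
    refine sum_congr rfl fun k _ => ?_
    rw [nsmul_eq_mul]
    ring
  have halt : ∀ i, c / 2 < i → i ≤ c →
      ∑ k ∈ range (i + 1), (-1 : ℚ) ^ k * ((i.choose k : ℕ) : ℚ) * h (s k) = 0 := by
    intro i hji hin
    have h1 := hdeg (s i) (hs i) (by rw [hsc i hin]; exact hji)
    rw [hmob _ (hs i), hsc i hin] at h1
    exact h1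
  have hne' : ∃ k ≤ c, h (s k) ≠ 0 := by
    obtain ⟨X, hX, hfX⟩ := hne
    refine ⟨X.card, Finset.card_le_card hX, ?_⟩
    rw [← hhval X hX]
    exact hfX
  have hcount := BLC.count (fun k => h (s k)) (c / 2) c halt hne'
  have hsub : ((range (c + 1)).filter fun k => h (s k) ≠ 0) ⊆ M := by
    intro k hk
    rw [Finset.mem_filter, Finset.mem_range] at hk
    have hkc : k ≤ c := by omega
    obtain ⟨Y, hY, hφY⟩ := hsupp (s k) (hs k) hk.2
    have h2 := hlevX _ hφY
    have h3 : (s k ∪ Y) ∩ C = s k := by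
      ext x
      rw [Finset.mem_inter, Finset.mem_union]
      constructor
      · rintro ⟨h4 | h4, h5⟩
        · exact h4
        · exact absurd h5 (Finset.disjoint_left.1 hY h4)
      · intro h4
        exact ⟨Or.inl h4, hs k h4⟩
    rw [h3, hsc k hkc] at h2
    exact h2
  have h2 := Finset.card_le_card hsub
  omega

end Pool.Agent.NTW
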