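import Pool.Agent.NTW.Trace5

/-!
Parts which are sets of twins, prime quotient (helper78), for MP_e73337_co.
-/

set_option autoImplicit false

namespace Pool.Agent.NTW

open Finset Pool.Agent.Lib_helper61.SwitchBasic Fin5 TwinCls

namespace Trace

/-- The parts of a prime quotient are permuted by the automorphisms of the switching class. -/
theorem prime_image (p r : ℕ) (hr : 4 ≤ r) (B : SimpleGraph (Fin r))
    (hB : ∀ W : Finset (Fin r), IsMod B W → W.card ≤ 1 ∨ r ≤ W.card + 1)
    (G : SimpleGraph (Fin p)) (c : Fin p → Fin r) (hc : Function.Surjective c)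
    (hG : ∀ x y, c x ≠ c y → (G.Adj x y ↔ B.Adj (c x) (c y)))
    (hsz : ∀ i, 2 * (univ.filter fun x => c x = i).card < p)
    (σ : Equiv.Perm (Fin p)) (hσG : IsClassAut G σ) (x₀ : Fin p) :
    (univ.filter fun x => c x = c x₀).map σ.toEmbedding =
      univ.filter fun x => c x = c (σ x₀) := by
  classical
  set k : Fin p → ℕ := fun x => (c x : ℕ) with hk
  have hkc : ∀ x y, k x = k y ↔ c x = c y := by
    intro x y
    simp only [hk]
    exact ⟨fun h => Fin.ext h, fun h => by rw [h]⟩
  set P : Fin r → Finset (Fin p) := fun i => univ.filter fun x => c x = i with hP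
  have hmP : ∀ i x, x ∈ P i ↔ c x = i := fun i x => by simp [hP]
  have hpart : ∀ i : Fin r, part k (i : ℕ) = P i := by
    intro i
    ext x
    rw [mem_part, hmP]
    simp only [hk]
    exact ⟨fun h => Fin.ext h, fun h => by rw [h]⟩
  have htrue : ∀ x y z, c y = c z → c x ≠ c y → (G.Adj x y ↔ G.Adj x z) := by
    intro x y z h1 h2
    rw [hG x y h2, hG x z (by rw [← h1]; exact h2), h1]
  have hmod : ∀ i, IsMod G (part k i) := by
    intro i z hz w hw
    left
    intro x hx
    rw [mem_part] at hz hw hx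
    have h1 : c z = c w := (hkc z w).1 (hz.trans hw.symm)
    have h2 : c x ≠ c z := fun h => hx (((hkc x z).2 h).trans hz)
    exact htrue x z w h1 h2
  have himg : (univ.image k).card = r := by
    have h1 : univ.image k = univ.image (fun i : Fin r => (i : ℕ)) := by
      ext j
      simp only [hk, Finset.mem_image, Finset.mem_univ, true_and]
      constructor
      · rintro ⟨x, rfl⟩
        exact ⟨c x, rfl⟩
      · rintro ⟨i, rfl⟩
        obtain ⟨x, rfl⟩ := hc i
        exact ⟨x, rfl⟩
    rw [h1, Finset.card_image_of_injective _ Fin.val_injective, Finset.card_univ, Fintype.card_fin]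
  have hprime : PrimeQ G k := by
    intro W hW hWu
    set W' : Finset (Fin r) := W.image c with hW'
    have hmW : ∀ x, c x ∈ W' ↔ x ∈ W := by
      intro x
      rw [hW', Finset.mem_image]
      constructor
      · rintro ⟨y, hy, hyx⟩
        exact hWu y hy x ((hkc x y).2 hyx.symm)
      · intro hx
        exact ⟨x, hx, rfl⟩
    have hB' : IsMod B W' := by
      intro i hi j hj
      obtain ⟨z, rfl⟩ := hc i
      obtain ⟨w, rfl⟩ := hc j
      rw [hmW] at hi hj
      rcases hW z hi w hj with h1 | h1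
      · left
        intro l hl
        obtain ⟨x, rfl⟩ := hc l
        rw [hmW] at hl
        have h2 := h1 x hl
        rwa [hG x z (fun h => hl (hWu z hi x ((hkc x z).2 h))),
          hG x w (fun h => hl (hWu w hj x ((hkc x w).2 h)))] at h2
      · right
        intro l hl
        obtain ⟨x, rfl⟩ := hc l
        rw [hmW] at hl
        have h2 := h1 x hl
        rwa [hG x z (fun h => hl (hWu z hi x ((hkc x z).2 h))),
          hG x w (fun h => hl (hWu w hj x ((hkc x w).2 h)))] at h2
    rcases hB W' hB' with h1 | h1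
    · left
      intro x hx y hy
      rw [hkc]
      rw [Finset.card_le_one] at h1
      exact h1 (c x) ((hmW x).2 hx) (c y) ((hmW y).2 hy)
    · right
      intro x hx y hy
      rw [hkc]
      have h2 : W'ᶜ.card ≤ 1 := by
        rw [Finset.card_compl, Fintype.card_fin]
        omega
      rw [Finset.card_le_one] at h2
      exact h2 (c x) (Finset.mem_compl.2 fun h => hx ((hmW x).1 h)) (c y)
        (Finset.mem_compl.2 fun h => hy ((hmW y).1 h))
  have hsize : ∀ i, 2 * (part k i).card < Fintype.card (Fin p) := by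
    intro i
    rw [Fintype.card_fin]
    by_cases hi : i < r
    · have h1 := hpart ⟨i, hi⟩
      have h2 : part k i = P ⟨i, hi⟩ := h1
      rw [h2]
      exact hsz _
    · have h1 : part k i = ∅ := by
        apply Finset.eq_empty_of_forall_notMem
        intro x hx
        rw [mem_part] at hx
        apply hi
        rw [← hx]
        exact (c x).isLt
      rw [h1, Finset.card_empty]
      obtain ⟨x, -⟩ := hc ⟨0, by omega⟩
      have := x.isLt
      omega
  have hperm := t_INVB t_INVA (Fin p) G k hmod (by rw [himg]; exact hr) hprime hsize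
  -- the inverse
  have hσi : IsClassAut G σ⁻¹ := by
    obtain ⟨S, hS⟩ := hσG
    have φ : ∃ φ : sw G S ≃g sw G ∅, φ.toEquiv = σ⁻¹ := by
      refine ⟨{ toEquiv := σ⁻¹, map_rel_iff' := ?_ }, rfl⟩
      intro u v
      rw [sw_empty]
      have h1 := hS (σ⁻¹ u) (σ⁻¹ v)
      rw [show σ (σ⁻¹ u) = u from σ.apply_symm_apply u,
        show σ (σ⁻¹ v) = v from σ.apply_symm_apply v] at h1
      exact h1.symm
    obtain ⟨φ, hφ⟩ := φ
    have h1 := classAut_of_iso G S ∅ φ
    rwa [hφ] at h1
  have hp1 : ∀ x y, c x = c y → c (σ x) = c (σ y) := fun x y h =>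
    (hkc _ _).1 (hperm σ hσG x y ((hkc _ _).2 h))
  have hp2 : ∀ x y, c (σ x) = c (σ y) → c x = c y := by
    intro x y h
    have h1 := (hkc _ _).1 (hperm σ⁻¹ hσi (σ x) (σ y) ((hkc _ _).2 h))
    rwa [show σ⁻¹ (σ x) = x from σ.symm_apply_apply x,
      show σ⁻¹ (σ y) = y from σ.symm_apply_apply y] at h1
  change (P (c x₀)).map σ.toEmbedding = P (c (σ x₀))
  ext y
  obtain ⟨x, rfl⟩ := σ.surjective y
  rw [hmP, Finset.mem_map]
  constructor
  · rintro ⟨x', hx', hxx⟩
    have h1 : x' = x := σ.injective hxx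
    rw [h1, hmP] at hx'
    exact hp1 _ _ hx'
  · intro h
    refine ⟨x, ?_, rfl⟩
    rw [hmP]
    exact hp2 _ _ h

end Trace

open Trace

/-- Substitution into a graph with prime two-graph, one part complete or empty: few different sizes
of the sides are enough. -/
theorem prime_twins (p r : ℕ) (hr : 4 ≤ r) (B : SimpleGraph (Fin r))
    (hB : ∀ W : Finset (Fin r), IsMod B W → W.card ≤ 1 ∨ r ≤ W.card + 1)
    (G : SimpleGraph (Fin p)) (c : Fin p → Fin r) (hc : Function.Surjective c)
    (hG : ∀ x y, c x ≠ c y → (G.Adj x y ↔ B.Adj (c x) (c y)))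
    (hsz : ∀ i, 2 * (univ.filter fun x => c x = i).card < p)
    (n : ℕ) (i₀ : Fin r) (hi₀ : (univ.filter fun x => c x = i₀).card = n)
    (hom : (∀ x y, c x = i₀ → c y = i₀ → x ≠ y → G.Adj x y) ∨
      (∀ x y, c x = i₀ → c y = i₀ → ¬ G.Adj x y))
    (X : Finset (Fin p)) (M : Finset ℕ) (hM : 2 * M.card ≤ n + 1)
    (hX : ∀ i, (univ.filter fun x => c x = i).card = n →
      ((univ.filter fun x => c x = i) ∩ X).card ∈ M ∧
      ((univ.filter fun x => c x = i) \ X).card ∈ M)
    (H : SimpleGraph (Fin p)) (hdeck : SameDeck (sw G X) H) : Nonempty (sw G X ≃g H) := by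
  classical
  have htrue : ∀ x y z, c y = c z → c x ≠ c y → (G.Adj x y ↔ G.Adj x z) := by
    intro x y z h1 h2
    rw [hG x y h2, hG x z (by rw [← h1]; exact h2), h1]
  set P : Fin r → Finset (Fin p) := fun i => univ.filter fun x => c x = i with hP
  have hmP : ∀ i x, x ∈ P i ↔ c x = i := fun i x => by simp [hP]
  have hi₀' : (P i₀).card = n := hi₀
  have hadj : ∀ j : Fin r, ∀ S : Finset (Fin p), (∀ y ∈ P j, ∀ z ∈ P j,
      (y ∈ symmDiff X S ↔ z ∈ symmDiff X S)) →
      ∀ x, x ∉ P j → ∀ y ∈ P j, ∀ z ∈ P j,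
      ((sw (sw G X) S).Adj x y ↔ (sw (sw G X) S).Adj x z) := by
    intro j S hS x hx y hy z hz
    rw [sw_sw, sw_adj_iff G _ x y z (fun e => hx (e ▸ hy)) (fun e => hx (e ▸ hz))]
    have h1 := hS y hy z hz
    have h2 : G.Adj x y ↔ G.Adj x z := by
      rw [hmP] at hx hy hz
      exact htrue x y z (hy.trans hz.symm) (fun h => hx (h.trans hy))
    exact ⟨fun _ => h1, fun _ => h2⟩
  have hflat : ∀ j : Fin r, ∀ y ∈ P j, y ∉ symmDiff X (P j ∩ X) := by
    intro j y hy h
    rw [Finset.mem_symmDiff, Finset.mem_inter] at h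
    tauto
  have hhon : ∀ j : Fin r, ∀ x, x ∉ P j → ∀ y ∈ P j, ∀ z ∈ P j,
      ((sw (sw G X) (P j ∩ X)).Adj x y ↔ (sw (sw G X) (P j ∩ X)).Adj x z) := by
    intro j
    apply hadj
    intro y hy z hz
    exact ⟨fun h => absurd h (hflat j y hy), fun h => absurd h (hflat j z hz)⟩
  refine twin_levels p (sw G X) (P i₀) (P i₀ ∩ X) (hsz i₀) ?_ M (by rw [hi₀']; exact hM) ?_ H hdeck
  · intro y hy z hz x hxy hxz
    by_cases hx : x ∈ P i₀
    · rw [sw_sw, sw_adj_iff G _ x y z hxy hxz]
      have a1 := hflat i₀ y hy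
      have a2 := hflat i₀ z hz
      rw [hmP] at hx hy hz
      rcases hom with h | h
      · exact ⟨fun _ => ⟨fun b => absurd b a1, fun b => absurd b a2⟩,
          fun _ => ⟨fun _ => h x z hx hz hxz, fun _ => h x y hx hy hxy⟩⟩
      · exact ⟨fun _ => ⟨fun b => absurd b a1, fun b => absurd b a2⟩,
          fun _ => ⟨fun b => absurd b (h x y hx hy), fun b => absurd b (h x z hx hz)⟩⟩
    · exact hhon i₀ x hx y hy z hz
  · rintro X' ⟨φ⟩
    obtain ⟨x₀, hx₀⟩ := hc i₀
    have φ' : sw (sw G X) X' ≃g sw (sw G X) ∅ := by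
      rw [sw_empty (sw G X)]
      exact φ
    have hcl : IsClassAut (sw G X) φ.toEquiv := by
      refine ⟨X'.map φ.toEquiv.toEmbedding, fun u v => ?_⟩
      have h2 : (sw (sw G X) (X'.map φ.toEquiv.toEmbedding)).Adj (φ.toEquiv u) (φ.toEquiv v) ↔
          (sw (sw (sw G X) X') X').Adj u v := (isoSw φ X').map_rel_iff'
      rw [sw_sw (sw G X), symmDiff_self, Finset.bot_eq_empty, sw_empty] at h2
      exact h2
    have himg := prime_image p r hr B hB G c hc hG hsz φ.toEquiv
      (classAut_sw G X φ.toEquiv hcl) x₀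
    rw [hx₀] at himg
    have himg' : (P i₀).map φ.toEquiv.toEmbedding = P (c (φ.toEquiv x₀)) := himg
    set j := c (φ.toEquiv x₀) with hj
    have hjc : (P j).card = n := by
      rw [← himg', Finset.card_map]
      exact hi₀'
    have hp0 : (P i₀).card < p := by
      have h3 : 2 * (P i₀).card < p := hsz i₀
      omega
    have hcut := cut_card p (sw G X) (P i₀) (P i₀ ∩ X) X' (P j ∩ X) hp0
      ⟨x₀, (hmP _ _).2 hx₀⟩ (hhon i₀) φ
      (by rw [himg']; exact Finset.inter_subset_left)
      (by rw [himg']; exact hhon j)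
    have hXj := hX j hjc
    rcases hcut with h3 | h3
    · rw [h3]
      exact hXj.1
    · rw [h3, hi₀']
      have h4 : (P j \ X).card = n - (P j ∩ X).card := by
        have := Finset.card_sdiff_add_card_inter (P j) X
        omega
      have h5 : (P j \ X).card ∈ M := hXj.2
      rwa [h4] at h5

end Pool.Agent.NTW
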