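import Pool.Agent.NTW.Trace6

/-!
Parts with few automorphisms (helper78), for MP_e73337_co.
-/

set_option autoImplicit false

namespace Pool.Agent.NTW

open Finset Pool.Agent.Lib_helper61.SwitchBasic Fin5 TwinCls

namespace Trace

theorem t7_aux1 (a b e P Q : Prop) (hP : P) (hQ : Q)
    (h : (b ∧ ¬ (P ∧ a) ∨ (P ∧ a) ∧ ¬ b) ↔ (Q ∧ e)) :
    (P ∧ (a ↔ (e ↔ false = true))) ↔ (b ∧ P) := by
  by_cases b1 : a <;> by_cases b2 : b <;> by_cases b3 : e <;> simp_all

theorem t7_aux2 (a b e P Q : Prop) (hP : P) (hQ : Q)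
    (h : ¬ (b ∧ ¬ (P ∧ a) ∨ (P ∧ a) ∧ ¬ b) ↔ (Q ∧ e)) :
    (P ∧ (a ↔ (e ↔ True))) ↔ (b ∧ P) := by
  by_cases b1 : a <;> by_cases b2 : b <;> by_cases b3 : e <;> simp_all

theorem cut_sets (p : ℕ) (G : SimpleGraph (Fin p)) (C S₀ X S : Finset (Fin p))
    (hCp : C.card < p) (hCn : C.Nonempty)
    (hS₀m : ∀ x, x ∉ C → ∀ y ∈ C, ∀ z ∈ C, ((sw G S₀).Adj x y ↔ (sw G S₀).Adj x z))
    (φ : sw G X ≃g G)
    (hSm : ∀ x, x ∉ C.map φ.toEquiv.toEmbedding → ∀ y ∈ C.map φ.toEquiv.toEmbedding,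
      ∀ z ∈ C.map φ.toEquiv.toEmbedding, ((sw G S).Adj x y ↔ (sw G S).Adj x z)) :
    (∀ z ∈ C, (z ∈ symmDiff X S₀ ↔ φ.toEquiv z ∈ S)) ∨
      (∀ z ∈ C, (¬ z ∈ symmDiff X S₀ ↔ φ.toEquiv z ∈ S)) := by
  classical
  have hcount : ∀ (σ : Equiv.Perm (Fin p)) (w : Fin p), σ w ∈ C.map σ.toEmbedding ↔ w ∈ C := by
    intro σ w
    constructor
    · intro hh
      obtain ⟨x, hx, hxw⟩ := Finset.mem_map.1 hh
      have : x = w := σ.injective hxw
      rwa [← this]
    · intro hh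
      exact Finset.mem_map.2 ⟨w, hh, rfl⟩
  obtain ⟨z₀, hz₀⟩ := hCn
  obtain ⟨x₀, -, hx₀⟩ := Finset.exists_mem_notMem_of_card_lt_card
    (show C.card < (univ : Finset (Fin p)).card by
      rw [Finset.card_univ, Fintype.card_fin]
      exact hCp)
  set σ : Equiv.Perm (Fin p) := φ.toEquiv with hσ
  have hσa : ∀ u v, G.Adj (σ u) (σ v) ↔ (sw G X).Adj u v := fun u v => φ.map_rel_iff'
  -- the parts
  have key : ∀ z ∈ C, ∀ w ∈ C, ((z ∈ symmDiff X S₀ ↔ w ∈ symmDiff X S₀) ↔ (σ z ∈ S ↔ σ w ∈ S)) := by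
    intro z hz w hw
    have hxz : x₀ ≠ z := fun e => hx₀ (e ▸ hz)
    have hxw : x₀ ≠ w := fun e => hx₀ (e ▸ hw)
    have hσx : σ x₀ ∉ C.map σ.toEmbedding := fun hh => hx₀ ((hcount σ x₀).1 hh)
    have a1 := hSm (σ x₀) hσx (σ z) ((hcount σ z).2 hz) (σ w) ((hcount σ w).2 hw)
    rw [sw_adj_iff G S (σ x₀) (σ z) (σ w) (fun e => hxz (σ.injective e))
      (fun e => hxw (σ.injective e)), hσa, hσa, sw_adj_iff G X x₀ z w hxz hxw] at a1
    have a2 := hS₀m x₀ hx₀ z hz w hw
    rw [sw_adj_iff G S₀ x₀ z w hxz hxw] at a2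
    rw [Finset.mem_symmDiff, Finset.mem_symmDiff]
    exact xor_key _ _ _ _ _ _ a1 a2
  by_cases hcase : (z₀ ∈ symmDiff X S₀ ↔ σ z₀ ∈ S)
  · left
    intro x h2
    exact same_key _ _ _ _ (key z₀ hz₀ x h2) hcase
  · right
    intro x h2
    exact opp_key _ _ _ _ (key z₀ hz₀ x h2) hcase

end Trace

open Trace

/-- Substitution into a graph with prime two-graph, one part with few automorphisms: the whole
switching class. -/
theorem prime_aut (p r : ℕ) (hr : 4 ≤ r) (B : SimpleGraph (Fin r))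
    (hB : ∀ W : Finset (Fin r), IsMod B W → W.card ≤ 1 ∨ r ≤ W.card + 1)
    (G : SimpleGraph (Fin p)) (c : Fin p → Fin r) (hc : Function.Surjective c)
    (hG : ∀ x y, c x ≠ c y → (G.Adj x y ↔ B.Adj (c x) (c y)))
    (hsz : ∀ i, 2 * (univ.filter fun x => c x = i).card < p)
    (i₀ : Fin r) (X : Finset (Fin p))
    (hcount : 2 * ({j : Fin r | Nonempty (G.induce {x | c x = i₀} ≃g G.induce {x | c x = j})}.ncard *
      Nat.card (G.induce {x | c x = i₀} ≃g G.induce {x | c x = i₀})) <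
        2 ^ (((univ.filter fun x => c x = i₀).card + 1) / 2))
    (H : SimpleGraph (Fin p)) (hdeck : SameDeck (sw G X) H) : Nonempty (sw G X ≃g H) := by
  classical
  have htrue : ∀ x y z, c y = c z → c x ≠ c y → (G.Adj x y ↔ G.Adj x z) := by
    intro x y z h1 h2
    rw [hG x y h2, hG x z (by rw [← h1]; exact h2), h1]
  set P : Fin r → Finset (Fin p) := fun i => univ.filter fun x => c x = i with hP
  have hmP : ∀ i x, x ∈ P i ↔ c x = i := fun i x => by simp [hP]
  have hadj : ∀ j : Fin r, ∀ S : Finset (Fin p), (∀ y ∈ P j, ∀ z ∈ P j,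
      (y ∈ symmDiff X S ↔ z ∈ symmDiff X S)) →
      ∀ x, x ∉ P j → ∀ y ∈ P j, ∀ z ∈ P j,
      ((sw (sw G X) S).Adj x y ↔ (sw (sw G X) S).Adj x z) := by
    intro j S hS x hx y hy z hz
    rw [sw_sw, sw_adj_iff G _ x y z (fun e => hx (e ▸ hy)) (fun e => hx (e ▸ hz))]
    have h1 := hS y hy z hz
    have h2 : G.Adj x y ↔ G.Adj x z := by
      rw [hmP] at hx hy hz
      exact htrue x y z (hy.trans hz.symm) (fun h => hx (h.trans hy))
    exact ⟨fun _ => h1, fun _ => h2⟩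
  have hflat : ∀ j : Fin r, ∀ y ∈ P j, y ∉ symmDiff X (P j ∩ X) := by
    intro j y hy h
    rw [Finset.mem_symmDiff, Finset.mem_inter] at h
    tauto
  have hhon : ∀ j : Fin r, ∀ x, x ∉ P j → ∀ y ∈ P j, ∀ z ∈ P j,
      ((sw (sw G X) (P j ∩ X)).Adj x y ↔ (sw (sw G X) (P j ∩ X)).Adj x z) := by
    intro j
    apply hadj
    intro y hy z hz
    exact ⟨fun h => absurd h (hflat j y hy), fun h => absurd h (hflat j z hz)⟩
  obtain ⟨x₀, hx₀⟩ := hc i₀
  have hp0 : (P i₀).card < p := by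
    have h3 : 2 * (P i₀).card < p := hsz i₀
    omega
  obtain ⟨x₁, -, hx₁⟩ := Finset.exists_mem_notMem_of_card_lt_card
    (show (P i₀).card < (univ : Finset (Fin p)).card by
      rw [Finset.card_univ, Fintype.card_fin]
      exact hp0)
  -- the isomorphisms between the parts
  set J : Set (Fin r) := {j | Nonempty (G.induce {x | c x = i₀} ≃g G.induce {x | c x = j})} with hJ
  have : Finite (G.induce {x | c x = i₀} ≃g G.induce {x | c x = i₀}) :=
    Finite.of_injective (fun e => e.toEquiv) (fun a b h => RelIso.toEquiv_injective h)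
  let θ : ∀ j : J, (G.induce {x | c x = i₀} ≃g G.induce {x | c x = j.1}) :=
    fun j => Classical.choice j.2
  set F : (J × (G.induce {x | c x = i₀} ≃g G.induce {x | c x = i₀}) × Bool) → Finset (Fin p) :=
    fun t => (P i₀).filter fun z => if hz : c z = i₀ then
      ((z ∈ X) ↔ ((((θ t.1 (t.2.1 ⟨z, hz⟩)) : {x | c x = t.1.1}) : Fin p) ∈ X ↔ t.2.2 = true))
      else False with hF
  have hsub : {Q : Finset (Fin p) | ∃ Z : Finset (Fin p), Nonempty (sw (sw G X) Z ≃g sw G X) ∧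
      Q = Z ∩ P i₀} ⊆ Set.range F := by
    rintro Q ⟨Z, ⟨φ⟩, rfl⟩
    have hcl : IsClassAut (sw G X) φ.toEquiv := by
      refine ⟨Z.map φ.toEquiv.toEmbedding, fun u v => ?_⟩
      have h2 : (sw (sw G X) (Z.map φ.toEquiv.toEmbedding)).Adj (φ.toEquiv u) (φ.toEquiv v) ↔
          (sw (sw (sw G X) Z) Z).Adj u v := (isoSw φ Z).map_rel_iff'
      rw [sw_sw (sw G X), symmDiff_self, Finset.bot_eq_empty, sw_empty] at h2
      exact h2
    have hclG := classAut_sw G X φ.toEquiv hcl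
    have himg := prime_image p r hr B hB G c hc hG hsz φ.toEquiv hclG x₀
    rw [hx₀] at himg
    set j := c (φ.toEquiv x₀) with hj
    have himg' : (P i₀).map φ.toEquiv.toEmbedding = P j := himg
    have hmap : ∀ z, c (φ.toEquiv z) = j ↔ c z = i₀ := by
      intro z
      rw [← hmP, ← himg', ← hmP, Finset.mem_map]
      constructor
      · rintro ⟨z', hz', h⟩
        have : z' = z := φ.toEquiv.injective h
        rwa [← this]
      · intro h
        exact ⟨z, h, rfl⟩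
    -- the restriction of `φ` is an isomorphism
    have hres : ∀ u v, c u = i₀ → c v = i₀ →
        (G.Adj (φ.toEquiv u) (φ.toEquiv v) ↔ G.Adj u v) := by
      intro u v hu hv
      by_cases huv : u = v
      · rw [huv]
        simp
      obtain ⟨S, hS⟩ := hclG
      have hxu : x₁ ≠ u := fun e => hx₁ (by rw [e]; exact (hmP _ _).2 hu)
      have hxv : x₁ ≠ v := fun e => hx₁ (by rw [e]; exact (hmP _ _).2 hv)
      have hcx : c x₁ ≠ i₀ := fun e => hx₁ ((hmP _ _).2 e)
      have a1 := htrue x₁ u v (hu.trans hv.symm) (fun e => hcx (e.trans hu))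
      have a2 := htrue (φ.toEquiv x₁) (φ.toEquiv u) (φ.toEquiv v)
        (((hmap u).2 hu).trans ((hmap v).2 hv).symm)
        (fun e => hcx ((hmap x₁).1 (e.trans ((hmap u).2 hu))))
      have a3 := sw_adj_iff G S (φ.toEquiv x₁) (φ.toEquiv u) (φ.toEquiv v)
        (fun e => hxu (φ.toEquiv.injective e)) (fun e => hxv (φ.toEquiv.injective e))
      rw [hS, hS] at a3
      have a4 : (φ.toEquiv u ∈ S ↔ φ.toEquiv v ∈ S) := (a3.1 a1).1 a2
      have a5 := hS u v
      rw [sw_adj] at a5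
      have a6 : φ.toEquiv u ≠ φ.toEquiv v := fun e => huv (φ.toEquiv.injective e)
      rw [← a5]
      exact ⟨fun h => ⟨a6, fun _ => a4, fun _ => h⟩, fun h => h.2.2 a4⟩
    have ψ : ∃ ψ : G.induce {x | c x = i₀} ≃g G.induce {x | c x = j},
        ∀ z : {x | c x = i₀}, ((ψ z : {x | c x = j}) : Fin p) = φ.toEquiv z := by
      refine ⟨{ toFun := fun z => ⟨φ.toEquiv z.1, (hmap z.1).2 z.2⟩
                invFun := fun z => ⟨φ.toEquiv.symm z.1, by
                  show c (φ.toEquiv.symm z.1) = i₀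
                  rw [← hmap, Equiv.apply_symm_apply]
                  exact z.2⟩
                left_inv := fun z => Subtype.ext (φ.toEquiv.symm_apply_apply z.1)
                right_inv := fun z => Subtype.ext (φ.toEquiv.apply_symm_apply z.1)
                map_rel_iff' := ?_ }, fun z => rfl⟩
      intro u v
      exact hres u.1 v.1 u.2 v.2
    obtain ⟨ψ, hψ⟩ := ψ
    have hjJ : j ∈ J := ⟨ψ⟩
    have hcut := cut_sets p (sw G X) (P i₀) (P i₀ ∩ X) Z (P j ∩ X) hp0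
      ⟨x₀, (hmP _ _).2 hx₀⟩ (hhon i₀) φ (by rw [himg']; exact hhon j)
    have hval : ∀ z (hz : c z = i₀), (((θ ⟨j, hjJ⟩ ((ψ.trans (θ ⟨j, hjJ⟩).symm) ⟨z, hz⟩)) :
        {x | c x = j}) : Fin p) = φ.toEquiv z := by
      intro z hz
      rw [RelIso.trans_apply, RelIso.apply_symm_apply]
      exact hψ ⟨z, hz⟩
    rcases hcut with h1 | h1
    · refine ⟨(⟨j, hjJ⟩, ψ.trans (θ ⟨j, hjJ⟩).symm, false), ?_⟩
      ext z
      simp only [hF]
      rw [Finset.mem_filter, Finset.mem_inter]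
      by_cases hz : c z = i₀
      · rw [dif_pos hz, hval z hz]
        have hzP : z ∈ P i₀ := (hmP _ _).2 hz
        have h2 := h1 z hzP
        have h3 : φ.toEquiv z ∈ P j := (hmP _ _).2 ((hmap z).2 hz)
        rw [Finset.mem_symmDiff, Finset.mem_inter, Finset.mem_inter] at h2
        exact t7_aux1 _ _ _ _ _ hzP h3 h2
      · have : z ∉ P i₀ := fun h => hz ((hmP _ _).1 h)
        exact ⟨fun h => absurd h.1 this, fun h => absurd h.2 this⟩
    · refine ⟨(⟨j, hjJ⟩, ψ.trans (θ ⟨j, hjJ⟩).symm, true), ?_⟩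
      ext z
      simp only [hF]
      rw [Finset.mem_filter, Finset.mem_inter]
      by_cases hz : c z = i₀
      · rw [dif_pos hz, hval z hz]
        have hzP : z ∈ P i₀ := (hmP _ _).2 hz
        have h2 := h1 z hzP
        have h3 : φ.toEquiv z ∈ P j := (hmP _ _).2 ((hmap z).2 hz)
        rw [Finset.mem_symmDiff, Finset.mem_inter, Finset.mem_inter] at h2
        exact t7_aux2 _ _ _ _ _ hzP h3 h2
      · have : z ∉ P i₀ := fun h => hz ((hmP _ _).1 h)
        exact ⟨fun h => absurd h.1 this, fun h => absurd h.2 this⟩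
  refine few_traces p (sw G X) (P i₀) (hsz i₀) ?_ H hdeck
  refine lt_of_le_of_lt ?_ hcount
  have h1 := Set.ncard_le_ncard hsub (Set.toFinite _)
  refine h1.trans ?_
  have h2 : (Set.range F).ncard ≤ Nat.card (J × (G.induce {x | c x = i₀} ≃g
      G.induce {x | c x = i₀}) × Bool) := by
    rw [← Nat.card_coe_set_eq]
    exact Finite.card_range_le F
  refine h2.trans ?_
  rw [Nat.card_prod, Nat.card_prod, Nat.card_eq_fintype_card (α := Bool), Fintype.card_bool,
    Nat.card_coe_set_eq]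
  apply le_of_eq
  ring

end Pool.Agent.NTW
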