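import Pool.Agent.NTW.Trace7
import Pool.Agent.NTW.MREP
import Pool.Agent.NTW.Fin5

/-!
The parts of the centroid of a graph which is not switching-reconstructible have many automorphisms
(helper78), for MP_e73337_co.
-/

set_option autoImplicit false

namespace Pool.Agent.NTW

open Finset Pool.Agent.Lib_helper61.SwitchBasic Fin5

/-- In a graph which is not switching-reconstructible, partitioned into modules (up to switching)
with fewer than half of the vertices with prime quotient, every part has many automorphisms. -/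
theorem part_bounds (p : ℕ) (G H : SimpleGraph (Fin p)) (hdeck : SameDeck G H)
    (hne : ¬ Nonempty (G ≃g H)) (c : Fin p → ℕ) (hmod : ∀ i, IsMod G (Fin5.part c i))
    (hs : ∀ i, 2 * (Fin5.part c i).card < p) (h4 : 4 ≤ (univ.image c).card)
    (hP : PrimeQ G c) : ∃ S : Finset (Fin p), TrueMod (sw G S) c ∧
      ∀ i ∈ univ.image c, 2 ^ (((Fin5.part c i).card + 1) / 2) ≤
        2 * ({j : ℕ | j ∈ univ.image c ∧ Nonempty ((sw G S).induce {x | c x = i} ≃g
            (sw G S).induce {x | c x = j})}.ncard *
          Nat.card ((sw G S).induce {x | c x = i} ≃g (sw G S).induce {x | c x = i})) := by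
  classical
  obtain ⟨S, hS⟩ := t_REP (Fin p) G c hmod
  refine ⟨S, hS, fun i hi => ?_⟩
  set G' := sw G S with hG'
  have hGG : sw G' S = G := by
    rw [hG', sw_sw, symmDiff_self, Finset.bot_eq_empty, sw_empty]
  set r := (univ.image c).card with hr
  let e : {j // j ∈ univ.image c} ≃ Fin r := (univ.image c).equivFin
  have hmem : ∀ x, c x ∈ univ.image c := fun x => Finset.mem_image_of_mem c (Finset.mem_univ x)
  let π : Fin p → Fin r := fun x => e ⟨c x, hmem x⟩
  have hπ : ∀ x y, π x = π y ↔ c x = c y := by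
    intro x y
    constructor
    · intro h
      exact congrArg Subtype.val (e.injective h)
    · intro h
      show e ⟨c x, hmem x⟩ = e ⟨c y, hmem y⟩
      congr 1
      exact Subtype.ext h
  have hsurj : Function.Surjective π := by
    intro k
    obtain ⟨x, -, hx⟩ := Finset.mem_image.1 (e.symm k).2
    refine ⟨x, ?_⟩
    show e ⟨c x, hmem x⟩ = k
    have h1 : (⟨c x, hmem x⟩ : {j // j ∈ univ.image c}) = e.symm k := Subtype.ext hx
    rw [h1, Equiv.apply_symm_apply]
  let B : SimpleGraph (Fin r) :=
    { Adj := fun a b => a ≠ b ∧ ∃ x y, π x = a ∧ π y = b ∧ G'.Adj x y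
      symm := by
        constructor
        rintro a b ⟨h1, x, y, h2, h3, h4⟩
        exact ⟨h1.symm, y, x, h3, h2, h4.symm⟩
      loopless := by
        constructor
        rintro a ⟨h1, -⟩
        exact h1 rfl }
  have hB : ∀ x y, π x ≠ π y → (G'.Adj x y ↔ B.Adj (π x) (π y)) := by
    intro x y hxy
    constructor
    · intro h
      exact ⟨hxy, x, y, rfl, rfl, h⟩
    · rintro ⟨-, x', y', h1, h2, h3⟩
      have c1 : c x' = c x := (hπ _ _).1 h1
      have c2 : c y' = c y := (hπ _ _).1 h2
      have c3 : c x ≠ c y := fun h => hxy ((hπ _ _).2 h)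
      have h4 := (hS x' y' y c2 (by rw [c1, c2]; exact c3)).1 h3
      exact ((hS y x' x c1 (by rw [c1]; exact c3.symm)).1 h4.symm).symm
  have hprime : ∀ W : Finset (Fin r), IsMod B W → W.card ≤ 1 ∨ r ≤ W.card + 1 := by
    intro W hW
    have hmW : ∀ x, x ∈ univ.filter (fun x => π x ∈ W) ↔ π x ∈ W := fun x => by simp
    have h1 : IsMod G' (univ.filter fun x => π x ∈ W) := by
      intro z hz w hw
      rw [hmW] at hz hw
      have h2 : ∀ x, π x ∉ W → ((G'.Adj x z ↔ G'.Adj x w) ↔
          (B.Adj (π x) (π z) ↔ B.Adj (π x) (π w))) := by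
        intro x hx
        rw [hB x z (fun h => hx (h ▸ hz)), hB x w (fun h => hx (h ▸ hw))]
      rcases hW (π z) hz (π w) hw with h3 | h3
      · left
        intro x hx
        rw [hmW] at hx
        exact (h2 x hx).2 (h3 (π x) hx)
      · right
        intro x hx
        rw [hmW] at hx
        exact fun h => h3 (π x) hx ((h2 x hx).1 h)
    have h2 : IsMod G (univ.filter fun x => π x ∈ W) := by
      rw [← hGG]
      exact mod_sw G' S _ h1
    rcases hP _ h2 (fun x hx y hxy => by
      rw [hmW] at hx ⊢
      rwa [(hπ y x).2 hxy]) with h3 | h3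
    · left
      rw [Finset.card_le_one]
      intro a ha b hb
      obtain ⟨x, rfl⟩ := hsurj a
      obtain ⟨y, rfl⟩ := hsurj b
      exact (hπ x y).2 (h3 x ((hmW x).2 ha) y ((hmW y).2 hb))
    · right
      have h5 : Wᶜ.card ≤ 1 := by
        rw [Finset.card_le_one]
        intro a ha b hb
        obtain ⟨x, rfl⟩ := hsurj a
        obtain ⟨y, rfl⟩ := hsurj b
        rw [Finset.mem_compl] at ha hb
        exact (hπ x y).2 (h3 x (fun h => ha ((hmW x).1 h)) y (fun h => hb ((hmW y).1 h)))
      rw [Finset.card_compl, Fintype.card_fin] at h5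
      omega
  set k : Fin r := e ⟨i, hi⟩ with hk
  have hset : ∀ j (hj : j ∈ univ.image c), {x | π x = e ⟨j, hj⟩} = {x | c x = j} := by
    intro j hj
    ext x
    show e ⟨c x, hmem x⟩ = e ⟨j, hj⟩ ↔ c x = j
    rw [e.injective.eq_iff, Subtype.mk.injEq]
  have hfil : (univ.filter fun x => π x = k) = Fin5.part c i := by
    ext x
    rw [Finset.mem_filter]
    have h1 := Set.ext_iff.1 (hset i hi) x
    simp only [Set.mem_ofPred_eq] at h1
    rw [← hk] at h1
    rw [h1]
    simp [Fin5.part]
  have hsz : ∀ a, 2 * (univ.filter fun x => π x = a).card < p := by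
    intro a
    obtain ⟨y, rfl⟩ := hsurj a
    have h1 : (univ.filter fun x => π x = π y) = Fin5.part c (c y) := by
      ext x
      rw [Finset.mem_filter, hπ]
      simp [Fin5.part]
    rw [h1]
    exact hs _
  by_contra hlt
  push Not at hlt
  apply hne
  rw [← hGG]
  rw [← hGG] at hdeck
  refine prime_aut p r h4 B hprime G' π hsurj hB hsz k S ?_ H hdeck
  rw [hfil]
  refine lt_of_eq_of_lt ?_ hlt
  have e1 : {j : Fin r | Nonempty (G'.induce {x | π x = k} ≃g G'.induce {x | π x = j})}.ncard =
      {j : ℕ | j ∈ univ.image c ∧ Nonempty (G'.induce {x | c x = i} ≃g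
        G'.induce {x | c x = j})}.ncard := by
    refine Set.ncard_congr (fun a _ => ((e.symm a : {j // j ∈ univ.image c}) : ℕ)) ?_ ?_ ?_
    · intro a ha
      refine ⟨(e.symm a).2, ?_⟩
      have h1 := hset (e.symm a) (e.symm a).2
      have h2 : e ⟨(e.symm a : {j // j ∈ univ.image c}), (e.symm a).2⟩ = a := by
        rw [Subtype.coe_eta, Equiv.apply_symm_apply]
      rw [h2] at h1
      rw [← h1, ← hset i hi]
      exact ha
    · intro a b _ _ hab
      exact e.symm.injective (Subtype.ext hab)
    · rintro j ⟨hj, hjn⟩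
      refine ⟨e ⟨j, hj⟩, ?_, ?_⟩
      · show Nonempty (G'.induce {x | π x = k} ≃g G'.induce {x | π x = e ⟨j, hj⟩})
        rw [hset j hj, hk, hset i hi]
        exact hjn
      · rw [Equiv.symm_apply_apply]
  have e2 : Nat.card (G'.induce {x | π x = k} ≃g G'.induce {x | π x = k}) =
      Nat.card (G'.induce {x | c x = i} ≃g G'.induce {x | c x = i}) := by
    rw [hk, hset i hi]
  rw [e1, e2]

end Pool.Agent.NTW
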