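import Pool.Agent.NTI.L
import Pool.Agent.NTW.TraceD
import Pool.Agent.NTW.Trace7

/-!
The orders, numbers of images and groups of the parts of the centroid of a graph which is not
switching-reconstructible (helper78), for MP_e73337_co.
-/

set_option autoImplicit false

namespace Pool.Agent.NTI

open Finset Pool.Agent.Lib_helper61.SwitchBasic

theorem rich_of_many {α : Type} [DecidableEq α] [Fintype α] {B : SimpleGraph α} {V : Finset α}
    {k : ℕ} (h : Many B V k) : Rich B V k := by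
  obtain ⟨E, h1, h2, h3⟩ := h
  refine ⟨E, h1, h2, fun Y hY Z hZ hYZ => h3 Y hY Z hZ ?_⟩
  obtain ⟨τ, t1, t2, t3⟩ := hYZ
  let φ : B ≃g B := ⟨τ, fun {u v} => t1 u v⟩
  have e1 : Y.map φ.toEquiv.toEmbedding = Z := by
    ext x
    obtain ⟨y, rfl⟩ := τ.surjective x
    have e2 : τ y ∈ Y.map φ.toEquiv.toEmbedding ↔ y ∈ Y := mem_map_perm τ Y y
    rw [e2, t3]
  subst e1
  exact ⟨isoSw φ Y, fun x hx => t2 x hx⟩

/-- The orbit of a module with few images: switching at the module exchanges the two classes. -/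
theorem orbit_flip_rich {α : Type} [DecidableEq α] [Fintype α] {B : SimpleGraph α}
    {f : Finset α → ℚ} (h : Two B f) (V : Finset α) (hb : 2 * V.card < Fintype.card α)
    (hmod : ∀ σ : Equiv.Perm α, IsClassAut B σ → Hom B (V.map σ.toEmbedding))
    (hdis : ∀ σ ρ : Equiv.Perm α, IsClassAut B σ → IsClassAut B ρ →
      V.map σ.toEmbedding ≠ V.map ρ.toEmbedding →
      Disjoint (V.map σ.toEmbedding) (V.map ρ.toEmbedding))
    (hk : Rich B V {W : Finset α | ∃ σ : Equiv.Perm α, IsClassAut B σ ∧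
      W = V.map σ.toEmbedding}.ncard) :
    (∀ S, (0 < f S → f (symmDiff S V) < 0) ∧ (f S < 0 → 0 < f (symmDiff S V))) ∧
      ∀ S, 0 < f S → Even V.card := by
  classical
  have hfin : {W : Finset α | ∃ σ : Equiv.Perm α, IsClassAut B σ ∧
      W = V.map σ.toEmbedding}.Finite := Set.toFinite _
  have hm : ∀ W, W ∈ hfin.toFinset ↔ ∃ σ : Equiv.Perm α, IsClassAut B σ ∧
      W = V.map σ.toEmbedding := fun W => hfin.mem_toFinset
  have hF : Fam B hfin.toFinset V.card := by
    refine ⟨fun W hW => ?_, fun W hW W' hW' hne => ?_, fun W hW ρ hρ => ?_, fun W hW => ?_⟩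
    · obtain ⟨σ, h1, rfl⟩ := (hm W).1 hW
      exact hmod σ h1
    · obtain ⟨σ, h1, rfl⟩ := (hm W).1 hW
      obtain ⟨ρ, h2, rfl⟩ := (hm W').1 hW'
      exact hdis σ ρ h1 h2 hne
    · obtain ⟨σ, h1, rfl⟩ := (hm W).1 hW
      refine (hm _).2 ⟨ρ * σ, caut_mul hρ h1, ?_⟩
      rw [map_map]
      rfl
    · obtain ⟨σ, h1, rfl⟩ := (hm W).1 hW
      exact card_map _
  have hV : V ∈ hfin.toFinset := by
    exact (hm V).2 ⟨1, caut_one B, Finset.map_refl.symm⟩
  have hc : hfin.toFinset.card = {W : Finset α | ∃ σ : Equiv.Perm α, IsClassAut B σ ∧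
      W = V.map σ.toEmbedding}.ncard := (Set.ncard_eq_toFinset_card _ hfin).symm
  have hR : Rich B V hfin.toFinset.card := by rw [hc]; exact hk
  exact ⟨fun S => flipBoth h hF hb hV hR S, fun S hS => evenB h hF hb hV hR S hS⟩

end Pool.Agent.NTI

namespace Pool.Agent.NTW

open Finset Pool.Agent.Lib_helper61.SwitchBasic Pool.Agent.NTI

/-- The number of class automorphisms of `G` which fix every vertex outside `V`. -/
noncomputable def loc {p : ℕ} (G : SimpleGraph (Fin p)) (V : Finset (Fin p)) : ℕ :=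
  {s : Equiv.Perm (Fin p) | IsClassAut G s ∧ ∀ x, x ∉ V → s x = x}.ncard

theorem imgs_map {p : ℕ} (G : SimpleGraph (Fin p)) (V : Finset (Fin p)) (σ : Equiv.Perm (Fin p))
    (hσG : IsClassAut G σ) : imgs G (V.map σ.toEmbedding) = imgs G V := by
  unfold imgs
  congr 1
  ext W
  constructor
  · rintro ⟨s, h2, rfl⟩
    refine ⟨s * σ, caut_mul h2 hσG, ?_⟩
    rw [map_map]
    rfl
  · rintro ⟨s, h2, rfl⟩
    refine ⟨s * σ⁻¹, caut_mul h2 (caut_inv hσG), ?_⟩
    rw [map_map]
    ext z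
    simp only [Finset.mem_map, Function.Embedding.trans_apply, Equiv.coe_toEmbedding,
      Equiv.Perm.mul_apply]
    constructor
    · rintro ⟨x, hx, rfl⟩
      refine ⟨x, hx, ?_⟩
      rw [show σ⁻¹ (σ x) = x from σ.symm_apply_apply x]
    · rintro ⟨x, hx, rfl⟩
      refine ⟨x, hx, ?_⟩
      rw [show σ⁻¹ (σ x) = x from σ.symm_apply_apply x]

theorem loc_map {p : ℕ} (G : SimpleGraph (Fin p)) (V : Finset (Fin p)) (σ : Equiv.Perm (Fin p))
    (hσG : IsClassAut G σ) : loc G (V.map σ.toEmbedding) = loc G V := by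
  unfold loc
  have e1 : ∀ x, σ⁻¹ (σ x) = x := fun x => σ.symm_apply_apply x
  have e2 : ∀ x, σ (σ⁻¹ x) = x := fun x => σ.apply_symm_apply x
  have hinj : Function.Injective fun s : Equiv.Perm (Fin p) => σ * s * σ⁻¹ := by
    intro s t hst
    have h1 : σ * s * σ⁻¹ = σ * t * σ⁻¹ := hst
    exact mul_left_cancel (mul_right_cancel h1)
  have hset : {s : Equiv.Perm (Fin p) | IsClassAut G s ∧ ∀ x, x ∉ V.map σ.toEmbedding → s x = x} =
      (fun s : Equiv.Perm (Fin p) => σ * s * σ⁻¹) ''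
        {s : Equiv.Perm (Fin p) | IsClassAut G s ∧ ∀ x, x ∉ V → s x = x} := by
    ext t
    constructor
    · rintro ⟨h1, h2⟩
      refine ⟨σ⁻¹ * t * σ, ⟨caut_mul (caut_mul (caut_inv hσG) h1) hσG, fun x hx => ?_⟩, ?_⟩
      · rw [Equiv.Perm.mul_apply, Equiv.Perm.mul_apply, h2 (σ x) (fun h => hx
          ((mem_map_perm σ V x).1 h)), e1]
      · show σ * (σ⁻¹ * t * σ) * σ⁻¹ = t
        group
    · rintro ⟨s, ⟨h1, h2⟩, rfl⟩
      refine ⟨caut_mul (caut_mul hσG h1) (caut_inv hσG), fun x hx => ?_⟩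
      show (σ * s * σ⁻¹) x = x
      rw [Equiv.Perm.mul_apply, Equiv.Perm.mul_apply, h2 (σ⁻¹ x), e2]
      intro h
      apply hx
      have := (mem_map_perm σ V (σ⁻¹ x)).2 h
      rw [e2] at this
      exact this
  rw [hset, Set.ncard_image_of_injective _ hinj]

theorem trace_prop1 (s t x v : Prop) (hv : v) (h : t ↔ (s ∧ ¬ x ∨ x ∧ ¬ s)) :
    (v ∧ ((s ↔ t) ↔ False)) ↔ (x ∧ v) := by
  rw [h]
  by_cases h1 : s <;> by_cases h2 : x <;> simp [h1, h2, hv]

theorem trace_prop2 (s t x v : Prop) (hv : v) (h : t ↔ ¬ (s ∧ ¬ x ∨ x ∧ ¬ s)) :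
    (v ∧ ((s ↔ t) ↔ True)) ↔ (x ∧ v) := by
  rw [h]
  by_cases h1 : s <;> by_cases h2 : x <;> simp [h1, h2, hv]

/-- **The parts of a class-invariant partition of a counterexample.** -/
theorem part_orders (p : ℕ) (G H : SimpleGraph (Fin p)) (hdeck : SameDeck G H)
    (hne : ¬ Nonempty (G ≃g H)) (c : Fin p → ℕ) (hmod : ∀ i, IsMod G (Fin5.part c i))
    (hs : ∀ i, 2 * (Fin5.part c i).card < p)
    (hinv : ∀ s : Equiv.Perm (Fin p), IsClassAut G s → ∀ x y, c x = c y → c (s x) = c (s y)) :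
    ∃ E : Finset ℕ, E ⊆ univ.image c ∧ (E.card ≤ 2 ∨ E.card = 4) ∧
      (∀ i ∈ univ.image c, 2 ^ (((Fin5.part c i).card + 1) / 2) ≤
        2 * (imgs G (Fin5.part c i) * loc G (Fin5.part c i))) ∧
      (∀ i ∈ univ.image c, i ∉ E → (Fin5.part c i).card < 2 * imgs G (Fin5.part c i) ∧
        2 ^ (Fin5.part c i).card ≤ 2 * (imgs G (Fin5.part c i) * loc G (Fin5.part c i))) ∧
      ∀ i ∈ E, Even (Fin5.part c i).card := by
  classical
  have hp0 : 0 < p := by
    have := hs 0
    omega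
  obtain ⟨S, hS⟩ := t_REP (Fin p) G c hmod
  set B := sw G S with hB
  have hG : sw B S = G := by
    rw [hB, sw_sw, symmDiff_self, Finset.bot_eq_empty, sw_empty]
  have hdeck' : SameDeck (sw B S) H := by
    rw [hG]
    exact hdeck
  have hne' : ¬ Nonempty (sw B S ≃g H) := by
    rw [hG]
    exact hne
  have h := two_ff hdeck' ⟨0, hp0⟩
  set f : Finset (Fin p) → ℚ := fun T => ff (sw B S) H (symmDiff S T) with hf
  have hf0 : 0 < f S := by
    show 0 < ff (sw B S) H (symmDiff S S)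
    rw [symmDiff_self, Finset.bot_eq_empty, ff_empty hne']
    exact cntGH hdeck' ⟨0, hp0⟩
  have hcl : ∀ σ : Equiv.Perm (Fin p), IsClassAut B σ ↔ IsClassAut G σ := fun σ => caut_sw G S σ
  have hmp : ∀ i x, x ∈ Fin5.part c i ↔ c x = i := fun i x => Fin5.mem_part c i x
  -- the images of the parts
  have himg : ∀ σ : Equiv.Perm (Fin p), IsClassAut B σ → ∀ x₀,
      (Fin5.part c (c x₀)).map σ.toEmbedding = Fin5.part c (c (σ x₀)) := by
    intro σ hσ x₀
    ext z
    obtain ⟨y, rfl⟩ := σ.surjective z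
    rw [mem_map_perm, hmp, hmp]
    constructor
    · intro h1
      exact hinv σ ((hcl σ).1 hσ) y x₀ h1
    · intro h1
      have h2 := hinv σ⁻¹ ((hcl _).1 (caut_inv hσ)) (σ y) (σ x₀) h1
      rw [show σ⁻¹ (σ y) = y from σ.symm_apply_apply y,
        show σ⁻¹ (σ x₀) = x₀ from σ.symm_apply_apply x₀] at h2
      exact h2
  have hHom : ∀ i, Hom B (Fin5.part c i) := by
    intro i x hx y hy z hz
    rw [hmp] at hx hy hz
    exact hS z x y (hx.trans hy.symm) (fun h1 => hz (h1.trans hx))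
  have hdisj : ∀ i j, i ≠ j → Disjoint (Fin5.part c i) (Fin5.part c j) := by
    intro i j hij
    rw [disjoint_left]
    intro x hx hx'
    rw [hmp] at hx hx'
    exact hij (hx.symm.trans hx')
  have hout : ∀ i, ∃ z, z ∉ Fin5.part c i := by
    intro i
    refine out ?_
    rw [Fintype.card_fin]
    have := hs i
    omega
  have himgs : ∀ V : Finset (Fin p), imgs G V = {W : Finset (Fin p) |
      ∃ s : Equiv.Perm (Fin p), IsClassAut B s ∧ W = V.map s.toEmbedding}.ncard := by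
    intro V
    unfold imgs
    congr 1
    ext W
    constructor
    · rintro ⟨s, h1, h2⟩
      exact ⟨s, (hcl s).2 h1, h2⟩
    · rintro ⟨s, h1, h2⟩
      exact ⟨s, (hcl s).1 h1, h2⟩
  have hloc : ∀ V : Finset (Fin p), loc G V = (Loc B V).ncard := by
    intro V
    unfold loc
    congr 1
    ext s
    constructor
    · rintro ⟨h1, h2⟩
      exact ⟨(hcl s).2 h1, h2⟩
    · rintro ⟨h1, h2⟩
      exact ⟨(hcl s).1 h1, h2⟩
  have hflip : ∀ x₀, (2 * imgs G (Fin5.part c (c x₀)) ≤ (Fin5.part c (c x₀)).card ∨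
      2 * (imgs G (Fin5.part c (c x₀)) * loc G (Fin5.part c (c x₀))) <
        2 ^ (Fin5.part c (c x₀)).card) →
      (∀ T, (0 < f T → f (symmDiff T (Fin5.part c (c x₀))) < 0) ∧
        (f T < 0 → 0 < f (symmDiff T (Fin5.part c (c x₀))))) ∧
      ∀ T, 0 < f T → Even (Fin5.part c (c x₀)).card := by
    intro x₀ hk
    refine orbit_flip_rich h _ ?_ ?_ ?_ ?_
    · rw [Fintype.card_fin]
      exact hs _
    · intro σ hσ
      rw [himg σ hσ x₀]
      exact hHom _
    · intro σ ρ hσ hρ hne1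
      rw [himg σ hσ x₀, himg ρ hρ x₀] at hne1 ⊢
      exact hdisj _ _ fun h1 => hne1 (by rw [h1])
    · rw [← himgs]
      rcases hk with hk | hk
      · exact rich_of_le _ hk
      · refine rich_of_many (many_of_loc B _ (hout _) _ ?_)
        rw [← hloc, mul_assoc]
        exact hk
  set E : Finset ℕ := (univ.image c).filter fun i =>
    (2 * imgs G (Fin5.part c i) ≤ (Fin5.part c i).card ∨
      2 * (imgs G (Fin5.part c i) * loc G (Fin5.part c i)) < 2 ^ (Fin5.part c i).card) with hE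
  have hmE : ∀ i, i ∈ E ↔ i ∈ univ.image c ∧
      (2 * imgs G (Fin5.part c i) ≤ (Fin5.part c i).card ∨
        2 * (imgs G (Fin5.part c i) * loc G (Fin5.part c i)) < 2 ^ (Fin5.part c i).card) :=
    fun i => by rw [hE, mem_filter]
  have hrep : ∀ i ∈ univ.image c, ∃ x₀, c x₀ = i := by
    intro i hi
    obtain ⟨x, -, hx⟩ := Finset.mem_image.1 hi
    exact ⟨x, hx⟩
  refine ⟨E, filter_subset _ _, ?_, fun i hi => ?_, fun i hi hiE => ?_, fun i hiE => ?_⟩
  · have hcard : (E.image (Fin5.part c)).card = E.card := by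
      refine card_image_of_injOn fun i hi j hj hij => ?_
      obtain ⟨x₀, hx₀⟩ := hrep i ((hmE i).1 hi).1
      have h1 : x₀ ∈ Fin5.part c i := (hmp _ _).2 hx₀
      have hij' : Fin5.part c i = Fin5.part c j := hij
      rw [hij', hmp] at h1
      exact hx₀.symm.trans h1
    rw [← hcard]
    refine few h (E.image (Fin5.part c)) ?_ ?_ ?_ ?_ ?_ ?_ S hf0
    · intro V hV
      obtain ⟨i, -, rfl⟩ := Finset.mem_image.1 hV
      exact hHom i
    · intro V hV
      obtain ⟨i, hi, rfl⟩ := Finset.mem_image.1 hV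
      obtain ⟨x₀, hx₀⟩ := hrep i ((hmE i).1 hi).1
      exact ⟨x₀, (hmp _ _).2 hx₀⟩
    · intro V hV W hW hVW
      obtain ⟨i, -, rfl⟩ := Finset.mem_image.1 hV
      obtain ⟨j, -, rfl⟩ := Finset.mem_image.1 hW
      exact hdisj i j fun h1 => hVW (by rw [h1])
    · intro V hV σ hσ
      obtain ⟨i, hi, rfl⟩ := Finset.mem_image.1 hV
      obtain ⟨x₀, rfl⟩ := hrep i ((hmE i).1 hi).1
      have hσG := (hcl σ).1 hσ
      have hi2 := ((hmE _).1 hi).2
      rw [himg σ hσ x₀]
      refine Finset.mem_image_of_mem _ ((hmE _).2 ⟨Finset.mem_image_of_mem c (Finset.mem_univ _), ?_⟩)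
      rw [← himg σ hσ x₀, card_map, imgs_map G _ σ hσG, loc_map G _ σ hσG]
      exact hi2
    · intro V hV
      obtain ⟨i, -, rfl⟩ := Finset.mem_image.1 hV
      exact hout i
    · intro V hV
      obtain ⟨i, hi, rfl⟩ := Finset.mem_image.1 hV
      obtain ⟨x₀, rfl⟩ := hrep i ((hmE i).1 hi).1
      exact (hflip x₀ ((hmE _).1 hi).2).1
  · -- the traces
    by_contra hcon
    push Not at hcon
    apply hne
    obtain ⟨x₀, rfl⟩ := hrep i hi
    set V := Fin5.part c (c x₀) with hV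
    refine few_traces p G V (hs _) ?_ H hdeck
    refine lt_of_le_of_lt ?_ hcon
    -- a class automorphism for each image
    have hch : ∀ W : {W : Finset (Fin p) | ∃ s : Equiv.Perm (Fin p), IsClassAut G s ∧
        W = V.map s.toEmbedding}, ∃ s : Equiv.Perm (Fin p), IsClassAut G s ∧
        W.1 = V.map s.toEmbedding := fun W => W.2
    choose θ hθ1 hθ2 using hch
    set F : ({W : Finset (Fin p) | ∃ s : Equiv.Perm (Fin p), IsClassAut G s ∧
        W = V.map s.toEmbedding} ×
        {s : Equiv.Perm (Fin p) | IsClassAut G s ∧ ∀ x, x ∉ V → s x = x} × Bool) →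
        Finset (Fin p) := fun t => V.filter fun z =>
          ((z ∈ S ↔ θ t.1 (t.2.1.1 z) ∈ S) ↔ t.2.2 = true) with hF
    have hsub : {P : Finset (Fin p) | ∃ X : Finset (Fin p), Nonempty (sw G X ≃g G) ∧
        P = X ∩ V} ⊆ Set.range F := by
      rintro P ⟨X, ⟨φ⟩, rfl⟩
      have had : ∀ u v, (sw B S).Adj (φ.toEquiv u) (φ.toEquiv v) ↔
          (sw B (symmDiff S X)).Adj u v := by
        intro u v
        rw [← sw_sw, hG]
        exact φ.map_rel_iff'
      have hσG : IsClassAut G φ.toEquiv := by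
        let ψ : sw B (symmDiff S X) ≃g sw B S := ⟨φ.toEquiv, fun {u v} => had u v⟩
        exact (hcl _).1 (classAut_of_iso B (symmDiff S X) S ψ)
      generalize φ.toEquiv = σ at hσG had
      have hW : V.map σ.toEmbedding = Fin5.part c (c (σ x₀)) := himg σ ((hcl σ).2 hσG) x₀
      have hcore := core had (hHom (c x₀)) (by rw [← hV, hW]; exact hHom _ :
        Hom B ((Fin5.part c (c x₀)).map σ.toEmbedding))
        (fun x => mem_map_perm σ (Fin5.part c (c x₀)) x) (hout (c x₀))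
      rw [← hV] at hcore
      let w : {W : Finset (Fin p) | ∃ s : Equiv.Perm (Fin p), IsClassAut G s ∧
        W = V.map s.toEmbedding} := ⟨V.map σ.toEmbedding, σ, hσG, rfl⟩
      have hρ : IsClassAut G ((θ w)⁻¹ * σ) := caut_mul (caut_inv (hθ1 w)) hσG
      have hρV : ∀ x, ((θ w)⁻¹ * σ) x ∈ V ↔ x ∈ V := by
        intro x
        have h1 := mem_map_perm σ V x
        have h2 : σ x ∈ w.1 ↔ (θ w)⁻¹ (σ x) ∈ V := by
          have h3 := mem_map_perm (θ w) V ((θ w)⁻¹ (σ x))
          rw [show θ w ((θ w)⁻¹ (σ x)) = σ x from (θ w).apply_symm_apply (σ x)] at h3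
          rw [hθ2 w]
          exact h3
        rw [Equiv.Perm.mul_apply, ← h2]
        exact h1
      obtain ⟨τ, t1, t2, t3⟩ := restrB (hHom (c x₀)) (hout (c x₀)) ((hcl _).2 hρ) hρV
      have hτG : IsClassAut G τ := (hcl τ).1 ⟨∅, fun u v => by rw [sw_empty]; exact t1 u v⟩
      have hval : ∀ z ∈ V, θ w (τ z) = σ z := by
        intro z hz
        rw [t2 z hz, Equiv.Perm.mul_apply]
        exact (θ w).apply_symm_apply (σ z)
      rcases hcore with h1 | h1
      · refine ⟨(w, ⟨τ, hτG, t3⟩, false), ?_⟩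
        ext z
        rw [hF, Finset.mem_filter, Finset.mem_inter]
        show (z ∈ V ∧ ((z ∈ S ↔ θ w (τ z) ∈ S) ↔ (false = true))) ↔ (z ∈ X ∧ z ∈ V)
        by_cases hz : z ∈ V
        · have h2 := h1 z hz
          rw [hval z hz, show (false = true) = False by simp]
          rw [mem_symmDiff] at h2
          exact trace_prop1 _ _ _ _ hz h2
        · exact ⟨fun h => absurd h.1 hz, fun h => absurd h.2 hz⟩
      · refine ⟨(w, ⟨τ, hτG, t3⟩, true), ?_⟩
        ext z
        rw [hF, Finset.mem_filter, Finset.mem_inter]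
        show (z ∈ V ∧ ((z ∈ S ↔ θ w (τ z) ∈ S) ↔ (true = true))) ↔ (z ∈ X ∧ z ∈ V)
        by_cases hz : z ∈ V
        · have h2 := h1 z hz
          rw [hval z hz, show (true = true) = True by simp]
          rw [mem_symmDiff] at h2
          exact trace_prop2 _ _ _ _ hz h2
        · exact ⟨fun h => absurd h.1 hz, fun h => absurd h.2 hz⟩
    have h1 := Set.ncard_le_ncard hsub (Set.toFinite _)
    refine h1.trans ?_
    have h2 : (Set.range F).ncard ≤ Nat.card ({W : Finset (Fin p) | ∃ s : Equiv.Perm (Fin p),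
        IsClassAut G s ∧ W = V.map s.toEmbedding} ×
        {s : Equiv.Perm (Fin p) | IsClassAut G s ∧ ∀ x, x ∉ V → s x = x} × Bool) := by
      rw [← Nat.card_coe_set_eq]
      exact Finite.card_range_le F
    refine h2.trans ?_
    rw [Nat.card_prod, Nat.card_prod, Nat.card_eq_fintype_card (α := Bool), Fintype.card_bool,
      Nat.card_coe_set_eq, Nat.card_coe_set_eq]
    apply le_of_eq
    unfold imgs loc
    ring
  · constructor
    · by_contra hcon
      push Not at hcon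
      exact hiE ((hmE i).2 ⟨hi, Or.inl hcon⟩)
    · by_contra hcon
      push Not at hcon
      exact hiE ((hmE i).2 ⟨hi, Or.inr hcon⟩)
  · obtain ⟨x₀, rfl⟩ := hrep i ((hmE i).1 hiE).1
    exact (hflip x₀ ((hmE _).1 hiE).2).2 S hf0

end Pool.Agent.NTW
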