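import Pool.Agent.NTW.Half3

/-!
Sparse graphs with at least three components (MP_e73337_co, helper48, idea of helper94): the whole class.
-/

set_option autoImplicit false

namespace Pool.Agent.NTW.Half

open Finset Pool.Agent.Lib_helper61.SwitchBasic Pool.Agent.Lib_helper61.SwMain

variable {α : Type} [Fintype α] [DecidableEq α]

/-- If every degree is less than a quarter of the number of vertices then class automorphisms are
automorphisms. -/
theorem classAut_aut (C : SimpleGraph α) [DecidableRel C.Adj]
    (hdeg : ∀ v, 4 * C.degree v < Fintype.card α) (σ : Equiv.Perm α) (hσ : IsClassAut C σ) (u v : α) :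
    C.Adj (σ u) (σ v) ↔ C.Adj u v := by
  obtain ⟨S, hS⟩ := hσ
  have hiso : Nonempty (sw C S ≃g C) := by
    refine ⟨?_⟩
    exact (SimpleGraph.Iso.symm { toEquiv := σ, map_rel_iff' := by intro a b; exact hS a b })
  have h := copies_deg C hdeg S hiso
  rcases h with h | h
  · have h0 : S = ∅ := by
      rw [← Finset.card_eq_zero]
      omega
    subst h0
    have := hS u v
    rwa [sw_empty] at this
  · have h0 : S = univ := by
      rw [← Finset.card_eq_iff_eq_univ]
      have := Finset.card_le_univ S
      omega
    subst h0
    have := hS u v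
    rwa [sw_univ] at this

/-- The whole switching class of a sparse graph with at least three components. -/
theorem whole (hn4 : Fintype.card α ≠ 4) (C : SimpleGraph α) [DecidableRel C.Adj]
    (hdeg : ∀ v, 4 * C.degree v < Fintype.card α) (h3 : 3 ≤ Nat.card C.ConnectedComponent)
    (hsz : ∀ c : C.ConnectedComponent, c.supp.ncard + 3 ≤ Fintype.card α) (X : Finset α)
    (H : SimpleGraph α) (hdeck : SameDeck (sw C X) H) : Nonempty (sw C X ≃g H) := by
  refine main_comps (Γ := C) hn4 h3 hsz (fun σ hσ u v => classAut_aut C hdeg σ hσ u v) X ?_ hdeck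
  rw [sw_sw]
  simp [sw_empty]

/-- If `C` has at most `p - 3` edges, `p` even, then class automorphisms are automorphisms. -/
theorem classAut_aut_edges (C : SimpleGraph α) [DecidableRel C.Adj] (hp : Even (Fintype.card α))
    (hm : C.edgeFinset.card + 3 ≤ Fintype.card α) (σ : Equiv.Perm α) (hσ : IsClassAut C σ)
    (u v : α) : C.Adj (σ u) (σ v) ↔ C.Adj u v := by
  classical
  obtain ⟨S, hS⟩ := hσ
  have hiso : Nonempty (sw C S ≃g C) := by
    refine ⟨?_⟩
    exact (SimpleGraph.Iso.symm { toEquiv := σ, map_rel_iff' := by intro a b; exact hS a b })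
  have h1 := ee_sw C S
  rw [ee_iso hiso] at h1
  have hc := Finset.card_compl_add_card S
  have h0 : (S.card : ℤ) * (Sᶜ.card : ℤ) = 2 * cut C S := by linarith
  have h2 : 2 * cut C S ≤ ee C := by
    have e1 : 2 * cut C S = cut C S + cut C Sᶜ := by rw [cut_compl]; ring
    rw [e1]
    unfold ee
    rw [← Finset.sum_add_sum_compl S]
    refine add_le_add ?_ ?_
    · unfold cut
      refine Finset.sum_le_sum fun i _ => ?_
      refine Finset.sum_le_sum_of_subset_of_nonneg (Finset.subset_univ _) fun j _ _ => ?_
      split_ifs <;> norm_num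
    · unfold cut
      refine Finset.sum_le_sum fun i _ => ?_
      refine Finset.sum_le_sum_of_subset_of_nonneg (Finset.subset_univ _) fun j _ _ => ?_
      split_ifs <;> norm_num
  have h3 : ee C = 2 * (C.edgeFinset.card : ℤ) := by
    have e2 : ee C = ((∑ i : α, C.degree i : ℕ) : ℤ) := by
      unfold ee
      push_cast
      refine Finset.sum_congr rfl fun i _ => ?_
      rw [← SimpleGraph.card_neighborFinset_eq_degree, sum_adj]
      congr 2
      ext j
      simp
    rw [e2, C.sum_degrees_eq_twice_card_edges]
    push_cast
    ring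
  have h8 : (S.card : ℤ) * (Sᶜ.card : ℤ) ≤ 2 * (C.edgeFinset.card : ℤ) := by linarith
  have h9 : S.card * Sᶜ.card ≤ 2 * C.edgeFinset.card := by exact_mod_cast h8
  obtain ⟨j, hj⟩ := hp
  have hpar : ¬ Odd (S.card * Sᶜ.card) := by
    intro ho
    have : Odd ((S.card : ℤ) * (Sᶜ.card : ℤ)) := by exact_mod_cast ho
    rw [h0] at this
    exact (Int.not_odd_iff_even.2 ⟨cut C S, by ring⟩) this
  have hcases : S.card = 0 ∨ Sᶜ.card = 0 := by
    by_contra hcon
    push Not at hcon
    obtain ⟨ha, hb⟩ := hcon
    rcases Nat.lt_or_ge S.card 2 with h4 | h4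
    · have h5 : S.card = 1 := by omega
      apply hpar
      rw [h5, one_mul]
      exact ⟨j - 1, by omega⟩
    · rcases Nat.lt_or_ge Sᶜ.card 2 with h6 | h6
      · have h5 : Sᶜ.card = 1 := by omega
        apply hpar
        rw [h5, mul_one]
        exact ⟨j - 1, by omega⟩
      · obtain ⟨x, hx⟩ := Nat.exists_eq_add_of_le h4
        obtain ⟨y, hy⟩ := Nat.exists_eq_add_of_le h6
        have h7 : 2 * (S.card + Sᶜ.card) ≤ S.card * Sᶜ.card + 4 := by
          rw [hx, hy]
          nlinarith
        omega
  rcases hcases with h | h
  · have h0 : S = ∅ := Finset.card_eq_zero.1 h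
    subst h0
    have := hS u v
    rwa [sw_empty] at this
  · have h0 : S = univ := by
      rw [Finset.card_eq_zero] at h
      rwa [Finset.compl_eq_empty_iff] at h
    subst h0
    have := hS u v
    rwa [sw_univ] at this

/-- The number of vertices of a component is at most one more than the number of edges. -/
theorem comp_le (C : SimpleGraph α) [DecidableRel C.Adj] (c : C.ConnectedComponent) :
    c.supp.ncard ≤ C.edgeFinset.card + 1 := by
  classical
  have h1 := c.connected_toSimpleGraph.card_vert_le_card_edgeSet_add_one
  have h2 : Nat.card c.supp = c.supp.ncard := rfl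
  have h3 : Nat.card c.toSimpleGraph.edgeSet ≤ Nat.card C.edgeSet := by
    refine Nat.card_le_card_of_injective
      (fun e : c.toSimpleGraph.edgeSet => (⟨Sym2.map Subtype.val e.1, ?_⟩ : C.edgeSet)) ?_
    · rcases e with ⟨e, he⟩
      induction e using Sym2.ind with
      | _ a b =>
        have h5 : c.toSimpleGraph.Adj a b := he
        have h6 : C.Adj (a : α) (b : α) := h5
        simpa using h6
    · intro e e' h
      have h4 := congrArg Subtype.val h
      exact Subtype.ext (Sym2.map.injective Subtype.val_injective h4)
  have h4 : Nat.card C.edgeSet = C.edgeFinset.card := by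
    rw [Nat.card_eq_fintype_card, ← SimpleGraph.edgeFinset_card]
  rw [← h2]
  have h5 : Nat.card c.supp ≤ Nat.card c.toSimpleGraph.edgeSet + 1 := h1
  omega

/-- A graph with at most two components has at least `p - 2` edges. -/
theorem comps_ge (C : SimpleGraph α) [DecidableRel C.Adj]
    (hm : C.edgeFinset.card + 3 ≤ Fintype.card α) : 3 ≤ Nat.card C.ConnectedComponent := by
  classical
  by_contra hcon
  push Not at hcon
  have : Finite C.ConnectedComponent := Finite.of_surjective C.connectedComponentMk Quot.exists_rep
  have : Fintype C.ConnectedComponent := Fintype.ofFinite _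
  have hpos : 0 < Fintype.card α := by omega
  obtain ⟨x⟩ : Nonempty α := Fintype.card_pos_iff.1 hpos
  -- a vertex `y` such that every vertex is in the component of `x` or of `y`
  obtain ⟨y, hy⟩ : ∃ y, ∀ z, C.Reachable x z ∨ C.Reachable y z := by
    by_cases h : ∃ y, ¬ C.Reachable x y
    · obtain ⟨y, hy⟩ := h
      refine ⟨y, fun z => ?_⟩
      by_contra hz
      push Not at hz
      have hsub : ({C.connectedComponentMk x, C.connectedComponentMk y,
          C.connectedComponentMk z} : Finset C.ConnectedComponent) ⊆ univ := Finset.subset_univ _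
      have h1 := Finset.card_le_card hsub
      rw [Finset.card_univ, ← Nat.card_eq_fintype_card] at h1
      have h2 : ({C.connectedComponentMk x, C.connectedComponentMk y,
          C.connectedComponentMk z} : Finset C.ConnectedComponent).card = 3 := by
        rw [Finset.card_eq_three]
        refine ⟨_, _, _, ?_, ?_, ?_, rfl⟩
        · intro h; exact hy (SimpleGraph.ConnectedComponent.eq.1 h)
        · intro h; exact hz.1 (SimpleGraph.ConnectedComponent.eq.1 h)
        · intro h; exact hz.2 (SimpleGraph.ConnectedComponent.eq.1 h)
      omega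
    · push Not at h
      exact ⟨x, fun z => Or.inl (h z)⟩
  -- add the edge `xy`
  by_cases hxy : x = y
  · have hconn : C.Connected := by
      have : Nonempty α := ⟨x⟩
      refine ⟨fun a b => ?_⟩
      have ha := hy a
      have hb := hy b
      rw [← hxy, or_self] at ha hb
      exact ha.symm.trans hb
    have h1 := hconn.card_vert_le_card_edgeSet_add_one
    rw [Nat.card_eq_fintype_card, Nat.card_eq_fintype_card, ← SimpleGraph.edgeFinset_card] at h1
    omega
  · set D : SimpleGraph α := C ⊔ SimpleGraph.edge x y with hD
    have hle : C ≤ D := le_sup_left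
    have hadj : D.Adj x y := by
      rw [hD, SimpleGraph.sup_adj, SimpleGraph.edge_adj]
      exact Or.inr ⟨Or.inl ⟨rfl, rfl⟩, hxy⟩
    have hx : ∀ z, D.Reachable x z := by
      intro z
      rcases hy z with h | h
      · exact h.mono hle
      · exact hadj.reachable.trans (h.mono hle)
    have hconn : D.Connected := by
      have : Nonempty α := ⟨x⟩
      exact ⟨fun a b => (hx a).symm.trans (hx b)⟩
    have h1 := hconn.card_vert_le_card_edgeSet_add_one
    rw [Nat.card_eq_fintype_card, Nat.card_eq_fintype_card, ← SimpleGraph.edgeFinset_card] at h1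
    have h2 : D.edgeFinset ⊆ insert s(x, y) C.edgeFinset := by
      intro e he
      induction e using Sym2.ind with
      | _ a b =>
        rw [SimpleGraph.mem_edgeFinset, SimpleGraph.mem_edgeSet, hD, SimpleGraph.sup_adj,
          SimpleGraph.edge_adj] at he
        rw [Finset.mem_insert, SimpleGraph.mem_edgeFinset, SimpleGraph.mem_edgeSet, Sym2.eq_iff]
        rcases he with h | h
        · exact Or.inr h
        · left
          rcases h.1 with h | h
          · left; exact ⟨h.1, h.2⟩
          · right; exact ⟨h.1, h.2⟩
    have h3 := (Finset.card_le_card h2).trans (Finset.card_insert_le _ _)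
    omega

/-- The whole switching class of a graph with at most `p - 4` edges. -/
theorem whole_edges (hn4 : Fintype.card α ≠ 4) (C : SimpleGraph α) [DecidableRel C.Adj]
    (hm : C.edgeFinset.card + 4 ≤ Fintype.card α) (X : Finset α)
    (H : SimpleGraph α) (hdeck : SameDeck (sw C X) H) : Nonempty (sw C X ≃g H) := by
  by_contra hne
  obtain ⟨h4, -⟩ := four_dvd hdeck hne
  apply hne
  have hev : Even (Fintype.card α) := by
    obtain ⟨j, hj⟩ := h4
    exact ⟨2 * j, by omega⟩
  refine main_comps (Γ := C) hn4 (comps_ge C (by omega)) (fun c => ?_)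
    (fun σ hσ u v => classAut_aut_edges C hev (by omega) σ hσ u v) X ?_ hdeck
  · have := comp_le C c
    omega
  · rw [sw_sw]
    simp [sw_empty]

end Pool.Agent.NTW.Half
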